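import Pool.Agent.R432.RB4

/-!
# The Tate-Shafarevich groups of `y² = x³ + b x` over Kummer extensions
-/

set_option autoImplicit false
set_option linter.unusedSectionVars false

attribute [-instance] DivisionRing.toRatAlgebra

namespace Pool.Agent.R432.RB

open WeierstrassCurve NumberField IsDedekindDomain

open Pool.Agent.TH841.NF (Sc tm act_tm tm_act tm_neg tm_tm tm_id tm_inj act_act act_id aL Loc cor
  cor_coc cor_cob cor_add cor_zero_of cor_loc sum_cor sec sec_spec sec_one coc_fin coc_of_fin
  aut_of_two place_p place_r mem_H)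

open Pool.Agent.TH841.SH.D (Pt act Gal Coch IsCoc IsCob LocTriv cob)

open Pool.Agent.TH841.NF.D (Sha shaCoc IsShaCoc)

/-- **The trivial extension** -/
theorem triv_ext {k F : Type} [Field k] [NumberField k] [Field F] [NumberField F] [Algebra k F]
    {E : WeierstrassCurve k} {W : WeierstrassCurve F} (hW : Sc (algebraMap k F) 1 E W)
    (E1 : E.a₁ = 0) (E3 : E.a₃ = 0) (hs : Function.Surjective (algebraMap k F)) {a : ℕ}
    (h1 : Kl (Sha E) a) : Kl (Sha W) a := by
  have hfd : FiniteDimensional k F :=
    Module.Finite.of_surjective (Algebra.linearMap k F) hs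
  obtain ⟨e, he⟩ := exists_eK k F
  have hr : (1 : F) ^ 2 = algebraMap k F 1 := by rw [one_pow, map_one]
  have hd : (1 : k) ≠ 0 := one_ne_zero
  have hgen : IntermediateField.adjoin k {(1 : F)} = ⊤ := by
    rw [eq_top_iff]
    intro x _
    obtain ⟨y, rfl⟩ := hs x
    exact IntermediateField.algebraMap_mem _ y
  have hfx : ∀ g : Gal k, FxK e g := by
    intro g x
    obtain ⟨y, rfl⟩ := hs x
    rw [he, AlgEquiv.commutes]
  have hk : Kl (Sha (twk (dB (1 : k) false) E)) a := by
    have : twk (dB (1 : k) false) E = E := twk_one E1 E3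
    rw [this]
    exact h1
  intro n x hx
  have h3 : thS hW E1 E3 e he hr hd hgen false (2 ^ a • x) = 0 := by
    rw [map_nsmul]
    refine hk n _ ?_
    rw [← map_nsmul, hx, map_zero]
  induction x using QuotientAddGroup.induction_on with
  | H f =>
    have h4 : IsCob (twk (dB (1 : k) false) E)
        (Th hW E1 E3 e he hr hd false ((2 ^ a • f : shaCoc W) : Coch W)) :=
      (QuotientAddGroup.eq_zero_iff (thC hW E1 E3 e he hr hd hgen false (2 ^ a • f))).1 h3
    have h5 : IsCob W ((2 ^ a • f : shaCoc W) : Coch W) := by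
      obtain ⟨P, hP⟩ := h4
      obtain ⟨Q, hQ⟩ := tw_surj E1 E3 (uB_sq (rhK_sq e he hr) false)
        (uB_ne (rhK_ne e he hr hd) false) (sB E1 E3 e he hr hd false) P
      have g1 : ∀ g : Gal k, trK hW e he ((2 ^ a • f : shaCoc W) : Coch W) g =
          aK E g Q - Q := by
        intro g
        have hg : g ∈ HH e he hr hd := (mem_HH e he hr hd hgen g).2 (hfx g)
        have g2 := sum_cor (T := Unit) (sec_spec (HH e he hr hd)) (sec_one _) (aK E)
          (fun _ => 1) 1 (fun _ _ => by simp) (fun g hg' =>
            absurd ((mem_HH e he hr hd hgen g).2 (hfx g)) hg')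
          (trK hW e he ((2 ^ a • f : shaCoc W) : Coch W)) g hg
        rw [one_smul, Finset.univ_unique, Finset.sum_singleton] at g2
        rw [← g2]
        apply tm_inj (sB E1 E3 e he hr hd false)
        refine (hP g).trans ?_
        rw [map_sub, hQ]
        congr 1
        have h2 := tw_actK (sB E1 E3 e he hr hd false) g.toAlgHom _
          (chB_pm (rhK_sq e he hr) (rhK_ne e he hr hd) false g)
          (chB_spec (rhK_sq e he hr) (rhK_ne e he hr hd) false g) Q
        rw [chB_H _ _ false g hg, one_smul, hQ] at h2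
        exact h2.symm
      obtain ⟨R, hR⟩ := any_surj hW e he Q
      refine ⟨R, fun σ => ?_⟩
      apply tm_inj (se hW e he)
      rw [← trK_cQK hW e he, g1, ← hR, map_sub]
      congr 1
      have := trK_act hW e he (cQK_fx e he σ) R
      rw [cFK_cQK] at this
      exact this.symm
    exact (QuotientAddGroup.eq_zero_iff (2 ^ a • f)).2 h5

/-- the curve `y² = x³ + b x` -/
def E4 {k : Type} [Field k] (b : k) : WeierstrassCurve k := ⟨0, 0, 0, b, 0⟩

lemma sc4 {k F : Type} [Field k] [Field F] [Algebra k F] (b : k) :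
    Sc (algebraMap k F) 1 (E4 b) (E4 (algebraMap k F b)) := by
  refine ⟨one_ne_zero, ?_, ?_, ?_, ?_, ?_⟩ <;> simp [E4]

lemma twk4 {k : Type} [Field k] (d b : k) : twk d (E4 b) = E4 (d ^ 2 * b) := by
  unfold twk E4
  simp

/-- a quadratic step -/
theorem step2 {k F : Type} [Field k] [NumberField k] [Field F] [NumberField F] [Algebra k F]
    {r : F} {d b : k} (hr : r ^ 2 = algebraMap k F d) (hd : d ≠ 0)
    (hgen : IntermediateField.adjoin k {r} = ⊤) {a : ℕ}
    (h1 : Kl (Sha (E4 b)) a) (h2 : Kl (Sha (E4 (d ^ 2 * b))) a) :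
    Kl (Sha (E4 (algebraMap k F b))) (a + 1) := by
  rw [← twk4] at h2
  exact quad (sc4 b) rfl rfl hr hd hgen h1 h2

lemma adj_gen {k F : Type} [Field k] [Field F] [Algebra k F] (r : F) :
    IntermediateField.adjoin k {IntermediateField.AdjoinSimple.gen k r} = ⊤ := by
  apply IntermediateField.lift_injective
  rw [IntermediateField.lift_adjoin_simple, IntermediateField.lift_top,
    IntermediateField.AdjoinSimple.coe_gen]

/-- a step with a fourth root -/
theorem step4 {k F : Type} [Field k] [NumberField k] [Field F] [NumberField F] [Algebra k F]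
    {r : F} {q : k} (hr : r ^ 4 = algebraMap k F q) (hq : q ≠ 0) (c : k) {a : ℕ}
    (h0 : Kl (Sha (E4 c)) a) (h1 : Kl (Sha (E4 (q * c))) a)
    (h2 : Kl (Sha (E4 (q ^ 2 * c))) a) (h3 : Kl (Sha (E4 (q ^ 3 * c))) a) :
    Kl (Sha (E4 (algebraMap (IntermediateField.adjoin k {r ^ 2})
      (IntermediateField.adjoin (IntermediateField.adjoin k {r ^ 2}) {r})
      (algebraMap k (IntermediateField.adjoin k {r ^ 2}) c)))) (a + 2) := by
  set L := IntermediateField.adjoin k {r ^ 2} with hL
  set M := IntermediateField.adjoin L {r} with hM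
  have e1 : (IntermediateField.AdjoinSimple.gen k (r ^ 2)) ^ 2 = algebraMap k L q := by
    apply Subtype.ext
    change (r ^ 2) ^ 2 = algebraMap k F q
    rw [← hr]
    ring
  have e2 : (IntermediateField.AdjoinSimple.gen L r) ^ 2 =
      algebraMap L M (IntermediateField.AdjoinSimple.gen k (r ^ 2)) := by
    apply Subtype.ext
    rfl
  have hd : IntermediateField.AdjoinSimple.gen k (r ^ 2) ≠ 0 := by
    intro h
    rw [h, zero_pow two_ne_zero, eq_comm, map_eq_zero] at e1
    exact hq e1
  have g1 : Kl (Sha (E4 (algebraMap k L c))) (a + 1) := step2 e1 hq (adj_gen _) h0 h2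
  have g2 : Kl (Sha (E4 (algebraMap k L (q * c)))) (a + 1) := by
    refine step2 e1 hq (adj_gen _) h1 ?_
    have : q ^ 2 * (q * c) = q ^ 3 * c := by ring
    rw [this]
    exact h3
  refine step2 (F := M) e2 hd (adj_gen _) g1 ?_
  rw [e1, ← map_mul]
  exact g2

/-- **Kummer extensions of exponent four.** -/
theorem kum4 {ι : Type} [DecidableEq ι] (s : Finset ι) : ∀ (k F : Type) [Field k] [NumberField k]
    [Field F] [NumberField F] [Algebra k F] (q : ι → k) (r : ι → F),
    (∀ i ∈ s, r i ^ 4 = algebraMap k F (q i)) → (∀ i ∈ s, q i ≠ 0) →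
    (∀ L : Subfield F, (∀ x : k, algebraMap k F x ∈ L) → (∀ i ∈ s, r i ∈ L) → L = ⊤) →
    ∀ (b : k) (a : ℕ), (∀ e : ι → ℕ, (∀ i, e i < 4) → Kl (Sha (E4 (b * ∏ i ∈ s, q i ^ e i))) a) →
    Kl (Sha (E4 (algebraMap k F b))) (a + 2 * s.card) := by
  induction s using Finset.induction_on with
  | empty =>
    intro k F _ _ _ _ _ q r _ _ hgen b a hyp
    have hs : Function.Surjective (algebraMap k F) := by
      have h1 := hgen (algebraMap k F).fieldRange (fun x => ⟨x, rfl⟩)
        (fun i hi => absurd hi (Finset.notMem_empty i))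
      intro y
      have h2 : y ∈ (algebraMap k F).fieldRange := by rw [h1]; trivial
      exact h2
    have h1 := hyp (fun _ => 0) (fun _ => by norm_num)
    rw [Finset.prod_empty, mul_one] at h1
    exact triv_ext (sc4 b) rfl rfl hs h1
  | insert i₀ s hi₀ ih =>
    intro k F _ _ _ _ _ q r hr hq hgen b a hyp
    have hr0 := hr i₀ (Finset.mem_insert_self _ _)
    have hq0 := hq i₀ (Finset.mem_insert_self _ _)
    set L := IntermediateField.adjoin k {r i₀ ^ 2} with hL
    set M := IntermediateField.adjoin L {r i₀} with hM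
    have hcard : a + 2 * (insert i₀ s).card = (a + 2) + 2 * s.card := by
      rw [Finset.card_insert_of_notMem hi₀]; ring
    rw [hcard]
    have key := ih M F (fun i => algebraMap L M (algebraMap k L (q i))) r
      (fun i hi => hr i (Finset.mem_insert_of_mem hi))
      (fun i hi h => hq i (Finset.mem_insert_of_mem hi)
        ((map_eq_zero _).1 ((map_eq_zero _).1 h))) ?_
      (algebraMap L M (algebraMap k L b)) (a + 2) ?_
    · exact key
    · intro S hS1 hS2
      apply hgen S
      · intro x
        exact hS1 (algebraMap L M (algebraMap k L x))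
      · intro i hi
        rcases Finset.mem_insert.1 hi with rfl | hi
        · exact hS1 (IntermediateField.AdjoinSimple.gen L (r i))
        · exact hS2 i hi
    · intro e he
      have h1 : algebraMap L M (algebraMap k L b) *
          ∏ i ∈ s, (algebraMap L M (algebraMap k L (q i))) ^ e i =
          algebraMap L M (algebraMap k L (b * ∏ i ∈ s, q i ^ e i)) := by
        rw [map_mul, map_mul, map_prod, map_prod]
        simp only [map_pow]
      rw [h1]
      have h2 : ∀ j : ℕ, j < 4 → Kl (Sha (E4 (q i₀ ^ j * (b * ∏ i ∈ s, q i ^ e i)))) a := by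
        intro j hj
        have h3 := hyp (Function.update e i₀ j) (fun i => by
          by_cases hi : i = i₀
          · subst hi
            rw [Function.update_self]
            exact hj
          · rw [Function.update_of_ne hi]
            exact he i)
        rw [Finset.prod_insert hi₀, Function.update_self] at h3
        have h4 : ∏ i ∈ s, q i ^ (Function.update e i₀ j i) = ∏ i ∈ s, q i ^ e i := by
          refine Finset.prod_congr rfl fun i hi => ?_
          rw [Function.update_of_ne]
          rintro rfl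
          exact hi₀ hi
        rw [h4] at h3
        have h5 : b * (q i₀ ^ j * ∏ i ∈ s, q i ^ e i) =
          q i₀ ^ j * (b * ∏ i ∈ s, q i ^ e i) := by ring
        rw [h5] at h3
        exact h3
      have h30 := h2 0 (by norm_num)
      have h31 := h2 1 (by norm_num)
      rw [pow_zero, one_mul] at h30
      rw [pow_one] at h31
      exact step4 hr0 hq0 _ h30 h31 (h2 2 (by norm_num)) (h2 3 (by norm_num))

/-- **Kummer extensions of exponent four, with square roots.** -/
theorem kum {ι : Type} [DecidableEq ι] (s₄ s₂ : Finset ι) : ∀ (k F : Type) [Field k]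
    [NumberField k] [Field F] [NumberField F] [Algebra k F] (q : ι → k) (r r' : ι → F),
    (∀ i ∈ s₄, r i ^ 4 = algebraMap k F (q i)) → (∀ i ∈ s₂, r' i ^ 2 = algebraMap k F (q i)) →
    (∀ i ∈ s₄, q i ≠ 0) → (∀ i ∈ s₂, q i ≠ 0) →
    (∀ L : Subfield F, (∀ x : k, algebraMap k F x ∈ L) → (∀ i ∈ s₄, r i ∈ L) →
      (∀ i ∈ s₂, r' i ∈ L) → L = ⊤) →
    ∀ (b : k) (a : ℕ), (∀ e f : ι → ℕ, (∀ i, e i < 4) → (∀ i, f i < 2) →
      Kl (Sha (E4 (b * ((∏ i ∈ s₄, q i ^ e i) * ∏ i ∈ s₂, q i ^ (2 * f i))))) a) →
    Kl (Sha (E4 (algebraMap k F b))) (a + (2 * s₄.card + s₂.card)) := by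
  induction s₂ using Finset.induction_on with
  | empty =>
    intro k F _ _ _ _ _ q r r' hr _ hq _ hgen b a hyp
    rw [Finset.card_empty, add_zero]
    refine kum4 s₄ k F q r hr hq (fun L h1 h2 => hgen L h1 h2
      (fun i hi => absurd hi (Finset.notMem_empty i))) b a (fun e he => ?_)
    have h1 := hyp e (fun _ => 0) he (fun _ => by norm_num)
    rw [Finset.prod_empty, mul_one] at h1
    exact h1
  | insert i₀ s hi₀ ih =>
    intro k F _ _ _ _ _ q r r' hr hr' hq hq' hgen b a hyp
    have hr0 := hr' i₀ (Finset.mem_insert_self _ _)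
    have hq0 := hq' i₀ (Finset.mem_insert_self _ _)
    set L := IntermediateField.adjoin k {r' i₀} with hL
    have hcard : a + (2 * s₄.card + (insert i₀ s).card) = (a + 1) + (2 * s₄.card + s.card) := by
      rw [Finset.card_insert_of_notMem hi₀]; ring
    rw [hcard]
    have key := ih L F (fun i => algebraMap k L (q i)) r r' hr
      (fun i hi => hr' i (Finset.mem_insert_of_mem hi))
      (fun i hi h => hq i hi ((map_eq_zero _).1 h))
      (fun i hi h => hq' i (Finset.mem_insert_of_mem hi) ((map_eq_zero _).1 h)) ?_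
      (algebraMap k L b) (a + 1) ?_
    · exact key
    · intro S hS1 hS2 hS3
      apply hgen S
      · intro x
        exact hS1 (algebraMap k L x)
      · exact hS2
      · intro i hi
        rcases Finset.mem_insert.1 hi with rfl | hi
        · exact hS1 (IntermediateField.AdjoinSimple.gen k (r' i))
        · exact hS3 i hi
    · intro e f he hf
      have h1 : algebraMap k L b * ((∏ i ∈ s₄, (algebraMap k L (q i)) ^ e i) *
          ∏ i ∈ s, (algebraMap k L (q i)) ^ (2 * f i)) =
          algebraMap k L (b * ((∏ i ∈ s₄, q i ^ e i) * ∏ i ∈ s, q i ^ (2 * f i))) := by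
        rw [map_mul, map_mul, map_prod, map_prod]
        simp only [map_pow]
      rw [h1]
      have h2 : ∀ j : ℕ, j < 2 → Kl (Sha (E4 ((q i₀ ^ 2) ^ j *
          (b * ((∏ i ∈ s₄, q i ^ e i) * ∏ i ∈ s, q i ^ (2 * f i)))))) a := by
        intro j hj
        have h3 := hyp e (Function.update f i₀ j) he (fun i => by
          by_cases hi : i = i₀
          · subst hi
            rw [Function.update_self]
            exact hj
          · rw [Function.update_of_ne hi]
            exact hf i)
        rw [Finset.prod_insert hi₀, Function.update_self] at h3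
        have h4 : ∏ i ∈ s, q i ^ (2 * Function.update f i₀ j i) = ∏ i ∈ s, q i ^ (2 * f i) := by
          refine Finset.prod_congr rfl fun i hi => ?_
          rw [Function.update_of_ne]
          rintro rfl
          exact hi₀ hi
        rw [h4] at h3
        have h5 : b * ((∏ i ∈ s₄, q i ^ e i) * (q i₀ ^ (2 * j) * ∏ i ∈ s, q i ^ (2 * f i))) =
          (q i₀ ^ 2) ^ j * (b * ((∏ i ∈ s₄, q i ^ e i) * ∏ i ∈ s, q i ^ (2 * f i))) := by
          rw [← pow_mul]; ring
        rw [h5] at h3
        exact h3
      have h30 := h2 0 (by norm_num)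
      have h31 := h2 1 (by norm_num)
      rw [pow_zero, one_mul] at h30
      rw [pow_one] at h31
      have e1 : (IntermediateField.AdjoinSimple.gen k (r' i₀)) ^ 2 = algebraMap k L (q i₀) := by
        apply Subtype.ext
        exact hr0
      exact step2 e1 hq0 (adj_gen _) h30 h31

end Pool.Agent.R432.RB
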