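import Mathlib

/-!
# Kummer theory of exponent three
-/

set_option autoImplicit false

namespace Pool.Agent.R432.C

section
variable {k K : Type} [Field k] [Field K] [Algebra k K] [FiniteDimensional k K]

lemma pow_add_val {L : Type} [Monoid L] {w : L} (hw : w ^ 3 = 1) (x y : ZMod 3) :
    w ^ (x + y).val = w ^ x.val * w ^ y.val := by
  rw [← pow_add, ZMod.val_add]
  have h := Nat.div_add_mod (x.val + y.val) 3
  conv_rhs => rw [← h, pow_add, pow_mul, hw, one_pow, one_mul]

lemma pow_mul_val {L : Type} [Monoid L] {w : L} (hw : w ^ 3 = 1) (x y : ZMod 3) :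
    w ^ (x * y).val = (w ^ x.val) ^ y.val := by
  rw [← pow_mul, ZMod.val_mul]
  have h := Nat.div_add_mod (x.val * y.val) 3
  conv_rhs => rw [← h, pow_add, pow_mul, hw, one_pow, one_mul]

lemma pow_sum_val {L : Type} [CommMonoid L] {w : L} (hw : w ^ 3 = 1) {I : Type} (s : Finset I)
    (f : I → ZMod 3) : w ^ (∑ i ∈ s, f i).val = ∏ i ∈ s, w ^ (f i).val := by
  classical
  induction s using Finset.induction_on with
  | empty => simp
  | insert a s ha ih => rw [Finset.sum_insert ha, Finset.prod_insert ha, pow_add_val hw, ih]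

lemma cube_roots {L : Type} [Field L] {w : L} (hw : w ^ 2 + w + 1 = 0) {x y : L}
    (h : x ^ 3 = y ^ 3) : ∃ c : ZMod 3, x = w ^ c.val * y := by
  have h1 : (x - y) * ((x - w * y) * (x - w ^ 2 * y)) = 0 := by
    have e : (x - y) * ((x - w * y) * (x - w ^ 2 * y)) = x ^ 3 - y ^ 3 +
        (w ^ 2 + w + 1) * (-x ^ 2 * y + w * x * y ^ 2 - (w - 1) * y ^ 3) := by ring
    rw [e, h, hw]
    ring
  rcases mul_eq_zero.1 h1 with h2 | h2
  · exact ⟨0, by rw [sub_eq_zero.1 h2]; simp⟩
  rcases mul_eq_zero.1 h2 with h3 | h3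
  · refine ⟨1, ?_⟩
    have : (1 : ZMod 3).val = 1 := rfl
    rw [this, pow_one]
    exact sub_eq_zero.1 h3
  · refine ⟨2, ?_⟩
    have : (2 : ZMod 3).val = 2 := rfl
    rw [this]
    exact sub_eq_zero.1 h3

lemma cube_of {L : Type} [Field L] {w : L} (hw : w ^ 2 + w + 1 = 0) : w ^ 3 = 1 := by
  linear_combination (w - 1) * hw

lemma w_ne_one {L : Type} [Field L] {w : L} (hw : w ^ 2 + w + 1 = 0) (h3 : (3 : L) ≠ 0) :
    w ≠ 1 := by
  rintro rfl
  apply h3
  linear_combination hw

lemma w_val_inj {L : Type} [Field L] {w : L} (hw : w ^ 2 + w + 1 = 0) (h3 : (3 : L) ≠ 0)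
    {x : ZMod 3} (h : w ^ x.val = 1) : x = 0 := by
  have h1 := w_ne_one hw h3
  have hx : x = 0 ∨ x = 1 ∨ x = 2 := (by decide : ∀ x : ZMod 3, x = 0 ∨ x = 1 ∨ x = 2) x
  rcases hx with rfl | rfl | rfl
  · rfl
  · have : (1 : ZMod 3).val = 1 := rfl
    rw [this, pow_one] at h
    exact absurd h h1
  · have : (2 : ZMod 3).val = 2 := rfl
    rw [this] at h
    exfalso
    apply h1
    calc w = w ^ 3 * w := by rw [cube_of hw, one_mul]
      _ = (w ^ 2) ^ 2 := by ring
      _ = 1 := by rw [h, one_pow]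

/-- **The characters can be prescribed.** -/
theorem kummer3 [IsGalois k K] {I : Type} [Fintype I] [DecidableEq I] {w : k}
    (hw : w ^ 2 + w + 1 = 0) (r : I → K) (c : I → k)
    (hr : ∀ i, r i ^ 3 = algebraMap k K (c i))
    (hind : ∀ a : I → ZMod 3, (∃ i, a i ≠ 0) → ¬ ∃ z, z ^ 3 = ∏ i, c i ^ (a i).val)
    (v : I → ZMod 3) :
    ∃ σ : K ≃ₐ[k] K, ∀ i, σ (r i) = algebraMap k K w ^ (v i).val * r i := by
  classical
  set W : K := algebraMap k K w with hW
  have hW2 : W ^ 2 + W + 1 = 0 := by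
    rw [hW, ← map_pow, ← map_add, ← map_one (algebraMap k K), ← map_add, hw, map_zero]
  have hW3 := cube_of hW2
  let H : Submodule (ZMod 3) (I → ZMod 3) :=
    { carrier := {v | ∃ σ : K ≃ₐ[k] K, ∀ i, σ (r i) = W ^ (v i).val * r i}
      zero_mem' := ⟨1, fun i => by simp⟩
      add_mem' := by
        rintro a b ⟨σ, hσ⟩ ⟨τ, hτ⟩
        refine ⟨σ * τ, fun i => ?_⟩
        rw [AlgEquiv.mul_apply, hτ, map_mul, map_pow, hW, AlgEquiv.commutes, ← hW, hσ,
          Pi.add_apply, pow_add_val hW3]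
        ring
      smul_mem' := by
        rintro x b ⟨σ, hσ⟩
        have hx : x = 0 ∨ x = 1 ∨ x = 2 := by revert x; decide
        rcases hx with rfl | rfl | rfl
        · exact ⟨1, fun i => by simp⟩
        · exact ⟨σ, fun i => by rw [one_smul]; exact hσ i⟩
        · refine ⟨σ * σ, fun i => ?_⟩
          have e : ((2 : ZMod 3) • b) i = b i + b i := by
            rw [Pi.smul_apply, smul_eq_mul, two_mul]
          rw [AlgEquiv.mul_apply, hσ, map_mul, map_pow, hW, AlgEquiv.commutes, ← hW, hσ, e,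
            pow_add_val hW3]
          ring }
  by_contra hcon
  have hlt : H < ⊤ := lt_top_iff_ne_top.2 fun h => hcon (by
    have : v ∈ H := by rw [h]; trivial
    exact this)
  obtain ⟨φ, hφ0, hφ⟩ := Submodule.exists_le_ker_of_lt_top H hlt
  set a : I → ZMod 3 := fun i => φ (Pi.single i 1) with ha
  have hφv : ∀ u : I → ZMod 3, φ u = ∑ i, u i * a i := by
    intro u
    have h1 : u = ∑ i, u i • (Pi.single i (1 : ZMod 3) : I → ZMod 3) := by
      ext j
      rw [Finset.sum_apply, Finset.sum_eq_single j]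
      · simp
      · intro b _ hb
        rw [Pi.smul_apply, Pi.single_eq_of_ne hb.symm, smul_zero]
      · intro h; exact absurd (Finset.mem_univ _) h
    conv_lhs => rw [h1]
    rw [map_sum]
    refine Finset.sum_congr rfl fun i _ => ?_
    rw [map_smul, smul_eq_mul]
  have hne : ∃ i, a i ≠ 0 := by
    by_contra hcon2
    push Not at hcon2
    apply hφ0
    ext i
    have h2 := hφv (Pi.single i 1)
    rw [Finset.sum_eq_zero (fun j _ => by rw [hcon2 j, mul_zero])] at h2
    simpa using h2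
  apply hind a hne
  -- the product of the roots is invariant
  have hfix : ∀ σ : K ≃ₐ[k] K, σ (∏ i, r i ^ (a i).val) = ∏ i, r i ^ (a i).val := by
    intro σ
    have hex : ∀ i, ∃ x : ZMod 3, σ (r i) = W ^ x.val * r i := by
      intro i
      apply cube_roots hW2
      rw [← map_pow, hr, AlgEquiv.commutes]
    choose u hu using hex
    have h1 : u ∈ H := ⟨σ, hu⟩
    have h2 := hφ h1
    rw [LinearMap.mem_ker, hφv] at h2
    rw [map_prod]
    have h3 : ∀ i, σ (r i ^ (a i).val) = W ^ (u i * a i).val * r i ^ (a i).val := by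
      intro i
      rw [map_pow, hu, mul_pow, pow_mul_val hW3]
    rw [Finset.prod_congr rfl fun i _ => h3 i, Finset.prod_mul_distrib, ← pow_sum_val hW3, h2]
    simp
  obtain ⟨e, he⟩ := (IsGalois.mem_range_algebraMap_iff_fixed (F := k) (∏ i, r i ^ (a i).val)).2 hfix
  refine ⟨e, ?_⟩
  apply (algebraMap k K).injective
  rw [map_pow, he, map_prod, ← Finset.prod_pow]
  refine Finset.prod_congr rfl fun i _ => ?_
  rw [map_pow, ← hr i, ← pow_mul, ← pow_mul, mul_comm]

/-- the order of the group -/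
theorem kummer3_card [IsGalois k K] {I : Type} [Fintype I] [DecidableEq I] {w : k}
    (hw : w ^ 2 + w + 1 = 0) (h3 : (3 : k) ≠ 0) (r : I → K) (c : I → k) (hc0 : ∀ i, c i ≠ 0)
    (hr : ∀ i, r i ^ 3 = algebraMap k K (c i))
    (hind : ∀ a : I → ZMod 3, (∃ i, a i ≠ 0) → ¬ ∃ z, z ^ 3 = ∏ i, c i ^ (a i).val)
    (hinj : ∀ σ : K ≃ₐ[k] K, (∀ i, σ (r i) = r i) → σ = 1) :
    Nat.card (K ≃ₐ[k] K) = 3 ^ Fintype.card I := by
  classical
  set W : K := algebraMap k K w with hW
  have hW2 : W ^ 2 + W + 1 = 0 := by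
    rw [hW, ← map_pow, ← map_add, ← map_one (algebraMap k K), ← map_add, hw, map_zero]
  have h3' : (3 : K) ≠ 0 := by
    rw [← map_ofNat (algebraMap k K) 3]
    exact (map_ne_zero _).2 h3
  have hex : ∀ (σ : K ≃ₐ[k] K) (i : I), ∃ x : ZMod 3, σ (r i) = W ^ x.val * r i := by
    intro σ i
    apply cube_roots hW2
    rw [← map_pow, hr, AlgEquiv.commutes]
  choose u hu using hex
  have hr0 : ∀ i, r i ≠ 0 := by
    intro i h
    have h1 := hr i
    rw [h] at h1
    exact hc0 i ((algebraMap k K).injective (by rw [← h1, map_zero]; ring))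
  have hval : ∀ x y : ZMod 3, W ^ x.val = W ^ y.val → x = y := by
    intro x y h
    have h4 : W ^ (x - y).val = 1 := by
      have h5 := pow_add_val (cube_of hW2) (x - y) y
      rw [sub_add_cancel, h] at h5
      have h6 : W ^ y.val ≠ 0 := by
        apply pow_ne_zero
        intro h7
        rw [h7] at hW2
        norm_num at hW2
      exact (mul_right_cancel₀ h6 (by rw [one_mul]; exact h5)).symm
    exact sub_eq_zero.1 (w_val_inj hW2 h3' h4)
  have hbij : Function.Bijective (fun σ : K ≃ₐ[k] K => u σ) := by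
    constructor
    · intro σ τ hστ
      have h3 : τ⁻¹ * σ = 1 := by
        apply hinj
        intro i
        rw [AlgEquiv.mul_apply, hu σ i]
        have h4 := congrFun hστ i
        simp only at h4
        rw [h4, ← hu τ i]
        exact τ.symm_apply_apply _
      rw [inv_mul_eq_one] at h3
      exact h3.symm
    · intro v
      obtain ⟨σ, hσ⟩ := kummer3 hw r c hr hind v
      refine ⟨σ, ?_⟩
      funext i
      apply hval
      have h3 := hu σ i
      rw [hσ i] at h3
      exact (mul_right_cancel₀ (hr0 i) h3).symm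
  rw [Nat.card_congr (Equiv.ofBijective _ hbij)]
  simp [ZMod.card]

end

end Pool.Agent.R432.C
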