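import Pool.Agent.R432.C1
import Pool.Agent.Y715.T.RecC
import Pool.Agent.W401.Cheb.Main

/-!
# Primary Eisenstein primes with prescribed cubic symbols
-/

set_option autoImplicit false

open Polynomial NumberField

namespace Pool.Agent.R432.C

open Pool.Agent.Y692.QS
open Pool.Agent.Y715.T.Rec (cs nn)
open Pool.Agent.Y715.T.RecG (Pq)
open Pool.Agent.W401.Cheb (xp HasFrob infinite_frob)

/-- the rational polynomial whose roots are the cube roots of `g` and of its conjugate -/
noncomputable def cg (g : Ei) : ℚ[X] :=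
  X ^ 6 - C ((2 * g.re - g.im : ℤ) : ℚ) * X ^ 3 + C ((nr g : ℤ) : ℚ)

theorem cg_deg (g : Ei) : (cg g).natDegree = 6 := by
  unfold cg
  compute_degree!

theorem cg_ne (g : Ei) : cg g ≠ 0 := by
  intro h
  have h1 := cg_deg g
  rw [h, natDegree_zero] at h1
  omega

theorem exists_roots {L : Type} [Field L] [NumberField L] {s : Finset Ei} {f : ℚ[X]}
    (hf : f = (X ^ 2 + X + 1) * ∏ g ∈ s, cg g) (hsp : (f.map (algebraMap ℚ L)).Splits) :
    ∃ (j : Ei →+* L) (ρ : Ei → L), ∀ g ∈ s, ρ g ^ 3 = j g := by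
  classical
  have hd2 : (X ^ 2 + X + 1 : ℚ[X]).natDegree = 2 := by compute_degree!
  have h20 : (X ^ 2 + X + 1 : ℚ[X]) ≠ 0 := by
    intro h
    rw [h, natDegree_zero] at hd2
    omega
  have hf0 : f ≠ 0 := by
    rw [hf]
    exact mul_ne_zero h20 (Finset.prod_ne_zero_iff.2 fun g _ => cg_ne g)
  have hf0' : f.map (algebraMap ℚ L) ≠ 0 :=
    (Polynomial.map_ne_zero_iff (algebraMap ℚ L).injective).2 hf0
  have h1 : ∃ e : L, e ^ 2 + e + 1 = 0 := by
    have h2 : ((X ^ 2 + X + 1 : ℚ[X]).map (algebraMap ℚ L)).Splits :=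
      hsp.of_dvd hf0' (Polynomial.map_dvd _ (by rw [hf]; exact Dvd.intro _ rfl))
    obtain ⟨e, he⟩ := h2.exists_eval_eq_zero (by
      rw [Polynomial.degree_map]
      intro h
      have h3 := Polynomial.natDegree_eq_of_degree_eq_some (n := 0) h
      rw [hd2] at h3
      omega)
    refine ⟨e, ?_⟩
    simp at he
    linear_combination he
  obtain ⟨e, he⟩ := h1
  have hII : e * e = -1 - e := by linear_combination he
  let j : Ei →+* L := hom e hII
  have hj : ∀ g : Ei, j g = (g.re : L) + (g.im : L) * e := fun g => hom_apply e hII g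
  have hroot : ∀ g ∈ s, ∃ ρ : L, ρ ^ 3 = j g := by
    intro g hg
    have h3 : ((cg g).map (algebraMap ℚ L)) =
        (X ^ 3 - C (j g)) * (X ^ 3 - C (j (star g))) := by
      unfold cg
      have e1 : j g + j (star g) = ((2 * g.re - g.im : ℤ) : L) := by
        rw [hj, hj, star_re, star_im]
        push_cast
        ring
      have e2 : j g * j (star g) = ((nr g : ℤ) : L) := by
        rw [← map_mul, mul_star, map_intCast]
      have e3 : (X ^ 3 - C (j g)) * (X ^ 3 - C (j (star g))) =
          X ^ 6 - C (j g + j (star g)) * X ^ 3 + C (j g * j (star g)) := by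
        rw [C_add, C_mul]; ring
      rw [e3, e1, e2]
      simp only [Polynomial.map_add, Polynomial.map_sub, Polynomial.map_mul, Polynomial.map_pow,
        Polynomial.map_X, Polynomial.map_intCast, map_intCast]
    have h4 : (X ^ 3 - C (j g)).Splits := by
      refine hsp.of_dvd hf0' (Dvd.dvd.trans (Dvd.intro _ h3.symm) (Polynomial.map_dvd _ ?_))
      rw [hf]
      exact (Finset.dvd_prod_of_mem _ hg).mul_left _
    obtain ⟨ρ, hρ⟩ := h4.exists_eval_eq_zero (by
      rw [Polynomial.degree_X_pow_sub_C (by norm_num)]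
      norm_num)
    refine ⟨ρ, ?_⟩
    simp at hρ
    linear_combination hρ
  choose! ρ hρ using hroot
  exact ⟨j, ρ, hρ⟩

theorem exists_field (s : Finset Ei) : ∃ (L : Type) (_ : Field L) (_ : NumberField L)
    (_ : IsGalois ℚ L) (j : Ei →+* L) (ρ : Ei → L), ∀ g ∈ s, ρ g ^ 3 = j g := by
  classical
  set f : ℚ[X] := (X ^ 2 + X + 1) * ∏ g ∈ s, cg g with hf
  have hspl : IsSplittingField ℚ f.SplittingField f := by
    convert IsSplittingField.splittingField f
    exact Subsingleton.elim _ _
  have hnor : Normal ℚ f.SplittingField := Normal.of_isSplittingField f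
  have hsep : Algebra.IsSeparable ℚ f.SplittingField :=
    Algebra.IsAlgebraic.isSeparable_of_perfectField
  have hgal : IsGalois ℚ f.SplittingField := ⟨⟩
  have hnum : NumberField f.SplittingField :=
    { to_charZero := inferInstance, to_finiteDimensional := inferInstance }
  obtain ⟨j, ρ, h⟩ := exists_roots (L := f.SplittingField) hf hspl.splits'
  exact ⟨f.SplittingField, inferInstance, hnum, hgal, j, ρ, h⟩

lemma isUnit_w : IsUnit w := isUnit_iff.2 (by decide)

lemma pq_dvd {π ρ : Ei} (h : Pq π) (h' : Pq ρ) (hd : π ∣ ρ) : π = ρ := by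
  obtain ⟨c, rfl⟩ := hd
  have hu : IsUnit c := by
    rcases h'.prime.irreducible.isUnit_or_isUnit rfl with h1 | h1
    · exact absurd h1 h.prime.not_isUnit
    · exact h1
  have h3 : (3 : Ei) ∣ c - 1 := by
    obtain ⟨a, ha⟩ := h.three
    obtain ⟨b, hb⟩ := h'.three
    refine ⟨b - a * c, ?_⟩
    linear_combination hb - c * ha
  obtain ⟨k, hk⟩ := Pool.Agent.Y715.T.RecC.unit_form hu
  have hc : c = 1 := by
    have h4 : (3 : ℤ) ∣ (c - 1).re ∧ (3 : ℤ) ∣ (c - 1).im := by
      have := (int_dvd (n := 3) (α := c - 1)).1 (by exact_mod_cast h3)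
      exact this
    have hkk : k = 0 ∨ k = 1 ∨ k = 2 := (by decide : ∀ k : ZMod 3, k = 0 ∨ k = 1 ∨ k = 2) k
    rcases hk with rfl | rfl <;> rcases hkk with rfl | rfl | rfl
    · rfl
    all_goals
      exfalso
      revert h4
      decide
  rw [hc, mul_one]

/-- independence of the primes and of `w` -/
theorem indep {k : Type} [Field k] [Algebra Ei k] [IsFractionRing Ei k] {P : Finset Ei}
    (hP : ∀ p ∈ P, Pq p) (a : {x : Ei // x ∈ insert w P} → ZMod 3) (ha : ∃ i, a i ≠ 0) :
    ¬ ∃ z : k, z ^ 3 = ∏ i, (algebraMap Ei k i.1) ^ (a i).val := by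
  classical
  rintro ⟨z, hz⟩
  have hz' : z ^ 3 = algebraMap Ei k (∏ i : {x : Ei // x ∈ insert w P}, i.1 ^ (a i).val) := by
    rw [hz, map_prod]
    exact Finset.prod_congr rfl fun i _ => (map_pow _ _ _).symm
  have hint : IsIntegral Ei z := by
    refine IsIntegral.of_pow (n := 3) (by norm_num) ?_
    rw [hz']
    exact isIntegral_algebraMap
  obtain ⟨y, rfl⟩ := IsIntegrallyClosed.isIntegral_iff.1 hint
  rw [← map_pow] at hz'
  have hy := IsFractionRing.injective Ei k hz'
  -- the exponents of the primes vanish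
  have hne : ∀ i : {x : Ei // x ∈ insert w P}, i.1 ≠ 0 := by
    rintro ⟨x, hx⟩
    rcases Finset.mem_insert.1 hx with h | h
    · change x ≠ 0
      rw [h]
      decide
    · exact (hP x h).prime.ne_zero
  have hprod0 : (∏ i : {x : Ei // x ∈ insert w P}, i.1 ^ (a i).val) ≠ 0 :=
    Finset.prod_ne_zero_iff.2 fun i _ => pow_ne_zero _ (hne i)
  have hy0 : y ≠ 0 := by
    rintro rfl
    rw [zero_pow (by norm_num)] at hy
    exact hprod0 hy.symm
  have key : ∀ i : {x : Ei // x ∈ insert w P}, i.1 ∈ P → a i = 0 := by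
    intro i hi
    have hp := hP i.1 hi
    by_contra h0
    have hfin : FiniteMultiplicity i.1 y := FiniteMultiplicity.of_prime_left hp.prime hy0
    have h1 : emultiplicity i.1 (y ^ 3) = 3 * emultiplicity i.1 y := by
      rw [emultiplicity_pow hp.prime]
      norm_num
    have h2 : emultiplicity i.1 (∏ i : {x : Ei // x ∈ insert w P}, i.1 ^ (a i).val) =
        ((a i).val : ℕ) := by
      rw [← Finset.mul_prod_erase Finset.univ _ (Finset.mem_univ i),
        emultiplicity_mul hp.prime, emultiplicity_pow hp.prime]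
      have h3 : emultiplicity i.1 i.1 = 1 := by
        have hm : FiniteMultiplicity i.1 i.1 := FiniteMultiplicity.of_prime_left hp.prime hp.prime.ne_zero
        exact hm.emultiplicity_self
      have h4 : emultiplicity i.1 (∏ j ∈ Finset.univ.erase i, j.1 ^ (a j).val) = 0 := by
        rw [emultiplicity_eq_zero]
        intro hd
        obtain ⟨l, hl, hpl⟩ := (Prime.dvd_finsetProd_iff hp.prime _).1 hd
        have h5 := hp.prime.dvd_of_dvd_pow hpl
        rw [Finset.mem_erase] at hl
        rcases Finset.mem_insert.1 l.2 with h6 | h6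
        · rw [h6] at h5
          exact hp.prime.not_isUnit (isUnit_of_dvd_unit h5 isUnit_w)
        · exact hl.1 (Subtype.ext (pq_dvd hp (hP _ h6) h5).symm)
      rw [h3, h4]
      simp
    rw [hy, h2] at h1
    rw [hfin.emultiplicity_eq_multiplicity] at h1
    have h5 : (a i).val = 3 * multiplicity i.1 y := by exact_mod_cast h1
    have h6 : (a i).val < 3 := ZMod.val_lt _
    have h7 : (a i).val ≠ 0 := fun h => h0 ((ZMod.val_eq_zero _).1 h)
    omega
  obtain ⟨i, hi⟩ := ha
  have hiw : i.1 = w := by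
    rcases Finset.mem_insert.1 i.2 with h | h
    · exact h
    · exact absurd (key i h) hi
  rw [Finset.prod_eq_single i (fun l _ hl => by
    rcases Finset.mem_insert.1 l.2 with h | h
    · exact absurd (Subtype.ext (h.trans hiw.symm)) hl
    · rw [key l h, ZMod.val_zero, pow_zero]) (fun h => absurd (Finset.mem_univ _) h), hiw] at hy
  have hu : IsUnit y := by
    have h1 : IsUnit (y ^ 3) := by rw [hy]; exact isUnit_w.pow _
    exact (isUnit_pow_iff (by norm_num)).1 h1
  have hx : a i = 1 ∨ a i = 2 := by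
    revert hi
    generalize a i = b
    revert b
    decide
  obtain ⟨c, hc⟩ := Pool.Agent.Y715.T.RecC.unit_form hu
  have hy3 : y ^ 3 = 1 ∨ y ^ 3 = -1 := by
    rcases hc with rfl | rfl
    · left
      rw [← pow_mul, mul_comm, pow_mul, w_cube, one_pow]
    · right
      rw [Odd.neg_pow (by decide), ← pow_mul, mul_comm, pow_mul, w_cube, one_pow]
  have v1 : (1 : ZMod 3).val = 1 := rfl
  have v2 : (2 : ZMod 3).val = 2 := rfl
  rcases hx with h | h <;> rcases hy3 with h' | h' <;> rw [h, h'] at hy
  · rw [v1] at hy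
    exact absurd hy (by decide)
  · rw [v1] at hy
    exact absurd hy (by decide)
  · rw [v2] at hy
    exact absurd hy (by decide)
  · rw [v2] at hy
    exact absurd hy (by decide)

theorem k_charZero {k : Type} [Field k] [Algebra Ei k] [IsFractionRing Ei k] : CharZero k := by
  have : CharZero Ei := by
    refine ⟨fun a b h => ?_⟩
    have h1 := congrArg (fun z : Ei => z.re) h
    simpa using h1
  exact charZero_of_injective_algebraMap (IsFractionRing.injective Ei k)

theorem exists_gal {k : Type} [Field k] [Algebra Ei k] [IsFractionRing Ei k] {L : Type} [Field L]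
    [NumberField L] [IsGalois ℚ L] [Algebra k L] (j : Ei →+* L)
    (hc : ∀ g : Ei, algebraMap k L (algebraMap Ei k g) = j g) {P : Finset Ei}
    (hP : ∀ p ∈ P, Pq p) (ρ : Ei → L) (hρ : ∀ g ∈ insert w P, ρ g ^ 3 = j g) (ε : Ei → ZMod 3) :
    ∃ g : Gal(L/ℚ), (∀ x, g (j x) = j x) ∧ ∀ x ∈ insert w P, g (ρ x) = j w ^ (ε x).val * ρ x := by
  classical
  have hch := k_charZero (k := k)
  have htow : IsScalarTower ℚ k L := IsScalarTower.of_algebraMap_eq' (RingHom.ext_rat _ _)
  have hfin : FiniteDimensional k L := FiniteDimensional.right ℚ k L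
  have hgal : IsGalois k L := IsGalois.tower_top_of_isGalois ℚ k L
  have hw : (algebraMap Ei k w) ^ 2 + algebraMap Ei k w + 1 = 0 := by
    rw [← map_pow, ← map_add, ← map_one (algebraMap Ei k), ← map_add]
    have : (w : Ei) ^ 2 + w + 1 = 0 := by decide
    rw [this, map_zero]
  obtain ⟨σ, hσ⟩ := kummer3 (k := k) (K := L) (I := {x : Ei // x ∈ insert w P}) hw (fun d => ρ d.1)
    (fun d => algebraMap Ei k d.1) (fun d => by rw [hc, ← hρ d.1 d.2])
    (fun a ha => indep (k := k) hP a ha) (fun d => ε d.1)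
  refine ⟨AlgEquiv.restrictScalars ℚ σ, fun x => ?_, fun x hx => ?_⟩
  · rw [← hc]
    exact σ.commutes _
  · have h1 := hσ ⟨x, hx⟩
    rw [hc] at h1
    exact h1

end Pool.Agent.R432.C
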