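import Pool.Agent.R432.C2

/-!
# Primary Eisenstein primes with prescribed cubic symbols, second part
-/

set_option autoImplicit false

open Polynomial NumberField

namespace Pool.Agent.R432.C

open Pool.Agent.Y692.QS
open Pool.Agent.Y715.T.Rec (cs nn)
open Pool.Agent.Y715.T.RecG (Pq)
open Pool.Agent.W401.Cheb (xp HasFrob infinite_frob)

theorem q_of_p {L : Type} [Field L] [NumberField L] (j : Ei →+* L) {s : Finset Ei} (ρ : Ei → L)
    (hρ : ∀ g ∈ s, ρ g ^ 3 = j g) (ε : Ei → ZMod 3) (g : Gal(L/ℚ)) (hg1 : ∀ x, g (j x) = j x)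
    (hg2 : ∀ x ∈ s, g (ρ x) = j w ^ (ε x).val * ρ x) {p : ℕ} (hp : p.Prime) (hp3 : p ≠ 3)
    (hx : xp L g p ≠ 0) : ∃ q : Ei, Pq q ∧ (nr q).natAbs = p ∧
      ∀ x ∈ s, ¬ q ∣ x → cs q x = ε x := by
  classical
  have hfact : Fact p.Prime := ⟨hp⟩
  unfold xp at hx
  rw [dif_pos hp] at hx
  obtain ⟨⟨φ, hφ⟩⟩ : Nonempty {φ : 𝓞 L →+* AlgebraicClosure (ZMod p) // HasFrob p φ g} := by
    by_contra hcon
    rw [not_nonempty_iff] at hcon
    exact hx (@Nat.card_of_isEmpty _ hcon)
  have hjw : j w * j w = -1 - j w := by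
    rw [← map_mul, w_sq, map_sub, map_neg, map_one]
  have hI : IsIntegral ℤ (j w) := by
    refine ⟨Polynomial.X ^ 2 + Polynomial.X + 1, by monicity!, ?_⟩
    simp only [eval₂_add, eval₂_pow, eval₂_X, eval₂_one]
    linear_combination hjw
  have hII : (⟨j w, hI⟩ : 𝓞 L) * ⟨j w, hI⟩ = -1 - ⟨j w, hI⟩ := by
    apply RingOfIntegers.ext
    push_cast
    exact hjw
  let jO : Ei →+* 𝓞 L := hom ⟨j w, hI⟩ hII
  have hjO : ∀ x, ((jO x : 𝓞 L) : L) = j x := by
    intro x
    have h1 : jO x = (x.re : 𝓞 L) + (x.im : 𝓞 L) * ⟨j w, hI⟩ := hom_apply _ _ x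
    rw [h1]
    conv_rhs => rw [eta x]
    rw [map_add, map_mul, map_intCast, map_intCast]
    push_cast
    rfl
  have hgj : ∀ x, g • jO x = jO x := by
    intro x
    apply RingOfIntegers.ext
    change g ((jO x : 𝓞 L) : L) = _
    rw [hjO, hg1]
  set ψ : Ei →+* AlgebraicClosure (ZMod p) := φ.comp jO with hψ
  have hψp : ∀ x, ψ x ^ p = ψ x := by
    intro x
    have h1 := hφ (jO x)
    rw [hgj] at h1
    exact h1.symm
  have hchar : ∀ n : ℤ, ((n : ℤ) : AlgebraicClosure (ZMod p)) = 0 → (p : ℤ) ∣ n := by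
    intro n hn
    have h1 : CharP (AlgebraicClosure (ZMod p)) p := inferInstance
    exact (CharP.intCast_eq_zero_iff _ p n).1 hn
  have h30 : (3 : AlgebraicClosure (ZMod p)) ≠ 0 := by
    intro h
    have h1 := hchar 3 (by exact_mod_cast h)
    have h2 : p ∣ 3 := by exact_mod_cast h1
    exact hp3 ((Nat.prime_dvd_prime_iff_eq hp Nat.prime_three).1 h2)
  have hw2 : ψ w ^ 2 + ψ w + 1 = 0 := by
    have h : (w : Ei) ^ 2 + w + 1 = 0 := by decide
    rw [← map_pow, ← map_add, ← map_one ψ, ← map_add, h, map_zero]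
  -- the kernel
  have hpid : IsPrincipalIdealRing Ei := inferInstance
  obtain ⟨q0, hq0⟩ := (IsPrincipalIdealRing.principal (RingHom.ker ψ)).principal
  have hmem : ∀ x : Ei, ψ x = 0 ↔ q0 ∣ x := by
    intro x
    rw [← RingHom.mem_ker, hq0]
    exact Ideal.mem_span_singleton
  have hpψ : ψ (p : Ei) = 0 := by
    rw [map_natCast]
    exact CharP.cast_eq_zero _ p
  have hq00 : q0 ≠ 0 := by
    rintro rfl
    have h1 := (hmem _).1 hpψ
    rw [zero_dvd_iff] at h1
    have h2 := congrArg (fun z : Ei => z.re) h1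
    simp only [QuadraticAlgebra.re_natCast, QuadraticAlgebra.re_zero] at h2
    exact hp.ne_zero (by exact_mod_cast h2)
  have hq0p : Prime q0 := by
    rw [← Ideal.span_singleton_prime hq00]
    have h1 : (RingHom.ker ψ).IsPrime := RingHom.ker_isPrime ψ
    rw [hq0] at h1
    exact h1
  have h11 : ¬ q0 ∣ 3 := by
    intro h
    have h1 := (hmem _).2 h
    rw [map_ofNat] at h1
    exact h30 h1
  obtain ⟨u, hu1, hu2⟩ := Pool.Agent.Y715.T.RecC.exists_prim hq0p h11
  obtain ⟨u', rfl⟩ := hu1
  have hass : Associated q0 ((u' : Ei) * q0) := ⟨u', mul_comm _ _⟩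
  have hq : Pq ((u' : Ei) * q0) := ⟨hass.prime hq0p, hu2⟩
  set q : Ei := (u' : Ei) * q0 with hqdef
  have hmem' : ∀ x : Ei, ψ x = 0 ↔ q ∣ x := fun x => (hmem x).trans hass.dvd_iff_dvd_left
  have hnn := nr_nonneg q
  have h3nn := Pool.Agent.Y715.T.RecC.nr_nn hq.prime hq.norm
  have hp1 : p % 3 = 1 := by
    -- `w` is fixed by the Frobenius
    have h5 := hψp w
    have h6 : ψ w ^ 3 = 1 := cube_of hw2
    have h7 : ψ w ≠ 1 := w_ne_one hw2 h30
    have h8 := Nat.div_add_mod p 3
    have h9 : ψ w ^ p = ψ w ^ (p % 3) := by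
      calc ψ w ^ p = ψ w ^ (3 * (p / 3) + p % 3) := congrArg (fun n => ψ w ^ n) h8.symm
        _ = _ := by rw [pow_add, pow_mul, h6, one_pow, one_mul]
    rw [h5] at h9
    have h10 : p % 3 < 3 := Nat.mod_lt _ (by norm_num)
    interval_cases h : p % 3
    · rw [pow_zero] at h9
      exact absurd h9 h7
    · rfl
    · exfalso
      have h12 : ψ w ≠ 0 := by
        intro h
        rw [h] at h6
        norm_num at h6
      apply h7
      apply mul_left_cancel₀ h12
      rw [mul_one, ← sq]
      exact h9.symm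
  have hnorm : (nr q).natAbs = p := by
    obtain ⟨p', hp', hqp', h3⟩ := Pool.Agent.Y715.T.Rec.exists_p hq.prime
    have hpp : p' = p := by
      have h4 := (hmem' _).2 hqp'
      rw [map_natCast] at h4
      have h5 := hchar p' (by exact_mod_cast h4)
      have h6 : p ∣ p' := by exact_mod_cast h5
      exact ((Nat.prime_dvd_prime_iff_eq hp hp').1 h6).symm
    subst hpp
    rcases h3 with h4 | h4
    · rw [h4]
      exact Int.natAbs_natCast p'
    · exfalso
      -- the kernel is generated by a divisor of `p` of norm `p`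
      have hψw : ∃ n : ℤ, ψ w = (n : AlgebraicClosure (ZMod p')) := by
        have h5 : ψ w ^ p' = ψ w := hψp w
        obtain ⟨n, hn⟩ : ∃ n : ZMod p', algebraMap (ZMod p') (AlgebraicClosure (ZMod p')) n = ψ w := by
          have h6 : ψ w ∈ (algebraMap (ZMod p') (AlgebraicClosure (ZMod p'))).fieldRange := by
            by_contra hcon
            have hroots : ((X : (AlgebraicClosure (ZMod p'))[X]) ^ p' - X).roots.toFinset.card ≤ p' := by
              refine (Multiset.toFinset_card_le _).trans ((Polynomial.card_roots' _).trans ?_)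
              rw [FiniteField.X_pow_card_sub_X_natDegree_eq _ hp.one_lt]
            have hne : ((X : (AlgebraicClosure (ZMod p'))[X]) ^ p' - X) ≠ 0 :=
              FiniteField.X_pow_card_sub_X_ne_zero _ hp.one_lt
            have hsub : insert (ψ w) (Finset.univ.image (algebraMap (ZMod p') (AlgebraicClosure (ZMod p')))) ⊆
                ((X : (AlgebraicClosure (ZMod p'))[X]) ^ p' - X).roots.toFinset := by
              intro z hz
              rw [Multiset.mem_toFinset, mem_roots hne, IsRoot.def, eval_sub, eval_pow, eval_X,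
                sub_eq_zero]
              rcases Finset.mem_insert.1 hz with rfl | h
              · exact h5
              · obtain ⟨n, -, rfl⟩ := Finset.mem_image.1 h
                rw [← map_pow, ZMod.pow_card]
            have hc := (Finset.card_le_card hsub).trans hroots
            rw [Finset.card_insert_of_notMem (by
                intro h
                obtain ⟨n, -, hn⟩ := Finset.mem_image.1 h
                exact hcon ⟨n, hn⟩),
              Finset.card_image_of_injective _ (algebraMap (ZMod p') _).injective, Finset.card_univ,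
              ZMod.card] at hc
            omega
          exact h6
        refine ⟨(n.val : ℤ), ?_⟩
        rw [← hn]
        push_cast
        conv_lhs => rw [← ZMod.natCast_zmod_val n]
        rw [map_natCast]
      obtain ⟨n, hn⟩ := hψw
      have h5 : ψ (w - n) = 0 := by rw [map_sub, map_intCast, hn, sub_self]
      obtain ⟨c, hc⟩ := (hmem' _).1 h5
      have h6 : (p' : ℤ) ∣ 1 := by
        -- `q` is associated to `p'`
        have h7 : q * star q = ((p' : ℤ) : Ei) * ((p' : ℤ) : Ei) := by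
          rw [mul_star, h4]
          push_cast
          ring
        have h8 : ((p' : ℤ) : Ei) ∣ q := by
          obtain ⟨d, hd⟩ := hqp'
          have h9 : nr q * nr d = (p' : ℤ) ^ 2 := by rw [← nr_mul, ← hd, nr_nat]
          rw [h4] at h9
          have h10 : nr d = 1 := by
            have h11 : ((p' : ℤ) ^ 2) ≠ 0 := pow_ne_zero 2 (by exact_mod_cast hp.ne_zero)
            exact mul_left_cancel₀ h11 (by rw [mul_one]; exact h9)
          obtain ⟨d', rfl⟩ := isUnit_iff.2 h10
          refine ⟨((d'⁻¹ : Eiˣ) : Ei), ?_⟩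
          have : ((p' : ℤ) : Ei) = ((p' : ℕ) : Ei) := by push_cast; rfl
          rw [this, hd, mul_assoc, Units.mul_inv, mul_one]
        have h9 := (int_dvd (n := (p' : ℤ)) (α := w - n)).1 (h8.trans ⟨c, hc⟩)
        have h10 : (w - (n : Ei)).im = 1 := by simp [w]
        rw [h10] at h9
        exact h9.2
      have h7 := Int.natAbs_dvd_natAbs.2 h6
      simp only [Int.natAbs_natCast, Int.natAbs_one, Nat.dvd_one] at h7
      exact hp.one_lt.ne' h7
  refine ⟨q, hq, hnorm, fun x hxs hqx => ?_⟩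
  have hint : IsIntegral ℤ (ρ x) := by
    have h1 : IsIntegral ℤ (ρ x ^ 3) := by
      rw [hρ x hxs, ← hjO]
      exact (jO x).2
    exact h1.of_pow (by norm_num)
  set ρO : 𝓞 L := ⟨ρ x, hint⟩ with hρO
  have h1 : ρO ^ 3 = jO x := by
    apply RingOfIntegers.ext
    rw [hjO, ← hρ x hxs]
    rfl
  have h2 : g • ρO = jO w ^ (ε x).val * ρO := by
    apply RingOfIntegers.ext
    change g (ρ x) = ((jO w : 𝓞 L) : L) ^ (ε x).val * ρ x
    rw [hjO]
    exact hg2 x hxs
  have h3 := hφ ρO
  rw [h2, map_mul, map_pow] at h3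
  have h4 : φ ρO ^ 3 = ψ x := by
    rw [← map_pow, h1]; rfl
  have h5 : φ ρO ≠ 0 := by
    intro h
    rw [h] at h4
    exact hqx ((hmem' x).1 (by rw [← h4]; ring))
  have h6 : φ ρO ^ (3 * nn q) = ψ w ^ (ε x).val := by
    apply mul_right_cancel₀ h5
    have h7 : φ (jO w) ^ (ε x).val * φ ρO = ψ w ^ (ε x).val * φ ρO := rfl
    rw [← h7, h3, ← pow_succ]
    congr 1
    omega
  rw [pow_mul, h4] at h6
  apply Pool.Agent.Y715.T.RecG.cs_of hq.prime hq.norm
  rw [← hmem', map_sub, map_pow, map_pow, h6, sub_self]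

/-- the symbol of `w` -/
lemma cs_w_nine {q : Ei} (hq : Pq q) (h : cs q w = 0) : nr q % 9 = 1 := by
  have h1 := Pool.Agent.Y715.T.RecC.nr_nn hq.prime hq.norm
  have hw : ¬ q ∣ w := fun h1 => hq.prime.not_isUnit (isUnit_of_dvd_unit h1 isUnit_w)
  have h2 : cs q w = (nn q : ZMod 3) := by
    apply Pool.Agent.Y715.T.RecG.cs_of hq.prime hq.norm
    have h3 : (w : Ei) ^ ((nn q : ZMod 3)).val = w ^ nn q := by
      rw [ZMod.val_natCast]
      conv_rhs => rw [← Nat.div_add_mod (nn q) 3, pow_add, pow_mul, w_cube, one_pow, one_mul]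
    rw [h3, sub_self]
    exact dvd_zero _
  rw [h] at h2
  have h3 : 3 ∣ nn q := (ZMod.natCast_eq_zero_iff _ _).1 h2.symm
  have h4 := nr_nonneg q
  omega

/-- **Primes with prescribed symbols.** -/
theorem inf_q (P : Finset Ei) (hP : ∀ p ∈ P, Pq p) (ε : Ei → ZMod 3) :
    {q : Ei | Pq q ∧ q ∉ P ∧ nr q % 9 = 1 ∧ ∀ p ∈ P, cs q p = ε p}.Infinite := by
  classical
  have hwP : w ∉ P := fun h => (hP _ h).prime.not_isUnit isUnit_w
  obtain ⟨L, _, _, _, j, ρ, hρ⟩ := exists_field (insert w P)
  have hinj : Function.Injective j := by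
    rw [injective_iff_map_eq_zero]
    intro a ha
    by_contra h0
    have h3 : j ((nr a : ℤ) : Ei) = 0 := by
      rw [← mul_star, map_mul, ha, zero_mul]
    rw [map_intCast] at h3
    have h4 : nr a = 0 := by exact_mod_cast h3
    exact h0 (nr_zero_iff.1 h4)
  let _ : Algebra (FractionRing Ei) L :=
    (IsFractionRing.lift (K := FractionRing Ei) hinj).toAlgebra
  obtain ⟨g, hg1, hg2⟩ := exists_gal (k := FractionRing Ei) j
    (fun g => IsFractionRing.lift_algebraMap hinj g) hP ρ hρ (fun x => if x = w then 0 else ε x)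
  have hinf := infinite_frob L g
  intro hfin
  apply hinf
  have hB : ({3} ∪ (P.image (fun q : Ei => (nr q).natAbs) : Finset ℕ) ∪
    (hfin.toFinset.image (fun q : Ei => (nr q).natAbs) : Finset ℕ) : Set ℕ).Finite := by
    refine Set.Finite.union (Set.Finite.union (Set.finite_singleton _) (Finset.finite_toSet _))
      (Finset.finite_toSet _)
  refine hB.subset ?_
  rintro p ⟨hp, hxp⟩
  by_cases hp3 : p = 3
  · left; left; exact hp3
  obtain ⟨q, hq, hqn, hcs⟩ := q_of_p j ρ hρ _ g hg1 hg2 hp hp3 hxp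
  by_cases hqP : q ∈ P
  · left; right
    rw [Finset.mem_coe, Finset.mem_image]
    exact ⟨q, hqP, hqn⟩
  · right
    rw [Finset.mem_coe, Finset.mem_image]
    refine ⟨q, ?_, hqn⟩
    rw [Set.Finite.mem_toFinset]
    refine ⟨hq, hqP, ?_, ?_⟩
    · apply cs_w_nine hq
      have h1 := hcs w (Finset.mem_insert_self _ _) (fun h => hq.prime.not_isUnit
        (isUnit_of_dvd_unit h isUnit_w))
      rw [if_pos rfl] at h1
      exact h1
    · intro p' hp'
      have h1 := hcs p' (Finset.mem_insert_of_mem hp') (fun h => hqP (by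
        rw [pq_dvd hq (hP p' hp') h]; exact hp'))
      rw [if_neg (fun h : p' = w => hwP (by rw [← h]; exact hp'))] at h1
      exact h1

end Pool.Agent.R432.C
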