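import Pool.Agent.R432.C1
import Pool.Agent.Y682.YS.Quad

/-!
# The exponent of the 3-primary part of the Tate-Shafarevich group over `K(∛d_1, …, ∛d_n)`
-/

set_option autoImplicit false
set_option linter.unusedSectionVars false

open NumberField IsDedekindDomain WeierstrassCurve

namespace Pool.Agent.R432.C

open Pool.Agent.TH841.SH.D (Pt act Gal Coch IsCoc IsCob LocTriv cob)
open Pool.Agent.TH841.NF (Sc tm tF tm_some act_some' pt_ext)
open Pool.Agent.TH841.NF.D (Sha)
open Pool.Agent.Y715.CS (scI scE Fx)
open Pool.Agent.Y715.CS.YS (sha_FG exists_e')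

/-- the curve `y² + D y = x³` -/
def ED {K : Type} [Field K] (D : K) : WeierstrassCurve K := ⟨0, 0, D, 0, 0⟩

lemma zinv {a : ZMod 3} (h : a ≠ 0) : a * a⁻¹ = 1 := by
  have := Fact.mk Nat.prime_three
  exact mul_inv_cancel₀ h

section three

variable {L : Type} [Field L] [CharZero L] [DecidableEq L] {V : WeierstrassCurve L} {D : L}

/-- three points on a horizontal line -/
lemma add3 (h1 : V.a₁ = 0) (h2 : V.a₂ = 0) (h3 : V.a₃ = D) (h4 : V.a₄ = 0) (h6 : V.a₆ = 0)
    (hD : D ≠ 0) {z : L} (hz : z ^ 2 + z + 1 = 0) {a a' a'' b : L}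
    (n0 : V.toAffine.Nonsingular a b) (n1 : V.toAffine.Nonsingular a' b)
    (n2 : V.toAffine.Nonsingular a'' b) (ha' : a' = z * a) (ha'' : a'' = z ^ 2 * a) :
    Affine.Point.some a b n0 + Affine.Point.some a' b n1 + Affine.Point.some a'' b n2 = 0 := by
  have hneg : ∀ x y, V.toAffine.negY x y = -y - D := by
    intro x y
    unfold Affine.negY
    rw [h1, h3]
    ring
  have h30 : (3 : L) ≠ 0 := three_ne_zero
  have hz1 : z ≠ 1 := w_ne_one hz h30
  have hsl : V.toAffine.slope a a' b b = 0 ∧ ¬ (a = a' ∧ b = V.toAffine.negY a' b) := by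
    by_cases ha : a = 0
    · have ha0 : a' = 0 := by rw [ha', ha, mul_zero]
      have hb := (Affine.equation_iff _ _).1 n0.1
      rw [h1, h2, h3, h4, h6, ha] at hb
      have hb' : b * (b + D) = 0 := by linear_combination hb
      have hne : b ≠ V.toAffine.negY a' b := by
        rw [hneg]
        intro h
        have h5 : 2 * b = -D := by linear_combination h
        rcases mul_eq_zero.1 hb' with h6 | h6
        · rw [h6, mul_zero] at h5
          exact hD (neg_eq_zero.1 h5.symm)
        · apply hD
          have h7 : b = -D := by linear_combination h6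
          rw [h7] at h5
          linear_combination -h5
      refine ⟨?_, fun h => hne h.2⟩
      rw [Affine.slope_of_Y_ne (by rw [ha, ha0]) hne, h1, h2, h4, ha]
      simp
    · have hx : a ≠ a' := by
        intro h
        apply hz1
        apply mul_right_cancel₀ ha
        rw [one_mul, ← ha']
        exact h.symm
      refine ⟨?_, fun h => hx h.1⟩
      rw [Affine.slope_of_X_ne hx, sub_self, zero_div]
  have hX : V.toAffine.addX a a' (V.toAffine.slope a a' b b) = a'' := by
    rw [hsl.1, Affine.addX, h1, h2, ha', ha'']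
    linear_combination -a * hz
  rw [Affine.Point.add_some hsl.2]
  apply Affine.Point.add_of_Y_eq hX
  rw [hneg, Affine.addY, hneg, Affine.negAddY, hsl.1]
  ring

end three

/-- **The 3-primary part of `Ш` over `F = K(∛d_1, …, ∛d_n)`** is killed by `3 ^ n`, if the 3-primary
parts of all the twists over `K` are trivial. -/
theorem cubic {K F : Type} [Field K] [NumberField K] [Field F] [NumberField F] [Algebra K F]
    [IsGalois K F] {ω : K} (hω : ω ^ 2 + ω + 1 = 0) {I : Type} [Fintype I] (d : I → K)
    (x : I → F) (hd : ∀ i, d i ≠ 0) (hx : ∀ i, x i ^ 3 = algebraMap K F (d i))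
    (hgen : ∀ S : Subfield F, (∀ k : K, algebraMap K F k ∈ S) → (∀ i, x i ∈ S) → S = ⊤)
    {D : K} (hD : D ≠ 0)
    (hyp : ∀ t : I → ZMod 3, ∀ (k : ℕ) (y : Sha (ED (D * ∏ i, d i ^ (t i).val))),
      3 ^ k • y = 0 → y = 0)
    (k : ℕ) (y : Sha (ED (algebraMap K F D))) (hy : 3 ^ k • y = 0) :
    3 ^ Fintype.card I • y = 0 := by
  classical
  obtain ⟨e, he⟩ := exists_e' (K := K) (F := F)
  have hx0 : ∀ i, x i ≠ 0 := by
    intro i h0
    have h1 := hx i
    rw [h0, zero_pow (by norm_num)] at h1
    exact hd i ((map_eq_zero _).1 h1.symm)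
  obtain ⟨u, hu⟩ : ∃ u : (I → ZMod 3) → F, ∀ t, u t = ∏ i, x i ^ (t i).val := ⟨_, fun T => rfl⟩
  have hune : ∀ t, u t ≠ 0 := fun t => by
    rw [hu]
    exact Finset.prod_ne_zero_iff.2 fun i _ => pow_ne_zero _ (hx0 i)
  have hu3 : ∀ t, u t ^ 3 = algebraMap K F (∏ i, d i ^ (t i).val) := by
    intro t
    rw [hu, ← Finset.prod_pow, map_prod]
    refine Finset.prod_congr rfl fun i _ => ?_
    rw [map_pow, ← hx i, ← pow_mul, ← pow_mul, mul_comm]
  have S0 : ∀ t, Sc (RingHom.id F) (u t) (ED (algebraMap K F D))
      ((ED (D * ∏ i, d i ^ (t i).val)).baseChange F) := by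
    intro t
    refine ⟨hune t, ?_, ?_, ?_, ?_, ?_⟩
    · change algebraMap K F 0 = (0 : F) * _
      rw [map_zero, zero_mul]
    · change algebraMap K F 0 = (0 : F) * _
      rw [map_zero, zero_mul]
    · change algebraMap K F (D * ∏ i, d i ^ (t i).val) = (algebraMap K F D) * _
      rw [map_mul, hu3]
    · change algebraMap K F 0 = (0 : F) * _
      rw [map_zero, zero_mul]
    · change algebraMap K F 0 = (0 : F) * _
      rw [map_zero, zero_mul]
  have key := sha_FG (K := K) (F := F) e he (T := I → ZMod 3)
    (fun t => ED (D * ∏ i, d i ^ (t i).val)) (ED (algebraMap K F D)) u S0 ?_ 3 hyp k y hy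
  · have h1 : Fintype.card (I → ZMod 3) = 3 ^ Fintype.card I := by
      rw [Fintype.card_fun, ZMod.card]
    rw [← h1]
    exact key
  · intro g hg P
    set φ : AlgebraicClosure F →+* AlgebraicClosure F :=
      (e.symm : AlgebraicClosure K →+* AlgebraicClosure F).comp
        ((g : AlgebraicClosure K →+* AlgebraicClosure K).comp
          (e : AlgebraicClosure F →+* AlgebraicClosure K)) with hφ
    have hφa : ∀ x, φ x = e.symm (g (e x)) := fun x => rfl
    set m : F →+* AlgebraicClosure F := algebraMap F (AlgebraicClosure F) with hm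
    have hφK : ∀ y : K, φ (m (algebraMap K F y)) = m (algebraMap K F y) := by
      intro y
      rw [hφa, he, AlgEquiv.commutes, ← he, RingEquiv.symm_apply_apply]
    set z : AlgebraicClosure F := m (algebraMap K F ω) with hz
    have hz2 : z ^ 2 + z + 1 = 0 := by
      rw [hz, ← map_pow, ← map_pow, ← map_add, ← map_add, ← map_one m, ← map_one (algebraMap K F),
        ← map_add, ← map_add, hω, map_zero, map_zero]
    have hz3 := cube_of hz2
    have hex : ∀ i, ∃ c : ZMod 3, φ (m (x i)) = z ^ c.val * m (x i) := by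
      intro i
      apply cube_roots hz2
      rw [← map_pow, ← map_pow, hx i, hφK]
    choose s hs using hex
    obtain ⟨c, hc⟩ : ∃ c : (I → ZMod 3) → ZMod 3, ∀ t, c t = ∑ i, s i * t i := ⟨_, fun t => rfl⟩
    have hcu : ∀ t, φ (m (u t)) = z ^ (c t).val * m (u t) := by
      intro t
      rw [hu, map_prod, map_prod, hc, pow_sum_val hz3, ← Finset.prod_mul_distrib]
      refine Finset.prod_congr rfl fun i _ => ?_
      rw [map_pow, map_pow, hs i, mul_pow, pow_mul_val hz3]
    obtain ⟨i0, hi0⟩ : ∃ i, s i ≠ 0 := by
      by_contra hcon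
      push Not at hcon
      apply hg
      have h5 := hgen (RingHom.eqLocusField (φ.comp m) m) (fun y => hφK y) (fun i => by
        show φ (m (x i)) = m (x i)
        rw [hs i, hcon i, ZMod.val_zero, pow_zero, one_mul])
      intro y
      have h7 : y ∈ RingHom.eqLocusField (φ.comp m) m := by rw [h5]; trivial
      have h8 : e.symm (g (e (m y))) = m y := h7
      have h9 := congrArg e h8
      rw [RingEquiv.apply_symm_apply] at h9
      exact h9
    have hmu : ∀ t, m (u t) ≠ 0 := fun t => (map_ne_zero m).2 (hune t)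
    -- the terms depend only on `c t`
    obtain ⟨f, hf⟩ : ∃ f : ZMod 3 → Pt (ED (algebraMap K F D)) (AlgebraicClosure F),
        (∀ t, tm (scI e he (S0 t))
          (act (ED (D * ∏ i, d i ^ (t i).val)) g.toAlgHom (tm (scE e he (S0 t)) P)) = f (c t)) ∧
        ∑ b, f b = 0 := by
      rcases P with _ | ⟨X, Y, h⟩
      · exact ⟨fun _ => 0, fun t => rfl, by simp⟩
      · have hX : ∀ t, e.symm (g (e X * (e (m (u t))) ^ 2)) * ((m (u t))⁻¹) ^ 2 =
            (z ^ (c t).val) ^ 2 * φ X := by
          intro t
          rw [map_mul, map_mul, map_pow, map_pow, ← hφa, ← hφa, hcu t]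
          have h2 : (m (u t)) ^ 2 * ((m (u t))⁻¹) ^ 2 = 1 := by
            rw [← mul_pow, mul_inv_cancel₀ (hmu t), one_pow]
          calc φ X * (z ^ (c t).val * m (u t)) ^ 2 * ((m (u t))⁻¹) ^ 2 =
              (z ^ (c t).val) ^ 2 * φ X * ((m (u t)) ^ 2 * ((m (u t))⁻¹) ^ 2) := by ring
            _ = _ := by rw [h2, mul_one]
        have hY : ∀ t, e.symm (g (e Y * (e (m (u t))) ^ 3)) * ((m (u t))⁻¹) ^ 3 = φ Y := by
          intro t
          rw [map_mul, map_mul, map_pow, map_pow, ← hφa, ← hφa, hcu t]
          have h2 : (m (u t)) ^ 3 * ((m (u t))⁻¹) ^ 3 = 1 := by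
            rw [← mul_pow, mul_inv_cancel₀ (hmu t), one_pow]
          have h1 : (z ^ (c t).val) ^ 3 = 1 := by rw [← pow_mul, mul_comm, pow_mul, hz3, one_pow]
          calc φ Y * (z ^ (c t).val * m (u t)) ^ 3 * ((m (u t))⁻¹) ^ 3 =
              (z ^ (c t).val) ^ 3 * φ Y * ((m (u t)) ^ 3 * ((m (u t))⁻¹) ^ 3) := by ring
            _ = _ := by rw [h1, h2, mul_one, one_mul]
        -- the points
        have hns : ∀ b : ZMod 3, ((ED (algebraMap K F D)).baseChange
            (AlgebraicClosure F)).toAffine.Nonsingular ((z ^ b.val) ^ 2 * φ X) (φ Y) := by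
          intro b
          obtain ⟨t, ht⟩ : ∃ t : I → ZMod 3, c t = b := by
            refine ⟨Pi.single i0 ((s i0)⁻¹ * b), ?_⟩
            rw [hc, Finset.sum_eq_single i0 (fun j _ hj => by
              rw [Pi.single_eq_of_ne hj, mul_zero]) (fun h => absurd (Finset.mem_univ _) h),
              Pi.single_eq_same, ← mul_assoc]
            have : s i0 * (s i0)⁻¹ = 1 := zinv hi0
            rw [this, one_mul]
          have h1 : ∃ h', tm (scI e he (S0 t)) (act (ED (D * ∏ i, d i ^ (t i).val)) g.toAlgHom
              (tm (scE e he (S0 t)) (Affine.Point.some X Y h))) =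
              Affine.Point.some (e.symm (g (e X * (e (m (u t))) ^ 2)) * ((m (u t))⁻¹) ^ 2)
                (e.symm (g (e Y * (e (m (u t))) ^ 3)) * ((m (u t))⁻¹) ^ 3) h' := by
            rw [tm_some, act_some', tm_some]
            exact ⟨_, rfl⟩
          obtain ⟨h', -⟩ := h1
          rw [hX, hY, ht] at h'
          exact h'
        refine ⟨fun b => Affine.Point.some _ _ (hns b), fun t => ?_, ?_⟩
        · rw [tm_some, act_some', tm_some]
          exact pt_ext _ _ (hX t) (hY t)
        · have hD' : ((ED (algebraMap K F D)).baseChange (AlgebraicClosure F)).a₃ ≠ 0 := by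
            change m (algebraMap K F D) ≠ 0
            exact (map_ne_zero m).2 ((map_ne_zero _).2 hD)
          have h0 : ∀ f : ZMod 3 → Pt (ED (algebraMap K F D)) (AlgebraicClosure F),
              ∑ b, f b = f 0 + f 2 + f 1 := by
            intro f
            have : (Finset.univ : Finset (ZMod 3)) = {0, 2, 1} := by decide
            rw [this, Finset.sum_insert (by decide), Finset.sum_insert (by decide),
              Finset.sum_singleton, add_assoc]
          rw [h0]
          have v0 : (0 : ZMod 3).val = 0 := rfl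
          have v1 : (1 : ZMod 3).val = 1 := rfl
          have v2 : (2 : ZMod 3).val = 2 := rfl
          refine add3 (map_zero _) (map_zero _) rfl (map_zero _) (map_zero _) hD' hz2 _ _ _ ?_ ?_
          · rw [v0, v2]
            linear_combination (z * φ X) * hz3
          · rw [v0, v1]
            ring
    obtain ⟨hf1, hf2⟩ := hf
    rw [Finset.sum_congr rfl fun t _ => hf1 t]
    -- the fibres have the same size
    have hcard : ∀ b : ZMod 3, (Finset.univ.filter fun t => c t = b).card =
        (Finset.univ.filter fun t => c t = 0).card := by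
      intro b
      symm
      refine Finset.card_bij (fun t _ => t + Pi.single i0 ((s i0)⁻¹ * b)) ?_ ?_ ?_
      · intro t ht
        rw [Finset.mem_filter] at ht ⊢
        refine ⟨Finset.mem_univ _, ?_⟩
        have e1 : c (t + Pi.single i0 ((s i0)⁻¹ * b)) = c t + b := by
          rw [hc, hc]
          simp only [Pi.add_apply, mul_add, Finset.sum_add_distrib]
          congr 1
          rw [Finset.sum_eq_single i0 (fun j _ hj => by
            rw [Pi.single_eq_of_ne hj, mul_zero]) (fun h => absurd (Finset.mem_univ _) h),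
            Pi.single_eq_same, ← mul_assoc]
          have : s i0 * (s i0)⁻¹ = 1 := zinv hi0
          rw [this, one_mul]
        rw [e1, ht.2, zero_add]
      · intro t _ t' _ h
        exact add_right_cancel h
      · intro t ht
        rw [Finset.mem_filter] at ht
        refine ⟨t - Pi.single i0 ((s i0)⁻¹ * b), ?_, sub_add_cancel _ _⟩
        rw [Finset.mem_filter]
        refine ⟨Finset.mem_univ _, ?_⟩
        have e1 : c (t - Pi.single i0 ((s i0)⁻¹ * b)) = c t - b := by
          rw [hc, hc]
          simp only [Pi.sub_apply, mul_sub, Finset.sum_sub_distrib]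
          congr 1
          rw [Finset.sum_eq_single i0 (fun j _ hj => by
            rw [Pi.single_eq_of_ne hj, mul_zero]) (fun h => absurd (Finset.mem_univ _) h),
            Pi.single_eq_same, ← mul_assoc]
          have : s i0 * (s i0)⁻¹ = 1 := zinv hi0
          rw [this, one_mul]
        rw [e1, ht.2, sub_self]
    rw [← Finset.sum_fiberwise (s := Finset.univ) (g := c)]
    have h5 : ∀ b : ZMod 3, ∑ t ∈ Finset.univ.filter (fun t => c t = b), f (c t) =
        (Finset.univ.filter fun t => c t = 0).card • f b := by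
      intro b
      rw [Finset.sum_congr rfl (g := fun _ => f b) (fun t ht => by
        rw [(Finset.mem_filter.1 ht).2]), Finset.sum_const, hcard]
    rw [Finset.sum_congr rfl fun b _ => h5 b, ← Finset.smul_sum, hf2, smul_zero]

end Pool.Agent.R432.C
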