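import Pool.Agent.R432.C3
import Pool.Agent.Y703.CT.StmB
import Pool.Agent.Y350.CT.REC

/-!
# Leaves of the graph of the cubic residue symbols
-/

set_option autoImplicit false

namespace Pool.Agent.R432.C

open Pool.Agent.Y692.QS
open Pool.Agent.Y715.T.Rec (cs)
open Pool.Agent.Y715.T.RecG (Pq)
open Pool.Agent.Y703.CT (Dt pD Ker)

section

variable {J : Type} [Fintype J]

/-- each prime `l ∈ S` is joined only with `π (j₀ l)`, and its norm is `1` modulo `9` -/
structure Leaf (π : J → Ei) (j₀ : Ei → J) (S : Finset Ei) : Prop where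
  pq : ∀ l ∈ S, Pq l
  ne : ∀ l ∈ S, ∀ j, l ≠ π j
  nine : ∀ l ∈ S, nr l % 9 = 1
  at0 : ∀ l ∈ S, cs l (π (j₀ l)) ≠ 0
  off : ∀ l ∈ S, ∀ j, j ≠ j₀ l → cs l (π j) = 0
  pw : ∀ l ∈ S, ∀ m ∈ S, l ≠ m → cs l m = 0

variable {π : J → Ei} {e : J → ZMod 3} {j₀ : Ei → J} {S : Finset Ei}

/-- the indices -/
abbrev JL (J : Type) (t : {x : Ei // x ∈ S} → ZMod 3) : Type := J ⊕ {i : {x : Ei // x ∈ S} // t i ≠ 0}

/-- the primes -/
def πL (π : J → Ei) (t : {x : Ei // x ∈ S} → ZMod 3) : JL J t → Ei :=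
  Sum.elim π (fun i => i.1.1)

/-- the exponents -/
def eL (e : J → ZMod 3) (t : {x : Ei // x ∈ S} → ZMod 3) : JL J t → ZMod 3 :=
  Sum.elim e (fun i => t i.1)

lemma rec_cs {p q : Ei} (hp : Pq p) (hq : Pq q) (h : p ≠ q) : cs q p = cs p q :=
  Pool.Agent.Y350.CT.rec p q hp hq fun hd => h (pq_dvd hq hp hd).symm

theorem leaf_dt (hD : Dt π e) (hL : Leaf π j₀ S) (t : {x : Ei // x ∈ S} → ZMod 3) :
    Dt (πL π t) (eL e t) where
  pq := by
    rintro (j | i)
    · exact hD.pq j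
    · exact hL.pq i.1.1 i.1.2
  nd := by
    rintro (j | i) (j' | i') hne hd
    · exact hD.nd j j' (fun h => hne (by rw [h])) hd
    · exact hL.ne i'.1.1 i'.1.2 j (pq_dvd (hL.pq _ i'.1.2) (hD.pq j) hd)
    · exact hL.ne i.1.1 i.1.2 j' (pq_dvd (hD.pq j') (hL.pq _ i.1.2) hd).symm
    · have h1 := pq_dvd (hL.pq _ i'.1.2) (hL.pq _ i.1.2) hd
      apply hne
      rw [Subtype.ext (Subtype.ext h1.symm : i.1 = i'.1)]
  e0 := by
    rintro (j | i)
    · exact hD.e0 j
    · exact i.2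

theorem leaf_pD (t : {x : Ei // x ∈ S} → ZMod 3) :
    pD (πL π t) (eL e t) = pD π e * ∏ i, i.1 ^ (t i).val := by
  classical
  unfold pD
  rw [Fintype.prod_sum_type]
  congr 1
  have h1 : ∏ i : {x : Ei // x ∈ S}, i.1 ^ (t i).val =
      ∏ i ∈ Finset.univ.filter (fun i : {x : Ei // x ∈ S} => t i ≠ 0), i.1 ^ (t i).val := by
    rw [Finset.prod_filter]
    refine Finset.prod_congr rfl fun i _ => ?_
    by_cases h : t i = 0
    · rw [if_neg (not_not.2 h), h, ZMod.val_zero, pow_zero]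
    · rw [if_pos h]
  rw [h1]
  exact (Finset.prod_subtype (Finset.univ.filter (fun i : {x : Ei // x ∈ S} => t i ≠ 0))
    (p := fun i => t i ≠ 0) (fun i => by simp) (fun i => i.1 ^ (t i).val)).symm

theorem leaf_ker (hD : Dt π e) (hk : Ker π e) (hL : Leaf π j₀ S)
    (t : {x : Ei // x ∈ S} → ZMod 3) : Ker (πL π t) (eL e t) := by
  classical
  intro v hv
  have h3 := Fact.mk Nat.prime_three
  -- the leaves
  have hleaf : ∀ i : {i : {x : Ei // x ∈ S} // t i ≠ 0},
      v (Sum.inr i) = v (Sum.inl (j₀ i.1.1)) := by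
    intro i
    have h1 := hv (Sum.inr i)
    rw [Fintype.sum_sum_type, Finset.sum_eq_single (j₀ i.1.1)] at h1
    · have h2 : ∑ i' : {i : {x : Ei // x ∈ S} // t i ≠ 0},
          eL e t (Sum.inr i') * cs (πL π t (Sum.inr i)) (πL π t (Sum.inr i')) *
            (v (Sum.inr i') - v (Sum.inr i)) = 0 := by
        refine Finset.sum_eq_zero fun i' _ => ?_
        by_cases hi : i' = i
        · rw [hi, sub_self, mul_zero]
        · have h4 : cs (πL π t (Sum.inr i)) (πL π t (Sum.inr i')) = 0 :=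
            hL.pw _ i.1.2 _ i'.1.2 fun h => hi (Subtype.ext (Subtype.ext h.symm))
          rw [h4, mul_zero, zero_mul]
      rw [h2, add_zero] at h1
      have h5 : eL e t (Sum.inl (j₀ i.1.1)) *
          cs (πL π t (Sum.inr i)) (πL π t (Sum.inl (j₀ i.1.1))) ≠ 0 :=
        mul_ne_zero (hD.e0 _) (hL.at0 _ i.1.2)
      have h6 := (mul_eq_zero.1 h1).resolve_left h5
      exact (sub_eq_zero.1 h6).symm
    · intro j _ hj
      have h4 : cs (πL π t (Sum.inr i)) (πL π t (Sum.inl j)) = 0 := hL.off _ i.1.2 j hj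
      rw [h4, mul_zero, zero_mul]
    · intro h
      exact absurd (Finset.mem_univ _) h
  have hin : ∀ j j', v (Sum.inl j) = v (Sum.inl j') := by
    apply hk (fun j => v (Sum.inl j))
    intro j
    have h1 := hv (Sum.inl j)
    rw [Fintype.sum_sum_type] at h1
    have h2 : ∑ i' : {i : {x : Ei // x ∈ S} // t i ≠ 0},
        eL e t (Sum.inr i') * cs (πL π t (Sum.inl j)) (πL π t (Sum.inr i')) *
          (v (Sum.inr i') - v (Sum.inl j)) = 0 := by
      refine Finset.sum_eq_zero fun i' _ => ?_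
      by_cases hj : j = j₀ i'.1.1
      · rw [hleaf i', ← hj, sub_self, mul_zero]
      · have h4 : cs (πL π t (Sum.inl j)) (πL π t (Sum.inr i')) = 0 := by
          have h5 := rec_cs (hL.pq _ i'.1.2) (hD.pq j) (hL.ne _ i'.1.2 j)
          have h6 : cs (πL π t (Sum.inl j)) (πL π t (Sum.inr i')) = cs i'.1.1 (π j) := h5
          rw [h6]
          exact hL.off _ i'.1.2 j hj
        rw [h4, mul_zero, zero_mul]
    rw [h2, add_zero] at h1
    exact h1
  rintro (j | i) (j' | i')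
  · exact hin j j'
  · rw [hleaf i']
    exact hin j _
  · rw [hleaf i]
    exact hin _ j'
  · rw [hleaf i, hleaf i']
    exact hin _ _

lemma nr_prod {I : Type} (s : Finset I) (f : I → Ei) : nr (∏ i ∈ s, f i) = ∏ i ∈ s, nr (f i) := by
  classical
  induction s using Finset.induction_on with
  | empty =>
    rw [Finset.prod_empty, Finset.prod_empty, nr_one]
  | insert a s ha ih => rw [Finset.prod_insert ha, Finset.prod_insert ha, nr_mul, ih]

lemma nr_pow (x : Ei) (n : ℕ) : nr (x ^ n) = nr x ^ n := by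
  induction n with
  | zero => rw [pow_zero, pow_zero, nr_one]
  | succ n ih => rw [pow_succ, pow_succ, nr_mul, ih]

theorem leaf_nine (hL : Leaf π j₀ S) (h9 : ¬ (9 : ℤ) ∣ nr (pD π e) - 1)
    (t : {x : Ei // x ∈ S} → ZMod 3) : ¬ (9 : ℤ) ∣ nr (pD (πL π t) (eL e t)) - 1 := by
  classical
  rw [leaf_pD, nr_mul, nr_prod]
  have h1 : (∏ i : {x : Ei // x ∈ S}, nr (i.1 ^ (t i).val)) ≡ 1 [ZMOD 9] := by
    have h2 : ∀ i : {x : Ei // x ∈ S}, nr (i.1 ^ (t i).val) ≡ 1 [ZMOD 9] := by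
      intro i
      rw [nr_pow]
      have h3 : nr i.1 ≡ 1 [ZMOD 9] := hL.nine _ i.2
      have h4 := h3.pow (t i).val
      rwa [one_pow] at h4
    have h5 : ∀ s : Finset {x : Ei // x ∈ S}, (∏ i ∈ s, nr (i.1 ^ (t i).val)) ≡ 1 [ZMOD 9] := by
      intro s
      induction s using Finset.induction_on with
      | empty => rw [Finset.prod_empty]
      | insert a s ha ih =>
        rw [Finset.prod_insert ha]
        have h6 := (h2 a).mul ih
        rwa [mul_one] at h6
    exact h5 Finset.univ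
  intro hd
  apply h9
  have h2 : nr (pD π e) * ∏ i : {x : Ei // x ∈ S}, nr (i.1 ^ (t i).val) ≡ nr (pD π e) [ZMOD 9] := by
    have h3 := (Int.ModEq.refl (n := 9) (nr (pD π e))).mul h1
    rwa [mul_one] at h3
  have h4 : nr (pD π e) ≡ 1 [ZMOD 9] := h2.symm.trans ((Int.modEq_iff_dvd.2 hd).symm)
  exact (Int.modEq_iff_dvd.1 h4.symm)

end

end Pool.Agent.R432.C
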