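import Pool.Agent.R432.C4
import Pool.Agent.Y710.CTE.MwfA

/-!
# The points over `K(∛d_1, …, ∛d_n)`
-/

set_option autoImplicit false
set_option linter.unusedSectionVars false

open WeierstrassCurve

namespace Pool.Agent.R432.C

open Pool.Agent.TH841.NF (Sc tF tF_some tF_add)
open Pool.Agent.Y710.CTE (fin_pre co co_inj)
open scoped Classical

lemma fib_sum {M I : Type} [AddCommMonoid M] [Fintype I] (s : I → ZMod 3) {i0 : I}
    (hi0 : s i0 ≠ 0) (f : ZMod 3 → M) (h : ∑ b, f b = 0) :
    ∑ t : I → ZMod 3, f (∑ i, s i * t i) = 0 := by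
  obtain ⟨c, hc⟩ : ∃ c : (I → ZMod 3) → ZMod 3, ∀ t, c t = ∑ i, s i * t i := ⟨_, fun t => rfl⟩
  have hadd : ∀ t b, c (t + Pi.single i0 ((s i0)⁻¹ * b)) = c t + b := by
    intro t b
    rw [hc, hc]
    simp only [Pi.add_apply, mul_add, Finset.sum_add_distrib]
    congr 1
    rw [Finset.sum_eq_single i0 (fun j _ hj => by
      rw [Pi.single_eq_of_ne hj, mul_zero]) (fun h => absurd (Finset.mem_univ _) h),
      Pi.single_eq_same, ← mul_assoc, zinv hi0, one_mul]
  have hcard : ∀ b : ZMod 3, (Finset.univ.filter fun t => c t = b).card =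
      (Finset.univ.filter fun t => c t = 0).card := by
    intro b
    symm
    refine Finset.card_bij (fun t _ => t + Pi.single i0 ((s i0)⁻¹ * b)) ?_ ?_ ?_
    · intro t ht
      rw [Finset.mem_filter] at ht ⊢
      refine ⟨Finset.mem_univ _, ?_⟩
      rw [hadd, ht.2, zero_add]
    · intro t _ t' _ h
      exact add_right_cancel h
    · intro t ht
      rw [Finset.mem_filter] at ht
      refine ⟨t - Pi.single i0 ((s i0)⁻¹ * b), ?_, sub_add_cancel _ _⟩
      rw [Finset.mem_filter]
      refine ⟨Finset.mem_univ _, ?_⟩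
      have h1 := hadd (t - Pi.single i0 ((s i0)⁻¹ * b)) b
      rw [sub_add_cancel, ht.2] at h1
      have h2 : c (t - Pi.single i0 ((s i0)⁻¹ * b)) + b = 0 + b := by rw [← h1, zero_add]
      exact add_right_cancel h2
  have h1 : ∑ t : I → ZMod 3, f (∑ i, s i * t i) = ∑ t, f (c t) :=
    Finset.sum_congr rfl fun t _ => by rw [hc]
  rw [h1, ← Finset.sum_fiberwise (s := Finset.univ) (g := c)]
  have h5 : ∀ b : ZMod 3, ∑ t ∈ Finset.univ.filter (fun t => c t = b), f (c t) =
      (Finset.univ.filter fun t => c t = 0).card • f b := by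
    intro b
    rw [Finset.sum_congr rfl (g := fun _ => f b) (fun t ht => by
      rw [(Finset.mem_filter.1 ht).2]), Finset.sum_const, hcard]
  rw [Finset.sum_congr rfl fun b _ => h5 b, ← Finset.smul_sum, h, smul_zero]

section maps

variable {F1 F2 F3 : Type} [Field F1] [Field F2] [Field F3]

/-- the map on points -/
noncomputable def tH {ι : F1 →+* F2} {u : F2} {W : WeierstrassCurve F1} {W' : WeierstrassCurve F2}
    (S : Sc ι u W W') : W.toAffine.Point →+ W'.toAffine.Point where
  toFun := tF S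
  map_zero' := rfl
  map_add' := tF_add S

lemma tH_some {ι : F1 →+* F2} {u : F2} {W : WeierstrassCurve F1} {W' : WeierstrassCurve F2}
    (S : Sc ι u W W') (x y : F1) (h : W.toAffine.Nonsingular x y) :
    ∃ h', tH S (.some x y h) = .some (ι x * u ^ 2) (ι y * u ^ 3) h' := ⟨_, rfl⟩

lemma tH_tH {ι₁ : F1 →+* F2} {ι₂ : F2 →+* F3} {ι : F1 →+* F3} {u₁ : F2} {u₂ u : F3}
    {W : WeierstrassCurve F1} {W' : WeierstrassCurve F2} {W'' : WeierstrassCurve F3}
    (S₁ : Sc ι₁ u₁ W W') (S₂ : Sc ι₂ u₂ W' W'') (S : Sc ι u W W'')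
    (hι : ∀ x, ι₂ (ι₁ x) = ι x) (hu : u = ι₂ u₁ * u₂) (P : W.toAffine.Point) :
    tH S₂ (tH S₁ P) = tH S P := by
  rcases P with _ | ⟨x, y, h⟩
  · rfl
  · obtain ⟨h1, e1⟩ := tH_some S₁ x y h
    obtain ⟨h2, e2⟩ := tH_some S₂ _ _ h1
    obtain ⟨h3, e3⟩ := tH_some S x y h
    rw [e1, e2, e3, Affine.Point.some.injEq]
    constructor
    · rw [map_mul, map_pow, hι, hu]; ring
    · rw [map_mul, map_pow, hι, hu]; ring

lemma sED (ι : F1 →+* F2) {u : F2} (hu : u ≠ 0) {a : F1} {b : F2} (h : b = ι a * u ^ 3) :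
    Sc ι u (ED a) (ED b) where
  hu := hu
  h1 := by
    change (0 : F2) = ι 0 * u
    rw [map_zero, zero_mul]
  h2 := by
    change (0 : F2) = ι 0 * u ^ 2
    rw [map_zero, zero_mul]
  h3 := h
  h4 := by
    change (0 : F2) = ι 0 * u ^ 4
    rw [map_zero, zero_mul]
  h6 := by
    change (0 : F2) = ι 0 * u ^ 6
    rw [map_zero, zero_mul]

end maps

section ker

variable {F : Type} [Field F] [CharZero F]

/-- the kernel of a power of three is finite -/
theorem fin_ker {a z : F} (ha : a ≠ 0) (hz : z ^ 2 + z + 1 = 0) (n : ℕ) :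
    {P : (ED a).toAffine.Point | 3 ^ n • P = 0}.Finite := by
  have hz3 := cube_of hz
  have hz0 : z ≠ 0 := by
    rintro rfl
    norm_num at hz
  have hz1 : z ≠ 1 := w_ne_one hz three_ne_zero
  have S : Sc (RingHom.id F) z (ED a) (ED a) := sED _ hz0 (by
    rw [RingHom.id_apply, hz3, mul_one])
  set A : (ED a).toAffine.Point →+ (ED a).toAffine.Point := tH S with hA
  have hAs : ∀ x y (h : (ED a).toAffine.Nonsingular x y), ∃ h',
      A (.some x y h) = .some (z ^ 2 * x) y h' := by
    intro x y h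
    obtain ⟨h1, e1⟩ := tH_some S x y h
    have e2 : (RingHom.id F) x * z ^ 2 = z ^ 2 * x := by rw [RingHom.id_apply, mul_comm]
    have e3 : (RingHom.id F) y * z ^ 3 = y := by rw [RingHom.id_apply, hz3, mul_one]
    rw [hA]
    refine ⟨by rw [← e2, ← e3]; exact h1, ?_⟩
    rw [e1, Affine.Point.some.injEq]
    exact ⟨e2, e3⟩
  have hA3 : ∀ P, P + A (A P) + A P = 0 := by
    rintro (_ | ⟨x, y, h⟩)
    · change (0 : (ED a).toAffine.Point) + A (A 0) + A 0 = 0
      rw [map_zero, map_zero, add_zero, add_zero]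
    · obtain ⟨h1, e1⟩ := hAs x y h
      obtain ⟨h2, e2⟩ := hAs _ _ h1
      rw [e1, e2]
      refine add3 (V := ED a) rfl rfl rfl rfl rfl ha hz _ _ _ ?_ ?_
      · linear_combination (z * x) * hz3
      · ring
  have hAA : ∀ P, A (A P) = -P - A P := by
    intro P
    have h1 := hA3 P
    have h2 : A (A P) = P + A (A P) + A P - P - A P := by abel
    rw [h2, h1]
    abel
  set B : (ED a).toAffine.Point →+ (ED a).toAffine.Point := AddMonoidHom.id _ - A with hB
  have hBk : {P | B P = 0}.Finite := by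
    have h1 : ({none, some (0, 0), some (0, -a)} : Set (Option (F × F))).Finite := by simp
    refine (h1.preimage (co_inj (V := ED a)).injOn).subset ?_
    rintro (_ | ⟨x, y, h⟩) hP
    · left
      rfl
    · have h2 : (Affine.Point.some x y h : (ED a).toAffine.Point) - A (.some x y h) = 0 := hP
      obtain ⟨h3, e3⟩ := hAs x y h
      rw [e3, sub_eq_zero, Affine.Point.some.injEq] at h2
      have hx : x = 0 := by
        have h4 : (z ^ 2 - 1) * x = 0 := by linear_combination -h2.1
        refine (mul_eq_zero.1 h4).resolve_left ?_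
        intro h5
        apply hz1
        linear_combination hz3 - z * h5
      have hy : y = 0 ∨ y = -a := by
        have h4 := (Affine.equation_iff _ _).1 h.1
        change y ^ 2 + 0 * x * y + a * y = x ^ 3 + 0 * x ^ 2 + 0 * x + 0 at h4
        rw [hx] at h4
        have h5 : y * (y + a) = 0 := by linear_combination h4
        rcases mul_eq_zero.1 h5 with h6 | h6
        · exact Or.inl h6
        · exact Or.inr (by linear_combination h6)
      subst hx
      change some ((0 : F), y) ∈ ({none, some (0, 0), some (0, -a)} : Set (Option (F × F)))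
      rcases hy with rfl | rfl
      · right; left; rfl
      · right; right; rfl
  have hBB : ∀ P, B (B P) = -((3 : ℕ) • A P) := by
    intro P
    show (P - A P) - A (P - A P) = _
    rw [map_sub, hAA]
    abel
  have h3k : {P : (ED a).toAffine.Point | (3 : ℕ) • P = 0}.Finite := by
    refine (fin_pre B hBk (fin_pre B hBk (Set.finite_singleton 0))).subset ?_
    intro P hP
    show B (B P) = 0
    rw [hBB, ← map_nsmul, show (3 : ℕ) • P = 0 from hP, map_zero, neg_zero]
  induction n with
  | zero =>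
    refine (Set.finite_singleton (0 : (ED a).toAffine.Point)).subset ?_
    intro P hP
    have h1 : 3 ^ 0 • P = 0 := hP
    rw [pow_zero, one_smul] at h1
    exact h1
  | succ n ih =>
    refine (fin_pre (nsmulAddMonoidHom 3) h3k ih).subset ?_
    intro P hP
    have h1 : 3 ^ (n + 1) • P = 0 := hP
    show 3 ^ n • ((3 : ℕ) • P) = 0
    rw [← mul_smul, ← pow_succ]
    exact h1

end ker

/-- the sum over the twists for one automorphism -/
theorem twist_sum {F : Type} [Field F] [CharZero F] {a z : F} (ha : a ≠ 0)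
    (hz : z ^ 2 + z + 1 = 0) (g : F →+* F) {I : Type} [Fintype I] (s : I → ZMod 3)
    {i0 : I} (hi0 : s i0 ≠ 0)
    (S : ∀ c : ZMod 3, Sc g (z ^ c.val) (ED a) (ED a)) (P : (ED a).toAffine.Point) :
    ∑ t : I → ZMod 3, tH (S (∑ i, s i * t i)) P = 0 := by
  refine fib_sum s hi0 (fun c => tH (S c) P) ?_
  have hz3 := cube_of hz
  have h0 : ∀ f : ZMod 3 → (ED a).toAffine.Point, ∑ b, f b = f 0 + f 2 + f 1 := by
    intro f
    have : (Finset.univ : Finset (ZMod 3)) = {0, 2, 1} := by decide
    rw [this, Finset.sum_insert (by decide), Finset.sum_insert (by decide),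
      Finset.sum_singleton, add_assoc]
  rw [h0]
  rcases P with _ | ⟨x, y, h⟩
  · change tH (S 0) 0 + tH (S 2) 0 + tH (S 1) 0 = 0
    rw [map_zero, map_zero, map_zero, add_zero, add_zero]
  · have e : ∀ c : ZMod 3, ∃ h', tH (S c) (.some x y h) = .some (g x * (z ^ c.val) ^ 2) (g y) h' := by
      intro c
      obtain ⟨h1, e1⟩ := tH_some (S c) x y h
      have e3 : g y * (z ^ c.val) ^ 3 = g y := by
        rw [← pow_mul, mul_comm c.val, pow_mul, hz3, one_pow, mul_one]
      refine ⟨by rw [← e3]; exact h1, ?_⟩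
      rw [e1, Affine.Point.some.injEq]
      exact ⟨rfl, e3⟩
    obtain ⟨h1, e1⟩ := e 0
    obtain ⟨h2, e2⟩ := e 2
    obtain ⟨h3, e3⟩ := e 1
    rw [e1, e2, e3]
    have v0 : (0 : ZMod 3).val = 0 := rfl
    have v1 : (1 : ZMod 3).val = 1 := rfl
    have v2 : (2 : ZMod 3).val = 2 := rfl
    refine add3 (V := ED a) rfl rfl rfl rfl rfl ha hz _ _ _ ?_ ?_
    · rw [v0, v2]
      linear_combination (z * g x) * hz3
    · rw [v0, v1]
      ring

/-- **The points over `F = K(∛d_1, …, ∛d_n)`**: finitely many, if there are finitely many points on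
all the twists over `K`. -/
theorem pts {K F : Type} [Field K] [CharZero K] [Field F] [CharZero F] [Algebra K F]
    [FiniteDimensional K F] [IsGalois K F] {ω : K} (hω : ω ^ 2 + ω + 1 = 0) {I : Type} [Fintype I]
    (d : I → K) (x : I → F) (hd : ∀ i, d i ≠ 0) (hx : ∀ i, x i ^ 3 = algebraMap K F (d i))
    (hgen : ∀ S : Subfield F, (∀ k : K, algebraMap K F k ∈ S) → (∀ i, x i ∈ S) → S = ⊤)
    {D : K} (hD : D ≠ 0)
    (hyp : ∀ t : I → ZMod 3, Finite (ED (D * ∏ i, d i ^ (t i).val)).toAffine.Point) :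
    Finite (ED (algebraMap K F D)).toAffine.Point := by
  have hx0 : ∀ i, x i ≠ 0 := by
    intro i h0
    have h1 := hx i
    rw [h0, zero_pow (by norm_num)] at h1
    exact hd i ((map_eq_zero _).1 h1.symm)
  obtain ⟨u, hu⟩ : ∃ u : (I → ZMod 3) → F, ∀ t, u t = ∏ i, x i ^ (t i).val := ⟨_, fun T => rfl⟩
  have hune : ∀ t, u t ≠ 0 := fun t => by
    rw [hu]
    exact Finset.prod_ne_zero_iff.2 fun i _ => pow_ne_zero _ (hx0 i)
  have hu3 : ∀ t, u t ^ 3 = algebraMap K F (∏ i, d i ^ (t i).val) := by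
    intro t
    rw [hu, ← Finset.prod_pow, map_prod]
    refine Finset.prod_congr rfl fun i _ => ?_
    rw [map_pow, ← hx i, ← pow_mul, ← pow_mul, mul_comm]
  set z : F := algebraMap K F ω with hzdef
  have hz : z ^ 2 + z + 1 = 0 := by
    rw [hzdef, ← map_pow, ← map_add, ← map_one (algebraMap K F), ← map_add, hω, map_zero]
  have hz3 := cube_of hz
  have hDF : algebraMap K F D ≠ 0 := (map_ne_zero _).2 hD
  -- the maps
  have S1 : ∀ t, Sc (RingHom.id F) (u t) (ED (algebraMap K F D))
      (ED (algebraMap K F (D * ∏ i, d i ^ (t i).val))) := fun t =>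
    sED _ (hune t) (by rw [RingHom.id_apply, map_mul, hu3])
  have S2 : ∀ t, Sc (RingHom.id F) (u t)⁻¹ (ED (algebraMap K F (D * ∏ i, d i ^ (t i).val)))
      (ED (algebraMap K F D)) := fun t =>
    sED _ (inv_ne_zero (hune t)) (by
      rw [RingHom.id_apply, map_mul, ← hu3, mul_assoc, ← mul_pow, mul_inv_cancel₀ (hune t), one_pow,
        mul_one])
  have Sg : ∀ (b : K) (g : F ≃ₐ[K] F), Sc (g : F →+* F) 1 (ED (algebraMap K F b))
      (ED (algebraMap K F b)) := fun b g =>
    sED _ one_ne_zero (by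
      rw [one_pow, mul_one]
      exact (g.commutes b).symm)
  have Sa : ∀ b : K, Sc (algebraMap K F) 1 (ED b) (ED (algebraMap K F b)) := fun b =>
    sED _ one_ne_zero (by rw [one_pow, mul_one])
  let R : ∀ t : I → ZMod 3, (ED (algebraMap K F D)).toAffine.Point →
      (ED (algebraMap K F (D * ∏ i, d i ^ (t i).val))).toAffine.Point :=
    fun t P => ∑ g : F ≃ₐ[K] F, tH (Sg _ g) (tH (S1 t) P)
  have hRinv : ∀ t P (h : F ≃ₐ[K] F), tH (Sg _ h) (R t P) = R t P := by
    intro t P h
    show tH (Sg _ h) (∑ g : F ≃ₐ[K] F, tH (Sg _ g) (tH (S1 t) P)) =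
      ∑ g : F ≃ₐ[K] F, tH (Sg _ g) (tH (S1 t) P)
    rw [map_sum, ← Equiv.sum_comp (Equiv.mulLeft h)
      (fun g => tH (Sg (D * ∏ i, d i ^ (t i).val) g) (tH (S1 t) P))]
    refine Finset.sum_congr rfl fun g _ => ?_
    exact tH_tH (Sg _ g) (Sg _ h) (Sg _ (h * g)) (fun y => rfl)
      (by rw [map_one, mul_one]) _
  -- descent
  have hdesc : ∀ (b : K) (Q : (ED (algebraMap K F b)).toAffine.Point),
      (∀ g : F ≃ₐ[K] F, tH (Sg b g) Q = Q) → ∃ Q0 : (ED b).toAffine.Point, tH (Sa b) Q0 = Q := by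
    intro b Q hQ
    rcases Q with _ | ⟨X, Y, h⟩
    · exact ⟨0, rfl⟩
    · have h1 : ∀ g : F ≃ₐ[K] F, g X = X ∧ g Y = Y := by
        intro g
        have h2 := hQ g
        obtain ⟨h3, e3⟩ := tH_some (Sg b g) X Y h
        rw [e3, Affine.Point.some.injEq, one_pow, one_pow, mul_one, mul_one] at h2
        exact h2
      obtain ⟨X0, rfl⟩ := (IsGalois.mem_range_algebraMap_iff_fixed (F := K) X).2 fun g => (h1 g).1
      obtain ⟨Y0, rfl⟩ := (IsGalois.mem_range_algebraMap_iff_fixed (F := K) Y).2 fun g => (h1 g).2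
      have hns : (ED b).toAffine.Nonsingular X0 Y0 := by
        have h2 := (Pool.Agent.TH841.NF.ns_iff (Sa b) X0 Y0).1
        apply h2
        rw [one_pow, one_pow, mul_one, mul_one]
        exact h
      refine ⟨.some X0 Y0 hns, ?_⟩
      obtain ⟨h3, e3⟩ := tH_some (Sa b) X0 Y0 hns
      rw [e3, Affine.Point.some.injEq, one_pow, one_pow, mul_one, mul_one]
      exact ⟨rfl, rfl⟩
  have hRfin : ∀ t, (Set.range (R t)).Finite := by
    intro t
    have := hyp t
    refine (Set.finite_range (tH (Sa (D * ∏ i, d i ^ (t i).val)))).subset ?_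
    rintro Q ⟨P, rfl⟩
    exact hdesc _ _ (hRinv t P)
  -- the sum
  have hsum : ∀ P, ∑ t, tH (S2 t) (R t P) = 3 ^ Fintype.card I • P := by
    intro P
    have h1 : ∀ t, tH (S2 t) (R t P) =
        ∑ g : F ≃ₐ[K] F, tH (S2 t) (tH (Sg _ g) (tH (S1 t) P)) := fun t => map_sum _ _ _
    rw [Finset.sum_congr rfl fun t _ => h1 t, Finset.sum_comm, Finset.sum_eq_single 1]
    · have h2 : ∀ t, tH (S2 t) (tH (Sg _ (1 : F ≃ₐ[K] F)) (tH (S1 t) P)) = P := by
        intro t
        have S3 : Sc (RingHom.id F) (u t) (ED (algebraMap K F D))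
          (ED (algebraMap K F (D * ∏ i, d i ^ (t i).val))) := S1 t
        rw [tH_tH (S1 t) (Sg _ 1) S3 (fun y => rfl) (by
          rw [mul_one]
          rfl)]
        have S4 : Sc (RingHom.id F) 1 (ED (algebraMap K F D)) (ED (algebraMap K F D)) :=
          sED _ one_ne_zero (by rw [RingHom.id_apply, one_pow, mul_one])
        rw [tH_tH S3 (S2 t) S4 (fun y => rfl) (by
          rw [RingHom.id_apply, mul_inv_cancel₀ (hune t)])]
        rcases P with _ | ⟨X, Y, h⟩
        · rfl
        · obtain ⟨h3, e3⟩ := tH_some S4 X Y h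
          rw [e3, Affine.Point.some.injEq]
          simp
      rw [Finset.sum_congr rfl fun t _ => h2 t, Finset.sum_const, Finset.card_univ,
        Fintype.card_fun, ZMod.card]
    · intro g _ hg
      have hex : ∀ i, ∃ c : ZMod 3, g (x i) = z ^ c.val * x i := by
        intro i
        apply cube_roots hz
        rw [← map_pow, hx i, AlgEquiv.commutes]
      choose s hs using hex
      obtain ⟨i0, hi0⟩ : ∃ i, s i ≠ 0 := by
        by_contra hcon
        push Not at hcon
        apply hg
        have h5 := hgen (RingHom.eqLocusField (g : F →+* F) (RingHom.id F))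
          (fun y => g.commutes y) (fun i => by
            show g (x i) = x i
            rw [hs i, hcon i, ZMod.val_zero, pow_zero, one_mul])
        ext y
        have h7 : y ∈ RingHom.eqLocusField (g : F →+* F) (RingHom.id F) := by rw [h5]; trivial
        exact h7
      have hgz : g z = z := g.commutes ω
      have hz0 : z ≠ 0 := by
        intro h
        rw [h] at hz
        norm_num at hz
      have hgu : ∀ t, g (u t) = z ^ (∑ i, s i * t i).val * u t := by
        intro t
        rw [hu, map_prod, pow_sum_val hz3, ← Finset.prod_mul_distrib]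
        refine Finset.prod_congr rfl fun i _ => ?_
        rw [map_pow, hs i, mul_pow, pow_mul_val hz3]
      have SS : ∀ c : ZMod 3, Sc (g : F →+* F) (z ^ c.val) (ED (algebraMap K F D))
          (ED (algebraMap K F D)) := fun c =>
        sED _ (pow_ne_zero _ hz0) (by
          have h1 : (z ^ c.val) ^ 3 = 1 := by rw [← pow_mul, mul_comm, pow_mul, hz3, one_pow]
          rw [h1, mul_one]
          exact (g.commutes D).symm)
      rw [Finset.sum_congr rfl (g := fun t => tH (SS (∑ i, s i * t i)) P) (fun t _ => ?_)]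
      · exact twist_sum hDF hz _ s hi0 SS P
      · have S3 : Sc (g : F →+* F) (z ^ (∑ i, s i * t i).val * u t) (ED (algebraMap K F D))
            (ED (algebraMap K F (D * ∏ i, d i ^ (t i).val))) :=
          sED _ (mul_ne_zero (pow_ne_zero _ hz0) (hune t)) (by
            have h1 : (z ^ (∑ i, s i * t i).val) ^ 3 = 1 := by
              rw [← pow_mul, mul_comm, pow_mul, hz3, one_pow]
            have h2 : (g : F →+* F) (algebraMap K F D) = algebraMap K F D := g.commutes D
            rw [mul_pow, h1, one_mul, hu3, h2, map_mul])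
        rw [tH_tH (S1 t) (Sg _ g) S3 (fun y => rfl) (by
          rw [mul_one]
          exact (hgu t).symm)]
        exact tH_tH S3 (S2 t) (SS _) (fun y => rfl) (by
          rw [RingHom.id_apply, mul_assoc, mul_inv_cancel₀ (hune t), mul_one]) P
    · intro h
      exact absurd (Finset.mem_univ _) h
  -- conclusion
  have hfin : {Q | ∃ P, (3 ^ Fintype.card I : ℕ) • P = Q}.Finite (α := (ED (algebraMap K F D)).toAffine.Point) := by
    have h1 : (Set.range fun P => fun t => R t P).Finite := by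
      refine (Set.Finite.pi' (t := fun t => Set.range (R t)) hRfin).subset ?_
      rintro _ ⟨P, rfl⟩ t
      exact ⟨P, rfl⟩
    refine (h1.image fun r => ∑ t, tH (S2 t) (r t)).subset ?_
    rintro Q ⟨P, rfl⟩
    exact ⟨fun t => R t P, ⟨P, rfl⟩, hsum P⟩
  rw [← Set.finite_univ_iff]
  refine (fin_pre (nsmulAddMonoidHom (3 ^ Fintype.card I)) (fin_ker hDF hz _) hfin).subset ?_
  intro P _
  exact ⟨P, rfl⟩

end Pool.Agent.R432.C
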