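import Pool.Agent.R432.C5
import Pool.Agent.R432.C6
import Pool.Agent.Y696.CTK.Fin

/-!
# The fields `K(∛l_1, …, ∛l_n)` over `K = ℚ(ω)`
-/

set_option autoImplicit false
set_option linter.unusedSectionVars false

open NumberField Polynomial

namespace Pool.Agent.R432.C

open Pool.Agent.Y692.QS
open Pool.Agent.Y715.T.Rec (cs)
open Pool.Agent.Y715.T.RecG (Pq)
open Pool.Agent.Y703.CT (Dt pD Ker descK)
open Pool.Agent.TH841.NF.D (Sha)

/-! ### Kummer extensions are Galois -/

section gal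

variable {K F : Type} [Field K] [CharZero K] [Field F] [Algebra K F]

theorem gal3 {ω : K} (hω : ω ^ 2 + ω + 1 = 0) {I : Type} [Fintype I] (d : I → K) (x : I → F)
    (hx : ∀ i, x i ^ 3 = algebraMap K F (d i))
    (hgen : ∀ S : Subfield F, (∀ k : K, algebraMap K F k ∈ S) → (∀ i, x i ∈ S) → S = ⊤) :
    FiniteDimensional K F ∧ IsGalois K F := by
  classical
  set z : F := algebraMap K F ω with hzdef
  have hz : z ^ 2 + z + 1 = 0 := by
    rw [hzdef, ← map_pow, ← map_add, ← map_one (algebraMap K F), ← map_add, hω, map_zero]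
  set p : K[X] := ∏ i, (X ^ 3 - C (d i)) with hp
  have hp0 : p ≠ 0 := Finset.prod_ne_zero_iff.2 fun i _ => X_pow_sub_C_ne_zero (by norm_num) _
  have hmap : p.map (algebraMap K F) =
      ∏ i, ((X - C (x i)) * ((X - C (z * x i)) * (X - C (z ^ 2 * x i)))) := by
    rw [hp, Polynomial.map_prod]
    refine Finset.prod_congr rfl fun i _ => ?_
    rw [Polynomial.map_sub, Polynomial.map_pow, Polynomial.map_X, Polynomial.map_C, ← hx i]
    have e1 : C z ^ 2 + C z + 1 = 0 := by
      rw [← C_pow, ← C_add, ← C_1, ← C_add, hz, C_0]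
    rw [C_mul, C_mul, C_pow, C_pow]
    linear_combination (X - C (x i)) * (C (x i) * X - (C z - 1) * C (x i) ^ 2) * e1
  have hsplit : (p.map (algebraMap K F)).Splits := by
    rw [hmap]
    refine Splits.prod fun i _ => ?_
    exact (Splits.X_sub_C _).mul ((Splits.X_sub_C _).mul (Splits.X_sub_C _))
  have hspl : IsSplittingField K F p := by
    rw [isSplittingField_iff_intermediateField]
    refine ⟨hsplit, ?_⟩
    have h1 := hgen (IntermediateField.adjoin K (p.rootSet F)).toSubfield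
      (fun k => (IntermediateField.adjoin K (p.rootSet F)).algebraMap_mem k) (fun i => by
        apply IntermediateField.subset_adjoin K (p.rootSet F)
        rw [mem_rootSet]
        refine ⟨hp0, ?_⟩
        rw [hp, map_prod]
        apply Finset.prod_eq_zero (Finset.mem_univ i)
        rw [map_sub, map_pow, aeval_X, aeval_C, hx i, sub_self])
    rw [eq_top_iff]
    intro y _
    have h2 : y ∈ (IntermediateField.adjoin K (p.rootSet F)).toSubfield := by rw [h1]; trivial
    exact h2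
  have hfd : FiniteDimensional K F := IsSplittingField.finiteDimensional F p
  have hnor : Normal K F := Normal.of_isSplittingField p
  have hsep : Algebra.IsSeparable K F := Algebra.IsAlgebraic.isSeparable_of_perfectField
  exact ⟨hfd, ⟨⟩⟩

end gal

/-! ### the tower -/

/-- a product of powers of different primes is not a cube -/
theorem no_cube {S : Finset Ei} (hS : ∀ p ∈ S, Pq p) (a : {x : Ei // x ∈ S} → ZMod 3)
    (ha : ∃ i, a i ≠ 0) (y : Ei) : y ^ 3 ≠ ∏ i, i.1 ^ (a i).val := by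
  classical
  intro hy
  have hwS : w ∉ S := fun h => (hS _ h).prime.not_isUnit isUnit_w
  set a' : Ei → ZMod 3 := fun x => if h : x ∈ S then a ⟨x, h⟩ else 0 with ha'
  have h1 : ∀ i : {x : Ei // x ∈ S}, a' i.1 = a i := by
    intro i
    rw [ha']
    simp only [dif_pos i.2]
  have hw0 : a' w = 0 := by
    rw [ha']
    simp only [dif_neg hwS]
  obtain ⟨i, hi⟩ := ha
  apply indep (k := FractionRing Ei) hS (fun i => a' i.1)
    ⟨⟨i.1, Finset.mem_insert_of_mem i.2⟩, by rw [h1]; exact hi⟩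
  refine ⟨algebraMap Ei _ y, ?_⟩
  rw [← map_pow, hy, map_prod,
    Finset.prod_coe_sort (insert w S) (fun x => (algebraMap Ei (FractionRing Ei) x) ^ (a' x).val),
    Finset.prod_insert hwS, hw0, ZMod.val_zero, pow_zero, one_mul,
    ← Finset.prod_coe_sort S (fun x => (algebraMap Ei (FractionRing Ei) x) ^ (a' x).val)]
  refine Finset.prod_congr rfl fun i _ => ?_
  rw [map_pow, h1]

section tower

variable {K : Type} [Field K] [NumberField K] (j : Ei ≃+* 𝓞 K)

lemma om_K : ((j w : 𝓞 K) : K) ^ 2 + ((j w : 𝓞 K) : K) + 1 = 0 := by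
  have h : (w : Ei) ^ 2 + w + 1 = 0 := by decide
  have h1 : (j w) ^ 2 + j w + 1 = 0 := by
    rw [← map_pow, ← map_add, ← map_one j, ← map_add, h, map_zero]
  have h2 := congrArg (fun x : 𝓞 K => (x : K)) h1
  simpa using h2

theorem indK {S : Finset Ei} (hS : ∀ p ∈ S, Pq p) (a : {x : Ei // x ∈ S} → ZMod 3)
    (ha : ∃ i, a i ≠ 0) : ¬ ∃ z : K, z ^ 3 = ∏ i, ((j i.1 : 𝓞 K) : K) ^ (a i).val := by
  rintro ⟨z, hz⟩
  have hz' : z ^ 3 = algebraMap (𝓞 K) K (∏ i, (j i.1) ^ (a i).val) := by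
    rw [hz, map_prod]
    refine Finset.prod_congr rfl fun i _ => ?_
    rw [map_pow]
  have hint : IsIntegral (𝓞 K) z := by
    refine IsIntegral.of_pow (n := 3) (by norm_num) ?_
    rw [hz']
    exact isIntegral_algebraMap
  obtain ⟨c, hc⟩ := IsIntegrallyClosed.algebraMap_eq_of_integral hint
  have h3 : c ^ 3 = ∏ i, (j i.1) ^ (a i).val := by
    apply FaithfulSMul.algebraMap_injective (𝓞 K) K
    rw [map_pow, hc, hz']
  apply no_cube hS a ha (j.symm c)
  apply j.injective
  rw [map_pow, RingEquiv.apply_symm_apply, h3, map_prod]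
  refine Finset.prod_congr rfl fun i _ => ?_
  rw [map_pow]

theorem tower {J : Type} [Fintype J] [Nonempty J] {π : J → Ei} {e : J → ZMod 3} (hD : Dt π e)
    (hk : Ker π e) (h9 : ¬ (9 : ℤ) ∣ nr (pD π e) - 1) {j₀ : Ei → J} {S : Finset Ei}
    (hL : Leaf π j₀ S) {F : Type} [Field F] [NumberField F] [Algebra K F] (x : Ei → F)
    (hx : ∀ l ∈ S, x l ^ 3 = algebraMap K F ((j l : 𝓞 K) : K))
    (hgen : ∀ L : Subfield F, (∀ k : K, algebraMap K F k ∈ L) → (∀ l ∈ S, x l ∈ L) → L = ⊤) :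
    Module.finrank K F = 3 ^ S.card ∧
    Finite (ED (algebraMap K F ((j (pD π e) : 𝓞 K) : K))).toAffine.Point ∧
    ∀ (k : ℕ) (y : Sha (ED (algebraMap K F ((j (pD π e) : 𝓞 K) : K)))), 3 ^ k • y = 0 →
      3 ^ S.card • y = 0 := by
  classical
  have hω := om_K j
  obtain ⟨hfd, hgal⟩ := gal3 (F := F) hω (I := {x : Ei // x ∈ S}) (fun i => ((j i.1 : 𝓞 K) : K))
    (fun i => x i.1) (fun i => hx i.1 i.2) (fun L h1 h2 => hgen L h1 fun l hl => h2 ⟨l, hl⟩)
  have hcard : Fintype.card {x : Ei // x ∈ S} = S.card := Fintype.card_coe S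
  have hne : ∀ z : Ei, z ≠ 0 → ((j z : 𝓞 K) : K) ≠ 0 := by
    intro z hz h
    have h1 : (j z : 𝓞 K) = 0 := by exact_mod_cast h
    exact hz ((map_eq_zero_iff j j.injective).1 h1)
  have hl0 : ∀ i : {x : Ei // x ∈ S}, ((j i.1 : 𝓞 K) : K) ≠ 0 := fun i =>
    hne _ (hL.pq _ i.2).prime.ne_zero
  have hD0 : ((j (pD π e) : 𝓞 K) : K) ≠ 0 := hne _ (Pool.Agent.Y153.CTRAM.ne_zero_of hD)
  have htw : ∀ t : {x : Ei // x ∈ S} → ZMod 3, ((j (pD (πL π t) (eL e t)) : 𝓞 K) : K) =
      ((j (pD π e) : 𝓞 K) : K) * ∏ i, ((j i.1 : 𝓞 K) : K) ^ (t i).val := by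
    intro t
    rw [leaf_pD, map_mul, map_prod]
    push_cast
    congr 1
    refine Finset.prod_congr rfl fun i _ => ?_
    rw [map_pow]
    push_cast
    rfl
  have hbase : ∀ t : {x : Ei // x ∈ S} → ZMod 3,
      Finite (ED (((j (pD π e) : 𝓞 K) : K) * ∏ i, ((j i.1 : 𝓞 K) : K) ^ (t i).val)).toAffine.Point ∧
      ∀ (n : ℕ) (y : Sha (ED (((j (pD π e) : 𝓞 K) : K) *
        ∏ i, ((j i.1 : 𝓞 K) : K) ^ (t i).val))), 3 ^ n • y = 0 → y = 0 := by
    intro t
    have hDt := leaf_dt hD hL t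
    have hKt := leaf_ker hD hk hL t
    have h9t := leaf_nine hL h9 t
    have hne' : pD (πL π t) (eL e t) ≠ 0 := Pool.Agent.Y153.CTRAM.ne_zero_of hDt
    rw [← htw]
    exact ⟨(Pool.Agent.Y696.CTK.parts.mwt Pool.Agent.Y696.CTK.parts.trf K j _ hne'
        fun i₀ hi u a hT => (descK hDt hKt h9t hT).2).1,
      Pool.Agent.Y696.CTK.parts.sht Pool.Agent.Y696.CTK.parts.trf K j _ hne'
        fun i₀ hi u a hT => (descK hDt hKt h9t hT).1⟩
  refine ⟨?_, ?_, ?_⟩
  · have h1 := kummer3_card (K := F) hω three_ne_zero (fun i : {x : Ei // x ∈ S} => x i.1)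
      (fun i => ((j i.1 : 𝓞 K) : K)) hl0 (fun i => hx i.1 i.2) (indK j hL.pq) (fun σ hσ => by
        have h5 := hgen (RingHom.eqLocusField (σ : F →+* F) (RingHom.id F))
          (fun y => σ.commutes y) (fun l hl => hσ ⟨l, hl⟩)
        ext y
        have h7 : y ∈ RingHom.eqLocusField (σ : F →+* F) (RingHom.id F) := by rw [h5]; trivial
        exact h7)
    rw [hcard] at h1
    rw [← h1]
    exact (IsGalois.card_aut_eq_finrank K F).symm
  · exact pts hω (fun i : {x : Ei // x ∈ S} => ((j i.1 : 𝓞 K) : K)) (fun i => x i.1) hl0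
      (fun i => hx i.1 i.2) (fun L h1 h2 => hgen L h1 fun l hl => h2 ⟨l, hl⟩) hD0
      fun t => (hbase t).1
  · intro k y hy
    have h1 := cubic hω (fun i : {x : Ei // x ∈ S} => ((j i.1 : 𝓞 K) : K)) (fun i => x i.1) hl0
      (fun i => hx i.1 i.2) (fun L h1 h2 => hgen L h1 fun l hl => h2 ⟨l, hl⟩) hD0
      (fun t => (hbase t).2) k y hy
    rw [hcard] at h1
    exact h1

end tower

/-! ### there are infinitely many leaves -/

theorem more_leaves {J : Type} [Fintype J] [Nonempty J] {π : J → Ei} (hpi : ∀ i, Pq (π i))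
    (hinj : Function.Injective π) {j₀ : Ei → J} {S : Finset Ei} (hL : Leaf π j₀ S) (j : J) :
    {l : Ei | l ∉ S ∧ ∀ j₁ : Ei → J, (∀ x ∈ S, j₁ x = j₀ x) → j₁ l = j →
      Leaf π j₁ (insert l S)}.Infinite := by
  classical
  set P : Finset Ei := S ∪ Finset.univ.image π with hP
  have hPq : ∀ p ∈ P, Pq p := by
    intro p hp
    rcases Finset.mem_union.1 hp with h | h
    · exact hL.pq p h
    · obtain ⟨i, -, rfl⟩ := Finset.mem_image.1 h
      exact hpi i
  have hπP : ∀ i, π i ∈ P := fun i =>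
    Finset.mem_union_right _ (Finset.mem_image_of_mem _ (Finset.mem_univ i))
  refine (inf_q P hPq (fun p => if p = π j then 1 else 0)).mono ?_
  rintro l ⟨hl1, hl2, hl3, hl4⟩
  have hlS : l ∉ S := fun h => hl2 (Finset.mem_union_left _ h)
  refine ⟨hlS, fun j₁ hj₁ hj => ?_⟩
  have hlm : ∀ m ∈ S, cs l m = 0 ∧ cs m l = 0 := by
    intro m hm
    have h1 := hl4 m (Finset.mem_union_left _ hm)
    rw [if_neg (hL.ne m hm j)] at h1
    refine ⟨h1, ?_⟩
    rw [rec_cs hl1 (hL.pq m hm) fun h => hlS (by rw [h]; exact hm)]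
    exact h1
  refine ⟨fun x hx => ?_, fun x hx i => ?_, fun x hx => ?_, fun x hx => ?_, fun x hx i hi => ?_,
    fun x hx y hy hxy => ?_⟩
  · rcases Finset.mem_insert.1 hx with rfl | h
    · exact hl1
    · exact hL.pq x h
  · rcases Finset.mem_insert.1 hx with rfl | h
    · intro h
      exact hl2 (by rw [h]; exact hπP i)
    · exact hL.ne x h i
  · rcases Finset.mem_insert.1 hx with rfl | h
    · exact hl3
    · exact hL.nine x h
  · rcases Finset.mem_insert.1 hx with rfl | h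
    · rw [hj, hl4 _ (hπP j), if_pos rfl]
      exact one_ne_zero
    · rw [hj₁ x h]
      exact hL.at0 x h
  · rcases Finset.mem_insert.1 hx with rfl | h
    · rw [hj] at hi
      rw [hl4 _ (hπP i), if_neg fun h => hi (hinj h)]
    · rw [hj₁ x h] at hi
      exact hL.off x h i hi
  · rcases Finset.mem_insert.1 hx with rfl | h <;> rcases Finset.mem_insert.1 hy with rfl | h'
    · exact absurd rfl hxy
    · exact (hlm y h').1
    · exact (hlm x h).2
    · exact hL.pw x h y h' hxy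

end Pool.Agent.R432.C
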