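import Mathlib
import Pool.Agent.Y682.StabH
import Pool.Agent.Y682.ZS

/-!
# The local conditions over fields of odd degree with complex places
-/

set_option autoImplicit false
set_option linter.unusedSectionVars false

attribute [-instance] DivisionRing.toRatAlgebra

open NumberField IsDedekindDomain

namespace Pool.Agent.R432.CX

open WeierstrassCurve

open Pool.Agent.Y682

open Pool.Agent.TH841.NF

open Pool.Agent.TH841.SH (IsR IsX gf isX_zero isX_some not_isX)

open Pool.Agent.TH841.SH.D (Pt act Gal Coch IsCoc IsCob LocTriv cob)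

section key

variable {F : Type} [Field F] [NumberField F] [Algebra ℚ F]
  [FiniteDimensional ℚ F] {A B : ℤ}

/-- from `ℚ` to `F` -/
lemma gcC (A B : ℤ) : Sc (algebraMap ℚ F) 1 (gc A B ℚ) (gc A B F) := by
  refine ⟨one_ne_zero, ?_, ?_, ?_, ?_, ?_⟩
  · change (0 : F) = algebraMap ℚ F 0 * 1; simp
  · change (A : F) = algebraMap ℚ F (A : ℚ) * 1 ^ 2; simp
  · change (0 : F) = algebraMap ℚ F 0 * 1 ^ 3; simp
  · change (B : F) = algebraMap ℚ F (B : ℚ) * 1 ^ 4; simp
  · change (0 : F) = algebraMap ℚ F 0 * 1 ^ 6; simp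

/-- the second class at two -/
lemma two_bgC {b : F} {v : HeightOneSpectrum (𝓞 F)}
    (hp : (Ideal.span {(2 : 𝓞 F)}).IsPrime) (hv : (2 : 𝓞 F) ∈ v.asIdeal)
    (hodd : Odd (Module.finrank ℚ F))
    (hA2 : A % 2 = 1 ∨ (A % 2 = 0 ∧ ((A / 2) ^ 2 - B) % 4 ≠ 0))
    (hn3 : A % 4 = 3 → (B % 4 = 2 ∨ B % 4 = 3) → ¬ 3 ∣ Module.finrank ℚ F)
    (hev : ∃ m : ℤ, v.valuation F b = WithZero.exp (2 * m))
    (hloc : ∃ z m : v.adicCompletion F, z ≠ 0 ∧
      algebraMap F (v.adicCompletion F) b * z ^ 2 = m ∧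
        S2 (algebraMap F (v.adicCompletion F) (A : F))
          (algebraMap F (v.adicCompletion F) (B : F)) m) :
    UnrC (v.valuation F) b ∨ UnrC (v.valuation F) (-b) := by
  have := charZero_adic v
  obtain ⟨z, m, hz, hzm, hm⟩ := hloc
  have hvz : vv v z ≠ 0 := (Valuation.ne_zero_iff _).2 hz
  have hens : ∀ t : v.adicCompletion F, vv v t < vv v 4 → ∃ y, y ^ 2 = 1 + t :=
    fun t ht => exists_sqrt v t ht
  have h2 : vv v 2 = WithZero.exp (-1 : ℤ) := by
    have h1 : (2 : v.adicCompletion F) = algebraMap F _ 2 := (map_ofNat _ 2).symm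
    rw [h1, vv_coe, two_val' hp hv]
  have h21 := w2_lt_one h2
  have h41 : vv v 4 < 1 := by
    rw [w_four]
    exact mul_lt_one_of_nonneg_of_lt_one_left zero_le h21 h21.le
  have hA : algebraMap F (v.adicCompletion F) (A : F) = (A : v.adicCompletion F) := by
    rw [map_intCast]
  have hB : algebraMap F (v.adicCompletion F) (B : F) = (B : v.adicCompletion F) := by
    rw [map_intCast]
  rw [hA, hB] at hm
  have hbm : ∃ g, vv v m = g ^ 2 := by
    obtain ⟨i, hi⟩ := hev
    refine ⟨WithZero.exp i * vv v z, ?_⟩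
    rw [← hzm, map_mul, map_pow, vv_coe, hi, mul_pow, two_mul, WithZero.exp_add,
      sq (WithZero.exp i)]
  -- the class `m`
  have key : UnrC (vv v) m ∨ UnrC (vv v) (-m) := by
    rcases hA2 with hpar | ⟨hpar, hD0⟩
    · have hDu : UnrC (vv v) ((A : v.adicCompletion F) ^ 2 - 4 * (B : v.adicCompletion F)) := by
        have hD1 : vv v ((A : v.adicCompletion F) ^ 2 - 4 * (B : v.adicCompletion F)) = 1 := by
          obtain ⟨k, hk⟩ : ∃ k : ℤ, A = 1 + 2 * k := ⟨(A - 1) / 2, by omega⟩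
          have e : (A : v.adicCompletion F) ^ 2 - 4 * (B : v.adicCompletion F) =
              1 + 4 * ((k + k ^ 2 - B : ℤ) : v.adicCompletion F) := by
            rw [hk]; push_cast; ring
          rw [e]
          exact w_one_add (w_mul_lt_one h41 (w_int_le_one _))
        refine ⟨1, A, -B, one_ne_zero, by ring, by rw [one_pow, mul_one, hD1], w_int_le_one A, ?_⟩
        rw [Valuation.map_neg]
        exact w_int_le_one B
      rcases hm with hm | hm | ⟨hm0, y, hy⟩
      · left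
        rw [hm, ← one_pow 2]
        exact UnrC.sq one_ne_zero
      · left
        rw [hm]
        exact hDu
      · obtain ⟨k, hk⟩ : ∃ k : ℤ, B = B % 4 + 4 * k := ⟨B / 4, by omega⟩
        have hj : B % 4 = 0 ∨ B % 4 = 1 ∨ B % 4 = 2 ∨ B % 4 = 3 := by omega
        have hB4 : (B : v.adicCompletion F) = ((B % 4 : ℤ) : v.adicCompletion F) +
            4 * (k : v.adicCompletion F) := by
          conv_lhs => rw [hk]
          push_cast
          ring
        have hcases : A % 4 = 1 ∨ A % 4 = 3 := by omega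
        rcases hcases with h4 | h4
        · obtain ⟨a, ha⟩ : ∃ a : ℤ, A = 1 + 4 * a := ⟨(A - 1) / 4, by omega⟩
          refine gen_odd hens h2 (A := A) (B := B) (ε := 1) (m := a) (k := k)
            (w_int_le_one a) (by rw [ha]; push_cast; ring) (w_int_le_one k) hB4
            (Or.inl rfl) hj (fun q hq h => hres_three hp hv hodd q hq h) ?_ hm0 hy
          intro h
          exfalso
          have h5 : (1 : v.adicCompletion F) + 1 = 0 := by
            nth_rewrite 2 [h]
            ring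
          norm_num at h5
        · obtain ⟨a, ha⟩ : ∃ a : ℤ, A = -1 + 4 * a := ⟨(A + 1) / 4, by omega⟩
          refine gen_odd hens h2 (A := A) (B := B) (ε := -1) (m := a) (k := k)
            (w_int_le_one a) (by rw [ha]; push_cast; ring) (w_int_le_one k) hB4
            (Or.inr rfl) hj (fun q hq h => hres_three hp hv hodd q hq h) ?_ hm0 hy
          intro _ hj' q hq h
          exact hres_seven hp hv (hn3 h4 hj') q hq h
    · obtain ⟨a, ha⟩ : ∃ a : ℤ, A = 2 * a := ⟨A / 2, by omega⟩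
      have ha2 : A / 2 = a := by omega
      rw [ha2] at hD0
      obtain ⟨D₀, hD⟩ : ∃ D₀ : ℤ, D₀ = a ^ 2 - B := ⟨_, rfl⟩
      rw [← hD] at hD0
      have hAL : (A : v.adicCompletion F) = 2 * (a : v.adicCompletion F) := by
        rw [ha]; push_cast; ring
      have hDL : (D₀ : v.adicCompletion F) =
          (a : v.adicCompletion F) ^ 2 - (B : v.adicCompletion F) := by
        rw [hD]; push_cast; ring
      have hcase : vv v (D₀ : v.adicCompletion F) = vv v 2 ∨
          (vv v (D₀ : v.adicCompletion F) = 1 ∧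
            (UnrC (vv v) (D₀ : v.adicCompletion F) ∨ UnrC (vv v) (-(D₀ : v.adicCompletion F)))) := by
        have h5 : D₀ % 4 = 1 ∨ D₀ % 4 = 2 ∨ D₀ % 4 = 3 := by omega
        rcases h5 with h5 | h5 | h5
        · right
          obtain ⟨k, hk⟩ : ∃ k : ℤ, D₀ = 1 + 4 * k := ⟨(D₀ - 1) / 4, by omega⟩
          have e : (D₀ : v.adicCompletion F) = 1 + 4 * (k : v.adicCompletion F) := by
            rw [hk]; push_cast; ring
          refine ⟨?_, Or.inl (unr_one_add h21 e (w_int_le_one k))⟩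
          rw [e]
          exact w_one_add (w_mul_lt_one h41 (w_int_le_one k))
        · left
          obtain ⟨k, hk⟩ : ∃ k : ℤ, D₀ = 2 * (1 + 2 * k) := ⟨(D₀ - 2) / 4, by omega⟩
          have e : (D₀ : v.adicCompletion F) = 2 * (1 + 2 * (k : v.adicCompletion F)) := by
            rw [hk]; push_cast; ring
          rw [e, map_mul, w_one_add (w_mul_lt_one h21 (w_int_le_one k)), mul_one]
        · right
          obtain ⟨k, hk⟩ : ∃ k : ℤ, D₀ = -(1 + 4 * k) := ⟨-(D₀ + 1) / 4, by omega⟩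
          have e : -(D₀ : v.adicCompletion F) = 1 + 4 * (k : v.adicCompletion F) := by
            rw [hk]; push_cast; ring
          refine ⟨?_, Or.inr (unr_one_add h21 e (w_int_le_one k))⟩
          rw [← Valuation.map_neg, e]
          exact w_one_add (w_mul_lt_one h41 (w_int_le_one k))
      have hD00 : (D₀ : v.adicCompletion F) ≠ 0 := by
        have : D₀ ≠ 0 := by rintro rfl; simp at hD0
        exact_mod_cast this
      rcases hm with hm | hm | ⟨hm0, y, hy⟩
      · left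
        rw [hm, ← one_pow 2]
        exact UnrC.sq one_ne_zero
      · have hm' : m = (D₀ : v.adicCompletion F) * 2 ^ 2 := by
          rw [hm, hDL, hAL]; ring
        rcases hcase with hc | ⟨hc, hc' | hc'⟩
        · exfalso
          obtain ⟨g, hg⟩ := hbm
          rw [hm', map_mul, map_pow, hc, h2, ← pow_succ', ← WithZero.exp_nsmul] at hg
          have hg' := congrArg WithZero.log hg
          rw [WithZero.log_exp, WithZero.log_pow, nsmul_eq_mul, nsmul_eq_mul] at hg'
          push_cast at hg'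
          omega
        · left
          exact hc'.of_eq two_ne_zero hm'
        · right
          refine hc'.of_eq two_ne_zero ?_
          rw [hm']; ring
      · exact gen_even hens h2 hAL (w_int_le_one a) hDL hcase hbm hm0 hy
  rcases key with h | h
  · left
    apply UnrC.desc
    refine h.of_eq (inv_ne_zero hz) ?_
    rw [← hzm]
    field_simp
  · right
    apply UnrC.desc
    refine h.of_eq (inv_ne_zero hz) ?_
    rw [← hzm, map_neg]
    field_simp

lemma L2_divC {b : F} (hb : b ≠ 0) (hD : A ^ 2 - 4 * B ≠ 0) (h : L2 A B b) :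
    L2 A B (b * ((A ^ 2 - 4 * B : ℤ) : F)) := by
  have main : ∀ (L : Type) [Field L] [CharZero L] (φ : F →+* L),
      (∃ z m : L, z ≠ 0 ∧ φ b * z ^ 2 = m ∧ S2 (A : L) (B : L) m) →
      ∃ z m : L, z ≠ 0 ∧ φ (b * ((A ^ 2 - 4 * B : ℤ) : F)) * z ^ 2 = m ∧ S2 (A : L) (B : L) m := by
    intro L _ _ φ ⟨z, m, hz, hzm, hm⟩
    have hDL : (A : L) ^ 2 - 4 * (B : L) ≠ 0 := by exact_mod_cast hD
    obtain ⟨hm0, hm'⟩ := S2_div hDL hm
    have hbv : φ b ≠ 0 := (map_ne_zero _).2 hb
    refine ⟨(φ b * z)⁻¹, _, inv_ne_zero (mul_ne_zero hbv hz), ?_, hm'⟩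
    rw [map_mul, map_intCast, ← hzm]
    push_cast
    field_simp
  refine ⟨fun v => ?_, fun v => ?_⟩
  · have := charZero_adic v
    exact main _ (algebraMap F (v.adicCompletion F)) (h.1 v)
  · have := charZero_inf v
    exact main _ (algebraMap F v.Completion) (h.2 v)

/-- the first class of the isogenous curve -/
lemma L1_dualC {a c : ℤ} {b : F} (h : L1 (-2 * a) (a ^ 2 - 4 * c) b) : L2 a c b := by
  have main : ∀ (L : Type) [Field L] [CharZero L] (φ : F →+* L),
      (∃ z m : L, z ≠ 0 ∧ φ b * z ^ 2 = m ∧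
        S1 ((-2 * a : ℤ) : L) ((a ^ 2 - 4 * c : ℤ) : L) m) →
      ∃ z m : L, z ≠ 0 ∧ φ b * z ^ 2 = m ∧ S2 (a : L) (c : L) m := by
    intro L _ _ φ ⟨z, m, hz, hzm, hm⟩
    refine ⟨z, m, hz, hzm, ?_⟩
    rcases hm with hm | hm | ⟨hm, y, hy⟩
    · exact Or.inl hm
    · exact Or.inr (Or.inl (by rw [hm]; push_cast; ring))
    · refine Or.inr (Or.inr ⟨hm, y, ?_⟩)
      rw [hy]
      push_cast
      ring
  refine ⟨fun v => ?_, fun v => ?_⟩
  · have := charZero_adic v
    exact main _ (algebraMap F (v.adicCompletion F)) (h.1 v)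
  · have := charZero_inf v
    exact main _ (algebraMap F v.Completion) (h.2 v)

/-- the second class of the isogenous curve -/
lemma L2_dualC {a c : ℤ} {b : F} (h : L2 (-2 * a) (a ^ 2 - 4 * c) b) : L1 a c b := by
  have main : ∀ (L : Type) [Field L] [CharZero L] (φ : F →+* L),
      (∃ z m : L, z ≠ 0 ∧ φ b * z ^ 2 = m ∧
        S2 ((-2 * a : ℤ) : L) ((a ^ 2 - 4 * c : ℤ) : L) m) →
      ∃ z m : L, z ≠ 0 ∧ φ b * z ^ 2 = m ∧ S1 (a : L) (c : L) m := by
    intro L _ _ φ ⟨z, m, hz, hzm, hm⟩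
    rcases hm with hm | hm | ⟨hm, y, hy⟩
    · exact ⟨z, m, hz, hzm, Or.inl hm⟩
    · refine ⟨z / 4, (c : L), div_ne_zero hz (by norm_num), ?_, Or.inr (Or.inl rfl)⟩
      rw [div_pow, ← mul_div_assoc, hzm, hm]
      push_cast
      ring
    · refine ⟨z / 2, m / 4, div_ne_zero hz (by norm_num), ?_,
        Or.inr (Or.inr ⟨div_ne_zero hm (by norm_num), y / 8, ?_⟩)⟩
      · rw [div_pow, ← mul_div_assoc, hzm]
        norm_num
      · rw [div_pow, hy]
        push_cast
        ring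
  refine ⟨fun v => ?_, fun v => ?_⟩
  · have := charZero_adic v
    exact main _ (algebraMap F (v.adicCompletion F)) (h.1 v)
  · have := charZero_inf v
    exact main _ (algebraMap F v.Completion) (h.2 v)

lemma unEven {v : HeightOneSpectrum (𝓞 F)} (h : Un v) (hodd : Odd (Module.finrank ℚ F))
    (b : Fˣ) (hr : ∃ r : ℚ, Algebra.norm ℚ (b : F) = r ^ 2) :
    ∃ m : ℤ, v.valuation F (b : F) = WithZero.exp (2 * m) := by
  obtain ⟨p, hp, hpv, hu⟩ := h
  obtain ⟨r, hr⟩ := hr
  have : Fact p.Prime := ⟨hp⟩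
  exact even_of_norm hu hodd b r hr

/-- the second class at a place -/
lemma second_unrC (hodd : Odd (Module.finrank ℚ F)) (v : HeightOneSpectrum (𝓞 F))
    (hv : ((2 : 𝓞 F) ∉ v.asIdeal ∧ (Un v ∨ Tw v (A : F) (B : F))) ∨
      (∃ C : F, Gd v (A : F) (B : F) C ∧ v.valuation F ((A ^ 2 - 4 * B : ℤ) : F) = 1))
    (b : Fˣ) (hr : ∃ r : ℚ, Algebra.norm ℚ (b : F) = r ^ 2) (hL : L2 A B (b : F)) :
    UnrC (v.valuation F) (b : F) := by
  have hL' : ∃ z m : v.adicCompletion F, z ≠ 0 ∧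
      algebraMap F (v.adicCompletion F) (b : F) * z ^ 2 = m ∧
      S2 (algebraMap F (v.adicCompletion F) (A : F))
        (algebraMap F (v.adicCompletion F) (B : F)) m := by
    rw [map_intCast, map_intCast]
    exact hL.1 v
  have hDF : ((A : F) ^ 2 - 4 * (B : F)) = ((A ^ 2 - 4 * B : ℤ) : F) := by
    push_cast; ring
  rcases hv with ⟨h2, h | h⟩ | ⟨C, ⟨s, u, hs, hs1, hu1, hC, hC1⟩, hD⟩
  · exact unr_of_exp (val_two h2) (unEven h hodd b hr)
  · exact unr_of_exp (val_two h2) (even_b2_tw b.ne_zero v hL' h)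
  · exact unr_b2 v hL' hs hs1 hu1 hC hC1 (by rw [hDF, hD])

/-- elements whose norm is a square and which are unramified up to sign at two -/
lemma fin_sqC (hp2 : (Ideal.span {(2 : 𝓞 F)}).IsPrime)
    (hcl : Odd (Nat.card (NCl F))) (hodd : Odd (Module.finrank ℚ F))
    (x : Fˣ) (hq : ∃ q : ℚ, Algebra.norm ℚ (x : F) = q ^ 2)
    (h1 : ∀ v : HeightOneSpectrum (𝓞 F), (2 : 𝓞 F) ∉ v.asIdeal →
      UnrC (v.valuation F) (x : F))
    (h2 : ∀ v : HeightOneSpectrum (𝓞 F), (2 : 𝓞 F) ∈ v.asIdeal →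
      (∃ m : ℤ, v.valuation F (x : F) = WithZero.exp (2 * m)) →
      UnrC (v.valuation F) (x : F) ∨ UnrC (v.valuation F) (-(x : F))) :
    ∃ y : Fˣ, y ^ 2 = x := by
  obtain ⟨q, hq⟩ := hq
  have hnottwo : ∀ v : HeightOneSpectrum (𝓞 F), (2 : 𝓞 F) ∉ v.asIdeal →
      UnrC (v.valuation F) (x : F) ∧ UnrC (v.valuation F) (-(x : F)) := by
    intro v hv
    have h4 : v.valuation F 4 = 1 := by rw [w_four, val_two hv, one_mul]
    have hm1 : UnrC (v.valuation F) (-1 : F) := by
      refine UnrC.of_even one_ne_zero ?_ h4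
      rw [one_pow, mul_one, Valuation.map_neg, map_one]
    refine ⟨h1 v hv, ?_⟩
    have h6 := hm1.mul (h1 v hv)
    rwa [neg_one_mul] at h6
  by_cases hall : ∀ v : HeightOneSpectrum (𝓞 F), UnrC (v.valuation F) (x : F)
  · exact sq_of_unrC hcl x hall
  · exfalso
    push Not at hall
    obtain ⟨v0, hv0⟩ := hall
    have hv02 : (2 : 𝓞 F) ∈ v0.asIdeal := by
      by_contra h
      exact hv0 (hnottwo v0 h).1
    have hev : ∃ m : ℤ, v0.valuation F (x : F) = WithZero.exp (2 * m) := by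
      have : Fact (Nat.Prime 2) := ⟨Nat.prime_two⟩
      refine even_of_norm (p := 2) (fun w hw => ?_) hodd x q hq
      rw [Nat.cast_ofNat] at hw
      exact HeightOneSpectrum.ext ((two_val hp2 hw).trans (two_val hp2 hv02).symm)
    rcases h2 v0 hv02 hev with h3 | h3
    · exact hv0 h3
    · have h4 : ∀ v : HeightOneSpectrum (𝓞 F), UnrC (v.valuation F) ((-x : Fˣ) : F) := by
        intro v
        rw [Units.val_neg]
        by_cases hv : (2 : 𝓞 F) ∈ v.asIdeal
        · have : v = v0 :=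
            HeightOneSpectrum.ext ((two_val hp2 hv).trans (two_val hp2 hv02).symm)
          rw [this]
          exact h3
        · exact (hnottwo v hv).2
      obtain ⟨z, hz⟩ := sq_of_unrC hcl (-x) h4
      have h5 : (x : F) = -1 * (z : F) ^ 2 := by
        have := congrArg Units.val hz
        rw [Units.val_pow_eq_pow_val, Units.val_neg] at this
        linear_combination this
      have h6 : Algebra.norm ℚ (-1 : F) = -1 := by
        have h7 := Algebra.norm_algebraMap (S := F) (-1 : ℚ)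
        rw [map_neg, map_one, hodd.neg_one_pow] at h7
        exact h7
      rw [h5, map_mul, h6, map_pow] at hq
      have h7 : Algebra.norm ℚ (z : F) ≠ 0 := by
        rw [Ne, Algebra.norm_eq_zero_iff]
        exact z.ne_zero
      have h8 : 0 < (Algebra.norm ℚ (z : F)) ^ 2 := by positivity
      nlinarith [sq_nonneg q]

lemma two_notMemC {v : HeightOneSpectrum (𝓞 F)} {p : ℕ} (hp : p.Prime) (hp2 : p ≠ 2)
    (hv : (p : 𝓞 F) ∈ v.asIdeal) : (2 : 𝓞 F) ∉ v.asIdeal := by
  intro h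
  obtain ⟨k, hk⟩ : ∃ k, p = 2 * k + 1 := hp.odd_of_ne_two hp2
  apply v.isPrime.ne_top
  rw [Ideal.eq_top_iff_one]
  have e : (1 : 𝓞 F) = (p : 𝓞 F) - 2 * (k : 𝓞 F) := by
    rw [hk]; push_cast; ring
  rw [e]
  exact sub_mem hv (v.asIdeal.mul_mem_right _ h)

lemma badAt {p : ℕ} (hp : p.Prime) (h : BadOK F A B p) {v : HeightOneSpectrum (𝓞 F)}
    (hv : (p : 𝓞 F) ∈ v.asIdeal) : Un v ∨ Tw v (A : F) (B : F) := by
  rcases h with h | ⟨h2, d, α, β, hd, hA, hB, h⟩
  · exact Or.inl ⟨p, hp, hv, fun w hw => (h v w hv hw).symm⟩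
  · exact Or.inr (Tw.of_int (two_notMemC hp h2 hv) hd hA hB (fun x => (h v hv x).1)
      fun x => (h v hv x).2)

/-- a place is good or of one of the two types -/
lemma place_casesC (hB : B ≠ 0) (hD : A ^ 2 - 4 * B ≠ 0)
    (hbad : ∀ p : ℕ, p.Prime → (p : ℤ) ∣ B * (A ^ 2 - 4 * B) → BadOK F A B p)
    (v : HeightOneSpectrum (𝓞 F)) :
    (Un v ∨ Tw v (A : F) (B : F)) ∨
      (v.valuation F (B : F) = 1 ∧ v.valuation F ((A ^ 2 - 4 * B : ℤ) : F) = 1) := by
  by_cases h1 : v.valuation F (B : F) = 1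
  · by_cases h2 : v.valuation F ((A ^ 2 - 4 * B : ℤ) : F) = 1
    · exact Or.inr ⟨h1, h2⟩
    · obtain ⟨p, hp, hpc, hpv⟩ := exists_prime v _ hD h2
      exact Or.inl (badAt hp (hbad p hp (hpc.mul_left _)) hpv)
  · obtain ⟨p, hp, hpc, hpv⟩ := exists_prime v _ hB h1
    exact Or.inl (badAt hp (hbad p hp (hpc.mul_right _)) hpv)

/-- every pair is of the good form outside two -/
lemma gd_of_twoC {v : HeightOneSpectrum (𝓞 F)} (h2 : v.valuation F 2 = 1) :
    Gd v (A : F) (B : F) ((B : F) / 16) ∧ v.valuation F ((B : F) / 16) =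
      v.valuation F (B : F) := by
  have h8 : v.valuation F 4 = 1 := by rw [w_four, h2, one_mul]
  have h9 : v.valuation F 16 = 1 := by
    have : (16 : F) = 4 * 4 := by norm_num
    rw [this, map_mul, h8, one_mul]
  have h10 : v.valuation F ((B : F) / 16) = v.valuation F (B : F) := by
    rw [map_div₀, h9, div_one]
  refine ⟨⟨1, ((A : F) - 1) / 4, by field_simp; ring, (map_one _).le, ?_, by field_simp, ?_⟩, h10⟩
  · rw [map_div₀, h8, div_one]
    have h7 : (A : F) - 1 = ((A - 1 : ℤ) : F) := by push_cast; ring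
    rw [h7]
    exact val_int_le v _
  · rw [h10]
    exact val_int_le v B

/-- totally positive, with even valuations -/
def PE (b : Fˣ) : Prop := TotPos (b : F) ∧
  ∀ v : HeightOneSpectrum (𝓞 F), ∃ m : ℤ, v.valuation F (b : F) = WithZero.exp (2 * m)

/-- the first class -/
lemma first_PE (hB : 0 < B) (hA : A < 0 ∨ A ^ 2 < 4 * B)
    (hodd : Odd (Module.finrank ℚ F))
    (hv : ∀ v : HeightOneSpectrum (𝓞 F), Un v ∨ Tw v (A : F) (B : F) ∨
      ∃ C : F, Gd v (A : F) (B : F) C ∧ v.valuation F C = 1)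
    (b : Fˣ) (hr : ∃ r : ℚ, Algebra.norm ℚ (b : F) = r ^ 2) (hL : L1 A B (b : F)) : PE b := by

  have hpos : TotPos (b : F) := by
    intro φ
    have hB' : 0 < φ (B : F) := by
      rw [map_intCast]
      exact_mod_cast hB
    refine pos_b1 (A := (A : F)) (B := (B : F)) (fun v => ?_) φ hB' ?_
    · rw [map_intCast, map_intCast]
      exact hL.2 v
    · rw [map_intCast, map_intCast]
      rcases hA with h | h
      · left; exact_mod_cast h
      · right; exact_mod_cast h
  have hL' : ∀ v : HeightOneSpectrum (𝓞 F), ∃ z m : v.adicCompletion F, z ≠ 0 ∧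
      algebraMap F (v.adicCompletion F) (b : F) * z ^ 2 = m ∧
      S1 (algebraMap F (v.adicCompletion F) (A : F))
        (algebraMap F (v.adicCompletion F) (B : F)) m := by
    intro v
    rw [map_intCast, map_intCast]
    exact hL.1 v
  have heven : ∀ v : HeightOneSpectrum (𝓞 F), ∃ m : ℤ,
      v.valuation F (b : F) = WithZero.exp (2 * m) := by
    intro v
    rcases hv v with h | h | ⟨C, ⟨s, u, hs, hs1, hu1, hC, hC1⟩, hC2⟩
    · exact unEven h hodd b hr
    · exact even_b1_tw b.ne_zero v (hL' v) h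
    · exact even_b1 b.ne_zero v (hL' v) hs hs1 hu1 hC hC2
  exact ⟨hpos, heven⟩

/-- every element of the four conditions with `2` inert -/
lemma pair_inertC (hB : 0 < B) (hA : A < 0 ∨ A ^ 2 < 4 * B)
    (hA2 : A % 2 = 1 ∨ (A % 2 = 0 ∧ ((A / 2) ^ 2 - B) % 4 ≠ 0))
    (hn3 : A % 4 = 3 → (B % 4 = 2 ∨ B % 4 = 3) → ¬ 3 ∣ Module.finrank ℚ F)
    (hp2 : (Ideal.span {(2 : 𝓞 F)}).IsPrime)
    (hcl : Odd (Nat.card (NCl F))) (hodd : Odd (Module.finrank ℚ F))
    (hv : ∀ v : HeightOneSpectrum (𝓞 F), (Un v ∨ Tw v (A : F) (B : F)) ∨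
      (v.valuation F (B : F) = 1 ∧ v.valuation F ((A ^ 2 - 4 * B : ℤ) : F) = 1))
    (b : Fˣ) (hr : ∃ r : ℚ, Algebra.norm ℚ (b : F) = r ^ 2) :
    (L1 A B (b : F) → PE b) ∧ (L2 A B (b : F) → ∃ y : Fˣ, y ^ 2 = b) := by
  have hun2 : ∀ v : HeightOneSpectrum (𝓞 F), (2 : 𝓞 F) ∈ v.asIdeal → Un v := by
    intro v hv
    refine ⟨2, Nat.prime_two, by rwa [Nat.cast_ofNat], fun w hw => ?_⟩
    rw [Nat.cast_ofNat] at hw
    exact HeightOneSpectrum.ext ((two_val hp2 hw).trans (two_val hp2 hv).symm)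
  constructor
  · intro hL
    refine first_PE hB hA hodd (fun v => ?_) b hr hL
    by_cases h2 : (2 : 𝓞 F) ∈ v.asIdeal
    · exact Or.inl (hun2 v h2)
    · rcases hv v with (h | h) | ⟨h, h'⟩
      · exact Or.inl h
      · exact Or.inr (Or.inl h)
      · obtain ⟨h3, h4⟩ := gd_of_twoC (A := A) (B := B) (val_two h2)
        exact Or.inr (Or.inr ⟨_, h3, by rw [h4, h]⟩)
  · intro hL
    refine fin_sqC hp2 hcl hodd b hr (fun v h2 => ?_) (fun v h2 hev => ?_)
    · refine second_unrC hodd v ?_ b hr hL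
      rcases hv v with h | ⟨h, h'⟩
      · exact Or.inl ⟨h2, h⟩
      · exact Or.inr ⟨_, (gd_of_twoC (A := A) (B := B) (val_two h2)).1, h'⟩
    · refine two_bgC hp2 h2 hodd hA2 hn3 hev ?_
      rw [map_intCast, map_intCast]
      exact hL.1 v

/-- the two classes when `A = 1` modulo `4` and `B` is divisible by `16` -/
lemma pair_ordC {k c : ℤ} (hc : 0 < c) (hA : 1 + 4 * k < 0 ∨ (1 + 4 * k) ^ 2 < 4 * (16 * c))
    (hcl : Odd (Nat.card (NCl F))) (hodd : Odd (Module.finrank ℚ F))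
    (hv : ∀ v : HeightOneSpectrum (𝓞 F),
      (Un v ∨ Tw v ((1 + 4 * k : ℤ) : F) ((16 * c : ℤ) : F)) ∨
      (v.valuation F (c : F) = 1 ∧
        v.valuation F (((1 + 4 * k) ^ 2 - 4 * (16 * c) : ℤ) : F) = 1))
    (b : Fˣ) (hr : ∃ r : ℚ, Algebra.norm ℚ (b : F) = r ^ 2) :
    (L1 (1 + 4 * k) (16 * c) (b : F) → PE b) ∧
    (L2 (1 + 4 * k) (16 * c) (b : F) → ∃ y : Fˣ, y ^ 2 = b) := by
  have hgd : ∀ v : HeightOneSpectrum (𝓞 F),
      Gd v ((1 + 4 * k : ℤ) : F) ((16 * c : ℤ) : F) (c : F) := by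
    intro v
    exact ⟨1, k, by push_cast; ring, (map_one _).le, val_int_le v k, by push_cast; ring,
      val_int_le v c⟩
  constructor
  · intro hL
    refine first_PE (by positivity) hA hodd (fun v => ?_) b hr hL
    rcases hv v with (h | h) | ⟨h, h'⟩
    · exact Or.inl h
    · exact Or.inr (Or.inl h)
    · exact Or.inr (Or.inr ⟨_, hgd v, h⟩)
  · intro hL
    apply sq_of_unrC hcl
    intro v
    refine second_unrC hodd v ?_ b hr hL
    by_cases h2 : (2 : 𝓞 F) ∈ v.asIdeal
    · right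
      refine ⟨_, hgd v, ?_⟩
      rw [← map_intCast (algebraMap (𝓞 F) F), HeightOneSpectrum.valuation_eq_one_iff_notMem]
      intro h7
      apply v.isPrime.ne_top
      rw [Ideal.eq_top_iff_one]
      have e : (1 : 𝓞 F) = (((1 + 4 * k) ^ 2 - 4 * (16 * c) : ℤ) : 𝓞 F) -
          2 * ((4 * k + 8 * k ^ 2 - 32 * c : ℤ) : 𝓞 F) := by
        push_cast; ring
      rw [e]
      exact sub_mem h7 (v.asIdeal.mul_mem_right _ h2)
    · rcases hv v with h | ⟨h, h'⟩
      · exact Or.inl ⟨h2, h⟩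
      · exact Or.inr ⟨_, hgd v, h'⟩

end key

end Pool.Agent.R432.CX
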