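import Pool.Agent.R432.CX1

/-!
# The classes of the cocycles whose corestriction is trivial
-/

set_option autoImplicit false
set_option linter.unusedSectionVars false

attribute [-instance] DivisionRing.toRatAlgebra

open NumberField IsDedekindDomain

namespace Pool.Agent.R432.CX

open WeierstrassCurve

open Pool.Agent.Y682

open Pool.Agent.TH841.NF

open Pool.Agent.TH841.SH (IsR IsX gf isX_zero isX_some not_isX)

open Pool.Agent.TH841.SH.D (Pt act Gal Coch IsCoc IsCob LocTriv cob)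

section

variable {F : Type} [Field F] [NumberField F] [Algebra ℚ F]
  {E : WeierstrassCurve ℚ} {W : WeierstrassCurve F}

/-- the locally trivial cocycles killed by two whose corestriction is a coboundary of a point killed
by two -/
def NCo (hW : Sc (algebraMap ℚ F) 1 E W) (e : AlgebraicClosure F ≃+* Qb) (f : Coch W) : Prop :=
  Pool.Agent.TH841.NF.D.IsShaCoc W f ∧ (∀ σ, f σ + f σ = 0) ∧
    ∃ S : Pt E Qb, S + S = 0 ∧ ∀ g : Gal ℚ, co hW e f g = act E g.toAlgHom S - S

variable {hW : Sc (algebraMap ℚ F) 1 E W} {e : AlgebraicClosure F ≃+* Qb}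

lemma NCo.sub {f g : Coch W} (hf : NCo hW e f) (hg : NCo hW e g) : NCo hW e (f - g) := by
  obtain ⟨h1, h2, S, hS, h3⟩ := hf
  obtain ⟨h1', h2', S', hS', h3'⟩ := hg
  refine ⟨sha_sub h1 h1', fun σ => ?_, S - S', ?_, fun σ => ?_⟩
  · change (f σ - g σ) + (f σ - g σ) = 0
    have : (f σ - g σ) + (f σ - g σ) = (f σ + f σ) - (g σ + g σ) := by abel
    rw [this, h2, h2', sub_zero]
  · have : (S - S') + (S - S') = (S + S) - (S' + S') := by abel
    rw [this, hS, hS', sub_zero]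
  · rw [co_sub, map_sub]
    change co hW e f σ - co hW e g σ = _
    rw [h3, h3']
    abel

/-- the classes of these cocycles -/
def KeyC (hW : Sc (algebraMap ℚ F) 1 E W) (e : AlgebraicClosure F ≃+* Qb) : Prop :=
  ∃ cl : Coch W → Fˣ, (∀ f, NCo hW e f → PE (cl f)) ∧
    ∀ f g, NCo hW e f → NCo hW e g → (∃ y : Fˣ, y ^ 2 = cl f * cl g) →
      ∃ R : Pt W (AlgebraicClosure F), R + R = 0 ∧ ∀ σ : Gal F, f σ - g σ = act W σ.toAlgHom R - R

end

section

variable {F : Type} [Field F] [NumberField F] [Algebra ℚ F] [FiniteDimensional ℚ F] {A B : ℤ}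

/-- cocycles with values in the group of the point `T` whose class is trivial -/
lemma key_T (hB : B ≠ 0) (hD : A ^ 2 - 4 * B ≠ 0) {f : Coch (gc A B F)}
    (h2 : ∀ σ, f σ + f σ = 0) (hX : ∀ σ, IsX ((gc A B F).baseChange (AlgebraicClosure F)) 0 (f σ))
    {b' : F} (hb' : b' ≠ 0) (hbs' : ∀ (s : AlgebraicClosure F), s ^ 2 = algebraMap F _ b' →
      ∀ σ : Gal F, (f σ = 0 → σ s = s) ∧ (f σ ≠ 0 → σ s = -s))
    (hsq : ∃ z : Fˣ, (z : F) ^ 2 = b' ∨ (z : F) ^ 2 = b' * ((A ^ 2 - 4 * B : ℤ) : F)) :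
    ∃ R : Pt (gc A B F) (AlgebraicClosure F), R + R = 0 ∧
      ∀ σ : Gal F, f σ = act (gc A B F) σ.toAlgHom R - R := by
  have hT := gc_isT hB hD F
  have hDF : ((A : F) ^ 2 - 4 * (B : F)) = ((A ^ 2 - 4 * B : ℤ) : F) := by
    push_cast; ring
  have hDF0 : (((A ^ 2 - 4 * B : ℤ)) : F) ≠ 0 := by exact_mod_cast hD
  obtain ⟨z, hz | hz⟩ := hsq
  · refine ⟨0, add_zero 0, fun σ => ?_⟩
    rw [map_zero, sub_zero]
    by_contra hne
    have h3 := (hbs' (algebraMap F _ (z : F)) (by rw [← hz, map_pow]) σ).2 hne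
    rw [AlgEquiv.commutes] at h3
    have h4 : (2 : AlgebraicClosure F) * algebraMap F _ (z : F) = 0 := by linear_combination h3
    rcases mul_eq_zero.1 h4 with h5 | h5
    · exact two_ne_zero h5
    · rw [map_eq_zero] at h5
      exact z.ne_zero h5
  · obtain ⟨R, hR, hRX⟩ := exists_tors hT
    obtain ⟨g, hg, hgσ⟩ := tors_g hT hR hRX
    rw [hDF] at hg
    have hg0 : g ≠ 0 := by
      rintro rfl
      rw [zero_pow two_ne_zero, eq_comm, map_eq_zero] at hg
      exact hDF0 hg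
    have hsq : (algebraMap F _ (z : F) / g) ^ 2 = algebraMap F (AlgebraicClosure F) b' := by
      rw [div_pow, ← map_pow, hz, hg, map_mul]
      exact mul_div_cancel_right₀ _ ((map_ne_zero _).2 hDF0)
    have hz0 : algebraMap F (AlgebraicClosure F) (z : F) ≠ 0 := (map_ne_zero _).2 z.ne_zero
    refine ⟨R, hR, fun σ => ?_⟩
    have h3 := hbs' _ hsq σ
    rw [map_div₀, AlgEquiv.commutes] at h3
    have hRσ : (act (gc A B F) σ.toAlgHom R - R) + (act (gc A B F) σ.toAlgHom R - R) = 0 := by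
      have h4 : (act (gc A B F) σ.toAlgHom R - R) + (act (gc A B F) σ.toAlgHom R - R) =
          act (gc A B F) σ.toAlgHom (R + R) - (R + R) := by rw [map_add]; abel
      rw [h4, hR, map_zero, sub_zero]
    by_cases h5 : f σ = 0
    · have h6 := h3.1 h5
      have h7 : act (gc A B F) σ.toAlgHom R = R := by
        by_contra h7
        rw [(hgσ σ).2 h7] at h6
        have h8 : (2 : AlgebraicClosure F) * (algebraMap F _ (z : F) / g) = 0 := by
          rw [div_neg] at h6
          linear_combination -h6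
        rcases mul_eq_zero.1 h8 with h9 | h9
        · exact two_ne_zero h9
        · exact (div_ne_zero hz0 hg0) h9
      rw [h5, h7, sub_self]
    · have h6 := h3.2 h5
      have h7 : act (gc A B F) σ.toAlgHom R ≠ R := by
        intro h7
        rw [(hgσ σ).1 h7] at h6
        have h8 : (2 : AlgebraicClosure F) * (algebraMap F _ (z : F) / g) = 0 := by
          linear_combination h6
        rcases mul_eq_zero.1 h8 with h9 | h9
        · exact two_ne_zero h9
        · exact (div_ne_zero hz0 hg0) h9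
      exact isX_ext hT (h2 σ) hRσ (hX σ) (isX_sub hT hR σ) h5 (fun h => h7 (sub_eq_zero.1 h))

/-- the norm of `b D` -/
lemma norm_D (hodd : Odd (Module.finrank ℚ F)) {b' : F} {r' : ℚ}
    (hr' : Algebra.norm ℚ b' * ((A : ℚ) ^ 2 - 4 * (B : ℚ)) = r' ^ 2) :
    ∃ r : ℚ, Algebra.norm ℚ (b' * ((A ^ 2 - 4 * B : ℤ) : F)) = r ^ 2 := by
  have hDQ : ((A : ℚ) ^ 2 - 4 * (B : ℚ)) = ((A ^ 2 - 4 * B : ℤ) : ℚ) := by
    push_cast; ring
  obtain ⟨n, hn⟩ := id hodd
  refine ⟨r' * ((A ^ 2 - 4 * B : ℤ) : ℚ) ^ n, ?_⟩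
  have h3 : Algebra.norm ℚ (((A ^ 2 - 4 * B : ℤ)) : F) =
      ((A ^ 2 - 4 * B : ℤ) : ℚ) ^ Module.finrank ℚ F := by
    have := Algebra.norm_algebraMap (S := F) (((A ^ 2 - 4 * B : ℤ)) : ℚ)
    rwa [map_intCast] at this
  rw [map_mul, h3, hn, mul_pow, ← hr', hDQ]
  ring

/-- **the second class exists, and its norm is a square or `D` times a square** -/
lemma second_class (hB : B ≠ 0) (hD : A ^ 2 - 4 * B ≠ 0) (hodd : Odd (Module.finrank ℚ F))
    {e : AlgebraicClosure F ≃+* Qb} {f : Coch (gc A B F)} (hf : NCo (gcC (F := F) A B) e f)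
    (hX : ∀ σ, IsX ((gc A B F).baseChange (AlgebraicClosure F)) 0 (f σ)) :
    ∃ b' : Fˣ, (∀ (s : AlgebraicClosure F), s ^ 2 = algebraMap F _ (b' : F) →
      ∀ σ : Gal F, (f σ = 0 → σ s = s) ∧ (f σ ≠ 0 → σ s = -s)) ∧
      ∃ c : Fˣ, (c = b' ∨ (c : F) = (b' : F) * ((A ^ 2 - 4 * B : ℤ) : F)) ∧
        (∃ r : ℚ, Algebra.norm ℚ (c : F) = r ^ 2) ∧ L2 A B (c : F) := by
  obtain ⟨hf1, h2, S, hS, hco⟩ := hf
  have hTQ := gc_isT hB hD ℚ
  have hT := gc_isT hB hD F
  obtain ⟨b', hb', hbs', hbl'⟩ := exists_b2 hT hf1.1 h2 hX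
  obtain ⟨r', hr'⟩ := norm_b2 (gcC A B) e hTQ h2 hX hbs' hS hco
  have hL2 : L2 A B b' := by
    refine ⟨fun v => ?_, fun v => ?_⟩
    · have := charZero_adic v
      have h3 := hbl' _ (hf1.2.1 v)
      rwa [map_intCast, map_intCast] at h3
    · have := charZero_inf v
      have h3 := hbl' v.Completion (hf1.2.2 v)
      rwa [map_intCast, map_intCast] at h3
  have hDF0 : (((A ^ 2 - 4 * B : ℤ)) : F) ≠ 0 := by exact_mod_cast hD
  refine ⟨Units.mk0 b' hb', hbs', ?_⟩
  rcases hr' with hr' | hr'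
  · exact ⟨Units.mk0 b' hb', Or.inl rfl, ⟨r', hr'⟩, hL2⟩
  · exact ⟨Units.mk0 (b' * ((A ^ 2 - 4 * B : ℤ) : F)) (mul_ne_zero hb' hDF0), Or.inr rfl,
      norm_D hodd hr', L2_divC hb' hD hL2⟩

/-- when the second class is trivial -/
lemma key_two (hB : B ≠ 0) (hD : A ^ 2 - 4 * B ≠ 0) (hodd : Odd (Module.finrank ℚ F))
    (H2 : ∀ b : Fˣ, (∃ r : ℚ, Algebra.norm ℚ (b : F) = r ^ 2) → L2 A B (b : F) →
      ∃ y : Fˣ, y ^ 2 = b)
    {e : AlgebraicClosure F ≃+* Qb} {f : Coch (gc A B F)} (hf : NCo (gcC (F := F) A B) e f)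
    (hX : ∀ σ, IsX ((gc A B F).baseChange (AlgebraicClosure F)) 0 (f σ)) :
    ∃ R : Pt (gc A B F) (AlgebraicClosure F), R + R = 0 ∧
      ∀ σ : Gal F, f σ = act (gc A B F) σ.toAlgHom R - R := by
  obtain ⟨b', hbs', c, hc, hr, hL⟩ := second_class hB hD hodd hf hX
  obtain ⟨z, hz⟩ := H2 c hr hL
  refine key_T hB hD hf.2.1 hX b'.ne_zero hbs' ⟨z, ?_⟩
  have hz' : (z : F) ^ 2 = (c : F) := by
    rw [← hz, Units.val_pow_eq_pow_val]
  rcases hc with rfl | hc
  · exact Or.inl hz'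
  · exact Or.inr (by rw [hz', hc])

/-- the sign of square roots under a product that is a square -/
lemma root_iff {b c y : F} (hy : y ^ 2 = b * c) (hy0 : y ≠ 0) {s t : AlgebraicClosure F}
    (hs : s ^ 2 = algebraMap F _ b) (ht : t ^ 2 = algebraMap F _ c) (σ : Gal F) :
    σ s = s ↔ σ t = t := by
  have hyy : algebraMap F (AlgebraicClosure F) y ≠ 0 := (map_ne_zero _).2 hy0
  have h1 : (s * t) ^ 2 = (algebraMap F (AlgebraicClosure F) y) ^ 2 := by
    rw [mul_pow, hs, ht, ← map_mul, ← hy, map_pow]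
  have hst : s * t ≠ 0 := by
    intro h0
    rw [h0, zero_pow two_ne_zero] at h1
    exact pow_ne_zero 2 hyy h1.symm
  have hs0 : s ≠ 0 := left_ne_zero_of_mul hst
  have ht0 : t ≠ 0 := right_ne_zero_of_mul hst
  have h2 : σ (s * t) = s * t := by
    rcases sq_eq_sq_iff_eq_or_eq_neg.1 h1 with h | h
    · rw [h, AlgEquiv.commutes]
    · rw [h, map_neg, AlgEquiv.commutes]
  rw [map_mul] at h2
  constructor
  · intro h
    rw [h] at h2
    exact mul_left_cancel₀ hs0 h2
  · intro h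
    rw [h] at h2
    exact mul_right_cancel₀ ht0 h2

/-- **the first type**: only the first class can be nontrivial -/
theorem keyI (hB : B ≠ 0) (hD : A ^ 2 - 4 * B ≠ 0) (hodd : Odd (Module.finrank ℚ F))
    (H1 : ∀ b : Fˣ, (∃ r : ℚ, Algebra.norm ℚ (b : F) = r ^ 2) → L1 A B (b : F) → PE b)
    (H2 : ∀ b : Fˣ, (∃ r : ℚ, Algebra.norm ℚ (b : F) = r ^ 2) → L2 A B (b : F) →
      ∃ y : Fˣ, y ^ 2 = b)
    (e : AlgebraicClosure F ≃+* Qb) : KeyC (gcC (F := F) A B) e := by
  classical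
  have hTQ := gc_isT hB hD ℚ
  have hT := gc_isT hB hD F
  have ex : ∀ f, NCo (gcC (F := F) A B) e f → ∃ b : Fˣ,
      (∀ (s : AlgebraicClosure F), s ^ 2 = algebraMap F _ (b : F) →
        ∀ σ : Gal F, (IsX ((gc A B F).baseChange (AlgebraicClosure F)) 0 (f σ) → σ s = s) ∧
          (¬ IsX ((gc A B F).baseChange (AlgebraicClosure F)) 0 (f σ) → σ s = -s)) ∧ PE b := by
    rintro f ⟨hf1, h2, S, hS, hco⟩
    obtain ⟨b, hb, hbs, hbl⟩ := exists_b1 hT hf1.1 h2
    obtain ⟨r, hr⟩ := norm_b1 (gcC A B) e hTQ h2 hbs hS hco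
    refine ⟨Units.mk0 b hb, hbs, H1 (Units.mk0 b hb) ⟨r, hr⟩ ⟨fun v => ?_, fun v => ?_⟩⟩
    · have := charZero_adic v
      have h3 := hbl _ (hf1.2.1 v)
      rwa [map_intCast, map_intCast] at h3
    · have := charZero_inf v
      have h3 := hbl v.Completion (hf1.2.2 v)
      rwa [map_intCast, map_intCast] at h3
  refine ⟨fun f => if h : NCo (gcC (F := F) A B) e f then (ex f h).choose else 1, fun f hf => ?_,
    fun f g hf hg hy => ?_⟩
  · beta_reduce
    rw [dif_pos hf]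
    exact (ex f hf).choose_spec.2
  · beta_reduce at hy
    rw [dif_pos hf, dif_pos hg] at hy
    obtain ⟨y, hy⟩ := hy
    have hsf := (ex f hf).choose_spec.1
    have hsg := (ex g hg).choose_spec.1
    generalize (ex f hf).choose = b at hsf hy
    generalize (ex g hg).choose = c at hsg hy
    have hy' : (y : F) ^ 2 = (b : F) * (c : F) := by
      have := congrArg Units.val hy
      rwa [Units.val_pow_eq_pow_val, Units.val_mul] at this
    obtain ⟨s, hs⟩ := IsAlgClosed.exists_pow_nat_eq (algebraMap F (AlgebraicClosure F) (b : F))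
      (n := 2) two_pos
    obtain ⟨t, ht⟩ := IsAlgClosed.exists_pow_nat_eq (algebraMap F (AlgebraicClosure F) (c : F))
      (n := 2) two_pos
    have hs0 : s ≠ 0 := by
      rintro rfl
      rw [zero_pow two_ne_zero, eq_comm, map_eq_zero] at hs
      exact b.ne_zero hs
    have ht0 : t ≠ 0 := by
      rintro rfl
      rw [zero_pow two_ne_zero, eq_comm, map_eq_zero] at ht
      exact c.ne_zero ht
    have hneg : ∀ {x : AlgebraicClosure F}, x ≠ 0 → -x ≠ x := by
      intro x hx h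
      have h2 : (2 : AlgebraicClosure F) * x = 0 := by linear_combination -h
      exact hx ((mul_eq_zero.1 h2).resolve_left two_ne_zero)
    have hX : ∀ σ, IsX ((gc A B F).baseChange (AlgebraicClosure F)) 0 ((f - g) σ) := by
      intro σ
      refine isX_of_sub hT (hf.2.1 σ) (hg.2.1 σ) ?_
      have h1 := hsf s hs σ
      have h2 := hsg t ht σ
      have h3 := root_iff hy' y.ne_zero hs ht σ
      constructor
      · intro h
        by_contra h'
        have h4 := h3.1 (h1.1 h)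
        rw [h2.2 h'] at h4
        exact hneg ht0 h4
      · intro h
        by_contra h'
        have h4 := h3.2 (h2.1 h)
        rw [h1.2 h'] at h4
        exact hneg hs0 h4
    obtain ⟨R, hR, hRf⟩ := key_two hB hD hodd H2 (hf.sub hg) hX
    exact ⟨R, hR, hRf⟩

/-- **the second type**: only the second class can be nontrivial -/
theorem keyII (hB : B ≠ 0) (hD : A ^ 2 - 4 * B ≠ 0) (hodd : Odd (Module.finrank ℚ F))
    (H1 : ∀ b : Fˣ, (∃ r : ℚ, Algebra.norm ℚ (b : F) = r ^ 2) → L1 A B (b : F) →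
      ∃ y : Fˣ, y ^ 2 = b)
    (H2 : ∀ b : Fˣ, (∃ r : ℚ, Algebra.norm ℚ (b : F) = r ^ 2) → L2 A B (b : F) → PE b)
    (e : AlgebraicClosure F ≃+* Qb) : KeyC (gcC (F := F) A B) e := by
  classical
  have hTQ := gc_isT hB hD ℚ
  have hT := gc_isT hB hD F
  have hDF0 : (((A ^ 2 - 4 * B : ℤ)) : F) ≠ 0 := by exact_mod_cast hD
  have hXX : ∀ f, NCo (gcC (F := F) A B) e f →
      ∀ σ, IsX ((gc A B F).baseChange (AlgebraicClosure F)) 0 (f σ) := by
    rintro f ⟨hf1, h2, S, hS, hco⟩ σ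
    obtain ⟨b, hb, hbs, hbl⟩ := exists_b1 hT hf1.1 h2
    obtain ⟨r, hr⟩ := norm_b1 (gcC A B) e hTQ h2 hbs hS hco
    obtain ⟨y, hy⟩ := H1 (Units.mk0 b hb) ⟨r, hr⟩ ⟨fun v => by
      have := charZero_adic v
      have h3 := hbl _ (hf1.2.1 v)
      rwa [map_intCast, map_intCast] at h3, fun v => by
      have := charZero_inf v
      have h3 := hbl v.Completion (hf1.2.2 v)
      rwa [map_intCast, map_intCast] at h3⟩
    have hy' : b = (y : F) ^ 2 := by
      have := congrArg Units.val hy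
      rw [Units.val_mk0, Units.val_pow_eq_pow_val] at this
      exact this.symm
    by_contra hX
    have h3 := (hbs (algebraMap F _ (y : F)) (by rw [hy', map_pow]) σ).2 hX
    rw [AlgEquiv.commutes] at h3
    have h4 : (2 : AlgebraicClosure F) * algebraMap F _ (y : F) = 0 := by linear_combination h3
    rcases mul_eq_zero.1 h4 with h5 | h5
    · exact two_ne_zero h5
    · rw [map_eq_zero] at h5
      exact y.ne_zero h5
  have ex : ∀ f, NCo (gcC (F := F) A B) e f → ∃ c : Fˣ, PE c ∧ ∃ b' : Fˣ,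
      (∀ (s : AlgebraicClosure F), s ^ 2 = algebraMap F _ (b' : F) →
        ∀ σ : Gal F, (f σ = 0 → σ s = s) ∧ (f σ ≠ 0 → σ s = -s)) ∧
      (c = b' ∨ (c : F) = (b' : F) * ((A ^ 2 - 4 * B : ℤ) : F)) := by
    intro f hf
    obtain ⟨b', hbs', c, hc, hr, hL⟩ := second_class hB hD hodd hf (hXX f hf)
    exact ⟨c, H2 c hr hL, b', hbs', hc⟩
  refine ⟨fun f => if h : NCo (gcC (F := F) A B) e f then (ex f h).choose else 1, fun f hf => ?_,
    fun f g hf hg hy => ?_⟩
  · beta_reduce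
    rw [dif_pos hf]
    exact (ex f hf).choose_spec.1
  · beta_reduce at hy
    rw [dif_pos hf, dif_pos hg] at hy
    obtain ⟨y, hy⟩ := hy
    obtain ⟨-, b, hsf, hbc⟩ := (ex f hf).choose_spec
    obtain ⟨-, b', hsg, hbc'⟩ := (ex g hg).choose_spec
    generalize (ex f hf).choose = c at hbc hy
    generalize (ex g hg).choose = c' at hbc' hy
    have hy' : (y : F) ^ 2 = (c : F) * (c' : F) := by
      have := congrArg Units.val hy
      rwa [Units.val_pow_eq_pow_val, Units.val_mul] at this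
    -- the class of the difference is `b b'`
    have hfg := hf.sub hg
    have hX := hXX _ hfg
    have hdiff : ∀ (s : AlgebraicClosure F), s ^ 2 = algebraMap F _ ((b * b' : Fˣ) : F) →
        ∀ σ : Gal F, ((f - g) σ = 0 → σ s = s) ∧ ((f - g) σ ≠ 0 → σ s = -s) := by
      intro s hs σ
      obtain ⟨u, hu⟩ := IsAlgClosed.exists_pow_nat_eq (algebraMap F (AlgebraicClosure F) (b : F))
        (n := 2) two_pos
      obtain ⟨t, ht⟩ := IsAlgClosed.exists_pow_nat_eq (algebraMap F (AlgebraicClosure F) (b' : F))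
        (n := 2) two_pos
      have h1 : s ^ 2 = (u * t) ^ 2 := by
        rw [hs, mul_pow, hu, ht, Units.val_mul, map_mul]
      have h2 := hsf u hu σ
      have h3 := hsg t ht σ
      have h4 : σ s = s ↔ σ (u * t) = u * t := by
        rcases sq_eq_sq_iff_eq_or_eq_neg.1 h1 with h | h
        · rw [h]
        · rw [h, map_neg, neg_inj]
      have h5 : σ s = -s ↔ σ (u * t) = -(u * t) := by
        rcases sq_eq_sq_iff_eq_or_eq_neg.1 h1 with h | h
        · rw [h]
        · rw [h, map_neg, neg_inj]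
      rw [h4, h5, map_mul]
      by_cases hf0 : f σ = 0
      · by_cases hg0 : g σ = 0
        · rw [h2.1 hf0, h3.1 hg0]
          refine ⟨fun _ => rfl, fun h => absurd ?_ h⟩
          change f σ - g σ = 0
          rw [hf0, hg0, sub_self]
        · rw [h2.1 hf0, h3.2 hg0]
          refine ⟨fun h => absurd ?_ hg0, fun _ => by ring⟩
          have h6 : f σ - g σ = 0 := h
          rw [hf0, zero_sub, neg_eq_zero] at h6
          exact h6
      · by_cases hg0 : g σ = 0
        · rw [h2.2 hf0, h3.1 hg0]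
          refine ⟨fun h => absurd ?_ hf0, fun _ => by ring⟩
          have h6 : f σ - g σ = 0 := h
          rw [hg0, sub_zero] at h6
          exact h6
        · rw [h2.2 hf0, h3.2 hg0]
          refine ⟨fun _ => by ring, fun h => absurd ?_ h⟩
          change f σ - g σ = 0
          rw [isX_ext hT (hf.2.1 σ) (hg.2.1 σ) (hXX f hf σ) (hXX g hg σ) hf0 hg0, sub_self]
    set D : F := ((A ^ 2 - 4 * B : ℤ) : F) with hDdef
    have hsq : ∃ z : Fˣ, (z : F) ^ 2 = ((b * b' : Fˣ) : F) ∨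
        (z : F) ^ 2 = ((b * b' : Fˣ) : F) * ((A ^ 2 - 4 * B : ℤ) : F) := by
      rw [← hDdef, Units.val_mul]
      rcases hbc with rfl | hbc <;> rcases hbc' with rfl | hbc'
      · exact ⟨y, Or.inl hy'⟩
      · refine ⟨y, Or.inr ?_⟩
        rw [hy', hbc']; ring
      · refine ⟨y, Or.inr ?_⟩
        rw [hy', hbc]; ring
      · refine ⟨y * (Units.mk0 D hDF0)⁻¹, Or.inl ?_⟩
        rw [Units.val_mul, Units.val_inv_eq_inv_val, Units.val_mk0, mul_pow, hy', hbc, hbc']
        field_simp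
    obtain ⟨R, hR, hRf⟩ := key_T hB hD hfg.2.1 hX (b * b').ne_zero hdiff hsq
    exact ⟨R, hR, hRf⟩

end

end Pool.Agent.R432.CX
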