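import Pool.Agent.R432.Loc

/-!
# Ranks of isogenous curves, and the splitting of the 2-primary part
-/

set_option autoImplicit false
set_option linter.unusedSectionVars false

attribute [-instance] DivisionRing.toRatAlgebra

open NumberField IsDedekindDomain

namespace Pool.Agent.R432

open WeierstrassCurve

open Pool.Agent.TH841.NF

open Pool.Agent.TH841.SH.D (Pt act Gal Coch IsCoc IsCob LocTriv cob)

open Pool.Agent.Y682

section rank

variable {k : Type} [Field k] [NumberField k] {W W' : WeierstrassCurve k} {A B A' B' : k}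

lemma rank_le (hT : IsT W A B) (hT' : IsT W' A' B') (h : NH W W') (h' : NH W' W)
    (hd : Dbl h h') : Module.finrank ℤ (MP W) ≤ Module.finrank ℤ (MP W') := by
  have h1 : Module.Finite ℤ (MP W) := fg_MP hT
  have h2 : Module.Finite ℤ (MP W') := fg_MP hT'
  have hfix : ∀ P : MP W, dl (h.f (AlgebraicClosure k) (inc W P)) = 0 := by
    intro P
    rw [← iC_dl, dl_inc]
    funext σ
    exact map_zero (h.f (AlgebraicClosure k))
  choose t ht using fun P => exists_inc (hfix P)
  let T : MP W →+ MP W' :=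
    { toFun := t
      map_zero' := by
        apply inc_inj
        rw [ht, map_zero, map_zero, map_zero]
      map_add' := by
        intro P Q
        apply inc_inj
        rw [ht, map_add, map_add, map_add, ht, ht] }
  have hT0 : ∀ P, inc _ (T P) = h.f (AlgebraicClosure k) (inc W P) := ht
  have hker : Module.finrank ℤ (LinearMap.ker T.toIntLinearMap) = 0 := by
    rw [Module.finrank_eq_zero_iff_isTorsion]
    rintro ⟨P, hP⟩
    have hP' : T P = 0 := hP
    have h3 := hT0 P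
    rw [hP', map_zero] at h3
    have h4 := hd (AlgebraicClosure k) (inc W P)
    rw [← h3, map_zero] at h4
    refine ⟨⟨2, mem_nonZeroDivisors_of_ne_zero two_ne_zero⟩, Subtype.ext ?_⟩
    change (2 : ℤ) • P = 0
    apply inc_inj
    rw [two_smul, map_add, map_zero, ← h4]
  have h4 := Submodule.finrank_quotient_add_finrank (LinearMap.ker T.toIntLinearMap)
  rw [LinearEquiv.finrank_eq (LinearMap.quotKerEquivRange T.toIntLinearMap)] at h4
  have h5 : Module.finrank ℤ (LinearMap.range T.toIntLinearMap) ≤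
      Module.finrank ℤ (MP W') := Submodule.finrank_le _
  omega

lemma rkN (W : WeierstrassCurve k) : Pool.Agent.TH841.NF.D.rk W = Module.finrank ℤ (MP W) := rfl

lemma rkQ (E : WeierstrassCurve ℚ) :
    Pool.Agent.TH841.SH.D.rk E = Module.finrank ℤ (MP E) := by
  unfold Pool.Agent.TH841.SH.D.rk MP MP.group
  congr! 2
  · exact congrArg (fun i => @Affine.Point.instAddCommGroup ℚ _ E.toAffine i)
      (Subsingleton.elim _ _)
  · exact congrArg (fun i => @Affine.Point.instAddCommGroup ℚ _ E.toAffine i)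
      (Subsingleton.elim _ _)

end rank

/-- multiplication by an odd number on a group killed by a power of two -/
lemma odd_div {B : Type} [AddCommGroup B] {n : ℕ} (hn : Odd n) {m : ℕ} {y : B}
    (hy : 2 ^ m • y = 0) : ∃ z : B, 2 ^ m • z = 0 ∧ n • z = y := by
  have h1 : Nat.Coprime n (2 ^ m) := Nat.Coprime.pow_right m (Nat.coprime_two_right.2 hn)
  obtain ⟨a, b, hab⟩ := Nat.isCoprime_iff_coprime.2 h1
  refine ⟨a • y, ?_, ?_⟩
  · rw [smul_comm, hy, smul_zero]
  · have h3 : n • (a • y) = (a * (n : ℤ)) • y := by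
      rw [mul_comm, mul_smul, natCast_zsmul]
    have h4 : (b * ((2 ^ m : ℕ) : ℤ)) • y = 0 := by
      rw [mul_smul, natCast_zsmul, hy, smul_zero]
    have h5 := congrArg (fun z : ℤ => z • y) hab
    simp only [add_smul, one_smul] at h5
    rw [h4, add_zero] at h5
    rw [h3, h5]

/-- the splitting -/
theorem split {A B : Type} [AddCommGroup A] [AddCommGroup B] (co : A →+ B) (rs : B →+ A)
    {n : ℕ} (hn : Odd n) (h : ∀ y, co (rs y) = n • y) (N : AddSubgroup A)
    (hN : ∀ x, x ∈ N ↔ (∃ m : ℕ, 2 ^ m • x = 0) ∧ co x = 0) :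
    Nonempty (AddCommGroup.primaryComponent A 2 ≃+ AddCommGroup.primaryComponent B 2 × N) := by
  have h1 : ∀ y : AddCommGroup.primaryComponent B 2, rs y.1 ∈ AddCommGroup.primaryComponent A 2 := by
    intro y
    obtain ⟨m, hm⟩ := y.2
    exact ⟨m, by rw [← map_nsmul, hm, map_zero]⟩
  have h2 : ∀ x : N, x.1 ∈ AddCommGroup.primaryComponent A 2 := fun x => ((hN x.1).1 x.2).1
  let f1 : AddCommGroup.primaryComponent B 2 →+ AddCommGroup.primaryComponent A 2 :=
    (rs.comp (AddCommGroup.primaryComponent B 2).subtype).codRestrict _ h1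
  let f2 : N →+ AddCommGroup.primaryComponent A 2 := N.subtype.codRestrict _ h2
  let f : AddCommGroup.primaryComponent B 2 × N →+ AddCommGroup.primaryComponent A 2 :=
    f1.coprod f2
  have hf : ∀ z, (f z).1 = rs z.1.1 + z.2.1 := fun z => rfl
  refine ⟨(AddEquiv.ofBijective f ⟨?_, ?_⟩).symm⟩
  · rw [injective_iff_map_eq_zero]
    rintro ⟨y, x⟩ hyx
    have h3 : rs y.1 + x.1 = 0 := by rw [← hf ⟨y, x⟩, hyx]; rfl
    have h4 : n • y.1 = 0 := by
      have h5 := congrArg co h3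
      rwa [map_add, h, ((hN x.1).1 x.2).2, add_zero, map_zero] at h5
    obtain ⟨m, hm⟩ := y.2
    have hy : y.1 = 0 := by
      have h1 : Nat.Coprime n (2 ^ m) := Nat.Coprime.pow_right m (Nat.coprime_two_right.2 hn)
      obtain ⟨a, b, hab⟩ := Nat.isCoprime_iff_coprime.2 h1
      have h5 := congrArg (fun z : ℤ => z • y.1) hab
      simp only [add_smul, one_smul, mul_smul, natCast_zsmul, hm, h4, smul_zero, add_zero] at h5
      exact h5.symm
    rw [hy, map_zero, zero_add] at h3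
    exact Prod.ext (Subtype.ext hy) (Subtype.ext h3)
  · intro x
    obtain ⟨m, hm⟩ := x.2
    obtain ⟨y, hy, hyx⟩ := odd_div hn (m := m) (y := co x.1) (by rw [← map_nsmul, hm, map_zero])
    have hx : x.1 - rs y ∈ N := by
      rw [hN]
      refine ⟨⟨m, ?_⟩, ?_⟩
      · rw [smul_sub, hm, ← map_nsmul, hy, map_zero, sub_zero]
      · rw [map_sub, h, hyx, sub_self]
    refine ⟨⟨⟨y, m, hy⟩, ⟨_, hx⟩⟩, Subtype.ext ?_⟩
    rw [hf]
    exact add_sub_cancel _ _

/-- groups killed by two -/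
lemma two_group {A : Type} [AddCommGroup A] (h2 : ∀ x : A, x + x = 0) {r : ℕ}
    (hc : Nat.card A = 2 ^ r) : Nonempty (A ≃+ (Fin r → ZMod 2)) := by
  have hfin : Finite A := Nat.finite_of_card_ne_zero (by rw [hc]; positivity)
  have : Fintype A := Fintype.ofFinite A
  let _ : Module (ZMod 2) A := AddCommGroup.zmodModule (n := 2) (fun x => by
    rw [two_nsmul]; exact h2 x)
  have h3 := Module.natCard_eq_pow_finrank (K := ZMod 2) (V := A)
  rw [hc, Nat.card_zmod] at h3
  have h4 : r = Module.finrank (ZMod 2) A := Nat.pow_right_injective le_rfl h3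
  have h5 : Module.finrank (ZMod 2) (Fin r → ZMod 2) = r := by simp
  exact ⟨(LinearEquiv.ofFinrankEq A (Fin r → ZMod 2) (by rw [h5, ← h4])).toAddEquiv⟩

section units

variable {F : Type} [Field F] [NumberField F] [Algebra ℚ F] [FiniteDimensional ℚ F]

/-- the units whose norm is one -/
def U1 (F : Type) [Field F] [NumberField F] [Algebra ℚ F] : Subgroup (𝓞 F)ˣ where
  carrier := {u | Algebra.norm ℚ ((u : 𝓞 F) : F) = 1}
  one_mem' := by
    change Algebra.norm ℚ (((1 : (𝓞 F)ˣ) : 𝓞 F) : F) = 1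
    rw [Units.val_one]
    have : (((1 : 𝓞 F)) : F) = 1 := map_one (algebraMap (𝓞 F) F)
    rw [this, map_one]
  mul_mem' := by
    intro u w hu hw
    change Algebra.norm ℚ (((u * w : (𝓞 F)ˣ) : 𝓞 F) : F) = 1
    rw [Units.val_mul]
    have : (((u : 𝓞 F) * (w : 𝓞 F) : 𝓞 F) : F) = ((u : 𝓞 F) : F) * ((w : 𝓞 F) : F) :=
      map_mul (algebraMap (𝓞 F) F) _ _
    have hu' : Algebra.norm ℚ ((u : 𝓞 F) : F) = 1 := hu
    have hw' : Algebra.norm ℚ ((w : 𝓞 F) : F) = 1 := hw
    rw [this, map_mul, hu', hw', one_mul]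
  inv_mem' := by
    intro u hu
    have hu' : Algebra.norm ℚ ((u : 𝓞 F) : F) = 1 := hu
    change Algebra.norm ℚ (((u⁻¹ : (𝓞 F)ˣ) : 𝓞 F) : F) = 1
    have h1 : ((u : 𝓞 F) : F) * ((((u⁻¹ : (𝓞 F)ˣ) : 𝓞 F)) : F) = 1 := by
      have h2 := map_mul (algebraMap (𝓞 F) F) (u : 𝓞 F) ((u⁻¹ : (𝓞 F)ˣ) : 𝓞 F)
      rw [← Units.val_mul, mul_inv_cancel, Units.val_one, map_one] at h2
      exact h2.symm
    have h3 := congrArg (Algebra.norm ℚ) h1
    rw [map_mul, map_one, hu', one_mul] at h3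
    exact h3

lemma mem_U1 {u : (𝓞 F)ˣ} : u ∈ U1 F ↔ Algebra.norm ℚ ((u : 𝓞 F) : F) = 1 := Iff.rfl

/-- the norm of a unit -/
lemma norm_unit (u : (𝓞 F)ˣ) : Algebra.norm ℚ ((u : 𝓞 F) : F) = 1 ∨
    Algebra.norm ℚ ((u : 𝓞 F) : F) = -1 := by
  obtain ⟨m, hm⟩ := exists_norm_int (u : 𝓞 F)
  obtain ⟨n, hn⟩ := exists_norm_int ((u⁻¹ : (𝓞 F)ˣ) : 𝓞 F)
  have h1 : ((u : 𝓞 F) : F) * ((((u⁻¹ : (𝓞 F)ˣ) : 𝓞 F)) : F) = 1 := by
    have h2 := map_mul (algebraMap (𝓞 F) F) (u : 𝓞 F) ((u⁻¹ : (𝓞 F)ˣ) : 𝓞 F)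
    rw [← Units.val_mul, mul_inv_cancel, Units.val_one, map_one] at h2
    exact h2.symm
  have h3 := congrArg (Algebra.norm ℚ) h1
  rw [map_mul, map_one, hm, hn] at h3
  have h4 : m * n = 1 := by exact_mod_cast h3
  rcases Int.isUnit_iff.1 (IsUnit.of_mul_eq_one n h4) with h5 | h5
  · left; rw [hm, h5]; norm_num
  · right; rw [hm, h5]; norm_num

lemma norm_neg_one (hodd : Odd (Module.finrank ℚ F)) (x : F) :
    Algebra.norm ℚ (-x) = -Algebra.norm ℚ x := by
  have h7 := Algebra.norm_algebraMap (S := F) (-1 : ℚ)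
  rw [map_neg, map_one, hodd.neg_one_pow] at h7
  have : -x = (-1) * x := by ring
  rw [this, map_mul, h7, neg_one_mul]

lemma index_U1 (hodd : Odd (Module.finrank ℚ F)) : (U1 F).index = 2 := by
  rw [Subgroup.index_eq_two_iff]
  refine ⟨-1, fun u => ?_⟩
  have hn : Algebra.norm ℚ (((u * -1 : (𝓞 F)ˣ) : 𝓞 F) : F) =
      -Algebra.norm ℚ ((u : 𝓞 F) : F) := by
    rw [← norm_neg_one hodd]
    congr 1
    have : ((u * -1 : (𝓞 F)ˣ) : 𝓞 F) = -(u : 𝓞 F) := by rw [mul_neg_one, Units.val_neg]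
    rw [this]
    exact map_neg (algebraMap (𝓞 F) F) _
  rw [mem_U1, mem_U1, hn]
  rcases norm_unit u with h | h
  · right
    rw [h]
    exact ⟨rfl, by norm_num⟩
  · left
    rw [h]
    exact ⟨by norm_num, by norm_num⟩

lemma relIndex_U1 [IsTotallyReal F] (hodd : Odd (Module.finrank ℚ F)) :
    (powMonoidHom 2 : (𝓞 F)ˣ →* (𝓞 F)ˣ).range.relIndex (U1 F) =
      2 ^ (Module.finrank ℚ F - 1) := by
  have hP := Pool.Agent.TeamU.index_sq (𝓞 F)ˣ
  rw [Units.finrank_eq, card_two, ← pow_succ] at hP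
  have hle : (powMonoidHom 2 : (𝓞 F)ˣ →* (𝓞 F)ˣ).range ≤ U1 F := by
    rintro _ ⟨w, rfl⟩
    rw [mem_U1, powMonoidHom_apply]
    have h1 : (((w ^ 2 : (𝓞 F)ˣ) : 𝓞 F) : F) = ((w : 𝓞 F) : F) ^ 2 := by
      rw [Units.val_pow_eq_pow_val]
      exact map_pow (algebraMap (𝓞 F) F) _ 2
    rw [h1, map_pow]
    rcases norm_unit w with h | h <;> rw [h] <;> norm_num
  have h1 := Subgroup.relIndex_mul_index hle
  rw [hP, index_U1 hodd] at h1
  have h2 : Units.rank F = Module.finrank ℚ F - 1 := by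
    have h3 : Fintype.card (InfinitePlace F) = Module.finrank ℚ F := by
      have h4 : @Module.finrank ℚ F _ _ (DivisionRing.toRatAlgebra).toModule =
          Module.finrank ℚ F := by
        congr 1
        exact Subsingleton.elim _ _
      rw [← h4, IsTotallyReal.finrank, InfinitePlace.card_eq_nrRealPlaces_add_nrComplexPlaces,
        IsTotallyReal.nrComplexPlaces_eq_zero, add_zero]
    unfold Units.rank
    rw [h3]
  have h3 : 0 < Module.finrank ℚ F := Nat.pos_of_ne_zero (by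
    intro h0; rw [h0] at hodd; exact absurd hodd (by decide))
  rw [h2, Nat.sub_add_cancel h3] at h1
  apply Nat.eq_of_mul_eq_mul_right (by norm_num : 0 < 2)
  rw [h1, ← pow_succ, Nat.sub_add_cancel h3]

end units

end Pool.Agent.R432
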