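import Pool.Agent.R432.CX2
import Pool.Agent.R432.RK

/-!
# Counting: rank and Sha over fields with complex places
-/

set_option autoImplicit false
set_option linter.unusedSectionVars false

attribute [-instance] DivisionRing.toRatAlgebra

open NumberField IsDedekindDomain

namespace Pool.Agent.R432.CX

open WeierstrassCurve

open Pool.Agent.Y682

open Pool.Agent.TH841.NF

open Pool.Agent.TH841.SH (IsR IsX gf isX_zero isX_some not_isX)

open Pool.Agent.TH841.SH.D (Pt act Gal Coch IsCoc IsCob LocTriv cob)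

section units

variable {K : Type} [Field K] [NumberField K]

lemma card_emb : Nat.card (K →+* ℝ) = InfinitePlace.nrRealPlaces K := by
  classical
  rw [← InfinitePlace.card_real_embeddings K, ← Nat.card_eq_fintype_card]
  refine Nat.card_congr (Equiv.ofBijective (fun φ : K →+* ℝ =>
    (⟨Complex.ofRealHom.comp φ, ?_⟩ : {φ : K →+* ℂ // ComplexEmbedding.IsReal φ})) ⟨?_, ?_⟩)
  · ext x
    exact Complex.conj_ofReal _
  · intro φ ψ h
    refine RingHom.ext fun x => ?_
    exact Complex.ofReal_injective (DFunLike.congr_fun (congrArg Subtype.val h) x)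
  · rintro ⟨ψ, h4⟩
    refine ⟨h4.embedding, Subtype.ext (RingHom.ext fun x => ?_)⟩
    exact h4.coe_embedding_apply x

/-- the classes of the totally positive units -/
noncomputable def kap (K : Type) [Field K] [NumberField K] : (sgU K).ker →* Kˣ ⧸ Sq K :=
  (QuotientGroup.mk' (Sq K)).comp
    ((Units.map (algebraMap (𝓞 K) K : 𝓞 K →* K)).comp (sgU K).ker.subtype)

lemma card_kap (h : Odd (Nat.card (NCl K))) : Finite (kap K).range ∧
    Nat.card (kap K).range ≤ 2 ^ InfinitePlace.nrComplexPlaces K := by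
  have hP := Pool.Agent.TeamU.index_sq (𝓞 K)ˣ
  rw [Units.finrank_eq, card_two, ← pow_succ] at hP
  have hfe : Finite (K →+* ℝ) := by
    refine Finite.of_injective (β := K →+* ℂ) (fun φ => Complex.ofRealHom.comp φ) ?_
    intro φ ψ h
    refine RingHom.ext fun x => ?_
    exact Complex.ofReal_injective (DFunLike.congr_fun h x)
  have hN : (sgU K).ker.index = 2 ^ InfinitePlace.nrRealPlaces K := by
    rw [Subgroup.index_ker, (MonoidHom.range_eq_top.2 (sgU_surj h) : (sgU K).range = ⊤)]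
    have h1 : Nat.card ((⊤ : Subgroup ((K →+* ℝ) → ℤˣ))) = Nat.card ((K →+* ℝ) → ℤˣ) :=
      Nat.card_congr Subgroup.topEquiv.toEquiv
    rw [h1, Nat.card_fun, card_emb]
    simp
  have hr : Units.rank K + 1 = InfinitePlace.nrRealPlaces K + InfinitePlace.nrComplexPlaces K := by
    have h1 := InfinitePlace.card_eq_nrRealPlaces_add_nrComplexPlaces (K := K)
    have h2 : 0 < Fintype.card (InfinitePlace K) := Fintype.card_pos
    unfold Units.rank
    omega
  have hle : (powMonoidHom 2 : (𝓞 K)ˣ →* (𝓞 K)ˣ).range ≤ (sgU K).ker := by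
    rintro _ ⟨w, rfl⟩
    rw [MonoidHom.mem_ker, powMonoidHom_apply, map_pow]
    funext φ
    exact Int.units_sq _
  have h1 := Subgroup.relIndex_mul_index hle
  rw [hP, hN, hr, pow_add, mul_comm (2 ^ InfinitePlace.nrRealPlaces K)] at h1
  have h2 : (powMonoidHom 2 : (𝓞 K)ˣ →* (𝓞 K)ˣ).range.relIndex (sgU K).ker =
      2 ^ InfinitePlace.nrComplexPlaces K :=
    Nat.eq_of_mul_eq_mul_right (by positivity) h1
  have h3 : (powMonoidHom 2 : (𝓞 K)ˣ →* (𝓞 K)ˣ).range.subgroupOf (sgU K).ker ≤ (kap K).ker := by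
    rintro ⟨u, hu⟩ hu2
    rw [Subgroup.mem_subgroupOf] at hu2
    obtain ⟨w, hw⟩ := hu2
    rw [MonoidHom.mem_ker]
    change ((Units.map (algebraMap (𝓞 K) K : 𝓞 K →* K) u : Kˣ) : Kˣ ⧸ Sq K) = 1
    have h1 : (1 : Kˣ ⧸ Sq K) = ((1 : Kˣ) : Kˣ ⧸ Sq K) := rfl
    rw [h1, eq_comm, quot_eq]
    refine ⟨Units.map (algebraMap (𝓞 K) K : 𝓞 K →* K) w, ?_⟩
    have hw' : w ^ 2 = u := hw
    rw [one_mul, ← map_pow, hw']
  have h4 := Subgroup.index_dvd_of_le h3
  have h5 : ((powMonoidHom 2 : (𝓞 K)ˣ →* (𝓞 K)ˣ).range.subgroupOf (sgU K).ker).index =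
    2 ^ InfinitePlace.nrComplexPlaces K := h2
  rw [h5, Subgroup.index_ker] at h4
  have h6 : Nat.card (kap K).range ≤ 2 ^ InfinitePlace.nrComplexPlaces K :=
    Nat.le_of_dvd (by positivity) h4
  refine ⟨Nat.finite_of_card_ne_zero ?_, h6⟩
  intro h0
  rw [h0] at h4
  have h7 := Nat.eq_zero_of_zero_dvd h4
  exact absurd h7 (by positivity)

lemma class_mem (h : Odd (Nat.card (NCl K))) {b : Kˣ} (hb : PE b) :
    (b : Kˣ ⧸ Sq K) ∈ (kap K).range := by
  obtain ⟨u, y, hu⟩ := even_val h b hb.2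
  have hu' : u ∈ (sgU K).ker := by
    rw [MonoidHom.mem_ker]
    funext φ
    refine (sgU_apply u φ).2 ?_
    have h1 := congrArg (fun z : Kˣ => φ (z : K)) hu
    simp only [Units.val_mul, Units.val_pow_eq_pow_val, map_mul, map_pow] at h1
    have h2 : 0 < φ (y : K) ^ 2 :=
      lt_of_le_of_ne (sq_nonneg _) (pow_ne_zero 2 ((map_ne_zero φ).2 y.ne_zero)).symm
    have h3 : 0 < φ (b : K) := hb.1 φ
    rw [h1] at h3
    exact (pos_iff_pos_of_mul_pos h3).2 h2
  refine ⟨⟨u, hu'⟩, ?_⟩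
  change ((Units.map (algebraMap (𝓞 K) K : 𝓞 K →* K) u : Kˣ) : Kˣ ⧸ Sq K) = (b : Kˣ ⧸ Sq K)
  rw [quot_eq]
  exact ⟨y, hu⟩

end units

section

variable {F : Type} [Field F] [NumberField F] [Algebra ℚ F]
  {E : WeierstrassCurve ℚ} {W : WeierstrassCurve F} {A B : F}
  {hW : Sc (algebraMap ℚ F) 1 E W} {e : AlgebraicClosure F ≃+* Qb}

/-- classes of Sha killed by two with trivial corestriction come from the cocycles of `NCo` -/
lemma lift_sha (hT : IsT W A B) (hodd : Odd (Module.finrank ℚ F))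
    (x : Pool.Agent.TH841.NF.D.Sha W) (hx2 : 2 • x = 0) (hx : coS hW e x = 0) :
    ∃ f : Pool.Agent.TH841.NF.D.shaCoc W, NCo hW e f.1 ∧
      (QuotientAddGroup.mk f : Pool.Agent.TH841.NF.D.Sha W) = x := by
  induction x using QuotientAddGroup.induction_on with
  | H f0 =>
    have h1 : IsCob W ((2 • f0 : Pool.Agent.TH841.NF.D.shaCoc W) : Coch W) :=
      (QuotientAddGroup.eq_zero_iff (2 • f0)).1 hx2
    have h2 : IsCob E (co hW e f0.1) :=
      (QuotientAddGroup.eq_zero_iff (coC hW e f0)).1 hx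
    obtain ⟨P0, hP0⟩ := isCob_iff.1 h1
    obtain ⟨S0, hS0⟩ := isCob_iff.1 h2
    obtain ⟨Q0, hQ0⟩ := exists_half hT P0
    have hP0' : f0.1 + f0.1 = dl Q0 + dl Q0 := by
      rw [← dl_add, ← hQ0, ← hP0, two_smul]
      rfl
    -- first modification
    obtain ⟨f1, hf1⟩ : ∃ f1 : Coch W, f1 = f0.1 - dl Q0 := ⟨_, rfl⟩
    have hf1s : Pool.Agent.TH841.NF.D.IsShaCoc W f1 := by
      rw [hf1]; exact sha_sub f0.2 (dl_sha Q0)
    have hf12 : f1 + f1 = 0 := by
      rw [hf1]
      have : f0.1 - dl Q0 + (f0.1 - dl Q0) = (f0.1 + f0.1) - (dl Q0 + dl Q0) := by abel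
      rw [this, hP0', sub_self]
    obtain ⟨S1, hS1⟩ : ∃ S1, co hW e f1 = dl S1 :=
      ⟨S0 - trc e (tp hW e Q0), by rw [hf1, co_sub, co_dl, hS0, dl_sub]⟩
    have hS12 : dl (S1 + S1) = 0 := by
      rw [dl_add, ← hS1, ← co_add, hf12, co_zero]
    obtain ⟨S1', hS1'⟩ := any_surj hW e S1
    have hS1'2 : dl (S1' + S1') = 0 := by
      apply dl_eq_zero_of_tp hW e
      rw [map_add]
      have : tp hW e S1' = S1 := hS1'
      rw [this]
      exact hS12
    -- second modification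
    obtain ⟨f2, hf2⟩ : ∃ f2 : Coch W, f2 = f1 - dl S1' := ⟨_, rfl⟩
    have hf2s : Pool.Agent.TH841.NF.D.IsShaCoc W f2 := by
      rw [hf2]; exact sha_sub hf1s (dl_sha S1')
    have hf22 : f2 + f2 = 0 := by
      rw [hf2]
      have : f1 - dl S1' + (f1 - dl S1') = (f1 + f1) - (dl S1' + dl S1') := by abel
      rw [this, hf12, ← dl_add, hS1'2, sub_self]
    have hco2 : co hW e f2 = dl (S1 - trc e S1) := by
      rw [hf2, co_sub, co_dl, hS1, dl_sub]
      have : tp hW e S1' = S1 := hS1'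
      rw [this]
    obtain ⟨m, hm⟩ : ∃ m, Fintype.card (Gal ℚ ⧸ HF e) = 2 * m + 1 := by
      obtain ⟨m, hm⟩ := hodd
      exact ⟨m, by rw [card_coset, hm]⟩
    obtain ⟨S2, hS2⟩ : ∃ S2, S2 = S1 - trc e S1 + m • (S1 + S1) := ⟨_, rfl⟩
    have hS22 : S2 + S2 = 0 := by
      have h3 : trc e (S1 + S1) = (2 * m + 1) • (S1 + S1) := by rw [trc_fix e hS12, hm]
      have h4 : S2 + S2 = (S1 + S1) - trc e (S1 + S1) + (2 * m) • (S1 + S1) := by
        rw [hS2, trc_add, mul_nsmul', two_nsmul]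
        abel
      rw [h4, h3, succ_nsmul]
      abel
    have hco3 : co hW e f2 = dl S2 := by
      rw [hco2, hS2, dl_add, dl_nsmul, hS12, smul_zero, add_zero]
    refine ⟨⟨f2, hf2s⟩, ⟨hf2s, fun σ => congrFun hf22 σ, S2, hS22, fun g => congrFun hco3 g⟩, ?_⟩
    refine (QuotientAddGroup.eq (s := (cob W).addSubgroupOf
      (Pool.Agent.TH841.NF.D.shaCoc W))).2 ?_
    change IsCob W (-f2 + f0.1)
    refine isCob_iff.2 ⟨S1' + Q0, ?_⟩
    rw [dl_add, hf2, hf1]
    abel

/-- the trace of the points -/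
lemma exists_tr (hW : Sc (algebraMap ℚ F) 1 E W) (e : AlgebraicClosure F ≃+* Qb) :
    ∃ T : MP W →+ MP E, ∀ P, inc _ (T P) = trc e (tp hW e (inc _ P)) := by
  have hfix : ∀ P : MP W, dl (trc e (tp hW e (inc _ P))) = 0 := by
    intro P
    rw [← co_dl, dl_inc, co_zero]
  choose t ht using fun P => exists_inc (hfix P)
  exact ⟨{ toFun := t
           map_zero' := by
            apply inc_inj
            rw [ht, map_zero, map_zero]
            have h3 := trc_add e (0 : Pt E Qb) 0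
            rw [add_zero] at h3
            rw [map_zero]
            exact left_eq_add.1 h3
           map_add' := by
            intro P Q
            apply inc_inj
            rw [ht, map_add, map_add, trc_add, map_add, ht, ht] }, ht⟩

lemma trc_zero (e : AlgebraicClosure F ≃+* Qb) : trc e (0 : Pt E Qb) = 0 := by
  have h3 := trc_add e (0 : Pt E Qb) 0
  rw [add_zero] at h3
  exact left_eq_add.1 h3

/-- halves of the points with trace zero -/
lemma half_NCo {T : MP W →+ MP E} (hTr : ∀ P, inc _ (T P) = trc e (tp hW e (inc _ P)))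
    {P : MP W} (hP : T P = 0) {Q : Pt W (AlgebraicClosure F)} (hQ : inc W P = Q + Q) :
    NCo hW e (dl Q) := by
  refine ⟨dl_sha Q, fun σ => ?_, trc e (tp hW e Q), ?_, fun g => ?_⟩
  · have h1 : dl Q + dl Q = 0 := by rw [← dl_add, ← hQ, dl_inc]
    exact congrFun h1 σ
  · rw [← trc_add, ← map_add, ← hQ, ← hTr, hP, map_zero]
  · exact congrFun (co_dl hW e Q) g

/-- rational points killed by two are traces of rational points killed by two -/
lemma tr_tors (hodd : Odd (Module.finrank ℚ F)) {T : MP W →+ MP E}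
    (hTr : ∀ P, inc _ (T P) = trc e (tp hW e (inc _ P))) {t : MP E} (ht : t + t = 0) :
    ∃ s : MP W, s + s = 0 ∧ T s = t := by
  obtain ⟨T0', hT0'⟩ : ∃ T0', tp hW e T0' = inc E t := any_surj hW e (inc E t)
  have hT0'f : dl T0' = 0 := by
    apply dl_eq_zero_of_tp hW e
    rw [hT0', dl_inc]
  obtain ⟨s, hs⟩ := exists_inc hT0'f
  have hT0'2 : T0' + T0' = 0 := by
    apply tm_inj (sc_any hW (e : AlgebraicClosure F →+* Qb))
    have : tp hW e (T0' + T0') = 0 := by rw [map_add, hT0', ← map_add, ht, map_zero]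
    rw [map_zero]
    exact this
  obtain ⟨m, hm⟩ : ∃ m, Fintype.card (Gal ℚ ⧸ HF e) = 2 * m + 1 := by
    obtain ⟨m, hm⟩ := hodd
    exact ⟨m, by rw [card_coset, hm]⟩
  refine ⟨s, ?_, ?_⟩
  · apply inc_inj W
    rw [map_add, hs, hT0'2, map_zero]
  · apply inc_inj E
    rw [hTr, hs, hT0', trc_fix e (dl_inc t), hm, succ_nsmul, mul_nsmul, two_nsmul, ← map_add, ht,
      map_zero, smul_zero, zero_add]

/-- **the count** -/
theorem countC (hT : IsT W A B) (hodd : Odd (Module.finrank ℚ F))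
    (hcl : Odd (Nat.card (NCl F))) (hkey : KeyC hW e) :
    ∃ s : ℕ, Module.finrank ℤ (MP W) ≤ Module.finrank ℤ (MP E) + s ∧
      Finite {x : Pool.Agent.TH841.NF.D.Sha W // 2 • x = 0 ∧ coS hW e x = 0} ∧
      2 ^ s * Nat.card {x : Pool.Agent.TH841.NF.D.Sha W // 2 • x = 0 ∧ coS hW e x = 0} ≤
        2 ^ InfinitePlace.nrComplexPlaces F := by
  classical
  have hfg : Module.Finite ℤ (MP W) := fg_MP hT
  have hfgE : Module.Finite ℤ (MP E) :=
    Module.Finite.of_injective (Pool.Agent.Y682.mt hW).toIntLinearMap (mt_inj hW)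
  obtain ⟨T, hTr⟩ := exists_tr hW e
  obtain ⟨cl, hcl1, hcl2⟩ := hkey
  let M0 := T.ker
  have hfg0 : Module.Finite ℤ M0 := by
    have h1 : Module.Finite ℤ (LinearMap.ker T.toIntLinearMap) := inferInstance
    exact h1
  obtain ⟨hkf, hkc⟩ := card_kap (K := F) hcl
  -- the classes of Sha
  choose fs hfs1 hfs2 using fun x : {x : Pool.Agent.TH841.NF.D.Sha W // 2 • x = 0 ∧
    coS hW e x = 0} => lift_sha hT hodd x.1 x.2.1 x.2.2
  -- the classes of points
  have hpt : ∀ q : M0 ⧸ (zsmulAddGroupHom (α := M0) 2).range, ∃ (P : M0)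
      (Q : Pt W (AlgebraicClosure F)), (QuotientAddGroup.mk P : M0 ⧸ _) = q ∧
      inc W P.1 = Q + Q := by
    intro q
    obtain ⟨P, hP⟩ := QuotientAddGroup.mk_surjective q
    obtain ⟨Q, hQ⟩ := exists_half hT (inc W P.1)
    exact ⟨P, Q, hP, hQ⟩
  choose Pq Qv hPq hQv using hpt
  have hQN : ∀ q, NCo hW e (dl (Qv q)) := fun q => half_NCo hTr (Pq q).2 (hQv q)
  have hneg : ∀ q, NCo hW e (-dl (Qv q)) := by
    intro q
    have h1 := (hQN q).sub (hQN q)
    have h2 := h1.sub (hQN q)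
    rwa [sub_self, zero_sub] at h2
  have hsum : ∀ x q, NCo hW e ((fs x).1 + dl (Qv q)) := by
    intro x q
    have h1 := (hfs1 x).sub (hneg q)
    rwa [sub_neg_eq_add] at h1
  let G : {x : Pool.Agent.TH841.NF.D.Sha W // 2 • x = 0 ∧ coS hW e x = 0} ×
      (M0 ⧸ (zsmulAddGroupHom (α := M0) 2).range) → (kap F).range := fun y =>
    ⟨(cl ((fs y.1).1 + dl (Qv y.2)) : Fˣ ⧸ Sq F), class_mem hcl (hcl1 _ (hsum _ _))⟩
  have hG : Function.Injective G := by
    rintro ⟨x, q⟩ ⟨x', q'⟩ h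
    have h0 : (cl ((fs x).1 + dl (Qv q)) : Fˣ ⧸ Sq F) = (cl ((fs x').1 + dl (Qv q')) : Fˣ ⧸ Sq F) :=
      congrArg Subtype.val h
    rw [quot_eq] at h0
    obtain ⟨z, hz⟩ := h0
    obtain ⟨R, hR, hRf⟩ := hcl2 _ _ (hsum x q) (hsum x' q')
      ⟨cl ((fs x).1 + dl (Qv q)) * z, by rw [hz, mul_pow, sq (cl _), mul_assoc]⟩
    have hRf' : ((fs x).1 + dl (Qv q)) - ((fs x').1 + dl (Qv q')) = dl R := funext hRf
    have hx : x = x' := by
      apply Subtype.ext
      rw [← hfs2 x, ← hfs2 x']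
      refine (QuotientAddGroup.eq (s := (cob W).addSubgroupOf
          (Pool.Agent.TH841.NF.D.shaCoc W))).2 ?_
      change IsCob W (-(fs x).1 + (fs x').1)
      refine isCob_iff.2 ⟨Qv q - Qv q' - R, ?_⟩
      rw [dl_sub, dl_sub, ← hRf']
      abel
    subst hx
    have h1 : dl (Qv q - Qv q' - R) = 0 := by
      rw [dl_sub, dl_sub, ← hRf']
      abel
    obtain ⟨M, hM⟩ := exists_inc h1
    have h2M : M + M = (Pq q).1 - (Pq q').1 := by
      apply inc_inj W
      rw [map_add, map_sub, hM, hQv, hQv]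
      have h7 : (Qv q - Qv q' - R) + (Qv q - Qv q' - R) =
          (Qv q + Qv q) - (Qv q' + Qv q') - (R + R) := by abel
      rw [h7, hR, sub_zero]
    have ht : T M + T M = 0 := by
      rw [← map_add, h2M, map_sub]
      have h3 : T (Pq q).1 = 0 := (Pq q).2
      have h4 : T (Pq q').1 = 0 := (Pq q').2
      rw [h3, h4, sub_zero]
    obtain ⟨s, hs2, hs⟩ := tr_tors hodd hTr ht
    have hMs : T (M - s) = 0 := by rw [map_sub, hs, sub_self]
    have hq : q = q' := by
      rw [← hPq q, ← hPq q', QuotientAddGroup.eq]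
      refine ⟨-⟨M - s, hMs⟩, Subtype.ext ?_⟩
      change (2 : ℤ) • (-(M - s)) = -(Pq q).1 + (Pq q').1
      have h7 : (2 : ℤ) • (-(M - s)) = -(M + M) + (s + s) := by
        rw [two_zsmul]; abel
      rw [h7, hs2, h2M]
      abel
    rw [hq]
  have hfin := Finite.of_injective G hG
  have hfin1 : Finite {x : Pool.Agent.TH841.NF.D.Sha W // 2 • x = 0 ∧ coS hW e x = 0} :=
    Finite.of_injective (fun x => G (x, 0)) (fun x y h => by
      have := hG h
      exact congrArg Prod.fst this)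
  have hcard := Nat.card_le_card_of_injective G hG
  rw [Nat.card_prod] at hcard
  have hq := Pool.Agent.TeamU.card_quot_two M0
  have hle : 2 ^ Module.finrank ℤ M0 ≤ Nat.card (M0 ⧸ (zsmulAddGroupHom (α := M0) 2).range) := by
    rw [hq]
    have hkf : Finite (zsmulAddGroupHom (α := M0) 2).ker := by
      by_contra hinf
      rw [not_finite_iff_infinite] at hinf
      have h0 : Nat.card (M0 ⧸ (zsmulAddGroupHom (α := M0) 2).range) = 0 := by
        rw [hq, Nat.card_eq_zero_of_infinite, mul_zero]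
      have hfinq : Finite (M0 ⧸ (zsmulAddGroupHom (α := M0) 2).range) :=
        Finite.of_injective (fun q => G (⟨0, smul_zero _, map_zero _⟩, q)) (fun x y h => by
          have := hG h
          exact congrArg Prod.snd this)
      exact Nat.card_pos.ne' h0
    exact Nat.le_mul_of_pos_right _ Nat.card_pos
  refine ⟨Module.finrank ℤ M0, ?_, hfin1, ?_⟩
  · have h4 := Submodule.finrank_quotient_add_finrank (LinearMap.ker T.toIntLinearMap)
    rw [LinearEquiv.finrank_eq (LinearMap.quotKerEquivRange T.toIntLinearMap)] at h4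
    have h5 : Module.finrank ℤ (LinearMap.range T.toIntLinearMap) ≤
        Module.finrank ℤ (MP E) := Submodule.finrank_le _
    have h6 : Module.finrank ℤ M0 = Module.finrank ℤ (LinearMap.ker T.toIntLinearMap) := rfl
    omega
  · calc 2 ^ Module.finrank ℤ M0 *
        Nat.card {x : Pool.Agent.TH841.NF.D.Sha W // 2 • x = 0 ∧ coS hW e x = 0} ≤
        Nat.card (M0 ⧸ (zsmulAddGroupHom (α := M0) 2).range) *
        Nat.card {x : Pool.Agent.TH841.NF.D.Sha W // 2 • x = 0 ∧ coS hW e x = 0} :=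
          Nat.mul_le_mul_right _ hle
      _ = Nat.card {x : Pool.Agent.TH841.NF.D.Sha W // 2 • x = 0 ∧ coS hW e x = 0} *
        Nat.card (M0 ⧸ (zsmulAddGroupHom (α := M0) 2).range) := mul_comm _ _
      _ ≤ Nat.card (kap F).range := hcard
      _ ≤ _ := hkc

/-- the torsion of exponent two of the complement -/
theorem structC (hT : IsT W A B) (hodd : Odd (Module.finrank ℚ F))
    (hcl : Odd (Nat.card (NCl F))) (hkey : KeyC hW e) :
    ∃ N : AddSubgroup (Pool.Agent.TH841.NF.D.Sha W), (∀ x ∈ N, ∃ m : ℕ, 2 ^ m • x = 0) ∧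
      Finite {x : N // 2 • x = 0} ∧
      2 ^ Pool.Agent.TH841.NF.D.rk W * Nat.card {x : N // 2 • x = 0} ≤
        2 ^ (Pool.Agent.TH841.SH.D.rk E + InfinitePlace.nrComplexPlaces F) ∧
      Nonempty (AddCommGroup.primaryComponent (Pool.Agent.TH841.NF.D.Sha W) 2 ≃+
        AddCommGroup.primaryComponent (Pool.Agent.TH841.SH.D.Sha E) 2 × N) := by
  obtain ⟨s, h1, h2, h3⟩ := countC hT hodd hcl hkey
  have hcr : ∀ y, coS hW e (rsS hW e y) = Module.finrank ℚ F • y := fun y => coS_rsS hW e y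
  let N : AddSubgroup (Pool.Agent.TH841.NF.D.Sha W) :=
    AddCommGroup.primaryComponent (Pool.Agent.TH841.NF.D.Sha W) 2 ⊓ (coS hW e).ker
  have hN : ∀ x, x ∈ N ↔ (∃ m : ℕ, 2 ^ m • x = 0) ∧ coS hW e x = 0 := fun x => Iff.rfl
  have hinj : Function.Injective (fun x : {x : N // 2 • x = 0} =>
      (⟨x.1.1, by
        have := congrArg Subtype.val x.2
        exact this, x.1.2.2⟩ :
        {x : Pool.Agent.TH841.NF.D.Sha W // 2 • x = 0 ∧ coS hW e x = 0})) := by
    intro x y h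
    exact Subtype.ext (Subtype.ext (congrArg (fun z : {x : Pool.Agent.TH841.NF.D.Sha W //
      2 • x = 0 ∧ coS hW e x = 0} => z.1) h))
  refine ⟨N, fun x hx => ((hN x).1 hx).1, Finite.of_injective _ hinj, ?_,
    Pool.Agent.R432.split (coS hW e) (rsS hW e) hodd hcr N hN⟩
  have h4 := Nat.card_le_card_of_injective _ hinj
  rw [Pool.Agent.R432.rkN, Pool.Agent.R432.rkQ]
  calc 2 ^ Module.finrank ℤ (MP W) * Nat.card {x : N // 2 • x = 0} ≤
      2 ^ (Module.finrank ℤ (MP E) + s) *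
        Nat.card {x : Pool.Agent.TH841.NF.D.Sha W // 2 • x = 0 ∧ coS hW e x = 0} :=
        Nat.mul_le_mul (Nat.pow_le_pow_right (by norm_num) h1) h4
    _ = 2 ^ Module.finrank ℤ (MP E) * (2 ^ s *
        Nat.card {x : Pool.Agent.TH841.NF.D.Sha W // 2 • x = 0 ∧ coS hW e x = 0}) := by
        rw [pow_add, mul_assoc]
    _ ≤ 2 ^ Module.finrank ℤ (MP E) * 2 ^ InfinitePlace.nrComplexPlaces F :=
        Nat.mul_le_mul_left _ h3
    _ = _ := by rw [pow_add]

end

end Pool.Agent.R432.CX
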