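import Pool.Agent.R432.CX3
import Pool.Agent.Y682.StabH

/-!
# The rank and the two-primary part over fields of odd degree with complex places
-/

set_option autoImplicit false
set_option linter.unusedSectionVars false

attribute [-instance] DivisionRing.toRatAlgebra

open NumberField IsDedekindDomain

namespace Pool.Agent.R432.CX

open WeierstrassCurve

open Pool.Agent.Y682

open Pool.Agent.TH841.NF

/-- the conclusion -/
def Con (F : Type) [Field F] [NumberField F] (A B : ℤ) : Prop :=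
  ∃ N : AddSubgroup (Pool.Agent.TH841.NF.D.Sha (gc A B F)), (∀ x ∈ N, ∃ m : ℕ, 2 ^ m • x = 0) ∧
    Finite {x : N // 2 • x = 0} ∧
    2 ^ Pool.Agent.TH841.NF.D.rk (gc A B F) * Nat.card {x : N // 2 • x = 0} ≤
      2 ^ (Pool.Agent.TH841.SH.D.rk (gc A B ℚ) + InfinitePlace.nrComplexPlaces F) ∧
    Nonempty (AddCommGroup.primaryComponent (Pool.Agent.TH841.NF.D.Sha (gc A B F)) 2 ≃+
      AddCommGroup.primaryComponent (Pool.Agent.TH841.SH.D.Sha (gc A B ℚ)) 2 × N)

/-- the curves with a rational point of order two, at fields with `2` inert -/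
theorem stabHC {F : Type} [Field F] [NumberField F] [Algebra ℚ F] {A B : ℤ} (hB : B ≠ 0) (hD : A ^ 2 ≠ 4 * B)
    (hred : ¬ (4 ∣ A ∧ 16 ∣ B))
    (htype : (0 < B ∧ (A < 0 ∨ A ^ 2 < 4 * B)) ↔ (¬ 2 ∣ A ∨ ¬ 4 ∣ (A / 2) ^ 2 - B))
    (h3 : 3 ∣ Module.finrank ℚ F →
      ¬ (A % 4 = 3 ∧ 2 ≤ B % 4) ∧ ¬ (A % 8 = 2 ∧ 8 ≤ ((A / 2) ^ 2 - B) % 16))
    (hp2 : (Ideal.span {(2 : 𝓞 F)}).IsPrime)
    (hcl : Odd (Nat.card (NCl F))) (hodd : Odd (Module.finrank ℚ F))
    (hbad : ∀ p : ℕ, p.Prime → (p : ℤ) ∣ B * (A ^ 2 - 4 * B) → BadOK F A B p) :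
    Con F A B := by
  obtain ⟨e⟩ := exists_e F
  have hD0 : A ^ 2 - 4 * B ≠ 0 := sub_ne_zero.2 hD
  have hv := place_casesC hB hD0 hbad
  by_cases h2 : ¬ 2 ∣ A ∨ ¬ 4 ∣ (A / 2) ^ 2 - B
  · obtain ⟨hB0, hA⟩ := htype.2 h2
    have hpair := pair_inertC hB0 hA (F := F) (by
      rcases Int.emod_two_eq_zero_or_one A with h | h
      · right
        refine ⟨h, ?_⟩
        rcases h2 with h2 | h2
        · exact absurd (Int.dvd_of_emod_eq_zero h) h2
        · intro h4
          exact h2 (Int.dvd_of_emod_eq_zero h4)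
      · exact Or.inl h) (by
        intro h4 h5 h6
        exact (h3 h6).1 ⟨h4, by omega⟩) hp2 hcl hodd hv
    have hkey : KeyC (gcC (F := F) A B) e :=
      keyI hB hD0 hodd (fun b hr => (hpair b hr).1) (fun b hr => (hpair b hr).2) e
    exact structC (gc_isT hB hD0 F) hodd hcl hkey
  · have h1 : ¬ (0 < B ∧ (A < 0 ∨ A ^ 2 < 4 * B)) := fun h => h2 (htype.1 h)
    push Not at h2
    obtain ⟨⟨s, hs⟩, h4⟩ := h2
    have hs2 : A / 2 = s := by omega
    rw [hs2] at h4 h3
    obtain ⟨c, hc⟩ := h4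
    have hB' : B = (-s) ^ 2 - 4 * c := by linear_combination -hc
    have hA' : A = -2 * (-s) := by rw [hs]; ring
    have hc0 : c ≠ 0 := by
      rintro rfl
      apply hD
      rw [hs, hB']
      ring
    have hDc : (-s) ^ 2 - 4 * c ≠ 0 := by rw [← hB']; exact hB
    -- the real places
    have hDpos : 0 < c ∧ (-s < 0 ∨ (-s) ^ 2 < 4 * c) := by
      by_cases hBp : 0 < B
      · have h5 : ¬ (A < 0 ∨ A ^ 2 < 4 * B) := fun h => h1 ⟨hBp, h⟩
        push Not at h5
        obtain ⟨h6, h7⟩ := h5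
        have h8 : 4 * B < A ^ 2 := lt_of_le_of_ne h7 (Ne.symm hD)
        have h9 : A ≠ 0 := by
          rintro rfl
          nlinarith
        refine ⟨?_, Or.inl ?_⟩
        · rw [hs, hB'] at h8
          nlinarith
        · omega
      · have h5 : B < 0 := lt_of_le_of_ne (not_lt.1 hBp) hB
        refine ⟨?_, Or.inr ?_⟩
        · nlinarith [sq_nonneg s]
        · linarith
    have hv' : ∀ v : HeightOneSpectrum (𝓞 F), (Un v ∨ Tw v ((-s : ℤ) : F) (c : F)) ∨
        (v.valuation F (c : F) = 1 ∧ v.valuation F (((-s) ^ 2 - 4 * c : ℤ) : F) = 1) := by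
      intro v
      have h5 := hv v
      rw [hA', hB'] at h5
      rcases h5 with (h5 | h5) | ⟨h5, h6⟩
      · exact Or.inl (Or.inl h5)
      · exact Or.inl (Or.inr h5.dual_int)
      · refine Or.inr ⟨?_, h5⟩
        have e1 : (-2 * (-s)) ^ 2 - 4 * ((-s) ^ 2 - 4 * c) = 16 * c := by ring
        rw [e1] at h6
        exact val_one_of_mul h6
    have hpair := pair_inertC (A := -s) (B := c) hDpos.1 hDpos.2 (F := F) (by
      rcases Int.emod_two_eq_zero_or_one s with h | h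
      · right
        refine ⟨by omega, ?_⟩
        intro h5
        apply hred
        obtain ⟨t, ht⟩ := Int.dvd_of_emod_eq_zero h
        have h6 : (-s) / 2 = -t := by omega
        rw [h6] at h5
        obtain ⟨q, hq⟩ := Int.dvd_of_emod_eq_zero h5
        constructor
        · exact ⟨t, by rw [hs, ht]; ring⟩
        · refine ⟨q, ?_⟩
          rw [hB', ht]
          linear_combination 4 * hq
      · left
        omega) (by
        intro h5 h6 h7
        refine (h3 h7).2 ⟨by omega, ?_⟩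
        rw [hc]
        omega) hp2 hcl hodd hv'
    have hD' : (-2 * (-s)) ^ 2 - 4 * ((-s) ^ 2 - 4 * c) ≠ 0 := by
      have : (-2 * (-s)) ^ 2 - 4 * ((-s) ^ 2 - 4 * c) = 16 * c := by ring
      rw [this]
      exact mul_ne_zero (by norm_num) hc0
    have hkey : KeyC (gcC (F := F) (-2 * (-s)) ((-s) ^ 2 - 4 * c)) e :=
      keyII hDc hD' hodd (fun b hr hL => (hpair b hr).2 (L1_dualC hL))
        (fun b hr hL => (hpair b hr).1 (L2_dualC hL)) e
    have := structC (gc_isT (A := -2 * (-s)) (B := (-s) ^ 2 - 4 * c) hDc hD' F) hodd hcl hkey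
    rw [← hA', ← hB'] at this
    exact this

/-- the curves `y² = x³ + a x² + 16 c x` and the isogenous ones -/
theorem stabOC {F : Type} [Field F] [NumberField F] [Algebra ℚ F] {a c A B : ℤ} (ha : a % 4 = 1) (hc : 0 < c)
    (hac : a < 0 ∨ a ^ 2 < 64 * c) (hD : a ^ 2 ≠ 64 * c)
    (hAB : (A = a ∧ B = 16 * c) ∨ (A = -2 * a ∧ B = a ^ 2 - 64 * c))
    (hcl : Odd (Nat.card (NCl F))) (hodd : Odd (Module.finrank ℚ F))
    (hbad : ∀ p : ℕ, p.Prime → (p : ℤ) ∣ c * (a ^ 2 - 64 * c) → BadOK' F a c p) :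
    Con F A B := by
  obtain ⟨e⟩ := exists_e F
  obtain ⟨k, hk⟩ : ∃ k : ℤ, a = 1 + 4 * k := ⟨a / 4, by omega⟩
  have hD0 : a ^ 2 - 64 * c ≠ 0 := sub_ne_zero.2 hD
  have hD1 : (1 + 4 * k) ^ 2 - 4 * (16 * c) ≠ 0 := by
    rw [← hk]
    intro h
    apply hD0
    linear_combination h
  have hat : ∀ p : ℕ, p.Prime → BadOK' F a c p → ∀ v : HeightOneSpectrum (𝓞 F),
      (p : 𝓞 F) ∈ v.asIdeal → Un v ∨ Tw v ((1 + 4 * k : ℤ) : F) ((16 * c : ℤ) : F) := by
    intro p hp h v hv
    rcases h with h | ⟨h2, d, α, γ, hd, hA, hB, h⟩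
    · exact Or.inl ⟨p, hp, hv, fun w hw => (h v w hv hw).symm⟩
    · rw [hk] at hA
      exact Or.inr (Tw.of_int' (two_notMemC hp h2 hv) hd hA hB (fun x => (h v hv x).1)
        fun x => (h v hv x).2)
  have hv : ∀ v : HeightOneSpectrum (𝓞 F),
      (Un v ∨ Tw v ((1 + 4 * k : ℤ) : F) ((16 * c : ℤ) : F)) ∨
      (v.valuation F (c : F) = 1 ∧
        v.valuation F (((1 + 4 * k) ^ 2 - 4 * (16 * c) : ℤ) : F) = 1) := by
    intro v
    by_cases h1 : v.valuation F (c : F) = 1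
    · by_cases h2 : v.valuation F (((1 + 4 * k) ^ 2 - 4 * (16 * c) : ℤ) : F) = 1
      · exact Or.inr ⟨h1, h2⟩
      · obtain ⟨p, hp, hpc, hpv⟩ := exists_prime v _ hD1 h2
        refine Or.inl (hat p hp (hbad p hp ?_) v hpv)
        refine hpc.trans ⟨c, ?_⟩
        rw [hk]; ring
    · obtain ⟨p, hp, hpc, hpv⟩ := exists_prime v _ hc.ne' h1
      exact Or.inl (hat p hp (hbad p hp (hpc.mul_right _)) v hpv)
  have hpair := pair_ordC hc (by
    rcases hac with h | h
    · left; rw [← hk]; exact h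
    · right; rw [← hk]; linarith) hcl hodd hv
  have h16 : (16 * c : ℤ) ≠ 0 := mul_ne_zero (by norm_num) hc.ne'
  rcases hAB with ⟨hA, hB⟩ | ⟨hA, hB⟩
  · have hkey : KeyC (gcC (F := F) (1 + 4 * k) (16 * c)) e :=
      keyI h16 hD1 hodd (fun b hr => (hpair b hr).1) (fun b hr => (hpair b hr).2) e
    have := structC (gc_isT h16 hD1 F) hodd hcl hkey
    rw [← hk, ← hA, ← hB] at this
    exact this
  · have hD' : (-2 * (1 + 4 * k)) ^ 2 - 4 * ((1 + 4 * k) ^ 2 - 4 * (16 * c)) ≠ 0 := by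
      have : (-2 * (1 + 4 * k)) ^ 2 - 4 * ((1 + 4 * k) ^ 2 - 4 * (16 * c)) = 16 * (16 * c) := by
        ring
      rw [this]
      exact mul_ne_zero (by norm_num) h16
    have hkey : KeyC (gcC (F := F) (-2 * (1 + 4 * k)) ((1 + 4 * k) ^ 2 - 4 * (16 * c))) e :=
      keyII hD1 hD' hodd (fun b hr hL => (hpair b hr).2 (L1_dualC hL))
        (fun b hr hL => (hpair b hr).1 (L2_dualC hL)) e
    have h5 := structC (gc_isT hD1 hD' F) hodd hcl hkey
    have e1 : -2 * (1 + 4 * k) = A := by rw [hA, hk]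
    have e2 : (1 + 4 * k) ^ 2 - 4 * (16 * c) = B := by rw [hB, hk]; ring
    rw [e1, e2] at h5
    exact h5

/-- the rank grows at most by the number of the complex places -/
lemma Con.rank_le {F : Type} [Field F] [NumberField F] {A B : ℤ} (h : Con F A B) :
    Pool.Agent.TH841.NF.D.rk (gc A B F) ≤
      Pool.Agent.TH841.SH.D.rk (gc A B ℚ) + InfinitePlace.nrComplexPlaces F := by
  obtain ⟨N, -, hf, h1, -⟩ := h
  have : Nonempty {x : N // 2 • x = 0} := ⟨⟨0, smul_zero _⟩⟩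
  have h2 : 1 ≤ Nat.card {x : N // 2 • x = 0} := Nat.card_pos
  exact (Nat.pow_le_pow_iff_right (a := 2) (by norm_num)).1
    ((Nat.le_mul_of_pos_right _ h2).trans h1)

/-- in the extreme case the two-primary part does not change -/
lemma Con.extreme {F : Type} [Field F] [NumberField F] {A B : ℤ} (h : Con F A B)
    (hr : Pool.Agent.TH841.SH.D.rk (gc A B ℚ) + InfinitePlace.nrComplexPlaces F ≤
      Pool.Agent.TH841.NF.D.rk (gc A B F)) :
    Nonempty (AddCommGroup.primaryComponent (Pool.Agent.TH841.NF.D.Sha (gc A B F)) 2 ≃+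
      AddCommGroup.primaryComponent (Pool.Agent.TH841.SH.D.Sha (gc A B ℚ)) 2) := by
  have hr' := le_antisymm h.rank_le hr
  obtain ⟨N, hN, hf, h1, ⟨φ⟩⟩ := h
  rw [hr'] at h1
  have h2 : Nat.card {x : N // 2 • x = 0} ≤ 1 := by
    have h3 : 0 < 2 ^ (Pool.Agent.TH841.SH.D.rk (gc A B ℚ) + InfinitePlace.nrComplexPlaces F) := by
      positivity
    exact Nat.le_of_mul_le_mul_left (by rw [mul_one]; exact h1) h3
  have h3 : ∀ x : N, 2 • x = 0 → x = 0 := by
    intro x hx
    have := Finite.card_le_one_iff_subsingleton.1 h2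
    exact congrArg Subtype.val (Subsingleton.elim (⟨x, hx⟩ : {x : N // 2 • x = 0})
      ⟨0, smul_zero _⟩)
  have h4 : ∀ m : ℕ, ∀ x : N, 2 ^ m • x = 0 → x = 0 := by
    intro m
    induction m with
    | zero => intro x hx; simpa using hx
    | succ m ih =>
      intro x hx
      rw [pow_succ', mul_smul] at hx
      exact ih x (h3 _ hx)
  have h5 : ∀ x : N, x = 0 := by
    intro x
    obtain ⟨m, hm⟩ := hN x.1 x.2
    exact h4 m x (Subtype.ext hm)
  exact ⟨φ.trans
    { toFun := fun x => x.1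
      invFun := fun x => (x, 0)
      left_inv := fun x => Prod.ext rfl (h5 _).symm
      right_inv := fun x => rfl
      map_add' := fun x y => rfl }⟩

end Pool.Agent.R432.CX
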