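import Pool.Agent.R432.CX4

/-!
# The cubic field `ℚ(α)`, `α ^ 3 = α + 1`
-/

set_option autoImplicit false
set_option linter.unusedSectionVars false

open NumberField IsDedekindDomain Polynomial

namespace Pool.Agent.R432.CX

open Pool.Agent.Y682 (NCl nPrin)

/-- the polynomial -/
noncomputable def fp (R : Type) [CommRing R] : R[X] := X ^ 3 - X - 1

lemma fp_monic (R : Type) [CommRing R] [Nontrivial R] : (fp R).Monic := by
  unfold fp
  monicity!

lemma fp_deg (R : Type) [CommRing R] [Nontrivial R] : (fp R).natDegree = 3 := by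
  unfold fp
  compute_degree!

lemma fp_map {R S : Type} [CommRing R] [CommRing S] (g : R →+* S) : (fp R).map g = fp S := by
  unfold fp
  simp

lemma fp_irr2 : Irreducible (fp (ZMod 2)) := by
  rw [(fp_monic (ZMod 2)).irreducible_iff_roots_eq_zero_of_degree_le_three (by rw [fp_deg]; norm_num)
    (by rw [fp_deg])]
  rw [Multiset.eq_zero_iff_forall_notMem]
  intro θ hθ
  rw [mem_roots (fp_monic _).ne_zero, IsRoot.def, fp] at hθ
  simp only [eval_sub, eval_pow, eval_X, eval_one] at hθ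
  revert θ
  decide

lemma fp_irrZ : Irreducible (fp ℤ) := by
  apply (fp_monic ℤ).irreducible_of_irreducible_map (Int.castRingHom (ZMod 2))
  rw [fp_map]
  exact fp_irr2

lemma fp_irrQ : Irreducible (fp ℚ) := by
  have := ((fp_monic ℤ).irreducible_iff_irreducible_map_fraction_map (K := ℚ)).1 fp_irrZ
  rwa [fp_map] at this

variable {K : Type} [Field K] [NumberField K] {α : K}

lemma minp (hα : α ^ 3 = α + 1) : minpoly ℚ α = fp ℚ := by
  symm
  apply minpoly.eq_of_irreducible_of_monic fp_irrQ _ (fp_monic ℚ)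
  unfold fp
  simp only [map_sub, map_pow, aeval_X, map_one]
  linear_combination hα

/-- the basis of the powers -/
noncomputable def pbas (hα : α ^ 3 = α + 1) (hd : Module.finrank ℚ K = 3) :
    Module.Basis (Fin 3) ℚ K :=
  basisOfLinearIndependentOfCardEqFinrank (b := fun i : Fin 3 => α ^ (i : ℕ)) (by
    have h := linearIndependent_pow (K := ℚ) α
    rw [minp hα, fp_deg] at h
    exact h) (by rw [hd]; simp)

lemma pbas_apply (hα : α ^ 3 = α + 1) (hd : Module.finrank ℚ K = 3) (i : Fin 3) :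
    pbas hα hd i = α ^ (i : ℕ) := by
  unfold pbas
  rw [coe_basisOfLinearIndependentOfCardEqFinrank]

lemma lmm (hα : α ^ 3 = α + 1) (hd : Module.finrank ℚ K = 3) :
    Algebra.leftMulMatrix (pbas hα hd) α = !![0, 0, 1; 1, 0, 1; 0, 1, 0] := by
  have h0 : pbas hα hd 0 = 1 := by rw [pbas_apply]; simp
  have h1 : pbas hα hd 1 = α := by rw [pbas_apply]; simp
  have h2 : pbas hα hd 2 = α ^ 2 := by rw [pbas_apply]; simp
  have e0 : α * pbas hα hd 0 = pbas hα hd 1 := by rw [h0, h1, mul_one]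
  have e1 : α * pbas hα hd 1 = pbas hα hd 2 := by rw [h1, h2, sq]
  have e2 : α * pbas hα hd 2 = pbas hα hd 0 + pbas hα hd 1 := by
    rw [h0, h1, h2]
    linear_combination hα
  ext i j
  rw [Algebra.leftMulMatrix_eq_repr_mul]
  fin_cases j
  · change (pbas hα hd).repr (α * pbas hα hd 0) i = _
    rw [e0, Module.Basis.repr_self]
    fin_cases i <;> simp
  · change (pbas hα hd).repr (α * pbas hα hd 1) i = _
    rw [e1, Module.Basis.repr_self]
    fin_cases i <;> simp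
  · change (pbas hα hd).repr (α * pbas hα hd 2) i = _
    rw [e2, map_add, Module.Basis.repr_self, Module.Basis.repr_self]
    fin_cases i <;> simp

lemma tr_pow (hα : α ^ 3 = α + 1) (hd : Module.finrank ℚ K = 3) (n : ℕ) :
    Algebra.trace ℚ K (α ^ n) =
      Matrix.trace ((!![0, 0, 1; 1, 0, 1; 0, 1, 0] : Matrix (Fin 3) (Fin 3) ℚ) ^ n) := by
  rw [Algebra.trace_eq_matrix_trace (pbas hα hd), map_pow, lmm]

lemma tr0 (hα : α ^ 3 = α + 1) (hd : Module.finrank ℚ K = 3) :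
    Algebra.trace ℚ K (α ^ 0) = 3 := by
  rw [tr_pow hα hd, pow_zero, Matrix.trace_one]
  simp

lemma tr1 (hα : α ^ 3 = α + 1) (hd : Module.finrank ℚ K = 3) :
    Algebra.trace ℚ K (α ^ 1) = 0 := by
  rw [tr_pow hα hd, pow_one, Matrix.trace_fin_three]
  simp

lemma tr2 (hα : α ^ 3 = α + 1) (hd : Module.finrank ℚ K = 3) :
    Algebra.trace ℚ K (α ^ 2) = 2 := by
  rw [tr_pow hα hd, sq, Matrix.trace_fin_three]
  simp [Matrix.mul_apply, Fin.sum_univ_three]
  norm_num

lemma tr3 (hα : α ^ 3 = α + 1) (hd : Module.finrank ℚ K = 3) :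
    Algebra.trace ℚ K (α ^ 3) = 3 := by
  have h1 := tr1 hα hd
  have h0 := tr0 hα hd
  rw [pow_one] at h1
  rw [pow_zero] at h0
  rw [hα, map_add, h1, h0]
  norm_num

lemma tr4 (hα : α ^ 3 = α + 1) (hd : Module.finrank ℚ K = 3) :
    Algebra.trace ℚ K (α ^ 4) = 2 := by
  have h1 := tr1 hα hd
  have h2 := tr2 hα hd
  rw [pow_one] at h1
  have e : α ^ 4 = α ^ 2 + α := by linear_combination α * hα
  rw [e, map_add, h1, h2]
  norm_num

/-- the integer -/
noncomputable def aI (hα : α ^ 3 = α + 1) : 𝓞 K :=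
  ⟨α, ⟨fp ℤ, fp_monic ℤ, by
    unfold fp
    simp only [eval₂_sub, eval₂_pow, eval₂_X, eval₂_one]
    linear_combination hα⟩⟩

lemma aI_coe (hα : α ^ 3 = α + 1) : ((aI hα : 𝓞 K) : K) = α := rfl

lemma aI_pow (hα : α ^ 3 = α + 1) (n : ℕ) : ((aI hα ^ n : 𝓞 K) : K) = α ^ n := by
  change algebraMap (𝓞 K) K (aI hα ^ n) = _
  rw [map_pow]
  rfl

lemma aI_cube (hα : α ^ 3 = α + 1) : (aI hα) ^ 3 = aI hα + 1 := by
  apply RingOfIntegers.ext
  rw [aI_pow, hα]
  change α + 1 = algebraMap (𝓞 K) K (aI hα + 1)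
  rw [map_add, map_one]
  rfl

lemma trI (hα : α ^ 3 = α + 1) (hd : Module.finrank ℚ K = 3) (n : ℕ) {t : ℤ}
    (ht : Algebra.trace ℚ K (α ^ n) = t) : Algebra.trace ℤ (𝓞 K) (aI hα ^ n) = t := by
  have h1 : ((Algebra.trace ℤ (𝓞 K) (aI hα ^ n) : ℤ) : ℚ) = t := by
    rw [Algebra.coe_trace_int, aI_pow, ht]
  exact_mod_cast h1

lemma discr_pow (hα : α ^ 3 = α + 1) (hd : Module.finrank ℚ K = 3) :
    Algebra.discr ℤ (fun i : Fin 3 => aI hα ^ (i : ℕ)) = -23 := by
  have t0 := trI hα hd 0 (t := 3) (by rw [tr0 hα hd]; norm_num)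
  have t1 := trI hα hd 1 (t := 0) (by rw [tr1 hα hd]; norm_num)
  have t2 := trI hα hd 2 (t := 2) (by rw [tr2 hα hd]; norm_num)
  have t3 := trI hα hd 3 (t := 3) (by rw [tr3 hα hd]; norm_num)
  have t4 := trI hα hd 4 (t := 2) (by rw [tr4 hα hd]; norm_num)
  rw [Algebra.discr_def, Matrix.det_fin_three]
  simp only [Algebra.traceMatrix_apply, Algebra.traceForm_apply, ← pow_add]
  rw [pow_zero] at t0
  rw [pow_one] at t1
  norm_num [t0, t1, t2, t3, t4]

lemma discr_dvd (hα : α ^ 3 = α + 1) (hd : Module.finrank ℚ K = 3) : ∃ P : ℤ,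
    -23 = P ^ 2 * discr K := by
  have hr : Module.finrank ℤ (𝓞 K) = 3 := by rw [RingOfIntegers.rank, hd]
  let b : Module.Basis (Fin 3) ℤ (𝓞 K) := Module.finBasisOfFinrankEq ℤ (𝓞 K) hr
  let P : Matrix (Fin 3) (Fin 3) ℤ := fun i j => b.repr (aI hα ^ (i : ℕ)) j
  refine ⟨P.det, ?_⟩
  rw [← discr_eq_discr K b, ← Algebra.discr_of_matrix_mulVec, ← discr_pow hα hd]
  congr 1
  funext i
  have h1 := b.sum_repr (aI hα ^ (i : ℕ))
  rw [← h1, Matrix.mulVec, dotProduct]
  refine Finset.sum_congr rfl fun j _ => ?_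
  rw [Matrix.map_apply, Algebra.smul_def]

lemma discr_le (hα : α ^ 3 = α + 1) (hd : Module.finrank ℚ K = 3) : |discr K| ≤ 23 := by
  obtain ⟨P, hP⟩ := discr_dvd hα hd
  have h1 : discr K ∣ 23 := ⟨-P ^ 2, by linear_combination -hP⟩
  have h2 := Int.natAbs_dvd_natAbs.2 h1
  have h3 := Nat.le_of_dvd (by norm_num) h2
  rw [Int.abs_eq_natAbs]
  exact_mod_cast h3

end Pool.Agent.R432.CX
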