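import Pool.Agent.R432.CX5

/-!
# The cubic field `ℚ(α)`, `α ^ 3 = α + 1`: places, class number, the primes above two and three
-/

set_option autoImplicit false
set_option linter.unusedSectionVars false

open NumberField IsDedekindDomain Polynomial InfinitePlace

open scoped nonZeroDivisors

namespace Pool.Agent.R432.CX

open Pool.Agent.Y682 (NCl nPrin TotPos)

lemma root_unique {x y : ℝ} (hx : x ^ 3 = x + 1) (hy : y ^ 3 = y + 1) : x = y := by
  by_contra h
  have h1 : (x - y) * (x ^ 2 + x * y + y ^ 2 - 1) = 0 := by linear_combination hx - hy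
  have h2 : x ^ 2 + x * y + y ^ 2 - 1 = 0 := by
    rcases mul_eq_zero.1 h1 with h3 | h3
    · exact absurd (sub_eq_zero.1 h3) h
    · exact h3
  have h3 : 3 * x ^ 2 ≤ 4 := by nlinarith [sq_nonneg (x + 2 * y)]
  rcases le_or_gt x 0 with h0 | h0
  · have h4 : x ≤ -1 := by
      have h5 : 1 = -x * (1 - x ^ 2) := by linear_combination -hx
      have h6 : -x * (1 - x ^ 2) ≤ -x * 1 :=
        mul_le_mul_of_nonneg_left (by nlinarith [sq_nonneg x]) (by linarith)
      linarith
    have h5 : 0 ≤ x ^ 2 - 1 := by nlinarith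
    have h6 : x * (x ^ 2 - 1) ≤ 0 := mul_nonpos_of_nonpos_of_nonneg (by linarith) h5
    have h7 : x * (x ^ 2 - 1) = 1 := by linear_combination hx
    linarith
  · have h4 : x * (x ^ 2 - 1) ≤ x * (1 / 3) := mul_le_mul_of_nonneg_left (by linarith) h0.le
    have h7 : x * (x ^ 2 - 1) = 1 := by linear_combination hx
    nlinarith

variable {K : Type} [Field K] [NumberField K] {α : K}

lemma emb_sub (hα : α ^ 3 = α + 1) (hd : Module.finrank ℚ K = 3) : Subsingleton (K →+* ℝ) := by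
  constructor
  intro φ ψ
  have h1 : φ α = ψ α := by
    apply root_unique
    · rw [← map_pow, hα, map_add, map_one]
    · rw [← map_pow, hα, map_add, map_one]
  have h2 : φ.toRatAlgHom.toLinearMap = ψ.toRatAlgHom.toLinearMap := by
    apply (pbas hα hd).ext
    intro i
    rw [pbas_apply]
    change φ (α ^ (i : ℕ)) = ψ (α ^ (i : ℕ))
    rw [map_pow, map_pow, h1]
  exact RingHom.ext fun x => LinearMap.congr_fun h2 x

lemma nr_places (hα : α ^ 3 = α + 1) (hd : Module.finrank ℚ K = 3) :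
    nrRealPlaces K = 1 ∧ nrComplexPlaces K = 1 := by
  have h1 := card_add_two_mul_card_eq_rank K
  rw [hd] at h1
  have h2 : nrRealPlaces K ≤ 1 := by
    rw [← card_emb]
    have := emb_sub hα hd
    exact Finite.card_le_one_iff_subsingleton.2 this
  omega

lemma pid (hα : α ^ 3 = α + 1) (hd : Module.finrank ℚ K = 3) : IsPrincipalIdealRing (𝓞 K) := by
  apply RingOfIntegers.isPrincipalIdealRing_of_abs_discr_lt
  rw [(nr_places hα hd).2, hd]
  have h1 : (|discr K| : ℝ) ≤ 23 := by exact_mod_cast discr_le hα hd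
  have h2 : (3 : ℝ) < Real.pi := Real.pi_gt_three
  have h3 : (6.75 : ℝ) < 2 * (Real.pi / 4) ^ 1 * (((3 : ℕ) : ℝ) ^ 3 / ((Nat.factorial 3 : ℕ) : ℝ)) := by
    rw [pow_one]
    have h4 : ((Nat.factorial 3 : ℕ) : ℝ) = 6 := by norm_num [Nat.factorial]
    rw [h4]
    norm_num
    linarith
  have h5 : (6.75 : ℝ) ^ 2 < (2 * (Real.pi / 4) ^ 1 *
      (((3 : ℕ) : ℝ) ^ 3 / ((Nat.factorial 3 : ℕ) : ℝ))) ^ 2 :=
    pow_lt_pow_left₀ h3 (by norm_num) two_ne_zero
  have h6 : (23 : ℝ) < (6.75 : ℝ) ^ 2 := by norm_num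
  calc ((|discr K| : ℤ) : ℝ) ≤ 23 := by exact_mod_cast discr_le hα hd
    _ < _ := h6.trans h5

lemma card_NCl (hα : α ^ 3 = α + 1) (hd : Module.finrank ℚ K = 3) : Nat.card (NCl K) = 1 := by
  have hp := pid hα hd
  have hs := emb_sub hα hd
  have key : ∀ I : (FractionalIdeal (𝓞 K)⁰ K)ˣ, I ∈ nPrin K := by
    intro I
    have h1 := FractionalIdeal.eq_spanSingleton_of_principal (I : FractionalIdeal (𝓞 K)⁰ K)
    obtain ⟨x, hx⟩ : I ∈ (toPrincipalIdeal (𝓞 K) K).range := mem_principal_ideals_iff.2 ⟨_, h1.symm⟩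
    by_cases hpos : TotPos (x : K)
    · exact ⟨x, hpos, hx⟩
    · refine ⟨-x, ?_, ?_⟩
      · intro φ
        unfold TotPos at hpos
        push Not at hpos
        obtain ⟨ψ, hψ⟩ := hpos
        rw [Subsingleton.elim φ ψ, Units.val_neg, map_neg]
        have h2 : ψ (x : K) ≠ 0 := (map_ne_zero ψ).2 x.ne_zero
        have h3 := lt_of_le_of_ne hψ h2
        linarith
      · rw [toPrincipalIdeal_eq_iff] at hx ⊢
        rw [← hx, Units.val_neg]
        apply FractionalIdeal.coeToSubmodule_injective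
        beta_reduce
        rw [FractionalIdeal.coe_spanSingleton, FractionalIdeal.coe_spanSingleton]
        rw [← Set.neg_singleton, Submodule.span_neg]
  have : Subsingleton (NCl K) := by
    constructor
    intro a b
    have h1 : ∀ c : NCl K, c = 1 := by
      intro c
      induction c using QuotientGroup.induction_on with
      | H I => exact (QuotientGroup.eq_one_iff I).2 (key I)
    rw [h1 a, h1 b]
  exact Nat.card_unique

/-- in a field with `2 ^ f` elements, `3 ∤ f`, the equation `θ³ = θ + 1` has no solution -/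
lemma no_root2 {k : Type} [Field k] [Finite k] (h2 : (2 : k) = 0) {f : ℕ}
    (hf : Nat.card k = 2 ^ f) (h3 : ¬ 3 ∣ f) (θ : k) : θ ^ 3 ≠ θ + 1 := by
  intro hθ
  have h8 : θ ^ 8 = θ := by
    have e : θ ^ 8 - θ = (θ ^ 3 - (θ + 1)) * (θ ^ 5 + θ ^ 3 + θ ^ 2 + θ) +
        2 * (θ ^ 3 + θ ^ 2) := by ring
    rw [hθ, sub_self, zero_mul, h2, zero_mul, add_zero] at e
    exact sub_eq_zero.1 e
  have hF : ∀ n : ℕ, θ ^ (2 ^ (3 * n)) = θ := by
    intro n
    induction n with
    | zero => simp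
    | succ n ih =>
      have e : 2 ^ (3 * (n + 1)) = 2 ^ (3 * n) * 8 := by ring
      rw [e, pow_mul, ih, h8]
  have hc : θ ^ (2 ^ f) = θ := by
    have : Fintype k := Fintype.ofFinite k
    rw [← hf, Nat.card_eq_fintype_card]
    exact FiniteField.pow_card θ
  have e : f = 3 * (f / 3) + f % 3 := by omega
  rw [e, pow_add, pow_mul, hF] at hc
  have hlt : f % 3 < 3 := Nat.mod_lt _ (by norm_num)
  have h1 : (1 : k) ≠ 0 := one_ne_zero
  have hq : θ ^ 2 = θ → False := by
    intro h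
    have h5 : θ ^ 3 = θ := by rw [pow_succ, h, ← sq, h]
    rw [h5] at hθ
    exact h1 (left_eq_add.1 hθ)
  interval_cases hh : f % 3
  · exact h3 (Nat.dvd_of_mod_eq_zero hh)
  · exact hq (by simpa using hc)
  · have h4 : θ ^ 4 = θ := by simpa using hc
    have h5 : θ ^ 4 = θ ^ 2 + θ := by linear_combination θ * hθ
    have h6 : θ ^ 2 = 0 := by
      rw [h4] at h5
      exact (right_eq_add.1 h5)
    have h7 : θ = 0 := pow_eq_zero_iff two_ne_zero |>.1 h6
    exact hq (by rw [h7]; simp)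

/-- the same in characteristic three -/
lemma no_root3 {k : Type} [Field k] [Finite k] (h3' : (3 : k) = 0) {f : ℕ}
    (hf : Nat.card k = 3 ^ f) (h3 : ¬ 3 ∣ f) (θ : k) : θ ^ 3 ≠ θ + 1 := by
  intro hθ
  have hadd : ∀ a b : k, (a + b) ^ 3 = a ^ 3 + b ^ 3 := by
    intro a b
    have e : (a + b) ^ 3 = a ^ 3 + b ^ 3 + 3 * (a ^ 2 * b + a * b ^ 2) := by ring
    rw [e, h3', zero_mul, add_zero]
  have hn : ∀ n : ℕ, (n : k) ^ 3 = n := by
    intro n
    induction n with
    | zero => simp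
    | succ n ih => rw [Nat.cast_succ, hadd, ih, one_pow]
  have hF : ∀ n : ℕ, θ ^ (3 ^ n) = θ + n := by
    intro n
    induction n with
    | zero => simp
    | succ n ih =>
      rw [pow_succ, pow_mul, ih, hadd, hθ, hn]
      push_cast
      ring
  have hc : θ ^ (3 ^ f) = θ := by
    have : Fintype k := Fintype.ofFinite k
    rw [← hf, Nat.card_eq_fintype_card]
    exact FiniteField.pow_card θ
  rw [hF] at hc
  have h0 : (f : k) = 0 := left_eq_add.1 hc.symm
  have e : f = 3 * (f / 3) + f % 3 := by omega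
  rw [e, Nat.cast_add, Nat.cast_mul, Nat.cast_ofNat, h3', zero_mul, zero_add] at h0
  have hlt : f % 3 < 3 := Nat.mod_lt _ (by norm_num)
  have h1 : (1 : k) ≠ 0 := one_ne_zero
  interval_cases hh : f % 3
  · exact h3 (Nat.dvd_of_mod_eq_zero hh)
  · rw [Nat.cast_one] at h0
    exact h1 h0
  · have e1 : (1 : k) = 3 - (2 : ℕ) := by push_cast; ring
    rw [h3', h0, sub_zero] at e1
    exact h1 e1

lemma inert_of (hα : α ^ 3 = α + 1) (hd : Module.finrank ℚ K = 3) {p : ℕ} (hp : p.Prime)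
    (hroot : ∀ (k : Type) [Field k] [Finite k], (p : k) = 0 → ∀ f : ℕ, Nat.card k = p ^ f →
      ¬ 3 ∣ f → ∀ θ : k, θ ^ 3 ≠ θ + 1)
    (v : HeightOneSpectrum (𝓞 K)) (hv : (p : 𝓞 K) ∈ v.asIdeal) :
    v.asIdeal = Ideal.span {(p : 𝓞 K)} := by
  have hle : Ideal.span {(p : 𝓞 K)} ≤ v.asIdeal := by
    rw [Ideal.span_singleton_le_iff_mem]
    exact hv
  have hN : Ideal.absNorm (Ideal.span {(p : 𝓞 K)}) = p ^ 3 := by
    rw [Ideal.absNorm_span_singleton]
    have h1 : Algebra.norm ℤ ((p : 𝓞 K)) = (p : ℤ) ^ 3 := by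
      have h2 := Algebra.norm_algebraMap (S := 𝓞 K) (p : ℤ)
      rw [RingOfIntegers.rank, hd] at h2
      rw [← h2]
      congr 1
      simp
    rw [h1, Int.natAbs_pow, Int.natAbs_natCast]
  have hdvd := Ideal.absNorm_dvd_absNorm_of_le hle
  rw [hN] at hdvd
  obtain ⟨f, hf3, hf⟩ := (Nat.dvd_prime_pow hp).1 hdvd
  have hcard : Nat.card (𝓞 K ⧸ v.asIdeal) = p ^ f := by
    rw [← hf]
    rfl
  have hmax : v.asIdeal.IsMaximal := v.isMaximal
  let _ : Field (𝓞 K ⧸ v.asIdeal) := Ideal.Quotient.field v.asIdeal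
  have hfin : Finite (𝓞 K ⧸ v.asIdeal) := by
    apply Nat.finite_of_card_ne_zero
    rw [hcard]
    exact pow_ne_zero _ hp.ne_zero
  have hp0 : ((p : ℕ) : 𝓞 K ⧸ v.asIdeal) = 0 := by
    rw [← map_natCast (Ideal.Quotient.mk v.asIdeal)]
    exact Ideal.Quotient.eq_zero_iff_mem.2 hv
  have hf0 : f ≠ 0 := by
    rintro rfl
    rw [pow_zero, Ideal.absNorm_eq_one_iff] at hf
    exact v.isPrime.ne_top hf
  have h3f : f = 3 := by
    by_contra hne
    refine hroot _ hp0 f hcard ?_ (Ideal.Quotient.mk v.asIdeal (aI hα)) ?_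
    · intro h
      have := Nat.le_of_dvd (Nat.pos_of_ne_zero hf0) h
      omega
    · rw [← map_pow, aI_cube, map_add, map_one]
  subst h3f
  obtain ⟨J, hJ⟩ := Ideal.dvd_iff_le.2 hle
  have h4 : Ideal.absNorm J = 1 := by
    have h5 := congrArg Ideal.absNorm hJ
    rw [map_mul, hN, hf] at h5
    have h6 : 0 < p ^ 3 := pow_pos hp.pos 3
    exact Nat.eq_of_mul_eq_mul_left h6 (by rw [mul_one]; exact h5.symm)
  rw [Ideal.absNorm_eq_one_iff.1 h4, Ideal.mul_top] at hJ
  exact hJ.symm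

lemma one_above (hα : α ^ 3 = α + 1) (hd : Module.finrank ℚ K = 3) {p : ℕ}
    (hp : p = 2 ∨ p = 3) (v : HeightOneSpectrum (𝓞 K)) (hv : (p : 𝓞 K) ∈ v.asIdeal) :
    v.asIdeal = Ideal.span {(p : 𝓞 K)} := by
  rcases hp with rfl | rfl
  · exact inert_of hα hd Nat.prime_two (fun k _ _ h f hf h3 θ =>
      no_root2 (by exact_mod_cast h) hf h3 θ) v hv
  · exact inert_of hα hd Nat.prime_three (fun k _ _ h f hf h3 θ =>
      no_root3 (by exact_mod_cast h) hf h3 θ) v hv

lemma two_prime (hα : α ^ 3 = α + 1) (hd : Module.finrank ℚ K = 3) :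
    (Ideal.span {(2 : 𝓞 K)}).IsPrime := by
  obtain ⟨M, hM, hle⟩ := Ideal.exists_le_maximal (Ideal.span {(2 : 𝓞 K)}) (by
    intro h
    have h1 : Ideal.absNorm (Ideal.span {(2 : 𝓞 K)}) = 1 := by rw [h]; exact Ideal.absNorm_top
    rw [Ideal.absNorm_span_singleton] at h1
    have h2 := Algebra.norm_algebraMap (S := 𝓞 K) (2 : ℤ)
    rw [RingOfIntegers.rank, hd] at h2
    have h3 : (algebraMap ℤ (𝓞 K)) 2 = 2 := by simp
    rw [h3] at h2
    rw [h2] at h1
    norm_num at h1)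
  have h2M : (2 : 𝓞 K) ∈ M := hle (Ideal.mem_span_singleton_self _)
  have hne : M ≠ ⊥ := by
    rintro rfl
    exact two_ne_zero (Ideal.mem_bot.1 h2M)
  have h := one_above hα hd (Or.inl rfl) ⟨M, hM.isPrime, hne⟩ (by exact_mod_cast h2M)
  have h' : M = Ideal.span {(2 : 𝓞 K)} := by exact_mod_cast h
  rw [← h']
  exact hM.isPrime

end Pool.Agent.R432.CX
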