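import Pool.Agent.R432.E15

/-!
# The curve `y² = x (x + 1) (x - 3)` over the rationals: the rank is zero and `Ш[2^∞] = 0`
-/

set_option autoImplicit false

namespace Pool.Agent.R432.E24

open WeierstrassCurve Pool.Agent.TH841.SH

open Pool.Agent.R432.E15 (vnorm tri val_sqf nv val_sq lift_unit sq8 vp main4 exists_F4 no_tor)

open scoped Classical

open Pool.Agent.W262.SH (QB Pt act IsCoc IsCob LocTriv shaCoc cob Sha)

variable {p : ℕ} [hp : Fact p.Prime]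

/-- the three values at the roots -/
lemma locE {d1 d2 : ℤ} (h1 : d1 ≠ 0) (h2 : d2 ≠ 0) {x y : ℚ_[p]} (hy : y ≠ 0)
    (hxy : y ^ 2 = (x + 1) * x * (x - 3)) (q1 : IsSquare ((x + 1) * d1)) (q2 : IsSquare (x * d2)) :
    ∃ r s t : ℚ_[p], r ≠ 0 ∧ s ≠ 0 ∧ t ≠ 0 ∧ (d1 : ℚ_[p]) * r ^ 2 - d2 * s ^ 2 = 1 ∧
      (d1 : ℚ_[p]) * r ^ 2 - d1 * d2 * t ^ 2 = 4 := by
  obtain ⟨R, hR⟩ := q1
  obtain ⟨S, hS⟩ := q2
  have h1' : (d1 : ℚ_[p]) ≠ 0 := by exact_mod_cast h1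
  have h2' : (d2 : ℚ_[p]) ≠ 0 := by exact_mod_cast h2
  have hp0 : (x + 1) * x * (x - 3) ≠ 0 := by rw [← hxy]; exact pow_ne_zero 2 hy
  have hx : x + 1 ≠ 0 := left_ne_zero_of_mul (left_ne_zero_of_mul hp0)
  have hx9 : x ≠ 0 := right_ne_zero_of_mul (left_ne_zero_of_mul hp0)
  have hR0 : R ≠ 0 := by
    rintro rfl
    rw [mul_zero] at hR
    exact (mul_ne_zero hx h1') hR
  have hS0 : S ≠ 0 := by
    rintro rfl
    rw [mul_zero] at hS
    exact (mul_ne_zero hx9 h2') hS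
  have e1 : (d1 : ℚ_[p]) * (R / d1) ^ 2 = x + 1 := by
    rw [div_pow, ← mul_div_assoc, div_eq_iff (pow_ne_zero 2 h1')]
    linear_combination (-(d1 : ℚ_[p])) * hR
  have e2 : (d2 : ℚ_[p]) * (S / d2) ^ 2 = x := by
    rw [div_pow, ← mul_div_assoc, div_eq_iff (pow_ne_zero 2 h2')]
    linear_combination (-(d2 : ℚ_[p])) * hS
  have e3 : (d1 : ℚ_[p]) * d2 * (y / (R * S)) ^ 2 = x - 3 := by
    rw [div_pow, ← mul_div_assoc, div_eq_iff (pow_ne_zero 2 (mul_ne_zero hR0 hS0)), hxy]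
    linear_combination ((x - 3) * ((x + 1) * d1)) * hS + (x - 3) * (S * S) * hR
  refine ⟨R / d1, S / d2, y / (R * S), div_ne_zero hR0 h1', div_ne_zero hS0 h2',
    div_ne_zero hy (mul_ne_zero hR0 hS0), ?_, ?_⟩
  · rw [e1, e2]; ring
  · rw [e1, e3]; ring

lemma dec2 : ∀ d e : ZMod 8, IsUnit d → IsUnit e → e - e * d = 2 → 2 * e - d = 1 → False := by
  decide

lemma unit8 {n : ℤ} (hn : ¬ (2 : ℤ) ∣ n) : IsUnit ((n : ℤ) : ZMod 8) := by
  have h8 : IsCoprime n 8 := by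
    have : IsCoprime n 2 := by
      rw [Int.isCoprime_iff_gcd_eq_one]
      have h2 : Prime (2 : ℤ) := Int.prime_two
      have := (h2.coprime_iff_not_dvd).2 hn
      rw [← Int.isCoprime_iff_gcd_eq_one]
      exact this.symm
    have h3 := this.pow_right (n := 3)
    norm_num at h3
    exact h3
  obtain ⟨a, b, hab⟩ := h8
  have : ((a : ℤ) : ZMod 8) * (n : ZMod 8) = 1 := by
    have h4 := congrArg (Int.cast : ℤ → ZMod 8) hab
    push_cast at h4
    have h5 : (8 : ZMod 8) = 0 := by decide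
    rw [h5, mul_zero, add_zero] at h4
    exact h4
  exact IsUnit.of_mul_eq_one_right _ this

lemma res2 {d e : ℤ} (hd : ¬ (2 : ℤ) ∣ d) (he : ¬ (2 : ℤ) ∣ e) {r s t : ℚ_[2]}
    (hr : r ≠ 0) (hs : s ≠ 0) (ht : t ≠ 0)
    (vr : r.valuation = 0) (vs : s.valuation = 0) (vt : t.valuation = 0)
    (H1 : (e : ℚ_[2]) * r ^ 2 - e * d * t ^ 2 = 2) (H2 : 2 * (e : ℚ_[2]) * r ^ 2 - d * s ^ 2 = 1) :
    False := by
  obtain ⟨r', rfl, ur⟩ := lift_unit hr vr
  obtain ⟨s', rfl, us⟩ := lift_unit hs vs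
  obtain ⟨t', rfl, ut⟩ := lift_unit ht vt
  have u1 : ∀ {u : ℤ_[2]}, IsUnit u → ((PadicInt.toZModPow 3 u : ZMod (2 ^ 3))) ^ 2 = 1 :=
    fun hu => sq8 _ (hu.map _)
  have F1 : (e : ℤ_[2]) * r' ^ 2 - e * d * t' ^ 2 = 2 := by
    apply Subtype.ext
    push_cast
    exact H1
  have F2 : 2 * (e : ℤ_[2]) * r' ^ 2 - d * s' ^ 2 = 1 := by
    apply Subtype.ext
    push_cast
    exact H2
  have G1 := congrArg (PadicInt.toZModPow 3) F1
  have G2 := congrArg (PadicInt.toZModPow 3) F2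
  simp only [map_sub, map_mul, map_pow, map_intCast, map_ofNat, u1 ur, u1 us, u1 ut,
    mul_one, map_one] at G1 G2
  exact dec2 _ _ (unit8 hd) (unit8 he) G1 G2

lemma v3 (h : p ≠ 3) : ((3 : ℚ_[p])).valuation = 0 := by
  have := nv (p := p) (n := 3) (by
    intro h'
    exact h ((Nat.prime_dvd_prime_iff_eq hp.1 Nat.prime_three).1 h'))
  exact_mod_cast this

lemma v4 (h : p ≠ 2) : ((4 : ℚ_[p])).valuation = 0 := by
  have := nv (p := p) (n := 4) (by
    intro h'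
    have h1 : p ∣ 2 ^ 2 := by norm_num; exact h'
    exact h ((Nat.prime_dvd_prime_iff_eq hp.1 Nat.prime_two).1 (hp.1.dvd_of_dvd_pow h1)))
  exact_mod_cast this

lemma key {d1 d2 : ℤ} (h1 : Squarefree d1) (h2 : Squarefree d2) {r s t : ℚ_[p]} (hr : r ≠ 0)
    (hs : s ≠ 0) (ht : t ≠ 0) (E1 : (d1 : ℚ_[p]) * r ^ 2 - d2 * s ^ 2 = 1)
    (E2 : (d1 : ℚ_[p]) * r ^ 2 - d1 * d2 * t ^ 2 = 4) :
    ¬ (p : ℤ) ∣ d1 ∧ (p ≠ 3 → ¬ (p : ℤ) ∣ d2) := by
  have h1' : (d1 : ℚ_[p]) ≠ 0 := by exact_mod_cast h1.ne_zero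
  have h2' : (d2 : ℚ_[p]) ≠ 0 := by exact_mod_cast h2.ne_zero
  have E3 : (d2 : ℚ_[p]) * s ^ 2 - d1 * d2 * t ^ 2 = 3 := by linear_combination E2 - E1
  have nz : ∀ {a b : ℚ_[p]}, a ≠ 0 → b ≠ 0 → a * b ^ 2 ≠ 0 :=
    fun ha hb => mul_ne_zero ha (pow_ne_zero 2 hb)
  have c3 : (3 : ℚ_[p]) ≠ 0 := three_ne_zero
  have c4 : (4 : ℚ_[p]) ≠ 0 := by norm_num
  have T1 := tri (nz h1' hr) (nz h2' hs) one_ne_zero E1
  have T2 := tri (nz h1' hr) (nz (mul_ne_zero h1' h2') ht) c4 E2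
  have T3 := tri (nz h2' hs) (nz (mul_ne_zero h1' h2') ht) c3 E3
  rw [val_sq h1' hr, val_sq h2' hs, Padic.valuation_one] at T1
  rw [val_sq h1' hr, val_sq (mul_ne_zero h1' h2') ht, Padic.valuation_mul h1' h2'] at T2
  rw [val_sq h2' hs, val_sq (mul_ne_zero h1' h2') ht, Padic.valuation_mul h1' h2'] at T3
  by_cases p2 : p = 2
  · subst p2
    have w3 := v3 (p := 2) (by norm_num)
    have w4 : ((4 : ℚ_[2])).valuation = 2 := by
      have h := vp (p := 2) 2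
      have h' : (4 : ℚ_[2]) = ((2 ^ 2 : ℕ) : ℚ_[2]) := by norm_num
      rw [h', h]
      norm_num
    rw [w4] at T2
    rw [w3] at T3
    rcases val_sqf (p := 2) h1 with ⟨a1, b1⟩ | ⟨a1, b1⟩
    · rcases val_sqf (p := 2) h2 with ⟨a2, b2⟩ | ⟨a2, b2⟩
      · exact ⟨b1, fun _ => b2⟩
      · exfalso
        rw [a1, a2] at T1 T2 T3
        omega
    · exfalso
      rcases val_sqf (p := 2) h2 with ⟨a2, b2⟩ | ⟨a2, b2⟩
      · rw [a1, a2] at T1 T2 T3
        obtain ⟨e, rfl⟩ := b1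
        have he : ¬ (2 : ℤ) ∣ e := by
          rintro ⟨f, rfl⟩
          have := h1 2 ⟨f, by push_cast; ring⟩
          exact absurd this (by decide)
        have ar : r.valuation = 0 := by omega
        have as : s.valuation = 0 := by omega
        have at' : t.valuation = 0 := by omega
        refine res2 b2 he hr hs ht ar as at' ?_ ?_
        · push_cast at E2
          have h2 : (2 : ℚ_[2]) ≠ 0 := two_ne_zero
          apply mul_left_cancel₀ h2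
          linear_combination E2
        · push_cast at E1
          exact E1
      · rw [a1, a2] at T1 T2 T3
        omega
  have w4 := v4 (p := p) p2
  rw [w4] at T2
  by_cases p3 : p = 3
  · subst p3
    have w3 : ((3 : ℚ_[3])).valuation = 1 := by
      have h := vp (p := 3) 1
      have h' : (3 : ℚ_[3]) = ((3 ^ 1 : ℕ) : ℚ_[3]) := by norm_num
      rw [h', h]
      norm_num
    rw [w3] at T3
    refine ⟨?_, fun h => absurd rfl h⟩
    rcases val_sqf (p := 3) h1 with ⟨a1, b1⟩ | ⟨a1, b1⟩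
    · exact b1
    · exfalso
      rcases val_sqf (p := 3) h2 with ⟨a2, b2⟩ | ⟨a2, b2⟩ <;> rw [a1, a2] at T1 T2 T3 <;> omega
  have w3 := v3 (p := p) p3
  rw [w3] at T3
  rcases val_sqf (p := p) h1 with ⟨a1, b1⟩ | ⟨a1, b1⟩ <;>
  rcases val_sqf (p := p) h2 with ⟨a2, b2⟩ | ⟨a2, b2⟩
  · exact ⟨b1, fun _ => b2⟩
  · exfalso
    rw [a1, a2] at T1 T2 T3
    omega
  · exfalso
    rw [a1, a2] at T1 T2 T3
    omega
  · exfalso
    rw [a1, a2] at T1 T2 T3
    omega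

omit hp in
/-- the elements of the 2-Selmer group -/
lemma selG_sub : SelG (-1) 0 3 ⊆ ({(1, 1), (1, -1), (1, 3), (1, -3)} : Set (ℤ × ℤ)) := by
  rintro ⟨d1, d2⟩ ⟨h1, h2, hR, hp⟩
  simp only at h1 h2 hR hp
  have key' : ∀ (p : ℕ) [Fact p.Prime], ¬ (p : ℤ) ∣ d1 ∧ (p ≠ 3 → ¬ (p : ℤ) ∣ d2) := by
    intro p _
    obtain ⟨x, y, hy, hxy, q1, q2⟩ := hp p
    obtain ⟨r, s, t, hr, hs, ht, E1, E2⟩ := locE (p := p) h1.ne_zero h2.ne_zero (x := x) hy (by
      rw [hxy]; push_cast; ring) (by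
      have := q1; push_cast at this; rwa [sub_neg_eq_add] at this) (by
      have := q2; push_cast at this; rwa [sub_zero] at this)
    exact key h1 h2 hr hs ht E1 E2
  have hd1 : d1 = 1 ∨ d1 = -1 := by
    have : d1.natAbs = 1 := by
      by_contra hne
      obtain ⟨p, hp', hpd⟩ := Nat.exists_prime_and_dvd hne
      have := Fact.mk hp'
      exact (key' p).1 (Int.natCast_dvd.2 hpd)
    omega
  have hpos : 0 < d1 := by
    obtain ⟨x, y, hy, hxy, ⟨r, hr⟩, -⟩ := hR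
    push_cast at hxy hr
    have hx : 0 < x + 1 := by
      by_contra hx
      have hx' : x + 1 ≤ 0 := not_lt.1 hx
      have h3 : 0 < y ^ 2 := by positivity
      have h5 : 0 ≤ (x - 0) * (x - 3) := by nlinarith
      have h6 : (x - -1) * (x - 0) * (x - 3) = (x + 1) * ((x - 0) * (x - 3)) := by ring
      rw [hxy, h6] at h3
      exact absurd h3 (not_lt.2 (mul_nonpos_of_nonpos_of_nonneg hx' h5))
    have h3 : (0 : ℝ) ≤ (x + 1) * d1 := by
      have h4 : (x - -1) * (d1 : ℝ) = (x + 1) * d1 := by ring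
      rw [← h4, hr]
      exact mul_self_nonneg r
    have h4 : (0 : ℝ) ≤ d1 := nonneg_of_mul_nonneg_right h3 hx
    have h5 : (0 : ℤ) ≤ d1 := by exact_mod_cast h4
    exact lt_of_le_of_ne h5 (Ne.symm h1.ne_zero)
  have hd1' : d1 = 1 := by omega
  have hd2 : d2 = 1 ∨ d2 = -1 ∨ d2 = 3 ∨ d2 = -3 := by
    by_cases h3 : (3 : ℤ) ∣ d2
    · obtain ⟨e, rfl⟩ := h3
      have he : e.natAbs = 1 := by
        by_contra hne
        obtain ⟨p, hp', hpd⟩ := Nat.exists_prime_and_dvd hne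
        have := Fact.mk hp'
        have hpe : (p : ℤ) ∣ e := Int.natCast_dvd.2 hpd
        by_cases hp5 : p = 3
        · subst hp5
          obtain ⟨f, rfl⟩ := hpe
          have h7 := h2 3 ⟨f, by push_cast; ring⟩
          exact absurd h7 (by decide)
        · exact (key' p).2 hp5 (hpe.mul_left _)
      omega
    · have he : d2.natAbs = 1 := by
        by_contra hne
        obtain ⟨p, hp', hpd⟩ := Nat.exists_prime_and_dvd hne
        have := Fact.mk hp'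
        have hpe : (p : ℤ) ∣ d2 := Int.natCast_dvd.2 hpd
        by_cases hp5 : p = 3
        · subst hp5
          exact h3 hpe
        · exact (key' p).2 hp5 hpe
      omega
  subst hd1'
  rcases hd2 with rfl | rfl | rfl | rfl <;> simp

lemma selG_fin : (SelG (-1) 0 3).Finite := (Set.toFinite _).subset selG_sub

lemma selG_card : (SelG (-1) 0 3).ncard ≤ 4 := by
  refine (Set.ncard_le_ncard selG_sub (Set.toFinite _)).trans ?_
  refine (Set.ncard_insert_le _ _).trans ?_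
  have h1 := Set.ncard_insert_le ((1, -1) : ℤ × ℤ) {(1, 3), (1, -3)}
  have h2 := Set.ncard_insert_le ((1, 3) : ℤ × ℤ) {(1, -3)}
  have h3 := Set.ncard_singleton ((1, -3) : ℤ × ℤ)
  omega

/-- **`E : y² = x³ - 2 x² - 3 x` over the rationals**: the rank is zero and `Ш[2^∞] = 0` -/
theorem ex24 : D.rk (⟨0, -2, 0, -3, 0⟩ : WeierstrassCurve ℚ) = 0 ∧
    ∀ (k : ℕ) (x : D.Sha (⟨0, -2, 0, -3, 0⟩ : WeierstrassCurve ℚ)),
      (2 ^ k : ℕ) • x = 0 → x = 0 := by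
  have h : IsR (⟨0, -2, 0, -3, 0⟩ : WeierstrassCurve ℚ) ((-1 : ℤ) : ℚ) ((0 : ℤ) : ℚ)
      ((3 : ℤ) : ℚ) := by
    refine ⟨rfl, ?_, rfl, ?_, ?_⟩ <;> norm_num
  obtain ⟨F4, h4, hF4⟩ := exists_F4 h (by norm_num) (by norm_num) (by norm_num)
  obtain ⟨h1, h2⟩ := main4 _ (-1) 0 3 h (by norm_num) (by norm_num) (by norm_num) selG_fin F4 h4 hF4
  have h3 := h2.trans selG_card
  obtain ⟨W, hW⟩ : ∃ W : WeierstrassCurve ℚ, W = ⟨0, -2, 0, -3, 0⟩ := ⟨_, rfl⟩
  rw [← hW] at h1 h3 ⊢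
  clear h2 hF4 h4 F4 h
  have hpos : 0 < Nat.card {x : Sha W // x + x = 0} := by
    have : Nonempty {x : Sha W // x + x = 0} := ⟨⟨0, add_zero 0⟩⟩
    exact Nat.card_pos
  have h5 : 2 ^ (Module.finrank ℤ W.toAffine.Point + 2) ≤ 2 ^ 2 :=
    (Nat.le_mul_of_pos_right _ hpos).trans h3
  have h6 := (Nat.pow_le_pow_iff_right (by norm_num : 1 < 2)).1 h5
  have h7 : Module.finrank ℤ W.toAffine.Point = 0 := by omega
  refine ⟨h7, ?_⟩
  rw [h7] at h3
  have h8 : Nat.card {x : Sha W // x + x = 0} ≤ 1 := by omega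
  have h9 : ∀ x : Sha W, x + x = 0 → x = 0 := by
    intro x hx
    have h10 : Subsingleton {x : Sha W // x + x = 0} := by
      rw [← Finite.card_le_one_iff_subsingleton]
      exact h8
    have := h10.elim ⟨x, hx⟩ ⟨0, add_zero 0⟩
    exact congrArg Subtype.val this
  refine fun k => no_tor (fun x hx => ?_) k
  have h11 := h9 (D.eSha W x) (by rw [← map_add, hx, map_zero])
  rwa [EmbeddingLike.map_eq_zero_iff] at h11

end Pool.Agent.R432.E24
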