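import Pool.Agent.R432.CX6
import Pool.Agent.R432.E24

/-!
# A point of infinite order over the cubic field
-/

set_option autoImplicit false
set_option linter.unusedSectionVars false

open NumberField IsDedekindDomain

namespace Pool.Agent.R432.CX

open WeierstrassCurve Pool.Agent.Y682

section dbl

variable {k : Type} [Field k] [CharZero k] {W : WeierstrassCurve k} {A B : k}

lemma negY_T (hT : IsT W A B) (x y : k) : W.toAffine.negY x y = -y := by
  unfold Affine.negY
  rw [hT.h1, hT.h3]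
  ring

lemma eqn_T (hT : IsT W A B) {x y : k} (h : W.toAffine.Nonsingular x y) :
    y ^ 2 = x ^ 3 + A * x ^ 2 + B * x := by
  have h1 := (Affine.equation_iff _ _).1 h.1
  rw [hT.h1, hT.h2, hT.h3, hT.h4, hT.h6] at h1
  linear_combination h1

lemma ns_T (hT : IsT W A B) {x y : k} (h : y ^ 2 = x ^ 3 + A * x ^ 2 + B * x) (hy : y ≠ 0) :
    W.toAffine.Nonsingular x y := by
  rw [Affine.nonsingular_iff]
  refine ⟨?_, Or.inr ?_⟩
  · rw [Affine.equation_iff, hT.h1, hT.h2, hT.h3, hT.h4, hT.h6]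
    linear_combination h
  · rw [hT.h1, hT.h3]
    intro h1
    apply hy
    have h2 : 2 * y = 0 := by linear_combination h1
    rcases mul_eq_zero.1 h2 with h3 | h3
    · exact absurd h3 two_ne_zero
    · exact h3

lemma dbl_some [DecidableEq k] (hT : IsT W A B) {x y : k} (hn : W.toAffine.Nonsingular x y)
    (hy : y ≠ 0) : ∃ (x' y' : k) (hn' : W.toAffine.Nonsingular x' y'),
      Affine.Point.some x y hn + Affine.Point.some x y hn = Affine.Point.some x' y' hn' ∧
      x' * (4 * y ^ 2) = (x ^ 2 - B) ^ 2 := by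
  have h2y : (2 : k) * y ≠ 0 := mul_ne_zero two_ne_zero hy
  have hY : y ≠ W.toAffine.negY x y := by
    rw [negY_T hT]
    intro h
    apply h2y
    linear_combination h
  have hsl : W.toAffine.slope x x y y = (3 * x ^ 2 + 2 * A * x + B) / (2 * y) := by
    rw [Affine.slope_of_Y_ne rfl hY, negY_T hT, hT.h1, hT.h2, hT.h4]
    congr 1 <;> ring
  refine ⟨_, _, _, Affine.Point.add_self_of_Y_ne hY, ?_⟩
  rw [Affine.addX, hsl, hT.h1, hT.h2]
  have hq := eqn_T hT hn
  field_simp
  linear_combination (-(A + 2 * x) * 16) * hq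

end dbl

section val

variable {K : Type} [Field K] [NumberField K] {W : WeierstrassCurve K} {A B : K}

/-- a point -/
def pt {k : Type} [Field k] (W : WeierstrassCurve k) (x y : k) (h : W.toAffine.Nonsingular x y) :
    MP W := Affine.Point.some x y h

lemma mlt {a b : WithZero (Multiplicative ℤ)} (ha : a < 1) (hb : b ≤ 1) : a * b < 1 :=
  lt_of_le_of_lt (mul_le_of_le_one_right' hb) ha

/-- the points near to zero at a place above two -/
def Near (W : WeierstrassCurve K) (v : HeightOneSpectrum (𝓞 K)) : MP W → Prop := fun Q =>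
  ∃ (x y : K) (h : W.toAffine.Nonsingular x y), Q = pt W x y h ∧ 1 < v.valuation K x

lemma val_step (hT : IsT W A B) {v : HeightOneSpectrum (𝓞 K)} (hA : v.valuation K A ≤ 1)
    (hB : v.valuation K B ≤ 1) (h4 : v.valuation K 4 < 1) {x y : K}
    (hn : W.toAffine.Nonsingular x y) (hx : 1 < v.valuation K x) :
    ∃ (x' y' : K) (hn' : W.toAffine.Nonsingular x' y'),
      pt W x y hn + pt W x y hn = pt W x' y' hn' ∧ v.valuation K x < v.valuation K x' := by
  set w := v.valuation K with hw
  have hx0 : 0 < w x := lt_trans zero_lt_one hx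
  have hq := eqn_T hT hn
  have h1 : w (A * x ^ 2) < w (x ^ 3) := by
    rw [map_mul, map_pow, map_pow]
    calc w A * w x ^ 2 ≤ 1 * w x ^ 2 := mul_le_mul_left hA _
      _ = w x ^ 2 := one_mul _
      _ < w x ^ 3 := pow_lt_pow_right₀ hx (by norm_num)
  have h2 : w (B * x) < w (x ^ 3) := by
    rw [map_mul, map_pow]
    calc w B * w x ≤ 1 * w x := mul_le_mul_left hB _
      _ = w x ^ 1 := by rw [one_mul, pow_one]
      _ < w x ^ 3 := pow_lt_pow_right₀ hx (by norm_num)
  have h3 : w (y ^ 2) = w x ^ 3 := by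
    rw [hq, add_assoc, ← map_pow]
    exact Valuation.map_add_eq_of_lt_left _ (Valuation.map_add_lt _ h1 h2)
  have hy : y ≠ 0 := by
    rintro rfl
    rw [zero_pow two_ne_zero, map_zero] at h3
    exact (pow_ne_zero 3 hx0.ne') h3.symm
  obtain ⟨x', y', hn', hadd, hval⟩ := @dbl_some K _ _ W A B (Classical.decEq K) hT x y hn hy
  refine ⟨x', y', hn', hadd, ?_⟩
  have h5 : w (x ^ 2 - B) = w x ^ 2 := by
    rw [← map_pow]
    apply Valuation.map_sub_eq_of_lt_left
    rw [map_pow]
    exact lt_of_le_of_lt hB (one_lt_pow₀ hx two_ne_zero)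
  have h6 := congrArg w hval
  rw [map_mul, map_mul, h3, map_pow, h5] at h6
  have h7 : w x' * w 4 = w x := by
    have h8 : w x' * w 4 * w x ^ 3 = w x * w x ^ 3 := by
      rw [mul_assoc, h6]
      rw [← pow_mul, ← pow_succ']
    exact mul_right_cancel₀ (pow_ne_zero 3 hx0.ne') h8
  by_contra hle
  have hle' : w x' ≤ w x := not_lt.1 hle
  have h9 : w x' * w 4 < w x := by
    calc w x' * w 4 ≤ w x * w 4 := mul_le_mul_left hle' _
      _ < w x * 1 := (mul_lt_mul_iff_right₀ hx0).2 h4
      _ = w x := mul_one _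
  exact absurd h7 h9.ne

/-- the rank is positive if there is a point near to zero at a place above two -/
theorem rank_pos (hT : IsT W A B) {v : HeightOneSpectrum (𝓞 K)} (hA : v.valuation K A ≤ 1)
    (hB : v.valuation K B ≤ 1) (h4 : v.valuation K 4 < 1) {Q : MP W} (hQ : Near W v Q) :
    1 ≤ Module.finrank ℤ (MP W) := by
  classical
  have hfg : Module.Finite ℤ (MP W) := fg_MP hT
  by_contra h0
  have h0' : Module.finrank ℤ (MP W) = 0 := by omega
  rw [Module.finrank_eq_zero_iff_isTorsion] at h0'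
  have hfin : Finite (MP W) := Module.finite_of_fg_torsion _ h0'
  let g : MP W → WithZero (Multiplicative ℤ) := fun R => match R with
    | Affine.Point.zero => 0
    | Affine.Point.some x _ _ => v.valuation K x
  obtain ⟨R, ⟨x, y, hn, rfl, hx⟩, hmax⟩ :=
    Set.exists_max_image {R | Near W v R} g (Set.toFinite _) ⟨Q, hQ⟩
  obtain ⟨x', y', hn', hadd, hlt⟩ := val_step hT hA hB h4 hn hx
  have h1 := hmax (pt W x' y' hn') ⟨x', y', hn', rfl, hx.trans hlt⟩
  exact absurd h1 (not_le.2 hlt)

end val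

section fld

variable {K : Type} [Field K] [NumberField K] {α : K}

open Pool.Agent.Y682 (gc gc_isT)

/-- the rank of `y² = x³ - 2x² - 3x` over the field is positive -/
theorem rank_ex (hα : α ^ 3 = α + 1) (hd : Module.finrank ℚ K = 3) :
    1 ≤ Pool.Agent.TH841.NF.D.rk (gc (-2) (-3) K) := by
  have hT : IsT (gc (-2) (-3) K) ((-2 : ℤ) : K) ((-3 : ℤ) : K) := gc_isT (by norm_num) (by norm_num) K
  let v : HeightOneSpectrum (𝓞 K) := ⟨Ideal.span {(2 : 𝓞 K)}, two_prime hα hd, by
    rw [Ne, Ideal.span_singleton_eq_bot]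
    exact two_ne_zero⟩
  have hle : ∀ r : 𝓞 K, v.valuation K (r : K) ≤ 1 := fun r => v.valuation_le_one r
  have h2 : v.valuation K 2 < 1 := by
    have h : v.valuation K (((2 : 𝓞 K)) : K) < 1 :=
      (v.valuation_lt_one_iff_mem (K := K) 2).2 (Ideal.mem_span_singleton_self _)
    have e : (((2 : 𝓞 K)) : K) = 2 := map_ofNat (algebraMap (𝓞 K) K) 2
    rwa [e] at h
  have h4 : v.valuation K 4 < 1 := by
    have e : (4 : K) = 2 * 2 := by norm_num
    rw [e, map_mul]
    exact mlt h2 h2.le
  have ha : v.valuation K α = 1 := by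
    have h1 : v.valuation K α ≤ 1 := by rw [← aI_coe hα]; exact hle _
    have h3 : v.valuation K (α ^ 2 - 1) ≤ 1 := by
      have e : ((aI hα ^ 2 - 1 : 𝓞 K) : K) = α ^ 2 - 1 := by
        change algebraMap (𝓞 K) K (aI hα ^ 2 - 1) = _
        rw [map_sub, map_pow, map_one]
        rfl
      rw [← e]
      exact hle _
    have h5 : v.valuation K α * v.valuation K (α ^ 2 - 1) = 1 := by
      rw [← map_mul]
      have e : α * (α ^ 2 - 1) = 1 := by linear_combination hα
      rw [e, map_one]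
    apply le_antisymm h1
    rw [← h5]
    exact mul_le_of_le_one_right' h3
  -- the point
  have hx : (1 : K) ^ 2 = (α ^ 4) ^ 3 + ((-2 : ℤ) : K) * (α ^ 4) ^ 2 + ((-3 : ℤ) : K) * (α ^ 4) := by
    push_cast
    linear_combination (-(α ^ 9 + α ^ 7 + α ^ 6 - α ^ 5 + 2 * α ^ 4 + α ^ 2 - α + 1)) * hα
  have hn := ns_T hT hx one_ne_zero
  obtain ⟨x', y', hn', hadd, hval⟩ := @dbl_some K _ _ _ _ _ (Classical.decEq K) hT _ _ hn one_ne_zero
  have hw : v.valuation K ((α ^ 4) ^ 2 - ((-3 : ℤ) : K)) = 1 := by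
    have e : (α ^ 4) ^ 2 - ((-3 : ℤ) : K) = 2 * ((aI hα ^ 2 + aI hα + 2 : 𝓞 K) : K) + α ^ 3 := by
      have e1 : ((aI hα ^ 2 + aI hα + 2 : 𝓞 K) : K) = α ^ 2 + α + 2 := by
        change algebraMap (𝓞 K) K (aI hα ^ 2 + aI hα + 2) = _
        rw [map_add, map_add, map_pow, map_ofNat]
        rfl
      rw [e1]
      push_cast
      linear_combination (α ^ 5 + α ^ 3 + α ^ 2 + α + 1) * hα
    rw [e]
    have h3 : v.valuation K (α ^ 3) = 1 := by rw [map_pow, ha, one_pow]
    rw [Valuation.map_add_eq_of_lt_right _ (by rw [h3, map_mul]; exact mlt h2 (hle _)), h3]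
  have hx' : 1 < v.valuation K x' := by
    have h6 := congrArg (v.valuation K) hval
    rw [one_pow, mul_one, map_mul, map_pow, hw, one_pow] at h6
    by_contra h7
    have h8 : v.valuation K x' ≤ 1 := not_lt.1 h7
    have h9 : v.valuation K x' * v.valuation K 4 < 1 := by
      rw [mul_comm]
      exact mlt h4 h8
    exact absurd h6 h9.ne
  have hA : ∀ n : ℤ, v.valuation K ((n : ℤ) : K) ≤ 1 := fun n => by
    have := hle (n : 𝓞 K)
    have e : (((n : ℤ) : 𝓞 K) : K) = (n : K) := by simp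
    rwa [e] at this
  exact rank_pos hT (hA _) (hA _) h4 (Q := pt _ x' y' hn') ⟨x', y', hn', rfl, hx'⟩

end fld

end Pool.Agent.R432.CX
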