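import Pool.Agent.R432.E15c
import Pool.Agent.TH841.SH.Main
import Pool.Agent.TH841.SH.Tr
import Pool.Agent.Y155.RP.RK2

/-!
# The curve `y² = x (x - 9) (x - 25)` over the rationals: the rank is zero and `Ш[2^∞] = 0`
-/

set_option autoImplicit false

namespace Pool.Agent.R432.E15

open WeierstrassCurve Pool.Agent.TH841.SH

open scoped Classical

open Pool.Agent.W262.SH (QB Pt act IsCoc IsCob LocTriv shaCoc cob Sha)

/-- the elements of the 2-Selmer group -/
lemma selG_sub : SelG 0 9 25 ⊆ ({(1, 1), (1, -1), (5, 1), (5, -1)} : Set (ℤ × ℤ)) := by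
  rintro ⟨d1, d2⟩ ⟨h1, h2, hR, hp⟩
  simp only at h1 h2 hR hp
  have key' : ∀ (p : ℕ) [Fact p.Prime], ¬ (p : ℤ) ∣ d2 ∧ (p ≠ 5 → ¬ (p : ℤ) ∣ d1) := by
    intro p _
    obtain ⟨x, y, hy, hxy, q1, q2⟩ := hp p
    obtain ⟨r, s, t, hr, hs, ht, E1, E2⟩ := locE (p := p) h1.ne_zero h2.ne_zero (x := x) hy (by
      rw [hxy]; push_cast; ring) (by
      have := q1; push_cast at this; rwa [sub_zero] at this) (by
      have := q2; push_cast at this; exact this)
    exact key h1 h2 hr hs ht E1 E2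
  have hd2 : d2 = 1 ∨ d2 = -1 := by
    have : d2.natAbs = 1 := by
      by_contra hne
      obtain ⟨p, hp', hpd⟩ := Nat.exists_prime_and_dvd hne
      have := Fact.mk hp'
      exact (key' p).1 (Int.natCast_dvd.2 hpd)
    omega
  have hpos : 0 < d1 := by
    obtain ⟨x, y, hy, hxy, ⟨r, hr⟩, -⟩ := hR
    push_cast at hxy hr
    have hx : 0 < x := by
      by_contra hx
      have hx' : x ≤ 0 := not_lt.1 hx
      have h3 : 0 < y ^ 2 := by positivity
      have h4 : (x - 0) * (x - 9) * (x - 25) ≤ 0 := by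
        have h5 : 0 ≤ (x - 9) * (x - 25) := by nlinarith
        have h6 : (x - 0) * (x - 9) * (x - 25) = x * ((x - 9) * (x - 25)) := by ring
        rw [h6]
        exact mul_nonpos_of_nonpos_of_nonneg hx' h5
      linarith
    have h3 : (0 : ℝ) ≤ x * d1 := by
      have h4 : (x - 0) * (d1 : ℝ) = x * d1 := by ring
      rw [← h4, hr]
      exact mul_self_nonneg r
    have h4 : (0 : ℝ) ≤ d1 := nonneg_of_mul_nonneg_right h3 hx
    have h5 : (0 : ℤ) ≤ d1 := by exact_mod_cast h4
    exact lt_of_le_of_ne h5 (Ne.symm h1.ne_zero)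
  have hd1 : d1 = 1 ∨ d1 = 5 := by
    by_cases h5 : (5 : ℤ) ∣ d1
    · right
      obtain ⟨e, rfl⟩ := h5
      have he : e.natAbs = 1 := by
        by_contra hne
        obtain ⟨p, hp', hpd⟩ := Nat.exists_prime_and_dvd hne
        have := Fact.mk hp'
        have hpe : (p : ℤ) ∣ e := Int.natCast_dvd.2 hpd
        by_cases hp5 : p = 5
        · subst hp5
          obtain ⟨f, rfl⟩ := hpe
          have h7 := h1 5 ⟨f, by push_cast; ring⟩
          exact absurd h7 (by decide)
        · exact (key' p).2 hp5 (hpe.mul_left _)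
      omega
    · left
      have he : d1.natAbs = 1 := by
        by_contra hne
        obtain ⟨p, hp', hpd⟩ := Nat.exists_prime_and_dvd hne
        have := Fact.mk hp'
        have hpe : (p : ℤ) ∣ d1 := Int.natCast_dvd.2 hpd
        by_cases hp5 : p = 5
        · subst hp5
          exact h5 hpe
        · exact (key' p).2 hp5 hpe
      omega
  rcases hd1 with rfl | rfl <;> rcases hd2 with rfl | rfl <;> simp

lemma selG_fin : (SelG 0 9 25).Finite := (Set.toFinite _).subset selG_sub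

lemma selG_card : (SelG 0 9 25).ncard ≤ 4 := by
  refine (Set.ncard_le_ncard selG_sub (Set.toFinite _)).trans ?_
  refine (Set.ncard_insert_le _ _).trans ?_
  have h1 := Set.ncard_insert_le ((1, -1) : ℤ × ℤ) {(5, 1), (5, -1)}
  have h2 := Set.ncard_insert_le ((5, 1) : ℤ × ℤ) {(5, -1)}
  have h3 := Set.ncard_singleton ((5, -1) : ℤ × ℤ)
  omega

section

variable {W : WeierstrassCurve ℚ} {a b c : ℚ}

/-- the rank, the Tate-Shafarevich group and the Selmer homomorphisms (as in `Y667.SHA`) -/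
theorem card_le4 (h : IsR W a b c) (hab : a ≠ b) (hac : a ≠ c) (hbc : b ≠ c)
    (hfg : AddGroup.FG W.toAffine.Point) (F4 : Finset W.toAffine.Point) (h4 : 4 ≤ F4.card)
    (hF4 : ∀ g ∈ F4, g + g = 0) [Finite (selHom W)] :
    Finite {x : Sha W // x + x = 0} ∧
    2 ^ (Module.finrank ℤ W.toAffine.Point + 2) * Nat.card {x : Sha W // x + x = 0} ≤
      Nat.card (selHom W) := by
  have e1 : Nat.card {x : Sha W // x + x = 0} = Nat.card (toSha h).range :=
    Nat.card_congr (Equiv.subtypeEquivRight (fun x => (toSha_range h hab hac hbc x).symm))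
  have hfr : Finite (toSha h).range := Finite.of_surjective _ (toSha h).rangeRestrict_surjective
  have e2 : Nat.card (selHom W) = Nat.card (toSha h).range * Nat.card (toSha h).ker := by
    rw [AddSubgroup.card_eq_card_quotient_mul_card_addSubgroup (toSha h).ker]
    congr 1
    exact Nat.card_congr (QuotientAddGroup.quotientKerEquivRange (toSha h)).toEquiv
  refine ⟨Finite.of_equiv _ (Equiv.subtypeEquivRight (fun x => toSha_range h hab hac hbc x)), ?_⟩
  rw [e1, e2, mul_comm]
  refine Nat.mul_le_mul_left _ ?_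
  obtain ⟨j, hj, hjσ, hjf⟩ := exists_rat W
  have hinj : Function.Injective (algebraMap ℚ QB) := (algebraMap ℚ QB).injective
  have : Fintype (toSha h).ker := Fintype.ofFinite _
  let R : (toSha h).ker → W.toAffine.Point → Prop := fun f g =>
    ∃ Q : Pt W QB, Q + Q = j g ∧ ∀ σ, (f.1 : (QB ≃ₐ[ℚ] QB) → Pt W QB) σ =
      act W σ.toAlgHom Q - Q
  let T : Finset W.toAffine.Point :=
    Finset.univ.image (fun f : (toSha h).ker => if hd : ∃ g, R f g then hd.choose else 0)
  have hT : T.card ≤ Nat.card (toSha h).ker := by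
    rw [Nat.card_eq_fintype_card]
    exact Finset.card_image_le.trans_eq Finset.card_univ
  refine le_trans (Pool.Agent.Y155.RP.rkb2 _ hfg T (fun g => ?_) F4 h4 hF4) hT
  obtain ⟨Q, hQ⟩ := (h.base QB).div two_ne_zero (hinj.ne hab) (hinj.ne hac) (hinj.ne hbc) (j g)
  have hsel : (fun σ : QB ≃ₐ[ℚ] QB => act W σ.toAlgHom Q - Q) ∈ selHom W := by
    apply cob_sel h
    intro σ
    have e3 : act W σ.toAlgHom Q - Q + (act W σ.toAlgHom Q - Q) =
      (act W σ.toAlgHom Q + act W σ.toAlgHom Q) - (Q + Q) := by abel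
    rw [e3, ← map_add, ← hQ, hjσ, sub_self]
  have hker : (⟨_, hsel⟩ : selHom W) ∈ (toSha h).ker := by
    rw [toSha_ker]
    exact ⟨Q, fun σ => rfl⟩
  set f : (toSha h).ker := ⟨⟨_, hsel⟩, hker⟩ with hf
  have hex : ∃ g', R f g' := ⟨g, Q, hQ.symm, fun σ => rfl⟩
  obtain ⟨Q', hQ', hf'⟩ := hex.choose_spec
  refine ⟨hex.choose, ?_, ?_⟩
  · refine Finset.mem_image.2 ⟨f, Finset.mem_univ _, ?_⟩
    rw [dif_pos hex]
  · have hfix : ∀ σ : QB ≃ₐ[ℚ] QB, act W σ.toAlgHom (Q - Q') = Q - Q' := by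
      intro σ
      have e4 : act W σ.toAlgHom Q - Q = act W σ.toAlgHom Q' - Q' := hf' σ
      rw [map_sub]
      have e5 : act W σ.toAlgHom Q = act W σ.toAlgHom Q' - Q' + Q := by
        rw [← e4]
        abel
      rw [e5]
      abel
    obtain ⟨q, hq⟩ := hjf _ hfix
    refine ⟨q, hj ?_⟩
    rw [map_add, map_add, hq, ← hQ', hQ]
    abel

open Pool.Agent.H437R2.Man.MW (crv pt_fg)

/-- the same bound with the 2-Selmer group as a set of pairs -/
theorem main4 (W : WeierstrassCurve ℚ) (a b c : ℤ) (h : IsR W (a : ℚ) (b : ℚ) (c : ℚ))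
    (hab : a ≠ b) (hac : a ≠ c) (hbc : b ≠ c) (hS : (SelG a b c).Finite)
    (F4 : Finset W.toAffine.Point) (h4 : 4 ≤ F4.card) (hF4 : ∀ g ∈ F4, g + g = 0) :
    Finite {x : Sha W // x + x = 0} ∧
    2 ^ (Module.finrank ℤ W.toAffine.Point + 2) * Nat.card {x : Sha W // x + x = 0} ≤
      (SelG a b c).ncard := by
  have qab : (a : ℚ) ≠ b := by exact_mod_cast hab
  have qac : (a : ℚ) ≠ c := by exact_mod_cast hac
  have qbc : (b : ℚ) ≠ c := by exact_mod_cast hbc
  obtain ⟨Φ, hΦ, hΦS⟩ := sel_inj h hab hac hbc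
  have hfin : Finite (SelG a b c) := hS
  have hfin' : Finite (selHom W) :=
    Finite.of_injective (fun f => (⟨Φ f, hΦS f⟩ : SelG a b c))
      (fun f g hfg => hΦ (congrArg Subtype.val hfg))
  have hcard : Nat.card (selHom W) ≤ (SelG a b c).ncard := by
    rw [← Nat.card_coe_set_eq]
    exact Nat.card_le_card_of_injective (fun f => (⟨Φ f, hΦS f⟩ : SelG a b c))
      (fun f g hfg => hΦ (congrArg Subtype.val hfg))
  have hW : W = crv (-(a : ℚ)) (-(b : ℚ)) (-(c : ℚ)) := by
    apply WeierstrassCurve.ext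
    · rw [h.h1]
      rfl
    · rw [h.h2]
      show _ = -(a : ℚ) + -(b : ℚ) + -(c : ℚ)
      ring
    · rw [h.h3]
      rfl
    · rw [h.h4]
      show _ = -(a : ℚ) * -(b : ℚ) + -(a : ℚ) * -(c : ℚ) + -(b : ℚ) * -(c : ℚ)
      ring
    · rw [h.h6]
      show _ = -(a : ℚ) * -(b : ℚ) * -(c : ℚ)
      ring
  have hfg : AddGroup.FG W.toAffine.Point := by
    rw [hW]
    exact pt_fg (fun h => qab (neg_injective h)) (fun h => qac (neg_injective h))
      (fun h => qbc (neg_injective h))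
  obtain ⟨h1, h2⟩ := card_le4 h qab qac qbc hfg F4 h4 hF4
  exact ⟨h1, h2.trans hcard⟩

/-- four points of order dividing two -/
lemma exists_F4 (h : IsR W a b c) (hab : a ≠ b) (hac : a ≠ c) (hbc : b ≠ c) :
    ∃ F4 : Finset W.toAffine.Point, 4 ≤ F4.card ∧ ∀ g ∈ F4, g + g = 0 := by
  have hn : ∀ x : ℚ, (x = a ∨ x = b ∨ x = c) → W.toAffine.Nonsingular x 0 := by
    intro x hx
    exact h.nons two_ne_zero hab hac hbc (by rcases hx with rfl | rfl | rfl <;> ring)
  have hz : ∀ (x : ℚ) (hx : W.toAffine.Nonsingular x 0),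
      Affine.Point.some x 0 hx + Affine.Point.some x 0 hx = 0 := by
    intro x hx
    refine Affine.Point.add_self_of_Y_eq ?_
    rw [h.negY]
    ring
  let pa : W.toAffine.Point := Affine.Point.some a 0 (hn a (Or.inl rfl))
  let pb : W.toAffine.Point := Affine.Point.some b 0 (hn b (Or.inr (Or.inl rfl)))
  let pc : W.toAffine.Point := Affine.Point.some c 0 (hn c (Or.inr (Or.inr rfl)))
  have e : ∀ {x y : ℚ} {hx : W.toAffine.Nonsingular x 0} {hy : W.toAffine.Nonsingular y 0},
      x ≠ y → Affine.Point.some x 0 hx ≠ Affine.Point.some y 0 hy := by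
    intro x y hx hy hxy h1
    rw [Affine.Point.some.injEq] at h1
    exact hxy h1.1
  have e0 : ∀ {x : ℚ} {hx : W.toAffine.Nonsingular x 0},
      (0 : W.toAffine.Point) ≠ Affine.Point.some x 0 hx := by
    intro x hx h1
    exact Affine.Point.some_ne_zero hx h1.symm
  refine ⟨{0, pa, pb, pc}, ?_, ?_⟩
  · rw [Finset.card_insert_of_notMem, Finset.card_insert_of_notMem,
      Finset.card_insert_of_notMem, Finset.card_singleton]
    · rw [Finset.mem_singleton]
      exact e hbc
    · rw [Finset.mem_insert, Finset.mem_singleton]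
      rintro (h1 | h1)
      · exact e hab h1
      · exact e hac h1
    · rw [Finset.mem_insert, Finset.mem_insert, Finset.mem_singleton]
      rintro (h1 | h1 | h1)
      · exact e0 h1
      · exact e0 h1
      · exact e0 h1
  · intro g hg
    rw [Finset.mem_insert, Finset.mem_insert, Finset.mem_insert, Finset.mem_singleton] at hg
    rcases hg with rfl | rfl | rfl | rfl
    · exact add_zero 0
    · exact hz _ _
    · exact hz _ _
    · exact hz _ _

end

/-- no elements of 2-power order -/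
lemma no_tor {G : Type} [AddCommGroup G] (h : ∀ x : G, x + x = 0 → x = 0) (k : ℕ) :
    ∀ x : G, (2 ^ k : ℕ) • x = 0 → x = 0 := by
  induction k with
  | zero => intro x hx; simpa using hx
  | succ k ih =>
    intro x hx
    rw [pow_succ, mul_comm, mul_smul, two_nsmul] at hx
    exact ih x (h _ hx)

/-- **`E : y² = x³ - 34 x² + 225 x` over the rationals**: the rank is zero and `Ш[2^∞] = 0` -/
theorem ex15 : D.rk (⟨0, -34, 0, 225, 0⟩ : WeierstrassCurve ℚ) = 0 ∧
    ∀ (k : ℕ) (x : D.Sha (⟨0, -34, 0, 225, 0⟩ : WeierstrassCurve ℚ)),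
      (2 ^ k : ℕ) • x = 0 → x = 0 := by
  have h : IsR (⟨0, -34, 0, 225, 0⟩ : WeierstrassCurve ℚ) ((0 : ℤ) : ℚ) ((9 : ℤ) : ℚ)
      ((25 : ℤ) : ℚ) := by
    refine ⟨rfl, ?_, rfl, ?_, ?_⟩ <;> norm_num
  obtain ⟨F4, h4, hF4⟩ := exists_F4 h (by norm_num) (by norm_num) (by norm_num)
  obtain ⟨h1, h2⟩ := main4 _ 0 9 25 h (by norm_num) (by norm_num) (by norm_num) selG_fin F4 h4 hF4
  have h3 := h2.trans selG_card
  obtain ⟨W, hW⟩ : ∃ W : WeierstrassCurve ℚ, W = ⟨0, -34, 0, 225, 0⟩ := ⟨_, rfl⟩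
  rw [← hW] at h1 h3 ⊢
  clear h2 hF4 h4 F4 h
  have hpos : 0 < Nat.card {x : Sha W // x + x = 0} := by
    have : Nonempty {x : Sha W // x + x = 0} := ⟨⟨0, add_zero 0⟩⟩
    exact Nat.card_pos
  have h5 : 2 ^ (Module.finrank ℤ W.toAffine.Point + 2) ≤ 2 ^ 2 :=
    (Nat.le_mul_of_pos_right _ hpos).trans h3
  have h6 := (Nat.pow_le_pow_iff_right (by norm_num : 1 < 2)).1 h5
  have h7 : Module.finrank ℤ W.toAffine.Point = 0 := by omega
  refine ⟨h7, ?_⟩
  rw [h7] at h3
  have h8 : Nat.card {x : Sha W // x + x = 0} ≤ 1 := by omega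
  have h9 : ∀ x : Sha W, x + x = 0 → x = 0 := by
    intro x hx
    have h10 : Subsingleton {x : Sha W // x + x = 0} := by
      rw [← Finite.card_le_one_iff_subsingleton]
      exact h8
    have := h10.elim ⟨x, hx⟩ ⟨0, add_zero 0⟩
    exact congrArg Subtype.val this
  refine fun k => no_tor (fun x hx => ?_) k
  have h11 := h9 (D.eSha W x) (by rw [← map_add, hx, map_zero])
  rwa [EmbeddingLike.map_eq_zero_iff] at h11

end Pool.Agent.R432.E15
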