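import Mathlib

/-!
# The 2-descent for `y² = x (x - 9) (x - 25)` : the local computations
-/

set_option autoImplicit false

namespace Pool.Agent.R432.E15

variable {p : ℕ} [hp : Fact p.Prime]

lemma vnorm {x y : ℚ_[p]} (hx : x ≠ 0) (hy : y ≠ 0) :
    ‖x‖ < ‖y‖ ↔ y.valuation < x.valuation := by
  rw [Padic.norm_eq_zpow_neg_valuation hx, Padic.norm_eq_zpow_neg_valuation hy]
  have h1 : (1 : ℝ) < p := by exact_mod_cast hp.1.one_lt
  rw [zpow_lt_zpow_iff_right₀ h1]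
  omega

lemma tri {A B C : ℚ_[p]} (hA : A ≠ 0) (hB : B ≠ 0) (hC : C ≠ 0) (h : A - B = C) :
    (A.valuation < B.valuation ∧ C.valuation = A.valuation) ∨
    (B.valuation < A.valuation ∧ C.valuation = B.valuation) ∨
    (A.valuation = B.valuation ∧ A.valuation ≤ C.valuation) := by
  have hn : ∀ {x y : ℚ_[p]}, x ≠ 0 → y ≠ 0 → ‖x‖ = ‖y‖ → x.valuation = y.valuation := by
    intro x y hx hy hxy
    rcases lt_trichotomy x.valuation y.valuation with h | h | h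
    · exact absurd hxy ((vnorm hy hx).2 h).ne'
    · exact h
    · exact absurd hxy ((vnorm hx hy).2 h).ne
  have hB' : -B ≠ 0 := neg_ne_zero.2 hB
  rcases lt_trichotomy A.valuation B.valuation with h1 | h1 | h1
  · left
    refine ⟨h1, hn hC hA ?_⟩
    have h2 : ‖B‖ < ‖A‖ := (vnorm hB hA).2 h1
    rw [← h, sub_eq_add_neg, Padic.add_eq_max_of_ne (by rw [norm_neg]; exact h2.ne'), norm_neg,
      max_eq_left h2.le]
  · right; right
    refine ⟨h1, ?_⟩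
    by_contra h2
    have h3 : ‖A‖ < ‖C‖ := (vnorm hA hC).2 (not_le.1 h2)
    have h4 : ‖B‖ < ‖C‖ := (vnorm hB hC).2 (by rw [← h1]; exact not_le.1 h2)
    have h5 : ‖C‖ ≤ max ‖A‖ ‖B‖ := by
      rw [← h, sub_eq_add_neg]
      refine (Padic.nonarchimedean _ _).trans ?_
      rw [norm_neg]
    exact absurd (h5.trans_lt (max_lt h3 h4)) (lt_irrefl _)
  · right; left
    refine ⟨h1, hn hC hB ?_⟩
    have h2 : ‖A‖ < ‖B‖ := (vnorm hA hB).2 h1
    rw [← h, sub_eq_add_neg, Padic.add_eq_max_of_ne (by rw [norm_neg]; exact h2.ne), norm_neg,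
      max_eq_right h2.le]

/-- the integer of valuation zero or one -/
lemma val_sqf {d : ℤ} (hd : Squarefree d) :
    ((d : ℚ_[p]).valuation = 0 ∧ ¬ (p : ℤ) ∣ d) ∨ ((d : ℚ_[p]).valuation = 1 ∧ (p : ℤ) ∣ d) := by
  have h0 : d ≠ 0 := hd.ne_zero
  rw [Padic.valuation_intCast]
  by_cases h : (p : ℤ) ∣ d
  · right
    refine ⟨?_, h⟩
    have h1 : 1 ≤ padicValInt p d := by
      have := (padicValInt_dvd_iff (p := p) 1 d).1 (by simpa using h)
      rcases this with h | h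
      · exact absurd h h0
      · exact h
    have h2 : ¬ 2 ≤ padicValInt p d := by
      intro h2
      have h3 : (p : ℤ) ^ 2 ∣ d := (padicValInt_dvd_iff (p := p) 2 d).2 (Or.inr h2)
      rw [sq] at h3
      have := hd _ h3
      exact (Nat.prime_iff_prime_int.1 hp.1).not_isUnit this
    omega
  · left
    refine ⟨?_, h⟩
    have := padicValInt.eq_zero_of_not_dvd h
    exact_mod_cast this

/-- the three values at the roots -/
lemma locE {d1 d2 : ℤ} (h1 : d1 ≠ 0) (h2 : d2 ≠ 0) {x y : ℚ_[p]} (hy : y ≠ 0)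
    (hxy : y ^ 2 = x * (x - 9) * (x - 25)) (q1 : IsSquare (x * d1)) (q2 : IsSquare ((x - 9) * d2)) :
    ∃ r s t : ℚ_[p], r ≠ 0 ∧ s ≠ 0 ∧ t ≠ 0 ∧ (d1 : ℚ_[p]) * r ^ 2 - d2 * s ^ 2 = 9 ∧
      (d1 : ℚ_[p]) * r ^ 2 - d1 * d2 * t ^ 2 = 25 := by
  obtain ⟨R, hR⟩ := q1
  obtain ⟨S, hS⟩ := q2
  have h1' : (d1 : ℚ_[p]) ≠ 0 := by exact_mod_cast h1
  have h2' : (d2 : ℚ_[p]) ≠ 0 := by exact_mod_cast h2
  have hp0 : x * (x - 9) * (x - 25) ≠ 0 := by rw [← hxy]; exact pow_ne_zero 2 hy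
  have hx : x ≠ 0 := left_ne_zero_of_mul (left_ne_zero_of_mul hp0)
  have hx9 : x - 9 ≠ 0 := right_ne_zero_of_mul (left_ne_zero_of_mul hp0)
  have hR0 : R ≠ 0 := by
    rintro rfl
    rw [mul_zero] at hR
    exact (mul_ne_zero hx h1') hR
  have hS0 : S ≠ 0 := by
    rintro rfl
    rw [mul_zero] at hS
    exact (mul_ne_zero hx9 h2') hS
  have e1 : (d1 : ℚ_[p]) * (R / d1) ^ 2 = x := by
    rw [div_pow, ← mul_div_assoc, div_eq_iff (pow_ne_zero 2 h1')]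
    linear_combination (-(d1 : ℚ_[p])) * hR
  have e2 : (d2 : ℚ_[p]) * (S / d2) ^ 2 = x - 9 := by
    rw [div_pow, ← mul_div_assoc, div_eq_iff (pow_ne_zero 2 h2')]
    linear_combination (-(d2 : ℚ_[p])) * hS
  have e3 : (d1 : ℚ_[p]) * d2 * (y / (R * S)) ^ 2 = x - 25 := by
    rw [div_pow, ← mul_div_assoc, div_eq_iff (pow_ne_zero 2 (mul_ne_zero hR0 hS0)), hxy]
    linear_combination ((x - 25) * (x * d1)) * hS + (x - 25) * (S * S) * hR
  refine ⟨R / d1, S / d2, y / (R * S), div_ne_zero hR0 h1', div_ne_zero hS0 h2',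
    div_ne_zero hy (mul_ne_zero hR0 hS0), ?_, ?_⟩
  · rw [e1, e2]; ring
  · rw [e1, e3]; ring

lemma nv {n : ℕ} (h : ¬ p ∣ n) : ((n : ℚ_[p])).valuation = 0 := by
  rw [Padic.valuation_natCast, padicValNat.eq_zero_of_not_dvd h, Nat.cast_zero]

lemma val_sq {d : ℚ_[p]} (hd : d ≠ 0) {r : ℚ_[p]} (hr : r ≠ 0) :
    (d * r ^ 2).valuation = d.valuation + 2 * r.valuation := by
  rw [Padic.valuation_mul hd (pow_ne_zero 2 hr), Padic.valuation_pow]
  push_cast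
  ring

/-- an element of valuation zero is an integer -/
lemma lift0 {r : ℚ_[p]} (hr : r ≠ 0) (h : r.valuation = 0) : ∃ r' : ℤ_[p], (r' : ℚ_[p]) = r := by
  have h1 : ‖r‖ ≤ 1 := by
    rw [Padic.norm_eq_zpow_neg_valuation hr, h]
    norm_num
  exact ⟨⟨r, h1⟩, rfl⟩

lemma unit0 {r : ℤ_[p]} (h : ‖(r : ℚ_[p])‖ = 1) : IsUnit r := by
  rw [PadicInt.isUnit_iff]
  exact h

lemma norm0 {r : ℚ_[p]} (hr : r ≠ 0) (h : r.valuation = 0) : ‖r‖ = 1 := by
  rw [Padic.norm_eq_zpow_neg_valuation hr, h]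
  norm_num

lemma lift_unit {r : ℚ_[p]} (hr : r ≠ 0) (h : r.valuation = 0) :
    ∃ r' : ℤ_[p], (r' : ℚ_[p]) = r ∧ IsUnit r' :=
  ⟨⟨r, (norm0 hr h).le⟩, rfl, unit0 (norm0 hr h)⟩

end Pool.Agent.R432.E15
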