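import Pool.Agent.R432.E15a

/-!
# The 2-descent for `y² = x (x - 9) (x - 25)` : the residue classes
-/

set_option autoImplicit false

namespace Pool.Agent.R432.E15

lemma dec3 : ∀ e1 e2 r s t : ZMod 3, r ≠ 0 → s ≠ 0 → t ≠ 0 → e1 * r ^ 2 - e2 * s ^ 2 = 3 →
    3 * e2 * s ^ 2 - e1 * e2 * t ^ 2 = 16 → False := by decide

lemma ne_of_unit {p : ℕ} [Fact p.Prime] {R : Type} [CommRing R] [Nontrivial R]
    (f : ℤ_[p] →+* R) {u : ℤ_[p]} (hu : IsUnit u) : f u ≠ 0 := (hu.map f).ne_zero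

lemma res3 {e1 e2 : ℤ} {r s t : ℚ_[3]} (hr : r ≠ 0) (hs : s ≠ 0) (ht : t ≠ 0)
    (vr : r.valuation = 0) (vs : s.valuation = 0) (vt : t.valuation = 0)
    (E1 : (e1 : ℚ_[3]) * r ^ 2 - e2 * s ^ 2 = 3)
    (E3 : 3 * (e2 : ℚ_[3]) * s ^ 2 - e1 * e2 * t ^ 2 = 16) : False := by
  obtain ⟨r', rfl, ur⟩ := lift_unit hr vr
  obtain ⟨s', rfl, us⟩ := lift_unit hs vs
  obtain ⟨t', rfl, ut⟩ := lift_unit ht vt
  have F1 : (e1 : ℤ_[3]) * r' ^ 2 - e2 * s' ^ 2 = 3 := by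
    apply Subtype.ext
    push_cast
    exact E1
  have F3 : 3 * (e2 : ℤ_[3]) * s' ^ 2 - e1 * e2 * t' ^ 2 = 16 := by
    apply Subtype.ext
    push_cast
    exact E3
  have G1 := congrArg PadicInt.toZMod F1
  have G3 := congrArg PadicInt.toZMod F3
  simp only [map_sub, map_mul, map_pow, map_intCast, map_ofNat] at G1 G3
  exact dec3 _ _ _ _ _ (ne_of_unit _ ur) (ne_of_unit _ us) (ne_of_unit _ ut) G1 G3

lemma sq8 : ∀ x : ZMod 8, IsUnit x → x ^ 2 = 1 := by decide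

lemma dec2 : ∀ d e : ZMod 8, IsUnit d → IsUnit e → e - d * e = 8 → d - 2 * e = 9 → False := by
  decide

lemma dec2' : ∀ d e : ZMod 8, IsUnit d → IsUnit e → e - d * e = 2 → d - 8 * e = 9 → False := by
  decide

lemma res2 {d e : ℤ} (hd : ¬ (2 : ℤ) ∣ d) (he : ¬ (2 : ℤ) ∣ e) {r s t : ℚ_[2]}
    (hr : r ≠ 0) (hs : s ≠ 0) (ht : t ≠ 0)
    (vr : r.valuation = 0) (vs : s.valuation = 0) (vt : t.valuation = 0)
    (h : ((e : ℚ_[2]) * s ^ 2 - d * e * t ^ 2 = 8 ∧ (d : ℚ_[2]) * r ^ 2 - 2 * e * s ^ 2 = 9) ∨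
      ((e : ℚ_[2]) * s ^ 2 - d * e * t ^ 2 = 2 ∧ (d : ℚ_[2]) * r ^ 2 - 8 * e * s ^ 2 = 9)) :
    False := by
  obtain ⟨r', rfl, ur⟩ := lift_unit hr vr
  obtain ⟨s', rfl, us⟩ := lift_unit hs vs
  obtain ⟨t', rfl, ut⟩ := lift_unit ht vt
  have hz : ∀ n : ℤ, ¬ (2 : ℤ) ∣ n → IsUnit ((n : ℤ) : ZMod 8) := by
    intro n hn
    have h8 : IsCoprime n 8 := by
      have : IsCoprime n 2 := by
        rw [Int.isCoprime_iff_gcd_eq_one]
        have h2 : Prime (2 : ℤ) := Int.prime_two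
        have := (h2.coprime_iff_not_dvd).2 hn
        rw [← Int.isCoprime_iff_gcd_eq_one]
        exact this.symm
      have h3 := this.pow_right (n := 3)
      norm_num at h3
      exact h3
    obtain ⟨a, b, hab⟩ := h8
    have : ((a : ℤ) : ZMod 8) * (n : ZMod 8) = 1 := by
      have h4 := congrArg (Int.cast : ℤ → ZMod 8) hab
      push_cast at h4
      have h5 : (8 : ZMod 8) = 0 := by decide
      rw [h5, mul_zero, add_zero] at h4
      exact h4
    exact IsUnit.of_mul_eq_one_right _ this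
  have u1 : ∀ {u : ℤ_[2]}, IsUnit u → ((PadicInt.toZModPow 3 u : ZMod (2 ^ 3))) ^ 2 = 1 :=
    fun hu => sq8 _ (hu.map _)
  rcases h with ⟨H1, H2⟩ | ⟨H1, H2⟩
  · have F1 : (e : ℤ_[2]) * s' ^ 2 - d * e * t' ^ 2 = 8 := by
      apply Subtype.ext
      push_cast
      exact H1
    have F2 : (d : ℤ_[2]) * r' ^ 2 - 2 * e * s' ^ 2 = 9 := by
      apply Subtype.ext
      push_cast
      exact H2
    have G1 := congrArg (PadicInt.toZModPow 3) F1
    have G2 := congrArg (PadicInt.toZModPow 3) F2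
    simp only [map_sub, map_mul, map_pow, map_intCast, map_ofNat, u1 ur, u1 us, u1 ut,
      mul_one] at G1 G2
    exact dec2 _ _ (hz d hd) (hz e he) G1 G2
  · have F1 : (e : ℤ_[2]) * s' ^ 2 - d * e * t' ^ 2 = 2 := by
      apply Subtype.ext
      push_cast
      exact H1
    have F2 : (d : ℤ_[2]) * r' ^ 2 - 8 * e * s' ^ 2 = 9 := by
      apply Subtype.ext
      push_cast
      exact H2
    have G1 := congrArg (PadicInt.toZModPow 3) F1
    have G2 := congrArg (PadicInt.toZModPow 3) F2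
    simp only [map_sub, map_mul, map_pow, map_intCast, map_ofNat, u1 ur, u1 us, u1 ut,
      mul_one] at G1 G2
    exact dec2' _ _ (hz d hd) (hz e he) G1 G2

end Pool.Agent.R432.E15
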