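import Pool.Agent.R432.E15b

/-!
# The 2-descent for `y² = x (x - 9) (x - 25)` : valuations
-/

set_option autoImplicit false

namespace Pool.Agent.R432.E15

variable {p : ℕ} [hp : Fact p.Prime]

lemma n9 {n : ℕ} (hn : (n : ℚ_[p]) ≠ 0) : n ≠ 0 := by
  rintro rfl
  exact hn Nat.cast_zero

lemma v9 (h : p ≠ 3) : ((9 : ℚ_[p])).valuation = 0 := by
  have := nv (p := p) (n := 9) (by
    intro h'
    have h1 : p ∣ 3 ^ 2 := by norm_num; exact h'
    exact h ((Nat.prime_dvd_prime_iff_eq hp.1 Nat.prime_three).1 (hp.1.dvd_of_dvd_pow h1)))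
  exact_mod_cast this

lemma v25 (h : p ≠ 5) : ((25 : ℚ_[p])).valuation = 0 := by
  have := nv (p := p) (n := 25) (by
    intro h'
    have h1 : p ∣ 5 ^ 2 := by norm_num; exact h'
    exact h ((Nat.prime_dvd_prime_iff_eq hp.1 Nat.prime_five).1 (hp.1.dvd_of_dvd_pow h1)))
  exact_mod_cast this

lemma v16 (h : p ≠ 2) : ((16 : ℚ_[p])).valuation = 0 := by
  have := nv (p := p) (n := 16) (by
    intro h'
    have h1 : p ∣ 2 ^ 4 := by norm_num; exact h'
    exact h ((Nat.prime_dvd_prime_iff_eq hp.1 Nat.prime_two).1 (hp.1.dvd_of_dvd_pow h1)))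
  exact_mod_cast this

lemma vp (n : ℕ) : (((p ^ n : ℕ) : ℚ_[p])).valuation = n := by
  rw [Padic.valuation_natCast, padicValNat.prime_pow]

lemma key {d1 d2 : ℤ} (h1 : Squarefree d1) (h2 : Squarefree d2) {r s t : ℚ_[p]} (hr : r ≠ 0)
    (hs : s ≠ 0) (ht : t ≠ 0) (E1 : (d1 : ℚ_[p]) * r ^ 2 - d2 * s ^ 2 = 9)
    (E2 : (d1 : ℚ_[p]) * r ^ 2 - d1 * d2 * t ^ 2 = 25) :
    ¬ (p : ℤ) ∣ d2 ∧ (p ≠ 5 → ¬ (p : ℤ) ∣ d1) := by
  have h1' : (d1 : ℚ_[p]) ≠ 0 := by exact_mod_cast h1.ne_zero
  have h2' : (d2 : ℚ_[p]) ≠ 0 := by exact_mod_cast h2.ne_zero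
  have E3 : (d2 : ℚ_[p]) * s ^ 2 - d1 * d2 * t ^ 2 = 16 := by linear_combination E2 - E1
  have nz : ∀ {a b : ℚ_[p]}, a ≠ 0 → b ≠ 0 → a * b ^ 2 ≠ 0 :=
    fun ha hb => mul_ne_zero ha (pow_ne_zero 2 hb)
  have c9 : (9 : ℚ_[p]) ≠ 0 := by norm_num
  have c16 : (16 : ℚ_[p]) ≠ 0 := by norm_num
  have c25 : (25 : ℚ_[p]) ≠ 0 := by norm_num
  have T1 := tri (nz h1' hr) (nz h2' hs) c9 E1
  have T2 := tri (nz h1' hr) (nz (mul_ne_zero h1' h2') ht) c25 E2
  have T3 := tri (nz h2' hs) (nz (mul_ne_zero h1' h2') ht) c16 E3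
  rw [val_sq h1' hr, val_sq h2' hs] at T1
  rw [val_sq h1' hr, val_sq (mul_ne_zero h1' h2') ht, Padic.valuation_mul h1' h2'] at T2
  rw [val_sq h2' hs, val_sq (mul_ne_zero h1' h2') ht, Padic.valuation_mul h1' h2'] at T3
  by_cases p2 : p = 2
  · subst p2
    have w9 := v9 (p := 2) (by norm_num)
    have w25 := v25 (p := 2) (by norm_num)
    have w16 : ((16 : ℚ_[2])).valuation = 4 := by
      have h := vp (p := 2) 4
      have h' : (16 : ℚ_[2]) = ((2 ^ 4 : ℕ) : ℚ_[2]) := by norm_num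
      rw [h', h]
      norm_num
    rw [w9] at T1
    rw [w25] at T2
    rw [w16] at T3
    rcases val_sqf (p := 2) h1 with ⟨a1, b1⟩ | ⟨a1, b1⟩
    · rcases val_sqf (p := 2) h2 with ⟨a2, b2⟩ | ⟨a2, b2⟩
      · exact ⟨b2, fun _ => b1⟩
      · exfalso
        rw [a1, a2] at T1 T2 T3
        have ar : r.valuation = 0 := by omega
        have ast : s.valuation = t.valuation := by omega
        have as : s.valuation = 0 ∨ s.valuation = 1 := by omega
        obtain ⟨e, rfl⟩ := b2
        have he : ¬ (2 : ℤ) ∣ e := by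
          rintro ⟨f, rfl⟩
          have := h2 2 ⟨f, by push_cast; ring⟩
          exact absurd this (by decide)
        rcases as with h0 | h0
        · refine res2 b1 he hr hs ht ar h0 (by omega) (Or.inl ⟨?_, ?_⟩)
          · push_cast at E3
            have h2 : (2 : ℚ_[2]) ≠ 0 := two_ne_zero
            apply mul_left_cancel₀ h2
            linear_combination E3
          · push_cast at E1
            exact E1
        · have hs2 : s / 2 ≠ 0 := div_ne_zero hs two_ne_zero
          have ht2 : t / 2 ≠ 0 := div_ne_zero ht two_ne_zero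
          have v2 : (2 : ℚ_[2]).valuation = 1 := by
            have h := vp (p := 2) 1
            have h' : (2 : ℚ_[2]) = ((2 ^ 1 : ℕ) : ℚ_[2]) := by norm_num
            rw [h', h]
            norm_num
          have vs2 : (s / 2).valuation = 0 := by
            have h3 : (s / 2 * 2).valuation = (s / 2).valuation + (2 : ℚ_[2]).valuation :=
              Padic.valuation_mul hs2 two_ne_zero
            rw [div_mul_cancel₀ _ two_ne_zero, v2, h0] at h3
            omega
          have vt2 : (t / 2).valuation = 0 := by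
            have h3 : (t / 2 * 2).valuation = (t / 2).valuation + (2 : ℚ_[2]).valuation :=
              Padic.valuation_mul ht2 two_ne_zero
            rw [div_mul_cancel₀ _ two_ne_zero, v2, ← ast, h0] at h3
            omega
          refine res2 b1 he hr hs2 ht2 ar vs2 vt2 (Or.inr ⟨?_, ?_⟩)
          · push_cast at E3
            have h8 : (8 : ℚ_[2]) ≠ 0 := by norm_num
            apply mul_left_cancel₀ h8
            linear_combination E3
          · push_cast at E1
            linear_combination E1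
    · exfalso
      rcases val_sqf (p := 2) h2 with ⟨a2, b2⟩ | ⟨a2, b2⟩ <;> rw [a1, a2] at T1 T2 T3 <;> omega
  have w16 := v16 (p := p) p2
  rw [w16] at T3
  by_cases p3 : p = 3
  · subst p3
    have w25 := v25 (p := 3) (by norm_num)
    have w9 : ((9 : ℚ_[3])).valuation = 2 := by
      have h := vp (p := 3) 2
      have h' : (9 : ℚ_[3]) = ((3 ^ 2 : ℕ) : ℚ_[3]) := by norm_num
      rw [h', h]
      norm_num
    rw [w9] at T1
    rw [w25] at T2
    rcases val_sqf (p := 3) h1 with ⟨a1, b1⟩ | ⟨a1, b1⟩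
    · rcases val_sqf (p := 3) h2 with ⟨a2, b2⟩ | ⟨a2, b2⟩
      · exact ⟨b2, fun _ => b1⟩
      · exfalso
        rw [a1, a2] at T1 T2 T3
        omega
    · rcases val_sqf (p := 3) h2 with ⟨a2, b2⟩ | ⟨a2, b2⟩
      · exfalso
        rw [a1, a2] at T1 T2 T3
        omega
      · exfalso
        rw [a1, a2] at T1 T2 T3
        have ar : r.valuation = 0 := by omega
        have as : s.valuation = 0 := by omega
        have at' : t.valuation = -1 := by omega
        obtain ⟨e1, rfl⟩ := b1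
        obtain ⟨e2, rfl⟩ := b2
        have c3 : (3 : ℚ_[3]) ≠ 0 := three_ne_zero
        have v3 : (3 : ℚ_[3]).valuation = 1 := by
          have h := vp (p := 3) 1
          have h' : (3 : ℚ_[3]) = ((3 ^ 1 : ℕ) : ℚ_[3]) := by norm_num
          rw [h', h]
          norm_num
        have ht3 : t * 3 ≠ 0 := mul_ne_zero ht c3
        have vt3 : (t * 3).valuation = 0 := by
          rw [Padic.valuation_mul ht c3, v3, at']
          norm_num
        refine res3 (e1 := e1) (e2 := e2) hr hs ht3 ar as vt3 ?_ ?_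
        · push_cast at E1
          apply mul_left_cancel₀ c3
          linear_combination E1
        · push_cast at E3
          linear_combination E3
  have w9 := v9 (p := p) p3
  rw [w9] at T1
  by_cases p5 : p = 5
  · subst p5
    have w25 : ((25 : ℚ_[5])).valuation = 2 := by
      have h := vp (p := 5) 2
      have h' : (25 : ℚ_[5]) = ((5 ^ 2 : ℕ) : ℚ_[5]) := by norm_num
      rw [h', h]
      norm_num
    rw [w25] at T2
    refine ⟨?_, fun h => absurd rfl h⟩
    rcases val_sqf (p := 5) h2 with ⟨a2, b2⟩ | ⟨a2, b2⟩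
    · exact b2
    · exfalso
      rcases val_sqf (p := 5) h1 with ⟨a1, b1⟩ | ⟨a1, b1⟩ <;> rw [a1, a2] at T1 T2 T3 <;> omega
  have w25 := v25 (p := p) p5
  rw [w25] at T2
  rcases val_sqf (p := p) h1 with ⟨a1, b1⟩ | ⟨a1, b1⟩ <;>
  rcases val_sqf (p := p) h2 with ⟨a2, b2⟩ | ⟨a2, b2⟩
  · exact ⟨b2, fun _ => b1⟩
  · exfalso
    rw [a1, a2] at T1 T2 T3
    omega
  · exfalso
    rw [a1, a2] at T1 T2 T3
    omega
  · exfalso
    rw [a1, a2] at T1 T2 T3
    omega

end Pool.Agent.R432.E15
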