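import Pool.Agent.R432.Iso

/-!
# The cocycles with values in the subgroup generated by a rational point of order two
-/

set_option autoImplicit false
set_option linter.unusedSectionVars false

attribute [-instance] DivisionRing.toRatAlgebra

namespace Pool.Agent.R432

open WeierstrassCurve

open Pool.Agent.TH841.NF

open Pool.Agent.TH841.SH (IsX isX_zero isX_some not_isX)

open Pool.Agent.TH841.SH.D (Pt act Gal Coch IsCoc IsCob LocTriv cob)

open Pool.Agent.Y676.IS (Cu cu_ns ns_T add_T TT T_add_T ns_eq)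

open Pool.Agent.Y682

section

variable {k : Type} [Field k] [CharZero k] {W : WeierstrassCurve k} {A B : k}

lemma bcT (hT : IsT W A B) (L : Type) [Field L] [Algebra k L] [CharZero L] :
    (W.baseChange L).toAffine = Cu (algebraMap k L A) (algebraMap k L B) := by
  have h := hT.base (L := L)
  apply WeierstrassCurve.ext
  · exact h.h1
  · exact h.h2
  · exact h.h3
  · exact h.h4
  · exact h.h6

lemma add_T' {L : Type} [Field L] [CharZero L] [DecidableEq L] {V : WeierstrassCurve.Affine L}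
    {a b : L} (hV : V = Cu a b) (hb : b ≠ 0) (hd : a ^ 2 - 4 * b ≠ 0) {x y : L}
    (h : V.Nonsingular x y) (hx : x ≠ 0) (h0 : V.Nonsingular 0 0) :
    ∃ h', (.some x y h : V.Point) + .some 0 0 h0 = .some (b / x) (-(b * y / x ^ 2)) h' := by
  subst hV
  exact ⟨ns_T hb hd h hx, add_T hb hd h hx _⟩

lemma T_add_T' {L : Type} [Field L] [CharZero L] [DecidableEq L] {V : WeierstrassCurve.Affine L}
    {a b : L} (hV : V = Cu a b) (hb : b ≠ 0) (hd : a ^ 2 - 4 * b ≠ 0) (h0 : V.Nonsingular 0 0) :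
    (.some 0 0 h0 : V.Point) + .some 0 0 h0 = 0 := by
  subst hV
  exact T_add_T hb hd

lemma ns00 (hT : IsT W A B) (L : Type) [Field L] [Algebra k L] :
    (W.baseChange L).toAffine.Nonsingular 0 0 := by
  have := cz k L
  rw [bcT hT L]
  exact cu_ns hT.base.hB hT.base.hD (by ring)

/-- the point `(0, 0)` -/
noncomputable def T0 (hT : IsT W A B) (L : Type) [Field L] [Algebra k L] : Pt W L :=
  (Affine.Point.some 0 0 (ns00 hT L) : (W.baseChange L).toAffine.Point)

variable (hT : IsT W A B)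

lemma T0_add (L : Type) [Field L] [Algebra k L] : T0 hT L + T0 hT L = 0 := by
  have := cz k L
  exact @T_add_T' L _ _ (Classical.decEq L) _ _ _ (bcT hT L) hT.base.hB hT.base.hD (ns00 hT L)

lemma T0_ne (L : Type) [Field L] [Algebra k L] : T0 hT L ≠ 0 := by
  intro h
  exact absurd h (sm_ne_zero (W := W) _)

lemma T0_isX (L : Type) [Field L] [Algebra k L] : IsX (W.baseChange L) 0 (T0 hT L) :=
  isX_some _

lemma T0_act {L L' : Type} [Field L] [Algebra k L] [Field L'] [Algebra k L'] (φ : L →ₐ[k] L') :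
    act W φ (T0 hT L) = T0 hT L' := by
  unfold T0
  rw [act_some]
  exact pt_congr _ _ _ (map_zero φ) (map_zero φ)

lemma T0_some (L : Type) [Field L] [Algebra k L] {x y : L}
    (h : (W.baseChange L).toAffine.Nonsingular x y) (hx : x ≠ 0) :
    ∃ h', sm x y h + T0 hT L =
      sm (algebraMap k L B / x) (-(algebraMap k L B * y / x ^ 2)) h' := by
  have := cz k L
  exact @add_T' L _ _ (Classical.decEq L) _ _ _ (bcT hT L) hT.base.hB hT.base.hD _ _ h hx
    (ns00 hT L)

lemma eq_T0 {P : Pt W (AlgebraicClosure k)} (hP : P + P = 0)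
    (hX : IsX (W.baseChange (AlgebraicClosure k)) 0 P) (h0 : P ≠ 0) :
    P = T0 hT _ := isX_ext hT hP (T0_add hT _) hX (T0_isX hT _) h0 (T0_ne hT _)

/-- a square root -/
noncomputable def rt (b : k) : AlgebraicClosure k :=
  (IsAlgClosed.exists_pow_nat_eq (algebraMap k (AlgebraicClosure k) b) (n := 2) two_pos).choose

lemma rt_sq (b : k) : rt b ^ 2 = algebraMap k (AlgebraicClosure k) b :=
  (IsAlgClosed.exists_pow_nat_eq (algebraMap k (AlgebraicClosure k) b) (n := 2)
    two_pos).choose_spec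

lemma rt_ne {b : k} (hb : b ≠ 0) : rt b ≠ 0 := by
  intro h
  have := rt_sq b
  rw [h, zero_pow two_ne_zero, eq_comm, map_eq_zero] at this
  exact hb this

lemma sq_pm {b : k} {s : AlgebraicClosure k} (hs : s ^ 2 = algebraMap k _ b) :
    s = rt b ∨ s = - rt b := sq_eq_sq_iff_eq_or_eq_neg.1 (by rw [hs, rt_sq])

lemma rt_pm (σ : Gal k) (b : k) : σ (rt b) = rt b ∨ σ (rt b) = - rt b :=
  sq_pm (by rw [← map_pow, rt_sq, AlgEquiv.commutes])

lemma neg_ne {L : Type} [Field L] [CharZero L] {x : L} (hx : x ≠ 0) : -x ≠ x := by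
  intro h
  have h2 : (2 : L) * x = 0 := by linear_combination -h
  exact hx ((mul_eq_zero.1 h2).resolve_left two_ne_zero)

/-- the behaviour of any square root is that of the chosen one -/
lemma fix_iff {b : k} {s : AlgebraicClosure k} (hs : s ^ 2 = algebraMap k _ b) (σ : Gal k) :
    σ s = s ↔ σ (rt b) = rt b := by
  rcases sq_pm hs with h | h
  · rw [h]
  · rw [h, map_neg, neg_inj]

open Classical in
/-- the cocycle attached to `b` -/
noncomputable def fb (b : k) : Coch W := fun σ => if σ (rt b) = rt b then 0 else T0 hT _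

lemma fb_pos {b : k} {σ : Gal k} (h : σ (rt b) = rt b) : fb hT b σ = 0 := if_pos h

lemma fb_neg {b : k} {σ : Gal k} (h : σ (rt b) ≠ rt b) : fb hT b σ = T0 hT _ := if_neg h

lemma fb_cases (b : k) (σ : Gal k) : fb hT b σ = 0 ∨ fb hT b σ = T0 hT _ := by
  by_cases h : σ (rt b) = rt b
  · exact Or.inl (fb_pos hT h)
  · exact Or.inr (fb_neg hT h)

lemma fb_two (b : k) (σ : Gal k) : fb hT b σ + fb hT b σ = 0 := by
  rcases fb_cases hT b σ with h | h
  · rw [h, add_zero]
  · rw [h, T0_add]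

lemma fb_isX (b : k) (σ : Gal k) : IsX (W.baseChange (AlgebraicClosure k)) 0 (fb hT b σ) := by
  rcases fb_cases hT b σ with h | h
  · rw [h]; exact isX_zero 0
  · rw [h]; exact T0_isX hT _

lemma fb_zero_iff {b : k} {s : AlgebraicClosure k} (hs : s ^ 2 = algebraMap k _ b) (σ : Gal k) :
    fb hT b σ = 0 ↔ σ s = s := by
  rw [fix_iff hs]
  constructor
  · intro h
    by_contra h'
    rw [fb_neg hT h'] at h
    exact T0_ne hT _ h
  · exact fb_pos hT

lemma fb_eq {b : k} {s : AlgebraicClosure k} (hs : s ^ 2 = algebraMap k _ b)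
    {f : Coch W} (hf : ∀ σ, f σ = 0 ∨ f σ = T0 hT _) (h : ∀ σ, f σ = 0 ↔ σ s = s) :
    f = fb hT b := by
  funext σ
  by_cases h1 : σ s = s
  · rw [(h σ).2 h1, (fb_zero_iff hT hs σ).2 h1]
  · have h2 : f σ ≠ 0 := fun h3 => h1 ((h σ).1 h3)
    have h3 : fb hT b σ ≠ 0 := fun h3 => h1 ((fb_zero_iff hT hs σ).1 h3)
    rw [(hf σ).resolve_left h2, (fb_cases hT b σ).resolve_left h3]

lemma fb_add {b c : k} (hb : b ≠ 0) (hc : c ≠ 0) : fb hT (b * c) = fb hT b + fb hT c := by
  symm
  have hbc : rt b * rt c ≠ 0 := mul_ne_zero (rt_ne hb) (rt_ne hc)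
  refine fb_eq hT (s := rt b * rt c) (by rw [mul_pow, rt_sq, rt_sq, map_mul]) (fun σ => ?_)
    fun σ => ?_
  · change fb hT b σ + fb hT c σ = 0 ∨ fb hT b σ + fb hT c σ = _
    rcases fb_cases hT b σ with h | h <;> rcases fb_cases hT c σ with h' | h' <;> rw [h, h']
    · left; rw [add_zero]
    · right; rw [zero_add]
    · right; rw [add_zero]
    · left; rw [T0_add]
  · change fb hT b σ + fb hT c σ = 0 ↔ _
    rw [map_mul]
    rcases rt_pm σ b with h | h <;> rcases rt_pm σ c with h' | h'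
    · rw [fb_pos hT h, fb_pos hT h', h, h', add_zero]
      exact iff_of_true rfl rfl
    · rw [fb_pos hT h, fb_neg hT (by rw [h']; exact neg_ne (rt_ne hc)), h, h', zero_add]
      refine iff_of_false (T0_ne hT _) ?_
      rw [mul_neg]
      exact neg_ne hbc
    · rw [fb_neg hT (by rw [h]; exact neg_ne (rt_ne hb)), fb_pos hT h', h, h', add_zero]
      refine iff_of_false (T0_ne hT _) ?_
      rw [neg_mul]
      exact neg_ne hbc
    · rw [fb_neg hT (by rw [h]; exact neg_ne (rt_ne hb)),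
        fb_neg hT (by rw [h']; exact neg_ne (rt_ne hc)), h, h', T0_add]
      exact iff_of_true rfl (neg_mul_neg _ _)

lemma fb_sq (y : k) : fb hT (y ^ 2) = 0 := by
  funext σ
  refine (fb_zero_iff hT (s := algebraMap k _ y) (by rw [map_pow]) σ).2 ?_
  exact AlgEquiv.commutes σ y

lemma fb_inj {b : k} (h : fb hT b = 0) : ∃ y : k, y ^ 2 = b := by
  obtain ⟨y, hy⟩ := fix_mem (rt b) (fun σ =>
    (fb_zero_iff hT (rt_sq b) σ).1 (congrFun h σ))
  refine ⟨y, (algebraMap k (AlgebraicClosure k)).injective ?_⟩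
  rw [map_pow, hy, rt_sq]

lemma fb_coc (b : k) : IsCoc W (fb hT b) := by
  classical
  refine coc_of_fin (fun σ τ => ?_) {rt b} (fun σ hσ => fb_pos hT (hσ _ (by simp)))
  by_cases hb : b = 0
  · have h0 : rt b = 0 := by
      have := rt_sq b
      rw [hb, map_zero] at this
      rw [hb]
      exact pow_eq_zero_iff two_ne_zero |>.1 this
    have h1 : ∀ σ : Gal k, fb hT b σ = 0 := fun σ => fb_pos hT (by rw [h0, map_zero])
    rw [h1, h1, h1, map_zero, add_zero]
  · have h0 := rt_ne hb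
    have hact : act W σ.toAlgHom (fb hT b τ) = fb hT b τ := by
      rcases fb_cases hT b τ with h | h
      · rw [h, map_zero]
      · rw [h, T0_act]
    rw [hact]
    have h3 : (σ * τ) (rt b) = σ (τ (rt b)) := rfl
    rcases rt_pm σ b with h | h <;> rcases rt_pm τ b with h' | h'
    · rw [fb_pos hT h, fb_pos hT h', fb_pos hT (by rw [h3, h', h]), add_zero]
    · have e1 : τ (rt b) ≠ rt b := by rw [h']; exact neg_ne h0
      have e2 : (σ * τ) (rt b) ≠ rt b := by rw [h3, h', map_neg, h]; exact neg_ne h0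
      rw [fb_pos hT h, fb_neg hT e1, fb_neg hT e2, zero_add]
    · have e1 : σ (rt b) ≠ rt b := by rw [h]; exact neg_ne h0
      have e2 : (σ * τ) (rt b) ≠ rt b := by rw [h3, h', h]; exact neg_ne h0
      rw [fb_neg hT e1, fb_pos hT h', fb_neg hT e2, add_zero]
    · have e1 : τ (rt b) ≠ rt b := by rw [h']; exact neg_ne h0
      have e2 : σ (rt b) ≠ rt b := by rw [h]; exact neg_ne h0
      have e3 : (σ * τ) (rt b) = rt b := by rw [h3, h', map_neg, h, neg_neg]
      rw [fb_neg hT e1, fb_neg hT e2, fb_pos hT e3, T0_add]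

/-- the class is locally trivial when `b` is a square -/
lemma fb_loc_sq {b : k} {L : Type} [Field L] [Algebra k L] {z : L}
    (hz : z ^ 2 = algebraMap k L b) : LocTriv W L (fb hT b) := by
  intro ι
  refine ⟨0, fun τ σ hτ => ?_⟩
  rw [map_zero, sub_zero]
  have h1 : ι (rt b) ^ 2 = (algebraMap L (AlgebraicClosure L) z) ^ 2 := by
    rw [← map_pow, rt_sq, ← map_pow, hz, AlgHom.commutes,
      IsScalarTower.algebraMap_apply k L (AlgebraicClosure L)]
  have h2 : σ (rt b) = rt b := by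
    apply ι.toRingHom.injective
    change ι (σ (rt b)) = ι (rt b)
    rw [← hτ]
    rcases sq_eq_sq_iff_eq_or_eq_neg.1 h1 with h | h
    · rw [h, AlgEquiv.commutes]
    · rw [h, map_neg, AlgEquiv.commutes]
  rw [fb_pos hT h2, map_zero]

/-- the class is locally trivial when `b` comes from a point of the isogenous curve -/
lemma fb_loc {b : k} {L : Type} [Field L] [CharZero L] [Algebra k L] {z Y : L}
    (hb : b ≠ 0) (hz : z ≠ 0)
    (hY : Y ^ 2 = algebraMap k L b * z ^ 2 * ((algebraMap k L b * z ^ 2 - algebraMap k L A) ^ 2 -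
      4 * algebraMap k L B)) : LocTriv W L (fb hT b) := by
  intro ι
  have hcz := cz L (AlgebraicClosure L)
  obtain ⟨ρ, hρ⟩ : ∃ ρ : AlgebraicClosure L, ρ = ι (rt b) * algebraMap L _ z := ⟨_, rfl⟩
  obtain ⟨m, hm⟩ : ∃ m : L, m = algebraMap k L b * z ^ 2 := ⟨_, rfl⟩
  have hρ2 : ρ ^ 2 = algebraMap L _ m := by
    rw [hρ, mul_pow, ← map_pow, rt_sq, AlgHom.commutes, hm, map_mul, map_pow,
      IsScalarTower.algebraMap_apply k L (AlgebraicClosure L)]
  have hm0 : m ≠ 0 := by
    rw [hm]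
    exact mul_ne_zero ((map_ne_zero _).2 hb) (pow_ne_zero 2 hz)
  have hρ0 : ρ ≠ 0 := by
    rintro rfl
    rw [zero_pow two_ne_zero, eq_comm, map_eq_zero] at hρ2
    exact hm0 hρ2
  rw [← hm] at hY
  have hTL := hT.base (L := AlgebraicClosure L)
  obtain ⟨a', ha'⟩ : ∃ a' : AlgebraicClosure L, a' = algebraMap k _ A := ⟨_, rfl⟩
  obtain ⟨b', hb'⟩ : ∃ b' : AlgebraicClosure L, b' = algebraMap k _ B := ⟨_, rfl⟩
  rw [← ha', ← hb'] at hTL
  have hA : algebraMap L (AlgebraicClosure L) (algebraMap k L A) = a' := by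
    rw [ha', IsScalarTower.algebraMap_apply k L (AlgebraicClosure L)]
  have hB : algebraMap L (AlgebraicClosure L) (algebraMap k L B) = b' := by
    rw [hb', IsScalarTower.algebraMap_apply k L (AlgebraicClosure L)]
  have hb0 : b' ≠ 0 := hTL.hB
  obtain ⟨η, hη⟩ : ∃ η : AlgebraicClosure L, η = algebraMap L _ Y := ⟨_, rfl⟩
  have hY' : η ^ 2 = ρ ^ 2 * ((ρ ^ 2 - a') ^ 2 - 4 * b') := by
    rw [hη, ← map_pow, hY, map_mul, map_sub, map_pow, map_sub, map_mul, map_ofNat, hA, hB, hρ2]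
  obtain ⟨x, hx⟩ : ∃ x : AlgebraicClosure L, x = (ρ ^ 2 - a' + η / ρ) / 2 := ⟨_, rfl⟩
  obtain ⟨x', hx'⟩ : ∃ x' : AlgebraicClosure L, x' = (ρ ^ 2 - a' - η / ρ) / 2 := ⟨_, rfl⟩
  have hxx : x * x' = b' := by
    have h1 : (η / ρ) ^ 2 = (ρ ^ 2 - a') ^ 2 - 4 * b' := by
      rw [div_pow, hY']
      field_simp
    rw [hx, hx']
    linear_combination (-1 / 4 : AlgebraicClosure L) * h1
  have hxs : x + x' = ρ ^ 2 - a' := by
    rw [hx, hx']; ring
  have hx0 : x ≠ 0 := by
    rintro rfl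
    rw [zero_mul] at hxx
    exact hb0 hxx.symm
  have heq : (ρ * x) ^ 2 = x * (x ^ 2 + a' * x + b') := by
    linear_combination (-x ^ 2) * hxs + x * hxx
  have hns : (W.baseChange (AlgebraicClosure L)).toAffine.Nonsingular x (ρ * x) := by
    rw [bcT hT (AlgebraicClosure L), ← ha', ← hb']
    exact cu_ns hTL.hB hTL.hD (by linear_combination heq)
  let Q : Pt W (AlgebraicClosure L) := sm x (ρ * x) hns
  refine ⟨Q, fun τ σ hτ => ?_⟩
  have hτρ2 : ∀ y : L, τ (algebraMap L _ y) = algebraMap L _ y := fun y => AlgEquiv.commutes τ y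
  have hτa : τ a' = a' := by rw [← hA]; exact hτρ2 _
  have hτη : τ η = η := by rw [hη]; exact hτρ2 _
  have hτρ : τ ρ = ι (σ (rt b)) * algebraMap L _ z := by rw [hρ, map_mul, hτ, hτρ2]
  have hQ : act W (τ.toAlgHom.restrictScalars k) Q = sm (τ x) (τ (ρ * x))
      ((Affine.baseChange_nonsingular W (τ.toAlgHom.restrictScalars k).injective ..).mpr hns) := rfl
  rcases rt_pm σ b with h | h
  · have h1 : τ ρ = ρ := by rw [hτρ, h, hρ]
    have h2 : τ x = x := by
      rw [hx, map_div₀, map_add, map_sub, map_pow, map_div₀, h1, hτa, hτη, map_ofNat]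
    rw [fb_pos hT h, map_zero, eq_comm, sub_eq_zero, hQ]
    exact pt_congr _ _ _ h2 (by rw [map_mul, h1, h2])
  · have h1 : τ ρ = -ρ := by rw [hτρ, h, hρ, map_neg, neg_mul]
    have h2 : τ x = x' := by
      rw [hx, map_div₀, map_add, map_sub, map_pow, map_div₀, h1, hτa, hτη, map_ofNat, hx']
      ring
    have h3 : σ (rt b) ≠ rt b := by
      rw [h]; exact neg_ne (rt_ne hb)
    rw [fb_neg hT h3, T0_act, eq_sub_iff_add_eq, add_comm]
    obtain ⟨h', h4⟩ := T0_some hT (AlgebraicClosure L) hns hx0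
    refine h4.trans ?_
    rw [hQ]
    refine pt_congr _ _ _ ?_ ?_
    · rw [h2, div_eq_iff hx0, ← hb', ← hxx]; ring
    · rw [map_mul, h1, h2, ← hb', ← hxx]
      field_simp

end

end Pool.Agent.R432
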