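import Mathlib

/-!
# A character sum over a finite field
-/

set_option autoImplicit false

namespace Pool.Agent.R432

section

variable {k : Type} [Field k] [Finite k]

/-- a nonsquare `x` such that `(x - e₁) (x - e₂)` is zero or a nonsquare -/
theorem exists_nonsq (h2 : (2 : k) ≠ 0) {e₁ e₂ : k} (h12 : e₁ ≠ e₂) (h1 : e₁ ≠ 0) (h3 : e₂ ≠ 0) :
    ∃ x : k, ¬ IsSquare x ∧ ((x - e₁) * (x - e₂) = 0 ∨ ¬ IsSquare ((x - e₁) * (x - e₂))) := by
  classical
  have : Fintype k := Fintype.ofFinite k
  have hchar : ringChar k ≠ 2 := by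
    intro h
    apply h2
    have := CharP.cast_eq_zero k (ringChar k)
    rw [h] at this
    exact_mod_cast this
  by_contra hcon
  push Not at hcon
  -- all nonsquares have a nonzero square value
  set χ := quadraticChar k with hχ
  have hsum0 : ∑ x : k, χ x = 0 := quadraticChar_sum_zero hchar
  have hχ0 : χ 0 = 0 := MulChar.map_zero _
  -- the sum of the quadratic polynomial
  have hquad : ∑ x : k, χ ((x - e₁) * (x - e₂)) = -1 := by
    have hd : e₁ - e₂ ≠ 0 := sub_ne_zero.2 h12
    have e1 : ∑ x : k, χ ((x - e₁) * (x - e₂)) = ∑ y : k, χ (y * (y + (e₁ - e₂))) := by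
      refine Fintype.sum_equiv (Equiv.subRight e₁) _ _ fun x => ?_
      rw [Equiv.subRight_apply]
      congr 1
      ring
    have e2 : ∀ y : k, χ (y * (y + (e₁ - e₂))) = χ (1 + (e₁ - e₂) * y⁻¹) -
        (if y = 0 then 1 else 0) := by
      intro y
      by_cases hy : y = 0
      · rw [hy]; simp [hχ0]
      · rw [if_neg hy, sub_zero]
        have e3 : y * (y + (e₁ - e₂)) = y ^ 2 * (1 + (e₁ - e₂) * y⁻¹) := by
          field_simp
        rw [e3, map_mul, quadraticChar_sq_one' hy, one_mul]
    rw [e1, Finset.sum_congr rfl fun y _ => e2 y, Finset.sum_sub_distrib]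
    have e4 : ∑ y : k, χ (1 + (e₁ - e₂) * y⁻¹) = ∑ z : k, χ z := by
      refine Fintype.sum_bijective (fun y : k => 1 + (e₁ - e₂) * y⁻¹) ?_ _ _ fun x => rfl
      apply Finite.injective_iff_bijective.1
      intro y z hyz
      have h5 : (e₁ - e₂) * y⁻¹ = (e₁ - e₂) * z⁻¹ := add_left_cancel hyz
      exact inv_injective (mul_left_cancel₀ hd h5)
    rw [e4, hsum0]
    simp
  -- the contradiction
  have hval : ∀ x : k, χ x = 1 ∨ χ x = -1 ∨ x = 0 := by
    intro x
    by_cases hx : x = 0
    · exact Or.inr (Or.inr hx)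
    · rcases quadraticChar_dichotomy hx with h | h
      · exact Or.inl h
      · exact Or.inr (Or.inl h)
  have hle : ∀ x : k, -1 ≤ χ x ∧ χ x ≤ 1 := by
    intro x
    rcases hval x with h | h | h
    · rw [h]; decide
    · rw [h]; decide
    · rw [h, MulChar.map_zero]; decide
  -- termwise bound
  have hterm : ∀ x : k, x ≠ 0 → -χ x ≤ χ ((x - e₁) * (x - e₂)) := by
    intro x hx
    rcases hval x with h | h | h
    · rw [h]; exact (hle _).1
    · have hns : ¬ IsSquare x := by
        rw [← quadraticChar_neg_one_iff_not_isSquare]; exact h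
      obtain ⟨h5, h6⟩ := hcon x hns
      rw [h, (quadraticChar_one_iff_isSquare h5).2 h6]
      decide
    · exact absurd h hx
  have hs1 : ∑ x : k, χ ((x - e₁) * (x - e₂)) = χ (e₁ * e₂) +
      ∑ x ∈ Finset.univ.erase (0 : k), χ ((x - e₁) * (x - e₂)) := by
    rw [← Finset.add_sum_erase _ _ (Finset.mem_univ (0 : k))]
    congr 2
    ring
  have hs2 : ∑ x ∈ Finset.univ.erase (0 : k), χ x = 0 := by
    have := Finset.add_sum_erase Finset.univ (fun x : k => χ x) (Finset.mem_univ (0 : k))
    rwa [hsum0, hχ0, zero_add] at this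
  -- one of the roots is a nonsquare
  by_cases hsq : χ (e₁ * e₂) = -1
  · have hns : ¬ IsSquare e₁ ∨ ¬ IsSquare e₂ := by
      by_contra h
      push Not at h
      have := (quadraticChar_one_iff_isSquare (mul_ne_zero h1 h3)).2 (h.1.mul h.2)
      rw [← hχ, hsq] at this
      exact absurd this (by decide)
    rcases hns with h | h
    · exact (hcon e₁ h).1 (by ring)
    · exact (hcon e₂ h).1 (by ring)
  · have h7 : χ (e₁ * e₂) = 1 :=
      (quadraticChar_dichotomy (mul_ne_zero h1 h3)).resolve_right hsq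
    rw [hquad, h7] at hs1
    have h8 : ∑ x ∈ Finset.univ.erase (0 : k), (-χ x) ≤
        ∑ x ∈ Finset.univ.erase (0 : k), χ ((x - e₁) * (x - e₂)) :=
      Finset.sum_le_sum fun x hx => hterm x (Finset.ne_of_mem_erase hx)
    rw [Finset.sum_neg_distrib, hs2] at h8
    omega

end

end Pool.Agent.R432
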