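import Pool.Agent.R432.FB

/-!
# Corestriction and the cocycles attached to a rational point of order two
-/

set_option autoImplicit false
set_option linter.unusedSectionVars false

attribute [-instance] DivisionRing.toRatAlgebra

namespace Pool.Agent.R432

open WeierstrassCurve

open Pool.Agent.TH841.NF

open Pool.Agent.TH841.SH (IsX isX_zero isX_some not_isX)

open Pool.Agent.TH841.SH.D (Pt act Gal Coch IsCoc IsCob LocTriv cob)

open Pool.Agent.Y682

section

variable {F : Type} [Field F] [NumberField F] [Algebra ℚ F]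
  {E : WeierstrassCurve ℚ} {W : WeierstrassCurve F} (hW : Sc (algebraMap ℚ F) 1 E W)
  (e : AlgebraicClosure F ≃+* Qb) {A B : ℚ} {A' B' : F} (hE : IsT E A B) (hT : IsT W A' B')

lemma tm_T0 {L L' : Type} [Field L] [Algebra F L] [Field L'] [Algebra ℚ L'] (φ : L →+* L') :
    tm (sc_any hW φ) (T0 hT L) = T0 hE L' := by
  unfold T0
  rw [tm_some]
  refine pt_congr _ _ _ ?_ ?_
  · rw [map_zero, zero_mul]
  · rw [map_zero, zero_mul]

lemma tm_T0' {L L' : Type} [Field L] [Algebra F L] [Field L'] [Algebra ℚ L'] (φ : L' →+* L) :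
    tm (sc_any' hW φ) (T0 hE L') = T0 hT L := by
  unfold T0
  rw [tm_some]
  refine pt_congr _ _ _ ?_ ?_
  · rw [map_zero, zero_mul]
  · rw [map_zero, zero_mul]

/-- the restriction of the cocycle of a rational number -/
lemma rs_fb (β : ℚ) : rs hW e (fb hE β) = fb hT (algebraMap ℚ F β) := by
  refine fb_eq hT (s := e.symm (rt β)) ?_ (fun σ => ?_) (fun σ => ?_)
  · rw [← map_pow, rt_sq]
    exact DFunLike.congr_fun (Subsingleton.elim
      ((e.symm : Qb →+* AlgebraicClosure F).comp (algebraMap ℚ Qb))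
      ((algebraMap F (AlgebraicClosure F)).comp (algebraMap ℚ F))) β
  · rcases fb_cases hE β (cQ e σ) with h | h
    · left
      unfold rs
      rw [h, map_zero]
    · right
      unfold rs
      rw [h]
      exact tm_T0' hW hE hT _
  · unfold rs
    have h1 : tm (sc_any' hW (e.symm : Qb →+* AlgebraicClosure F)) (fb hE β (cQ e σ)) = 0 ↔
        fb hE β (cQ e σ) = 0 := by
      constructor
      · intro h
        apply tm_inj (sc_any' hW (e.symm : Qb →+* AlgebraicClosure F))
        rw [h, map_zero]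
      · intro h
        rw [h, map_zero]
    rw [h1, fb_zero_iff hE (rt_sq β)]
    change e (σ (e.symm (rt β))) = rt β ↔ _
    rw [← RingEquiv.eq_symm_apply]

lemma tr_fb_cases (b : F) (g : Gal ℚ) :
    tr hW e (fb hT b) g = 0 ∨ tr hW e (fb hT b) g = T0 hE Qb := by
  unfold tr
  rcases fb_cases hT b (cF e g) with h | h
  · left; rw [h, map_zero]
  · right; rw [h]; exact tm_T0 hW hE hT _

lemma aG_T0 (g : Gal ℚ) : aG E g (T0 hE Qb) = T0 hE Qb := T0_act hE _

lemma co_fb_cases (b : F) (g : Gal ℚ) :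
    co hW e (fb hT b) g = 0 ∨ co hW e (fb hT b) g = T0 hE Qb := by
  unfold co cor
  have h1 : ∀ S : Finset (Gal ℚ ⧸ HF e), (∑ q ∈ S, (1 : Gal ℚ →* ℤ) (sec (HF e) (g • q)) •
      aG E (sec (HF e) (g • q)) (tr hW e (fb hT b)
        ((sec (HF e) (g • q))⁻¹ * g * sec (HF e) q))) = 0 ∨
      (∑ q ∈ S, (1 : Gal ℚ →* ℤ) (sec (HF e) (g • q)) •
      aG E (sec (HF e) (g • q)) (tr hW e (fb hT b)
        ((sec (HF e) (g • q))⁻¹ * g * sec (HF e) q))) = T0 hE Qb := by
    classical
    intro S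
    induction S using Finset.induction_on with
    | empty => left; rfl
    | insert q S hq ih =>
      rw [Finset.sum_insert hq]
      have h2 : ∀ x : Pt E Qb, (1 : Gal ℚ →* ℤ) (sec (HF e) (g • q)) • x = x := fun x =>
        one_smul ℤ x
      rw [h2]
      rcases tr_fb_cases hW e hE hT b ((sec (HF e) (g • q))⁻¹ * g * sec (HF e) q) with h | h <;>
        rcases ih with h' | h'
      · left; rw [h, h', map_zero, add_zero]
      · right; rw [h, h', map_zero, zero_add]
      · right; rw [h, h', aG_T0, add_zero]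
      · left; rw [h, h', aG_T0, T0_add]
  exact h1 Finset.univ

variable [FiniteDimensional ℚ F]

/-- the corestriction -/
lemma co_fb {b : F} (hb : b ≠ 0) : co hW e (fb hT b) = fb hE (Algebra.norm ℚ b) := by
  have hs := rt_sq b
  have h4 := nu_act hW e (f := fb hT b) (torsT hE) (e2 E) (if_pos rfl)
    (fun P hP Q hQ => e2_add hE hP hQ)
    (fun g P hP => by
      refine ⟨⟨?_, (act_isX E g.toAlgHom P).2 hP.2⟩, ?_⟩
      · rw [← map_add, hP.1, map_zero]
      · have h5 := act_zero_iff (W := E) g.toAlgHom P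
        by_cases h6 : P = 0
        · exact (e2_pos (h5.2 h6)).trans (e2_pos h6).symm
        · exact (e2_neg (fun h => h6 (h5.1 h))).trans (e2_neg h6).symm)
    (e (rt b))
    (fun h hh => by
      have hX' := (tm_isX (sc_any hW (e : AlgebraicClosure F →+* Qb)) (fb hT b (cF e h))).2
        (fb_isX hT b _)
      refine ⟨⟨?_, hX'⟩, ?_⟩
      · change tm _ _ + tm _ _ = 0
        rw [← map_add, fb_two, map_zero]
      · rw [← e_cF e hh]
        have h5 := tm_zero_iff (sc_any hW (e : AlgebraicClosure F →+* Qb)) (fb hT b (cF e h))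
        by_cases h6 : fb hT b (cF e h) = 0
        · have h7 : e2 E (tr hW e (fb hT b) h) = 1 := e2_pos (h5.2 h6)
          rw [h7, (fb_zero_iff hT hs _).1 h6]
          simp
        · have h7 : e2 E (tr hW e (fb hT b) h) = -1 := e2_neg (fun h => h6 (h5.1 h))
          have h8 : cF e h (rt b) = - rt b :=
            (rt_pm _ b).resolve_left (fun h8 => h6 (fb_pos hT h8))
          rw [h7, h8, map_neg]
          simp)
  have hnorm : (∏ q, sec (HF e) q (e (rt b))) ^ 2 = algebraMap ℚ Qb (Algebra.norm ℚ b) := by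
    rw [← prod_norm e, ← Finset.prod_pow]
    refine Finset.prod_congr rfl fun q _ => ?_
    rw [← map_pow, ← map_pow, hs]
    rfl
  have h0 : (∏ q, sec (HF e) q (e (rt b))) ≠ 0 := by
    intro h
    rw [h, zero_pow two_ne_zero, eq_comm, map_eq_zero, Algebra.norm_eq_zero_iff] at hnorm
    exact hb hnorm
  refine fb_eq hE hnorm (co_fb_cases hW e hE hT b) (fun σ => ?_)
  have h5 := h4 σ
  constructor
  · intro h
    rw [h5, e2_pos h, Int.cast_one, one_mul]
  · intro h
    by_contra h6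
    rw [h5, e2_neg h6] at h
    push_cast at h
    apply neg_ne h0
    linear_combination h

end

/-! ### Compatibility of the isogeny with the transport -/

section iso

variable {F : Type} [Field F] [NumberField F] [Algebra ℚ F]
  {E E0 : WeierstrassCurve ℚ} {W W0 : WeierstrassCurve F} (hW : Sc (algebraMap ℚ F) 1 E W)
  (hW0 : Sc (algebraMap ℚ F) 1 E0 W0) (e : AlgebraicClosure F ≃+* Qb) {a b a' b' u : ℚ}
  (hQ : KDat E E0 a b a' b' u)
  (hF : KDat W W0 (algebraMap ℚ F a) (algebraMap ℚ F b) (algebraMap ℚ F a') (algebraMap ℚ F b')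
    (algebraMap ℚ F u))

lemma tm_iso {L L' : Type} [Field L] [Algebra F L] [Field L'] [Algebra ℚ L'] (φ : L →+* L')
    (P : Pt W L) : tm (sc_any hW0 φ) (isoH L hF P) = isoH L' hQ (tm (sc_any hW φ) P) := by
  have key : ∀ x : ℚ, φ (algebraMap F L (algebraMap ℚ F x)) = algebraMap ℚ L' x := fun x =>
    (rat_hom ((φ.comp (algebraMap F L)).comp (algebraMap ℚ F)) x)
  rcases P with _ | ⟨x, y, hxy⟩
  · have e1 : isoH L hF (0 : Pt W L) = 0 := map_zero _
    have e2 : isoH L' hQ (0 : Pt E L') = 0 := map_zero _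
    have e3 : tm (sc_any hW φ) (0 : Pt W L) = 0 := map_zero _
    change tm (sc_any hW0 φ) (isoH L hF (0 : Pt W L)) = isoH L' hQ (tm (sc_any hW φ) (0 : Pt W L))
    rw [e1, e3, e2, map_zero]
  · by_cases hx : x = 0
    · rw [isoH_zero L hF hxy hx, map_zero, tm_some]
      exact (isoH_zero L' hQ _ (by rw [hx, map_zero, zero_mul])).symm
    · obtain ⟨h1, e1⟩ := isoH_some L hF hxy hx
      rw [e1, tm_some, tm_some]
      obtain ⟨h2, e2⟩ := isoH_some L' hQ ((ns_iff (sc_any hW φ) x y).2 hxy) (by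
        rw [one_pow, mul_one]; exact (map_ne_zero φ).2 hx)
      rw [e2]
      refine pt_congr _ _ _ ?_ ?_
      · simp only [map_div₀, map_mul, map_pow, key, one_pow, mul_one]
      · simp only [map_div₀, map_mul, map_pow, map_sub, key, one_pow, mul_one]

end iso

/-! ### Natural families over `ℚ` and over `F` -/

/-- the two families of homomorphisms are compatible -/
def Cpt {F : Type} [Field F] [NumberField F] [Algebra ℚ F]
    {E E0 : WeierstrassCurve ℚ} {W W0 : WeierstrassCurve F} (hW : Sc (algebraMap ℚ F) 1 E W)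
    (hW0 : Sc (algebraMap ℚ F) 1 E0 W0) (hQ : NH E E0) (hF : NH W W0) : Prop :=
  ∀ (L L' : Type) [Field L] [Algebra F L] [Field L'] [Algebra ℚ L'] (φ : L →+* L')
    (P : Pt W L), tm (sc_any hW0 φ) (hF.f L P) = hQ.f L' (tm (sc_any hW φ) P)

section cpt

variable {F : Type} [Field F] [NumberField F] [Algebra ℚ F]
  {E E0 E1 : WeierstrassCurve ℚ} {W W0 W1 : WeierstrassCurve F}
  (hW : Sc (algebraMap ℚ F) 1 E W)
  (hW0 : Sc (algebraMap ℚ F) 1 E0 W0) (hW1 : Sc (algebraMap ℚ F) 1 E1 W1)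
  (e : AlgebraicClosure F ≃+* Qb)
  {hQ : NH E E0} {hF : NH W W0} {hQ1 : NH E0 E1} {hF1 : NH W0 W1}

lemma Cpt.comp (h : Cpt hW hW0 hQ hF) (h' : Cpt hW0 hW1 hQ1 hF1) :
    Cpt hW hW1 (hQ.comp hQ1) (hF.comp hF1) := by
  intro L L' _ _ _ _ φ P
  change tm (sc_any hW1 φ) (hF1.f L (hF.f L P)) = hQ1.f L' (hQ.f L' (tm (sc_any hW φ) P))
  rw [h', h]

lemma cpt_tr {r : ℚ} (SQ : Tr r E E0) (SF : Tr (algebraMap ℚ F r) W W0) :
    Cpt hW hW0 (NH.tr SQ) (NH.tr SF) := by
  intro L L' _ _ _ _ φ P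
  have key : ∀ x : ℚ, φ (algebraMap F L (algebraMap ℚ F x)) = algebraMap ℚ L' x := fun x =>
    (rat_hom ((φ.comp (algebraMap F L)).comp (algebraMap ℚ F)) x)
  rcases P with _ | ⟨x, y, hxy⟩
  · rfl
  · change tm (sc_any hW0 φ) (trH SF L _) = trH SQ L' _
    rw [trH_some, tm_some, tm_some, trH_some]
    refine pt_congr _ _ _ ?_ rfl
    rw [map_sub, key]
    ring

variable (hc : Cpt hW hW0 hQ hF)

include hc in
/-- the isogeny commutes with the corestriction -/
lemma co_iC (f : Coch W) : co hW0 e (iC hF f) = iC hQ (co hW e f) := by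
  funext g
  change cor _ _ _ (tr hW0 e (iC hF f)) g = hQ.f Qb (cor _ _ _ (tr hW e f) g)
  unfold cor
  rw [map_sum]
  refine Finset.sum_congr rfl fun q _ => ?_
  have h1 : ∀ x : Pt E0 Qb, (1 : Gal ℚ →* ℤ) (sec (HF e) (g • q)) • x = x := fun x =>
    one_smul ℤ x
  have h2 : ∀ x : Pt E Qb, (1 : Gal ℚ →* ℤ) (sec (HF e) (g • q)) • x = x := fun x =>
    one_smul ℤ x
  rw [h1, h2]
  have h3 : tr hW0 e (iC hF f) ((sec (HF e) (g • q))⁻¹ * g * sec (HF e) q) =
      hQ.f Qb (tr hW e f ((sec (HF e) (g • q))⁻¹ * g * sec (HF e) q)) :=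
    hc _ _ (e : AlgebraicClosure F →+* Qb) _
  rw [h3]
  exact hQ.nat (sec (HF e) (g • q)).toAlgHom _

include hc in
lemma coS_iS {x : Pool.Agent.TH841.NF.D.Sha W} (hx : coS hW e x = 0) :
    coS hW0 e (iS hF x) = 0 := by
  induction x using QuotientAddGroup.induction_on with
  | H f =>
    have h2 : IsCob E (co hW e f.1) := (QuotientAddGroup.eq_zero_iff (coC hW e f)).1 hx
    obtain ⟨P, hP⟩ := isCob_iff.1 h2
    refine (QuotientAddGroup.eq_zero_iff (coC hW0 e (iCC hF f))).2 ?_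
    change IsCob E0 (co hW0 e (iC hF f.1))
    rw [co_iC hW hW0 e hc, hP, iC_dl]
    exact isCob_iff.2 ⟨_, rfl⟩

end cpt

lemma cpt_iso {F : Type} [Field F] [NumberField F] [Algebra ℚ F]
    {E E0 : WeierstrassCurve ℚ} {W W0 : WeierstrassCurve F} (hW : Sc (algebraMap ℚ F) 1 E W)
    (hW0 : Sc (algebraMap ℚ F) 1 E0 W0) {a b a' b' u : ℚ}
    (hQ : KDat E E0 a b a' b' u)
    (hF : KDat W W0 (algebraMap ℚ F a) (algebraMap ℚ F b) (algebraMap ℚ F a') (algebraMap ℚ F b')
      (algebraMap ℚ F u)) : Cpt hW hW0 (NH.iso hQ) (NH.iso hF) := by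
  intro L L' _ _ _ _ φ P
  exact tm_iso hW hW0 hQ hF φ P

end Pool.Agent.R432
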