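import Pool.Agent.R432.FN

/-!
# The kernel of the corestriction on the isogenous curve
-/

set_option autoImplicit false
set_option linter.unusedSectionVars false

attribute [-instance] DivisionRing.toRatAlgebra

namespace Pool.Agent.R432

open WeierstrassCurve NumberField IsDedekindDomain

open Pool.Agent.TH841.NF

open Pool.Agent.TH841.SH (IsX isX_zero isX_some not_isX)

open Pool.Agent.TH841.SH.D (Pt act Gal Coch IsCoc IsCob LocTriv cob)

open Pool.Agent.Y682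

section

variable {k : Type} [Field k] [CharZero k] {W W0 : WeierstrassCurve k} {A B : k}

/-- the kernel of the family is generated by `(0, 0)` -/
def KerT (h : NH W W0) (hT : IsT W A B) : Prop :=
  (∀ (L : Type) [Field L] [Algebra k L] (P : Pt W L), h.f L P = 0 → P = 0 ∨ P = T0 hT L) ∧
  ∀ (L : Type) [Field L] [Algebra k L], h.f L (T0 hT L) = 0

/-- the composition is the multiplication by two -/
def Dbl (h' : NH W0 W) (h : NH W W0) : Prop :=
  ∀ (L : Type) [Field L] [Algebra k L] (P : Pt W0 L), h.f L (h'.f L P) = P + P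

lemma kerT_iso {a b a' b' u : k} (h : KDat W W0 a b a' b' u) (hT : IsT W A B) :
    KerT (NH.iso h) hT := by
  refine ⟨fun L _ _ P hP => ?_, fun L _ _ => isoH_zero L h _ rfl⟩
  rcases isoH_ker L h P hP with h1 | ⟨h0, h1⟩
  · exact Or.inl h1
  · exact Or.inr h1

lemma KerT.tr {W1 : WeierstrassCurve k} {h : NH W W0} {hT : IsT W A B} (hk : KerT h hT) {r : k}
    (S : Tr r W0 W1) (S' : Tr (-r) W1 W0) : KerT (h.comp (NH.tr S)) hT := by
  refine ⟨fun L _ _ P hP => ?_, fun L _ _ => ?_⟩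
  · apply hk.1 L P
    have h1 : trH S L (h.f L P) = 0 := hP
    rw [← trH_inv S S' L (h.f L P), h1, map_zero]
  · change trH S L (h.f L (T0 hT L)) = 0
    rw [hk.2, map_zero]

lemma dbl_iso {a b a' b' u u' : k} (h : KDat W W0 a b a' b' u) (h' : KDat W0 W a' b' a b u')
    (huu : u' * u = 2) : Dbl (NH.iso h') (NH.iso h) := fun L _ _ P => isoH_dbl L h' h huu P

lemma Dbl.tr {W1 : WeierstrassCurve k} {h : NH W W0} {h' : NH W0 W} (hd : Dbl h' h) {r : k}
    (S : Tr r W0 W1) (S' : Tr (-r) W1 W0) :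
    Dbl ((NH.tr S').comp h') (h.comp (NH.tr S)) := by
  intro L _ _ P
  change trH S L (h.f L (h'.f L (trH S' L P))) = P + P
  have S'' : Tr (-(-r)) W0 W1 := by rw [neg_neg]; exact S
  have h1 : trH S L (trH S' L P) = P := by
    rcases P with _ | ⟨x, y, hn⟩
    · rfl
    · rw [trH_some, trH_some]
      exact pt_congr _ _ _ (by rw [map_neg]; ring) rfl
  rw [hd, map_add, h1]

/-- the isogeny is surjective over an algebraically closed field -/
lemma nh_surj {a' b' : k} {h : NH W W0} {h' : NH W0 W} (hd : Dbl h' h)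
    (hT0 : IsT W0 a' b') (P : Pt W0 (AlgebraicClosure k)) :
    ∃ Q, h.f (AlgebraicClosure k) Q = P := by
  obtain ⟨R, hR⟩ := exists_half hT0 P
  exact ⟨h'.f (AlgebraicClosure k) R, by rw [hd, hR]⟩

/-- a cocycle killed by the isogeny is the cocycle of an element -/
lemma exists_fb {h : NH W W0} {hT : IsT W A B} (hk : KerT h hT) {f : Coch W} (hf : IsCoc W f)
    (hif : iC h f = 0) : ∃ c : k, c ≠ 0 ∧ f = fb hT c ∧
      ∀ (F : Type) [Field F] [CharZero F] [Algebra k F], LocTriv W F f →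
        ∃ z m : F, z ≠ 0 ∧ algebraMap k F c * z ^ 2 = m ∧
          S2 (algebraMap k F A) (algebraMap k F B) m := by
  have h1 : ∀ σ, f σ = 0 ∨ f σ = T0 hT _ := fun σ => hk.1 _ _ (congrFun hif σ)
  have h2 : ∀ σ, f σ + f σ = 0 := by
    intro σ
    rcases h1 σ with h3 | h3
    · rw [h3, add_zero]
    · rw [h3, T0_add]
  have hX : ∀ σ, IsX (W.baseChange (AlgebraicClosure k)) 0 (f σ) := by
    intro σ
    rcases h1 σ with h3 | h3
    · rw [h3]; exact isX_zero 0
    · rw [h3]; exact T0_isX hT _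
  obtain ⟨c, hc, hcs, hcl⟩ := exists_b2 hT hf h2 hX
  refine ⟨c, hc, ?_, hcl⟩
  refine fb_eq hT (rt_sq c) h1 (fun σ => ?_)
  obtain ⟨h3, h4⟩ := hcs (rt c) (rt_sq c) σ
  refine ⟨h3, fun h5 => ?_⟩
  by_contra h6
  exact neg_ne (rt_ne hc) ((h4 h6).symm.trans h5)

/-- the local conditions of a locally trivial class -/
lemma fb_local {hT : IsT W A B} {c : k} (hc : c ≠ 0) (F : Type) [Field F] [CharZero F]
    [Algebra k F] (hl : LocTriv W F (fb hT c)) :
    ∃ z m : F, z ≠ 0 ∧ algebraMap k F c * z ^ 2 = m ∧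
      S2 (algebraMap k F A) (algebraMap k F B) m := by
  obtain ⟨c', hc', hcs, hcl⟩ := exists_b2 hT (fb_coc hT c) (fb_two hT c) (fb_isX hT c)
  have h1 : fb hT c = fb hT c' := by
    refine fb_eq hT (rt_sq c') (fb_cases hT c) (fun σ => ?_)
    obtain ⟨h3, h4⟩ := hcs (rt c') (rt_sq c') σ
    refine ⟨h3, fun h5 => ?_⟩
    by_contra h6
    exact neg_ne (rt_ne hc') ((h4 h6).symm.trans h5)
  have h2 : fb hT (c * c') = 0 := by
    rw [fb_add hT hc hc', h1]
    funext σ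
    exact fb_two hT _ σ
  obtain ⟨y, hy⟩ := fb_inj hT h2
  obtain ⟨z, m, hz, hzm, hm⟩ := hcl F hl
  have hy0 : y ≠ 0 := by
    rintro rfl
    rw [zero_pow two_ne_zero] at hy
    exact mul_ne_zero hc hc' hy.symm
  have hcF : algebraMap k F c ≠ 0 := (map_ne_zero _).2 hc
  have hyF : algebraMap k F y ≠ 0 := (map_ne_zero _).2 hy0
  refine ⟨algebraMap k F y * z / algebraMap k F c, m, div_ne_zero (mul_ne_zero hyF hz) hcF, ?_, hm⟩
  rw [← hzm, div_pow, mul_pow, ← map_pow, hy, map_mul]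
  field_simp

end

section

variable {F : Type} [Field F] [NumberField F] [Algebra ℚ F] [FiniteDimensional ℚ F]
  {E E0 : WeierstrassCurve ℚ} {W W0 : WeierstrassCurve F} (hW : Sc (algebraMap ℚ F) 1 E W)
  (hW0 : Sc (algebraMap ℚ F) 1 E0 W0) (e : AlgebraicClosure F ≃+* Qb) {a b : ℚ} {a' b' : F}
  {hE : IsT E a b} {hT : IsT W (algebraMap ℚ F a) (algebraMap ℚ F b)}
  (hT0 : IsT W0 a' b') {hQ : NH E E0} {hF : NH W W0} {hF' : NH W0 W}
  (hc : Cpt hW hW0 hQ hF) (hkQ : KerT hQ hE) (hkF : KerT hF hT) (hd : Dbl hF' hF)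
  (hodd : Odd (Module.finrank ℚ F)) (hkey : KeyP hW0 e)

lemma norm_rat (β : ℚ) : Algebra.norm ℚ (algebraMap ℚ F β) = β ^ Module.finrank ℚ F :=
  Algebra.norm_algebraMap (S := F) β

include hW hW0 e hT0 hc hkQ hkF hd hodd hkey in
/-- the elements of the kernel of the corestriction are the classes of elements whose norm is a
square -/
theorem rep (x : Pool.Agent.TH841.NF.D.Sha W) (m : ℕ) (hx : 2 ^ m • x = 0)
    (hco : coS hW e x = 0) :
    ∃ c : F, c ≠ 0 ∧ (∃ r : ℚ, Algebra.norm ℚ c = r ^ 2) ∧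
      ∃ hs : Pool.Agent.TH841.NF.D.IsShaCoc W (fb hT c),
        x = ((⟨fb hT c, hs⟩ : Pool.Agent.TH841.NF.D.shaCoc W) :
          Pool.Agent.TH841.NF.D.shaCoc W ⧸ (cob W).addSubgroupOf
            (Pool.Agent.TH841.NF.D.shaCoc W)) := by
  have h0 : iS hF x = 0 := by
    apply injP' hT0 hodd hkey (iS hF x) m
    · rw [← map_nsmul, hx, map_zero]
    · exact coS_iS hW hW0 e hc hco
  induction x using QuotientAddGroup.induction_on with
  | H f =>
    have h1 : IsCob W0 (iC hF f.1) := (QuotientAddGroup.eq_zero_iff (iCC hF f)).1 h0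
    have h2 : IsCob E (co hW e f.1) := (QuotientAddGroup.eq_zero_iff (coC hW e f)).1 hco
    obtain ⟨P0, hP0⟩ := isCob_iff.1 h1
    obtain ⟨S0, hS0⟩ := isCob_iff.1 h2
    obtain ⟨R, hR⟩ := nh_surj hd hT0 P0
    obtain ⟨f1, hf1⟩ : ∃ f1 : Coch W, f1 = f.1 - dl R := ⟨_, rfl⟩
    have hf1s : Pool.Agent.TH841.NF.D.IsShaCoc W f1 := by
      rw [hf1]; exact sha_sub f.2 (dl_sha R)
    have hf1i : iC hF f1 = 0 := by
      have h3 : iC hF f1 + iC hF (dl R) = iC hF f.1 := by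
        rw [← iC_add, hf1, sub_add_cancel]
      rw [iC_dl, hR, ← hP0] at h3
      exact add_eq_right.1 h3
    obtain ⟨c, hc0, hfc, hcl⟩ := exists_fb hkF hf1s.1 hf1i
    -- the norm
    have hN0 : Algebra.norm ℚ c ≠ 0 := by
      rw [Ne, Algebra.norm_eq_zero_iff]; exact hc0
    have hcof : fb hE (Algebra.norm ℚ c) = dl (S0 - trc e (tp hW e R)) := by
      rw [← co_fb hW e hE hT hc0, ← hfc, hf1, co_sub, co_dl, hS0, dl_sub]
    obtain ⟨S1, hS1⟩ : ∃ S1, fb hT (algebraMap ℚ F (Algebra.norm ℚ c)) = dl S1 := by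
      rw [← rs_fb hW e hE hT]
      apply isCob_iff.1
      apply rs_cob hW e
      exact isCob_iff.2 ⟨_, hcof⟩
    have hNF : algebraMap ℚ F (Algebra.norm ℚ c) ≠ 0 := (map_ne_zero _).2 hN0
    obtain ⟨f2, hf2⟩ : ∃ f2 : Coch W, f2 = f1 + dl S1 := ⟨_, rfl⟩
    have hf2c : f2 = fb hT (c * algebraMap ℚ F (Algebra.norm ℚ c)) := by
      rw [fb_add hT hc0 hNF, hf2, hfc, hS1]
    have hf2s : Pool.Agent.TH841.NF.D.IsShaCoc W f2 := by
      rw [hf2]
      exact (Pool.Agent.TH841.NF.D.shaCoc W).add_mem hf1s (dl_sha S1)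
    refine ⟨c * algebraMap ℚ F (Algebra.norm ℚ c), mul_ne_zero hc0 hNF, ?_, by
      rw [← hf2c]; exact hf2s, ?_⟩
    · obtain ⟨n, hn⟩ := id hodd
      refine ⟨(Algebra.norm ℚ c) ^ (n + 1), ?_⟩
      rw [map_mul, norm_rat, hn]
      ring
    · refine (QuotientAddGroup.eq (s := (cob W).addSubgroupOf
        (Pool.Agent.TH841.NF.D.shaCoc W))).2 ?_
      have h3 : -f.1 + fb hT (c * algebraMap ℚ F (Algebra.norm ℚ c)) = dl (S1 - R) := by
        rw [← hf2c, hf2, hf1, dl_sub]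
        abel
      exact ⟨S1 - R, fun σ => congrFun h3 σ⟩

include hW hW0 e hT0 hc hkQ hkF hd hodd hkey in
/-- an element whose norm is a square and whose class is trivial is a square -/
theorem inj {c : F} (hc0 : c ≠ 0) (hr : ∃ r : ℚ, Algebra.norm ℚ c = r ^ 2)
    (hcob : IsCob W (fb hT c)) : ∃ y : F, y ^ 2 = c := by
  obtain ⟨Q, hQf⟩ := isCob_iff.1 hcob
  obtain ⟨P, hP⟩ : ∃ P, P = hF.f (AlgebraicClosure F) Q := ⟨_, rfl⟩
  have hPd : dl P = 0 := by
    rw [hP, ← iC_dl, ← hQf]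
    funext σ
    change hF.f (AlgebraicClosure F) (fb hT c σ) = 0
    rcases fb_cases hT c σ with h | h
    · rw [h, map_zero]
    · rw [h, hkF.2]
  obtain ⟨m, hm⟩ : ∃ m, Fintype.card (Gal ℚ ⧸ HF e) = 2 * m + 1 := by
    obtain ⟨m, hm⟩ := hodd
    exact ⟨m, by rw [card_coset, hm]⟩
  obtain ⟨t, ht⟩ : ∃ t, t = trc e (tp hW0 e P) := ⟨_, rfl⟩
  have htd : dl t = 0 := by
    rw [ht, ← co_dl, hPd, co_zero]
  obtain ⟨t', ht'⟩ : ∃ t', tp hW0 e t' = t := any_surj hW0 e t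
  have ht'd : dl t' = 0 := by
    apply dl_eq_zero_of_tp hW0 e
    rw [ht', htd]
  have hadd : ∀ (n : ℕ) (X : Pt E0 Qb), trc e (n • X) = n • trc e X := by
    intro n X
    induction n with
    | zero =>
      have h3 := trc_add e (0 : Pt E0 Qb) 0
      rw [add_zero] at h3
      rw [zero_smul, zero_smul]
      exact left_eq_add.1 h3
    | succ n ih => rw [succ_nsmul, succ_nsmul, trc_add, ih]
  have htr0 : trc e (tp hW0 e ((2 * m + 1) • P - t')) = 0 := by
    have h3 : trc e (tp hW0 e ((2 * m + 1) • P - t')) + trc e (tp hW0 e t') =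
        (2 * m + 1) • t := by
      rw [← trc_add, ← map_add, sub_add_cancel, map_nsmul, hadd, ht]
    rw [ht', trc_fix e htd, hm] at h3
    exact add_eq_right.1 h3
  have hdP' : dl ((2 * m + 1) • P - t') = 0 := by
    rw [dl_sub, dl_nsmul, hPd, smul_zero, ht'd, sub_zero]
  obtain ⟨Q1, hQ1, -, hQ1P⟩ := ker_div' hT0 hodd hkey _ hdP' htr0
  obtain ⟨R, hR⟩ : ∃ R, R = Q1 - m • P := ⟨_, rfl⟩
  have hRd : dl R = 0 := by
    rw [hR, dl_sub, dl_nsmul, hQ1, hPd, smul_zero, sub_zero]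
  have hPR : P - (R + R) = t' := by
    have h3 : (2 * m + 1) • P = P + (m • P + m • P) := by
      rw [add_smul, mul_smul, one_smul, two_smul]
      abel
    rw [hR]
    have h4 : P - (Q1 - m • P + (Q1 - m • P)) = (2 * m + 1) • P - (Q1 + Q1) := by
      rw [h3]; abel
    rw [h4, ← hQ1P, sub_sub_cancel]
  obtain ⟨Q', hQ'⟩ : ∃ Q', Q' = Q - hF'.f (AlgebraicClosure F) R := ⟨_, rfl⟩
  have hQ'd : dl Q' = fb hT c := by
    rw [hQ', dl_sub, ← iC_dl, hRd, ← hQf]
    have : iC hF' (0 : Coch W0) = 0 := by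
      funext σ
      exact map_zero (hF'.f (AlgebraicClosure F))
    rw [this, sub_zero]
  have hQ't : hF.f (AlgebraicClosure F) Q' = t' := by
    rw [hQ', map_sub, ← hP, hd, hPR]
  -- over `ℚ`
  have hg : iC hQ (dl (tp hW e Q')) = 0 := by
    rw [iC_dl]
    have h3 : hQ.f Qb (tp hW e Q') = t := by
      have h4 := hc _ _ (e : AlgebraicClosure F →+* Qb) Q'
      rw [hQ't] at h4
      exact h4.symm.trans ht'
    rw [h3, htd]
  obtain ⟨β, hβ, hβf, -⟩ := exists_fb hkQ (cob_coc (tp hW e Q')) hg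
  have hres : rs hW e (dl (tp hW e Q')) = fb hT c := by
    rw [← hQ'd]
    funext σ
    change tm (sc_any' hW (e.symm : Qb →+* AlgebraicClosure F))
      (act E (cQ e σ).toAlgHom (tp hW e Q') - tp hW e Q') = act W σ.toAlgHom Q' - Q'
    rw [← tp_act hW e, ← map_sub]
    have S'' : Sc (RingHom.id (AlgebraicClosure F)) 1 (W.baseChange (AlgebraicClosure F))
        (W.baseChange (AlgebraicClosure F)) := by
      refine ⟨one_ne_zero, ?_, ?_, ?_, ?_, ?_⟩ <;> simp
    rw [tm_tm _ _ S'' (fun x => e.symm_apply_apply x), tm_id S'' (fun x => rfl) rfl]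
    rw [map_one, mul_one]
  have hfin : fb hT c = fb hT (algebraMap ℚ F β) := by
    rw [← rs_fb hW e hE hT, ← hres]
    congr 1
  have hβF : algebraMap ℚ F β ≠ 0 := (map_ne_zero _).2 hβ
  have h5 : fb hT (c * algebraMap ℚ F β) = 0 := by
    rw [fb_add hT hc0 hβF, hfin]
    funext σ
    exact fb_two hT _ σ
  obtain ⟨y, hy⟩ := fb_inj hT h5
  obtain ⟨r, hr⟩ := hr
  have hr0 : r ≠ 0 := by
    rintro rfl
    rw [zero_pow two_ne_zero, Algebra.norm_eq_zero_iff] at hr
    exact hc0 hr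
  obtain ⟨n, hn⟩ := id hodd
  have h6 : (Algebra.norm ℚ y) ^ 2 = r ^ 2 * β ^ (2 * n + 1) := by
    rw [← map_pow, hy, map_mul, norm_rat, hr, hn]
  have h7 : β = (Algebra.norm ℚ y / (r * β ^ n)) ^ 2 := by
    rw [div_pow, h6]
    have : r * β ^ n ≠ 0 := mul_ne_zero hr0 (pow_ne_zero n hβ)
    field_simp
    ring
  set γ := Algebra.norm ℚ y / (r * β ^ n) with hγ
  have hγ0 : γ ≠ 0 := by
    intro h
    rw [h, zero_pow two_ne_zero] at h7
    exact hβ h7
  have hγF : algebraMap ℚ F γ ≠ 0 := (map_ne_zero _).2 hγ0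
  refine ⟨y / algebraMap ℚ F γ, ?_⟩
  rw [div_pow, hy, h7, map_pow]
  field_simp

end

end Pool.Agent.R432
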