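import Pool.Agent.R432.RK

/-!
# Growth of the 2-primary part of the Tate-Shafarevich group in fields of odd degree
-/

set_option autoImplicit false
set_option linter.unusedSectionVars false

attribute [-instance] DivisionRing.toRatAlgebra

open NumberField IsDedekindDomain

namespace Pool.Agent.R432

open WeierstrassCurve

open Pool.Agent.TH841.NF

open Pool.Agent.TH841.SH.D (Pt act Gal Coch IsCoc IsCob LocTriv cob)

open Pool.Agent.Y682

section

variable {F : Type} [Field F] [NumberField F] [Algebra ℚ F] [FiniteDimensional ℚ F]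
  [IsTotallyReal F]

/-- the key property for the curves `y² = x³ + a x² + 16 c x` -/
theorem keyO {a c : ℤ} (ha : a % 4 = 1) (hc : 0 < c)
    (hac : a < 0 ∨ a ^ 2 < 64 * c) (hD : a ^ 2 ≠ 64 * c)
    (hcl : Odd (Nat.card (NCl F))) (hodd : Odd (Module.finrank ℚ F))
    (hbad : ∀ p : ℕ, p.Prime → (p : ℤ) ∣ c * (a ^ 2 - 64 * c) →
      ∀ v w : HeightOneSpectrum (𝓞 F), (p : 𝓞 F) ∈ v.asIdeal → (p : 𝓞 F) ∈ w.asIdeal → v = w)
    (e : AlgebraicClosure F ≃+* Qb) : KeyP (gc_sc (F := F) a (16 * c)) e := by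
  obtain ⟨k, hk⟩ : ∃ k : ℤ, a = 1 + 4 * k := ⟨a / 4, by omega⟩
  subst hk
  have hD0 : (1 + 4 * k) ^ 2 - 64 * c ≠ 0 := sub_ne_zero.2 hD
  have hD1 : (1 + 4 * k) ^ 2 - 4 * (16 * c) ≠ 0 := by
    intro h
    apply hD0
    linear_combination h
  have hv : ∀ v : HeightOneSpectrum (𝓞 F),
      (Un v ∨ Tw v ((1 + 4 * k : ℤ) : F) ((16 * c : ℤ) : F)) ∨
      (v.valuation F (c : F) = 1 ∧
        v.valuation F (((1 + 4 * k) ^ 2 - 4 * (16 * c) : ℤ) : F) = 1) := by
    intro v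
    by_cases h1 : v.valuation F (c : F) = 1
    · by_cases h2 : v.valuation F (((1 + 4 * k) ^ 2 - 4 * (16 * c) : ℤ) : F) = 1
      · exact Or.inr ⟨h1, h2⟩
      · obtain ⟨p, hp, hpc, hpv⟩ := exists_prime v _ hD1 h2
        have h3 : (p : ℤ) ∣ c * ((1 + 4 * k) ^ 2 - 64 * c) := by
          refine hpc.trans ⟨c, ?_⟩
          ring
        exact Or.inl (Or.inl ⟨p, hp, hpv, fun w hw => (hbad p hp h3 v w hpv hw).symm⟩)
    · obtain ⟨p, hp, hpc, hpv⟩ := exists_prime v _ hc.ne' h1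
      exact Or.inl (Or.inl ⟨p, hp, hpv, fun w hw =>
        (hbad p hp (hpc.mul_right _) v w hpv hw).symm⟩)
  have hpair := pair_ord hc (by
    rcases hac with h | h
    · left; exact h
    · right; linarith) hcl hodd hv
  exact keyM (mul_ne_zero (by norm_num) hc.ne') hD1 hodd (fun b hr => (hpair b hr).1)
    (fun b hr => (hpair b hr).2) e

end

section curves

variable {k : Type} [Field k] [CharZero k] {o m : ℤ}

lemma kd1 (ho : 0 < o) (hm : 0 < m) (hom : o ≠ 16 * m) :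
    KDat (gc (2 * (o - 32 * m)) (o ^ 2) k) (gc (32 * m - o) (16 * (m * (16 * m - o))) k)
      (2 * (o - 32 * m) : k) ((o : k) ^ 2) (32 * m - o : k) (16 * (m * (16 * m - o)) : k) 2 where
  hW := by unfold gc; congr 1 <;> push_cast <;> rfl
  hW' := by unfold gc; congr 1 <;> push_cast <;> rfl
  dat :=
    { hb := pow_ne_zero 2 (by exact_mod_cast ho.ne')
      hb' := by
        have h1 : (16 * (m * (16 * m - o)) : ℤ) ≠ 0 :=
          mul_ne_zero (by norm_num) (mul_ne_zero hm.ne' (sub_ne_zero.2 hom.symm))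
        exact_mod_cast h1
      hu := two_ne_zero
      e1 := by ring
      e2 := by ring }

lemma kd2 (ho : 0 < o) (hm : 0 < m) (hom : o ≠ 16 * m) :
    KDat (gc (32 * m - o) (16 * (m * (16 * m - o))) k) (gc (2 * (o - 32 * m)) (o ^ 2) k)
      (32 * m - o : k) (16 * (m * (16 * m - o)) : k) (2 * (o - 32 * m) : k) ((o : k) ^ 2) 1 where
  hW := by unfold gc; congr 1 <;> push_cast <;> rfl
  hW' := by unfold gc; congr 1 <;> push_cast <;> rfl
  dat :=
    { hb' := pow_ne_zero 2 (by exact_mod_cast ho.ne')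
      hb := by
        have h1 : (16 * (m * (16 * m - o)) : ℤ) ≠ 0 :=
          mul_ne_zero (by norm_num) (mul_ne_zero hm.ne' (sub_ne_zero.2 hom.symm))
        exact_mod_cast h1
      hu := one_ne_zero
      e1 := by ring
      e2 := by ring }

lemma tr1 : Tr (-(16 * m : k)) (gc (32 * m - o) (16 * (m * (16 * m - o))) k)
    (gc (-(o + 16 * m)) (16 * (m * o)) k) where
  h1 := rfl
  h3 := rfl
  h1' := rfl
  h3' := rfl
  h2 := by change ((-(o + 16 * m) : ℤ) : k) = ((32 * m - o : ℤ) : k) + _; push_cast; ring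
  h4 := by
    change ((16 * (m * o) : ℤ) : k) = ((16 * (m * (16 * m - o)) : ℤ) : k) +
      _ * ((32 * m - o : ℤ) : k) + _
    push_cast; ring
  h6 := by
    change (0 : k) = 0 + _ * ((16 * (m * (16 * m - o)) : ℤ) : k) +
      _ * ((32 * m - o : ℤ) : k) + _
    push_cast; ring

lemma tr2 : Tr (-(-(16 * m : k))) (gc (-(o + 16 * m)) (16 * (m * o)) k)
    (gc (32 * m - o) (16 * (m * (16 * m - o))) k) where
  h1 := rfl
  h3 := rfl
  h1' := rfl
  h3' := rfl
  h2 := by change ((32 * m - o : ℤ) : k) = ((-(o + 16 * m) : ℤ) : k) + _; push_cast; ring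
  h4 := by
    change ((16 * (m * (16 * m - o)) : ℤ) : k) = ((16 * (m * o) : ℤ) : k) +
      _ * ((-(o + 16 * m) : ℤ) : k) + _
    push_cast; ring
  h6 := by
    change (0 : k) = 0 + _ * ((16 * (m * o) : ℤ) : k) +
      _ * ((-(o + 16 * m) : ℤ) : k) + _
    push_cast; ring

variable (k o m) in
/-- the homomorphisms from the isogenous curve to `y² = x (x - o) (x - 16 m)` -/
noncomputable def nh (ho : 0 < o) (hm : 0 < m) (hom : o ≠ 16 * m) :
    NH (gc (2 * (o - 32 * m)) (o ^ 2) k) (gc (-(o + 16 * m)) (16 * (m * o)) k) :=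
  (NH.iso (kd1 ho hm hom)).comp (NH.tr tr1)

variable (k o m) in
/-- the dual homomorphisms -/
noncomputable def nh' (ho : 0 < o) (hm : 0 < m) (hom : o ≠ 16 * m) :
    NH (gc (-(o + 16 * m)) (16 * (m * o)) k) (gc (2 * (o - 32 * m)) (o ^ 2) k) :=
  (NH.tr tr2).comp (NH.iso (kd2 ho hm hom))

lemma nh_dbl (ho : 0 < o) (hm : 0 < m) (hom : o ≠ 16 * m) :
    Dbl (nh' k o m ho hm hom) (nh k o m ho hm hom) :=
  (dbl_iso (kd1 ho hm hom) (kd2 ho hm hom) (by ring)).tr tr1 tr2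

lemma nh_dbl' (ho : 0 < o) (hm : 0 < m) (hom : o ≠ 16 * m) :
    Dbl (nh k o m ho hm hom) (nh' k o m ho hm hom) := by
  intro L _ _ P
  change isoH L (kd2 ho hm hom) (trH tr2 L (trH tr1 L (isoH L (kd1 ho hm hom) P))) = P + P
  rw [trH_inv tr1 tr2]
  exact isoH_dbl L (kd1 ho hm hom) (kd2 ho hm hom) (by ring) P

lemma isT_a (ho : 0 < o) (hm : 0 < m) (hom : o ≠ 16 * m) :
    IsT (gc (2 * (o - 32 * m)) (o ^ 2) k) ((2 * (o - 32 * m) : ℤ) : k) ((o ^ 2 : ℤ) : k) := by
  refine gc_isT (pow_ne_zero 2 ho.ne') ?_ k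
  have : (2 * (o - 32 * m)) ^ 2 - 4 * o ^ 2 = 16 * (16 * (m * (16 * m - o))) := by ring
  rw [this]
  exact mul_ne_zero (by norm_num) (mul_ne_zero (by norm_num)
    (mul_ne_zero hm.ne' (sub_ne_zero.2 hom.symm)))

lemma isT_b (ho : 0 < o) (hm : 0 < m) (hom : o ≠ 16 * m) :
    IsT (gc (-(o + 16 * m)) (16 * (m * o)) k) ((-(o + 16 * m) : ℤ) : k)
      ((16 * (m * o) : ℤ) : k) := by
  refine gc_isT (mul_ne_zero (by norm_num) (mul_ne_zero hm.ne' ho.ne')) ?_ k
  have : (-(o + 16 * m)) ^ 2 - 4 * (16 * (m * o)) = (o - 16 * m) ^ 2 := by ring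
  rw [this]
  exact pow_ne_zero 2 (sub_ne_zero.2 hom)

lemma nh_ker (ho : 0 < o) (hm : 0 < m) (hom : o ≠ 16 * m) :
    KerT (nh k o m ho hm hom) (isT_a ho hm hom) :=
  (kerT_iso (kd1 ho hm hom) (isT_a ho hm hom)).tr tr1 tr2

end curves

section main

variable {F : Type} [Field F] [NumberField F] [Algebra ℚ F] [FiniteDimensional ℚ F]
  [IsTotallyReal F]

lemma cpt_iso' {E E0 : WeierstrassCurve ℚ} {W W0 : WeierstrassCurve F}
    (hW : Sc (algebraMap ℚ F) 1 E W) (hW0 : Sc (algebraMap ℚ F) 1 E0 W0) {a b a' b' u : ℚ}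
    (hQ : KDat E E0 a b a' b' u) {aF bF aF' bF' uF : F} (hF : KDat W W0 aF bF aF' bF' uF)
    (e1 : aF = algebraMap ℚ F a) (e2 : bF = algebraMap ℚ F b) (e3 : aF' = algebraMap ℚ F a')
    (e4 : bF' = algebraMap ℚ F b') (e5 : uF = algebraMap ℚ F u) :
    Cpt hW hW0 (NH.iso hQ) (NH.iso hF) := by
  subst e1 e2 e3 e4 e5
  exact cpt_iso hW hW0 hQ hF

lemma cpt_tr' {E E0 : WeierstrassCurve ℚ} {W W0 : WeierstrassCurve F}
    (hW : Sc (algebraMap ℚ F) 1 E W) (hW0 : Sc (algebraMap ℚ F) 1 E0 W0) {r : ℚ} {rF : F}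
    (SQ : Tr r E E0) (SF : Tr rF W W0) (h : rF = algebraMap ℚ F r) :
    Cpt hW hW0 (NH.tr SQ) (NH.tr SF) := by
  subst h
  exact cpt_tr hW hW0 SQ SF

lemma nh_cpt {o m : ℤ} (ho : 0 < o) (hm : 0 < m) (hom : o ≠ 16 * m) :
    Cpt (gc_sc (F := F) (2 * (o - 32 * m)) (o ^ 2)) (gc_sc (F := F) (-(o + 16 * m)) (16 * (m * o)))
      (nh ℚ o m ho hm hom) (nh F o m ho hm hom) := by
  have h2 := cpt_iso' (gc_sc (F := F) (2 * (o - 32 * m)) (o ^ 2))
    (gc_sc (F := F) (32 * m - o) (16 * (m * (16 * m - o)))) (kd1 (k := ℚ) ho hm hom)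
    (kd1 (k := F) ho hm hom)
    (by simp only [map_mul, map_sub, map_ofNat, map_intCast])
    (by simp only [map_pow, map_intCast])
    (by simp only [map_mul, map_sub, map_ofNat, map_intCast])
    (by simp only [map_mul, map_sub, map_ofNat, map_intCast])
    (by simp only [map_ofNat])
  have h4 := cpt_tr' (gc_sc (F := F) (32 * m - o) (16 * (m * (16 * m - o))))
    (gc_sc (F := F) (-(o + 16 * m)) (16 * (m * o))) (tr1 (k := ℚ)) (tr1 (k := F))
    (by simp only [map_neg, map_mul, map_ofNat, map_intCast])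
  exact h2.comp _ _ _ h4

/-- the classes of the units are locally trivial -/
lemma sha_unit {A B : ℤ} {o m : ℤ} (hA : A = 2 * (o - 32 * m)) (hB : B = o ^ 2)
    (ho4 : o % 4 = 3) (hm : 0 < m) (hodd : Odd (Module.finrank ℚ F))
    (hbad : ∀ p : ℕ, p.Prime → (p : ℤ) ∣ o * m * (16 * m - o) →
      ∀ v w : HeightOneSpectrum (𝓞 F), (p : 𝓞 F) ∈ v.asIdeal → (p : 𝓞 F) ∈ w.asIdeal → v = w)
    (hne : o * m * (16 * m - o) ≠ 0)
    {hT : IsT (gc A B F) (A : F) (B : F)} (u : (𝓞 F)ˣ)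
    (hu : Algebra.norm ℚ ((u : 𝓞 F) : F) = 1) :
    Pool.Agent.TH841.NF.D.IsShaCoc (gc A B F) (fb hT ((u : 𝓞 F) : F)) := by
  obtain ⟨a, ha⟩ : ∃ a : ℤ, a = 32 * m - o := ⟨_, rfl⟩
  obtain ⟨c, hc⟩ : ∃ c : ℤ, c = m * (16 * m - o) := ⟨_, rfl⟩
  have hA' : A = -2 * a := by rw [hA, ha]; ring
  have hB' : B = a ^ 2 - 64 * c := by rw [hB, ha, hc]; ring
  clear hA hB
  subst hA' hB'
  have hu0 : ((u : 𝓞 F) : F) ≠ 0 := by
    have := u.ne_zero
    exact_mod_cast this
  refine ⟨fb_coc hT _, fun v => ?_, fun v => ?_⟩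
  · by_cases h2 : (2 : 𝓞 F) ∈ v.asIdeal
    · exact loc_two (by omega) u h2
    · by_cases h3 : v.valuation F ((o * m * (16 * m - o) : ℤ) : F) = 1
      · rw [← map_intCast (algebraMap (𝓞 F) F),
          HeightOneSpectrum.valuation_eq_one_iff_notMem] at h3
        have h4 : (o : 𝓞 F) ∉ v.asIdeal := by
          intro h; apply h3; push_cast
          exact v.asIdeal.mul_mem_right _ (v.asIdeal.mul_mem_right _ h)
        have h5 : (m : 𝓞 F) ∉ v.asIdeal := by
          intro h; apply h3; push_cast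
          exact v.asIdeal.mul_mem_right _ (v.asIdeal.mul_mem_left _ h)
        have h6 : ((16 * m - o : ℤ) : 𝓞 F) ∉ v.asIdeal := by
          intro h; apply h3
          rw [Int.cast_mul]
          exact v.asIdeal.mul_mem_left _ h
        refine loc_good (r₁ := -(16 * m)) (r₂ := o - 16 * m) (by rw [ha]; ring)
          (by rw [hc]; ring) u h2 ?_ ?_ ?_
        · intro h
          have h7 : (2 : 𝓞 F) ^ 4 * (m : 𝓞 F) ∈ v.asIdeal := by
            have e : (2 : 𝓞 F) ^ 4 * (m : 𝓞 F) = -((-(16 * m) : ℤ) : 𝓞 F) := by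
              push_cast; ring
            rw [e]
            exact v.asIdeal.neg_mem h
          rcases v.isPrime.mem_or_mem h7 with h8 | h8
          · exact h2 (v.isPrime.mem_of_pow_mem 4 h8)
          · exact h5 h8
        · intro h
          apply h6
          have e : ((16 * m - o : ℤ) : 𝓞 F) = -((o - 16 * m : ℤ) : 𝓞 F) := by
            push_cast; ring
          rw [e]
          exact v.asIdeal.neg_mem h
        · intro h
          apply h4
          have e : (o : 𝓞 F) = -((-(16 * m) - (o - 16 * m) : ℤ) : 𝓞 F) := by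
            push_cast; ring
          rw [e]
          exact v.asIdeal.neg_mem h
      · obtain ⟨p, hp, hpc, hpv⟩ := exists_prime v _ hne h3
        exact loc_un hodd u hu h2 ⟨p, hp, hpv, fun w hw => (hbad p hp hpc v w hpv hw).symm⟩
  · refine loc_inf (r := 16 * m) hu0 (by omega) ?_ v
    rw [ha, hc]
    ring

/-- the valuations of the locally trivial classes -/
lemma even_class {A B : ℤ} {o m : ℤ} (hA : A = 2 * (o - 32 * m)) (hB : B = o ^ 2)
    (ho4 : o % 4 = 3) (hodd : Odd (Module.finrank ℚ F))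
    (hbad : ∀ p : ℕ, p.Prime → (p : ℤ) ∣ o * m * (16 * m - o) →
      ∀ v w : HeightOneSpectrum (𝓞 F), (p : 𝓞 F) ∈ v.asIdeal → (p : 𝓞 F) ∈ w.asIdeal → v = w)
    (hne : m * (16 * m - o) ≠ 0)
    {hT : IsT (gc A B F) (A : F) (B : F)} {b : F} (hb : b ≠ 0)
    (hr : ∃ r : ℚ, Algebra.norm ℚ b = r ^ 2)
    (hs : Pool.Agent.TH841.NF.D.IsShaCoc (gc A B F) (fb hT b)) (v : HeightOneSpectrum (𝓞 F)) :
    ∃ n : ℤ, v.valuation F b = WithZero.exp (2 * n) := by
  obtain ⟨a, ha⟩ : ∃ a : ℤ, a = 32 * m - o := ⟨_, rfl⟩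
  obtain ⟨c, hc⟩ : ∃ c : ℤ, c = m * (16 * m - o) := ⟨_, rfl⟩
  have hA' : A = -2 * a := by rw [hA, ha]; ring
  have hB' : B = a ^ 2 - 4 * (16 * c) := by rw [hB, ha, hc]; ring
  clear hA hB
  subst hA' hB'
  rw [← hc] at hne
  by_cases h3 : v.valuation F (c : F) = 1
  · have hL : L2 (-2 * a) (a ^ 2 - 4 * (16 * c)) b := by
      refine ⟨fun v => ?_, fun v => ?_⟩
      · have := charZero_adic v
        have h4 := fb_local (hT := hT) hb _ (hs.2.1 v)
        rwa [map_intCast, map_intCast] at h4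
      · have := charZero_inf v
        have h4 := fb_local (hT := hT) hb _ (hs.2.2 v)
        rwa [map_intCast, map_intCast] at h4
    have hL1 := L2_dual hL
    obtain ⟨k, hk⟩ : ∃ k : ℤ, a = 1 + 4 * k := ⟨a / 4, by omega⟩
    refine even_b1 hb v (A := (a : F)) (B := ((16 * c : ℤ) : F)) (C := (c : F)) (s := 1)
      (u := (k : F)) ?_ ?_ (map_one _).le (val_int_le v k) (by push_cast; ring) h3
    · rw [map_intCast, map_intCast]
      exact hL1.1 v
    · rw [hk]; push_cast; ring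
  · obtain ⟨p, hp, hpc, hpv⟩ := exists_prime v _ hne h3
    have hpd : (p : ℤ) ∣ o * m * (16 * m - o) := by
      refine hpc.trans ⟨o, ?_⟩
      rw [hc]; ring
    exact Un.even ⟨p, hp, hpv, fun w hw => (hbad p hp hpd v w hpv hw).symm⟩ hodd
      (Units.mk0 b hb) hr

/-- the structure of the 2-primary part -/
theorem final {A B : ℤ} (hE : IsT (gc A B ℚ) (A : ℚ) (B : ℚ)) (hT : IsT (gc A B F) (A : F) (B : F))
    (e : AlgebraicClosure F ≃+* Qb) (hcl : Odd (Nat.card (NCl F)))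
    (hodd : Odd (Module.finrank ℚ F))
    (hsha : ∀ u : (𝓞 F)ˣ, Algebra.norm ℚ ((u : 𝓞 F) : F) = 1 →
        Pool.Agent.TH841.NF.D.IsShaCoc (gc A B F) (fb hT ((u : 𝓞 F) : F)))
    (heven : ∀ b : F, b ≠ 0 → (∃ r : ℚ, Algebra.norm ℚ b = r ^ 2) →
        Pool.Agent.TH841.NF.D.IsShaCoc (gc A B F) (fb hT b) →
        ∀ v : HeightOneSpectrum (𝓞 F), ∃ n : ℤ, v.valuation F b = WithZero.exp (2 * n))
    (hrep : ∀ (x : Pool.Agent.TH841.NF.D.Sha (gc A B F)) (m : ℕ), 2 ^ m • x = 0 →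
        coS (gc_sc (F := F) A B) e x = 0 →
        ∃ c : F, c ≠ 0 ∧ (∃ r : ℚ, Algebra.norm ℚ c = r ^ 2) ∧
          ∃ hs : Pool.Agent.TH841.NF.D.IsShaCoc (gc A B F) (fb hT c),
            x = ((⟨fb hT c, hs⟩ : Pool.Agent.TH841.NF.D.shaCoc (gc A B F)) :
              Pool.Agent.TH841.NF.D.shaCoc (gc A B F) ⧸ (cob (gc A B F)).addSubgroupOf
                (Pool.Agent.TH841.NF.D.shaCoc (gc A B F))))
    (hinj : ∀ c : F, c ≠ 0 → (∃ r : ℚ, Algebra.norm ℚ c = r ^ 2) →
        IsCob (gc A B F) (fb hT c) → ∃ y : F, y ^ 2 = c) :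
    Nonempty (AddCommGroup.primaryComponent (Pool.Agent.TH841.NF.D.Sha (gc A B F)) 2 ≃+
      AddCommGroup.primaryComponent (Pool.Agent.TH841.SH.D.Sha (gc A B ℚ)) 2 ×
      (Fin (Module.finrank ℚ F - 1) → ZMod 2)) := by
  classical
  let W := gc A B F
  let cl : ∀ f : Coch W, Pool.Agent.TH841.NF.D.IsShaCoc W f → Pool.Agent.TH841.NF.D.Sha W :=
    fun f hs => ((⟨f, hs⟩ : Pool.Agent.TH841.NF.D.shaCoc W) :
      Pool.Agent.TH841.NF.D.shaCoc W ⧸ (cob W).addSubgroupOf (Pool.Agent.TH841.NF.D.shaCoc W))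
  have hcl0 : ∀ f hs, cl f hs = 0 ↔ IsCob W f := fun f hs =>
    QuotientAddGroup.eq_zero_iff (N := (cob W).addSubgroupOf (Pool.Agent.TH841.NF.D.shaCoc W)) _
  have hcladd : ∀ f g hf hg hfg, cl (f + g) hfg = cl f hf + cl g hg := fun f g hf hg hfg => rfl
  have hclc : ∀ f g (h : f = g) hf hg, cl f hf = cl g hg := by
    intro f g h hf hg
    subst h
    rfl
  let N : AddSubgroup (Pool.Agent.TH841.NF.D.Sha W) :=
    AddCommGroup.primaryComponent (Pool.Agent.TH841.NF.D.Sha W) 2 ⊓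
      (coS (gc_sc (F := F) A B) e).ker
  have hN : ∀ x, x ∈ N ↔ (∃ m : ℕ, 2 ^ m • x = 0) ∧ coS (gc_sc (F := F) A B) e x = 0 :=
    fun x => Iff.rfl
  let Ψ : U1 F →* Multiplicative (Pool.Agent.TH841.NF.D.Sha W) :=
    { toFun := fun u => Multiplicative.ofAdd (cl (fb hT ((u.1 : 𝓞 F) : F)) (hsha u.1 u.2))
      map_one' := by
        change cl _ _ = 0
        rw [hcl0]
        have h1 : fb hT ((((1 : U1 F).1 : (𝓞 F)ˣ) : 𝓞 F) : F) = 0 := by
          have h2 : ((((1 : U1 F).1 : (𝓞 F)ˣ) : 𝓞 F) : F) = 1 ^ 2 := by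
            rw [one_pow]
            exact map_one (algebraMap (𝓞 F) F)
          rw [h2]
          exact fb_sq hT 1
        rw [h1]
        exact (cob W).zero_mem
      map_mul' := by
        intro u w
        have hu0 : ((u.1 : 𝓞 F) : F) ≠ 0 := by
          have := u.1.ne_zero
          exact_mod_cast this
        have hw0 : ((w.1 : 𝓞 F) : F) ≠ 0 := by
          have := w.1.ne_zero
          exact_mod_cast this
        have h2 : (((u * w : U1 F).1 : 𝓞 F) : F) = ((u.1 : 𝓞 F) : F) * ((w.1 : 𝓞 F) : F) :=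
          map_mul (algebraMap (𝓞 F) F) _ _
        have h1 : fb hT (((u * w : U1 F).1 : 𝓞 F) : F) =
            fb hT ((u.1 : 𝓞 F) : F) + fb hT ((w.1 : 𝓞 F) : F) := by
          rw [h2, fb_add hT hu0 hw0]
        exact hclc _ _ h1 _ ((Pool.Agent.TH841.NF.D.shaCoc W).add_mem (hsha u.1 u.2)
          (hsha w.1 w.2)) }
  have hΨ : ∀ u : U1 F, Ψ u = Multiplicative.ofAdd (cl (fb hT ((u.1 : 𝓞 F) : F)) (hsha u.1 u.2)) :=
    fun u => rfl
  -- the kernel
  have hker : Ψ.ker = (powMonoidHom 2 : (𝓞 F)ˣ →* (𝓞 F)ˣ).range.subgroupOf (U1 F) := by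
    ext u
    have hu0 : ((u.1 : 𝓞 F) : F) ≠ 0 := by
      have := u.1.ne_zero
      exact_mod_cast this
    rw [MonoidHom.mem_ker, Subgroup.mem_subgroupOf, hΨ]
    change cl _ _ = 0 ↔ _
    rw [hcl0]
    constructor
    · intro h
      obtain ⟨y, hy⟩ := hinj _ hu0 ⟨1, by rw [one_pow]; exact u.2⟩ h
      have hy0 : y ≠ 0 := by
        rintro rfl
        rw [zero_pow two_ne_zero] at hy
        exact hu0 hy.symm
      obtain ⟨w, hw⟩ := exists_unit_of_val (x := Units.mk0 y hy0) (fun v => by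
        have h1 : v.valuation F ((u.1 : 𝓞 F) : F) = 1 :=
          (HeightOneSpectrum.valuation_eq_one_iff_notMem v).2 (fun h =>
            v.isPrime.ne_top (Ideal.eq_top_of_isUnit_mem _ h u.1.isUnit))
        rw [← hy, map_pow] at h1
        rw [Units.val_mk0]
        exact (pow_eq_one_iff_of_nonneg zero_le two_ne_zero).1 h1)
      refine ⟨w, ?_⟩
      rw [powMonoidHom_apply]
      apply Units.ext
      apply FaithfulSMul.algebraMap_injective (𝓞 F) F
      rw [Units.val_pow_eq_pow_val, map_pow]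
      have h2 := congrArg Units.val hw
      rw [Units.val_mk0] at h2
      have h3 : algebraMap (𝓞 F) F (w : 𝓞 F) = y := h2
      rw [h3]
      exact hy
    · rintro ⟨w, hw⟩
      rw [powMonoidHom_apply] at hw
      have h1 : ((u.1 : 𝓞 F) : F) = ((w : 𝓞 F) : F) ^ 2 := by
        rw [← hw, Units.val_pow_eq_pow_val]
        exact map_pow (algebraMap (𝓞 F) F) _ 2
      have h2 : fb hT ((u.1 : 𝓞 F) : F) = 0 := by rw [h1]; exact fb_sq hT _
      rw [h2]
      exact (cob W).zero_mem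
  -- the image
  have hrange : ∀ x : Pool.Agent.TH841.NF.D.Sha W, x ∈ N ↔ Multiplicative.ofAdd x ∈ Ψ.range := by
    intro x
    constructor
    · intro hx
      obtain ⟨⟨m, hm⟩, hco⟩ := (hN x).1 hx
      obtain ⟨c, hc, hr, hs, hxc⟩ := hrep x m hm hco
      obtain ⟨u, y, huy⟩ := even_val hcl (Units.mk0 c hc) (heven c hc hr hs)
      have huy' : c = ((u : 𝓞 F) : F) * (y : F) ^ 2 := by
        have := congrArg Units.val huy
        rw [Units.val_mk0, Units.val_mul, Units.val_pow_eq_pow_val] at this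
        exact this
      have hu0 : ((u : 𝓞 F) : F) ≠ 0 := by
        have := u.ne_zero
        exact_mod_cast this
      have hu1 : Algebra.norm ℚ ((u : 𝓞 F) : F) = 1 := by
        rcases norm_unit u with h | h
        · exact h
        · exfalso
          obtain ⟨r, hr⟩ := hr
          rw [huy', map_mul, map_pow, h] at hr
          have h5 : Algebra.norm ℚ (y : F) ≠ 0 := by
            rw [Ne, Algebra.norm_eq_zero_iff]; exact y.ne_zero
          have h6 : 0 < (Algebra.norm ℚ (y : F)) ^ 2 := by positivity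
          nlinarith [sq_nonneg r]
      refine ⟨⟨u, hu1⟩, ?_⟩
      rw [hΨ, hxc]
      change cl _ _ = cl _ _
      apply hclc
      change fb hT ((u : 𝓞 F) : F) = _
      rw [huy', fb_add hT hu0 (pow_ne_zero 2 y.ne_zero), fb_sq, add_zero]
    · rintro ⟨u, hu⟩
      have hu' : x = cl (fb hT ((u.1 : 𝓞 F) : F)) (hsha u.1 u.2) := by
        rw [hΨ] at hu
        exact (Multiplicative.ofAdd.injective hu).symm
      rw [hN]
      refine ⟨⟨1, ?_⟩, ?_⟩
      · rw [pow_one, two_nsmul, hu']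
        have h1 : cl (fb hT ((u.1 : 𝓞 F) : F) + fb hT ((u.1 : 𝓞 F) : F))
            ((Pool.Agent.TH841.NF.D.shaCoc W).add_mem (hsha u.1 u.2) (hsha u.1 u.2)) = 0 := by
          rw [hcl0]
          have h2 : fb hT ((u.1 : 𝓞 F) : F) + fb hT ((u.1 : 𝓞 F) : F) = 0 := by
            funext σ
            exact fb_two hT _ σ
          rw [h2]
          exact (cob W).zero_mem
        exact h1
      · rw [hu']
        refine (QuotientAddGroup.eq_zero_iff (coC (gc_sc (F := F) A B) e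
          ⟨fb hT ((u.1 : 𝓞 F) : F), hsha u.1 u.2⟩)).2 ?_
        change IsCob _ (co (gc_sc (F := F) A B) e (fb hT ((u.1 : 𝓞 F) : F)))
        have hu0 : ((u.1 : 𝓞 F) : F) ≠ 0 := by
          have := u.1.ne_zero
          exact_mod_cast this
        rw [co_fb (gc_sc (F := F) A B) e hE hT hu0]
        have h3 : Algebra.norm ℚ ((u.1 : 𝓞 F) : F) = 1 ^ 2 := by rw [one_pow]; exact u.2
        rw [h3, fb_sq]
        exact (cob (gc A B ℚ)).zero_mem
  have hcard : Nat.card N = 2 ^ (Module.finrank ℚ F - 1) := by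
    have h1 : Nat.card N = Nat.card Ψ.range := Nat.card_congr
      { toFun := fun x => ⟨Multiplicative.ofAdd x.1, (hrange x.1).1 x.2⟩
        invFun := fun y => ⟨Multiplicative.toAdd y.1, (hrange _).2 y.2⟩
        left_inv := fun _ => rfl
        right_inv := fun _ => rfl }
    rw [h1, ← Subgroup.index_ker, hker]
    exact relIndex_U1 hodd
  have h2N : ∀ x : N, x + x = 0 := by
    intro x
    obtain ⟨u, hu⟩ := (hrange x.1).1 x.2
    apply Subtype.ext
    change x.1 + x.1 = 0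
    have h1 : Multiplicative.ofAdd (x.1 + x.1) = 1 := by
      rw [ofAdd_add, ← hu, ← map_mul]
      have h3 : u * u ∈ Ψ.ker := by
        rw [hker, Subgroup.mem_subgroupOf]
        exact ⟨u.1, by rw [powMonoidHom_apply, sq]; rfl⟩
      exact h3
    exact h1
  obtain ⟨e1⟩ := split (coS (gc_sc (F := F) A B) e) (rsS (gc_sc (F := F) A B) e) hodd
    (coS_rsS (gc_sc (F := F) A B) e) N hN
  obtain ⟨e2⟩ := two_group h2N hcard
  exact ⟨e1.trans (AddEquiv.prodCongr (AddEquiv.refl _) e2)⟩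

theorem growth {o m : ℤ} (ho : 0 < o) (ho4 : o % 4 = 3) (hm : 0 < m)
    (hcl : Odd (Nat.card (NCl F))) (hodd : Odd (Module.finrank ℚ F))
    (hbad : ∀ p : ℕ, p.Prime → (p : ℤ) ∣ o * m * (16 * m - o) →
      ∀ v w : HeightOneSpectrum (𝓞 F), (p : 𝓞 F) ∈ v.asIdeal → (p : 𝓞 F) ∈ w.asIdeal → v = w) :
    Pool.Agent.TH841.NF.D.rk (gc (2 * (o - 32 * m)) (o ^ 2) F) =
      Pool.Agent.TH841.SH.D.rk (gc (2 * (o - 32 * m)) (o ^ 2) ℚ) ∧
    Nonempty (AddCommGroup.primaryComponent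
        (Pool.Agent.TH841.NF.D.Sha (gc (2 * (o - 32 * m)) (o ^ 2) F)) 2 ≃+
      AddCommGroup.primaryComponent
        (Pool.Agent.TH841.SH.D.Sha (gc (2 * (o - 32 * m)) (o ^ 2) ℚ)) 2 ×
      (Fin (Module.finrank ℚ F - 1) → ZMod 2)) := by
  have hom : o ≠ 16 * m := by omega
  have hne' : m * (16 * m - o) ≠ 0 := mul_ne_zero hm.ne' (sub_ne_zero.2 hom.symm)
  have hne : o * m * (16 * m - o) ≠ 0 := by
    rw [mul_assoc]; exact mul_ne_zero ho.ne' hne'
  obtain ⟨e⟩ := exists_e F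
  have hTF := isT_a (k := F) ho hm hom
  have hTQ := isT_a (k := ℚ) ho hm hom
  have hTF0 := isT_b (k := F) ho hm hom
  have hTQ0 := isT_b (k := ℚ) ho hm hom
  have hkey : KeyP (gc_sc (F := F) (-(o + 16 * m)) (16 * (m * o))) e := by
    refine keyO (by omega) (mul_pos hm ho) (Or.inl (by omega)) ?_ hcl hodd ?_ e
    · intro h
      have h1 : (o - 16 * m) ^ 2 = 0 := by linear_combination h
      exact hom (sub_eq_zero.1 (pow_eq_zero_iff two_ne_zero |>.1 h1))
    · intro p hp hpd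
      apply hbad p hp
      have h1 : (p : ℤ) ∣ (m * o) * ((o - 16 * m) * (o - 16 * m)) := by
        refine hpd.trans (dvd_of_eq ?_)
        ring
      have hp' := Nat.prime_iff_prime_int.1 hp
      rcases hp'.dvd_or_dvd h1 with h2 | h2
      · exact (by rw [mul_comm] at h2; exact h2.mul_right _)
      · have h3 : (p : ℤ) ∣ o - 16 * m := by
          rcases hp'.dvd_or_dvd h2 with h3 | h3 <;> exact h3
        have h4 : (p : ℤ) ∣ 16 * m - o := by
          rw [← neg_sub]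
          exact (dvd_neg).2 h3
        exact h4.mul_left _
  constructor
  · -- the ranks
    have h1 : Module.finrank ℤ (MP (gc (-(o + 16 * m)) (16 * (m * o)) F)) =
        Module.finrank ℤ (MP (gc (-(o + 16 * m)) (16 * (m * o)) ℚ)) := rank_eq' hTF0 hodd hkey
    have h2 := rank_le hTF hTF0 (nh F o m ho hm hom) (nh' F o m ho hm hom) (nh_dbl' ho hm hom)
    have h3 := rank_le hTF0 hTF (nh' F o m ho hm hom) (nh F o m ho hm hom) (nh_dbl ho hm hom)
    have h4 := rank_le hTQ hTQ0 (nh ℚ o m ho hm hom) (nh' ℚ o m ho hm hom) (nh_dbl' ho hm hom)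
    have h5 := rank_le hTQ0 hTQ (nh' ℚ o m ho hm hom) (nh ℚ o m ho hm hom) (nh_dbl ho hm hom)
    rw [rkN, rkQ]
    omega
  · obtain ⟨A, hA⟩ : ∃ A : ℤ, A = 2 * (o - 32 * m) := ⟨_, rfl⟩
    obtain ⟨B, hB⟩ : ∃ B : ℤ, B = o ^ 2 := ⟨_, rfl⟩
    have hcp := nh_cpt (F := F) ho hm hom
    have hkQ := nh_ker (k := ℚ) ho hm hom
    have hkF := nh_ker (k := F) ho hm hom
    have hdF := nh_dbl (k := F) ho hm hom
    have hTm : IsT (gc A B F) (A : F) (B : F) := gc_isT (by rw [hB]; exact pow_ne_zero 2 ho.ne') (by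
        have h1 : A ^ 2 - 4 * B = 16 * (16 * (m * (16 * m - o))) := by rw [hA, hB]; ring
        rw [h1]
        exact mul_ne_zero (by norm_num) (mul_ne_zero (by norm_num) hne')) F
    have hTmQ : IsT (gc A B ℚ) (A : ℚ) (B : ℚ) := gc_isT (by rw [hB]; exact pow_ne_zero 2 ho.ne') (by
        have h1 : A ^ 2 - 4 * B = 16 * (16 * (m * (16 * m - o))) := by rw [hA, hB]; ring
        rw [h1]
        exact mul_ne_zero (by norm_num) (mul_ne_zero (by norm_num) hne')) ℚ
    have hsha : ∀ u : (𝓞 F)ˣ, Algebra.norm ℚ ((u : 𝓞 F) : F) = 1 →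
        Pool.Agent.TH841.NF.D.IsShaCoc (gc A B F) (fb hTm ((u : 𝓞 F) : F)) := fun u hu =>
      sha_unit (F := F) hA hB ho4 hm hodd hbad hne u hu
    have heven : ∀ b : F, b ≠ 0 → (∃ r : ℚ, Algebra.norm ℚ b = r ^ 2) →
        Pool.Agent.TH841.NF.D.IsShaCoc (gc A B F) (fb hTm b) →
        ∀ v : HeightOneSpectrum (𝓞 F), ∃ n : ℤ, v.valuation F b = WithZero.exp (2 * n) :=
      fun b hb hr hs v => even_class hA hB ho4 hodd hbad hne' hb hr hs v
    have hrep : ∀ (x : Pool.Agent.TH841.NF.D.Sha (gc A B F)) (m : ℕ), 2 ^ m • x = 0 →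
        coS (gc_sc (F := F) A B) e x = 0 →
        ∃ c : F, c ≠ 0 ∧ (∃ r : ℚ, Algebra.norm ℚ c = r ^ 2) ∧
          ∃ hs : Pool.Agent.TH841.NF.D.IsShaCoc (gc A B F) (fb hTm c),
            x = ((⟨fb hTm c, hs⟩ : Pool.Agent.TH841.NF.D.shaCoc (gc A B F)) :
              Pool.Agent.TH841.NF.D.shaCoc (gc A B F) ⧸ (cob (gc A B F)).addSubgroupOf
                (Pool.Agent.TH841.NF.D.shaCoc (gc A B F))) := by
      clear hsha heven
      subst hA hB
      have hTF' : IsT (gc (2 * (o - 32 * m)) (o ^ 2) F)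
          (algebraMap ℚ F ((2 * (o - 32 * m) : ℤ) : ℚ)) (algebraMap ℚ F ((o ^ 2 : ℤ) : ℚ)) := by
        rw [map_intCast, map_intCast]; exact hTF
      intro x m hx hco
      exact rep (gc_sc (F := F) _ _) (gc_sc (F := F) _ _) e (hE := hTQ) (hT := hTF') hTF0
        hcp hkQ hkF hdF hodd hkey x m hx hco
    have hinj : ∀ c : F, c ≠ 0 → (∃ r : ℚ, Algebra.norm ℚ c = r ^ 2) →
        IsCob (gc A B F) (fb hTm c) → ∃ y : F, y ^ 2 = c := by
      clear hsha heven
      subst hA hB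
      have hTF' : IsT (gc (2 * (o - 32 * m)) (o ^ 2) F)
          (algebraMap ℚ F ((2 * (o - 32 * m) : ℤ) : ℚ)) (algebraMap ℚ F ((o ^ 2 : ℤ) : ℚ)) := by
        rw [map_intCast, map_intCast]; exact hTF
      intro c hc hr hcob
      exact inj (gc_sc (F := F) _ _) (gc_sc (F := F) _ _) e (hE := hTQ) (hT := hTF') hTF0
        hcp hkQ hkF hdF hodd hkey hc hr hcob
    rw [← hA, ← hB]
    exact final hTmQ hTm e hcl hodd hsha heven hrep hinj

end main

end Pool.Agent.R432
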