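import Pool.Agent.Y676.IS.Alg4
import Pool.Agent.Y682.StabH

/-!
# The 2-isogeny and its dual over a field of characteristic zero
-/

set_option autoImplicit false
set_option linter.unusedSectionVars false

namespace Pool.Agent.R432

open WeierstrassCurve

open Pool.Agent.TH841.SH.D (Pt act Gal Coch IsCoc IsCob LocTriv cob)

open Pool.Agent.Y676.IS (Cu Dat isoF isoF_x0 isoF_some add_all dbl ker cu_ns ns_T add_T TT)

/-- the isogeny between curves equal to `Cu a b`, `Cu a' b'` -/
noncomputable def isoW {F : Type} [Field F] [CharZero F] {W W' : WeierstrassCurve.Affine F}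
    {a b a' b' u : F} (hW : W = Cu a b) (hW' : W' = Cu a' b') (h : Dat a b a' b' u) :
    W.Point → W'.Point := fun P => hW'.symm ▸ isoF h (hW ▸ P)

lemma isoW_zero {F : Type} [Field F] [CharZero F] {W W' : WeierstrassCurve.Affine F}
    {a b a' b' u : F} (hW : W = Cu a b) (hW' : W' = Cu a' b') (h : Dat a b a' b' u) :
    isoW hW hW' h .zero = .zero := by
  subst hW hW'
  rfl

lemma isoW_x0 {F : Type} [Field F] [CharZero F] {W W' : WeierstrassCurve.Affine F}
    {a b a' b' u : F} (hW : W = Cu a b) (hW' : W' = Cu a' b') (h : Dat a b a' b' u)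
    {x y : F} (hxy : W.Nonsingular x y) (hx : x = 0) :
    isoW hW hW' h (.some x y hxy) = .zero := by
  subst hW hW'
  exact isoF_x0 h hxy hx

lemma isoW_some {F : Type} [Field F] [CharZero F] {W W' : WeierstrassCurve.Affine F}
    {a b a' b' u : F} (hW : W = Cu a b) (hW' : W' = Cu a' b') (h : Dat a b a' b' u)
    {x y : F} (hxy : W.Nonsingular x y) (hx : x ≠ 0) :
    ∃ h', isoW hW hW' h (.some x y hxy) = .some (y ^ 2 / (u ^ 2 * x ^ 2))
      (y * (b - x ^ 2) / (u ^ 3 * x ^ 2)) h' := by
  subst hW hW'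
  exact ⟨_, isoF_some h hxy hx⟩

lemma isoW_add {F : Type} [Field F] [CharZero F] [DecidableEq F] [IsAlgClosed F]
    {W W' : WeierstrassCurve.Affine F}
    {a b a' b' u : F} (hW : W = Cu a b) (hW' : W' = Cu a' b') (h : Dat a b a' b' u)
    (P Q : W.Point) : isoW hW hW' h (P + Q) = isoW hW hW' h P + isoW hW hW' h Q := by
  subst hW hW'
  exact add_all h P Q

lemma isoW_dbl {F : Type} [Field F] [CharZero F] [DecidableEq F] {W W' : WeierstrassCurve.Affine F}
    {a b a' b' u u' : F} (hW : W = Cu a b) (hW' : W' = Cu a' b') (h : Dat a b a' b' u)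
    (h' : Dat a' b' a b u') (huu : u * u' = 2) (P : W.Point) :
    isoW hW' hW h' (isoW hW hW' h P) = P + P := by
  subst hW hW'
  exact dbl h h' huu P

lemma isoW_ker {F : Type} [Field F] [CharZero F] {W W' : WeierstrassCurve.Affine F}
    {a b a' b' u : F} (hW : W = Cu a b) (hW' : W' = Cu a' b') (h : Dat a b a' b' u)
    (P : W.Point) (hP : isoW hW hW' h P = .zero) : P = .zero ∨ ∃ h0, P = .some 0 0 h0 := by
  classical
  subst hW hW'
  rcases ker h P hP with h1 | h1
  · exact Or.inl h1
  · exact Or.inr ⟨_, h1⟩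

/-- the data of an isogeny -/
structure KDat {k : Type} [Field k] [CharZero k] (W W' : WeierstrassCurve k)
    (a b a' b' u : k) : Prop where
  hW : W = ⟨0, a, 0, b, 0⟩
  hW' : W' = ⟨0, a', 0, b', 0⟩
  dat : Dat a b a' b' u

section

variable {k : Type} [Field k] [CharZero k] {W W' : WeierstrassCurve k} {a b a' b' u : k}

lemma bc (a b : k) (L : Type) [Field L] [Algebra k L] [CharZero L] :
    ((⟨0, a, 0, b, 0⟩ : WeierstrassCurve k).baseChange L).toAffine =
    Cu (algebraMap k L a) (algebraMap k L b) := by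
  apply WeierstrassCurve.ext
  · exact map_zero (algebraMap k L)
  · rfl
  · exact map_zero (algebraMap k L)
  · rfl
  · exact map_zero (algebraMap k L)

lemma cz (k L : Type) [Field k] [CharZero k] [Field L] [Algebra k L] : CharZero L :=
  charZero_of_injective_algebraMap (algebraMap k L).injective

variable (L : Type) [Field L] [Algebra k L]

lemma KDat.base (h : KDat W W' a b a' b' u) [CharZero L] :
    Dat (algebraMap k L a) (algebraMap k L b) (algebraMap k L a') (algebraMap k L b')
      (algebraMap k L u) where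
  hb := (map_ne_zero _).2 h.dat.hb
  hb' := (map_ne_zero _).2 h.dat.hb'
  hu := (map_ne_zero _).2 h.dat.hu
  e1 := by
    have := congrArg (algebraMap k L) h.dat.e1
    rwa [map_mul, map_pow, map_mul, map_neg, map_ofNat] at this
  e2 := by
    have := congrArg (algebraMap k L) h.dat.e2
    rwa [map_mul, map_pow, map_sub, map_mul, map_pow, map_ofNat] at this

lemma KDat.w (h : KDat W W' a b a' b' u) [CharZero L] :
    (W.baseChange L).toAffine = Cu (algebraMap k L a) (algebraMap k L b) := by
  rw [h.hW]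
  exact bc a b L

lemma KDat.w' (h : KDat W W' a b a' b' u) [CharZero L] :
    (W'.baseChange L).toAffine = Cu (algebraMap k L a') (algebraMap k L b') := by
  rw [h.hW']
  exact bc a' b' L

/-- the isogeny over `L` -/
noncomputable def isoL (h : KDat W W' a b a' b' u) [CharZero L] : Pt W L → Pt W' L :=
  isoW (h.w L) (h.w' L) (h.base L)

lemma act_some {L L' : Type} [Field L] [Field L'] [Algebra k L] [Algebra k L']
    (W : WeierstrassCurve k) (φ : L →ₐ[k] L') {x y : L}
    (h : (W.baseChange L).toAffine.Nonsingular x y) :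
    act W φ (.some x y h) =
      .some (φ x) (φ y) ((Affine.baseChange_nonsingular W φ.injective ..).mpr h) := rfl

lemma act_zero' {L L' : Type} [Field L] [Field L'] [Algebra k L] [Algebra k L']
    (W : WeierstrassCurve k) (φ : L →ₐ[k] L') : act W φ Affine.Point.zero = Affine.Point.zero := rfl

lemma act_inj {L L' : Type} [Field L] [Field L'] [Algebra k L] [Algebra k L']
    (W : WeierstrassCurve k) (φ : L →ₐ[k] L') : Function.Injective (act W φ) :=
  @Affine.Point.map_injective k k L L' _ _ _ _ W (Classical.decEq L) (Classical.decEq L') _ _ _ _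
    _ _ _ φ

lemma pt_congr {W : WeierstrassCurve.Affine L} {x y x' y' : L} (h : W.Nonsingular x y)
    (h' : W.Nonsingular x' y') (hx : x = x') (hy : y = y') :
    (.some x y h : W.Point) = .some x' y' h' := by
  subst hx hy
  rfl

lemma isoL_act {L' : Type} [Field L'] [Algebra k L'] [CharZero L] [CharZero L']
    (h : KDat W W' a b a' b' u) (f : L →ₐ[k] L') (P : Pt W L) :
    act W' f (isoL L h P) = isoL L' h (act W f P) := by
  rcases P with _ | ⟨x, y, hxy⟩
  · have e1 : isoL L h .zero = Affine.Point.zero := isoW_zero _ _ _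
    have e2 : isoL L' h .zero = Affine.Point.zero := isoW_zero _ _ _
    rw [e1]
    change act W' f Affine.Point.zero = isoL L' h (act W f Affine.Point.zero)
    rw [act_zero', act_zero', e2]
  · by_cases hx : x = 0
    · have e1 : isoL L h (.some x y hxy) = Affine.Point.zero := isoW_x0 _ _ _ _ hx
      rw [e1, act_some]
      have e2 : isoL L' h (.some (f x) (f y)
        ((Affine.baseChange_nonsingular W f.injective ..).mpr hxy)) = Affine.Point.zero :=
        isoW_x0 _ _ _ _ (by rw [hx, map_zero])
      rw [e2]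
      rfl
    · obtain ⟨g1, e1⟩ := isoW_some (h.w L) (h.w' L) (h.base L) hxy hx
      have e1' : isoL L h (.some x y hxy) = _ := e1
      rw [e1', act_some, act_some]
      obtain ⟨g2, e2⟩ := isoW_some (h.w L') (h.w' L') (h.base L')
        ((Affine.baseChange_nonsingular W f.injective ..).mpr hxy)
        (by rwa [Ne, map_eq_zero])
      have e2' : isoL L' h (.some (f x) (f y)
        ((Affine.baseChange_nonsingular W f.injective ..).mpr hxy)) = _ := e2
      rw [e2']
      apply pt_congr
      · simp [map_div₀]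
      · simp [map_div₀]

lemma isoL_add [CharZero L] (h : KDat W W' a b a' b' u) (P Q : Pt W L) :
    isoL L h (P + Q) = isoL L h P + isoL L h Q := by
  let f : L →ₐ[k] AlgebraicClosure L := IsScalarTower.toAlgHom k L (AlgebraicClosure L)
  apply act_inj W' f
  have h1 : ∀ P Q : Pt W (AlgebraicClosure L), isoL (AlgebraicClosure L) h (P + Q) =
      isoL (AlgebraicClosure L) h P + isoL (AlgebraicClosure L) h Q := fun P Q =>
    @isoW_add (AlgebraicClosure L) _ _ (Classical.decEq _) _ _ _ _ _ _ _ _ (h.w _) (h.w' _)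
      (h.base _) P Q
  rw [map_add, isoL_act, isoL_act, isoL_act, map_add, h1]

/-- the isogeny as a homomorphism -/
noncomputable def isoH (h : KDat W W' a b a' b' u) : Pt W L →+ Pt W' L :=
  have : CharZero L := cz k L
  AddMonoidHom.mk' (isoL L h) (isoL_add L h)

lemma isoH_act {L' : Type} [Field L'] [Algebra k L'] (h : KDat W W' a b a' b' u) (f : L →ₐ[k] L')
    (P : Pt W L) : act W' f (isoH L h P) = isoH L' h (act W f P) := by
  have : CharZero L := cz k L
  have : CharZero L' := cz k L'
  exact isoL_act L h f P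

lemma isoH_dbl {u' : k} (h : KDat W W' a b a' b' u) (h' : KDat W' W a' b' a b u')
    (huu : u * u' = 2) (P : Pt W L) : isoH L h' (isoH L h P) = P + P := by
  have : CharZero L := cz k L
  refine @isoW_dbl L _ _ (Classical.decEq L) _ _ _ _ _ _ _ _ (h.w L) (h.w' L) (h.base L)
    (h'.base L) ?_ P
  rw [← map_mul, huu, map_ofNat]

lemma isoH_ker (h : KDat W W' a b a' b' u) (P : Pt W L) (hP : isoH L h P = 0) :
    P = 0 ∨ ∃ h0, P = (Affine.Point.some 0 0 h0 : (W.baseChange L).toAffine.Point) := by
  have : CharZero L := cz k L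
  exact isoW_ker (h.w L) (h.w' L) (h.base L) P hP

lemma isoH_zero (h : KDat W W' a b a' b' u) {x y : L} (hxy) (hx : x = 0) :
    isoH L h (Affine.Point.some x y hxy : (W.baseChange L).toAffine.Point) = 0 := by
  have : CharZero L := cz k L
  exact isoW_x0 (h.w L) (h.w' L) (h.base L) hxy hx

lemma isoH_some (h : KDat W W' a b a' b' u) {x y : L} (hxy) (hx : x ≠ 0) :
    ∃ h', isoH L h (Affine.Point.some x y hxy : (W.baseChange L).toAffine.Point) =
      (Affine.Point.some (y ^ 2 / (algebraMap k L u ^ 2 * x ^ 2))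
      (y * (algebraMap k L b - x ^ 2) / (algebraMap k L u ^ 3 * x ^ 2)) h' :
        (W'.baseChange L).toAffine.Point) := by
  have : CharZero L := cz k L
  exact isoW_some (h.w L) (h.w' L) (h.base L) hxy hx

end

/-! ### Natural families of homomorphisms -/

/-- a natural family of homomorphisms between the groups of points -/
structure NH {k : Type} [Field k] (W W' : WeierstrassCurve k) where
  f : ∀ (L : Type) [Field L] [Algebra k L], Pt W L →+ Pt W' L
  nat : ∀ {L L' : Type} [Field L] [Algebra k L] [Field L'] [Algebra k L'] (φ : L →ₐ[k] L')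
    (P : Pt W L), act W' φ (f L P) = f L' (act W φ P)

/-- the isogeny -/
noncomputable def NH.iso {k : Type} [Field k] [CharZero k] {W W' : WeierstrassCurve k}
    {a b a' b' u : k} (h : KDat W W' a b a' b' u) : NH W W' where
  f L _ _ := isoH L h
  nat φ P := isoH_act _ h φ P

/-- the composition -/
noncomputable def NH.comp {k : Type} [Field k] {W W' W'' : WeierstrassCurve k} (h : NH W W')
    (h' : NH W' W'') : NH W W'' where
  f L _ _ := (h'.f L).comp (h.f L)
  nat φ P := by
    change act W'' φ (h'.f _ (h.f _ P)) = h'.f _ (h.f _ (act W φ P))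
    rw [h'.nat, h.nat]

/-! ### Translations -/

/-- `W'` is obtained from `W` by the translation `x ↦ x - r` -/
structure Tr {F : Type} [Field F] (r : F) (W W' : WeierstrassCurve F) : Prop where
  h1 : W.a₁ = 0
  h3 : W.a₃ = 0
  h1' : W'.a₁ = 0
  h3' : W'.a₃ = 0
  h2 : W'.a₂ = W.a₂ + 3 * r
  h4 : W'.a₄ = W.a₄ + 2 * r * W.a₂ + 3 * r ^ 2
  h6 : W'.a₆ = W.a₆ + r * W.a₄ + r ^ 2 * W.a₂ + r ^ 3

section tr

variable {F : Type} [Field F] {r : F} {W W' : WeierstrassCurve F} (S : Tr r W W')

lemma Tr.base {k : Type} [Field k] {r : k} {W W' : WeierstrassCurve k} (S : Tr r W W')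
    (L : Type) [Field L] [Algebra k L] : Tr (algebraMap k L r) (W.baseChange L)
      (W'.baseChange L) where
  h1 := by show algebraMap k L W.a₁ = 0; rw [S.h1, map_zero]
  h3 := by show algebraMap k L W.a₃ = 0; rw [S.h3, map_zero]
  h1' := by show algebraMap k L W'.a₁ = 0; rw [S.h1', map_zero]
  h3' := by show algebraMap k L W'.a₃ = 0; rw [S.h3', map_zero]
  h2 := by
    show algebraMap k L W'.a₂ = algebraMap k L W.a₂ + _
    rw [S.h2, map_add, map_mul, map_ofNat]
  h4 := by
    show algebraMap k L W'.a₄ = algebraMap k L W.a₄ + _ * algebraMap k L W.a₂ + _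
    rw [S.h4]
    simp only [map_add, map_mul, map_pow, map_ofNat]
  h6 := by
    show algebraMap k L W'.a₆ = algebraMap k L W.a₆ + _ * algebraMap k L W.a₄ +
      _ * algebraMap k L W.a₂ + _
    rw [S.h6]
    simp only [map_add, map_mul, map_pow]

include S in
lemma tr_eqn (x y : F) : W'.toAffine.Equation (x - r) y ↔ W.toAffine.Equation x y := by
  rw [Affine.equation_iff, Affine.equation_iff, S.h1, S.h3, S.h1', S.h3', S.h2, S.h4, S.h6]
  constructor
  · intro h; linear_combination h
  · intro h; linear_combination h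

include S in
lemma tr_negY (x y : F) : W'.toAffine.negY (x - r) y = W.toAffine.negY x y := by
  simp only [Affine.negY, S.h1, S.h3, S.h1', S.h3']
  ring

include S in
lemma tr_ns (x y : F) : W'.toAffine.Nonsingular (x - r) y ↔ W.toAffine.Nonsingular x y := by
  rw [Affine.nonsingular_iff, Affine.nonsingular_iff, tr_eqn S, S.h1, S.h3, S.h1', S.h3', S.h2,
    S.h4]
  have e1 : 3 * (x - r) ^ 2 + 2 * (W.a₂ + 3 * r) * (x - r) +
      (W.a₄ + 2 * r * W.a₂ + 3 * r ^ 2) = 3 * x ^ 2 + 2 * W.a₂ * x + W.a₄ := by ring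
  rw [e1, zero_mul, zero_mul, zero_mul]

variable [DecidableEq F]

include S in
lemma tr_slope (x₁ x₂ y₁ y₂ : F) :
    W'.toAffine.slope (x₁ - r) (x₂ - r) y₁ y₂ = W.toAffine.slope x₁ x₂ y₁ y₂ := by
  by_cases hx : x₁ = x₂
  · by_cases hy : y₁ = W.toAffine.negY x₂ y₂
    · rw [Affine.slope_of_Y_eq hx hy, Affine.slope_of_Y_eq (by rw [hx])
        (by rw [tr_negY S, hy])]
    · have hy' : y₁ ≠ W'.toAffine.negY (x₂ - r) y₂ := by
        rw [tr_negY S]
        exact hy
      rw [Affine.slope_of_Y_ne hx hy, Affine.slope_of_Y_ne (by rw [hx]) hy', tr_negY S]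
      congr 1
      rw [S.h1, S.h1', S.h2, S.h4]
      ring
  · have hx' : x₁ - r ≠ x₂ - r := fun h => hx (sub_left_injective h)
    rw [Affine.slope_of_X_ne hx, Affine.slope_of_X_ne hx']
    congr 1
    ring

include S in
omit [DecidableEq F] in
lemma tr_addX (x₁ x₂ l : F) :
    W'.toAffine.addX (x₁ - r) (x₂ - r) l = W.toAffine.addX x₁ x₂ l - r := by
  simp only [Affine.addX, S.h1, S.h1', S.h2]
  ring

include S in
omit [DecidableEq F] in
lemma tr_addY (x₁ x₂ y₁ l : F) :
    W'.toAffine.addY (x₁ - r) (x₂ - r) y₁ l = W.toAffine.addY x₁ x₂ y₁ l := by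
  simp only [Affine.addY, Affine.negAddY, Affine.negY, Affine.addX, S.h1, S.h1', S.h2, S.h3,
    S.h3']
  ring

/-- the map on points -/
def trF : W.toAffine.Point → W'.toAffine.Point
  | 0 => 0
  | .some x y h => .some (x - r) y ((tr_ns S x y).2 h)

omit [DecidableEq F] in
lemma trF_zero : trF S 0 = 0 := rfl

omit [DecidableEq F] in
lemma trF_some (x y : F) (h : W.toAffine.Nonsingular x y) :
    trF S (.some x y h) = .some (x - r) y ((tr_ns S x y).2 h) := rfl

lemma trF_add (P Q : W.toAffine.Point) : trF S (P + Q) = trF S P + trF S Q := by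
  match P, Q with
  | 0, Q => rw [zero_add, trF_zero, zero_add]
  | .some x y h, 0 => rw [add_zero, trF_zero, add_zero]
  | .some x₁ y₁ h₁, .some x₂ y₂ h₂ =>
    rw [trF_some, trF_some]
    by_cases hxy : x₁ = x₂ ∧ y₁ = W.toAffine.negY x₂ y₂
    · rw [Affine.Point.add_of_Y_eq hxy.1 hxy.2,
        Affine.Point.add_of_Y_eq (by rw [hxy.1]) (by rw [hxy.2, tr_negY S]),
        trF_zero]
    · have hxy' : ¬ (x₁ - r = x₂ - r ∧ y₁ = W'.toAffine.negY (x₂ - r) y₂) := by
        rintro ⟨q1, q2⟩
        apply hxy
        refine ⟨sub_left_injective q1, ?_⟩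
        rwa [tr_negY S] at q2
      rw [Affine.Point.add_some hxy, Affine.Point.add_some hxy', trF_some]
      rw [Affine.Point.some.injEq, tr_slope S, tr_addX S, tr_addY S]
      exact ⟨rfl, rfl⟩

end tr

/-- the translation as a homomorphism -/
noncomputable def trH {k : Type} [Field k] {W W' : WeierstrassCurve k} {r : k} (S : Tr r W W')
    (L : Type) [Field L] [Algebra k L] : Pt W L →+ Pt W' L :=
  AddMonoidHom.mk' (trF (S.base L)) (@trF_add L _ _ _ _ (S.base L) (Classical.decEq L))

lemma trH_some {k : Type} [Field k] {W W' : WeierstrassCurve k} {r : k} (S : Tr r W W')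
    (L : Type) [Field L] [Algebra k L] {x y : L} (h : (W.baseChange L).toAffine.Nonsingular x y) :
    trH S L (Affine.Point.some x y h : (W.baseChange L).toAffine.Point) =
      (Affine.Point.some (x - algebraMap k L r) y ((tr_ns (S.base L) x y).2 h) :
        (W'.baseChange L).toAffine.Point) := rfl

/-- the translation as a natural family -/
noncomputable def NH.tr {k : Type} [Field k] [CharZero k] {W W' : WeierstrassCurve k} {r : k}
    (S : Tr r W W') : NH W W' where
  f L _ _ := trH S L
  nat := by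
    intro L L' _ _ _ _ φ P
    rcases P with _ | ⟨x, y, h⟩
    · rfl
    · rw [trH_some, act_some, act_some, trH_some]
      exact pt_congr _ _ _ (by rw [map_sub, AlgHom.commutes]) rfl

lemma trH_inv {k : Type} [Field k] {W W' : WeierstrassCurve k} {r : k} (S : Tr r W W')
    (S' : Tr (-r) W' W) (L : Type) [Field L] [Algebra k L] (P : Pt W L) :
    trH S' L (trH S L P) = P := by
  rcases P with _ | ⟨x, y, h⟩
  · rfl
  · rw [trH_some, trH_some]
    exact pt_congr _ _ _ (by rw [map_neg]; ring) rfl

/-! ### The map on the cocycles -/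

section coch

variable {k : Type} [Field k] [CharZero k] {W W' : WeierstrassCurve k}

/-- the map on the cochains -/
noncomputable def iC (h : NH W W') (f : Coch W) : Coch W' :=
  fun σ => h.f (AlgebraicClosure k) (f σ)

lemma iC_add (h : NH W W') (f g : Coch W) : iC h (f + g) = iC h f + iC h g := by
  funext σ
  exact map_add _ _ _

lemma iC_dl (h : NH W W') (P : Pt W (AlgebraicClosure k)) :
    iC h (Y682.dl P) = Y682.dl (h.f (AlgebraicClosure k) P) := by
  funext σ
  change h.f (AlgebraicClosure k) (act W σ.toAlgHom P - P) =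
    act W' σ.toAlgHom (h.f (AlgebraicClosure k) P) - h.f (AlgebraicClosure k) P
  rw [map_sub, h.nat]

lemma iC_coc (h : NH W W') {f : Coch W} (hf : IsCoc W f) : IsCoc W' (iC h f) := by
  refine ⟨hf.1.comp (h.f (AlgebraicClosure k)), fun σ τ => ?_⟩
  change h.f (AlgebraicClosure k) (f (σ * τ)) = h.f (AlgebraicClosure k) (f σ) +
    act W' σ.toAlgHom (h.f (AlgebraicClosure k) (f τ))
  rw [hf.2, map_add, h.nat]

lemma iC_loc (h : NH W W') {K : Type} [Field K] [Algebra k K] {f : Coch W}
    (hf : LocTriv W K f) : LocTriv W' K (iC h f) := by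
  intro ι
  obtain ⟨P, hP⟩ := hf ι
  refine ⟨h.f (AlgebraicClosure K) P, fun τ σ hτ => ?_⟩
  change act W' ι (h.f (AlgebraicClosure k) (f σ)) = _
  rw [h.nat, hP τ σ hτ, map_sub, h.nat]

end coch

section nf

variable {F : Type} [Field F] [NumberField F] {W W' : WeierstrassCurve F}

lemma iC_sha (h : NH W W') {f : Coch W}
    (hf : Pool.Agent.TH841.NF.D.IsShaCoc W f) : Pool.Agent.TH841.NF.D.IsShaCoc W' (iC h f) :=
  ⟨iC_coc h hf.1, fun v => iC_loc h (hf.2.1 v), fun v => iC_loc h (hf.2.2 v)⟩

/-- the homomorphism on the cocycles -/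
noncomputable def iCC (h : NH W W') :
    Pool.Agent.TH841.NF.D.shaCoc W →+ Pool.Agent.TH841.NF.D.shaCoc W' where
  toFun f := ⟨iC h f.1, iC_sha h f.2⟩
  map_zero' := by
    apply Subtype.ext
    funext σ
    exact map_zero (h.f (AlgebraicClosure F))
  map_add' f g := Subtype.ext (iC_add h f.1 g.1)

/-- the map on the Tate-Shafarevich groups -/
noncomputable def iS (h : NH W W') :
    Pool.Agent.TH841.NF.D.Sha W →+ Pool.Agent.TH841.NF.D.Sha W' :=
  QuotientAddGroup.map ((cob W).addSubgroupOf (Pool.Agent.TH841.NF.D.shaCoc W))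
    ((cob W').addSubgroupOf (Pool.Agent.TH841.NF.D.shaCoc W'))
    (iCC h) (fun f hf => by
      obtain ⟨P, hP⟩ := hf
      exact ⟨h.f (AlgebraicClosure F) P, fun σ => congrFun (by
        have h1 : (f.1 : Coch W) = Y682.dl P := funext hP
        change iC h f.1 = Y682.dl (h.f (AlgebraicClosure F) P)
        rw [h1, iC_dl]) σ⟩)

end nf

end Pool.Agent.R432
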