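import Pool.Agent.R432.R2

/-!
# There are infinitely many admissible primes
-/

set_option autoImplicit false
set_option linter.unusedSectionVars false

open NumberField Polynomial

namespace Pool.Agent.R432.C

open Pool.Agent.Y692.QS
open Pool.Agent.Y715.T.Rec (cs nn)
open Pool.Agent.Y715.T.RecG (Pq)
open Pool.Agent.W401.Cheb (xp HasFrob infinite_frob)

/-- **Rational primes with prescribed symbols.** -/
theorem inf_l (P : Finset Ei) (hP : ∀ p ∈ P, Pq p) (ε : Ei → ZMod 3) :
    {l : ℕ | l.Prime ∧ l % 9 = 1 ∧ ∃ q : Ei, Pq q ∧ nr q = l ∧ q ∉ P ∧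
      ∀ p ∈ P, cs q p = ε p}.Infinite := by
  classical
  have hwP : w ∉ P := fun h => (hP _ h).prime.not_isUnit isUnit_w
  obtain ⟨L, _, _, _, j, ρ, hρ⟩ := exists_field (insert w P)
  have hinj : Function.Injective j := by
    rw [injective_iff_map_eq_zero]
    intro a ha
    by_contra h0
    have h3 : j ((nr a : ℤ) : Ei) = 0 := by
      rw [← mul_star, map_mul, ha, zero_mul]
    rw [map_intCast] at h3
    have h4 : nr a = 0 := by exact_mod_cast h3
    exact h0 (nr_zero_iff.1 h4)
  let _ : Algebra (FractionRing Ei) L :=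
    (IsFractionRing.lift (K := FractionRing Ei) hinj).toAlgebra
  obtain ⟨g, hg1, hg2⟩ := exists_gal (k := FractionRing Ei) j
    (fun g => IsFractionRing.lift_algebraMap hinj g) hP ρ hρ (fun x => if x = w then 0 else ε x)
  have hinf := infinite_frob L g
  intro hfin
  apply hinf
  have hB : ({3} ∪ (P.image (fun q : Ei => (nr q).natAbs) : Finset ℕ) ∪ hfin.toFinset :
      Set ℕ).Finite := by
    refine Set.Finite.union (Set.Finite.union (Set.finite_singleton _) (Finset.finite_toSet _))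
      (Finset.finite_toSet _)
  refine hB.subset ?_
  rintro p ⟨hp, hxp⟩
  by_cases hp3 : p = 3
  · left; left; exact hp3
  obtain ⟨q, hq, hqn, hcs⟩ := q_of_p j ρ hρ _ g hg1 hg2 hp hp3 hxp
  by_cases hqP : q ∈ P
  · left; right
    rw [Finset.mem_coe, Finset.mem_image]
    exact ⟨q, hqP, hqn⟩
  · right
    rw [Finset.mem_coe, Set.Finite.mem_toFinset]
    have hnr : nr q = (p : ℤ) := by
      rw [← hqn]
      exact (Int.natAbs_of_nonneg (nr_nonneg q)).symm
    have h9 : nr q % 9 = 1 := by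
      apply cs_w_nine hq
      have h1 := hcs w (Finset.mem_insert_self _ _) (fun h => hq.prime.not_isUnit
        (isUnit_of_dvd_unit h isUnit_w))
      rw [if_pos rfl] at h1
      exact h1
    refine ⟨hp, by omega, q, hq, hnr, hqP, fun p' hp' => ?_⟩
    have h1 := hcs p' (Finset.mem_insert_of_mem hp') (fun h => hqP (by
      rw [pq_dvd hq (hP p' hp') h]; exact hp'))
    rw [if_neg (fun h : p' = w => hwP (by rw [← h]; exact hp'))] at h1
    exact h1

end Pool.Agent.R432.C

namespace Pool.Agent.R432.Q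

open Pool.Agent.Y692.QS
open Pool.Agent.Y715.T.Rec (cs)
open Pool.Agent.Y715.T.RecG (Pq)
open Pool.Agent.Y703.CT (Dt pD Ker Base Cls NoSplit)
open Pool.Agent.Y703.CX (pp)
open Pool.Agent.Y333.CX (pp_spec)
open Pool.Agent.Y405.CT (pq_star pi_inj)
open Pool.Agent.R432.C (inf_l)

/-- modulo a prime `2` modulo `3` everything is a cube -/
lemma cube_two {p : ℕ} (hp : p.Prime) (h2 : p % 3 = 2) (n : ℕ) : CubeMod n p := by
  have hf := Fact.mk hp
  refine ⟨(n : ℤ) ^ ((2 * p - 1) / 3), ?_⟩
  rw [← ZMod.intCast_zmod_eq_zero_iff_dvd]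
  push_cast
  rw [← pow_mul]
  have h3 : (2 * p - 1) / 3 * 3 = (p - 1) + (p - 1) + 1 := by
    have := hp.two_le
    omega
  rw [h3]
  by_cases h0 : (n : ZMod p) = 0
  · rw [h0, zero_pow (by omega), sub_zero]
  · rw [pow_succ, pow_add, ZMod.pow_card_sub_one_eq_one h0, one_mul, one_mul, sub_self]

lemma star_ne {ρ : Ei} {p : ℕ} (hp : p.Prime) (hn : nr ρ = p) : star ρ ≠ ρ := by
  intro h
  have h4 := congrArg (fun z : Ei => z.im) h
  simp only [star_im] at h4
  have h5 : ρ.im = 0 := by omega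
  have h6 : nr ρ = ρ.re ^ 2 := by
    unfold nr
    rw [h5]
    ring
  rw [h6] at hn
  have h7 : ρ.re.natAbs ^ 2 = p := by
    have := congrArg Int.natAbs hn
    rwa [Int.natAbs_pow, Int.natAbs_natCast] at this
  rw [← h7] at hp
  exact Nat.Prime.not_prime_pow (le_refl 2) hp

theorem more {D : ℕ} (hC : Cls D) {a : ℕ → ℕ} {S : Finset ℕ} (hA : Adm D a S) {p : ℕ}
    (hp : p.Prime) (hpD : p ∣ D) :
    {l : ℕ | l ∉ S ∧ Adm D (fun x => if x = l then p else a x) (insert l S)}.Infinite := by
  classical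
  obtain ⟨n, π, e, hD, hDp⟩ := Pool.Agent.Y274.CT.t_exi D hC.1
  have h3D := hC.1.2.1
  have hp3 : p ≠ 3 := by
    rintro rfl
    exact h3D hpD
  obtain ⟨j₀, hj₀⟩ := fac_ex hD hDp hp hpD hp3
  have hne : Nonempty (Fin n) := ⟨j₀⟩
  have hL := leafQ hD hDp h3D hA
  set P : Finset Ei := SE S ∪ Finset.univ.image π with hP
  have hPq : ∀ x ∈ P, Pq x := by
    intro x hx
    rcases Finset.mem_union.1 hx with h | h
    · exact hL.pq x h
    · obtain ⟨i, -, rfl⟩ := Finset.mem_image.1 h
      exact hD.pq i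
  have hπP : ∀ i, π i ∈ P := fun i =>
    Finset.mem_union_right _ (Finset.mem_image_of_mem _ (Finset.mem_univ i))
  refine (inf_l P hPq (fun x => if x = π j₀ then 1 else 0)).mono ?_
  rintro l ⟨hl, hl9, q, hq, hqn, hqP, hcs⟩
  have hl1 : l % 3 = 1 := by omega
  have hlS : l ∉ S := by
    intro h
    apply hqP
    refine Finset.mem_union_left _ (mem_SE.2 ⟨l, h, eq_pp hq hl hqn⟩)
  have hlD : ¬ l ∣ D := by
    intro h
    have h1 : q ∣ ((D : ℕ) : Ei) := (dvd_nat' hq hl hqn D).2 h
    obtain ⟨i, hi⟩ := in_D hD hDp hq h1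
    exact hqP (by rw [← hi]; exact hπP i)
  have hlp : ∀ r : ℕ, r ∣ D → l ≠ r := fun r h1 h2 => hlD (by rw [h2]; exact h1)
  have hlp' : ∀ r : ℕ, r ∣ D → ¬ l ∣ r := fun r h1 h2 => hlD (h2.trans h1)
  have hother : ∀ i, π i ≠ π j₀ → cs q (π i) = 0 := by
    intro i hi
    rw [hcs _ (hπP i), if_neg hi]
  have hj1 : cs q (π j₀) = 1 := by rw [hcs _ (hπP j₀), if_pos rfl]
  -- the free primes
  have hfree : ∀ r : ℕ, r.Prime → r ∣ D → r ≠ p → Free l r := by
    intro r hr hrD hrp
    have hr3 : r ≠ 3 := by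
      rintro rfl
      exact h3D hrD
    obtain ⟨i, hi⟩ := fac_ex hD hDp hr hrD hr3
    rcases hi with ⟨m1, m2⟩ | ⟨m1, m2⟩
    · have hnr0 : nr (π j₀) ≠ r := by
        rcases hj₀ with ⟨-, h5⟩ | ⟨-, h5⟩
        · rw [h5]
          intro h6
          exact hrp (by exact_mod_cast h6.symm)
        · intro h6
          have h7 : nr (π j₀) = (p : ℤ) ^ 2 := by
            rw [h5]
            have h8 : nr (-(p : Ei)) = nr (p : Ei) := by unfold nr; simp
            rw [h8, nr_nat]
          rw [h7] at h6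
          have h8 : p ^ 2 = r := by exact_mod_cast h6
          rw [← h8] at hr
          exact Nat.Prime.not_prime_pow (le_refl 2) hr
      obtain ⟨i', hi'⟩ := fac_star hD hDp i
      have h1 : cs q (π i) = 0 := hother i fun h => hnr0 (by rw [← h]; exact m2)
      have h2 : cs q (star (π i)) = 0 := by
        rw [← hi']
        exact hother i' fun h => hnr0 (by rw [← h, hi', nr_star]; exact m2)
      obtain ⟨g1, g2, -⟩ := split1 hq hl hqn (hD.pq i) hr m2 (hlp r hrD)
      exact ⟨g1.1 (by rw [h1, h2, add_zero]), g2.1 (by rw [h1, h2, sub_zero])⟩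
    · refine ⟨?_, cube_two hr m1 l⟩
      have h1 : cs q (π i) = 0 := by
        refine hother i fun h => ?_
        rw [m2] at h
        rcases hj₀ with ⟨-, h5⟩ | ⟨-, h5⟩
        · have h7 : nr (π j₀) = (r : ℤ) ^ 2 := by
            rw [← h]
            have h8 : nr (-(r : Ei)) = nr (r : Ei) := by unfold nr; simp
            rw [h8, nr_nat]
          rw [h5] at h7
          have h8 : p = r ^ 2 := by exact_mod_cast h7
          rw [h8] at hp
          exact Nat.Prime.not_prime_pow (le_refl 2) hp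
        · rw [h5] at h
          have h6 := neg_injective h
          have h7 : nr (r : Ei) = nr (p : Ei) := by rw [h6]
          rw [nr_nat, nr_nat] at h7
          have h8 : r ^ 2 = p ^ 2 := by exact_mod_cast h7
          exact hrp (Nat.pow_left_injective (by norm_num : (2 : ℕ) ≠ 0) h8)
      rw [m2] at h1
      exact (inert1 hq hl hqn (hlp' r hrD)).1 h1
  have hatt : Att l p := by
    rcases hj₀ with ⟨m1, m2⟩ | ⟨m1, m2⟩
    · obtain ⟨i', hi'⟩ := fac_star hD hDp j₀
      have h2 : cs q (star (π j₀)) = 0 := by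
        rw [← hi']
        exact hother i' fun h => star_ne hp m2 (by rw [← hi']; exact h)
      obtain ⟨g1, g2, -⟩ := split1 hq hl hqn (hD.pq j₀) hp m2 (hlp p hpD)
      rw [hj1, h2] at g1 g2
      refine ⟨fun h => ?_, fun _ h => ?_⟩
      · exact absurd (g1.2 h) (by decide)
      · exact absurd (g2.2 h) (by decide)
    · refine ⟨fun h => ?_, fun h => by omega⟩
      have h1 := (inert1 hq hl hqn (hlp' p hpD)).2 h
      rw [← m2, hj1] at h1
      exact one_ne_zero h1
  have hpw : ∀ m ∈ S, CubeMod l m ∧ CubeMod m l := by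
    intro m hm
    have hlm : l ≠ m := fun h => hlS (by rw [h]; exact hm)
    obtain ⟨k1, k2⟩ := pp_spec (hA.pr m hm) (adm_one hA hm)
    have x1 : pp m ∈ SE S := mem_SE.2 ⟨m, hm, Or.inl rfl⟩
    have x2 : star (pp m) ∈ SE S := mem_SE.2 ⟨m, hm, Or.inr rfl⟩
    have h1 : cs q (pp m) = 0 := by
      rw [hcs _ (Finset.mem_union_left _ x1), if_neg (hL.ne _ x1 j₀)]
    have h2 : cs q (star (pp m)) = 0 := by
      rw [hcs _ (Finset.mem_union_left _ x2), if_neg (hL.ne _ x2 j₀)]
    obtain ⟨g1, g2, -⟩ := split1 hq hl hqn k1 (hA.pr m hm) k2 hlm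
    exact ⟨g2.1 (by rw [h1, h2, sub_zero]), g1.1 (by rw [h1, h2, add_zero])⟩
  have ha : ∀ m ∈ S, (if m = l then p else a m) = a m := fun m hm =>
    if_neg fun h => hlS (by rw [← h]; exact hm)
  refine ⟨hlS, ⟨fun x hx => ?_, fun x hx => ?_, fun x hx => ?_, fun x hx => ?_, fun x hx => ?_,
    fun x hx => ?_, fun x hx r hr hrD hra => ?_, fun x hx y hy hxy => ?_⟩⟩
  · rcases Finset.mem_insert.1 hx with rfl | h
    · exact hl
    · exact hA.pr x h
  · rcases Finset.mem_insert.1 hx with rfl | h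
    · exact hl9
    · exact hA.nine x h
  · rcases Finset.mem_insert.1 hx with rfl | h
    · exact hlD
    · exact hA.nd x h
  · rcases Finset.mem_insert.1 hx with rfl | h
    · rw [if_pos rfl]
      exact hp
    · rw [ha x h]
      exact hA.ap x h
  · rcases Finset.mem_insert.1 hx with rfl | h
    · rw [if_pos rfl]
      exact hpD
    · rw [ha x h]
      exact hA.ad x h
  · rcases Finset.mem_insert.1 hx with rfl | h
    · rw [if_pos rfl]
      exact hatt
    · rw [ha x h]
      exact hA.att x h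
  · rcases Finset.mem_insert.1 hx with rfl | h
    · rw [if_pos rfl] at hra
      exact hfree r hr hrD hra
    · rw [ha x h] at hra
      exact hA.free x h r hr hrD hra
  · rcases Finset.mem_insert.1 hx with rfl | h <;> rcases Finset.mem_insert.1 hy with rfl | h'
    · exact absurd rfl hxy
    · exact (hpw y h').1
    · exact (hpw x h).2
    · exact hA.pw x h y h' hxy

end Pool.Agent.R432.Q
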