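import Pool.Agent.R432.R3
import Pool.Agent.Y948.CTP.CmpA
import Pool.Agent.Y455.CTK.JEX

/-!
# The fields `ℚ(∛l : l ∈ S)`
-/

set_option autoImplicit false
set_option linter.unusedSectionVars false

open NumberField Polynomial

namespace Pool.Agent.R432.Q

open Pool.Agent.Y692.QS
open Pool.Agent.Y703.CT (Cls NoSplit)
open Pool.Agent.R432.C (ED)
open Pool.Agent.TH841.NF.D (Sha)
open Pool.Agent.TH841.SH.D (Pt act)

section deg

variable {L : Type} [Field L] [NumberField L]

/-- an upper bound for the degree -/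
lemma finrank_le (r : ℕ → L) (S : Finset ℕ) (hr : ∀ l ∈ S, ∃ c : ℚ, r l ^ 3 = algebraMap ℚ L c) :
    Module.finrank ℚ (S.sup fun l => IntermediateField.adjoin ℚ {r l} : IntermediateField ℚ L) ≤
      3 ^ S.card := by
  classical
  induction S using Finset.induction_on with
  | empty =>
    rw [Finset.sup_empty, Finset.card_empty, pow_zero, IntermediateField.finrank_bot]
  | insert l S hl ih =>
    rw [Finset.sup_insert, Finset.card_insert_of_notMem hl, pow_succ]
    refine (IntermediateField.finrank_sup_le _ _).trans ?_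
    rw [mul_comm]
    refine Nat.mul_le_mul (ih fun m hm => hr m (Finset.mem_insert_of_mem hm)) ?_
    obtain ⟨c, hc⟩ := hr l (Finset.mem_insert_self _ _)
    have hint : IsIntegral ℚ (r l) := Algebra.IsIntegral.isIntegral _
    rw [IntermediateField.adjoin.finrank hint]
    have h1 : (X ^ 3 - C c : ℚ[X]).natDegree = 3 := natDegree_X_pow_sub_C
    rw [← h1]
    refine natDegree_le_of_dvd (minpoly.dvd _ _ ?_) (X_pow_sub_C_ne_zero (by norm_num) _)
    rw [map_sub, map_pow, aeval_X, aeval_C, hc, sub_self]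

lemma finrank_le' (r : ℕ → L) (S : Finset ℕ) (hr : ∀ l ∈ S, r l ^ 3 = (l : L))
    (hgen : ∀ M : Subfield L, (∀ l ∈ S, r l ∈ M) → M = ⊤) : Module.finrank ℚ L ≤ 3 ^ S.card := by
  have h1 := finrank_le r S fun l hl => ⟨(l : ℚ), by rw [hr l hl, map_natCast]⟩
  have h2 : (S.sup fun l => IntermediateField.adjoin ℚ {r l} : IntermediateField ℚ L) = ⊤ := by
    have h3 := hgen (S.sup fun l => IntermediateField.adjoin ℚ {r l} :
      IntermediateField ℚ L).toSubfield (fun l hl => by
        have h4 : IntermediateField.adjoin ℚ {r l} ≤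
            (S.sup fun l => IntermediateField.adjoin ℚ {r l} : IntermediateField ℚ L) :=
          Finset.le_sup (f := fun l => IntermediateField.adjoin ℚ {r l}) hl
        exact h4 (IntermediateField.mem_adjoin_simple_self ℚ (r l)))
    rw [eq_top_iff]
    intro y _
    have h5 : y ∈ (S.sup fun l => IntermediateField.adjoin ℚ {r l} :
      IntermediateField ℚ L).toSubfield := by rw [h3]; trivial
    exact h5
  rw [h2, IntermediateField.finrank_top'] at h1
  exact h1

/-- the degree of the field with the third roots of unity -/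
lemma cyc_le {k F : Type} [Field k] [NumberField k] [Field F] [NumberField F] [Algebra k F]
    [IsCyclotomicExtension {3} k F] : Module.finrank k F ≤ 2 := by
  have hζ : IsPrimitiveRoot (IsCyclotomicExtension.zeta 3 k F) 3 :=
    IsCyclotomicExtension.zeta_spec 3 k F
  have h1 := (hζ.powerBasis k).finrank
  rw [h1, hζ.powerBasis_dim k]
  have h2 : (cyclotomic 3 k).natDegree = 2 := by
    rw [natDegree_cyclotomic]
    decide
  refine le_trans (natDegree_le_of_dvd (minpoly.dvd _ _ ?_) (cyclotomic_ne_zero 3 k)) h2.le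
  have h3 := hζ.isRoot_cyclotomic (by norm_num : 0 < 3)
  rw [IsRoot.def] at h3
  rw [← eval_map_algebraMap, map_cyclotomic]
  exact h3

end deg

section pts

variable {k F : Type} [Field k] [NumberField k] [Field F] [NumberField F] [Algebra k F]

open scoped Classical in
lemma act_inj' {L M : Type} [Field L] [Algebra k L] [Field M] [Algebra k M]
    (W : WeierstrassCurve k) (φ : L →ₐ[k] M) : Function.Injective (act W φ) :=
  WeierstrassCurve.Affine.Point.map_injective φ

open scoped Classical in
lemma pts_sub {D : ℕ} (h : Finite (ED ((D : ℕ) : F)).toAffine.Point) :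
    Finite (ED ((D : ℕ) : k)).toAffine.Point := by
  have e1 : (ED ((D : ℕ) : k)).baseChange F = ED ((D : ℕ) : F) := by
    ext
    · show algebraMap k F 0 = 0
      exact map_zero _
    · show algebraMap k F 0 = 0
      exact map_zero _
    · show algebraMap k F ((D : ℕ) : k) = (D : F)
      exact map_natCast _ _
    · show algebraMap k F 0 = 0
      exact map_zero _
    · show algebraMap k F 0 = 0
      exact map_zero _
  have e2 : (ED ((D : ℕ) : k)).baseChange k = ED ((D : ℕ) : k) := by
    ext <;> rfl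
  have hfin' : Finite (Pt (ED ((D : ℕ) : k)) F) := by
    change Finite ((ED ((D : ℕ) : k)).baseChange F).toAffine.Point
    rw [e1]
    exact h
  have hinj := act_inj' (ED ((D : ℕ) : k)) (Algebra.ofId k F)
  have hfin0 : Finite (Pt (ED ((D : ℕ) : k)) k) := Finite.of_injective _ hinj
  have : Finite ((ED ((D : ℕ) : k)).baseChange k).toAffine.Point := hfin0
  rwa [e2] at this

end pts

/-- **The tower over `ℚ`.** -/
theorem towerQ {D : ℕ} (hC : Cls D) (hN : NoSplit D) {a : ℕ → ℕ} {S : Finset ℕ} (hA : Adm D a S)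
    {L : Type} [Field L] [NumberField L] (r : ℕ → L) (hr : ∀ l ∈ S, r l ^ 3 = (l : L))
    (hgen : ∀ M : Subfield L, (∀ l ∈ S, r l ∈ M) → M = ⊤) :
    Module.finrank ℚ L = 3 ^ S.card ∧ Finite (ED ((D : ℕ) : L)).toAffine.Point ∧
    ∀ (k : ℕ) (y : Sha (ED ((D : ℕ) : L))), 3 ^ k • y = 0 → 3 ^ S.card • y = 0 := by
  have hle := finrank_le' r S hr hgen
  have hcyc : IsCyclotomicExtension {3} ℚ (CyclotomicField 3 ℚ) :=
    Pool.Agent.Y948.CTP.cyc_rat _ _ (CyclotomicField.isCyclotomicExtension 3 ℚ)
  obtain ⟨⟨j, -⟩, -⟩ := Pool.Agent.Y455.CTK.jex (CyclotomicField 3 ℚ)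
  obtain ⟨F, hF1, hF2, hF3, hF4⟩ : ∃ (F : Type) (_ : Field F) (_ : NumberField F) (_ : Algebra L F),
      IsCyclotomicExtension {3} L F :=
    ⟨CyclotomicField 3 L, inferInstance, inferInstance, inferInstance, inferInstance⟩
  have hirrQ : Irreducible (cyclotomic 3 ℚ) := cyclotomic.irreducible_rat (by norm_num)
  have hζ : IsPrimitiveRoot (IsCyclotomicExtension.zeta 3 ℚ (CyclotomicField 3 ℚ)) 3 :=
    IsCyclotomicExtension.zeta_spec 3 ℚ (CyclotomicField 3 ℚ)
  have hζF : IsPrimitiveRoot (IsCyclotomicExtension.zeta 3 L F) 3 :=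
    IsCyclotomicExtension.zeta_spec 3 L F
  let φ : CyclotomicField 3 ℚ →ₐ[ℚ] F := (hζ.embeddingsEquivPrimitiveRoots F hirrQ).symm
    ⟨_, (mem_primitiveRoots (by norm_num)).2 hζF⟩
  have hφ : φ (IsCyclotomicExtension.zeta 3 ℚ (CyclotomicField 3 ℚ)) =
      IsCyclotomicExtension.zeta 3 L F := by
    have h1 := hζ.embeddingsEquivPrimitiveRoots_apply_coe F hirrQ φ
    rw [← h1, Equiv.apply_symm_apply]
  let hAl : Algebra (CyclotomicField 3 ℚ) F := φ.toRingHom.toAlgebra
  have hgen' : ∀ M : Subfield F, (∀ k : CyclotomicField 3 ℚ, algebraMap (CyclotomicField 3 ℚ) F k ∈ M) →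
      (∀ l ∈ S, algebraMap L F (r l) ∈ M) → M = ⊤ := by
    intro M h1 h2
    have h3 := hgen (M.comap (algebraMap L F)) fun l hl => h2 l hl
    have h4 : ∀ y : L, algebraMap L F y ∈ M := by
      intro y
      have h5 : y ∈ M.comap (algebraMap L F) := by rw [h3]; trivial
      exact h5
    have h5 : IsCyclotomicExtension.zeta 3 L F ∈ M := by
      rw [← hφ]
      exact h1 _
    have h6 : (Algebra.adjoin L {IsCyclotomicExtension.zeta 3 L F} : Subalgebra L F) = ⊤ :=
      IsCyclotomicExtension.adjoin_primitive_root_eq_top hζF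
    rw [eq_top_iff]
    intro y _
    have h7 : y ∈ (Algebra.adjoin L {IsCyclotomicExtension.zeta 3 L F} : Subalgebra L F) := by
      rw [h6]; trivial
    refine Algebra.adjoin_induction (p := fun z _ => z ∈ M) ?_ ?_ ?_ ?_ h7
    · rintro z hz
      rw [Set.mem_singleton_iff.1 hz]
      exact h5
    · exact h4
    · intro x y _ _ hx hy
      exact M.add_mem hx hy
    · intro x y _ _ hx hy
      exact M.mul_mem hx hy
  obtain ⟨g1, g2, g3⟩ := towerK (K := CyclotomicField 3 ℚ) j hC hN hA (F := F)
    (fun l => algebraMap L F (r l)) (fun l hl => by rw [← map_pow, hr l hl, map_natCast]) hgen'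
  have ht : IsScalarTower ℚ (CyclotomicField 3 ℚ) F :=
    IsScalarTower.of_algebraMap_eq fun q => (φ.commutes q).symm
  have ht' : IsScalarTower ℚ L F := IsScalarTower.of_algebraMap_eq fun q => by simp
  have e1 : Module.finrank ℚ (CyclotomicField 3 ℚ) * Module.finrank (CyclotomicField 3 ℚ) F =
      Module.finrank ℚ F := Module.finrank_mul_finrank ℚ _ F
  have e2 : Module.finrank ℚ L * Module.finrank L F = Module.finrank ℚ F :=
    Module.finrank_mul_finrank ℚ L F
  have e3 : Module.finrank ℚ (CyclotomicField 3 ℚ) = 2 := by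
    rw [IsCyclotomicExtension.finrank (CyclotomicField 3 ℚ) hirrQ]
    decide
  have e4 : Module.finrank L F ≤ 2 := cyc_le
  have e5 : Module.finrank ℚ L = 3 ^ S.card ∧ Module.finrank L F = 2 := by
    rw [g1, e3] at e1
    have h1 : 0 < 3 ^ S.card := by positivity
    have h2 : Module.finrank ℚ L * Module.finrank L F ≤ Module.finrank ℚ L * 2 :=
      Nat.mul_le_mul_left _ e4
    have h3 : Module.finrank ℚ L = 3 ^ S.card := by omega
    refine ⟨h3, ?_⟩
    rw [h3] at e2
    have h4 : 3 ^ S.card * Module.finrank L F = 3 ^ S.card * 2 := by rw [e2, ← e1, mul_comm]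
    exact Nat.eq_of_mul_eq_mul_left h1 h4
  exact ⟨e5.1, pts_sub (F := F) g2, shpD D S.card e5.2 g3⟩

end Pool.Agent.R432.Q
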