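import Pool.Agent.Y682.NrmP

/-!
# Norms and residues at a prime that does not decompose
-/

set_option autoImplicit false

attribute [-instance] DivisionRing.toRatAlgebra

open NumberField IsDedekindDomain

namespace Pool.Agent.R432

open Pool.Agent.TH841.NF (pls pid mem_pid norm_le_one_of_val norm_int)

open Pool.Agent.Y682 (pls_eq)

section

variable {F : Type} [Field F] [NumberField F] {p : ℕ} [hp : Fact p.Prime]

lemma prod_congr_lt {ι : Type} (s : Finset ι) (f g : ι → PadicAlgCl p) (hf : ∀ i, ‖f i‖ ≤ 1)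
    (hg : ∀ i, ‖g i‖ ≤ 1) (h : ∀ i, ‖f i - g i‖ < 1) :
    ‖∏ i ∈ s, f i - ∏ i ∈ s, g i‖ < 1 ∧ ‖∏ i ∈ s, g i‖ ≤ 1 := by
  classical
  induction s using Finset.induction_on with
  | empty => simp
  | insert i s hi ih =>
    rw [Finset.prod_insert hi, Finset.prod_insert hi]
    refine ⟨?_, by rw [norm_mul]; exact mul_le_one₀ (hg i) (norm_nonneg _) ih.2⟩
    have e : f i * ∏ j ∈ s, f j - g i * ∏ j ∈ s, g j =
        f i * (∏ j ∈ s, f j - ∏ j ∈ s, g j) + (f i - g i) * ∏ j ∈ s, g j := by ring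
    rw [e]
    refine (IsUltrametricDist.norm_add_le_max _ _).trans_lt (max_lt ?_ ?_)
    · rw [norm_mul]
      exact mul_lt_one_of_nonneg_of_lt_one_right (hf i) (norm_nonneg _) ih.1
    · rw [norm_mul]
      exact mul_lt_one_of_nonneg_of_lt_one_left (norm_nonneg _) (h i) ih.2

variable [Algebra ℚ F] [FiniteDimensional ℚ F]

lemma exists_norm_int (x : 𝓞 F) : ∃ m : ℤ, Algebra.norm ℚ (x : F) = m := by
  have h1 : IsIntegral ℤ (Algebra.norm ℚ (x : F)) :=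
    Algebra.isIntegral_norm ℚ x.isIntegral_coe
  obtain ⟨m, hm⟩ := IsIntegrallyClosed.isIntegral_iff.1 h1
  exact ⟨m, hm.symm⟩

/-- congruent integers have congruent norms -/
lemma norm_congr {v : HeightOneSpectrum (𝓞 F)}
    (huniq : ∀ w : HeightOneSpectrum (𝓞 F), (p : 𝓞 F) ∈ w.asIdeal → w = v)
    {x y : 𝓞 F} {m n : ℤ} (hx : Algebra.norm ℚ (x : F) = m) (hy : Algebra.norm ℚ (y : F) = n)
    (hxy : x - y ∈ v.asIdeal) : (p : ℤ) ∣ m - n := by
  let i1 : Algebra ℚ (PadicAlgCl p) := DivisionRing.toRatAlgebra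
  have key : ∀ (z : F) (k : ℤ), Algebra.norm ℚ z = k →
      ((k : ℚ_[p]) : PadicAlgCl p) = ∏ σ : F →ₐ[ℚ] PadicAlgCl p, σ z := by
    intro z k hk
    rw [← Algebra.norm_eq_prod_embeddings ℚ (PadicAlgCl p) z, hk]
    change algebraMap ℚ_[p] (PadicAlgCl p) (k : ℚ_[p]) = _
    rw [map_intCast, map_intCast]
  have h1 := prod_congr_lt (p := p) Finset.univ (fun σ : F →ₐ[ℚ] PadicAlgCl p => σ (x : F))
    (fun σ => σ (y : F)) (fun σ => norm_int (σ : F →+* PadicAlgCl p) x)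
    (fun σ => norm_int (σ : F →+* PadicAlgCl p) y) (fun σ => by
      have h2 : x - y ∈ pid (σ : F →+* PadicAlgCl p) := by
        have h3 := pls_eq huniq (σ : F →+* PadicAlgCl p)
        rw [← h3] at hxy
        exact hxy
      rw [mem_pid, map_sub, map_sub] at h2
      exact h2)
  rw [← key _ _ hx, ← key _ _ hy] at h1
  have h2 := h1.1
  have h3 : ((m : ℚ_[p]) : PadicAlgCl p) - ((n : ℚ_[p]) : PadicAlgCl p) =
      (((m - n : ℤ) : ℚ_[p]) : PadicAlgCl p) := by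
    change algebraMap ℚ_[p] (PadicAlgCl p) _ - algebraMap ℚ_[p] (PadicAlgCl p) _ =
      algebraMap ℚ_[p] (PadicAlgCl p) _
    rw [← map_sub]
    congr 1
    push_cast
    ring
  rw [h3, PadicAlgCl.norm_extends, Padic.norm_intCast_lt_one_iff] at h2
  exact h2

lemma char_two {k : Type} [Field k] (h2 : (2 : k) ≠ 0) : ringChar k ≠ 2 := by
  intro h
  apply h2
  have := CharP.cast_eq_zero k (ringChar k)
  rw [h] at this
  exact_mod_cast this

/-- the product of two nonsquares -/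
lemma nonsq_mul {k : Type} [Field k] [Finite k] (h2 : (2 : k) ≠ 0) {x y : k} (hx : ¬ IsSquare x)
    (hy : ¬ IsSquare y) : IsSquare (x * y) := by
  classical
  have : Fintype k := Fintype.ofFinite k
  have hx0 : x ≠ 0 := by rintro rfl; exact hx (IsSquare.zero)
  have hy0 : y ≠ 0 := by rintro rfl; exact hy (IsSquare.zero)
  rw [← quadraticChar_one_iff_isSquare (mul_ne_zero hx0 hy0), map_mul,
    quadraticChar_neg_one_iff_not_isSquare.2 hx, quadraticChar_neg_one_iff_not_isSquare.2 hy]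
  norm_num

/-- a unit whose norm is one is a square modulo a prime over which there is only one place -/
lemma unit_sq {v : HeightOneSpectrum (𝓞 F)} (hpv : (p : 𝓞 F) ∈ v.asIdeal)
    (huniq : ∀ w : HeightOneSpectrum (𝓞 F), (p : 𝓞 F) ∈ w.asIdeal → w = v) (hp2 : p ≠ 2)
    (hodd : Odd (Module.finrank ℚ F)) (u : (𝓞 F)ˣ)
    (hu : Algebra.norm ℚ ((u : 𝓞 F) : F) = 1) :
    ∃ z : 𝓞 F, z ∉ v.asIdeal ∧ (u : 𝓞 F) - z ^ 2 ∈ v.asIdeal := by
  have hvp := v.isPrime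
  have : v.asIdeal.IsMaximal := v.isMaximal
  let _ : Field (𝓞 F ⧸ v.asIdeal) := Ideal.Quotient.field v.asIdeal
  have hfin : Finite (𝓞 F ⧸ v.asIdeal) := Ideal.finiteQuotientOfFreeOfNeBot v.asIdeal v.ne_bot
  have h2v : (2 : 𝓞 F) ∉ v.asIdeal := by
    intro h
    obtain ⟨k, hk⟩ : ∃ k, p = 2 * k + 1 := hp.out.odd_of_ne_two hp2
    apply hvp.ne_top
    rw [Ideal.eq_top_iff_one]
    have e : (1 : 𝓞 F) = (p : 𝓞 F) - 2 * (k : 𝓞 F) := by
      rw [hk]; push_cast; ring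
    rw [e]
    exact sub_mem hpv (v.asIdeal.mul_mem_right _ h)
  have h20 : (2 : 𝓞 F ⧸ v.asIdeal) ≠ 0 := by
    intro h
    apply h2v
    rw [← Ideal.Quotient.eq_zero_iff_mem, map_ofNat]
    exact h
  obtain ⟨n, hn⟩ := id hodd
  -- powers of rational integers
  obtain ⟨c', hc'⟩ := FiniteField.exists_nonsquare (F := ZMod p) (by
    rw [ZMod.ringChar_zmod_n]; exact hp2)
  have hc0 : c' ≠ 0 := by rintro rfl; exact hc' IsSquare.zero
  obtain ⟨c, hc⟩ : ∃ c : ℤ, (c : ZMod p) = c' := ZMod.intCast_surjective c'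
  have hpow : ¬ IsSquare (c' ^ (2 * n + 1)) := by
    rintro ⟨r, hr⟩
    apply hc'
    refine ⟨r / c' ^ n, ?_⟩
    have : c' ^ n ≠ 0 := pow_ne_zero n hc0
    field_simp
    rw [sq r, ← hr]
    ring
  have hNc : Algebra.norm ℚ (((c : ℤ) : 𝓞 F) : F) = ((c ^ (2 * n + 1) : ℤ) : ℚ) := by
    have h3 := Algebra.norm_algebraMap (S := F) ((c : ℤ) : ℚ)
    rw [map_intCast, hn] at h3
    have h4 : (((c : ℤ) : 𝓞 F) : F) = ((c : ℤ) : F) := map_intCast (algebraMap (𝓞 F) F) c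
    rw [h4, h3]
    push_cast
    rfl
  have hsqn : ∀ z : 𝓞 F, ∃ r : ℤ, Algebra.norm ℚ ((z ^ 2 : 𝓞 F) : F) = ((r ^ 2 : ℤ) : ℚ) := by
    intro z
    obtain ⟨r, hr⟩ := exists_norm_int z
    refine ⟨r, ?_⟩
    have h4 : ((z ^ 2 : 𝓞 F) : F) = (z : F) ^ 2 := map_pow (algebraMap (𝓞 F) F) z 2
    rw [h4, map_pow, hr]
    push_cast
    rfl
  -- the class of `c`
  have hcn : ¬ IsSquare ((Ideal.Quotient.mk v.asIdeal) ((c : ℤ) : 𝓞 F)) := by
    rintro ⟨z', hz'⟩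
    obtain ⟨z, rfl⟩ := Ideal.Quotient.mk_surjective z'
    obtain ⟨r, hr⟩ := hsqn z
    have h5 : ((c : ℤ) : 𝓞 F) - z ^ 2 ∈ v.asIdeal := by
      rw [← Ideal.Quotient.eq_zero_iff_mem, map_sub, hz', map_pow]
      ring
    have h6 := norm_congr huniq hNc hr h5
    apply hpow
    refine ⟨(r : ZMod p), ?_⟩
    have h7 := (ZMod.intCast_zmod_eq_zero_iff_dvd _ p).2 h6
    push_cast at h7
    rw [hc] at h7
    linear_combination h7
  by_cases hus : IsSquare ((Ideal.Quotient.mk v.asIdeal) (u : 𝓞 F))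
  · obtain ⟨z', hz'⟩ := hus
    obtain ⟨z, rfl⟩ := Ideal.Quotient.mk_surjective z'
    have h5 : (u : 𝓞 F) - z ^ 2 ∈ v.asIdeal := by
      rw [← Ideal.Quotient.eq_zero_iff_mem, map_sub, hz', map_pow]
      ring
    refine ⟨z, fun hz => ?_, h5⟩
    have h6 : (u : 𝓞 F) ∈ v.asIdeal := by
      have e : (u : 𝓞 F) = ((u : 𝓞 F) - z ^ 2) + z * z := by ring
      rw [e]
      exact add_mem h5 (v.asIdeal.mul_mem_right _ hz)
    exact hvp.ne_top (Ideal.eq_top_of_isUnit_mem _ h6 u.isUnit)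
  · exfalso
    obtain ⟨z', hz'⟩ := nonsq_mul h20 hus hcn
    obtain ⟨z, rfl⟩ := Ideal.Quotient.mk_surjective z'
    obtain ⟨r, hr⟩ := hsqn z
    have h5 : (u : 𝓞 F) * ((c : ℤ) : 𝓞 F) - z ^ 2 ∈ v.asIdeal := by
      rw [← Ideal.Quotient.eq_zero_iff_mem, map_sub, map_mul, hz', map_pow]
      ring
    have hNuc : Algebra.norm ℚ (((u : 𝓞 F) * ((c : ℤ) : 𝓞 F) : 𝓞 F) : F) =
        ((c ^ (2 * n + 1) : ℤ) : ℚ) := by
      have h4 : (((u : 𝓞 F) * ((c : ℤ) : 𝓞 F) : 𝓞 F) : F) =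
          ((u : 𝓞 F) : F) * (((c : ℤ) : 𝓞 F) : F) := map_mul (algebraMap (𝓞 F) F) _ _
      rw [h4, map_mul, hu, hNc, one_mul]
    have h6 := norm_congr huniq hNuc hr h5
    apply hpow
    refine ⟨(r : ZMod p), ?_⟩
    have h7 := (ZMod.intCast_zmod_eq_zero_iff_dvd _ p).2 h6
    push_cast at h7
    rw [hc] at h7
    linear_combination h7

end

end Pool.Agent.R432
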