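import Pool.Agent.R432.FF
import Pool.Agent.R432.NC
import Pool.Agent.R432.FR

/-!
# Local solubility
-/

set_option autoImplicit false
set_option linter.unusedSectionVars false

attribute [-instance] DivisionRing.toRatAlgebra

open NumberField IsDedekindDomain

namespace Pool.Agent.R432

open WeierstrassCurve

open Pool.Agent.TH841.SH.D (Pt act Gal Coch IsCoc IsCob LocTriv cob)

open Pool.Agent.Y682

section hensel

variable {K : Type} [Field K] [NumberField K] (v : HeightOneSpectrum (𝓞 K))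

/-- the map to the completion -/
noncomputable def iv : 𝓞 K →+* v.adicCompletion K :=
  (algebraMap K (v.adicCompletion K)).comp (algebraMap (𝓞 K) K)

lemma cast_iv (x : 𝓞 K) : algebraMap K (v.adicCompletion K) (x : K) = iv v x := rfl

/-- the places over two -/
lemma hensel2 {z k g β : v.adicCompletion K} (hz : vv v z = 1) (hk : vv v k ≤ 1)
    (hg : vv v g ≤ 1) (hβ : vv v (β - z ^ 2) < 1) :
    ∃ w : v.adicCompletion K, z ^ 2 + z * w - k * w ^ 2 - g * w ^ 4 = β := by
  have hz0 : z ≠ 0 := by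
    rintro rfl
    rw [map_zero] at hz
    exact zero_ne_one hz
  set c := (β - z ^ 2) / z with hc
  have hc1 : vv v c < 1 := by
    rw [hc, map_div₀, hz, div_one]
    exact hβ
  let s : Set (v.adicCompletion K) := {y | ‖y‖ ≤ ‖c‖}
  have hs : IsComplete s := (isClosed_le continuous_norm continuous_const).isComplete
  let T : v.adicCompletion K → v.adicCompletion K := fun y => c + (k * y ^ 2 + g * y ^ 4) / z
  have hmaps : Set.MapsTo T s s := by
    intro y hy
    have h1 : vv v y ≤ vv v c := (norm_le_iff v _ _).1 hy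
    change ‖T y‖ ≤ ‖c‖
    rw [norm_le_iff]
    refine (Valuation.map_add _ _ _).trans (max_le le_rfl ?_)
    have h2 : k * y ^ 2 + g * y ^ 4 = y * (y * (k + g * y ^ 2)) := by ring
    rw [map_div₀, hz, div_one, h2, map_mul]
    refine (mul_le_of_le_one_right' ?_).trans h1
    rw [map_mul]
    refine mul_le_one' (h1.trans hc1.le) ((Valuation.map_add _ _ _).trans (max_le hk ?_))
    rw [map_mul, map_pow]
    exact mul_le_one' hg (pow_le_one' (h1.trans hc1.le) 2)
  have hcn : ‖c‖ < 1 := by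
    rw [← norm_one (α := v.adicCompletion K), ← not_le, norm_le_iff, not_le, map_one]
    exact hc1
  have hcon : ContractingWith ⟨‖c‖, norm_nonneg _⟩ (hmaps.restrict T s s) := by
    refine ⟨by exact_mod_cast hcn, ?_⟩
    apply LipschitzWith.of_dist_le_mul
    rintro ⟨y, hy⟩ ⟨t, ht⟩
    change dist (T y) (T t) ≤ ‖c‖ * dist y t
    have h1 : vv v y ≤ vv v c := (norm_le_iff v _ _).1 hy
    have h2 : vv v t ≤ vv v c := (norm_le_iff v _ _).1 ht
    rw [dist_eq_norm, dist_eq_norm, ← norm_mul, norm_le_iff, map_mul]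
    have h3 : T y - T t = (y + t) * (y - t) * (k + g * (y ^ 2 + t ^ 2)) / z := by
      simp only [T]
      field_simp
      ring
    rw [h3, map_div₀, hz, div_one, map_mul, map_mul]
    refine (mul_le_of_le_one_right' ?_).trans
      (mul_le_mul_left ((Valuation.map_add _ _ _).trans (max_le h1 h2)) _)
    refine (Valuation.map_add _ _ _).trans (max_le hk ?_)
    rw [map_mul]
    refine mul_le_one' hg ((Valuation.map_add _ _ _).trans (max_le ?_ ?_))
    · rw [map_pow]; exact pow_le_one' (h1.trans hc1.le) 2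
    · rw [map_pow]; exact pow_le_one' (h2.trans hc1.le) 2
  have hcs : c ∈ s := le_refl ‖c‖
  obtain ⟨y, hys, hy, -⟩ := hcon.exists_fixedPoint' hs hmaps hcs (edist_ne_top _ _)
  have h2 : c + (k * y ^ 2 + g * y ^ 4) / z = y := hy
  refine ⟨y, ?_⟩
  have h3 : c * z = β - z ^ 2 := div_mul_cancel₀ _ hz0
  have h4 : (k * y ^ 2 + g * y ^ 4) / z * z = k * y ^ 2 + g * y ^ 4 := div_mul_cancel₀ _ hz0
  linear_combination (-z) * h2 + h3 + h4

/-- a local square -/
lemma sq_of_res (h2 : (2 : 𝓞 K) ∉ v.asIdeal) {x y : 𝓞 K} (hy : y ∉ v.asIdeal)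
    (h : x - y ^ 2 ∈ v.asIdeal) :
    ∃ t : v.adicCompletion K, t ^ 2 = algebraMap K _ (x : K) := by
  have hv1 : ∀ z : 𝓞 K, z ∉ v.asIdeal → vv v (algebraMap K _ (z : K)) = 1 := by
    intro z hz
    rw [vv_coe]
    exact (HeightOneSpectrum.valuation_eq_one_iff_notMem v).2 hz
  have hlt : ∀ z : 𝓞 K, z ∈ v.asIdeal → vv v (algebraMap K _ (z : K)) < 1 := by
    intro z hz
    rw [vv_coe]
    exact (HeightOneSpectrum.valuation_lt_one_iff_mem v z).2 hz
  have h21 : vv v 2 = 1 := by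
    have := hv1 2 h2
    rwa [cast_iv, map_ofNat] at this
  have h41 : vv v 4 = 1 := by rw [w_four, h21, one_mul]
  have hy0 : algebraMap K (v.adicCompletion K) (y : K) ≠ 0 := by
    intro h0
    have := hv1 y hy
    rw [h0, map_zero] at this
    exact zero_ne_one this
  refine exists_sqrt' v hy0 ?_
  rw [h41, hv1 y hy, one_pow, one_mul]
  have := hlt _ h
  rw [cast_iv, map_sub, map_pow] at this
  exact this

end hensel

section loc

variable {F : Type} [Field F] [NumberField F] [Algebra ℚ F] {a c : ℤ}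

/-- the isogenous curve -/
lemma loc_pt' {hT : IsT (gc (-2 * a) (a ^ 2 - 64 * c) F) ((-2 * a : ℤ) : F)
      ((a ^ 2 - 64 * c : ℤ) : F)} {b : F} {L : Type} [Field L] [CharZero L] [Algebra F L]
    {s Y : L} (hb : b ≠ 0) (hs : s ≠ 0)
    (hY : Y ^ 2 = algebraMap F L b * s ^ 2 * ((algebraMap F L b * s ^ 2) ^ 2 +
      (a : L) * (algebraMap F L b * s ^ 2) + 16 * (c : L))) : LocTriv _ L (fb hT b) := by
  refine fb_loc hT (z := 2 * s) (Y := 8 * Y) hb (mul_ne_zero two_ne_zero hs) ?_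
  rw [mul_pow, hY, map_intCast, map_intCast]
  push_cast
  ring

/-- the archimedean places -/
lemma loc_inf {hT : IsT (gc (-2 * a) (a ^ 2 - 64 * c) F) ((-2 * a : ℤ) : F)
      ((a ^ 2 - 64 * c : ℤ) : F)} [IsTotallyReal F] {b : F} (hb : b ≠ 0) {r : ℤ}
    (hr : 0 < r) (hroot : r ^ 2 - a * r + 16 * c = 0) (v : InfinitePlace F) :
    LocTriv _ v.Completion (fb hT b) := by
  have hv : v.IsReal := IsTotallyReal.isReal v
  let θ := InfinitePlace.Completion.ringEquivRealOfIsReal hv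
  have := charZero_inf v
  obtain ⟨t, ht⟩ : ∃ t : ℝ, t = θ (algebraMap F v.Completion b) := ⟨_, rfl⟩
  have ht0 : t ≠ 0 := by
    rw [ht]
    exact (map_ne_zero θ).2 ((map_ne_zero _).2 hb)
  rcases lt_or_gt_of_ne ht0 with h | h
  · have h1 : 0 < -(r : ℝ) / t := by
      apply div_pos_of_neg_of_neg _ h
      have : (0 : ℝ) < r := by exact_mod_cast hr
      linarith
    have h2 : θ.symm (Real.sqrt (-(r : ℝ) / t)) ^ 2 * algebraMap F v.Completion b = -(r : _) := by
      apply θ.injective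
      rw [map_mul, map_pow, RingEquiv.apply_symm_apply, Real.sq_sqrt h1.le, ← ht, map_neg,
        map_intCast]
      exact div_mul_cancel₀ _ ht0
    refine loc_pt' (s := θ.symm (Real.sqrt (-(r : ℝ) / t))) (Y := 0) hb ?_ ?_
    · rw [Ne, map_eq_zero]
      exact (Real.sqrt_pos.2 h1).ne'
    · have h3 : algebraMap F v.Completion b * θ.symm (Real.sqrt (-(r : ℝ) / t)) ^ 2 =
          -(r : v.Completion) := by rw [mul_comm]; exact h2
      have h4 : (r : v.Completion) ^ 2 - a * r + 16 * c = 0 := by exact_mod_cast hroot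
      rw [h3]
      linear_combination (r : v.Completion) * h4
  · refine fb_loc_sq hT (z := θ.symm (Real.sqrt t)) ?_
    apply θ.injective
    rw [map_pow, RingEquiv.apply_symm_apply, Real.sq_sqrt h.le, ht]

/-- the places over two -/
lemma loc_two {hT : IsT (gc (-2 * a) (a ^ 2 - 64 * c) F) ((-2 * a : ℤ) : F)
      ((a ^ 2 - 64 * c : ℤ) : F)} (ha : a % 4 = 1) (u : (𝓞 F)ˣ)
    {v : HeightOneSpectrum (𝓞 F)} (h2 : (2 : 𝓞 F) ∈ v.asIdeal) :
    LocTriv _ (v.adicCompletion F) (fb hT ((u : 𝓞 F) : F)) := by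
  have hcz := charZero_adic v
  have hvp := v.isPrime
  have hmax : v.asIdeal.IsMaximal := v.isMaximal
  let _ : Field (𝓞 F ⧸ v.asIdeal) := Ideal.Quotient.field v.asIdeal
  have hfin : Finite (𝓞 F ⧸ v.asIdeal) := Ideal.finiteQuotientOfFreeOfNeBot v.asIdeal v.ne_bot
  have hchar : CharP (𝓞 F ⧸ v.asIdeal) 2 := by
    apply CharTwo.of_one_ne_zero_of_two_eq_zero one_ne_zero
    have := (Ideal.Quotient.eq_zero_iff_mem (I := v.asIdeal)).2 h2
    rwa [map_ofNat] at this
  have hu0 : ((u : 𝓞 F) : F) ≠ 0 := by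
    have := u.ne_zero
    exact_mod_cast this
  -- a square root modulo `v`
  obtain ⟨z', hz'⟩ : IsSquare ((Ideal.Quotient.mk v.asIdeal) (u : 𝓞 F)) :=
    FiniteField.isSquare_of_char_two (CharP.ringChar_of_prime_eq_zero Nat.prime_two (by
      have := CharP.cast_eq_zero (𝓞 F ⧸ v.asIdeal) 2
      exact_mod_cast this)) _
  obtain ⟨z, rfl⟩ := Ideal.Quotient.mk_surjective z'
  have h5 : (u : 𝓞 F) - z ^ 2 ∈ v.asIdeal := by
    rw [← Ideal.Quotient.eq_zero_iff_mem, map_sub, hz', map_pow]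
    ring
  have hunit : ∀ x : 𝓞 F, x ∉ v.asIdeal → vv v (algebraMap F _ (x : F)) = 1 := by
    intro x hx
    rw [vv_coe]
    exact (HeightOneSpectrum.valuation_eq_one_iff_notMem v).2 hx
  have huv : (u : 𝓞 F) ∉ v.asIdeal := fun h =>
    hvp.ne_top (Ideal.eq_top_of_isUnit_mem _ h u.isUnit)
  have hzv : z ∉ v.asIdeal := by
    intro hz
    apply huv
    have e : (u : 𝓞 F) = ((u : 𝓞 F) - z ^ 2) + z * z := by ring
    rw [e]
    exact add_mem h5 (v.asIdeal.mul_mem_right _ hz)
  obtain ⟨k, hk⟩ : ∃ k : ℤ, a = 1 + 4 * k := ⟨a / 4, by omega⟩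
  obtain ⟨β, hβ⟩ : ∃ β : v.adicCompletion F, β = algebraMap F _ ((u : 𝓞 F) : F) := ⟨_, rfl⟩
  have hβ1 : vv v β = 1 := by rw [hβ]; exact hunit _ huv
  have hβ0 : β ≠ 0 := by
    rintro h
    rw [h, map_zero] at hβ1
    exact zero_ne_one hβ1
  have hint : ∀ n : ℤ, vv v (n : v.adicCompletion F) ≤ 1 := by
    intro n
    have h7 : (n : v.adicCompletion F) = algebraMap F _ ((n : ℤ) : F) := by rw [map_intCast]
    rw [h7, vv_coe]
    exact val_int_le v n
  obtain ⟨w, hw⟩ := hensel2 v (z := algebraMap F _ (z : F)) (k := (k : v.adicCompletion F))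
    (g := (c : v.adicCompletion F) / β) (β := β) (hunit z hzv) (hint k)
    (by rw [map_div₀, hβ1, div_one]; exact hint c) (by
      have h8 : v.valuation F ((((u : 𝓞 F) - z ^ 2 : 𝓞 F)) : F) < 1 :=
        (HeightOneSpectrum.valuation_lt_one_iff_mem v ((u : 𝓞 F) - z ^ 2)).2 h5
      have h9 : β - (algebraMap F (v.adicCompletion F) (z : F)) ^ 2 =
          algebraMap F _ ((((u : 𝓞 F) - z ^ 2 : 𝓞 F)) : F) := by
        rw [hβ, cast_iv, cast_iv, cast_iv, map_sub, map_pow]
      rw [h9, vv_coe]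
      exact h8)
  by_cases hw0 : w = 0
  · refine fb_loc_sq hT (z := algebraMap F _ (z : F)) ?_
    rw [← hβ, ← hw, hw0]
    ring
  · obtain ⟨ζ, hζ⟩ : ∃ ζ : v.adicCompletion F, ζ = algebraMap F _ (z : F) := ⟨_, rfl⟩
    rw [← hζ] at hw
    refine loc_pt' (s := 2 / w) (Y := 4 * β * (w + 2 * ζ) / w ^ 3) hu0
      (div_ne_zero two_ne_zero hw0) ?_
    rw [← hβ]
    have hka : (a : v.adicCompletion F) = 1 + 4 * (k : v.adicCompletion F) := by
      rw [hk]; push_cast; ring
    have hw' : β * (ζ ^ 2 + ζ * w - k * w ^ 2) - c * w ^ 4 = β * β := by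
      have h10 : (c : v.adicCompletion F) / β * β = c := div_mul_cancel₀ _ hβ0
      linear_combination β * hw + w ^ 4 * h10
    clear hw
    rw [hka]
    field_simp
    linear_combination 64 * hw'

/-- a place of good reduction which is not over two -/
lemma loc_good {hT : IsT (gc (-2 * a) (a ^ 2 - 64 * c) F) ((-2 * a : ℤ) : F)
      ((a ^ 2 - 64 * c : ℤ) : F)} {r₁ r₂ : ℤ} (hr1 : r₁ + r₂ = -a) (hr2 : r₁ * r₂ = 16 * c)
    (u : (𝓞 F)ˣ) {v : HeightOneSpectrum (𝓞 F)} (h2 : (2 : 𝓞 F) ∉ v.asIdeal)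
    (h3 : (r₁ : 𝓞 F) ∉ v.asIdeal) (h4 : (r₂ : 𝓞 F) ∉ v.asIdeal)
    (h5 : ((r₁ - r₂ : ℤ) : 𝓞 F) ∉ v.asIdeal) :
    LocTriv _ (v.adicCompletion F) (fb hT ((u : 𝓞 F) : F)) := by
  have hcz := charZero_adic v
  have hvp := v.isPrime
  have hmax : v.asIdeal.IsMaximal := v.isMaximal
  let _ : Field (𝓞 F ⧸ v.asIdeal) := Ideal.Quotient.field v.asIdeal
  have hfin : Finite (𝓞 F ⧸ v.asIdeal) := Ideal.finiteQuotientOfFreeOfNeBot v.asIdeal v.ne_bot
  have hu0 : ((u : 𝓞 F) : F) ≠ 0 := by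
    have := u.ne_zero
    exact_mod_cast this
  have huv : (u : 𝓞 F) ∉ v.asIdeal := fun h =>
    hvp.ne_top (Ideal.eq_top_of_isUnit_mem _ h u.isUnit)
  set π := Ideal.Quotient.mk v.asIdeal with hπ
  have hne : ∀ x : 𝓞 F, x ∉ v.asIdeal → π x ≠ 0 := fun x hx h =>
    hx (Ideal.Quotient.eq_zero_iff_mem.1 h)
  have h20 : (2 : 𝓞 F ⧸ v.asIdeal) ≠ 0 := by
    have := hne 2 h2
    rwa [map_ofNat] at this
  -- squares modulo `v` are squares
  have hsq : ∀ x : 𝓞 F, x ∉ v.asIdeal → IsSquare (π x) →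
      ∃ t : v.adicCompletion F, t ^ 2 = algebraMap F _ (x : F) := by
    rintro x hx ⟨y', hy'⟩
    obtain ⟨y, rfl⟩ := Ideal.Quotient.mk_surjective y'
    have h6 : x - y ^ 2 ∈ v.asIdeal := by
      rw [← Ideal.Quotient.eq_zero_iff_mem, map_sub, map_pow]
      change π x - _ = 0
      rw [hy']
      ring
    refine sq_of_res v h2 (fun hy => ?_) h6
    apply hx
    have e : x = (x - y ^ 2) + y * y := by ring
    rw [e]
    exact add_mem h6 (v.asIdeal.mul_mem_right _ hy)
  by_cases hus : IsSquare (π (u : 𝓞 F))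
  · obtain ⟨t, ht⟩ := hsq _ huv hus
    exact fb_loc_sq hT ht
  · -- a suitable abscissa
    have hX : ∃ X : 𝓞 F, X ∉ v.asIdeal ∧ ¬ IsSquare (π X) ∧
        ∃ y : v.adicCompletion F, y ^ 2 = algebraMap F _ ((X * ((X - r₁) * (X - r₂)) : 𝓞 F) : F) := by
      obtain ⟨x', hx', hx2⟩ := exists_nonsq h20 (e₁ := π r₁) (e₂ := π r₂) (by
        intro h
        apply hne _ h5
        push_cast
        rw [map_sub, h, sub_self]) (hne _ h3) (hne _ h4)
      obtain ⟨X, rfl⟩ := Ideal.Quotient.mk_surjective x'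
      rcases hx2 with hx2 | hx2
      · -- one of the roots
        rcases mul_eq_zero.1 hx2 with h7 | h7
        · rw [sub_eq_zero] at h7
          refine ⟨r₁, h3, ?_, 0, ?_⟩
          · rw [← h7]; exact hx'
          · rw [sub_self, zero_mul, mul_zero, cast_iv, map_zero]
            ring
        · rw [sub_eq_zero] at h7
          refine ⟨r₂, h4, ?_, 0, ?_⟩
          · rw [← h7]; exact hx'
          · rw [sub_self, mul_zero, mul_zero, cast_iv, map_zero]
            ring
      · have hXv : X ∉ v.asIdeal := by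
          intro h
          apply hx'
          rw [Ideal.Quotient.eq_zero_iff_mem.2 h]
          exact IsSquare.zero
        have hg : π ((X - r₁) * (X - r₂)) = (π X - π r₁) * (π X - π r₂) := by
          rw [map_mul, map_sub, map_sub]
        have h8 : IsSquare (π (X * ((X - r₁) * (X - r₂)))) := by
          rw [map_mul, hg]
          exact nonsq_mul h20 hx' hx2
        have h9 : X * ((X - r₁) * (X - r₂)) ∉ v.asIdeal := by
          intro h
          rcases hvp.mem_or_mem h with h | h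
          · exact hXv h
          · apply hx2
            change IsSquare ((π X - π r₁) * (π X - π r₂))
            rw [← hg, Ideal.Quotient.eq_zero_iff_mem.2 h]
            exact IsSquare.zero
        obtain ⟨y, hy⟩ := hsq _ h9 h8
        exact ⟨X, hXv, hx', y, hy⟩
    obtain ⟨X, hXv, hXs, y, hy⟩ := hX
    have h10 : (u : 𝓞 F) * X ∉ v.asIdeal := by
      intro h
      rcases hvp.mem_or_mem h with h | h
      · exact huv h
      · exact hXv h
    obtain ⟨t, ht⟩ := hsq _ h10 (by rw [map_mul]; exact nonsq_mul h20 hus hXs)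
    obtain ⟨β, hβ⟩ : ∃ β : v.adicCompletion F, β = algebraMap F _ ((u : 𝓞 F) : F) := ⟨_, rfl⟩
    obtain ⟨ξ, hξ⟩ : ∃ ξ : v.adicCompletion F, ξ = algebraMap F _ (X : F) := ⟨_, rfl⟩
    have hβ0 : β ≠ 0 := by rw [hβ]; exact (map_ne_zero _).2 hu0
    have hX0 : (X : F) ≠ 0 := by
      have : X ≠ 0 := by rintro rfl; exact hXv v.asIdeal.zero_mem
      exact_mod_cast this
    have hξ0 : ξ ≠ 0 := by rw [hξ]; exact (map_ne_zero _).2 hX0
    have ht' : t ^ 2 = β * ξ := by
      rw [ht, hβ, hξ, cast_iv, cast_iv, cast_iv, map_mul]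
    have ht0 : t ≠ 0 := by
      rintro rfl
      rw [zero_pow two_ne_zero] at ht'
      exact mul_ne_zero hβ0 hξ0 ht'.symm
    have hy' : y ^ 2 = ξ * ((ξ - r₁) * (ξ - r₂)) := by
      rw [hy, hξ, cast_iv, cast_iv, map_mul, map_mul, map_sub, map_sub, map_intCast, map_intCast]
    refine loc_pt' (s := t / β) (Y := y) hu0 (div_ne_zero ht0 hβ0) ?_
    have h11 : algebraMap F (v.adicCompletion F) ((u : 𝓞 F) : F) * (t / β) ^ 2 = ξ := by
      rw [← hβ, div_pow, ht']
      field_simp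
    have e1 : (a : v.adicCompletion F) = -((r₁ : v.adicCompletion F) + r₂) := by
      have : a = -(r₁ + r₂) := by linarith
      rw [this]; push_cast; ring
    have e2 : 16 * (c : v.adicCompletion F) = (r₁ : v.adicCompletion F) * r₂ := by
      exact_mod_cast hr2.symm
    rw [h11, hy', e1, e2]
    ring

variable [FiniteDimensional ℚ F]

/-- a place which is the only one over an odd prime -/
lemma loc_un {hT : IsT (gc (-2 * a) (a ^ 2 - 64 * c) F) ((-2 * a : ℤ) : F)
      ((a ^ 2 - 64 * c : ℤ) : F)} (hodd : Odd (Module.finrank ℚ F)) (u : (𝓞 F)ˣ)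
    (hu : Algebra.norm ℚ ((u : 𝓞 F) : F) = 1)
    {v : HeightOneSpectrum (𝓞 F)} (h2 : (2 : 𝓞 F) ∉ v.asIdeal) (hv : Un v) :
    LocTriv _ (v.adicCompletion F) (fb hT ((u : 𝓞 F) : F)) := by
  obtain ⟨p, hp, hpv, huniq⟩ := hv
  have : Fact p.Prime := ⟨hp⟩
  have hp2 : p ≠ 2 := by
    rintro rfl
    exact h2 (by exact_mod_cast hpv)
  obtain ⟨z, hz, hz2⟩ := unit_sq hpv huniq hp2 hodd u hu
  obtain ⟨t, ht⟩ := sq_of_res v h2 hz hz2
  exact fb_loc_sq hT ht

end loc

end Pool.Agent.R432
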