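import Mathlib

/-!
# The ring of integers of the fraction field of the Gaussian integers
-/

set_option autoImplicit false

open NumberField

namespace Pool.Agent.R432.Q

lemma zi_int : Algebra.IsIntegral ℤ GaussianInt := by
  refine ⟨fun a => ⟨Polynomial.X ^ 2 - Polynomial.C (2 * a.re) * Polynomial.X +
    Polynomial.C a.norm, ?_, ?_⟩⟩
  · monicity!
  · rw [Polynomial.eval₂_add, Polynomial.eval₂_sub, Polynomial.eval₂_mul,
      Polynomial.eval₂_pow, Polynomial.eval₂_X, Polynomial.eval₂_C, Polynomial.eval₂_C,
      algebraMap_int_eq, eq_intCast, eq_intCast]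
    have h1 : ((2 * a.re : ℤ) : GaussianInt) = a + star a := by
      apply Zsqrtd.ext <;> simp [two_mul]
    have h2 : ((a.norm : ℤ) : GaussianInt) = a * star a := Zsqrtd.norm_eq_mul_conj a
    rw [h1, h2]
    ring

theorem exists_e0 (k : Type) [Field k] [NumberField k] [Algebra GaussianInt k]
    [IsFractionRing GaussianInt k] :
    ∃ e : GaussianInt ≃+* 𝓞 k, ∀ a, algebraMap (𝓞 k) k (e a) = algebraMap GaussianInt k a := by
  have := zi_int
  have h1 : IsScalarTower ℤ GaussianInt k := by
    refine IsScalarTower.of_algebraMap_eq' ?_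
    exact Subsingleton.elim _ _
  refine ⟨(IsIntegralClosure.equiv ℤ GaussianInt k (𝓞 k)).toRingEquiv, fun a => ?_⟩
  exact IsIntegralClosure.algebraMap_equiv ℤ GaussianInt k (𝓞 k) a

section

variable {k : Type} [Field k] [Algebra GaussianInt k] [IsFractionRing GaussianInt k]

theorem k_charZero : CharZero k :=
  charZero_of_injective_algebraMap (IsFractionRing.injective GaussianInt k)

theorem k_num : NumberField k := by
  have := k_charZero (k := k)
  refine { to_charZero := inferInstance, to_finiteDimensional := ?_ }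
  let f : (Fin 2 → ℚ) →ₗ[ℚ] k :=
    { toFun := fun v => (v 0 : k) + (v 1 : k) * algebraMap GaussianInt k ⟨0, 1⟩
      map_add' := by
        intro v w
        simp only [Pi.add_apply]
        push_cast
        ring
      map_smul' := by
        intro c v
        simp only [Pi.smul_apply, smul_eq_mul, Algebra.smul_def, eq_ratCast]
        push_cast
        ring }
  refine Module.Finite.of_surjective f fun z => ?_
  obtain ⟨a, b, hb, rfl⟩ := IsFractionRing.div_surjective GaussianInt z
  have hb0 : b ≠ 0 := nonZeroDivisors.ne_zero hb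
  have hn0 : b.norm ≠ 0 := fun h => hb0 (GaussianInt.norm_eq_zero.1 h)
  have hn0k : ((b.norm : ℤ) : k) ≠ 0 := Int.cast_ne_zero.2 hn0
  have hbk : algebraMap GaussianInt k b ≠ 0 := fun h => hb0 (IsFractionRing.injective GaussianInt k (by
    rw [h, map_zero]))
  refine ⟨![((a * star b).re : ℚ) / b.norm, ((a * star b).im : ℚ) / b.norm], ?_⟩
  change (((![((a * star b).re : ℚ) / b.norm, ((a * star b).im : ℚ) / b.norm] : Fin 2 → ℚ) 0 : ℚ) : k)
    + (((![((a * star b).re : ℚ) / b.norm, ((a * star b).im : ℚ) / b.norm] : Fin 2 → ℚ) 1 : ℚ) : k)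
      * algebraMap GaussianInt k ⟨0, 1⟩ = _
  simp only [Matrix.cons_val_zero, Matrix.cons_val_one]
  push_cast
  have h1 : a * star b = (((a * star b).re : ℤ) : GaussianInt) + (((a * star b).im : ℤ) : GaussianInt) * ⟨0, 1⟩ := by
    ext <;> simp
  have h2 := congrArg (algebraMap GaussianInt k) h1
  rw [map_add, map_mul, map_mul, map_intCast, map_intCast] at h2
  have h3 : ((b.norm : ℤ) : k) = algebraMap GaussianInt k b * algebraMap GaussianInt k (star b) := by
    rw [← map_mul, ← Zsqrtd.norm_eq_mul_conj, map_intCast]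
  have hsb : algebraMap GaussianInt k (star b) ≠ 0 := by
    intro h
    rw [h, mul_zero] at h3
    exact hn0k h3
  rw [div_add' _ _ _ hn0k, div_eq_div_iff hn0k hbk]
  rw [show ((a * star b).re : k) + ((a * star b).im : k) / (b.norm : k) * algebraMap GaussianInt k ⟨0, 1⟩ *
    (b.norm : k) = ((a * star b).re : k) + ((a * star b).im : k) * algebraMap GaussianInt k ⟨0, 1⟩ by
      field_simp, ← h2, h3]
  ring

end

end Pool.Agent.R432.Q
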