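import Mathlib
import Pool.Agent.Y715.Z.Sel
import Pool.Agent.Y715.QT.Stm2

/-!
# The 2-primary part of Sha of `y² = x³ + D x` over `ℚ(i)` for arbitrary exponents
-/

set_option autoImplicit false
set_option linter.unusedSectionVars false

open NumberField IsDedekindDomain

namespace Pool.Agent.R432.Q

open Pool.Agent.Y682 (S1 S2 vv vv_coe IsT Zc Zc_card Zc_lower LL1 LL2 Sq quot_eq)
open Pool.Agent.Y699
open Pool.Agent.Y715.Z
open Pool.Agent.Y715.QT (GE PE)
open H385 (ZI RQ im1 nrm)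
open Pool.Agent.W164.RC (two2 prim_iff_dvd unit_norm unit_cases)

section

variable {L : Type} [Field L] (w : Valuation L (WithZero (Multiplicative ℤ)))

/-- the local image if `w D` is not the square of `w m` -/
lemma cls2 (hens : ∀ t : L, w t < 1 → ∃ y : L, y ^ 2 = 1 + t) {D m : L} (hD0 : D ≠ 0)
    (hne2 : w m ^ 2 ≠ w D) (h : S1 0 D m) :
    ∃ c : L, c ≠ 0 ∧ (m = c ^ 2 ∨ m = D * c ^ 2) := by
  rcases h with h | h | ⟨hm, y, hy⟩
  · exact ⟨1, one_ne_zero, Or.inl (by rw [h, one_pow])⟩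
  · exact ⟨1, one_ne_zero, Or.inr (by rw [h, one_pow, mul_one])⟩
  · have hwm : w m ≠ 0 := (Valuation.ne_zero_iff _).2 hm
    have hwD : w D ≠ 0 := (Valuation.ne_zero_iff _).2 hD0
    rw [zero_mul, add_zero] at hy
    rcases lt_or_gt_of_ne hne2 with h1 | h1
    · have ht : w (m ^ 2 / D) < 1 := by
        rw [map_div₀, map_pow, div_lt_iff₀ (zero_lt_iff.2 hwD), one_mul]
        exact h1
      obtain ⟨r, hr⟩ := hens _ ht
      have hr0 : r ≠ 0 := by
        rintro rfl
        have h2 : m ^ 2 / D = -1 := by linear_combination -hr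
        rw [h2, Valuation.map_neg, map_one] at ht
        exact lt_irrefl _ ht
      have h2 : D * r ^ 2 = m ^ 2 + D := by
        rw [hr]
        field_simp
        ring
      rw [← h2] at hy
      have hDr : D * r ≠ 0 := mul_ne_zero hD0 hr0
      have hy0 : y ≠ 0 := by
        rintro rfl
        rw [zero_pow two_ne_zero] at hy
        exact mul_ne_zero hm (mul_ne_zero hD0 (pow_ne_zero 2 hr0)) hy.symm
      refine ⟨y / (D * r), div_ne_zero hy0 hDr, Or.inr ?_⟩
      rw [div_pow, hy]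
      field_simp
    · have ht : w (D / m ^ 2) < 1 := by
        rw [map_div₀, map_pow]
        rw [div_lt_iff₀ (pow_pos (zero_lt_iff.2 hwm) 2), one_mul]
        exact h1
      obtain ⟨r, hr⟩ := hens _ ht
      have hr0 : r ≠ 0 := by
        rintro rfl
        have h2 : D / m ^ 2 = -1 := by linear_combination -hr
        rw [h2, Valuation.map_neg, map_one] at ht
        exact lt_irrefl _ ht
      have h2 : (m * r) ^ 2 = m ^ 2 + D := by
        rw [mul_pow, hr]
        field_simp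
      rw [← h2] at hy
      have hmr : m * r ≠ 0 := mul_ne_zero hm hr0
      have hy0 : y ≠ 0 := by
        rintro rfl
        rw [zero_pow two_ne_zero] at hy
        exact mul_ne_zero hm (pow_ne_zero 2 hmr) hy.symm
      refine ⟨y / (m * r), div_ne_zero hy0 hmr, Or.inl ?_⟩
      rw [div_pow, hy]
      field_simp

end

section

variable {K : Type} [Field K] [NumberField K] (e : ZI ≃+* 𝓞 K)

variable {z : ZI} (hz : Prime z)

/-- the local condition at a prime dividing `D` to an odd power -/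
lemma loc_odd (hP : PP z) {D D₁ g d d' D' : ZI} (h2 : ¬ z ∣ 2) (hDsq : Squarefree D₁)
    (hzD : z ∣ D₁) (hg0 : g ≠ 0) (hDD : D = D₁ * g ^ 2)
    {b w : K} (hw : w ≠ 0) (hb : b = em0 e d * w ^ 2)
    (h : ∃ y m : (plc e hz).adicCompletion K, y ≠ 0 ∧ ph e hz b * y ^ 2 = m ∧
      S1 0 (ph e hz (em0 e D)) m) :
    (¬ z ∣ d → qr z d = 1) ∧
      (Squarefree d → z ∣ d → d * d' = D₁ * D' ^ 2 → ¬ z ∣ d' → qr z d' = 1) := by
  obtain ⟨y, m, hy, hym, hm⟩ := h
  have hD10 : D₁ ≠ 0 := hDsq.ne_zero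
  have hD0 : D ≠ 0 := by rw [hDD]; exact mul_ne_zero hD10 (pow_ne_zero 2 hg0)
  have h2' : (plc e hz).valuation K 2 = 1 := by
    have := val_one e hz h2
    rwa [map_ofNat] at this
  have hwD : vv (plc e hz) (ph e hz (em0 e D₁)) = WithZero.exp (-1 : ℤ) := by
    rw [vv_coe, val_sqf e hz hDsq hzD]
  have hphD1 : ph e hz (em0 e D₁) ≠ 0 := (map_ne_zero _).2 (em0_ne e hD10)
  have hphD : ph e hz (em0 e D) ≠ 0 := (map_ne_zero _).2 (em0_ne e hD0)
  have hphg : ph e hz (em0 e g) ≠ 0 := (map_ne_zero _).2 (em0_ne e hg0)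
  have hDe : ph e hz (em0 e D) = ph e hz (em0 e D₁) * ph e hz (em0 e g) ^ 2 := by
    rw [hDD, map_mul, map_mul, map_pow, map_pow]
  have hvg : vv (plc e hz) (ph e hz (em0 e g)) ≠ 0 := (Valuation.ne_zero_iff _).2 hphg
  obtain ⟨c, hc, hmc⟩ : ∃ c : (plc e hz).adicCompletion K, c ≠ 0 ∧
      (m = c ^ 2 ∨ m = ph e hz (em0 e D₁) * c ^ 2) := by
    obtain ⟨c, hc, hmc⟩ := cls2 (vv (plc e hz)) (fun t ht => hens_odd (plc e hz) h2' t ht)
      hphD (by
        intro h3
        rw [hDe, map_mul, hwD, map_pow] at h3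
        apply exp_sq (g := vv (plc e hz) m / vv (plc e hz) (ph e hz (em0 e g)))
        rw [div_pow, h3]
        field_simp) hm
    rcases hmc with hmc | hmc
    · exact ⟨c, hc, Or.inl hmc⟩
    · refine ⟨ph e hz (em0 e g) * c, mul_ne_zero hphg hc, Or.inr ?_⟩
      rw [hmc, hDe]
      ring
  have hpw : ph e hz w ≠ 0 := (map_ne_zero _).2 hw
  have hvy : vv (plc e hz) y ≠ 0 := (Valuation.ne_zero_iff _).2 hy
  have hvc : vv (plc e hz) c ≠ 0 := (Valuation.ne_zero_iff _).2 hc
  have hvw : vv (plc e hz) (ph e hz w) ≠ 0 := (Valuation.ne_zero_iff _).2 hpw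
  have hm2 : ph e hz (em0 e d) * (ph e hz w * y) ^ 2 = m := by
    rw [← hym, hb, map_mul, map_pow]; ring
  constructor
  · intro hzd
    rcases hmc with h1 | h1
    · apply qr_of_sqrt e hz hP hzd (x := c / (ph e hz w * y))
      rw [div_pow, ← h1, ← hm2]
      field_simp
    · exfalso
      have h3 := congrArg (vv (plc e hz)) (hm2.trans h1)
      rw [map_mul, map_mul, vv_coe, val_one e hz hzd, one_mul, map_pow, map_pow, map_mul, hwD] at h3
      apply exp_sq (g := vv (plc e hz) (ph e hz w) * vv (plc e hz) y / vv (plc e hz) c)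
      rw [div_pow, h3]
      field_simp
  · intro hd hzd hdd hzd'
    rcases hmc with h1 | h1
    · exfalso
      have h3 := congrArg (vv (plc e hz)) (hm2.trans h1)
      rw [map_mul, vv_coe, val_sqf e hz hd hzd, map_pow, map_pow, map_mul] at h3
      apply exp_sq (g := vv (plc e hz) c / (vv (plc e hz) (ph e hz w) * vv (plc e hz) y))
      rw [div_pow, ← h3]
      field_simp
    · have hpd : ph e hz (em0 e d) ≠ 0 := (map_ne_zero _).2 (em0_ne e hd.ne_zero)
      apply qr_of_sqrt e hz hP hzd'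
        (x := ph e hz (em0 e D') * (ph e hz w * y) / c)
      have h4 : ph e hz (em0 e d) * ph e hz (em0 e d') =
          ph e hz (em0 e D₁) * ph e hz (em0 e D') ^ 2 := by
        rw [← map_mul, ← map_mul, hdd, map_mul, map_mul, map_pow, map_pow]
      have h5 : ph e hz (em0 e d) * (ph e hz w * y) ^ 2 = ph e hz (em0 e D₁) * c ^ 2 := hm2.trans h1
      rw [div_pow, mul_pow]
      rw [div_eq_iff (pow_ne_zero 2 hc)]
      apply mul_left_cancel₀ (mul_ne_zero hphD1 hpd)
      linear_combination (ph e hz (em0 e D₁) * ph e hz (em0 e D') ^ 2) * h5 -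
        (ph e hz (em0 e D₁) * c ^ 2) * h4

/-- the local condition at a prime dividing `D` exactly twice -/
lemma loc_two (hP : PP z) {D D' d : ZI} (h2 : ¬ z ∣ 2) (hDD : D = z ^ 2 * D') (hzD' : ¬ z ∣ D')
    (hq : qr z D' ≠ 1) (hd : Squarefree d) {b w : K} (hw : w ≠ 0) (hb : b = em0 e d * w ^ 2)
    (h : ∃ y m : (plc e hz).adicCompletion K, y ≠ 0 ∧ ph e hz b * y ^ 2 = m ∧
      S1 0 (ph e hz (em0 e D)) m) : ¬ z ∣ d := by
  intro hzd
  obtain ⟨y, m, hy, hym, hm⟩ := h
  have hz0 : z ≠ 0 := hz.ne_zero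
  have hD'0 : D' ≠ 0 := by rintro rfl; exact hzD' (dvd_zero z)
  have hD0 : D ≠ 0 := by rw [hDD]; exact mul_ne_zero (pow_ne_zero 2 hz0) hD'0
  have h2' : (plc e hz).valuation K 2 = 1 := by
    have := val_one e hz h2
    rwa [map_ofNat] at this
  have hphz : ph e hz (em0 e z) ≠ 0 := (map_ne_zero _).2 (em0_ne e hz0)
  have hphD' : ph e hz (em0 e D') ≠ 0 := (map_ne_zero _).2 (em0_ne e hD'0)
  have hwz : vv (plc e hz) (ph e hz (em0 e z)) = WithZero.exp (-1 : ℤ) := by
    rw [vv_coe, val_z e hz]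
  have hwD' : vv (plc e hz) (ph e hz (em0 e D')) = 1 := by
    rw [vv_coe, val_one e hz hzD']
  have hDe : ph e hz (em0 e D) = ph e hz (em0 e z) ^ 2 * ph e hz (em0 e D') := by
    rw [hDD, map_mul, map_mul, map_pow, map_pow]
  have hwD : vv (plc e hz) (ph e hz (em0 e D)) = (WithZero.exp (-1 : ℤ)) ^ 2 := by
    rw [hDe, map_mul, map_pow, hwz, hwD', mul_one]
  have hvy : vv (plc e hz) y ≠ 0 := (Valuation.ne_zero_iff _).2 hy
  have hvw : (plc e hz).valuation K w ≠ 0 := (Valuation.ne_zero_iff _).2 hw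
  -- the value of `m` is not a square
  have hns : ∀ g, vv (plc e hz) m ≠ g ^ 2 := by
    intro g hg
    rw [← hym, map_mul, vv_coe, map_pow, hb, map_mul, val_sqf e hz hd hzd, map_pow] at hg
    apply exp_sq (g := g / ((plc e hz).valuation K w * vv (plc e hz) y))
    rw [div_pow, ← hg, mul_pow]
    field_simp
  have hexp0 : (WithZero.exp (-1 : ℤ)) ≠ 0 := WithZero.exp_ne_zero
  rcases hm with hm | hm | ⟨hm, r, hr⟩
  · exact hns 1 (by rw [hm, map_one, one_pow])
  · exact hns _ (by rw [hm, hwD])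
  · have hwm : vv (plc e hz) m ≠ 0 := (Valuation.ne_zero_iff _).2 hm
    rw [zero_mul, add_zero] at hr
    have e1 := congrArg (vv (plc e hz)) hr
    rw [map_pow, map_mul] at e1
    rcases lt_trichotomy (vv (plc e hz) m) (WithZero.exp (-1 : ℤ)) with h1 | h1 | h1
    · have h3 : vv (plc e hz) (m ^ 2 + ph e hz (em0 e D)) = (WithZero.exp (-1 : ℤ)) ^ 2 := by
        rw [Valuation.map_add_eq_of_lt_right, hwD]
        rw [hwD, map_pow]
        exact pow_lt_pow_left₀ h1 zero_le two_ne_zero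
      refine hns (vv (plc e hz) r / WithZero.exp (-1 : ℤ)) ?_
      rw [h3] at e1
      rw [div_pow, e1]
      field_simp
    · -- the middle case
      obtain ⟨m', hm'⟩ : ∃ m', m = ph e hz (em0 e z) * m' := ⟨m / ph e hz (em0 e z), by
        field_simp⟩
      have hwm' : vv (plc e hz) m' = 1 := by
        rw [hm', map_mul, hwz] at h1
        have h4 : WithZero.exp (-1 : ℤ) * vv (plc e hz) m' = WithZero.exp (-1 : ℤ) * 1 := by
          rw [h1, mul_one]
        exact mul_left_cancel₀ hexp0 h4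
      have h3 : m ^ 2 + ph e hz (em0 e D) =
          ph e hz (em0 e z) ^ 2 * (m' ^ 2 + ph e hz (em0 e D')) := by
        rw [hm', hDe]; ring
      have h4 : vv (plc e hz) (m' ^ 2 + ph e hz (em0 e D')) ≤ 1 := by
        refine (Valuation.map_add _ _ _).trans (max_le ?_ hwD'.le)
        rw [map_pow, hwm', one_pow]
      rcases lt_or_eq_of_le h4 with h5 | h5
      · apply hq
        have him : (ph e hz (em0 e im1)) ^ 2 = -1 := by
          rw [← map_pow, Pool.Agent.Y715.Z.im1_sq, map_neg, map_one]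
        have hi0 : ph e hz (em0 e im1) ≠ 0 := by
          intro h0
          rw [h0, zero_pow two_ne_zero] at him
          have : (1 : (plc e hz).adicCompletion K) = 0 := by linear_combination him
          exact one_ne_zero this
        have hm'0 : m' ≠ 0 := by
          rintro rfl
          rw [map_zero] at hwm'
          exact zero_ne_one hwm'
        have ht : vv (plc e hz)
            (-((m' ^ 2 + ph e hz (em0 e D')) / m' ^ 2)) < 1 := by
          rw [Valuation.map_neg, map_div₀, map_pow, hwm', one_pow, div_one]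
          exact h5
        obtain ⟨s, hs⟩ := hens_odd (plc e hz) h2' _ ht
        apply qr_of_sqrt e hz hP hzD' (x := ph e hz (em0 e im1) * m' * s)
        rw [mul_pow, mul_pow, him, hs]
        field_simp
        ring
      · have h6 := e1
        rw [h3, map_mul, map_pow, hwz, h5, mul_one] at h6
        refine hns (vv (plc e hz) r / WithZero.exp (-1 : ℤ)) ?_
        rw [div_pow, h6]
        field_simp
    · have h3 : vv (plc e hz) (m ^ 2 + ph e hz (em0 e D)) = vv (plc e hz) m ^ 2 := by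
        rw [Valuation.map_add_eq_of_lt_left, map_pow]
        rw [hwD, map_pow]
        exact pow_lt_pow_left₀ h1 zero_le two_ne_zero
      refine hns (vv (plc e hz) r / vv (plc e hz) m) ?_
      rw [h3] at e1
      rw [div_pow, e1]
      field_simp

/-- the 2-torsion of Sha from the Selmer group -/
theorem sha_two_of {D : ZI} (hD : D ≠ 0)
    (hsel : ∀ b : K, b ≠ 0 → (∀ v : HeightOneSpectrum (𝓞 K), ∃ y m : v.adicCompletion K, y ≠ 0 ∧
      algebraMap K (v.adicCompletion K) b * y ^ 2 = m ∧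
        S1 0 (algebraMap K (v.adicCompletion K) (em0 e D)) m) →
      ∃ c : K, b = c ^ 2 ∨ b = em0 e D * c ^ 2)
    {W : WeierstrassCurve K} (hT : IsT W 0 (em0 e D))
    (x : Pool.Agent.TH841.NF.D.Sha W) (hx : 2 • x = 0) : x = 0 := by
  classical
  have hD0 : em0 e D ≠ 0 := em0_ne e hD
  let U : Set (Kˣ ⧸ Sq K) := {(1 : Kˣ ⧸ Sq K), ((Units.mk0 (em0 e D) hD0 : Kˣ) : Kˣ ⧸ Sq K)}
  have hUf : U.Finite := Set.toFinite U
  have hfin : Finite U := hUf.to_subtype
  have hU2 : Nat.card U ≤ 2 := by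
    have h1 : U.ncard ≤ 2 := by
      refine (Set.ncard_insert_le _ _).trans ?_
      rw [Set.ncard_singleton]
    exact h1
  have key : ∀ b : Kˣ, (∃ c : K, (b : K) = c ^ 2 ∨ (b : K) = em0 e D * c ^ 2) →
      (b : Kˣ ⧸ Sq K) ∈ U := by
    rintro b ⟨c, hc⟩
    have hc0 : c ≠ 0 := by
      rintro rfl
      rcases hc with hc | hc
      · rw [zero_pow two_ne_zero] at hc; exact b.ne_zero hc
      · rw [zero_pow two_ne_zero, mul_zero] at hc; exact b.ne_zero hc
    rcases hc with hc | hc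
    · left
      have h1 : (1 : Kˣ ⧸ Sq K) = ((1 : Kˣ) : Kˣ ⧸ Sq K) := rfl
      rw [h1, eq_comm, quot_eq]
      refine ⟨Units.mk0 c hc0, Units.ext ?_⟩
      rw [Units.val_mul, Units.val_one, one_mul, Units.val_pow_eq_pow_val, Units.val_mk0, hc]
    · right
      show (b : Kˣ ⧸ Sq K) = ((Units.mk0 (em0 e D) hD0 : Kˣ) : Kˣ ⧸ Sq K)
      rw [eq_comm, quot_eq]
      refine ⟨Units.mk0 c hc0, Units.ext ?_⟩
      rw [Units.val_mul, Units.val_pow_eq_pow_val, Units.val_mk0, Units.val_mk0, hc]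
  have H1 : ∀ b : Kˣ, LL1 (0 : K) (em0 e D) (b : K) → (b : Kˣ ⧸ Sq K) ∈ U := by
    intro b hb
    apply key
    apply hsel _ b.ne_zero
    intro v
    have := hb.1 v
    rwa [map_zero] at this
  have H2 : ∀ b : Kˣ, LL2 (0 : K) (em0 e D) (b : K) → (b : Kˣ ⧸ Sq K) ∈ U := by
    intro b hb
    apply key
    apply hsel _ b.ne_zero
    intro v
    have := Pool.Agent.Y682.charZero_adic v
    have h1 := hb.1 v
    rw [map_zero] at h1
    refine S2_S1 (i := algebraMap K (v.adicCompletion K) (em0 e im1)) ?_ h1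
    rw [← map_pow, Pool.Agent.Y715.Z.im1_sq, map_neg, map_one]
  obtain ⟨hf, hc⟩ := Zc_card hT (U := U) (V := U) (Or.inl rfl) H1 H2
  obtain ⟨h3, h4⟩ := Zc_lower hT
  have h5 : Nat.card {x : Pool.Agent.TH841.NF.D.Sha W // 2 • x = 0} ≤ 1 := by
    have h6 : Nat.card (Zc W) ≤ 4 := hc.trans (by nlinarith)
    have h7 : 1 ≤ 2 ^ (Module.finrank ℤ (Pool.Agent.Y682.MP W)) := Nat.one_le_two_pow
    have h8 := h4.trans h6
    nlinarith
  have h6 : Subsingleton {x : Pool.Agent.TH841.NF.D.Sha W // 2 • x = 0} :=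
    Finite.card_le_one_iff_subsingleton.1 h5
  have h7 := @Subsingleton.elim _ h6 ⟨x, hx⟩ ⟨0, smul_zero _⟩
  exact congrArg Subtype.val h7

end

section

variable {K : Type} [Field K] [NumberField K] (e : ZI ≃+* 𝓞 K)
variable {ι : Type} [Fintype ι] [DecidableEq ι] {pr : ι → ZI} {V : Finset ι} {ex : ι → ℕ}

lemma PE_ne (hp : PF pr) : PE pr V ex ≠ 0 :=
  Finset.prod_ne_zero_iff.2 fun i _ => pow_ne_zero _ (hp.pp i).ne

/-- the square part -/
noncomputable def gg (pr : ι → ZI) (V : Finset ι) (ex : ι → ℕ) : ZI := ∏ i ∈ V, pr i ^ (ex i / 2)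

lemma gg_ne (hp : PF pr) : gg pr V ex ≠ 0 :=
  Finset.prod_ne_zero_iff.2 fun i _ => pow_ne_zero _ (hp.pp i).ne

lemma PE_eq : PE pr V ex = DD pr (Od V ex) * gg pr V ex ^ 2 := by
  unfold PE DD Od gg
  rw [Finset.prod_filter, ← Finset.prod_pow, ← Finset.prod_mul_distrib]
  refine Finset.prod_congr rfl fun i _ => ?_
  split_ifs with h
  · rw [← pow_mul, ← pow_succ']
    congr 1
    omega
  · rw [one_mul, ← pow_mul]
    congr 1
    omega

lemma DD_sqf (hp : PF pr) (S : Finset ι) : Squarefree (DD pr S) := by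
  unfold DD
  induction S using Finset.induction_on with
  | empty => rw [Finset.prod_empty]; exact squarefree_one
  | insert i S hi ih =>
    rw [Finset.prod_insert hi]
    rw [squarefree_mul_iff]
    refine ⟨IsCoprime.isRelPrime (IsCoprime.prod_right fun j hj => ?_),
      (hp.pp i).pr.irreducible.squarefree, ih⟩
    exact (hp.pp i).cop (hp.pp j) fun h => hi (by rw [hp.inj h]; exact hj)

lemma nd_DD (hp : PF pr) {T : Finset ι} {j : ι} (hT : j ∉ T) : ¬ pr j ∣ DD pr T := by
  intro h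
  unfold DD at h
  obtain ⟨i, hi, hji⟩ := ((hp.pp j).pr.dvd_finsetProd_iff _).1 h
  exact not_dvd_of_ne hp (fun h' => hT (by rw [h']; exact hi)) hji

/-- **the Selmer group for arbitrary exponents** -/
theorem selE (hG : GE pr V ex) {b : K} (hb : b ≠ 0)
    (h : ∀ v : HeightOneSpectrum (𝓞 K), ∃ y m : v.adicCompletion K, y ≠ 0 ∧
      algebraMap K (v.adicCompletion K) b * y ^ 2 = m ∧
        S1 0 (algebraMap K (v.adicCompletion K) (em0 e (PE pr V ex))) m) :
    ∃ c : K, b = c ^ 2 ∨ b = em0 e (PE pr V ex) * c ^ 2 := by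
  classical
  obtain ⟨d, w, hd, hw, hbd⟩ := exists_sqf e hb
  have hp := hG.pf
  have hg0 : gg pr V ex ≠ 0 := gg_ne hp
  -- the primes of `d`
  have hprime : ∀ ρ : ZI, Prime ρ → ρ ∣ d → ρ ∣ PE pr V ex := by
    intro ρ hρ hρd
    by_contra hρD
    exact not_dvd_of_loc e hρ hρD hd hw hbd (h (plc e hρ)) hρd
  -- the primes with exponent two
  have htwo : ∀ j ∈ V, j ∉ Od V ex → ¬ pr j ∣ d := by
    intro j hj hjO
    have hP := hp.pp j
    have he2 : ex j = 2 := by
      have h1 : ¬ ex j % 2 = 1 := fun h1 => hjO (Finset.mem_filter.2 ⟨hj, h1⟩)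
      rcases hG.ex j hj with h2 | h2 | h2
      · rw [h2] at h1; exact absurd rfl h1
      · exact h2
      · rw [h2] at h1; exact absurd rfl h1
    set D' : ZI := ∏ i ∈ V.erase j, pr i ^ ex i with hD'
    have hDD : PE pr V ex = pr j ^ 2 * D' := by
      unfold PE
      rw [← Finset.mul_prod_erase V _ hj, he2]
    have hnd : ¬ pr j ∣ D' := by
      intro h1
      obtain ⟨i, hi, hji⟩ := ((hp.pp j).pr.dvd_finsetProd_iff _).1 h1
      have h2 := (hp.pp j).pr.dvd_of_dvd_pow hji
      exact not_dvd_of_ne hp (fun h' => (Finset.mem_erase.1 hi).1 h'.symm) h2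
    have hq : qr (pr j) D' ≠ 1 := by
      have h1 : D' = DD pr (Od V ex) * gg pr (V.erase j) ex ^ 2 := by
        have h2 : Od V ex = Od (V.erase j) ex := by
          unfold Od
          ext i
          rw [Finset.mem_filter, Finset.mem_filter, Finset.mem_erase]
          constructor
          · rintro ⟨h3, h4⟩
            exact ⟨⟨fun h5 => hjO (Finset.mem_filter.2 ⟨hj, by rw [← h5]; exact h4⟩), h3⟩, h4⟩
          · rintro ⟨⟨-, h3⟩, h4⟩
            exact ⟨h3, h4⟩
        rw [h2]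
        exact PE_eq (pr := pr) (V := V.erase j) (ex := ex)
      have h5 : ¬ pr j ∣ gg pr (V.erase j) ex := by
        intro h1
        unfold gg at h1
        obtain ⟨i, hi, hji⟩ := ((hp.pp j).pr.dvd_finsetProd_iff _).1 h1
        have h2 := (hp.pp j).pr.dvd_of_dvd_pow hji
        exact not_dvd_of_ne hp (fun h' => (Finset.mem_erase.1 hi).1 h'.symm) h2
      have h6 : qr (pr j) (gg pr (V.erase j) ex ^ 2) = 1 := by
        unfold qr
        rw [if_neg (fun h7 => h5 ((hp.pp j).pr.dvd_of_dvd_pow h7)),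
          if_pos ⟨gg pr (V.erase j) ex, by rw [sub_self]; exact dvd_zero _⟩]
      rw [h1, qr_mul hP, h6, mul_one, qr_DD_sg hp _ hjO, hG.tq j (Finset.mem_sdiff.2 ⟨hj, hjO⟩)]
      decide
    exact loc_two e hP.pr hP (not_dvd_two hP) hDD hnd hq hd hw hbd (h (plc e hP.pr))
  set S := (Od V ex).filter (fun i => pr i ∣ d) with hS
  have hSV : S ⊆ Od V ex := Finset.filter_subset _ _
  have hSd : DD pr S ∣ d := by
    unfold DD
    refine Finset.prod_dvd_of_coprime ?_ ?_
    · intro i _ j _ hij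
      exact (hp.pp i).cop (hp.pp j) fun h => hij (hp.inj h)
    · intro i hi
      exact (Finset.mem_filter.1 hi).2
  obtain ⟨u, hu⟩ := hSd
  have huu : IsUnit u := by
    by_contra hnu
    have hu0 : u ≠ 0 := by
      rintro rfl
      exact hd.ne_zero (by rw [hu, mul_zero])
    obtain ⟨ρ, hρ, hρu⟩ := WfDvdMonoid.exists_irreducible_factor hnu hu0
    have hρ' : Prime ρ := irreducible_iff_prime.1 hρ
    have h1 : ρ ∣ d := by rw [hu]; exact hρu.mul_left _
    have h2 := hprime ρ hρ' h1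
    unfold PE at h2
    obtain ⟨i, hi, hρi⟩ := (hρ'.dvd_finsetProd_iff _).1 h2
    have hρi' := hρ'.dvd_of_dvd_pow hρi
    have h3 : pr i ∣ ρ := by
      obtain ⟨c, hc⟩ := hρi'
      rcases (hp.pp i).pr.irreducible.isUnit_or_isUnit hc with h4 | h4
      · exact absurd h4 hρ'.not_isUnit
      · obtain ⟨c', hc'⟩ := h4.exists_right_inv
        exact ⟨c', by rw [hc, mul_assoc, hc', mul_one]⟩
    by_cases hiO : i ∈ Od V ex
    · have h4 : i ∈ S := Finset.mem_filter.2 ⟨hiO, h3.trans h1⟩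
      have h5 : pr i * pr i ∣ d := by
        rw [hu]
        refine mul_dvd_mul ?_ (h3.trans hρu)
        unfold DD
        exact Finset.dvd_prod_of_mem _ h4
      exact (hp.pp i).pr.not_isUnit (hd _ h5)
    · exact htwo i hi hiO (h3.trans h1)
  have hun : u.norm = 1 := by
    obtain ⟨e', rfl⟩ := huu
    exact unit_norm e'
  have hDS : DD pr (Od V ex) = DD pr S * DD pr (Od V ex \ S) := by
    unfold DD
    rw [mul_comm]
    exact (Finset.prod_sdiff hSV).symm
  -- the local conditions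
  have hloc : ∀ j ∈ Od V ex, (j ∉ S → qr (pr j) u * qr (pr j) (DD pr S) = 1) ∧
      (j ∈ S → qr (pr j) u * qr (pr j) (DD pr (Od V ex \ S)) = 1) := by
    intro j hj
    have hP := hp.pp j
    have hjD : pr j ∣ DD pr (Od V ex) := Finset.dvd_prod_of_mem pr hj
    obtain ⟨h1, h2⟩ := loc_odd (d := d) (d' := u * DD pr (Od V ex \ S)) (D' := u) e hP.pr hP
      (not_dvd_two hP) (DD_sqf hp _) hjD hg0 PE_eq hw hbd (h (plc e hP.pr))
    constructor
    · intro hjS
      have h3 := h1 (fun h' => hjS (Finset.mem_filter.2 ⟨hj, h'⟩))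
      rw [hu, qr_mul hP] at h3
      rw [mul_comm]
      exact h3
    · intro hjS
      have h3 := h2 hd (Finset.mem_filter.1 hjS).2 (by
        rw [hDS, hu]; ring) (by
        intro h'
        rcases hP.pr.dvd_or_dvd h' with h4 | h4
        · exact not_dvd_unit hP hun h4
        · exact nd_DD hp (fun h5 => (Finset.mem_sdiff.1 h5).2 hjS) h4)
      rw [qr_mul hP] at h3
      exact h3
  obtain ⟨⟨u0, hu0⟩, hSS⟩ := ends hp (Od_wt hp hG.wt) hG.ker hun hSV hloc
  rcases hSS with h1 | h1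
  · refine ⟨em0 e u0 * w, Or.inl ?_⟩
    have h2 : DD pr S = 1 := by rw [h1]; unfold DD; rw [Finset.prod_empty]
    rw [hbd, hu, h2, one_mul, hu0, map_pow]
    ring
  · have hAg := em0_ne e hg0
    refine ⟨em0 e u0 * w / em0 e (gg pr V ex), Or.inr ?_⟩
    rw [hbd, hu, h1, hu0, PE_eq, map_mul, map_pow, map_mul, map_pow]
    field_simp

/-- **the 2-primary part of Sha is trivial** -/
theorem shaE (hG : GE pr V ex) {W : WeierstrassCurve K} (hT : IsT W 0 (em0 e (PE pr V ex)))
    (n : ℕ) (x : Pool.Agent.TH841.NF.D.Sha W) (hx : 2 ^ n • x = 0) : x = 0 := by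
  induction n with
  | zero => rwa [pow_zero, one_smul] at hx
  | succ n ih =>
    apply ih
    apply sha_two_of e (PE_ne hG.pf) (fun b hb h => selE e hG hb h) hT
    rw [smul_smul, mul_comm, ← pow_succ]
    exact hx

end

/-- the statement of the project QT -/
theorem sha : Pool.Agent.Y715.QT.S_SHA :=
  fun _ _ _ _ _ _ hG _ _ _ e0 _ hT n x hx => shaE e0 hG hT n x hx

end Pool.Agent.R432.Q
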