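import Pool.Agent.R432.Q0
import Pool.Agent.R432.Q1
import Pool.Agent.R432.RB5
import Pool.Agent.Y715.QT.Fam2
import Pool.Agent.Y715.QT.Stm3
import Pool.Agent.Y195.CS.FS
import Pool.Agent.TH841.SH.Pw

/-!
# The Tate-Shafarevich groups of `y² = x³ + D x` over the fields `ℚ(i)(⁴√l, √q)`
-/

set_option autoImplicit false
set_option linter.unusedSectionVars false

open NumberField IsDedekindDomain

namespace Pool.Agent.R432.Q

open Pool.Agent.Y682 (IsT)
open Pool.Agent.Y699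
open Pool.Agent.Y715.Z
open Pool.Agent.Y715.QT
open Pool.Agent.R432.RB (Kl E4 kum)
open Pool.Agent.TH841.NF.D (Sha)
open H385 (ZI RQ im1 nrm)

lemma isT4 {k : Type} [Field k] [CharZero k] {b : k} (hb : b ≠ 0) : IsT (E4 b) 0 b where
  h1 := rfl
  h2 := rfl
  h3 := rfl
  h4 := rfl
  h6 := rfl
  hB := hb
  hD := by
    rw [zero_pow two_ne_zero, zero_sub]
    exact neg_ne_zero.2 (mul_ne_zero (by norm_num) hb)

/-- finitely many elements of order two, and an exponent -/
lemma fin_prim {G : Type} [AddCommGroup G] (h : Finite {x : G // 2 • x = 0}) {n : ℕ}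
    (hn : ∀ (k : ℕ) (y : G), 2 ^ k • y = 0 → 2 ^ n • y = 0) :
    Finite (AddCommGroup.primaryComponent G 2) := by
  have h1 : Finite {x : G // x + x = 0} := by
    refine Finite.of_injective (β := {x : G // 2 • x = 0})
      (fun x => ⟨x.1, by rw [two_nsmul]; exact x.2⟩) ?_
    intro x y hxy
    exact Subtype.ext (congrArg (fun z : {x : G // 2 • x = 0} => z.1) hxy)
  have h2 := (Pool.Agent.TH841.SH.card_tor h1 n).1
  refine Finite.of_injective (β := {x : G // 2 ^ n • x = 0})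
    (fun x => ⟨x.1, ?_⟩) ?_
  · obtain ⟨k, hk⟩ := x.2
    exact hn k x.1 hk
  · intro x y hxy
    exact Subtype.ext (congrArg (fun z : {x : G // 2 ^ n • x = 0} => z.1) hxy)

variable {D p1 : ZI} {S₄ S₂ : Finset ZI}

lemma ge_of (hg : Good4 D) (h : Adm2 D p1 S₄ S₂) (hp1 : p1 ∈ PD D) {e : ZI → ℕ}
    (he : Exq S₄ S₂ e) : GE (px D (S₄ ∪ S₂)) (VV D (S₄ ∪ S₂) e) (ex D (S₄ ∪ S₂) e) where
  pf := px2_PF hg.ps.ne h
  ex := ex2_cases he
  wt := Wt_ex2 hg h he
  ker := hker_ex2 hg h he hp1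
  tq := hT_ex2 hg h he hp1

/-- **the twists over `ℚ(i)`** -/
theorem base_kl (hg : Good4 D) (h : Adm2 D p1 S₄ S₂) (hp1 : p1 ∈ PD D)
    (k : Type) [Field k] [NumberField k] [Algebra ZI k] [IsFractionRing ZI k]
    {e : ZI → ℕ} (he : Exq S₄ S₂ e) :
    Kl (Sha (E4 (algebraMap ZI k (D * ((∏ q ∈ S₄, q ^ e q) * ∏ q ∈ S₂, q ^ e q))))) 0 := by
  obtain ⟨e0, he0⟩ := exists_e0 k
  have hG := ge_of hg h hp1 he
  have hPE : PE (px D (S₄ ∪ S₂)) (VV D (S₄ ∪ S₂) e) (ex D (S₄ ∪ S₂) e) =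
      D * ((∏ q ∈ S₄, q ^ e q) * ∏ q ∈ S₂, q ^ e q) := prod_ex2 hg h
  have hne := PE_ne (V := VV D (S₄ ∪ S₂) e) (ex := ex D (S₄ ∪ S₂) e) hG.pf
  rw [hPE] at hne
  have hb : algebraMap ZI k (D * ((∏ q ∈ S₄, q ^ e q) * ∏ q ∈ S₂, q ^ e q)) ≠ 0 :=
    (map_ne_zero_iff _ (IsFractionRing.injective ZI k)).2 hne
  have hT := isT4 hb
  have h1 : em0 e0 (PE (px D (S₄ ∪ S₂)) (VV D (S₄ ∪ S₂) e) (ex D (S₄ ∪ S₂) e)) =
      algebraMap ZI k (D * ((∏ q ∈ S₄, q ^ e q) * ∏ q ∈ S₂, q ^ e q)) := by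
    rw [em0_apply, he0, hPE]
  intro n x hx
  rw [pow_zero, one_smul]
  exact shaE e0 hG (W := E4 _) (by rw [h1]; exact hT) n x hx

/-- **Over `F = ℚ(i)(⁴√l, √q)`** the 2-primary part of Sha is killed by `2 ^ (2 #S₄ + #S₂)`. -/
theorem tow_kl (hg : Good4 D) (hp1 : p1 ∈ PD D) (h : Adm2 D p1 S₄ S₂)
    {F : Type} [Field F] [NumberField F] (ι : ZI →+* 𝓞 F) {r : ZI → 𝓞 F} (hG : Gen2 ι S₄ S₂ r) :
    Kl (Sha (E4 ((ι D : 𝓞 F) : F))) (2 * S₄.card + S₂.card) := by
  classical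
  have hι : Function.Injective ι := by
    rw [injective_iff_map_eq_zero]
    intro a ha
    by_contra h0
    have h3 : ι ((a.norm : ℤ) : ZI) = 0 := by
      rw [Zsqrtd.norm_eq_mul_conj, map_mul, ha, zero_mul]
    rw [map_intCast] at h3
    have h4 : a.norm = 0 := by exact_mod_cast h3
    exact h0 (GaussianInt.norm_eq_zero.1 h4)
  let j : ZI →+* F := (algebraMap (𝓞 F) F).comp ι
  have hj : Function.Injective j := (IsFractionRing.injective (𝓞 F) F).comp hι
  let k : Type := FractionRing ZI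
  letI : Algebra k F := (IsFractionRing.lift (K := k) hj).toAlgebra
  have hc : ∀ g : ZI, algebraMap k F (algebraMap ZI k g) = ((ι g : 𝓞 F) : F) := by
    intro g
    exact IsFractionRing.lift_algebraMap hj g
  haveI : NumberField k := k_num
  have hkinj := IsFractionRing.injective ZI k
  obtain ⟨h4, h2, hgen⟩ := hG
  have key := kum S₄ S₂ k F (fun q => algebraMap ZI k q) (fun q => ((r q : 𝓞 F) : F))
    (fun q => ((r q : 𝓞 F) : F))
    (fun q hq => by
      rw [hc, ← h4 q hq]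
      push_cast
      rfl)
    (fun q hq => by
      rw [hc, ← h2 q hq]
      push_cast
      rfl)
    (fun q hq => (map_ne_zero_iff _ hkinj).2 (h.a4.pp q hq).ne)
    (fun q hq => (map_ne_zero_iff _ hkinj).2 (h.pp q hq).ne)
    (fun L h5 h6 h7 => hgen L (fun g => by rw [← hc g]; exact h5 _) h6 h7)
    (algebraMap ZI k D) 0 (fun e f he hf => by
      set e' : ZI → ℕ := fun q => if q ∈ S₄ then e q else 2 * f q with he'
      have hE : Exq S₄ S₂ e' := by
        refine ⟨fun l hl => ?_, fun q hq => ?_⟩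
        · rw [he']
          simp only [if_pos hl]
          exact he l
        · rw [he']
          simp only [if_neg (fun h5 => Finset.disjoint_left.1 h.dj h5 hq)]
          have := hf q
          omega
      have h5 := base_kl hg h hp1 k hE
      have h6 : algebraMap ZI k (D * ((∏ q ∈ S₄, q ^ e' q) * ∏ q ∈ S₂, q ^ e' q)) =
          algebraMap ZI k D * ((∏ i ∈ S₄, (algebraMap ZI k i) ^ e i) *
            ∏ i ∈ S₂, (algebraMap ZI k i) ^ (2 * f i)) := by
        rw [map_mul, map_mul, map_prod, map_prod]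
        congr 2
        · refine Finset.prod_congr rfl fun q hq => ?_
          rw [map_pow, he']
          simp only [if_pos hq]
        · refine Finset.prod_congr rfl fun q hq => ?_
          rw [map_pow, he']
          simp only [if_neg (fun h5 => Finset.disjoint_left.1 h.dj h5 hq)]
      rw [h6] at h5
      exact h5)
  rw [hc, zero_add] at key
  exact key

/-- the 2-primary part of Sha is finite -/
theorem tow_fin (hg : Good4 D) (hp1 : p1 ∈ PD D) (h : Adm2 D p1 S₄ S₂)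
    {F : Type} [Field F] [NumberField F] (ι : ZI →+* 𝓞 F) {r : ZI → 𝓞 F} (hG : Gen2 ι S₄ S₂ r) :
    Finite (AddCommGroup.primaryComponent (Sha (E4 ((ι D : 𝓞 F) : F))) 2) := by
  have hι : Function.Injective ι := by
    rw [injective_iff_map_eq_zero]
    intro a ha
    by_contra h0
    have h3 : ι ((a.norm : ℤ) : ZI) = 0 := by
      rw [Zsqrtd.norm_eq_mul_conj, map_mul, ha, zero_mul]
    rw [map_intCast] at h3
    have h4 : a.norm = 0 := by exact_mod_cast h3
    exact h0 (GaussianInt.norm_eq_zero.1 h4)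
  have hb : ((ι D : 𝓞 F) : F) ≠ 0 := by
    intro h0
    apply hg.ps.ne
    apply hι
    rw [map_zero]
    exact_mod_cast h0
  exact fin_prim
    (Pool.Agent.Y195.CS.fs F (E4 ((ι D : 𝓞 F) : F)) 0 _ (isT4 hb)) (tow_kl hg hp1 h ι hG)

end Pool.Agent.R432.Q
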