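import Pool.Agent.R432.C7
import Pool.Agent.Y333.CX.LAM
import Pool.Agent.Y405.CT.Cri

/-!
# Rational primes as leaves of the graph of the cubic residue symbols
-/

set_option autoImplicit false
set_option linter.unusedSectionVars false

namespace Pool.Agent.R432.Q

open Pool.Agent.Y692.QS
open Pool.Agent.Y715.T.Rec (cs)
open Pool.Agent.Y715.T.RecG (Pq cs_mul cs_neg cs_zero_iff)
open Pool.Agent.Y703.CT (Dt pD Ker Base Cls NoSplit)
open Pool.Agent.Y703.CX (pp lam)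
open Pool.Agent.Y333.CX (exists_pq pp_spec dvd_nat t_LAM)
open Pool.Agent.Y405.CT (pq_star cs_starG below star_nat dvd_D_iff dvd_part pi_inj)
open Pool.Agent.Y350.CT (eq_of_dvd conj_zero)
open Pool.Agent.R432.C (Leaf rec_cs pq_dvd)

/-- `a` is a cube modulo `m` -/
def CubeMod (a m : ℕ) : Prop := ∃ x : ℤ, (m : ℤ) ∣ (a : ℤ) - x ^ 3

/-- `l` and `p` are cubes modulo each other -/
def Free (l p : ℕ) : Prop := CubeMod p l ∧ CubeMod l p

/-- `p` is not a cube modulo `l`, and `l` is not a cube modulo `p` if `p` is `1` modulo `3` -/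
def Att (l p : ℕ) : Prop := ¬ CubeMod p l ∧ (p % 3 = 1 → ¬ CubeMod l p)

/-- the set `S` of primes is admissible for `D`; the prime `l` is attached to `a l` -/
structure Adm (D : ℕ) (a : ℕ → ℕ) (S : Finset ℕ) : Prop where
  pr : ∀ l ∈ S, l.Prime
  nine : ∀ l ∈ S, l % 9 = 1
  nd : ∀ l ∈ S, ¬ l ∣ D
  ap : ∀ l ∈ S, (a l).Prime
  ad : ∀ l ∈ S, a l ∣ D
  att : ∀ l ∈ S, Att l (a l)
  free : ∀ l ∈ S, ∀ p : ℕ, p.Prime → p ∣ D → p ≠ a l → Free l p
  pw : ∀ l ∈ S, ∀ m ∈ S, l ≠ m → CubeMod l m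

/-! ### a prime of norm `l` -/

section one

variable {μ : Ei} {l : ℕ}

lemma norm_mod (h : Pq μ) (hl : l.Prime) (hn : nr μ = l) : l % 3 = 1 ∧
    ∀ n : ℤ, μ ∣ (n : Ei) ↔ (l : ℤ) ∣ n := by
  obtain ⟨l', hl', -, h4, h5⟩ := below h
  rcases h4 with ⟨h6, h7⟩ | ⟨h6, h7⟩
  · have h8 : l' = l := by
      rw [hn] at h7
      exact_mod_cast h7.symm
    rw [← h8]
    exact ⟨h6, h5⟩
  · exfalso
    rw [hn] at h7
    have h8 : l = l' ^ 2 := by exact_mod_cast h7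
    rw [h8] at hl
    exact Nat.Prime.not_prime_pow (le_refl 2) hl

lemma dvd_nat' (h : Pq μ) (hl : l.Prime) (hn : nr μ = l) (n : ℕ) : μ ∣ (n : Ei) ↔ l ∣ n := by
  have h1 := (norm_mod h hl hn).2 n
  rw [Int.cast_natCast, Int.natCast_dvd_natCast] at h1
  exact h1

lemma eq_pp (h : Pq μ) (hl : l.Prime) (hn : nr μ = l) : μ = pp l ∨ μ = star (pp l) := by
  obtain ⟨h1, h2⟩ := norm_mod h hl hn
  obtain ⟨h3, h4⟩ := pp_spec hl h1
  have h5 : μ ∣ pp l * star (pp l) := by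
    rw [mul_star, h4, ← hn, ← mul_star]
    exact dvd_mul_right _ _
  rcases h.prime.dvd_or_dvd h5 with h6 | h6
  · exact Or.inl (eq_of_dvd h3 h h6)
  · exact Or.inr (eq_of_dvd (pq_star h3) h h6)

/-- the symbol of a rational number -/
lemma cube1 (h : Pq μ) (hl : l.Prime) (hn : nr μ = l) {n : ℕ} (hd : ¬ l ∣ n) :
    cs μ (n : Ei) = 0 ↔ CubeMod n l := by
  obtain ⟨h1, -⟩ := norm_mod h hl hn
  have h2 := t_LAM.cube l n hl h1 hd
  have h3 : cs μ (n : Ei) = 0 ↔ lam l n = 0 := by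
    rcases eq_pp h hl hn with h4 | h4
    · rw [h4]
      rfl
    · have h5 := pp_spec hl h1
      have h6 : cs (star (pp l)) (star (n : Ei)) = -cs (pp l) (n : Ei) :=
        cs_starG h5.1 fun h7 => hd ((dvd_nat hl h1 n).1 h7)
      rw [h4]
      rw [star_nat] at h6
      rw [h6, neg_eq_zero]
      rfl
  exact h3.trans h2

variable {ρ : Ei} {p : ℕ}

lemma ne_of_norm {a b : Ei} (h : nr a ≠ nr b) : a ≠ b := fun h1 => h (by rw [h1])

lemma star_eq (a : Ei) : star (star a) = a := star_star a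

/-- the symbols of a prime of norm `p` -/
lemma split1 (h : Pq μ) (hl : l.Prime) (hn : nr μ = l) (h' : Pq ρ) (hp : p.Prime)
    (hn' : nr ρ = p) (hne : l ≠ p) :
    (cs μ ρ + cs μ (star ρ) = 0 ↔ CubeMod p l) ∧ (cs μ ρ - cs μ (star ρ) = 0 ↔ CubeMod l p) ∧
      cs (star μ) ρ = -cs μ (star ρ) := by
  have hpq : ¬ l ∣ p := fun h1 => hne ((Nat.prime_dvd_prime_iff_eq hl hp).1 h1)
  have hqp : ¬ p ∣ l := fun h1 => hne ((Nat.prime_dvd_prime_iff_eq hp hl).1 h1).symm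
  have hs := pq_star h
  have hs' := pq_star h'
  have hnn : ∀ {a b : Ei}, Pq a → Pq b → nr a = l → nr b = p → ¬ a ∣ b := by
    intro a b ha hb h1 h2 h3
    have h4 := eq_of_dvd hb ha h3
    rw [h4, h2] at h1
    exact hne (by exact_mod_cast h1.symm)
  have hnn' : ∀ {a b : Ei}, Pq a → Pq b → nr a = l → nr b = p → a ≠ b := by
    intro a b ha hb h1 h2 h3
    exact hnn ha hb h1 h2 (by rw [h3])
  have n1 : nr (star μ) = l := by rw [nr_star, hn]
  have n2 : nr (star ρ) = p := by rw [nr_star, hn']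
  have e1 : cs μ ((p : ℕ) : Ei) = cs μ ρ + cs μ (star ρ) := by
    have h1 : ((p : ℕ) : Ei) = ρ * star ρ := by
      rw [mul_star, hn']
      push_cast
      rfl
    rw [h1]
    exact cs_mul h.prime h.norm (hnn h h' hn hn') (hnn h hs' hn n2)
  have e3 : cs (star μ) ρ = -cs μ (star ρ) := by
    have h1 := cs_starG h (x := star ρ) (hnn h hs' hn n2)
    rw [star_star] at h1
    exact h1
  have e2 : cs ρ ((l : ℕ) : Ei) = cs μ ρ - cs μ (star ρ) := by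
    have h1 : ((l : ℕ) : Ei) = μ * star μ := by
      rw [mul_star, hn]
      push_cast
      rfl
    have h2 : ¬ ρ ∣ μ := fun h3 => hnn' h h' hn hn' (eq_of_dvd h h' h3).symm
    have h3 : ¬ ρ ∣ star μ := fun h3 => hnn' hs h' n1 hn' (eq_of_dvd hs h' h3).symm
    rw [h1, cs_mul h'.prime h'.norm h2 h3, rec_cs h h' (hnn' h h' hn hn'),
      rec_cs hs h' (hnn' hs h' n1 hn'), e3, sub_eq_add_neg]
  refine ⟨?_, ?_, e3⟩
  · rw [← e1]
    exact cube1 h hl hn hpq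
  · rw [← e2]
    exact cube1 h' hp hn' hqp

/-- the symbol of an inert prime -/
lemma inert1 (h : Pq μ) (hl : l.Prime) (hn : nr μ = l) (hne : ¬ l ∣ p) :
    cs μ (-(p : Ei)) = 0 ↔ CubeMod p l := by
  have h1 : ¬ μ ∣ ((p : ℕ) : Ei) := fun h1 => hne ((dvd_nat' h hl hn p).1 h1)
  rw [cs_neg h.prime h.norm h1]
  exact cube1 h hl hn hne

end one

/-! ### the prime factors of `D` -/

section D

variable {J : Type} [Fintype J] {π : J → Ei} {e : J → ZMod 3} {D : ℕ}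

lemma in_D (hD : Dt π e) (hDp : (D : Ei) = pD π e ∨ (D : Ei) = -pD π e) {ρ : Ei} (h : Pq ρ)
    (hd : ρ ∣ (D : Ei)) : ∃ j, π j = ρ := by
  have h1 := (dvd_D_iff hDp ρ).1 hd
  obtain ⟨j, -, h2, -⟩ := dvd_part hD Finset.univ h.prime h1
  exact ⟨j, (eq_of_dvd (hD.pq j) h h2).symm⟩

lemma dvd_D (hD : Dt π e) (hDp : (D : Ei) = pD π e ∨ (D : Ei) = -pD π e) (j : J) :
    π j ∣ (D : Ei) := by
  rw [dvd_D_iff hDp]
  unfold pD
  refine (dvd_pow_self (π j) ?_).trans (Finset.dvd_prod_of_mem _ (Finset.mem_univ j))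
  rw [Ne, ZMod.val_eq_zero]
  exact hD.e0 j

/-- the primary prime of an inert prime -/
lemma pq_inert {p : ℕ} (hp : p.Prime) (h2 : p % 3 = 2) : Pq (-(p : Ei)) :=
  (t_LAM.rec2 7 p (by norm_num) (by norm_num) hp h2).1

/-- the prime factors of `D` in the Eisenstein integers -/
lemma fac (hD : Dt π e) (hDp : (D : Ei) = pD π e ∨ (D : Ei) = -pD π e) (j : J) :
    ∃ p : ℕ, p.Prime ∧ p ∣ D ∧ ((p % 3 = 1 ∧ nr (π j) = p) ∨ (p % 3 = 2 ∧ π j = -(p : Ei))) := by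
  obtain ⟨p, hp, h3, h4, h5⟩ := below (hD.pq j)
  have h6 : p ∣ D := by
    have h7 := (h5 D).1 (by rw [Int.cast_natCast]; exact dvd_D hD hDp j)
    exact_mod_cast h7
  refine ⟨p, hp, h6, ?_⟩
  rcases h4 with h7 | ⟨h7, -⟩
  · exact Or.inl h7
  · right
    refine ⟨h7, ?_⟩
    exact eq_of_dvd (pq_inert hp h7) (hD.pq j) ((dvd_neg).2 h3)

/-- the primes above a prime factor of `D` -/
lemma fac_ex (hD : Dt π e) (hDp : (D : Ei) = pD π e ∨ (D : Ei) = -pD π e) {p : ℕ} (hp : p.Prime)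
    (hpD : p ∣ D) (h3 : p ≠ 3) : ∃ j, (p % 3 = 1 ∧ nr (π j) = p) ∨ (p % 3 = 2 ∧ π j = -(p : Ei)) := by
  obtain ⟨ρ, hρ, h1, h2, -⟩ := exists_pq hp h3
  have h4 : ρ ∣ (D : Ei) := by
    obtain ⟨c, hc⟩ := hpD
    rw [hc, Nat.cast_mul]
    exact Dvd.dvd.mul_right h1 _
  obtain ⟨j, hj⟩ := in_D hD hDp hρ h4
  refine ⟨j, ?_⟩
  rw [hj]
  rcases h2 with h2 | ⟨h2, -⟩
  · exact Or.inl h2
  · exact Or.inr ⟨h2, eq_of_dvd (pq_inert hp h2) hρ ((dvd_neg).2 h1)⟩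

lemma fac_star (hD : Dt π e) (hDp : (D : Ei) = pD π e ∨ (D : Ei) = -pD π e) (j : J) :
    ∃ j', π j' = star (π j) := by
  refine in_D hD hDp (pq_star (hD.pq j)) ?_
  obtain ⟨c, hc⟩ := dvd_D hD hDp j
  refine ⟨star c, ?_⟩
  rw [← star_nat D, hc, star_mul']

lemma zz {a b : ZMod 3} (h1 : a + b = 0) (h2 : a - b = 0) : a = 0 ∧ b = 0 := by
  revert a b; decide

lemma zn {a b : ZMod 3} (h1 : a + b ≠ 0) (h2 : a - b ≠ 0) :
    (a ≠ 0 ∧ b = 0) ∨ (a = 0 ∧ b ≠ 0) := by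
  revert a b; decide

/-- exactly one prime factor of `D` has a nonzero symbol -/
theorem uniq (hD : Dt π e) (hDp : (D : Ei) = pD π e ∨ (D : Ei) = -pD π e) (h3 : ¬ 3 ∣ D)
    {μ : Ei} {l p₀ : ℕ} (h : Pq μ) (hl : l.Prime) (hn : nr μ = l) (hlD : ¬ l ∣ D)
    (hp₀ : p₀.Prime) (hp₀D : p₀ ∣ D) (hatt : Att l p₀)
    (hfree : ∀ p : ℕ, p.Prime → p ∣ D → p ≠ p₀ → Free l p) :
    ∃ j, cs μ (π j) ≠ 0 ∧ ∀ j', j' ≠ j → cs μ (π j') = 0 := by
  have hlp : ∀ p : ℕ, p ∣ D → l ≠ p := fun p h1 h2 => hlD (by rw [h2]; exact h1)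
  have hlp' : ∀ p : ℕ, p ∣ D → ¬ l ∣ p := fun p h1 h2 => hlD (h2.trans h1)
  have hfr : ∀ j : J, ∀ p : ℕ, p.Prime → p ∣ D →
      ((p % 3 = 1 ∧ nr (π j) = p) ∨ (p % 3 = 2 ∧ π j = -(p : Ei))) → p ≠ p₀ →
      cs μ (π j) = 0 := by
    intro j p hp hpD h4 hne
    obtain ⟨f1, f2⟩ := hfree p hp hpD hne
    rcases h4 with ⟨-, h5⟩ | ⟨-, h5⟩
    · obtain ⟨g1, g2, -⟩ := split1 h hl hn (hD.pq j) hp h5 (hlp p hpD)
      exact (zz (g1.2 f1) (g2.2 f2)).1
    · rw [h5]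
      exact (inert1 h hl hn (hlp' p hpD)).2 f1
  have h30 : p₀ ≠ 3 := by
    rintro rfl
    exact h3 hp₀D
  obtain ⟨j₀, hj₀⟩ := fac_ex hD hDp hp₀ hp₀D h30
  rcases hj₀ with ⟨m1, m2⟩ | ⟨m1, m2⟩
  · obtain ⟨g1, g2, -⟩ := split1 h hl hn (hD.pq j₀) hp₀ m2 (hlp p₀ hp₀D)
    obtain ⟨j₁, hj₁⟩ := fac_star hD hDp j₀
    have hall : ∀ j', j' ≠ j₀ → j' ≠ j₁ → cs μ (π j') = 0 := by
      intro j' hne0 hne1
      obtain ⟨p, hp, hpD, h4⟩ := fac hD hDp j'
      by_cases hpp : p = p₀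
      · exfalso
        subst hpp
        rcases h4 with ⟨-, h5⟩ | ⟨h5, -⟩
        · have h6 : π j' ∣ π j₀ * star (π j₀) := by
            rw [mul_star, m2, ← h5, ← mul_star]
            exact dvd_mul_right _ _
          rcases (hD.pq j').prime.dvd_or_dvd h6 with h7 | h7
          · exact hne0 (pi_inj hD (eq_of_dvd (hD.pq j₀) (hD.pq j') h7))
          · apply hne1
            apply pi_inj hD
            rw [hj₁]
            exact eq_of_dvd (pq_star (hD.pq j₀)) (hD.pq j') h7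
        · omega
      · exact hfr j' p hp hpD h4 hpp
    rcases zn (fun h4 => hatt.1 (g1.1 h4)) (fun h4 => hatt.2 m1 (g2.1 h4)) with ⟨k1, k2⟩ | ⟨k1, k2⟩
    · refine ⟨j₀, k1, fun j' hj' => ?_⟩
      by_cases h5 : j' = j₁
      · rw [h5, hj₁]
        exact k2
      · exact hall j' hj' h5
    · refine ⟨j₁, by rw [hj₁]; exact k2, fun j' hj' => ?_⟩
      by_cases h5 : j' = j₀
      · rw [h5]
        exact k1
      · exact hall j' h5 hj'
  · refine ⟨j₀, ?_, fun j' hj' => ?_⟩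
    · rw [m2]
      exact fun h4 => hatt.1 ((inert1 h hl hn (hlp' p₀ hp₀D)).1 h4)
    · obtain ⟨p, hp, hpD, h4⟩ := fac hD hDp j'
      by_cases hpp : p = p₀
      · exfalso
        subst hpp
        rcases h4 with ⟨h5, -⟩ | ⟨-, h5⟩
        · omega
        · exact hj' (pi_inj hD (by rw [h5, m2]))
      · exact hfr j' p hp hpD h4 hpp

end D

/-! ### the leaves -/

section leaf

variable {J : Type} [Fintype J] {π : J → Ei} {e : J → ZMod 3} {D : ℕ} {a : ℕ → ℕ} {S : Finset ℕ}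

open Classical in
/-- the set of the primes over the primes of `S` -/
noncomputable def SE (S : Finset ℕ) : Finset Ei := S.image pp ∪ S.image fun l => star (pp l)

lemma mem_SE {x : Ei} : x ∈ SE S ↔ ∃ l ∈ S, x = pp l ∨ x = star (pp l) := by
  classical
  unfold SE
  rw [Finset.mem_union, Finset.mem_image, Finset.mem_image]
  constructor
  · rintro (⟨l, hl, rfl⟩ | ⟨l, hl, rfl⟩)
    · exact ⟨l, hl, Or.inl rfl⟩
    · exact ⟨l, hl, Or.inr rfl⟩
  · rintro ⟨l, hl, rfl | rfl⟩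
    · exact Or.inl ⟨l, hl, rfl⟩
    · exact Or.inr ⟨l, hl, rfl⟩

lemma adm_one (hA : Adm D a S) {l : ℕ} (hl : l ∈ S) : l % 3 = 1 := by
  have := hA.nine l hl
  omega

lemma SE_spec (hA : Adm D a S) {x : Ei} (hx : x ∈ SE S) :
    ∃ l ∈ S, Pq x ∧ nr x = l := by
  obtain ⟨l, hl, h⟩ := mem_SE.1 hx
  obtain ⟨h1, h2⟩ := pp_spec (hA.pr l hl) (adm_one hA hl)
  refine ⟨l, hl, ?_⟩
  rcases h with rfl | rfl
  · exact ⟨h1, h2⟩
  · exact ⟨pq_star h1, by rw [nr_star, h2]⟩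

/-- the index to which a leaf is attached -/
noncomputable def at0 [Nonempty J] (π : J → Ei) (x : Ei) : J :=
  open Classical in if h : ∃ j, cs x (π j) ≠ 0 then h.choose else Classical.arbitrary J

theorem leafQ [Nonempty J] (hD : Dt π e) (hDp : (D : Ei) = pD π e ∨ (D : Ei) = -pD π e)
    (h3 : ¬ 3 ∣ D) (hA : Adm D a S) : Leaf π (at0 π) (SE S) := by
  have key : ∀ x ∈ SE S, cs x (π (at0 π x)) ≠ 0 ∧ ∀ j, j ≠ at0 π x → cs x (π j) = 0 := by
    intro x hx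
    obtain ⟨l, hl, h1, h2⟩ := SE_spec hA hx
    obtain ⟨j, h4, h5⟩ := uniq hD hDp h3 h1 (hA.pr l hl) h2 (hA.nd l hl) (hA.ap l hl)
      (hA.ad l hl) (hA.att l hl) (hA.free l hl)
    have h6 : ∃ j, cs x (π j) ≠ 0 := ⟨j, h4⟩
    have h7 : at0 π x = j := by
      unfold at0
      rw [dif_pos h6]
      by_contra hne
      exact h6.choose_spec (h5 _ hne)
    rw [h7]
    exact ⟨h4, h5⟩
  refine ⟨fun x hx => ?_, fun x hx j hxj => ?_, fun x hx => ?_, fun x hx => (key x hx).1,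
    fun x hx => (key x hx).2, fun x hx y hy hxy => ?_⟩
  · obtain ⟨l, hl, h1, h2⟩ := SE_spec hA hx
    exact h1
  · obtain ⟨l, hl, h1, h2⟩ := SE_spec hA hx
    have h4 : x ∣ ((D : ℕ) : Ei) := by
      rw [hxj]
      exact dvd_D hD hDp j
    exact hA.nd l hl ((dvd_nat' h1 (hA.pr l hl) h2 D).1 h4)
  · obtain ⟨l, hl, h1, h2⟩ := SE_spec hA hx
    have h4 := hA.nine l hl
    rw [h2]
    omega
  · obtain ⟨l, hl, h1, h2⟩ := SE_spec hA hx
    obtain ⟨m, hm, h1', h2'⟩ := SE_spec hA hy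
    by_cases hlm : l = m
    · subst hlm
      have h4 : y = star x := by
        have h5 : y ∣ x * star x := by
          rw [mul_star, h2, ← h2', ← mul_star]
          exact dvd_mul_right _ _
        rcases h1'.prime.dvd_or_dvd h5 with h6 | h6
        · exact absurd (eq_of_dvd h1 h1' h6).symm hxy
        · exact eq_of_dvd (pq_star h1) h1' h6
      rw [h4]
      refine conj_zero h1 fun h5 => hxy ?_
      rw [h4]
      exact eq_of_dvd (pq_star h1) h1 h5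
    · obtain ⟨g1, g2, -⟩ := split1 h1 (hA.pr l hl) h2 h1' (hA.pr m hm) h2' hlm
      exact (zz (g1.2 (hA.pw m hm l hl (Ne.symm hlm))) (g2.2 (hA.pw l hl m hm hlm))).1

end leaf

end Pool.Agent.R432.Q
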