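import Pool.Agent.R432.R1

/-!
# The fields `K(∛l : l ∈ S)` over `K = ℚ(ω)` for rational primes `l`
-/

set_option autoImplicit false
set_option linter.unusedSectionVars false

open NumberField Polynomial

namespace Pool.Agent.R432.Q

open Pool.Agent.Y692.QS
open Pool.Agent.Y715.T.Rec (cs)
open Pool.Agent.Y715.T.RecG (Pq)
open Pool.Agent.Y703.CT (Dt pD Ker Base Cls NoSplit descK Tw ShK MwK)
open Pool.Agent.Y703.CX (pp)
open Pool.Agent.Y333.CX (pp_spec)
open Pool.Agent.R432.C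
open Pool.Agent.TH841.NF.D (Sha)
open Pool.Agent.Y715.T.Gi Pool.Agent.Y715.T.Nr Pool.Agent.Y715.T.Df Pool.Agent.Y715.T.Ell

section neg

variable {i₀ : QB} {hi : i₀ ^ 2 + i₀ + 1 = 0}

/-- the sign -/
lemma tw_neg {D : Ei} {u : QB} {a : GK i₀ → ZMod 3} (hT : Tw hi (-D) u a) : Tw hi D (-u) a := by
  refine ⟨?_, fun σ => ?_⟩
  · rw [Odd.neg_pow (by decide), hT.cube, map_neg, neg_neg]
  · rw [map_neg, hT.act σ]
    ring

end neg

section exps

variable {D : ℕ} {a : ℕ → ℕ} {S : Finset ℕ}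

/-- the exponents of the primes over the primes of `S` -/
noncomputable def tE (t : {l : ℕ // l ∈ S} → ZMod 3) (x : {x : Ei // x ∈ SE S}) : ZMod 3 :=
  open Classical in if h : (nr x.1).natAbs ∈ S then t ⟨(nr x.1).natAbs, h⟩ else 0

lemma SE_nr (hA : Adm D a S) {x : Ei} (hx : x ∈ SE S) :
    (nr x).natAbs ∈ S ∧ (x = pp (nr x).natAbs ∨ x = star (pp (nr x).natAbs)) := by
  obtain ⟨l, hl, h1, h2⟩ := SE_spec hA hx
  have h3 : (nr x).natAbs = l := by rw [h2]; exact Int.natAbs_natCast l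
  rw [h3]
  exact ⟨hl, eq_pp h1 (hA.pr l hl) h2⟩

lemma pp_ne_star {l : ℕ} (hl : l.Prime) (h3 : l % 3 = 1) : pp l ≠ star (pp l) := by
  intro h
  obtain ⟨h1, h2⟩ := pp_spec hl h3
  have h4 := congrArg (fun z : Ei => z.im) h
  simp only [star_im] at h4
  have h5 : (pp l).im = 0 := by omega
  have h6 : nr (pp l) = (pp l).re ^ 2 := by
    unfold nr
    rw [h5]
    ring
  rw [h6] at h2
  have h7 : (pp l).re.natAbs ^ 2 = l := by
    have := congrArg Int.natAbs h2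
    rwa [Int.natAbs_pow, Int.natAbs_natCast] at this
  rw [← h7] at hl
  exact Nat.Prime.not_prime_pow (le_refl 2) hl

/-- the product over the primes above -/
lemma prod_SE (hA : Adm D a S) (f : ℕ → ℕ) :
    ∏ x ∈ SE S, x ^ f (nr x).natAbs = ∏ l ∈ S, (l : Ei) ^ f l := by
  classical
  have hinj : ∀ x ∈ S, ∀ y ∈ S, nr (pp x) = nr (pp y) → x = y := by
    intro x hx y hy h
    rw [(pp_spec (hA.pr x hx) (adm_one hA hx)).2, (pp_spec (hA.pr y hy) (adm_one hA hy)).2] at h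
    exact_mod_cast h
  unfold SE
  rw [Finset.prod_union, Finset.prod_image, Finset.prod_image, ← Finset.prod_mul_distrib]
  · refine Finset.prod_congr rfl fun l hl => ?_
    obtain ⟨h1, h2⟩ := pp_spec (hA.pr l hl) (adm_one hA hl)
    rw [nr_star, h2, Int.natAbs_natCast, ← mul_pow, mul_star, h2]
    push_cast
    rfl
  · intro x hx y hy h
    apply hinj x hx y hy
    have h1 : nr (star (pp x)) = nr (star (pp y)) := congrArg nr h
    rwa [nr_star, nr_star] at h1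
  · intro x hx y hy h
    exact hinj x hx y hy (congrArg nr h)
  · rw [Finset.disjoint_left]
    intro x hx hy
    obtain ⟨l, hl, rfl⟩ := Finset.mem_image.1 hx
    obtain ⟨m, hm, h⟩ := Finset.mem_image.1 hy
    have h1 := congrArg nr h
    rw [nr_star] at h1
    have h2 := hinj m hm l hl h1
    rw [h2] at h
    exact pp_ne_star (hA.pr l hl) (adm_one hA hl) h.symm

lemma tE_prod (hA : Adm D a S) (t : {l : ℕ // l ∈ S} → ZMod 3) :
    ∏ x : {x : Ei // x ∈ SE S}, x.1 ^ (tE t x).val = ∏ i, ((i.1 : ℕ) : Ei) ^ (t i).val := by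
  classical
  set f : ℕ → ℕ := fun n => if h : n ∈ S then (t ⟨n, h⟩).val else 0 with hf
  have h1 := prod_SE hA f
  rw [← Finset.prod_coe_sort (SE S) (fun x => x ^ f (nr x).natAbs),
    ← Finset.prod_coe_sort S (fun l => (l : Ei) ^ f l)] at h1
  have h2 : ∏ x : {x : Ei // x ∈ SE S}, x.1 ^ (tE t x).val =
      ∏ x : {x : Ei // x ∈ SE S}, x.1 ^ f (nr x.1).natAbs := by
    refine Finset.prod_congr rfl fun x _ => ?_
    unfold tE
    rw [hf]
    have h3 := (SE_nr hA x.2).1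
    simp only [dif_pos h3]
  have h3 : ∏ i : {l : ℕ // l ∈ S}, ((i.1 : ℕ) : Ei) ^ (t i).val =
      ∏ i : {l : ℕ // l ∈ S}, (i.1 : Ei) ^ f i.1 := by
    refine Finset.prod_congr rfl fun i _ => ?_
    rw [hf]
    simp only [dif_pos i.2]
  rw [h2, h3]
  exact h1

lemma tE_ne (hA : Adm D a S) {t : {l : ℕ // l ∈ S} → ZMod 3} (ht : ∃ i, t i ≠ 0) :
    ∃ x, tE t x ≠ 0 := by
  obtain ⟨i, hi⟩ := ht
  have h1 : pp i.1 ∈ SE S := mem_SE.2 ⟨i.1, i.2, Or.inl rfl⟩
  refine ⟨⟨pp i.1, h1⟩, ?_⟩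
  unfold tE
  have h2 : (nr (pp i.1)).natAbs = i.1 := by
    rw [(pp_spec (hA.pr i.1 i.2) (adm_one hA i.2)).2]
    exact Int.natAbs_natCast _
  have h3 : (nr (pp i.1)).natAbs ∈ S := by rw [h2]; exact i.2
  rw [dif_pos h3]
  have h4 : (⟨(nr (pp i.1)).natAbs, h3⟩ : {l : ℕ // l ∈ S}) = i := Subtype.ext h2
  rw [h4]
  exact hi

end exps

section tower

variable {K : Type} [Field K] [NumberField K] (j : Ei ≃+* 𝓞 K)

lemma jnat (n : ℕ) : ((j (n : Ei) : 𝓞 K) : K) = (n : K) := by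
  rw [map_natCast]
  push_cast
  rfl

include j in
theorem towerK {D : ℕ} (hC : Cls D) (hN : NoSplit D) {a : ℕ → ℕ} {S : Finset ℕ} (hA : Adm D a S)
    {F : Type} [Field F] [NumberField F] [Algebra K F] (x : ℕ → F)
    (hx : ∀ l ∈ S, x l ^ 3 = (l : F))
    (hgen : ∀ L : Subfield F, (∀ k : K, algebraMap K F k ∈ L) → (∀ l ∈ S, x l ∈ L) → L = ⊤) :
    Module.finrank K F = 3 ^ S.card ∧
    Finite (ED ((D : ℕ) : F)).toAffine.Point ∧
    ∀ (k : ℕ) (y : Sha (ED ((D : ℕ) : F))), 3 ^ k • y = 0 → 3 ^ S.card • y = 0 := by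
  classical
  obtain ⟨n, π, e, hD, hDp⟩ := Pool.Agent.Y274.CT.t_exi D hC.1
  have hne : Nonempty (Fin n) := by
    have hcnt := Pool.Agent.Y274.CT.t_cnt D hC (Fin n) π e hD hDp
    rw [Fintype.card_fin] at hcnt
    exact ⟨⟨0, by
      have h1 : 0 < D.primeFactors.card := by
        rw [Finset.card_pos]
        obtain ⟨hB, -, -, q, hq, -, hqD, -⟩ := hC
        exact ⟨q, Nat.mem_primeFactors.2 ⟨hq, hqD, hB.1⟩⟩
      omega⟩⟩
  have hk : Ker π e := Pool.Agent.Y405.CT.cri Pool.Agent.Y350.CT.rec D hC hN (Fin n) π e hD hDp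
  have h9 := Pool.Agent.Y703.CT.nr_nine hC hDp
  have hL := leafQ hD hDp hC.1.2.1 hA
  have hω := om_K j
  obtain ⟨hfd, hgal⟩ := gal3 (F := F) hω (I := {l : ℕ // l ∈ S}) (fun i => ((i.1 : ℕ) : K))
    (fun i => x i.1) (fun i => by rw [hx i.1 i.2, map_natCast])
    (fun L h1 h2 => hgen L h1 fun l hl => h2 ⟨l, hl⟩)
  have hcard : Fintype.card {l : ℕ // l ∈ S} = S.card := Fintype.card_coe S
  have hl0 : ∀ i : {l : ℕ // l ∈ S}, ((i.1 : ℕ) : K) ≠ 0 := fun i =>
    Nat.cast_ne_zero.2 (hA.pr _ i.2).ne_zero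
  have hD0 : ((D : ℕ) : K) ≠ 0 := Nat.cast_ne_zero.2 hC.1.1
  have hcub : ∀ i : {l : ℕ // l ∈ S}, x i.1 ^ 3 = algebraMap K F ((i.1 : ℕ) : K) := fun i => by
    rw [hx i.1 i.2, map_natCast]
  have htw : ∀ t : {l : ℕ // l ∈ S} → ZMod 3,
      ((j ((D : Ei) * ∏ i, ((i.1 : ℕ) : Ei) ^ (t i).val) : 𝓞 K) : K) =
      ((D : ℕ) : K) * ∏ i, ((i.1 : ℕ) : K) ^ (t i).val := by
    intro t
    rw [map_mul, map_prod]
    push_cast
    rw [map_natCast]
    push_cast
    congr 1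
    refine Finset.prod_congr rfl fun i _ => ?_
    rw [map_pow, map_natCast]
    push_cast
    rfl
  have hbase : ∀ t : {l : ℕ // l ∈ S} → ZMod 3,
      Finite (ED (((D : ℕ) : K) * ∏ i, ((i.1 : ℕ) : K) ^ (t i).val)).toAffine.Point ∧
      ∀ (n : ℕ) (y : Sha (ED (((D : ℕ) : K) * ∏ i, ((i.1 : ℕ) : K) ^ (t i).val))),
        3 ^ n • y = 0 → y = 0 := by
    intro t
    have hDt := leaf_dt hD hL (tE t)
    have hKt := leaf_ker hD hk hL (tE t)
    have h9t := leaf_nine hL h9 (tE t)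
    have hpD := leaf_pD (π := π) (e := e) (tE t)
    rw [tE_prod hA] at hpD
    have hne0 : pD (πL π (tE t)) (eL e (tE t)) ≠ 0 := Pool.Agent.Y153.CTRAM.ne_zero_of hDt
    rw [← htw]
    have hsgn : ((D : Ei) * ∏ i, ((i.1 : ℕ) : Ei) ^ (t i).val) =
        pD (πL π (tE t)) (eL e (tE t)) ∨
        ((D : Ei) * ∏ i, ((i.1 : ℕ) : Ei) ^ (t i).val) = -pD (πL π (tE t)) (eL e (tE t)) := by
      rw [hpD]
      rcases hDp with h | h
      · left
        rw [h]
      · right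
        rw [h, neg_mul]
    have hne' : ((D : Ei) * ∏ i, ((i.1 : ℕ) : Ei) ^ (t i).val) ≠ 0 := by
      rcases hsgn with h | h
      · rw [h]
        exact hne0
      · rw [h]
        exact neg_ne_zero.2 hne0
    have hdesc : ∀ (i₀ : QB) (hi : i₀ ^ 2 + i₀ + 1 = 0) (u : QB) (b : GK i₀ → ZMod 3),
        Tw hi ((D : Ei) * ∏ i, ((i.1 : ℕ) : Ei) ^ (t i).val) u b → ShK hi b ∧ MwK hi b := by
      intro i₀ hi u b hT
      rcases hsgn with h | h
      · rw [h] at hT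
        exact descK hDt hKt h9t hT
      · rw [h] at hT
        exact descK hDt hKt h9t (tw_neg hT)
    exact ⟨(Pool.Agent.Y696.CTK.parts.mwt Pool.Agent.Y696.CTK.parts.trf K j _ hne'
        fun i₀ hi u b hT => (hdesc i₀ hi u b hT).2).1,
      Pool.Agent.Y696.CTK.parts.sht Pool.Agent.Y696.CTK.parts.trf K j _ hne'
        fun i₀ hi u b hT => (hdesc i₀ hi u b hT).1⟩
  have eD : algebraMap K F ((D : ℕ) : K) = ((D : ℕ) : F) := map_natCast _ _
  refine ⟨?_, ?_, ?_⟩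
  · have hind : ∀ b : {l : ℕ // l ∈ S} → ZMod 3, (∃ i, b i ≠ 0) →
        ¬ ∃ z : K, z ^ 3 = ∏ i, ((i.1 : ℕ) : K) ^ (b i).val := by
      rintro b hb ⟨z, hz⟩
      refine indK j hL.pq (tE b) (tE_ne hA hb) ⟨z, ?_⟩
      rw [hz]
      have h1 := congrArg (fun y : Ei => ((j y : 𝓞 K) : K)) (tE_prod hA b)
      simp only [map_prod, map_pow] at h1
      rw [h1]
      refine Finset.prod_congr rfl fun i _ => ?_
      rw [map_natCast]
      push_cast
      rfl
    have h1 := kummer3_card (K := F) hω three_ne_zero (fun i : {l : ℕ // l ∈ S} => x i.1)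
      (fun i => ((i.1 : ℕ) : K)) hl0 hcub hind (fun σ hσ => by
        have h5 := hgen (RingHom.eqLocusField (σ : F →+* F) (RingHom.id F))
          (fun y => σ.commutes y) (fun l hl => hσ ⟨l, hl⟩)
        ext y
        have h7 : y ∈ RingHom.eqLocusField (σ : F →+* F) (RingHom.id F) := by rw [h5]; trivial
        exact h7)
    rw [hcard] at h1
    rw [← h1]
    exact (IsGalois.card_aut_eq_finrank K F).symm
  · rw [← eD]
    exact pts hω (fun i : {l : ℕ // l ∈ S} => ((i.1 : ℕ) : K)) (fun i => x i.1) hl0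
      hcub (fun L h1 h2 => hgen L h1 fun l hl => h2 ⟨l, hl⟩) hD0 fun t => (hbase t).1
  · rw [← eD]
    intro k y hy
    have h1 := cubic hω (fun i : {l : ℕ // l ∈ S} => ((i.1 : ℕ) : K)) (fun i => x i.1) hl0
      hcub (fun L h1 h2 => hgen L h1 fun l hl => h2 ⟨l, hl⟩) hD0
      (fun t => (hbase t).2) k y hy
    rw [hcard] at h1
    exact h1

end tower

end Pool.Agent.R432.Q
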