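import Pool.Agent.R432.R2
import Pool.Agent.Y696.CTP.Shp

/-!
# The Tate-Shafarevich group of `y² + D y = x³` over a subfield of index two

(The proof is the one of helper696 and helper888 for `D = 1`, `Pool.Agent.Y696.CTP.Shp`.)
-/

set_option autoImplicit false
set_option linter.unusedSectionVars false

open scoped Classical

namespace Pool.Agent.R432.Q

open NumberField IsDedekindDomain WeierstrassCurve
open Pool.Agent.R432.C (ED)
open Pool.Agent.TH841.NF (tm tm_act act_tm tm_tm tm_id tm_inj coc_fin coc_of_fin aut_of_two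
  act_some' act_zero' pt_ext)
open Pool.Agent.TH841.SH.D (Pt act Gal Coch IsCoc IsCob LocTriv cob)
open Pool.Agent.TH841.NF.D (Sha IsShaCoc shaCoc)
open Pool.Agent.Y696.CTP (exists_sq exists_eFk two_cob)

section rest

variable {D : ℕ} {k F : Type} [Field k] [NumberField k] [Field F] [NumberField F]

variable (D k F) in
lemma sc1 {L L' : Type} [Field L] [Algebra k L] [Field L'] [Algebra F L'] (φ : L →+* L') :
    Pool.Agent.TH841.NF.Sc φ 1 ((ED ((D : ℕ) : k)).baseChange L) ((ED ((D : ℕ) : F)).baseChange L') := by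
  refine ⟨one_ne_zero, ?_, ?_, ?_, ?_, ?_⟩
  · show algebraMap F L' 0 = φ (algebraMap k L 0) * 1
    simp
  · show algebraMap F L' 0 = φ (algebraMap k L 0) * 1 ^ 2
    simp
  · show algebraMap F L' ((D : ℕ) : F) = φ (algebraMap k L ((D : ℕ) : k)) * 1 ^ 3
    simp
  · show algebraMap F L' 0 = φ (algebraMap k L 0) * 1 ^ 4
    simp
  · show algebraMap F L' 0 = φ (algebraMap k L 0) * 1 ^ 6
    simp

variable [Algebra k F] (e : AlgebraicClosure F ≃+* AlgebraicClosure k)
  (he : ∀ x : k, e (algebraMap F _ (algebraMap k F x)) = algebraMap k _ x)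

/-- the conjugate automorphism -/
noncomputable def cK (σ : Gal F) : Gal k :=
  { toFun := fun x => e (σ (e.symm x))
    invFun := fun x => e (σ.symm (e.symm x))
    left_inv := fun x => by simp
    right_inv := fun x => by simp
    map_mul' := fun x y => by simp
    map_add' := fun x y => by simp
    commutes' := fun x => by
      show e (σ (e.symm (algebraMap k _ x))) = _
      rw [← he, e.symm_apply_apply, σ.commutes] }

lemma cK_apply (σ : Gal F) (x : AlgebraicClosure k) : cK e he σ x = e (σ (e.symm x)) := rfl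

/-- the restriction of a cochain -/
noncomputable def rs (f : Coch (ED ((D : ℕ) : k))) : Coch (ED ((D : ℕ) : F)) := fun σ =>
  tm (sc1 D k F (e.symm : AlgebraicClosure k →+* AlgebraicClosure F)) (f (cK e he σ))

lemma rs_act (σ : Gal F) (P : Pt (ED ((D : ℕ) : k)) (AlgebraicClosure k)) :
    tm (sc1 D k F (e.symm : AlgebraicClosure k →+* AlgebraicClosure F))
      (act (ED ((D : ℕ) : k)) (cK e he σ).toAlgHom P) =
      act (ED ((D : ℕ) : F)) σ.toAlgHom
        (tm (sc1 D k F (e.symm : AlgebraicClosure k →+* AlgebraicClosure F)) P) := by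
  have S : Pool.Agent.TH841.NF.Sc ((e.symm : AlgebraicClosure k →+* AlgebraicClosure F).comp
      ((cK e he σ : AlgebraicClosure k ≃+* AlgebraicClosure k) :
        AlgebraicClosure k →+* AlgebraicClosure k)) 1
      ((ED ((D : ℕ) : k)).baseChange (AlgebraicClosure k))
      ((ED ((D : ℕ) : F)).baseChange (AlgebraicClosure F)) := sc1 D k F _
  rw [act_tm (cK e he σ).toAlgHom (sc1 D k F (e.symm : AlgebraicClosure k →+* AlgebraicClosure F)) S
    (fun x => rfl), tm_act _ σ.toAlgHom S (fun x => ?_) (map_one _).symm]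
  change σ (e.symm x) = e.symm (e (σ (e.symm x)))
  rw [RingEquiv.symm_apply_apply]

lemma rs_coc {f : Coch (ED ((D : ℕ) : k))} (hf : IsCoc (ED ((D : ℕ) : k)) f) :
    IsCoc (ED ((D : ℕ) : F)) (rs e he f) := by
  obtain ⟨S, hS⟩ := coc_fin hf
  refine coc_of_fin ?_ (S.image e.symm) ?_
  · intro σ τ
    have h1 : cK e he (σ * τ) = cK e he σ * cK e he τ := by
      refine AlgEquiv.ext fun x => ?_
      change e ((σ * τ) (e.symm x)) = e (σ (e.symm (e (τ (e.symm x)))))
      rw [RingEquiv.symm_apply_apply]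
      rfl
    unfold rs
    rw [h1, hf.2, map_add, rs_act]
  · intro σ hσ
    unfold rs
    rw [hS, map_zero]
    intro x hx
    change e (σ (e.symm x)) = x
    rw [hσ _ (Finset.mem_image_of_mem _ hx), RingEquiv.apply_symm_apply]

lemma rs_loc {K : Type} [Field K] [Algebra k K] {Fv : Type} [Field Fv] [Algebra F Fv]
    (θ : K →+* Fv) (hθ : ∀ x : k, θ (algebraMap k K x) = algebraMap F Fv (algebraMap k F x))
    {f : Coch (ED ((D : ℕ) : k))} (hf : LocTriv (ED ((D : ℕ) : k)) K f) :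
    LocTriv (ED ((D : ℕ) : F)) Fv (rs e he f) := by
  intro ι
  let i1 : Algebra K (AlgebraicClosure Fv) :=
    ((algebraMap Fv (AlgebraicClosure Fv)).comp θ).toAlgebra
  let θ' : AlgebraicClosure K →ₐ[K] AlgebraicClosure Fv := IsAlgClosed.lift
  have hθ' : ∀ y : K, θ' (algebraMap K _ y) = algebraMap Fv _ (θ y) := fun y => θ'.commutes y
  let ι₀ : AlgebraicClosure k →ₐ[k] AlgebraicClosure K := IsAlgClosed.lift
  obtain ⟨h₀, hh₀⟩ := aut_of_two
    ((θ' : AlgebraicClosure K →+* AlgebraicClosure Fv).comp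
      (ι₀ : AlgebraicClosure k →+* AlgebraicClosure K))
    ((ι : AlgebraicClosure F →+* AlgebraicClosure Fv).comp
      (e.symm : AlgebraicClosure k →+* AlgebraicClosure F)) (fun x => by
        change θ' (ι₀ (algebraMap k _ x)) = ι (e.symm (algebraMap k _ x))
        rw [← he, e.symm_apply_apply, ι.commutes, he, ι₀.commutes,
          IsScalarTower.algebraMap_apply k K (AlgebraicClosure K), hθ', hθ,
          ← IsScalarTower.algebraMap_apply F Fv (AlgebraicClosure Fv)])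
  let ι₁ : AlgebraicClosure k →ₐ[k] AlgebraicClosure K := ι₀.comp h₀.toAlgHom
  have hι : ∀ x, ι (e.symm x) = θ' (ι₁ x) := hh₀
  obtain ⟨P₀, hP₀⟩ := hf ι₁
  have S1 : Pool.Agent.TH841.NF.Sc (θ' : AlgebraicClosure K →+* AlgebraicClosure Fv) 1
    ((ED ((D : ℕ) : k)).baseChange (AlgebraicClosure K))
    ((ED ((D : ℕ) : F)).baseChange (AlgebraicClosure Fv)) := sc1 D k F _
  refine ⟨tm S1 P₀, fun τ σ hτ => ?_⟩
  obtain ⟨τ₀, hτ₀⟩ := aut_of_two (θ' : AlgebraicClosure K →+* AlgebraicClosure Fv)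
    (((τ : AlgebraicClosure Fv ≃+* AlgebraicClosure Fv) : AlgebraicClosure Fv →+*
      AlgebraicClosure Fv).comp (θ' : AlgebraicClosure K →+* AlgebraicClosure Fv)) (by
      intro y
      change θ' (algebraMap K _ y) = τ (θ' (algebraMap K _ y))
      rw [hθ', AlgEquiv.commutes])
  have hτ2 : ∀ x, τ (θ' x) = θ' (τ₀ x) := hτ₀
  have hcomp : ∀ x, τ₀ (ι₁ x) = ι₁ (cK e he σ x) := by
    intro x
    apply (θ' : AlgebraicClosure K →+* AlgebraicClosure Fv).injective
    change θ' (τ₀ (ι₁ x)) = θ' (ι₁ (cK e he σ x))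
    rw [← hτ2, ← hι, hτ, ← hι]
    change _ = ι (e.symm (e (σ (e.symm x))))
    rw [RingEquiv.symm_apply_apply]
  have h1 := hP₀ τ₀ (cK e he σ) hcomp
  have S2 : Pool.Agent.TH841.NF.Sc ((ι : AlgebraicClosure F →+* AlgebraicClosure Fv).comp
      (e.symm : AlgebraicClosure k →+* AlgebraicClosure F)) 1
    ((ED ((D : ℕ) : k)).baseChange (AlgebraicClosure k))
    ((ED ((D : ℕ) : F)).baseChange (AlgebraicClosure Fv)) := sc1 D k F _
  have h2 : act (ED ((D : ℕ) : F)) ι (rs e he f σ) = tm S2 (f (cK e he σ)) :=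
    tm_act _ ι S2 (fun x => rfl) (map_one ι).symm _
  have h3 : tm S2 (f (cK e he σ)) = tm S1 (act (ED ((D : ℕ) : k)) ι₁ (f (cK e he σ))) :=
    (act_tm ι₁ S1 S2 (fun x => (hι x).symm) _).symm
  rw [h2, h3, h1, map_sub]
  congr 1
  have S3 : Pool.Agent.TH841.NF.Sc (((τ : AlgebraicClosure Fv ≃+* AlgebraicClosure Fv) : AlgebraicClosure Fv →+*
      AlgebraicClosure Fv).comp (θ' : AlgebraicClosure K →+* AlgebraicClosure Fv)) 1
      ((ED ((D : ℕ) : k)).baseChange (AlgebraicClosure K))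
      ((ED ((D : ℕ) : F)).baseChange (AlgebraicClosure Fv)) := sc1 D k F _
  have h4 : tm S1 (act (ED ((D : ℕ) : k)) (τ₀.toAlgHom.restrictScalars k) P₀) = tm S3 P₀ :=
    act_tm _ S1 S3 (fun x => (hτ2 x).symm) _
  have h5 : act (ED ((D : ℕ) : F)) (τ.toAlgHom.restrictScalars F) (tm S1 P₀) = tm S3 P₀ :=
    tm_act _ (τ.toAlgHom.restrictScalars F) S3 (fun x => rfl) (map_one _).symm _
  rw [h4, h5]

lemma rs_sha {f : Coch (ED ((D : ℕ) : k))} (hf : IsShaCoc (ED ((D : ℕ) : k)) f) :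
    IsShaCoc (ED ((D : ℕ) : F)) (rs e he f) := by
  refine ⟨rs_coc e he hf.1, fun v => ?_, fun v => ?_⟩
  · exact rs_loc e he (Pool.Agent.Y698.jx k v) (Pool.Agent.Y698.jx_coe k v) (hf.2.1 _)
  · have : v.LiesOver (v.comap (algebraMap k F)) := ⟨rfl⟩
    refine rs_loc e he (NumberField.LiesOver.completionMap (v := v.comap (algebraMap k F)) (w := v))
      (fun x => ?_) (hf.2.2 _)
    exact NumberField.LiesOver.completionMap_coe _

lemma rs_add (f f' : Coch (ED ((D : ℕ) : k))) : rs e he (f + f') = rs e he f + rs e he f' := by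
  funext σ
  exact map_add _ _ _

/-- the homomorphism on the cocycles -/
noncomputable def rsC : shaCoc (ED ((D : ℕ) : k)) →+ shaCoc (ED ((D : ℕ) : F)) where
  toFun f := ⟨rs e he f.1, rs_sha e he f.2⟩
  map_zero' := by
    apply Subtype.ext
    have h := rs_add (D := D) e he 0 0
    rw [add_zero] at h
    exact left_eq_add.1 h
  map_add' f g := Subtype.ext (rs_add e he f.1 g.1)

/-- an automorphism that fixes `F` comes from `F` -/
lemma exists_cK (σ : Gal k) (hσ : ∀ x : F, σ (e (algebraMap F _ x)) = e (algebraMap F _ x)) :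
    ∃ σ' : Gal F, cK e he σ' = σ := by
  refine ⟨{ toFun := fun x => e.symm (σ (e x))
            invFun := fun x => e.symm (σ.symm (e x))
            left_inv := fun x => by simp
            right_inv := fun x => by simp
            map_mul' := fun x y => by simp
            map_add' := fun x y => by simp
            commutes' := fun x => ?_ }, ?_⟩
  · show e.symm (σ (e (algebraMap F _ x))) = _
    rw [hσ, e.symm_apply_apply]
  · refine AlgEquiv.ext fun x => ?_
    show e (e.symm (σ (e (e.symm x)))) = σ x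
    rw [e.apply_symm_apply, e.apply_symm_apply]

lemma rs_inv {f : Coch (ED ((D : ℕ) : k))} {P : Pt (ED ((D : ℕ) : F)) (AlgebraicClosure F)} {m : ℕ}
    (h : ∀ σ' : Gal F, m • rs e he f σ' = act (ED ((D : ℕ) : F)) σ'.toAlgHom P - P) (σ : Gal k)
    (hσ : ∀ x : F, σ (e (algebraMap F _ x)) = e (algebraMap F _ x)) :
    m • f σ = act (ED ((D : ℕ) : k)) σ.toAlgHom
      (tm (sc1 D F k (e : AlgebraicClosure F →+* AlgebraicClosure k)) P) -
      tm (sc1 D F k (e : AlgebraicClosure F →+* AlgebraicClosure k)) P := by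
  obtain ⟨σ', rfl⟩ := exists_cK e he σ hσ
  apply tm_inj (sc1 D k F (e.symm : AlgebraicClosure k →+* AlgebraicClosure F))
  have h1 : tm (sc1 D k F (e.symm : AlgebraicClosure k →+* AlgebraicClosure F))
      (tm (sc1 D F k (e : AlgebraicClosure F →+* AlgebraicClosure k)) P) = P := by
    rw [tm_tm _ _ (sc1 D F F (RingHom.id _)) (fun x => e.symm_apply_apply x) (by
      rw [map_one, mul_one]), tm_id _ (fun x => rfl) rfl]
  rw [map_sub, rs_act, h1, map_nsmul]
  exact h σ'

end rest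

section two

variable {k F : Type} [Field k] [NumberField k] [Field F] [NumberField F] [Algebra k F]

/-- the Tate-Shafarevich group over a subfield of index two -/
theorem shpD (D M : ℕ) (hd : Module.finrank k F = 2)
    (hS : ∀ (n : ℕ) (x : Sha (ED ((D : ℕ) : F))), 3 ^ n • x = 0 → 3 ^ M • x = 0)
    (n : ℕ) (x : Sha (ED ((D : ℕ) : k))) (hx : 3 ^ n • x = 0) : 3 ^ M • x = 0 := by
  obtain ⟨e, he⟩ := exists_eFk hd
  obtain ⟨t, d, htd, hall⟩ := exists_sq hd
  obtain ⟨f, rfl⟩ := QuotientAddGroup.mk_surjective x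
  have hx1 : (QuotientAddGroup.mk ((3 ^ n : ℕ) • f) :
      shaCoc (ED ((D : ℕ) : k)) ⧸ (cob (ED ((D : ℕ) : k))).addSubgroupOf (shaCoc (ED ((D : ℕ) : k)))) = 0 := hx
  rw [QuotientAddGroup.eq_zero_iff, AddSubgroup.mem_addSubgroupOf] at hx1
  obtain ⟨P, hP⟩ := hx1
  have hP' : ∀ σ, 3 ^ n • f.1 σ = act (ED ((D : ℕ) : k)) σ.toAlgHom P - P := hP
  have hy : 3 ^ n • (QuotientAddGroup.mk (rsC e he f) : Sha (ED ((D : ℕ) : F))) = 0 := by
    have h1 : (QuotientAddGroup.mk ((3 ^ n : ℕ) • rsC e he f) :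
        shaCoc (ED ((D : ℕ) : F)) ⧸ (cob (ED ((D : ℕ) : F))).addSubgroupOf (shaCoc (ED ((D : ℕ) : F)))) = 0 := by
      rw [QuotientAddGroup.eq_zero_iff, AddSubgroup.mem_addSubgroupOf]
      refine ⟨tm (sc1 D k F (e.symm : AlgebraicClosure k →+* AlgebraicClosure F)) P, fun σ => ?_⟩
      show 3 ^ n • rs e he f.1 σ = _
      unfold rs
      rw [← map_nsmul, hP', map_sub, rs_act]
    exact h1
  have hy3 := hS n _ hy
  have hy4 : (QuotientAddGroup.mk ((3 ^ M : ℕ) • rsC e he f) :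
      shaCoc (ED ((D : ℕ) : F)) ⧸ (cob (ED ((D : ℕ) : F))).addSubgroupOf (shaCoc (ED ((D : ℕ) : F)))) = 0 := hy3
  rw [QuotientAddGroup.eq_zero_iff, AddSubgroup.mem_addSubgroupOf] at hy4
  obtain ⟨R, hR⟩ := hy4
  have hR' : ∀ σ' : Gal F, 3 ^ M • rs e he f.1 σ' = act (ED ((D : ℕ) : F)) σ'.toAlgHom R - R := hR
  have key := rs_inv e he hR'
  obtain ⟨R', hR''⟩ : ∃ R', R' = tm (sc1 D F k (e : AlgebraicClosure F →+* AlgebraicClosure k)) R :=
    ⟨_, rfl⟩
  rw [← hR''] at key
  obtain ⟨u, hu⟩ : ∃ u : AlgebraicClosure k, u = e (algebraMap F _ t) := ⟨_, rfl⟩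
  have hu2 : u ^ 2 = algebraMap k _ d := by
    rw [hu, ← map_pow, ← map_pow, htd, he]
  have hsu : ∀ σ : Gal k, σ u = u ∨ σ u = -u := by
    intro σ
    apply sq_eq_sq_iff_eq_or_eq_neg.1
    rw [← map_pow, hu2, σ.commutes]
  have hfix : ∀ σ : Gal k, σ u = u → ∀ x : F, σ (e (algebraMap F _ x)) = e (algebraMap F _ x) := by
    intro σ hσ x
    obtain ⟨a, b, rfl⟩ := hall x
    rw [map_add, map_add, map_mul, map_mul, map_add, map_mul, he, he, ← hu, σ.commutes,
      σ.commutes, hσ]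
  obtain ⟨Q, hQ⟩ := two_cob (G := Gal k) (M := Pt (ED ((D : ℕ) : k)) (AlgebraicClosure k))
    (fun σ => act (ED ((D : ℕ) : k)) σ.toAlgHom)
    (fun σ => 3 ^ M • f.1 σ - (act (ED ((D : ℕ) : k)) σ.toAlgHom R' - R')) (by
      intro σ τ
      show 3 ^ M • f.1 (σ * τ) - _ = _
      rw [f.2.1.2, map_sub, map_sub, map_nsmul, smul_add]
      have h1 : act (ED ((D : ℕ) : k)) (σ * τ).toAlgHom R' =
          act (ED ((D : ℕ) : k)) σ.toAlgHom (act (ED ((D : ℕ) : k)) τ.toAlgHom R') := by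
        rcases R' with _ | ⟨x, y, h⟩
        · rfl
        · rfl
      rw [h1]
      abel) (fun σ => σ u = u) (by
      intro σ hσ
      show 3 ^ M • f.1 σ - _ = 0
      rw [key σ (hfix σ hσ), sub_self]) (by
      intro σ τ hσ hτ
      have h1 := (hsu σ).resolve_left hσ
      have h2 := (hsu τ).resolve_left hτ
      show σ.symm (τ u) = u
      rw [AlgEquiv.symm_apply_eq, h1, h2]) (by
      intro σ τ hσ hτ
      have h1 := (hsu σ).resolve_left hσ
      have h2 := (hsu τ).resolve_left hτ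
      show σ (τ u) = u
      rw [h2, map_neg, h1, neg_neg]) (by
      intro σ τ hσ hτ h
      have h2 := (hsu τ).resolve_left hτ
      have h3 : σ (τ u) = u := h
      rw [h2, map_neg, hσ] at h3
      exact hτ (by rw [h2]; exact h3))
  have h6 : (QuotientAddGroup.mk ((2 * 3 ^ M : ℕ) • f) :
      shaCoc (ED ((D : ℕ) : k)) ⧸ (cob (ED ((D : ℕ) : k))).addSubgroupOf (shaCoc (ED ((D : ℕ) : k)))) = 0 := by
    rw [QuotientAddGroup.eq_zero_iff, AddSubgroup.mem_addSubgroupOf]
    refine ⟨(2 : ℕ) • R' + Q, fun σ => ?_⟩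
    show (2 * 3 ^ M : ℕ) • f.1 σ = _
    have h1 := hQ σ
    have h2 : (2 : ℕ) • (3 ^ M • f.1 σ - (act (ED ((D : ℕ) : k)) σ.toAlgHom R' - R')) =
      act (ED ((D : ℕ) : k)) σ.toAlgHom Q - Q := h1
    rw [smul_sub, ← mul_smul, sub_eq_iff_eq_add] at h2
    rw [h2, map_add, map_nsmul, smul_sub]
    abel
  have h6' : (2 * 3 ^ M : ℕ) • (QuotientAddGroup.mk f : Sha (ED ((D : ℕ) : k))) = 0 := h6
  have hx' : (3 ^ n : ℕ) • (QuotientAddGroup.mk f : Sha (ED ((D : ℕ) : k))) = 0 := hx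
  show (3 ^ M : ℕ) • (QuotientAddGroup.mk f : Sha (ED ((D : ℕ) : k))) = 0
  generalize (QuotientAddGroup.mk f : Sha (ED ((D : ℕ) : k))) = y at h6' hx'
  rcases le_total n M with hnM | hnM
  · obtain ⟨c, rfl⟩ := Nat.exists_eq_add_of_le hnM
    rw [pow_add, mul_comm, mul_smul, hx', smul_zero]
  · obtain ⟨c, rfl⟩ := Nat.exists_eq_add_of_le hnM
    obtain ⟨m, hm⟩ : ∃ m, 3 ^ c = 2 * m + 1 := (Odd.pow (by decide : Odd 3))
    have h8 : (3 ^ (M + c) : ℕ) = m * (2 * 3 ^ M) + 3 ^ M := by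
      rw [pow_add, hm]
      ring
    rw [h8, add_smul, mul_smul, h6', smul_zero, zero_add] at hx'
    exact hx'

end two

end Pool.Agent.R432.Q
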