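import Pool.Agent.Y682.Rst

/-!
# Corestriction for a quadratic extension of number fields, with the quadratic character

The relative version of `TH841.NF`: `F = k(√d)` is a quadratic extension of a number field `k`, `E` an
elliptic curve over `k`.  An element of `Ш(E/F)` is mapped to `Ш(E/k)` and to `Ш(E'/k)`, where `E'` is the
quadratic twist of `E` by `d`, and the two images determine twice the element.
-/

set_option autoImplicit false
set_option linter.unusedSectionVars false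

attribute [-instance] DivisionRing.toRatAlgebra

namespace Pool.Agent.R432.RB

open WeierstrassCurve NumberField IsDedekindDomain

open Pool.Agent.TH841.NF (Sc tm act_tm tm_act tm_neg tm_tm tm_id tm_inj act_act act_id aL Loc cor
  cor_coc cor_cob cor_add cor_zero_of cor_loc sum_cor sec sec_spec sec_one coc_fin coc_of_fin
  aut_of_two place_p place_r mem_H)

open Pool.Agent.TH841.SH.D (Pt act Gal Coch IsCoc IsCob LocTriv cob)

/-- the quadratic twist (for `a₁ = a₃ = 0`) -/
def twk {k : Type} [Field k] (d : k) (E : WeierstrassCurve k) : WeierstrassCurve k :=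
  ⟨0, d * E.a₂, 0, d ^ 2 * E.a₄, d ^ 3 * E.a₆⟩

lemma twk_one {k : Type} [Field k] {E : WeierstrassCurve k} (E1 : E.a₁ = 0) (E3 : E.a₃ = 0) :
    twk 1 E = E := by
  apply WeierstrassCurve.ext
  · exact E1.symm
  · change 1 * E.a₂ = _
    rw [one_mul]
  · exact E3.symm
  · change 1 ^ 2 * E.a₄ = _
    rw [one_pow, one_mul]
  · change 1 ^ 3 * E.a₆ = _
    rw [one_pow, one_mul]

section sc

variable {k F : Type} [Field k] [Field F] [Algebra k F] {E : WeierstrassCurve k}
  {W : WeierstrassCurve F} (hW : Sc (algebraMap k F) 1 E W) (E1 : E.a₁ = 0) (E3 : E.a₃ = 0)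

include hW in
lemma sc_an {L L' : Type} [Field L] [Algebra F L] [Field L'] [Algebra k L'] (φ : L →+* L')
    (hφ : ∀ x : k, φ (algebraMap F L (algebraMap k F x)) = algebraMap k L' x) :
    Sc φ 1 (W.baseChange L) (E.baseChange L') := by
  refine ⟨one_ne_zero, ?_, ?_, ?_, ?_, ?_⟩
  · change algebraMap k L' E.a₁ = φ (algebraMap F L W.a₁) * 1
    rw [← hφ, hW.h1, mul_one, mul_one]
  · change algebraMap k L' E.a₂ = φ (algebraMap F L W.a₂) * 1 ^ 2
    rw [← hφ, hW.h2, one_pow, one_pow, mul_one, mul_one]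
  · change algebraMap k L' E.a₃ = φ (algebraMap F L W.a₃) * 1 ^ 3
    rw [← hφ, hW.h3, one_pow, one_pow, mul_one, mul_one]
  · change algebraMap k L' E.a₄ = φ (algebraMap F L W.a₄) * 1 ^ 4
    rw [← hφ, hW.h4, one_pow, one_pow, mul_one, mul_one]
  · change algebraMap k L' E.a₆ = φ (algebraMap F L W.a₆) * 1 ^ 6
    rw [← hφ, hW.h6, one_pow, one_pow, mul_one, mul_one]

include hW in
lemma sc_an' {L L' : Type} [Field L] [Algebra F L] [Field L'] [Algebra k L'] (φ : L' →+* L)
    (hφ : ∀ x : k, φ (algebraMap k L' x) = algebraMap F L (algebraMap k F x)) :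
    Sc φ 1 (E.baseChange L') (W.baseChange L) := by
  refine ⟨one_ne_zero, ?_, ?_, ?_, ?_, ?_⟩
  · change algebraMap F L W.a₁ = φ (algebraMap k L' E.a₁) * 1
    rw [hφ, hW.h1, mul_one, mul_one]
  · change algebraMap F L W.a₂ = φ (algebraMap k L' E.a₂) * 1 ^ 2
    rw [hφ, hW.h2, one_pow, one_pow, mul_one, mul_one]
  · change algebraMap F L W.a₃ = φ (algebraMap k L' E.a₃) * 1 ^ 3
    rw [hφ, hW.h3, one_pow, one_pow, mul_one, mul_one]
  · change algebraMap F L W.a₄ = φ (algebraMap k L' E.a₄) * 1 ^ 4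
    rw [hφ, hW.h4, one_pow, one_pow, mul_one, mul_one]
  · change algebraMap F L W.a₆ = φ (algebraMap k L' E.a₆) * 1 ^ 6
    rw [hφ, hW.h6, one_pow, one_pow, mul_one, mul_one]

include E1 E3 in
/-- the scaling map to the twist -/
lemma sc_twk {L L' : Type} [Field L] [Algebra k L] [Field L'] [Algebra k L'] (φ : L →+* L')
    (hφ : ∀ x : k, φ (algebraMap k L x) = algebraMap k L' x)
    {d : k} {u : L'} (hu : u ^ 2 = algebraMap k L' d) (h0 : u ≠ 0) :
    Sc φ u (E.baseChange L) ((twk d E).baseChange L') := by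
  refine ⟨h0, ?_, ?_, ?_, ?_, ?_⟩
  · change algebraMap k L' 0 = φ (algebraMap k L E.a₁) * u
    rw [E1, map_zero, map_zero, map_zero, zero_mul]
  · change algebraMap k L' (d * E.a₂) = φ (algebraMap k L E.a₂) * u ^ 2
    rw [map_mul, hφ, ← hu]; ring
  · change algebraMap k L' 0 = φ (algebraMap k L E.a₃) * u ^ 3
    rw [E3, map_zero, map_zero, map_zero, zero_mul]
  · change algebraMap k L' (d ^ 2 * E.a₄) = φ (algebraMap k L E.a₄) * u ^ 4
    rw [map_mul, hφ, map_pow, ← hu]; ring
  · change algebraMap k L' (d ^ 3 * E.a₆) = φ (algebraMap k L E.a₆) * u ^ 6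
    rw [map_mul, hφ, map_pow, ← hu]; ring

include E1 E3 in
/-- the inverse -/
lemma sc_twk' {L L' : Type} [Field L] [Algebra k L] [Field L'] [Algebra k L'] (φ : L →+* L')
    (hφ : ∀ x : k, φ (algebraMap k L x) = algebraMap k L' x)
    {d : k} {u : L'} (hu : u ^ 2 = algebraMap k L' d) (h0 : u ≠ 0) :
    Sc φ u⁻¹ ((twk d E).baseChange L) (E.baseChange L') := by
  refine ⟨inv_ne_zero h0, ?_, ?_, ?_, ?_, ?_⟩
  · change algebraMap k L' E.a₁ = φ (algebraMap k L 0) * u⁻¹
    rw [E1, map_zero, map_zero, map_zero, zero_mul]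
  · change algebraMap k L' E.a₂ = φ (algebraMap k L (d * E.a₂)) * u⁻¹ ^ 2
    rw [hφ, map_mul, ← hu]; field_simp
  · change algebraMap k L' E.a₃ = φ (algebraMap k L 0) * u⁻¹ ^ 3
    rw [E3, map_zero, map_zero, map_zero, zero_mul]
  · change algebraMap k L' E.a₄ = φ (algebraMap k L (d ^ 2 * E.a₄)) * u⁻¹ ^ 4
    rw [hφ, map_mul, map_pow, ← hu]; field_simp
  · change algebraMap k L' E.a₆ = φ (algebraMap k L (d ^ 3 * E.a₆)) * u⁻¹ ^ 6
    rw [hφ, map_mul, map_pow, ← hu]; field_simp

end sc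

section act

variable {k : Type} [Field k] (E : WeierstrassCurve k)

/-- the Galois action on the points over the algebraic closure -/
noncomputable def aK : Gal k →* AddMonoid.End (Pt E (AlgebraicClosure k)) where
  toFun τ := act E τ.toAlgHom
  map_one' := by
    refine AddMonoidHom.ext fun P => ?_
    exact act_id E (1 : Gal k).toAlgHom (fun x => rfl) P
  map_mul' σ τ := by
    refine AddMonoidHom.ext fun P => ?_
    exact (act_act E σ.toAlgHom τ.toAlgHom P).symm

/-- the local data -/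
noncomputable def locK (K : Type) [Field K] [Algebra k K] :
    Loc (Gal k) (Pt E (AlgebraicClosure k)) (AlgebraicClosure k →ₐ[k] AlgebraicClosure K) (Gal K)
      (Pt E (AlgebraicClosure K)) where
  a := aK E
  b := aL E K
  lc τ j := (τ.toAlgHom.restrictScalars k).comp j
  rc j g := j.comp g.toAlgHom
  st j := act E j
  lc_mul _ _ _ := rfl
  lc_one _ := rfl
  rc_mul _ _ _ := rfl
  rc_one _ := rfl
  comm _ _ _ := rfl
  st_l _ _ x := (act_act E _ _ x).symm
  st_r _ _ x := (act_act E _ _ x).symm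

end act

section chi

variable {k : Type} [Field k] [CharZero k] {d : k} {ρ : AlgebraicClosure k}
  (hρ : ρ ^ 2 = algebraMap k (AlgebraicClosure k) d) (h0 : ρ ≠ 0)

include hρ in
lemma pm (σ : Gal k) : σ ρ = ρ ∨ σ ρ = -ρ := by
  have h1 : σ (algebraMap k (AlgebraicClosure k) d) = algebraMap k (AlgebraicClosure k) d :=
    AlgEquiv.commutes σ d
  have h : (σ ρ) ^ 2 = ρ ^ 2 := by rw [← map_pow, hρ, h1]
  exact sq_eq_sq_iff_eq_or_eq_neg.1 h

open Classical in
/-- the sign -/
noncomputable def sg (ρ : AlgebraicClosure k) (σ : Gal k) : ℤˣ := if σ ρ = ρ then 1 else -1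

lemma sg_pos {σ : Gal k} (h : σ ρ = ρ) : sg ρ σ = 1 := if_pos h

include h0 in
lemma sg_neg {σ : Gal k} (h : σ ρ = -ρ) : sg ρ σ = -1 := by
  have hcz : CharZero (AlgebraicClosure k) := charZero_of_injective_algebraMap
    (algebraMap k (AlgebraicClosure k)).injective
  apply if_neg
  intro h'
  apply h0
  have : (2 : AlgebraicClosure k) * ρ = 0 := by linear_combination (h - h')
  exact (mul_eq_zero.1 this).resolve_left two_ne_zero

/-- the quadratic character -/
noncomputable def chi : Gal k →* ℤˣ where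
  toFun σ := sg ρ σ
  map_one' := sg_pos rfl
  map_mul' σ τ := by
    have e : (σ * τ) ρ = σ (τ ρ) := rfl
    rcases pm hρ σ with h1 | h1 <;> rcases pm hρ τ with h2 | h2
    · rw [sg_pos h1, sg_pos h2, sg_pos (by rw [e, h2, h1]), one_mul]
    · rw [sg_pos h1, sg_neg h0 h2, sg_neg h0 (by rw [e, h2, map_neg, h1]), one_mul]
    · rw [sg_neg h0 h1, sg_pos h2, sg_neg h0 (by rw [e, h2, h1]), mul_one]
    · rw [sg_neg h0 h1, sg_neg h0 h2, sg_pos (by rw [e, h2, map_neg, h1, neg_neg])]
      rfl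

lemma chi_spec (σ : Gal k) : σ ρ = (((chi hρ h0 σ : ℤˣ) : ℤ) : AlgebraicClosure k) * ρ := by
  change σ ρ = (((sg ρ σ : ℤˣ) : ℤ) : AlgebraicClosure k) * ρ
  rcases pm hρ σ with h1 | h1
  · rw [sg_pos h1, h1]; simp
  · rw [sg_neg h0 h1, h1]; simp

lemma chi_one_iff (σ : Gal k) : chi hρ h0 σ = 1 ↔ σ ρ = ρ := by
  change sg ρ σ = 1 ↔ _
  constructor
  · intro h
    rcases pm hρ σ with h1 | h1
    · exact h1
    · rw [sg_neg h0 h1] at h
      exact absurd h (by decide)
  · intro h
    exact sg_pos h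

/-- the two characters, with the square root -/
noncomputable def chB (b : Bool) : Gal k →* ℤ :=
  if b then (Units.coeHom ℤ).comp (chi hρ h0) else 1

/-- the square roots for the two characters -/
noncomputable def uB (ρ : AlgebraicClosure k) (b : Bool) : AlgebraicClosure k := if b then ρ else 1

/-- the squares of the square roots -/
def dB (d : k) (b : Bool) : k := if b then d else 1

include hρ in
lemma uB_sq (b : Bool) : uB ρ b ^ 2 = algebraMap k (AlgebraicClosure k) (dB d b) := by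
  cases b
  · change (1 : AlgebraicClosure k) ^ 2 = algebraMap k _ 1
    rw [one_pow, map_one]
  · exact hρ

include h0 in
lemma uB_ne (b : Bool) : uB ρ b ≠ 0 := by
  cases b
  · exact one_ne_zero
  · exact h0

lemma chB_pm (b : Bool) (σ : Gal k) : chB hρ h0 b σ = 1 ∨ chB hρ h0 b σ = -1 := by
  cases b
  · exact Or.inl rfl
  · exact Int.isUnit_iff.1 (Units.isUnit _)

lemma chB_spec (b : Bool) (σ : Gal k) :
    σ (uB ρ b) = ((chB hρ h0 b σ : ℤ) : AlgebraicClosure k) * uB ρ b := by
  cases b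
  · change σ 1 = ((1 : ℤ) : AlgebraicClosure k) * 1
    rw [map_one, Int.cast_one, one_mul]
  · exact chi_spec hρ h0 σ

/-- the subgroup -/
noncomputable abbrev HB : Subgroup (Gal k) := (chi hρ h0).ker

lemma mem_HB (σ : Gal k) : σ ∈ HB hρ h0 ↔ σ ρ = ρ :=
  (MonoidHom.mem_ker).trans (chi_one_iff hρ h0 σ)

noncomputable instance : Fintype (Gal k ⧸ HB hρ h0) := Subgroup.fintypeQuotientOfFiniteIndex

lemma chB_H (b : Bool) : ∀ h ∈ HB hρ h0, chB hρ h0 b h = 1 := by
  intro h hh
  cases b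
  · rfl
  · have h1 : chi hρ h0 h = 1 := hh
    change ((chi hρ h0 h : ℤˣ) : ℤ) = 1
    rw [h1]
    rfl

lemma sum_chB_H : ∀ h ∈ HB hρ h0, ∑ b : Bool, chB hρ h0 b h = 2 := by
  intro h hh
  rw [Fintype.sum_bool, chB_H hρ h0 _ h hh, chB_H hρ h0 _ h hh]
  rfl

lemma sum_chB_not : ∀ g, g ∉ HB hρ h0 → ∑ b : Bool, chB hρ h0 b g = 0 := by
  intro g hg
  have h1 : chi hρ h0 g ≠ 1 := fun h => hg h
  have h2 : chi hρ h0 g = -1 := (Int.units_eq_one_or _).resolve_left h1
  rw [Fintype.sum_bool]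
  change ((chi hρ h0 g : ℤˣ) : ℤ) + 1 = 0
  rw [h2]
  rfl

end chi

end Pool.Agent.R432.RB
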