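import Pool.Agent.R432.RB

/-!
# The corestriction of the cocycles for a quadratic extension
-/

set_option autoImplicit false
set_option linter.unusedSectionVars false

attribute [-instance] DivisionRing.toRatAlgebra

namespace Pool.Agent.R432.RB

open WeierstrassCurve NumberField IsDedekindDomain

open Pool.Agent.TH841.NF (Sc tm act_tm tm_act tm_neg tm_tm tm_id tm_inj act_act act_id aL Loc cor
  cor_coc cor_cob cor_add cor_zero_of cor_loc sum_cor sec sec_spec sec_one coc_fin coc_of_fin
  aut_of_two place_p place_r mem_H)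

open Pool.Agent.TH841.SH.D (Pt act Gal Coch IsCoc IsCob LocTriv cob)

section transfer

variable {k F : Type} [Field k] [Field F] [Algebra k F] {E : WeierstrassCurve k}
  {W : WeierstrassCurve F} (hW : Sc (algebraMap k F) 1 E W)
  (e : AlgebraicClosure F ≃+* AlgebraicClosure k)
  (he : ∀ x : k, e (algebraMap F (AlgebraicClosure F) (algebraMap k F x)) =
    algebraMap k (AlgebraicClosure k) x)

/-- `g` fixes the elements of `F` -/
def FxK (e : AlgebraicClosure F ≃+* AlgebraicClosure k) (g : Gal k) : Prop :=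
  ∀ x : F, g (e (algebraMap F (AlgebraicClosure F) x)) = e (algebraMap F (AlgebraicClosure F) x)

open Classical in
/-- the automorphism of the algebraic closure of `F` -/
noncomputable def cFK (e : AlgebraicClosure F ≃+* AlgebraicClosure k) (g : Gal k) : Gal F :=
  if h : FxK e g then
    { toFun := fun x => e.symm (g (e x))
      invFun := fun x => e.symm (g.symm (e x))
      left_inv := fun x => by simp
      right_inv := fun x => by simp
      map_mul' := fun x y => by simp
      map_add' := fun x y => by simp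
      commutes' := fun x => by
        change e.symm (g (e (algebraMap F (AlgebraicClosure F) x))) = _
        rw [h x, RingEquiv.symm_apply_apply] }
  else 1

lemma cFK_apply {g : Gal k} (h : FxK e g) (x : AlgebraicClosure F) :
    cFK e g x = e.symm (g (e x)) := by
  unfold cFK
  rw [dif_pos h]
  rfl

lemma e_cFK {g : Gal k} (h : FxK e g) (x : AlgebraicClosure F) :
    e (cFK e g x) = g (e x) := by
  rw [cFK_apply e h, RingEquiv.apply_symm_apply]

lemma cFK_mul {g g' : Gal k} (h : FxK e g) (h' : FxK e g') :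
    cFK e (g * g') = cFK e g * cFK e g' := by
  have h2 : FxK e (g * g') := fun x => by
    change g (g' _) = _
    rw [h' x, h x]
  refine AlgEquiv.ext fun x => ?_
  change cFK e (g * g') x = cFK e g (cFK e g' x)
  apply e.injective
  rw [e_cFK e h2, e_cFK e h, e_cFK e h']
  rfl

/-- the automorphism of the algebraic closure of `k` -/
noncomputable def cQK (σ : Gal F) : Gal k where
  toFun x := e (σ (e.symm x))
  invFun x := e (σ.symm (e.symm x))
  left_inv x := by simp
  right_inv x := by simp
  map_mul' x y := by simp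
  map_add' x y := by simp
  commutes' x := by
    rw [← he x, RingEquiv.symm_apply_apply, AlgEquiv.commutes]

lemma cQK_fx (σ : Gal F) : FxK e (cQK e he σ) := by
  intro x
  change e (σ (e.symm (e _))) = _
  rw [RingEquiv.symm_apply_apply, AlgEquiv.commutes]

lemma cFK_cQK (σ : Gal F) : cFK e (cQK e he σ) = σ := by
  refine AlgEquiv.ext fun x => ?_
  apply e.injective
  rw [e_cFK e (cQK_fx e he σ)]
  change e (σ (e.symm (e _))) = _
  rw [RingEquiv.symm_apply_apply]

include hW he in
/-- the scaling for `e` -/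
lemma se : Sc (e : AlgebraicClosure F →+* AlgebraicClosure k) 1
    (W.baseChange (AlgebraicClosure F)) (E.baseChange (AlgebraicClosure k)) :=
  sc_an hW (e : AlgebraicClosure F →+* AlgebraicClosure k) he

/-- the transported cochain -/
noncomputable def trK (f : Coch W) (g : Gal k) : Pt E (AlgebraicClosure k) :=
  tm (se hW e he) (f (cFK e g))

lemma trK_act {g : Gal k} (h : FxK e g) (P : Pt W (AlgebraicClosure F)) :
    tm (se hW e he) (act W (cFK e g).toAlgHom P) =
      act E g.toAlgHom (tm (se hW e he) P) := by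
  have S : Sc (((g : AlgebraicClosure k ≃+* AlgebraicClosure k) : AlgebraicClosure k →+*
      AlgebraicClosure k).comp (e : AlgebraicClosure F →+* AlgebraicClosure k)) 1
      (W.baseChange (AlgebraicClosure F)) (E.baseChange (AlgebraicClosure k)) :=
    sc_an hW _ fun x => by
      change g (e _) = _
      rw [he, AlgEquiv.commutes]
  rw [act_tm _ _ S (fun x => e_cFK e h x), tm_act _ _ S (fun x => rfl) (map_one _).symm]

lemma trK_coc {f : Coch W} (hf : IsCoc W f) {x y : Gal k} (hx : FxK e x) (hy : FxK e y) :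
    trK hW e he f (x * y) = trK hW e he f x + aK E x (trK hW e he f y) := by
  unfold trK
  rw [cFK_mul e hx hy, hf.2, map_add, trK_act hW e he hx]
  rfl

lemma trK_cob {f : Coch W} {P : Pt W (AlgebraicClosure F)}
    (hf : ∀ σ : Gal F, f σ = act W σ.toAlgHom P - P) {x : Gal k} (hx : FxK e x) :
    trK hW e he f x = aK E x (tm (se hW e he) P) - tm (se hW e he) P := by
  unfold trK
  rw [hf, map_sub, trK_act hW e he hx]
  rfl

lemma trK_add (f f' : Coch W) : trK hW e he (f + f') = trK hW e he f + trK hW e he f' := by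
  funext g
  exact map_add _ _ _

end transfer

section theta

variable {k F : Type} [Field k] [CharZero k] [Field F] [Algebra k F] {E : WeierstrassCurve k}
  {W : WeierstrassCurve F} (hW : Sc (algebraMap k F) 1 E W) (E1 : E.a₁ = 0) (E3 : E.a₃ = 0)
  (e : AlgebraicClosure F ≃+* AlgebraicClosure k)
  (he : ∀ x : k, e (algebraMap F (AlgebraicClosure F) (algebraMap k F x)) =
    algebraMap k (AlgebraicClosure k) x)
  {r : F} {d : k} (hr : r ^ 2 = algebraMap k F d) (hd : d ≠ 0)
  (hgen : IntermediateField.adjoin k {r} = ⊤)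

lemma tw_actK {L : Type} [Field L] [Algebra k L] {c : k} {ρ : L}
    (S : Sc (RingHom.id L) ρ (E.baseChange L) ((twk c E).baseChange L)) (τ : L →ₐ[k] L) (m : ℤ)
    (hm : m = 1 ∨ m = -1) (hτ : τ ρ = (m : L) * ρ) (P : Pt E L) :
    tm S (m • act E τ P) = act (twk c E) τ (tm S P) := by
  have S' : Sc (τ : L →+* L) ρ (E.baseChange L) ((twk c E).baseChange L) := by
    refine ⟨S.hu, ?_, ?_, ?_, ?_, ?_⟩
    · rw [S.h1]
      exact congrArg (· * ρ) (AlgHom.commutes τ _).symm
    · rw [S.h2]
      exact congrArg (· * ρ ^ 2) (AlgHom.commutes τ _).symm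
    · rw [S.h3]
      exact congrArg (· * ρ ^ 3) (AlgHom.commutes τ _).symm
    · rw [S.h4]
      exact congrArg (· * ρ ^ 4) (AlgHom.commutes τ _).symm
    · rw [S.h6]
      exact congrArg (· * ρ ^ 6) (AlgHom.commutes τ _).symm
  have b1 : ((twk c E).baseChange L).a₁ = 0 := by
    change algebraMap k L 0 = 0
    rw [map_zero]
  have b3 : ((twk c E).baseChange L).a₃ = 0 := by
    change algebraMap k L 0 = 0
    rw [map_zero]
  rcases hm with rfl | rfl
  · rw [Int.cast_one, one_mul] at hτ
    rw [one_smul, tm_act S τ S' (fun x => rfl) hτ.symm P]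
    exact act_tm τ S S' (fun x => rfl) P
  · have hτ' : τ ρ = -ρ := by rw [hτ]; push_cast; ring
    have S'' : Sc (τ : L →+* L) (-ρ) (E.baseChange L) ((twk c E).baseChange L) := by
      have g1 := S'.h1
      have g3 := S'.h3
      rw [b1] at g1
      rw [b3] at g3
      refine ⟨neg_ne_zero.2 S.hu, ?_, ?_, ?_, ?_, ?_⟩
      · rw [b1, mul_neg, ← g1, neg_zero]
      · rw [S'.h2]; ring
      · rw [b3]
        linear_combination -g3
      · rw [S'.h4]; ring
      · rw [S'.h6]; ring
    rw [tm_act S τ S'' (fun x => rfl) hτ'.symm P,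
      tm_neg S'' S' (fun x => rfl) rfl b1 b3 P, neg_smul, one_smul, map_neg]
    exact congrArg Neg.neg (act_tm τ S S' (fun x => rfl) P)

/-- the square root -/
noncomputable def rhK (e : AlgebraicClosure F ≃+* AlgebraicClosure k) (r : F) :
    AlgebraicClosure k := e (algebraMap F (AlgebraicClosure F) r)

include he hr in
lemma rhK_sq : rhK e r ^ 2 = algebraMap k (AlgebraicClosure k) d := by
  unfold rhK
  rw [← map_pow, ← map_pow, hr, he]

include he hr hd in
lemma rhK_ne : rhK e r ≠ 0 := by
  intro h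
  have := rhK_sq e he hr
  rw [h, zero_pow two_ne_zero, eq_comm, map_eq_zero] at this
  exact hd this

/-- the subgroup -/
noncomputable abbrev HH : Subgroup (Gal k) := HB (rhK_sq e he hr) (rhK_ne e he hr hd)

include hgen in
lemma mem_HH (g : Gal k) : g ∈ HH e he hr hd ↔ FxK e g := by
  rw [mem_HB]
  constructor
  · intro h x
    have hx : x ∈ IntermediateField.adjoin k {r} := by
      rw [hgen]; trivial
    induction hx using IntermediateField.adjoin_induction with
    | mem y hy =>
      rw [Set.mem_singleton_iff] at hy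
      subst hy
      exact h
    | algebraMap y =>
      rw [he]
      exact AlgEquiv.commutes g y
    | add y z _ _ hy hz => rw [map_add, map_add, map_add, hy, hz]
    | mul y z _ _ hy hz => rw [map_mul, map_mul, map_mul, hy, hz]
    | inv y _ hy => rw [map_inv₀, map_inv₀, map_inv₀, hy]
  · intro h
    exact h r

include E1 E3 he hr hd in
/-- the scaling to the twist -/
lemma sB (b : Bool) : Sc (RingHom.id (AlgebraicClosure k)) (uB (rhK e r) b)
    (E.baseChange (AlgebraicClosure k)) ((twk (dB d b) E).baseChange (AlgebraicClosure k)) :=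
  sc_twk E1 E3 (RingHom.id (AlgebraicClosure k)) (fun _ => rfl) (uB_sq (rhK_sq e he hr) b)
    (uB_ne (rhK_ne e he hr hd) b)

/-- the corestriction to the twist -/
noncomputable def Th (b : Bool) (f : Coch W) : Coch (twk (dB d b) E) := fun σ =>
  tm (sB E1 E3 e he hr hd b)
    (cor (sec (HH e he hr hd)) (aK E) (chB (rhK_sq e he hr) (rhK_ne e he hr hd) b)
      (trK hW e he f) σ)

include hgen in
lemma trK_coc' {f : Coch W} (hf : IsCoc W f) : ∀ x ∈ HH e he hr hd, ∀ y ∈ HH e he hr hd,
    trK hW e he f (x * y) = trK hW e he f x + aK E x (trK hW e he f y) := fun x hx y hy =>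
  trK_coc hW e he hf ((mem_HH e he hr hd hgen x).1 hx) ((mem_HH e he hr hd hgen y).1 hy)

include hgen in
lemma Th_mul {b : Bool} {f : Coch W} (hf : IsCoc W f) (σ τ : Gal k) :
    Th hW E1 E3 e he hr hd b f (σ * τ) = Th hW E1 E3 e he hr hd b f σ +
      act (twk (dB d b) E) σ.toAlgHom (Th hW E1 E3 e he hr hd b f τ) := by
  unfold Th
  rw [cor_coc (sec_spec _) (aK E) (chB_H _ _ b) (trK_coc' hW e he hr hd hgen hf), map_add]
  congr 1
  exact tw_actK _ σ.toAlgHom _ (chB_pm _ _ b σ) (chB_spec _ _ b σ) _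

include hgen in
lemma Th_coc {b : Bool} {f : Coch W} (hf : IsCoc W f) :
    IsCoc (twk (dB d b) E) (Th hW E1 E3 e he hr hd b f) := by
  classical
  obtain ⟨S, hS⟩ := coc_fin hf
  refine coc_of_fin (Th_mul hW E1 E3 e he hr hd hgen hf)
    (Finset.univ.biUnion fun q : Gal k ⧸ HH e he hr hd =>
      (S.image fun x => sec _ q (e x)) ∪ {sec _ q (rhK e r)}) ?_
  intro σ hσ
  have h1 : ∀ q : Gal k ⧸ HH e he hr hd, ∀ x ∈ S, σ (sec _ q (e x)) = sec _ q (e x) := by
    intro q x hx
    apply hσ
    rw [Finset.mem_biUnion]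
    exact ⟨q, Finset.mem_univ _, Finset.mem_union_left _ (Finset.mem_image_of_mem _ hx)⟩
  have h2 : ∀ q : Gal k ⧸ HH e he hr hd, σ (sec _ q (rhK e r)) = sec _ q (rhK e r) := by
    intro q
    apply hσ
    rw [Finset.mem_biUnion]
    exact ⟨q, Finset.mem_univ _, Finset.mem_union_right _ (Finset.mem_singleton_self _)⟩
  have h3 : ∀ q : Gal k ⧸ HH e he hr hd, (sec _ q)⁻¹ * σ * sec _ q ∈ HH e he hr hd := by
    intro q
    rw [mem_HB]
    change (sec _ q)⁻¹ (σ (sec _ q (rhK e r))) = rhK e r
    rw [h2 q]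
    exact AlgEquiv.symm_apply_apply (sec _ q) _
  have h4 : ∀ q : Gal k ⧸ HH e he hr hd, σ • q = q := by
    intro q
    have h5 := h3 q
    rw [mul_assoc, ← QuotientGroup.eq] at h5
    conv_lhs => rw [← sec_spec _ q]
    exact h5.symm.trans (sec_spec _ q)
  unfold Th
  rw [cor_zero_of, map_zero]
  intro q
  rw [h4]
  unfold trK
  rw [hS, map_zero]
  intro x hx
  rw [cFK_apply e ((mem_HH e he hr hd hgen _).1 (h3 q))]
  change e.symm ((sec _ q)⁻¹ (σ (sec _ q (e x)))) = x
  rw [h1 q x hx]
  have : (sec _ q)⁻¹ (sec _ q (e x)) = e x := AlgEquiv.symm_apply_apply (sec _ q) _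
  rw [this, RingEquiv.symm_apply_apply]

include hgen in
lemma Th_cob {b : Bool} {f : Coch W} (hf : IsCob W f) :
    IsCob (twk (dB d b) E) (Th hW E1 E3 e he hr hd b f) := by
  obtain ⟨P, hP⟩ := hf
  refine ⟨tm (sB E1 E3 e he hr hd b) (∑ q : Gal k ⧸ HH e he hr hd,
      chB (rhK_sq e he hr) (rhK_ne e he hr hd) b (sec _ q) • aK E (sec _ q)
        (tm (se hW e he) P)), fun σ => ?_⟩
  unfold Th
  rw [cor_cob (sec_spec _) (aK E) (chB_H _ _ b) _ (fun x hx => trK_cob hW e he hP
    ((mem_HH e he hr hd hgen x).1 hx)), map_sub]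
  congr 1
  exact tw_actK _ σ.toAlgHom _ (chB_pm _ _ b σ) (chB_spec _ _ b σ) _

lemma Th_add (b : Bool) (f f' : Coch W) :
    Th hW E1 E3 e he hr hd b (f + f') =
      Th hW E1 E3 e he hr hd b f + Th hW E1 E3 e he hr hd b f' := by
  funext σ
  change tm _ (cor _ _ _ (trK hW e he (f + f')) σ) = tm _ _ + tm _ _
  rw [trK_add, cor_add, map_add]

/-- the local condition for embeddings -/
def Emb (K : Type) [Field K] [Algebra k K] (f : Coch W) : Prop :=
  ∀ j : AlgebraicClosure k →ₐ[k] AlgebraicClosure K, ∃ P : Pt E (AlgebraicClosure K),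
    ∀ (τ : Gal K) (h : Gal k),
    FxK e h → (τ.toAlgHom.restrictScalars k).comp j = j.comp h.toAlgHom →
      act E j (trK hW e he f h) = aL E K τ P - P

include hgen in
lemma Th_loc {b : Bool} {K : Type} [Field K] {iK : Algebra k K} {f : Coch W}
    (hf : IsCoc W f) (hl : Emb hW e he K f) :
    LocTriv (twk (dB d b) E) K (Th hW E1 E3 e he hr hd b f) := by
  intro ι
  obtain ⟨R, hR⟩ := cor_loc (locK E K) (sec_spec (HH e he hr hd))
    (chB_H (rhK_sq e he hr) (rhK_ne e he hr hd) b) (trK_coc' hW e he hr hd hgen hf) (by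
      intro j
      obtain ⟨P, hP⟩ := hl j
      exact ⟨P, fun τ h hh => hP τ h ((mem_HH e he hr hd hgen h).1 hh)⟩) ι
  have hι : (ι (uB (rhK e r) b)) ^ 2 = algebraMap k (AlgebraicClosure K) (dB d b) := by
    rw [← map_pow, uB_sq (rhK_sq e he hr) b]
    exact AlgHom.commutes ι _
  have hι0 : ι (uB (rhK e r) b) ≠ 0 :=
    (map_ne_zero ι).2 (uB_ne (rhK_ne e he hr hd) b)
  have S1 := sc_twk (E := E) E1 E3 (RingHom.id (AlgebraicClosure K)) (fun _ => rfl) hι hι0
  refine ⟨tm S1 R, fun τ σ hτ => ?_⟩
  have h1 := hR τ σ (AlgHom.ext hτ)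
  have S3 := sc_twk (E := E) E1 E3 (ι : AlgebraicClosure k →+* AlgebraicClosure K)
    (fun x => AlgHom.commutes ι x) hι hι0
  have h2 : ∀ P : Pt E (AlgebraicClosure k),
      act (twk (dB d b) E) ι (tm (sB E1 E3 e he hr hd b) P) = tm S1 (act E ι P) := by
    intro P
    rw [tm_act _ ι S3 (fun x => rfl) rfl]
    exact (act_tm ι _ S3 (fun x => rfl) P).symm
  unfold Th
  rw [h2]
  change tm _ ((locK E K).st ι _) = _
  refine (congrArg _ h1).trans ?_
  rw [map_sub]
  congr 1
  refine tw_actK _ (τ.toAlgHom.restrictScalars k) _ (chB_pm _ _ b σ) ?_ _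
  change τ (ι _) = _
  rw [hτ, chB_spec (rhK_sq e he hr) (rhK_ne e he hr hd) b σ, map_mul, map_intCast]

end theta

end Pool.Agent.R432.RB
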