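import Pool.Agent.R432.RB2

/-!
# The Tate-Shafarevich group over a quadratic extension of a number field
-/

set_option autoImplicit false
set_option linter.unusedSectionVars false

attribute [-instance] DivisionRing.toRatAlgebra

namespace Pool.Agent.R432.RB

open WeierstrassCurve NumberField IsDedekindDomain

open Pool.Agent.TH841.NF (Sc tm act_tm tm_act tm_neg tm_tm tm_id tm_inj act_act act_id aL Loc cor
  cor_coc cor_cob cor_add cor_zero_of cor_loc sum_cor sec sec_spec sec_one coc_fin coc_of_fin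
  aut_of_two place_p place_r mem_H)

open Pool.Agent.TH841.SH.D (Pt act Gal Coch IsCoc IsCob LocTriv cob)

section bridge

variable {k F : Type} [Field k] [Field F] [Algebra k F] {E : WeierstrassCurve k}
  {W : WeierstrassCurve F} (hW : Sc (algebraMap k F) 1 E W)
  (e : AlgebraicClosure F ≃+* AlgebraicClosure k)
  (he : ∀ x : k, e (algebraMap F (AlgebraicClosure F) (algebraMap k F x)) =
    algebraMap k (AlgebraicClosure k) x)

lemma bridgeK {K : Type} [Field K] [Algebra k K] {Fv : Type} [Field Fv] [Algebra F Fv]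
    {f : Coch W} (hf : LocTriv W Fv f) (j : AlgebraicClosure k →ₐ[k] AlgebraicClosure K)
    (β : Fv →+* AlgebraicClosure K)
    (hβ : ∀ x : F, β (algebraMap F Fv x) = j (e (algebraMap F _ x)))
    (hfix : ∀ τ : Gal K, (∀ x : F, τ (j (e (algebraMap F _ x))) = j (e (algebraMap F _ x))) →
      ∀ y, τ (β y) = β y) :
    ∃ P : Pt E (AlgebraicClosure K), ∀ (τ : Gal K) (h : Gal k),
      FxK e h → (τ.toAlgHom.restrictScalars k).comp j = j.comp h.toAlgHom →
        act E j (trK hW e he f h) = aL E K τ P - P := by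
  let i1 : Algebra Fv (AlgebraicClosure K) := β.toAlgebra
  let β' : AlgebraicClosure Fv →ₐ[Fv] AlgebraicClosure K := IsAlgClosed.lift
  have hβ' : ∀ y : Fv, β' (algebraMap Fv _ y) = β y := fun y => β'.commutes y
  let ι₀ : AlgebraicClosure F →ₐ[F] AlgebraicClosure Fv := IsAlgClosed.lift
  obtain ⟨σ₀, hσ₀⟩ := aut_of_two
    ((β' : AlgebraicClosure Fv →+* AlgebraicClosure K).comp
      (ι₀ : AlgebraicClosure F →+* AlgebraicClosure Fv))
    ((j : AlgebraicClosure k →+* AlgebraicClosure K).comp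
      (e : AlgebraicClosure F →+* AlgebraicClosure k)) (by
      intro x
      change β' (ι₀ (algebraMap F _ x)) = j (e (algebraMap F _ x))
      rw [ι₀.commutes, ← hβ, ← hβ']
      rfl)
  have hσ1 : ∀ x, j (e x) = β' (ι₀ (σ₀ x)) := hσ₀
  let ι : AlgebraicClosure F →ₐ[F] AlgebraicClosure Fv := ι₀.comp σ₀.toAlgHom
  have hι : ∀ x, j (e x) = β' (ι x) := hσ1
  have hbk : ∀ x : k, β' (algebraMap F (AlgebraicClosure Fv) (algebraMap k F x)) =
      algebraMap k (AlgebraicClosure K) x := by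
    intro x
    have h1 : algebraMap F (AlgebraicClosure Fv) (algebraMap k F x) =
        algebraMap Fv (AlgebraicClosure Fv) (algebraMap F Fv (algebraMap k F x)) :=
      IsScalarTower.algebraMap_apply F Fv (AlgebraicClosure Fv) _
    rw [h1, hβ', hβ, he, AlgHom.commutes]
  obtain ⟨P', hP'⟩ := hf ι
  have S1 : Sc (β' : AlgebraicClosure Fv →+* AlgebraicClosure K) 1
    (W.baseChange (AlgebraicClosure Fv)) (E.baseChange (AlgebraicClosure K)) := sc_an hW _ hbk
  refine ⟨tm S1 P', fun τ h hh hτ => ?_⟩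
  have hτ1 : ∀ x, τ (j x) = j (h x) := fun x => DFunLike.congr_fun hτ x
  have hfx : ∀ y, τ (β y) = β y := by
    apply hfix
    intro x
    rw [hτ1, hh x]
  obtain ⟨τ', hτ'⟩ := aut_of_two (β' : AlgebraicClosure Fv →+* AlgebraicClosure K)
    (((τ : AlgebraicClosure K ≃+* AlgebraicClosure K) : AlgebraicClosure K →+*
      AlgebraicClosure K).comp (β' : AlgebraicClosure Fv →+* AlgebraicClosure K)) (by
      intro y
      change β' (algebraMap Fv _ y) = τ (β' (algebraMap Fv _ y))
      rw [hβ', hfx])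
  have hτ2 : ∀ x, τ (β' x) = β' (τ' x) := hτ'
  have hcomp : ∀ x, τ' (ι x) = ι (cFK e h x) := by
    intro x
    apply (β' : AlgebraicClosure Fv →+* AlgebraicClosure K).injective
    change β' (τ' (ι x)) = β' (ι (cFK e h x))
    rw [← hτ2, ← hι, ← hι, hτ1, e_cFK e hh]
  have h1 := hP' τ' (cFK e h) hcomp
  have S2 : Sc ((j : AlgebraicClosure k →+* AlgebraicClosure K).comp
      (e : AlgebraicClosure F →+* AlgebraicClosure k)) 1
    (W.baseChange (AlgebraicClosure F)) (E.baseChange (AlgebraicClosure K)) :=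
    sc_an hW _ fun x => by
      change j (e _) = _
      rw [he, AlgHom.commutes]
  have h2 : act E j (trK hW e he f h) = tm S2 (f (cFK e h)) :=
    tm_act _ j S2 (fun x => rfl) (map_one j).symm _
  have h3 : tm S2 (f (cFK e h)) = tm S1 (act W ι (f (cFK e h))) :=
    (act_tm ι S1 S2 (fun x => (hι x).symm) _).symm
  rw [h2, h3, h1, map_sub]
  congr 1
  have S3 : Sc (((τ : AlgebraicClosure K ≃+* AlgebraicClosure K) : AlgebraicClosure K →+*
      AlgebraicClosure K).comp (β' : AlgebraicClosure Fv →+* AlgebraicClosure K)) 1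
      (W.baseChange (AlgebraicClosure Fv)) (E.baseChange (AlgebraicClosure K)) :=
    sc_an hW _ fun x => by
      change τ (β' _) = _
      rw [hbk]
      exact (τ.toAlgHom.restrictScalars k).commutes x
  have h4 : tm S1 (act W (τ'.toAlgHom.restrictScalars F) P') = tm S3 P' :=
    act_tm _ S1 S3 (fun x => (hτ2 x).symm) _
  have h5 : aL E K τ (tm S1 P') = tm S3 P' :=
    tm_act _ (τ.toAlgHom.restrictScalars k) S3 (fun x => rfl) (map_one _).symm _
  rw [h4, h5]

end bridge

section place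

lemma aut_gen {k₀ M C : Type} [Field k₀] [Field M] [Field C] [Algebra k₀ M] [Normal k₀ M]
    (β₁ β₂ : M →+* C) (h : ∀ x : k₀, β₁ (algebraMap k₀ M x) = β₂ (algebraMap k₀ M x)) :
    ∃ τ : M ≃ₐ[k₀] M, ∀ x, β₂ x = β₁ (τ x) := by
  let i1 : Algebra M C := β₁.toAlgebra
  let i2 : Algebra k₀ C := (β₁.comp (algebraMap k₀ M)).toAlgebra
  have i3 : IsScalarTower k₀ M C := IsScalarTower.of_algebraMap_eq fun _ => rfl
  let β : M →ₐ[k₀] C := { β₂ with commutes' := fun x => (h x).symm }
  refine ⟨Normal.algHomEquivAut k₀ C M β, fun x => ?_⟩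
  have h1 := (Normal.algHomEquivAut k₀ C M).symm_apply_apply β
  have h2 := DFunLike.congr_fun h1 x
  exact h2.symm

lemma normal_cl {k₀ F M : Type} [Field k₀] [Field F] [Field M] [Algebra k₀ F] [Algebra k₀ M]
    [Algebra F M] [IsScalarTower k₀ F M] [Algebra.IsAlgebraic k₀ F] [Algebra.IsAlgebraic F M]
    [IsAlgClosed M] : Normal k₀ M := by
  have h : Algebra.IsAlgebraic k₀ M := Algebra.IsAlgebraic.trans k₀ F M
  exact normal_iff.2 fun x => ⟨Algebra.IsIntegral.isIntegral x, IsAlgClosed.splits _⟩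

/-- two embeddings of the algebraic closure of a number field differ by an automorphism -/
lemma two_emb {F : Type} [Field F] [NumberField F] {C : Type} [Field C]
    (β₁ β₂ : AlgebraicClosure F →+* C) :
    ∃ τ : AlgebraicClosure F →+* AlgebraicClosure F, ∀ x, β₂ x = β₁ (τ x) := by
  let iF : Algebra ℚ F := DivisionRing.toRatAlgebra
  have h1 : Algebra.IsAlgebraic ℚ F := Algebra.IsAlgebraic.of_finite ℚ F
  have h2 : Normal ℚ (AlgebraicClosure F) := normal_cl (F := F)
  obtain ⟨τ, hτ⟩ := aut_gen (k₀ := ℚ) β₁ β₂ (fun x => DFunLike.congr_fun (Subsingleton.elim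
    (β₁.comp (algebraMap ℚ (AlgebraicClosure F)))
    (β₂.comp (algebraMap ℚ (AlgebraicClosure F)))) x)
  exact ⟨(τ : AlgebraicClosure F →+* AlgebraicClosure F), hτ⟩

/-- an embedding of the algebraic closure of a number field -/
lemma exists_emb (F : Type) [Field F] [NumberField F] (C : Type) [Field C] [CharZero C]
    [IsAlgClosed C] : Nonempty (AlgebraicClosure F →+* C) := by
  let iF : Algebra ℚ F := DivisionRing.toRatAlgebra
  let iC : Algebra ℚ C := DivisionRing.toRatAlgebra
  have h1 : Algebra.IsAlgebraic ℚ F := Algebra.IsAlgebraic.of_finite ℚ F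
  let a₀ : F →ₐ[ℚ] C := IsAlgClosed.lift
  let iFC : Algebra F C := (a₀ : F →+* C).toAlgebra
  let b₀ : AlgebraicClosure F →ₐ[F] C := IsAlgClosed.lift
  exact ⟨(b₀ : AlgebraicClosure F →+* C)⟩

/-- embeddings in the algebraic closure of a field `K` above a field `K₀` (the `p`-adic or the real
numbers) -/
lemma place_gen {k F : Type} [Field k] [Field F] [NumberField F]
    (e : AlgebraicClosure F ≃+* AlgebraicClosure k)
    {K K₀ : Type} [Field K] [Algebra k K] [Field K₀] [CharZero K₀] (θ : K₀ →+* K)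
    (j : AlgebraicClosure k →ₐ[k] AlgebraicClosure K) :
    ∃ (θ' : AlgebraicClosure K₀ →+* AlgebraicClosure K) (j₀ : F →+* AlgebraicClosure K₀),
      (∀ y : K₀, θ' (algebraMap K₀ _ y) = algebraMap K _ (θ y)) ∧
      (∀ x : F, j (e (algebraMap F _ x)) = θ' (j₀ x)) := by
  let i1 : Algebra K₀ (AlgebraicClosure K) :=
    ((algebraMap K (AlgebraicClosure K)).comp θ).toAlgebra
  let θ' : AlgebraicClosure K₀ →ₐ[K₀] AlgebraicClosure K := IsAlgClosed.lift
  have hθ' : ∀ y : K₀, θ' (algebraMap K₀ _ y) = algebraMap K _ (θ y) := fun y => θ'.commutes y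
  have hcz : CharZero (AlgebraicClosure K₀) := charZero_of_injective_algebraMap
    (algebraMap K₀ (AlgebraicClosure K₀)).injective
  obtain ⟨b₀⟩ := exists_emb F (AlgebraicClosure K₀)
  obtain ⟨σ, hσ⟩ := two_emb
    ((θ' : AlgebraicClosure K₀ →+* AlgebraicClosure K).comp b₀)
    ((j : AlgebraicClosure k →+* AlgebraicClosure K).comp
      (e : AlgebraicClosure F →+* AlgebraicClosure k))
  exact ⟨(θ' : AlgebraicClosure K₀ →+* AlgebraicClosure K),
    (b₀.comp σ).comp (algebraMap F (AlgebraicClosure F)), hθ',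
    fun x => hσ (algebraMap F _ x)⟩

/-- the restriction of an automorphism -/
lemma res_aut {K K₀ : Type} [Field K] [Field K₀] (θ : K₀ →+* K)
    (θ' : AlgebraicClosure K₀ →+* AlgebraicClosure K)
    (hθ' : ∀ y : K₀, θ' (algebraMap K₀ _ y) = algebraMap K _ (θ y)) (τ : Gal K) :
    ∃ τ₀ : Gal K₀, ∀ x, τ (θ' x) = θ' (τ₀ x) := by
  obtain ⟨τ₀, h⟩ := aut_of_two θ'
    (((τ : AlgebraicClosure K ≃+* AlgebraicClosure K) : AlgebraicClosure K →+*
      AlgebraicClosure K).comp θ') (by
      intro y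
      change θ' (algebraMap K₀ _ y) = τ (θ' (algebraMap K₀ _ y))
      rw [hθ', AlgEquiv.commutes])
  exact ⟨τ₀, h⟩

variable {k F : Type} [Field k] [NumberField k] [Field F] [NumberField F] [Algebra k F]
  {E : WeierstrassCurve k} {W : WeierstrassCurve F} (hW : Sc (algebraMap k F) 1 E W)
  (e : AlgebraicClosure F ≃+* AlgebraicClosure k)
  (he : ∀ x : k, e (algebraMap F (AlgebraicClosure F) (algebraMap k F x)) =
    algebraMap k (AlgebraicClosure k) x)

/-- the embeddings above the `p`-adic numbers -/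
lemma emb_p {f : Coch W} (hf : Pool.Agent.TH841.NF.D.IsShaCoc W f) {K : Type} [Field K]
    [Algebra k K] {p : ℕ} [Fact p.Prime] (θ : ℚ_[p] →+* K) : Emb hW e he K f := by
  intro j
  obtain ⟨θ', j₀, h1, h2⟩ := place_gen e θ j
  obtain ⟨v, β, hβ, hfix⟩ := place_p (j₀ : F →+* PadicAlgCl p)
  refine bridgeK hW e he (hf.2.1 v) j (θ'.comp (β : _ →+* AlgebraicClosure ℚ_[p])) ?_ ?_
  · intro x
    rw [h2]
    exact congrArg θ' (hβ x)
  · intro τ hτ y
    obtain ⟨τ₀, hτ₀⟩ := res_aut θ θ' h1 τ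
    have h3 : ∀ x : F, τ₀ (j₀ x) = j₀ x := by
      intro x
      apply θ'.injective
      rw [← hτ₀, ← h2, hτ]
    change τ (θ' (β y)) = θ' (β y)
    rw [hτ₀]
    exact congrArg θ' (hfix τ₀ h3 y)

/-- the embeddings above the real numbers -/
lemma emb_r {f : Coch W} (hf : Pool.Agent.TH841.NF.D.IsShaCoc W f) {K : Type} [Field K]
    [Algebra k K] (θ : ℝ →+* K) : Emb hW e he K f := by
  intro j
  obtain ⟨θ', j₀, h1, h2⟩ := place_gen e θ j
  obtain ⟨v, β, hβ, hfix⟩ := place_r (j₀ : F →+* AlgebraicClosure ℝ)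
  refine bridgeK hW e he (hf.2.2 v) j (θ'.comp β) ?_ ?_
  · intro x
    rw [h2]
    exact congrArg θ' (hβ x)
  · intro τ hτ y
    obtain ⟨τ₀, hτ₀⟩ := res_aut θ θ' h1 τ
    have h3 : ∀ x : F, τ₀ (j₀ x) = j₀ x := by
      intro x
      apply θ'.injective
      rw [← hτ₀, ← h2, hτ]
    change τ (θ' (β y)) = θ' (β y)
    rw [hτ₀]
    exact congrArg θ' (hfix τ₀ h3 y)

end place

end Pool.Agent.R432.RB
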