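import Pool.Agent.R432.RB3

/-!
# The Tate-Shafarevich group over a quadratic extension of a number field, II
-/

set_option autoImplicit false
set_option linter.unusedSectionVars false

attribute [-instance] DivisionRing.toRatAlgebra

namespace Pool.Agent.R432.RB

open WeierstrassCurve NumberField IsDedekindDomain

open Pool.Agent.TH841.NF (Sc tm act_tm tm_act tm_neg tm_tm tm_id tm_inj act_act act_id aL Loc cor
  cor_coc cor_cob cor_add cor_zero_of cor_loc sum_cor sec sec_spec sec_one coc_fin coc_of_fin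
  aut_of_two place_p place_r mem_H)

open Pool.Agent.TH841.SH.D (Pt act Gal Coch IsCoc IsCob LocTriv cob)

section ker

variable {k F : Type} [Field k] [CharZero k] [Field F] [Algebra k F] {E : WeierstrassCurve k}
  {W : WeierstrassCurve F} (hW : Sc (algebraMap k F) 1 E W) (E1 : E.a₁ = 0) (E3 : E.a₃ = 0)
  (e : AlgebraicClosure F ≃+* AlgebraicClosure k)
  (he : ∀ x : k, e (algebraMap F (AlgebraicClosure F) (algebraMap k F x)) =
    algebraMap k (AlgebraicClosure k) x)
  {r : F} {d : k} (hr : r ^ 2 = algebraMap k F d) (hd : d ≠ 0)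
  (hgen : IntermediateField.adjoin k {r} = ⊤)

include E1 E3 in
lemma tw_surj {L : Type} [Field L] [Algebra k L] {c : k} {u : L} (hu : u ^ 2 = algebraMap k L c)
    (h0 : u ≠ 0) (S : Sc (RingHom.id L) u (E.baseChange L) ((twk c E).baseChange L))
    (P : Pt (twk c E) L) : ∃ Q : Pt E L, tm S Q = P := by
  have S' := sc_twk' (E := E) E1 E3 (RingHom.id L) (fun _ => rfl) hu h0
  have S'' : Sc (RingHom.id L) 1 ((twk c E).baseChange L) ((twk c E).baseChange L) := by
    refine ⟨one_ne_zero, ?_, ?_, ?_, ?_, ?_⟩ <;> simp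
  refine ⟨tm S' P, ?_⟩
  rw [tm_tm S' S S'' (fun x => rfl), tm_id S'' (fun x => rfl) rfl]
  change 1 = u⁻¹ * u
  rw [inv_mul_cancel₀ h0]

include he in
lemma e_symm (x : k) : e.symm (algebraMap k (AlgebraicClosure k) x) =
    algebraMap F (AlgebraicClosure F) (algebraMap k F x) := by
  rw [← he, RingEquiv.symm_apply_apply]

lemma any_surj (Q : Pt E (AlgebraicClosure k)) : ∃ P : Pt W (AlgebraicClosure F),
    tm (se hW e he) P = Q := by
  have S' := sc_an' hW (e.symm : AlgebraicClosure k →+* AlgebraicClosure F) (fun x => e_symm e he x)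
  have S'' : Sc (RingHom.id (AlgebraicClosure k)) 1 (E.baseChange (AlgebraicClosure k))
      (E.baseChange (AlgebraicClosure k)) := by
    refine ⟨one_ne_zero, ?_, ?_, ?_, ?_, ?_⟩ <;> simp
  refine ⟨tm S' Q, ?_⟩
  rw [tm_tm S' _ S'' (fun x => e.apply_symm_apply x), tm_id S'' (fun x => rfl) rfl]
  rw [map_one, mul_one]

lemma trK_cQK (f : Coch W) (σ : Gal F) :
    trK hW e he f (cQK e he σ) = tm (se hW e he) (f σ) := by
  unfold trK
  rw [cFK_cQK]

include hgen in
lemma ker_Th {f : Coch W}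
    (h : ∀ b : Bool, IsCob (twk (dB d b) E) (Th hW E1 E3 e he hr hd b f)) :
    IsCob W ((2 : ℕ) • f) := by
  choose P hP using h
  choose Q hQ using fun b : Bool => tw_surj E1 E3 (uB_sq (rhK_sq e he hr) b)
    (uB_ne (rhK_ne e he hr hd) b) (sB E1 E3 e he hr hd b) (P b)
  have h1 : ∀ (b : Bool) (g : Gal k), g ∈ HH e he hr hd →
      cor (sec (HH e he hr hd)) (aK E) (chB (rhK_sq e he hr) (rhK_ne e he hr hd) b)
        (trK hW e he f) g = aK E g (Q b) - Q b := by
    intro b g hg
    apply tm_inj (sB E1 E3 e he hr hd b)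
    refine (hP b g).trans ?_
    rw [map_sub, hQ]
    congr 1
    have h2 := tw_actK (sB E1 E3 e he hr hd b) g.toAlgHom _
      (chB_pm (rhK_sq e he hr) (rhK_ne e he hr hd) b g)
      (chB_spec (rhK_sq e he hr) (rhK_ne e he hr hd) b g) (Q b)
    rw [chB_H _ _ b g hg, one_smul, hQ] at h2
    exact h2.symm
  obtain ⟨R, hR⟩ := any_surj hW e he (∑ b, Q b)
  refine ⟨R, fun σ => ?_⟩
  apply tm_inj (se hW e he)
  have hσ : FxK e (cQK e he σ) := cQK_fx e he σ
  have hσ' : cQK e he σ ∈ HH e he hr hd := (mem_HH e he hr hd hgen _).2 hσ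
  have h3 := sum_cor (sec_spec (HH e he hr hd)) (sec_one _) (aK E)
    (fun b => chB (rhK_sq e he hr) (rhK_ne e he hr hd) b) 2 (sum_chB_H _ _) (sum_chB_not _ _)
    (trK hW e he f) (cQK e he σ) hσ'
  rw [Finset.sum_congr rfl fun b _ => h1 b _ hσ', Finset.sum_sub_distrib, ← map_sum, ← hR,
    trK_cQK] at h3
  have h4 : aK E (cQK e he σ) (tm (se hW e he) R) =
      tm (se hW e he) (act W σ.toAlgHom R) := by
    have := trK_act hW e he hσ R
    rw [cFK_cQK] at this
    exact this.symm
  rw [h4, ← map_sub] at h3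
  rw [h3]
  change tm _ ((2 : ℕ) • (f σ)) = _
  rw [map_nsmul, ← natCast_zsmul]
  rfl

end ker

section hom

variable {k F : Type} [Field k] [NumberField k] [Field F] [NumberField F] [Algebra k F]
  {E : WeierstrassCurve k} {W : WeierstrassCurve F} (hW : Sc (algebraMap k F) 1 E W)
  (E1 : E.a₁ = 0) (E3 : E.a₃ = 0)
  (e : AlgebraicClosure F ≃+* AlgebraicClosure k)
  (he : ∀ x : k, e (algebraMap F (AlgebraicClosure F) (algebraMap k F x)) =
    algebraMap k (AlgebraicClosure k) x)
  {r : F} {d : k} (hr : r ^ 2 = algebraMap k F d) (hd : d ≠ 0)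
  (hgen : IntermediateField.adjoin k {r} = ⊤)

include hgen in
lemma Th_sha {f : Coch W} (hf : Pool.Agent.TH841.NF.D.IsShaCoc W f) (b : Bool) :
    Pool.Agent.TH841.NF.D.IsShaCoc (twk (dB d b) E) (Th hW E1 E3 e he hr hd b f) := by
  let iQ : Algebra ℚ k := DivisionRing.toRatAlgebra
  refine ⟨Th_coc hW E1 E3 e he hr hd hgen hf.1, fun v => ?_, fun v => ?_⟩
  · obtain ⟨p, hp, hpv⟩ := Pool.Agent.Y682.exists_prime_mem v
    have : Fact p.Prime := ⟨hp⟩
    exact Th_loc hW E1 E3 e he hr hd hgen hf.1 (emb_p hW e he hf (Pool.Agent.Y682.pth hpv))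
  · obtain ⟨θ⟩ := Pool.Agent.Y682.exists_real_hom v
    exact Th_loc hW E1 E3 e he hr hd hgen hf.1 (emb_r hW e he hf θ)

/-- the homomorphism on the cocycles -/
noncomputable def thC (b : Bool) : Pool.Agent.TH841.NF.D.shaCoc W →+
    Pool.Agent.TH841.NF.D.shaCoc (twk (dB d b) E) where
  toFun f := ⟨Th hW E1 E3 e he hr hd b f.1, Th_sha hW E1 E3 e he hr hd hgen f.2 b⟩
  map_zero' := by
    apply Subtype.ext
    have h := Th_add hW E1 E3 e he hr hd b 0 0
    rw [add_zero] at h
    exact left_eq_add.1 h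
  map_add' f g := Subtype.ext (Th_add hW E1 E3 e he hr hd b f.1 g.1)

/-- the homomorphism -/
noncomputable def thS (b : Bool) : Pool.Agent.TH841.NF.D.Sha W →+
    Pool.Agent.TH841.NF.D.Sha (twk (dB d b) E) :=
  QuotientAddGroup.map ((cob W).addSubgroupOf (Pool.Agent.TH841.NF.D.shaCoc W))
    ((cob (twk (dB d b) E)).addSubgroupOf
      (Pool.Agent.TH841.NF.D.shaCoc (twk (dB d b) E)))
    (thC hW E1 E3 e he hr hd hgen b) (fun _ hf => Th_cob hW E1 E3 e he hr hd hgen hf)

lemma thS_ker (x : Pool.Agent.TH841.NF.D.Sha W)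
    (h : ∀ b, thS hW E1 E3 e he hr hd hgen b x = 0) : (2 : ℕ) • x = 0 := by
  induction x using QuotientAddGroup.induction_on with
  | H f =>
    have h1 : ∀ b : Bool, IsCob (twk (dB d b) E)
        (Th hW E1 E3 e he hr hd b f.1) := by
      intro b
      exact (QuotientAddGroup.eq_zero_iff (thC hW E1 E3 e he hr hd hgen b f)).1 (h b)
    have h2 := ker_Th hW E1 E3 e he hr hd hgen h1
    have h3 : ((((2 : ℕ) • f : Pool.Agent.TH841.NF.D.shaCoc W)) :
        Pool.Agent.TH841.NF.D.shaCoc W ⧸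
          (cob W).addSubgroupOf (Pool.Agent.TH841.NF.D.shaCoc W)) = 0 := by
      rw [QuotientAddGroup.eq_zero_iff]
      exact h2
    exact h3

end hom

/-- the 2-power torsion of `G` is killed by `2 ^ a` -/
def Kl (G : Type) [AddCommGroup G] (a : ℕ) : Prop := ∀ (n : ℕ) (x : G), 2 ^ n • x = 0 → 2 ^ a • x = 0

lemma exists_eK (k F : Type) [Field k] [Field F] [Algebra k F] [FiniteDimensional k F] :
    ∃ e : AlgebraicClosure F ≃+* AlgebraicClosure k,
      ∀ x : k, e (algebraMap F (AlgebraicClosure F) (algebraMap k F x)) =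
        algebraMap k (AlgebraicClosure k) x := by
  have h1 : Algebra.IsAlgebraic k F := Algebra.IsAlgebraic.of_finite k F
  have h2 : IsAlgClosure k (AlgebraicClosure F) :=
    ⟨inferInstance, Algebra.IsAlgebraic.trans k F (AlgebraicClosure F)⟩
  let e : AlgebraicClosure F ≃ₐ[k] AlgebraicClosure k :=
    IsAlgClosure.equiv k (AlgebraicClosure F) (AlgebraicClosure k)
  refine ⟨(e : AlgebraicClosure F ≃+* AlgebraicClosure k), fun x => ?_⟩
  have h3 := e.commutes x
  rwa [IsScalarTower.algebraMap_apply k F (AlgebraicClosure F)] at h3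

/-- **Quadratic extensions.** If the 2-primary parts of `Ш(E/k)` and of `Ш(E'/k)`, `E'` the twist by
`d`, are killed by `2 ^ a`, then the 2-primary part of `Ш(E/k(√d))` is killed by `2 ^ (a + 1)`. -/
theorem quad {k F : Type} [Field k] [NumberField k] [Field F] [NumberField F] [Algebra k F]
    {E : WeierstrassCurve k} {W : WeierstrassCurve F} (hW : Sc (algebraMap k F) 1 E W)
    (E1 : E.a₁ = 0) (E3 : E.a₃ = 0) {r : F} {d : k} (hr : r ^ 2 = algebraMap k F d) (hd : d ≠ 0)
    (hgen : IntermediateField.adjoin k {r} = ⊤) {a : ℕ}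
    (h1 : Kl (Pool.Agent.TH841.NF.D.Sha E) a)
    (h2 : Kl (Pool.Agent.TH841.NF.D.Sha (twk d E)) a) :
    Kl (Pool.Agent.TH841.NF.D.Sha W) (a + 1) := by
  have hfd : FiniteDimensional k F := by
    have h3 : IsIntegral k r := by
      refine IsIntegral.of_pow (n := 2) (by norm_num) ?_
      rw [hr]
      exact isIntegral_algebraMap
    have h4 := IntermediateField.adjoin.finiteDimensional h3
    rw [hgen] at h4
    exact Module.Finite.equiv (IntermediateField.topEquiv (F := k) (E := F)).toLinearEquiv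
  obtain ⟨e, he⟩ := exists_eK k F
  have hk : ∀ b : Bool, Kl (Pool.Agent.TH841.NF.D.Sha (twk (dB d b) E)) a := by
    intro b
    cases b
    · have : twk (dB d false) E = E := twk_one E1 E3
      rw [this]
      exact h1
    · exact h2
  intro n x hx
  have h3 : ∀ b : Bool, thS hW E1 E3 e he hr hd hgen b (2 ^ a • x) = 0 := by
    intro b
    rw [map_nsmul]
    refine hk b n _ ?_
    rw [← map_nsmul, hx, map_zero]
  have h4 := thS_ker hW E1 E3 e he hr hd hgen _ h3
  rw [pow_succ, mul_comm, mul_smul]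
  exact h4

end Pool.Agent.R432.RB
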