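import Pool.Agent.R432.C7
import Pool.Agent.W164.RC.Split

/-!
# Splitting of primes in `K(∛d_1, …, ∛d_n)`, `K = ℚ(ω)`
-/

set_option autoImplicit false
set_option linter.unusedSectionVars false

open NumberField IsDedekindDomain

namespace Pool.Agent.R432.V

open Pool.Agent.Y692.QS
open Pool.Agent.Y715.T.Rec (cs nn)
open Pool.Agent.Y715.T.RecG (Pq cs_spec)
open Pool.Agent.Y696.CTK (pK mem_pK pK_span)
open Pool.Agent.W164.RC (split_abs)

variable {K F : Type} [Field K] [NumberField K] [Field F] [NumberField F] [Algebra K F]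

/-- the embedding of the Eisenstein integers in `𝓞 F` -/
noncomputable def io (F : Type) [Field F] [NumberField F] [Algebra K F] (j : Ei ≃+* 𝓞 K) :
    Ei →+* 𝓞 F := (algebraMap (𝓞 K) (𝓞 F)).comp (j : Ei →+* 𝓞 K)

variable (j : Ei ≃+* 𝓞 K)

lemma io_apply (x : Ei) : io F j x = algebraMap (𝓞 K) (𝓞 F) (j x) := rfl

lemma io_coe (x : Ei) : ((io F j x : 𝓞 F) : F) = algebraMap K F ((j x : 𝓞 K) : K) := rfl

lemma io_inj : Function.Injective (io F j) := by
  intro a b h
  have h1 : algebraMap K F ((j a : 𝓞 K) : K) = algebraMap K F ((j b : 𝓞 K) : K) := by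
    rw [← io_coe (F := F), ← io_coe (F := F), h]
  have h2 := (algebraMap K F).injective h1
  exact j.injective (RingOfIntegers.ext h2)

open Classical in
/-- the order of the Frobenius at `α` of `K(∛(d i))` -/
noncomputable def fo {I : Type} (d : I → Ei) (α : Ei) : ℕ :=
  if ∀ i, cs α (d i) = 0 then 1 else 3

lemma w_pow_inj {a b : ZMod 3} (h : (w : Ei) ^ a.val = w ^ b.val) : a = b := by
  revert a b
  decide

lemma w_diff {α : Ei} (hα : Pq α) {a b : ZMod 3} (h : α ∣ (w : Ei) ^ a.val - w ^ b.val) : a = b := by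
  by_contra hab
  have h1 : nr ((w : Ei) ^ a.val - w ^ b.val) = 3 :=
    (by decide : ∀ a b : ZMod 3, ¬ a = b → nr ((w : Ei) ^ a.val - w ^ b.val) = 3) a b hab
  have h2 := mul_star ((w : Ei) ^ a.val - w ^ b.val)
  rw [h1] at h2
  apply hα.norm
  have h3 : ((3 : ℤ) : Ei) = 3 := by norm_num
  rw [← h3, ← h2]
  exact Dvd.dvd.mul_right h _

lemma w_pow_val (n : ℕ) : (w : Ei) ^ n = w ^ ((n : ZMod 3)).val := by
  rw [ZMod.val_natCast]
  conv_lhs => rw [← Nat.div_add_mod n 3, pow_add, pow_mul, w_cube, one_pow,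
    one_mul]

theorem splitV [IsGalois K F] {I : Type} [Fintype I] (d : I → Ei) (x : I → 𝓞 F)
    (hx : ∀ i, x i ^ 3 = io F j (d i))
    (hgen : ∀ L : Subfield F, (∀ k : K, algebraMap K F k ∈ L) → (∀ i, (x i : F) ∈ L) → L = ⊤)
    {α : Ei} (hα : Pq α) (hd : ∀ i, ¬ α ∣ d i) :
    (∀ v : HeightOneSpectrum (𝓞 F), io F j α ∈ v.asIdeal →
      Nat.card (𝓞 F ⧸ v.asIdeal) = (nr α).natAbs ^ fo d α) ∧
    Nat.card {v : HeightOneSpectrum (𝓞 F) // io F j α ∈ v.asIdeal} * fo d α =
      Module.finrank K F := by
  classical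
  have hfd : FiniteDimensional K F := by
    have : IsScalarTower ℚ K F := IsScalarTower.of_algebraMap_eq' (RingHom.ext_rat _ _)
    exact Module.Finite.of_restrictScalars_finite ℚ K F
  have halg : ∀ a : Ei, algebraMap (𝓞 K) (𝓞 F) (j a) = io F j a := fun _ => rfl
  have hσι : ∀ (σ : F ≃ₐ[K] F) (a : Ei), σ • (io F j a) = io F j a := by
    intro σ a
    apply RingOfIntegers.ext
    change σ ((io F j a : 𝓞 F) : F) = _
    rw [io_coe, AlgEquiv.commutes]
  have hcomm : SMulCommClass (F ≃ₐ[K] F) (𝓞 K) (𝓞 F) := by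
    constructor
    intro g a y
    obtain ⟨a', rfl⟩ := j.surjective a
    rw [Algebra.smul_def, Algebra.smul_def, halg, smul_mul', hσι]
  have hinv : Algebra.IsInvariant (𝓞 K) (𝓞 F) (F ≃ₐ[K] F) := by
    constructor
    intro b hb
    obtain ⟨y, hy⟩ := (IsGalois.mem_range_algebraMap_iff_fixed (F := K) (b : F)).2 (fun σ =>
      congrArg (fun z : 𝓞 F => (z : F)) (hb σ))
    have h1 : IsIntegral ℤ y := by
      have h2 : IsIntegral ℤ (algebraMap K F y) := by rw [hy]; exact b.2
      exact (isIntegral_algHom_iff ((algebraMap K F).toIntAlgHom) (algebraMap K F).injective).1 h2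
    refine ⟨⟨y, h1⟩, ?_⟩
    apply RingOfIntegers.ext
    exact hy
  have hp0 : j α ≠ 0 := (map_ne_zero_iff j j.injective).2 hα.prime.ne_zero
  have hpr : Prime (j α) := (MulEquiv.prime_iff j).2 hα.prime
  have hprI : (Ideal.span {j α}).IsPrime := (Ideal.span_singleton_prime hp0).2 hpr
  have hbot : (Ideal.span {j α} : Ideal (𝓞 K)) ≠ ⊥ := by
    rwa [Ne, Ideal.span_singleton_eq_bot]
  have hmax : (Ideal.span {j α}).IsMaximal := hprI.isMaximal hbot
  have hfz : Finite (𝓞 K ⧸ Ideal.span {j α}) := Ideal.finiteQuotientOfFreeOfNeBot _ hbot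
  have hcardz : Nat.card (𝓞 K ⧸ Ideal.span {j α}) = (nr α).natAbs := by
    have h1 : Nat.card (𝓞 K ⧸ Ideal.span {j α}) = Nat.card (Ei ⧸ Ideal.span {α}) := by
      refine Nat.card_congr (Ideal.quotientEquiv _ _ j.symm ?_).toEquiv
      rw [Ideal.map_span, Set.image_singleton]
      simp
    rw [h1]
    have h2 := Pool.Agent.Y715.T.Rs.card_quo α
    omega
  -- the action on the cube roots
  have hω := Pool.Agent.R432.C.om_K j
  have hω' : (((io F j w : 𝓞 F) : F)) ^ 2 + ((io F j w : 𝓞 F) : F) + 1 = 0 := by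
    rw [io_coe, ← map_pow, ← map_add, ← map_one (algebraMap K F), ← map_add, hω, map_zero]
  have hd0 : ∀ i, d i ≠ 0 := fun i h => hd i (by rw [h]; exact dvd_zero _)
  have hx0 : ∀ i, x i ≠ 0 := by
    intro i h
    have h1 := hx i
    rw [h, zero_pow (by norm_num)] at h1
    exact hd0 i (io_inj (F := F) j (by rw [map_zero]; exact h1.symm))
  have hu : ∀ σ : F ≃ₐ[K] F, ∀ i, ∃ c : ZMod 3, σ • x i = io F j (w ^ c.val) * x i := by
    intro σ i
    have hx3 : ((x i : 𝓞 F) : F) ^ 3 = ((io F j (d i) : 𝓞 F) : F) := by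
      rw [← hx i]
      push_cast
      rfl
    have h1 : (σ (x i : F)) ^ 3 = (x i : F) ^ 3 := by
      rw [← map_pow, hx3, io_coe, AlgEquiv.commutes]
    obtain ⟨c, hc⟩ := Pool.Agent.R432.C.cube_roots hω' h1
    refine ⟨c, ?_⟩
    apply RingOfIntegers.ext
    change σ (x i : F) = _
    rw [hc, map_pow]
    push_cast
    rfl
  have hext : ∀ g : F ≃ₐ[K] F, (∀ i, g • x i = x i) → g = 1 := by
    intro g hg
    have h5 := hgen (RingHom.eqLocusField (g : F →+* F) (RingHom.id F))
      (fun y => g.commutes y) (fun i => congrArg (fun z : 𝓞 F => (z : F)) (hg i))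
    ext y
    have h7 : y ∈ RingHom.eqLocusField (g : F →+* F) (RingHom.id F) := by rw [h5]; trivial
    exact h7
  -- one place
  have key : ∀ v : HeightOneSpectrum (𝓞 F), io F j α ∈ v.asIdeal →
      Nat.card (𝓞 F ⧸ v.asIdeal) = (nr α).natAbs ^ fo d α ∧
      ((Ideal.span {j α} : Ideal (𝓞 K)).primesOver (𝓞 F)).ncard * fo d α =
        Module.finrank K F := by
    intro v hv
    have hvpr := v.isPrime
    have hvmax : v.asIdeal.IsMaximal := v.isPrime.isMaximal v.ne_bot
    have hfv : Finite (𝓞 F ⧸ v.asIdeal) := Ideal.finiteQuotientOfFreeOfNeBot v.asIdeal v.ne_bot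
    have hover : v.asIdeal.LiesOver (Ideal.span {j α}) := by
      constructor
      refine hmax.eq_of_le ?_ ?_
      · exact (inferInstance : (v.asIdeal.under (𝓞 K)).IsPrime).ne_top
      · rw [Ideal.span_singleton_le_iff_mem, Ideal.mem_comap]
        exact hv
    have hzmem : ∀ y : Ei, io F j y ∈ v.asIdeal → α ∣ y := by
      intro y hy
      have h1 : j y ∈ v.asIdeal.under (𝓞 K) := by
        rw [Ideal.mem_comap]; exact hy
      rw [← hover.over, Ideal.mem_span_singleton] at h1
      exact (map_dvd_iff j).1 h1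
    have hrv : ∀ i, x i ∉ v.asIdeal := by
      intro i h
      have h1 : io F j (d i) ∈ v.asIdeal := by
        rw [← hx i, pow_succ]
        exact v.asIdeal.mul_mem_left _ h
      exact hd i (hzmem _ h1)
    -- units are determined modulo `v`
    have hdet : ∀ i, ∀ a b : ZMod 3, io F j (w ^ a.val) * x i - io F j (w ^ b.val) * x i ∈ v.asIdeal →
        a = b := by
      intro i a b h
      have h1 : io F j (w ^ a.val - w ^ b.val) * x i ∈ v.asIdeal := by
        rw [map_sub, sub_mul]; exact h
      rcases v.isPrime.mem_or_mem h1 with h2 | h2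
      · have h3 := hzmem _ h2
        exact w_diff hα h3
      · exact absurd h2 (hrv i)
    obtain ⟨σ, hσ⟩ := IsArithFrobAt.exists_of_isInvariant (𝓞 K) (F ≃ₐ[K] F) v.asIdeal
    have hσ' : ∀ y : 𝓞 F, σ • y - y ^ Nat.card (𝓞 K ⧸ Ideal.span {j α}) ∈ v.asIdeal := by
      intro y
      have h1 := hσ y
      rw [← hover.over] at h1
      exact h1
    have hq4 : ∀ i, σ • x i = io F j (w ^ (cs α (d i)).val) * x i := by
      intro i
      obtain ⟨c, hc⟩ := hu σ i
      have h1 := hσ' (x i)
      rw [hcardz] at h1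
      have hN := Pool.Agent.Y715.T.RecC.nr_nn hα.prime hα.norm
      have h3 : x i ^ (nr α).natAbs = io F j ((d i) ^ nn α) * x i := by
        rw [map_pow, ← hx i, ← pow_mul, ← pow_succ]
        congr 1
      have h4 : io F j ((d i) ^ nn α) - io F j (w ^ (cs α (d i)).val) ∈ v.asIdeal := by
        rw [← map_sub]
        obtain ⟨c, hc'⟩ := cs_spec hα.prime hα.norm (hd i)
        rw [hc', map_mul]
        exact v.asIdeal.mul_mem_right _ hv
      have h5 : io F j (w ^ c.val) * x i - io F j (w ^ (cs α (d i)).val) * x i ∈ v.asIdeal := by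
        have h6 := v.asIdeal.add_mem h1 (v.asIdeal.mul_mem_right (x i) h4)
        rw [h3, hc] at h6
        have e : io F j (w ^ c.val) * x i - io F j ((d i) ^ nn α) * x i +
          (io F j ((d i) ^ nn α) - io F j (w ^ (cs α (d i)).val)) * x i =
            io F j (w ^ c.val) * x i - io F j (w ^ (cs α (d i)).val) * x i := by ring
        rwa [e] at h6
      rw [hc, hdet i c _ h5]
    have hpow : ∀ n : ℕ, ∀ i, (σ ^ n) • x i = io F j (w ^ ((cs α (d i)).val * n)) * x i := by
      intro n
      induction n with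
      | zero =>
        intro i
        rw [pow_zero, one_smul, mul_zero, pow_zero, map_one, one_mul]
      | succ n ih =>
        intro i
        rw [pow_succ, mul_smul, hq4 i, smul_mul', hσι, ih i, ← mul_assoc, ← map_mul, ← pow_add]
        congr 3
        ring
    have hone : ∀ n : ℕ, σ ^ n = 1 ↔ ∀ i, (n : ZMod 3) * cs α (d i) = 0 := by
      intro n
      have key : ∀ i, (σ ^ n) • x i = io F j (w ^ ((n : ZMod 3) * cs α (d i)).val) * x i := by
        intro i
        rw [hpow n i]
        congr 2
        rw [w_pow_val]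
        congr 2
        push_cast
        rw [ZMod.natCast_zmod_val, mul_comm]
      constructor
      · intro h i
        have h1 := key i
        rw [h, one_smul] at h1
        have h2 : io F j (w ^ ((n : ZMod 3) * cs α (d i)).val) = 1 := by
          have h3 : io F j (w ^ ((n : ZMod 3) * cs α (d i)).val) * x i = 1 * x i := by
            rw [one_mul]; exact h1.symm
          exact mul_right_cancel₀ (hx0 i) h3
        have h3 : (w : Ei) ^ ((n : ZMod 3) * cs α (d i)).val = w ^ (0 : ZMod 3).val := by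
          apply io_inj (F := F) j
          rw [h2, ZMod.val_zero, pow_zero, map_one]
        exact w_pow_inj h3
      · intro h
        apply hext
        intro i
        rw [key i, h i, ZMod.val_zero, pow_zero, map_one, one_mul]
    have hord : orderOf σ = fo d α := by
      unfold fo
      split_ifs with h1
      · rw [orderOf_eq_one_iff, ← pow_one σ, hone 1]
        intro i
        rw [h1 i, mul_zero]
      · have := Fact.mk Nat.prime_three
        apply orderOf_eq_prime
        · rw [hone 3]
          intro i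
          have h30 : ((3 : ℕ) : ZMod 3) = 0 := rfl
          rw [h30, zero_mul]
        · intro h3
          apply h1
          intro i
          rw [← pow_one σ, hone 1] at h3
          have := h3 i
          rwa [Nat.cast_one, one_mul] at this
    have h5 := split_abs (F ≃ₐ[K] F) (Ideal.span {j α}) v.asIdeal (by
      intro g hg
      apply hext
      intro i
      obtain ⟨c, hc⟩ := hu g i
      have h7 := hg (x i)
      rw [hc] at h7
      have h8 := hdet i c 0 (by rw [ZMod.val_zero, pow_zero, map_one, one_mul]; exact h7)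
      rw [hc, h8, ZMod.val_zero, pow_zero, map_one, one_mul]) σ hσ'
    rw [hcardz, hord, IsGalois.card_aut_eq_finrank] at h5
    exact h5
  -- existence of a place
  have hex : ∃ v : HeightOneSpectrum (𝓞 F), io F j α ∈ v.asIdeal := by
    have hnu : ¬ IsUnit (io F j α) := by
      intro hun
      obtain ⟨y, hy⟩ := hun.exists_right_inv
      obtain ⟨b, hb⟩ := hinv.isInvariant y (by
        intro t
        have h4 : io F j α * (t • y) = 1 := by
          rw [← hσι t α, ← smul_mul', hy, smul_one]
        exact hun.mul_left_cancel (h4.trans hy.symm))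
      obtain ⟨b', rfl⟩ := j.surjective b
      apply hα.prime.not_isUnit
      refine IsUnit.of_mul_eq_one b' ?_
      apply io_inj (F := F) j
      rw [map_mul, map_one, ← halg b', hb]
      exact hy
    obtain ⟨M, hM, hzM⟩ := exists_max_ideal_of_mem_nonunits (mem_nonunits_iff.2 hnu)
    refine ⟨⟨M, hM.isPrime, ?_⟩, hzM⟩
    intro hbot
    rw [hbot, Ideal.mem_bot] at hzM
    exact hα.prime.ne_zero (io_inj (F := F) j (by rw [hzM, map_zero]))
  obtain ⟨v0, hv0⟩ := hex
  refine ⟨fun v hv => (key v hv).1, ?_⟩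
  have h6 := (key v0 hv0).2
  have h7 : Nat.card {v : HeightOneSpectrum (𝓞 F) // io F j α ∈ v.asIdeal} =
      ((Ideal.span {j α} : Ideal (𝓞 K)).primesOver (𝓞 F)).ncard := by
    rw [← Nat.card_coe_set_eq]
    refine Nat.card_congr
      { toFun := fun v => ⟨v.1.asIdeal, v.1.isPrime, ?_⟩
        invFun := fun P => ⟨⟨P.1, P.2.1, ?_⟩, ?_⟩
        left_inv := fun v => rfl
        right_inv := fun P => rfl }
    · constructor
      have := v.1.isPrime
      refine hmax.eq_of_le ?_ ?_
      · exact (inferInstance : (v.1.asIdeal.under (𝓞 K)).IsPrime).ne_top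
      · rw [Ideal.span_singleton_le_iff_mem, Ideal.mem_comap]
        exact v.2
    · have h8 := P.2.2.over
      intro hbot
      have h9 : j α ∈ P.1.under (𝓞 K) := by
        rw [← h8]; exact Ideal.mem_span_singleton_self _
      rw [Ideal.mem_comap, hbot, Ideal.mem_bot, halg] at h9
      exact hα.prime.ne_zero (io_inj (F := F) j (by rw [h9, map_zero]))
    · have h8 := P.2.2.over
      have h9 : j α ∈ P.1.under (𝓞 K) := by
        rw [← h8]; exact Ideal.mem_span_singleton_self _
      rw [Ideal.mem_comap] at h9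
      exact h9
  rw [h7, h6]

end Pool.Agent.R432.V
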