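import Pool.Agent.R432.V10

/-!
# The Euler product of `E_D` over `L = ℚ(∛l : l ∈ S)`: assembly
-/

set_option autoImplicit false
set_option linter.unusedSectionVars false

open NumberField IsDedekindDomain Filter Complex
open scoped Topology Classical

namespace Pool.Agent.R432.V

open Pool.Agent.Y692.QS hiding chi
open Pool.Agent.Y715.T.Rec (cs nn)
open Pool.Agent.Y715.T.RecG (Pq cs_spec)
open Pool.Agent.Y696.CT (pq_star cs_star_int cs_inert inert int_ndvd im_star_ne gg chD_prime cs_mul'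
  cpow_two)
open Pool.Agent.R432.C
open Pool.Agent.R432.Q
open Pool.Agent.Y703.CT (IsHL chD Dt pD Ker Cls NoSplit)
open Pool.Agent.Y703.CX (pp)
open Pool.Agent.Y333.CX (pp_spec)

variable {K L F : Type} [Field K] [NumberField K] [Field L] [NumberField L] [Field F]
  [NumberField F] [Algebra K F] [Algebra L F] {j : Ei ≃+* 𝓞 K}

section places

variable {S : Finset ℕ} {x : {l : ℕ // l ∈ S} → 𝓞 F} {D : ℕ}

/-- the Euler factors at the places above `p`, split case -/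
theorem pl1 (C : Ctx L j S x) {p : ℕ} (hp : p.Prime) (hm : p % 3 = 1)
    (hS : ∀ l ∈ S, ¬ p ∣ l) (hD : ¬ p ∣ D) (s : ℂ) {f : ℕ}
    (hf : f = fo (fun i : {l : ℕ // l ∈ S} => ((i.1 : ℕ) : Ei)) (pp p)) :
    HasProd (fun u : {u : HeightOneSpectrum (𝓞 L) // ((p : ℕ) : 𝓞 L) ∈ u.asIdeal} =>
      ef ((D : ℕ) : 𝓞 L) s u.1)
      ((((1 - (toC (w ^ (-cs (pp p) ((D : ℕ) : Ei)).val * pp p) * ((p : ℕ) : ℂ) ^ (-s)) ^ f) *
        (1 - ((starRingEnd ℂ) (toC (w ^ (-cs (pp p) ((D : ℕ) : Ei)).val * pp p)) *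
          ((p : ℕ) : ℂ) ^ (-s)) ^ f))⁻¹) ^ (3 ^ S.card / f)) := by
  obtain ⟨hα, hn⟩ := pp_spec hp hm
  obtain ⟨⟨hfin, hcard⟩, hall⟩ := places1 C hp hm hα hn hS hD hf
  let _ : Fintype {u : HeightOneSpectrum (𝓞 L) // ((p : ℕ) : 𝓞 L) ∈ u.asIdeal} := Fintype.ofFinite _
  have hf0 : 0 < f := by
    rw [hf]
    unfold fo
    split_ifs <;> norm_num
  have hN : Fintype.card {u : HeightOneSpectrum (𝓞 L) // ((p : ℕ) : 𝓞 L) ∈ u.asIdeal} =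
      3 ^ S.card / f := by
    rw [← Nat.card_eq_fintype_card, ← hcard, Nat.mul_div_cancel _ hf0]
  have h1 : ∀ u : {u : HeightOneSpectrum (𝓞 L) // ((p : ℕ) : 𝓞 L) ∈ u.asIdeal},
      ef ((D : ℕ) : 𝓞 L) s u.1 =
      ((1 - (toC (w ^ (-cs (pp p) ((D : ℕ) : Ei)).val * pp p) * ((p : ℕ) : ℂ) ^ (-s)) ^ f) *
        (1 - ((starRingEnd ℂ) (toC (w ^ (-cs (pp p) ((D : ℕ) : Ei)).val * pp p)) *
          ((p : ℕ) : ℂ) ^ (-s)) ^ f))⁻¹ := by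
    intro u
    obtain ⟨h2, h3⟩ := hall u.1 u.2
    rw [ef_eq h3, h2, Nat.cast_pow, npow, map_pow, mul_pow, mul_pow]
  have h4 := hasProd_fintype (fun u : {u : HeightOneSpectrum (𝓞 L) //
    ((p : ℕ) : 𝓞 L) ∈ u.asIdeal} => ef ((D : ℕ) : 𝓞 L) s u.1)
  rw [Finset.prod_congr rfl fun u _ => h1 u, Finset.prod_const, Finset.card_univ, hN] at h4
  exact h4

/-- the Euler factors at the places above `p`, inert case -/
theorem pl2 (C : Ctx L j S x) {p : ℕ} (hp : p.Prime) (hm : p % 3 = 2)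
    (hS : ∀ l ∈ S, ¬ p ∣ l) (hD : ¬ p ∣ D) (s : ℂ) :
    HasProd (fun u : {u : HeightOneSpectrum (𝓞 L) // ((p : ℕ) : 𝓞 L) ∈ u.asIdeal} =>
      ef ((D : ℕ) : 𝓞 L) s u.1)
      (((1 + (p : ℂ) * (((p : ℕ) : ℂ) ^ (-s)) ^ 2)⁻¹) ^ (3 ^ S.card)) := by
  obtain ⟨⟨hfin, hsum⟩, hall⟩ := places2 C hp hm hS hD
  have h1 : ∀ u : {u : HeightOneSpectrum (𝓞 L) // ((p : ℕ) : 𝓞 L) ∈ u.asIdeal},
      ef ((D : ℕ) : 𝓞 L) s u.1 = ((1 + (p : ℂ) * (((p : ℕ) : ℂ) ^ (-s)) ^ 2)⁻¹) ^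
        Nat.card {v : HeightOneSpectrum (𝓞 F) // Ov u.1 v} := by
    intro u
    rcases hall u.1 u.2 with ⟨h2, h3, h4⟩ | ⟨h2, h3⟩
    · rw [ef_eq h4, h2, h3, Nat.cast_pow, npow, map_neg, Complex.conj_natCast, inv_pow]
      congr 1
      ring
    · rw [h3, pow_one]
      unfold ef
      rw [cn_two hm h2, h2, sub_self, zero_mul, sub_zero, cpow_two hp]
      congr 2
      ring
  have h4 := hasProd_fintype (fun u : {u : HeightOneSpectrum (𝓞 L) //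
    ((p : ℕ) : 𝓞 L) ∈ u.asIdeal} => ef ((D : ℕ) : 𝓞 L) s u.1)
  rw [Finset.prod_congr rfl fun u _ => h1 u, Finset.prod_pow_eq_pow_sum, hsum] at h4
  exact h4

/-- the traces exist -/
theorem tr_ex (C : Ctx L j S x) {p : ℕ} (hp : p.Prime) (hp3 : p ≠ 3)
    (hS : ∀ l ∈ S, ¬ p ∣ l) (hD : ¬ p ∣ D) {u : HeightOneSpectrum (𝓞 L)}
    (hu : ((p : ℕ) : 𝓞 L) ∈ u.asIdeal) : ∃ y, Tr ((D : ℕ) : 𝓞 L) u y := by
  have hm : p % 3 = 1 ∨ p % 3 = 2 := by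
    have : p % 3 ≠ 0 := fun h => hp3
      ((Nat.prime_dvd_prime_iff_eq Nat.prime_three hp).1 (Nat.dvd_of_mod_eq_zero h)).symm
    omega
  rcases hm with hm | hm
  · obtain ⟨hα, hn⟩ := pp_spec hp hm
    exact ⟨_, ((places1 C hp hm hα hn hS hD rfl).2 u hu).2⟩
  · rcases (places2 C hp hm hS hD).2 u hu with ⟨-, -, h4⟩ | ⟨h2, -⟩
    · exact ⟨_, h4⟩
    · refine ⟨Complex.I * (Real.sqrt p : ℂ), ?_⟩
      have h5 : ((Real.sqrt (p : ℝ) : ℝ) : ℂ) * ((Real.sqrt (p : ℝ) : ℝ) : ℂ) = (p : ℂ) := by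
        rw [← Complex.ofReal_mul, Real.mul_self_sqrt (Nat.cast_nonneg p)]
        push_cast
        rfl
      unfold Tr
      rw [cn_two hm h2, h2, map_mul, Complex.conj_I, Complex.conj_ofReal]
      constructor
      · ring
      · linear_combination (-(Complex.I ^ 2)) * h5 - (p : ℂ) * Complex.I_sq

end places

/-- **The Euler product of `E_D` over `L`.** -/
theorem eulL {S : Finset ℕ} {x : {l : ℕ // l ∈ S} → 𝓞 F} (C : Ctx L j S x)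
    {J : Type} [Fintype J] [Nonempty J] {π : J → Ei} {e : J → ZMod 3} (hD : Dt π e)
    (hk : Ker π e) (h9 : ¬ (9 : ℤ) ∣ nr (pD π e) - 1) {D : ℕ} (hD0 : D ≠ 0)
    (hDp : (D : Ei) = pD π e ∨ (D : Ei) = -pD π e) {a : ℕ → ℕ} (hA : Adm D a S)
    {j₀ : Ei → J} (hL : Leaf π j₀ (SE S)) :
    ∃ G : ℂ → ℂ, Differentiable ℂ G ∧ G 1 ≠ 0 ∧ ∀ s : ℂ, 3 / 2 < s.re →
      HasProd (fun u : {u : HeightOneSpectrum (𝓞 L) |
        ((3 * D * ∏ l ∈ S, l : ℕ) : 𝓞 L) ∉ u.asIdeal} => ef ((D : ℕ) : 𝓞 L) s u.1) (G s) := by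
  obtain ⟨M, hM⟩ : ∃ M : ℕ, M = 3 * D * ∏ l ∈ S, l := ⟨_, rfl⟩
  rw [← hM]
  have hM0 : M ≠ 0 := by
    rw [hM]
    exact mul_ne_zero (mul_ne_zero (by norm_num) hD0)
      (Finset.prod_ne_zero_iff.2 fun l hl => (hA.pr l hl).ne_zero)
  have hM0' : ((M : ℕ) : Ei) ≠ 0 := by
    intro h
    have h1 := nat_dvd_nat (a := 0) (b := M) (by rw [h]; exact dvd_zero _)
    exact hM0 (Nat.eq_zero_of_zero_dvd h1)
  have hMp : ∀ p : ℕ, ¬ p ∣ M → p ≠ 3 ∧ ¬ p ∣ D ∧ ∀ l ∈ S, ¬ p ∣ l := by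
    intro p hp
    rw [hM] at hp
    refine ⟨fun h => hp ?_, fun h => hp ((h.mul_left 3).mul_right _), fun l hl h => hp ?_⟩
    · rw [h, mul_assoc]
      exact dvd_mul_right _ _
    · exact (h.trans (Finset.dvd_prod_of_mem _ hl)).mul_left _
  -- the functions of the twists
  have hV := fun t : {l : ℕ // l ∈ S} → ZMod 3 =>
    Pool.Agent.Y696.CTE.val_ne (leaf_dt hD hL (tE t)) (leaf_ker hD hk hL (tE t))
      (leaf_nine hL h9 (tE t))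
  choose L0 hL01 hL02 using hV
  choose G hG1 hG2 hG3 using fun t : {l : ℕ // l ∈ S} → ZMod 3 =>
    gm (leaf_dt hD hL (tE t)).pq (hL01 t) (hL02 t) hM0'
  refine ⟨fun s => ∏ t : {l : ℕ // l ∈ S} → ZMod 3, G t s,
    Differentiable.fun_finsetProd fun t _ => hG1 t,
    Finset.prod_ne_zero_iff.2 fun t _ => hG2 t, fun s hs => ?_⟩
  have h3M : 3 ∣ M := ⟨D * ∏ l ∈ S, l, by rw [hM, mul_assoc]⟩
  have hreg := fun t : {l : ℕ // l ∈ S} → ZMod 3 => regroup h3M (hG3 t s hs)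
  set U : Set (HeightOneSpectrum (𝓞 L)) := {u | ((M : ℕ) : 𝓞 L) ∉ u.asIdeal} with hU
  have hex : ∀ u : U, ∃ p : {p : ℕ // p.Prime ∧ ¬ p ∣ M}, ((p.1 : ℕ) : 𝓞 L) ∈ u.1.asIdeal := by
    intro u
    obtain ⟨p, hp, hu⟩ := exists_p_below u.1
    refine ⟨⟨p, hp, fun h => u.2 ?_⟩, hu⟩
    obtain ⟨c, rfl⟩ := h
    rw [Nat.cast_mul]
    exact u.1.asIdeal.mul_mem_right _ hu
  choose β hβ using hex
  have hβu : ∀ (u : U) (p : {p : ℕ // p.Prime ∧ ¬ p ∣ M}), ((p.1 : ℕ) : 𝓞 L) ∈ u.1.asIdeal →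
      β u = p := by
    intro u p hp
    exact Subtype.ext (p_below_unique (β u).2.1 p.2.1 (hβ u) hp)
  have hnM : ∀ (p : {p : ℕ // p.Prime ∧ ¬ p ∣ M}) (u : HeightOneSpectrum (𝓞 L)),
      ((p.1 : ℕ) : 𝓞 L) ∈ u.asIdeal → ((M : ℕ) : 𝓞 L) ∉ u.asIdeal := by
    intro p u hu h
    have h5 : IsCoprime (p.1 : ℤ) (M : ℤ) := by
      rw [Int.isCoprime_iff_gcd_eq_one]
      have h6 : Nat.Coprime p.1 M := (Nat.Prime.coprime_iff_not_dvd p.2.1).2 p.2.2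
      exact_mod_cast h6
    obtain ⟨b, c, hbc⟩ := h5
    apply u.isPrime.ne_top
    rw [Ideal.eq_top_iff_one]
    have h7 : ((b * p.1 + c * M : ℤ) : 𝓞 L) = 1 := by rw [hbc]; norm_num
    rw [← h7]
    push_cast
    exact u.asIdeal.add_mem (u.asIdeal.mul_mem_left _ hu) (u.asIdeal.mul_mem_left _ h)
  refine eul_abs (fun u hu => ?_) hs β (h := fun p => ∏ t : {l : ℕ // l ∈ S} → ZMod 3,
    Gp (gg (πL π (tE t)) (fun i => -eL e (tE t) i) s) p.1) ?_ ?_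
  · obtain ⟨h1, h2, h3⟩ := hMp _ (β ⟨u, hu⟩).2.2
    exact tr_ex C (β ⟨u, hu⟩).2.1 h1 h3 h2 (hβ ⟨u, hu⟩)
  · intro p
    obtain ⟨h1, h2, h3⟩ := hMp p.1 p.2.2
    let E : {u : U // β u = p} ≃ {u : HeightOneSpectrum (𝓞 L) // ((p.1 : ℕ) : 𝓞 L) ∈ u.asIdeal} :=
      { toFun := fun u => ⟨u.1.1, by have h1 := hβ u.1; rwa [u.2] at h1⟩
        invFun := fun u => ⟨⟨u.1, hnM p u.1 u.2⟩, hβu _ _ u.2⟩
        left_inv := fun u => rfl
        right_inv := fun u => rfl }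
    have hm : p.1 % 3 = 1 ∨ p.1 % 3 = 2 := by
      have : p.1 % 3 ≠ 0 := fun h => h1
        ((Nat.prime_dvd_prime_iff_eq Nat.prime_three p.2.1).1 (Nat.dvd_of_mod_eq_zero h)).symm
      omega
    rcases hm with hm | hm
    · have h4 := pl1 C p.2.1 hm h3 h2 s rfl
      have h5 := E.hasProd_iff.2 h4
      show HasProd _ (∏ t : {l : ℕ // l ∈ S} → ZMod 3,
        Gp (gg (πL π (tE t)) (fun i => -eL e (tE t) i) s) p.1)
      rw [tw1 hD hDp hA hL p.2.1 hm h2 h3 s rfl]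
      exact h5
    · have h4 := pl2 C p.2.1 hm h3 h2 s
      have h5 := E.hasProd_iff.2 h4
      show HasProd _ (∏ t : {l : ℕ // l ∈ S} → ZMod 3,
        Gp (gg (πL π (tE t)) (fun i => -eL e (tE t) i) s) p.1)
      rw [tw2 hD hDp hA hL p.2.1 hm h2 h3 s]
      exact h5
  · exact hasProd_prod fun t _ => hreg t

end Pool.Agent.R432.V
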