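import Pool.Agent.R432.V1
import Pool.Agent.Y696.CTK.LK

/-!
# The number of points of `y² + D y = x³` over the residue fields
-/

set_option autoImplicit false
set_option linter.unusedSectionVars false

open NumberField IsDedekindDomain

namespace Pool.Agent.R432.V

open Pool.Agent.Y692.QS hiding chi
open Pool.Agent.Y715.T.Rec (cs nn)
open Pool.Agent.Y715.T.RecG (Pq cs_spec)
open Pool.Agent.Y715.T.Rs (eq0 eq0_coe card_quo)
open Pool.Agent.Y696 Pool.Agent.W192.HK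
open Pool.Agent.Y696.CTK (eq0_surj toC_w toC_star' card_points_d chi_val)
open scoped Classical

lemma zpow3 {M : Type} [Monoid M] {z : M} (hz : z ^ 3 = 1) {m n : ℕ}
    (h : (m : ZMod 3) = (n : ZMod 3)) : z ^ m = z ^ n := by
  have h1 : m % 3 = n % 3 := (ZMod.natCast_eq_natCast_iff' m n 3).1 h
  rw [← Nat.div_add_mod m 3, ← Nat.div_add_mod n 3, pow_add, pow_add, pow_mul, pow_mul, hz,
    one_pow, one_pow, h1]

lemma not_three {α : Ei} (hα : Pq α) : ¬ α ∣ 3 := hα.norm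

section
variable {F : Type} [Field F] [NumberField F] (φ : Ei →+* 𝓞 F)

lemma mem_iff {v : HeightOneSpectrum (𝓞 F)} {α : Ei} (hα : Pq α) (hv : φ α ∈ v.asIdeal) (y : Ei) :
    φ y ∈ v.asIdeal ↔ α ∣ y := by
  constructor
  · intro h
    by_contra hcon
    obtain ⟨a, b, hab⟩ := (hα.prime.irreducible.coprime_iff_not_dvd).2 hcon
    apply v.isPrime.ne_top
    rw [Ideal.eq_top_iff_one, ← map_one φ, ← hab, map_add, map_mul, map_mul]
    exact v.asIdeal.add_mem (v.asIdeal.mul_mem_left _ hv) (v.asIdeal.mul_mem_left _ h)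
  · rintro ⟨c, rfl⟩
    rw [map_mul]
    exact v.asIdeal.mul_mem_right _ hv

/-- the exponent -/
lemma exp_ex (n f : ℕ) : ∃ t : ℕ, (3 * n + 1) ^ f = 3 * (n * t) + 1 ∧ (t : ZMod 3) = f := by
  induction f with
  | zero => exact ⟨0, by simp, rfl⟩
  | succ f ih =>
    obtain ⟨t, h1, h2⟩ := ih
    refine ⟨t * (3 * n + 1) + 1, ?_, ?_⟩
    · rw [pow_succ, h1]
      ring
    · push_cast
      rw [h2]
      have h3 : (3 : ZMod 3) = 0 := rfl
      rw [h3]
      ring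

theorem cntF {v : HeightOneSpectrum (𝓞 F)} {α D : Ei} (hα : Pq α) (hv : φ α ∈ v.asIdeal)
    (hD : ¬ α ∣ D) {f : ℕ} (hf : Nat.card (𝓞 F ⧸ v.asIdeal) = (nr α).natAbs ^ f) :
    ((Nat.card (𝓞 F ⧸ v.asIdeal) : ℕ) : ℂ) -
      (Nat.card {P : (𝓞 F ⧸ v.asIdeal) × (𝓞 F ⧸ v.asIdeal) //
        P.2 ^ 2 + Ideal.Quotient.mk v.asIdeal (φ D) * P.2 = P.1 ^ 3} : ℕ) =
      toC (w ^ (-cs α D).val * α) ^ f + (starRingEnd ℂ) (toC (w ^ (-cs α D).val * α)) ^ f := by
  have hvmax : v.asIdeal.IsMaximal := v.isPrime.isMaximal v.ne_bot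
  have hfv : Finite (𝓞 F ⧸ v.asIdeal) := Ideal.finiteQuotientOfFreeOfNeBot v.asIdeal v.ne_bot
  let _ : Field (𝓞 F ⧸ v.asIdeal) := Ideal.Quotient.field v.asIdeal
  let _ : Fintype (𝓞 F ⧸ v.asIdeal) := Fintype.ofFinite _
  set ρ : eis →+* (𝓞 F ⧸ v.asIdeal) :=
    (Ideal.Quotient.mk v.asIdeal).comp (φ.comp (eq0.symm : eis →+* Ei)) with hρd
  have hρa : ∀ x : Ei, ρ (eq0 x) = Ideal.Quotient.mk v.asIdeal (φ x) := by
    intro x
    show Ideal.Quotient.mk v.asIdeal (φ (eq0.symm (eq0 x))) = _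
    rw [eq0.symm_apply_apply]
  have hker : ∀ x, ρ x = 0 ↔ eq0 α ∣ x := by
    intro x
    obtain ⟨y, rfl⟩ := eq0_surj x
    rw [hρa, Ideal.Quotient.eq_zero_iff_mem, mem_iff φ hα hv, map_dvd_iff eq0]
  have h3 : (3 : 𝓞 F ⧸ v.asIdeal) ≠ 0 := by
    intro h
    have h1 : ρ (eq0 3) = 0 := by rw [hρa, map_ofNat, map_ofNat]; exact h
    rw [hker, map_dvd_iff eq0] at h1
    exact not_three hα h1
  have hcard : Fintype.card (𝓞 F ⧸ v.asIdeal) = (nr α).natAbs ^ f := by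
    rw [← Nat.card_eq_fintype_card]
    exact hf
  have hq : ((Fintype.card (𝓞 F ⧸ v.asIdeal) : ℕ) : eis) = (eq0 α * cj (eq0 α)) ^ f := by
    rw [hcard, Nat.cast_pow]
    congr 1
    apply coe_inj'
    rw [cj_mul_coe, eq0_coe, toC_normSq]
    have h5 := Int.natAbs_of_nonneg (nr_nonneg α)
    have h6 : (((nr α).natAbs : ℤ) : ℂ) = ((nr α : ℤ) : ℂ) := by rw [h5]
    have h7 : ∀ m : ℕ, (((m : ℕ) : eis) : ℂ) = ((m : ℤ) : ℂ) := fun m => by
      push_cast
      rfl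
    have h8 : (((nr α : ℝ) : ℝ) : ℂ) = ((nr α : ℤ) : ℂ) := by push_cast; rfl
    rw [h8, ← h6]
    exact h7 _
  obtain ⟨χ, h, h1, hρ⟩ := exists_chi ρ h3
  have hx : ρ (eq0 D) ≠ 0 := by
    rw [Ne, hker, map_dvd_iff eq0]
    exact hD
  have h4 := card_points_d ρ h h3 hρ hx
  obtain ⟨h5, h6⟩ := jac_eq ρ h3 h h1 hρ (π := eq0 α) ((MulEquiv.prime_iff (eq0 : Ei ≃* eis)).2
    hα.prime) (by
      obtain ⟨t, ht⟩ := hα.three
      have : eq0 α - 1 = 3 * eq0 t := by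
        have := congrArg eq0 ht
        rwa [map_sub, map_one, map_mul, map_ofNat] at this
      rw [this]
      exact Ideal.mem_span_singleton.2 (dvd_mul_right _ _)) hker hq
  have heqw : eq0 w = omr := by
    apply coe_inj'
    rw [eq0_coe, omr_coe]
    exact toC_w
  have hcs := cs_spec hα.prime hα.norm hD
  have hN := Pool.Agent.Y715.T.RecC.nr_nn hα.prime hα.norm
  have hNn := nr_nonneg α
  obtain ⟨t, ht1, ht2⟩ := exp_ex (nn α) f
  have hm : (Fintype.card (𝓞 F ⧸ v.asIdeal) - 1) / 3 = nn α * t := by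
    have h7 : (nr α).natAbs = 3 * nn α + 1 := by omega
    rw [hcard, h7, ht1]
    omega
  have hχ : χ (ρ (eq0 D)) = omr ^ (((f : ZMod 3) * cs α D).val) := by
    refine chi_val ρ h h3 hρ hx rfl (ZMod.val_lt _) ?_
    rw [hm, hker, ← heqw, ← map_pow, ← map_pow, ← map_sub, map_dvd_iff eq0]
    have h8 : (w : Ei) ^ (((f : ZMod 3) * cs α D).val) = (w ^ (cs α D).val) ^ t := by
      rw [← pow_mul]
      refine zpow3 w_cube ?_
      rw [ZMod.natCast_zmod_val]
      push_cast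
      rw [ZMod.natCast_zmod_val, ht2, mul_comm]
    rw [h8, pow_mul]
    exact dvd_trans hcs (sub_dvd_pow_sub_pow _ _ _)
  rw [hχ, h5, h6] at h4
  have h9 := congrArg (fun t : eis => (t : ℂ)) h4
  push_cast at h9
  rw [hρa] at h9
  have e1 : ((eq0 α : eis) : ℂ) = toC α := eq0_coe α
  have e2 : ((cj (eq0 α) : eis) : ℂ) = (starRingEnd ℂ) (toC α) := by rw [cj_coe, eq0_coe]
  have e3 : ((omr : eis) : ℂ) = toC w := by rw [omr_coe]; exact toC_w.symm
  rw [e1, e2, e3] at h9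
  rw [Nat.card_eq_fintype_card (α := 𝓞 F ⧸ v.asIdeal)]
  have hz3 : toC w ^ 3 = 1 := by rw [← map_pow, w_cube, map_one]
  have hzc : (starRingEnd ℂ) (toC w) = toC w ^ 2 := by
    rw [← toC_star', ← map_pow]
    congr 1
  have k1 : toC (w ^ (-cs α D).val * α) ^ f =
      (toC w ^ (((f : ZMod 3) * cs α D).val)) ^ 2 * toC α ^ f := by
    rw [map_mul, map_pow, mul_pow, ← pow_mul, ← pow_mul]
    congr 1
    refine zpow3 hz3 ?_
    push_cast
    rw [ZMod.natCast_zmod_val, ZMod.natCast_zmod_val]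
    generalize cs α D = c
    generalize (f : ZMod 3) = f'
    revert c f'
    decide
  have k2 : (starRingEnd ℂ) (toC (w ^ (-cs α D).val * α)) ^ f =
      toC w ^ (((f : ZMod 3) * cs α D).val) * (starRingEnd ℂ) (toC α) ^ f := by
    rw [map_mul, map_mul, map_pow, map_pow, hzc, mul_pow, ← pow_mul, ← pow_mul]
    congr 1
    refine zpow3 hz3 ?_
    push_cast
    rw [ZMod.natCast_zmod_val, ZMod.natCast_zmod_val]
    generalize cs α D = c
    generalize (f : ZMod 3) = f'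
    revert c f'
    decide
  rw [k1, k2, h9]
  ring

end

end Pool.Agent.R432.V
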