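import Pool.Agent.R432.V2
import Pool.Agent.Y699.E.Pd

/-!
# Euler products
-/

set_option autoImplicit false
set_option linter.unusedSectionVars false

open NumberField IsDedekindDomain Filter Complex
open scoped Topology

namespace Pool.Agent.R432.V

open Pool.Agent.Y692.QS hiding chi
open Pool.Agent.Y715.T.Rec (cs nn)
open Pool.Agent.Y715.T.RecG (Pq cs_spec)
open Pool.Agent.H921R2.TatePole (nm nm_summable two_le_nm)
open Pool.Agent.Y703.CT (IsHL chD Dt)
open Pool.Agent.Y696.CT (fI gg gg_one gg_mul hasProd_Ei fI_prim gn)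

/-! ### the places of a number field -/

section places
variable {F : Type} [Field F] [NumberField F]

/-- the number of elements of the residue field -/
noncomputable def qv (v : HeightOneSpectrum (𝓞 F)) : ℕ := Nat.card (𝓞 F ⧸ v.asIdeal)

/-- the number of affine points of `y² + c y = x³` over the residue field -/
noncomputable def cn (c : 𝓞 F) (v : HeightOneSpectrum (𝓞 F)) : ℕ :=
  Nat.card {P : (𝓞 F ⧸ v.asIdeal) × (𝓞 F ⧸ v.asIdeal) //
    P.2 ^ 2 + Ideal.Quotient.mk v.asIdeal c * P.2 = P.1 ^ 3}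

/-- the Euler factor -/
noncomputable def ef (c : 𝓞 F) (s : ℂ) (v : HeightOneSpectrum (𝓞 F)) : ℂ :=
  (1 - ((qv v : ℂ) - cn c v) * (qv v : ℂ) ^ (-s) + (qv v : ℂ) ^ (1 - 2 * s))⁻¹

lemma qv_eq (v : HeightOneSpectrum (𝓞 F)) : qv v = nm v := by
  unfold qv Pool.Agent.H921R2.TatePole.nm
  rw [Ideal.absNorm_apply, Submodule.cardQuot_apply]

/-- the trace of the Frobenius -/
def Tr (c : 𝓞 F) (v : HeightOneSpectrum (𝓞 F)) (x : ℂ) : Prop :=
  (qv v : ℂ) - cn c v = x + (starRingEnd ℂ) x ∧ x * (starRingEnd ℂ) x = qv v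

lemma ef_eq {c : 𝓞 F} {v : HeightOneSpectrum (𝓞 F)} {x : ℂ} (h : Tr c v x) (s : ℂ) :
    ef c s v = ((1 - x * (qv v : ℂ) ^ (-s)) * (1 - (starRingEnd ℂ) x * (qv v : ℂ) ^ (-s)))⁻¹ := by
  have hq : (qv v : ℂ) ≠ 0 := by
    have h1 := two_le_nm v
    rw [← qv_eq] at h1
    have h2 : qv v ≠ 0 := by omega
    exact_mod_cast h2
  unfold ef
  rw [h.1]
  congr 1
  have h2 : (qv v : ℂ) ^ (1 - 2 * s) = (qv v : ℂ) * ((qv v : ℂ) ^ (-s)) ^ 2 := by
    have e : (1 - 2 * s : ℂ) = 1 + ((2 : ℕ) : ℂ) * (-s) := by push_cast; ring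
    rw [e, Complex.cpow_add _ _ hq, Complex.cpow_one, Complex.cpow_nat_mul]
  rw [h2]
  linear_combination (-((qv v : ℂ) ^ (-s)) ^ 2) * h.2

theorem inv_bound {x y : ℂ} {w : ℝ} (hx : ‖x‖ ≤ w) (hy : ‖y‖ ≤ w) (hw : w ≤ 1 / 4) :
    ‖((1 - x) * (1 - y))⁻¹ - 1‖ ≤ 12 * w := by
  have hw0 : 0 ≤ w := (norm_nonneg x).trans hx
  set u : ℂ := x + y - x * y with hu
  have h1 : (1 - x) * (1 - y) = 1 - u := by rw [hu]; ring
  have h2 : ‖u‖ ≤ 3 * w := by
    calc ‖u‖ ≤ ‖x + y‖ + ‖x * y‖ := norm_sub_le _ _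
      _ ≤ (‖x‖ + ‖y‖) + ‖x‖ * ‖y‖ := by rw [norm_mul]; gcongr; exact norm_add_le _ _
      _ ≤ (w + w) + w * w := by gcongr
      _ ≤ 3 * w := by nlinarith
  have h3 : 1 / 4 ≤ ‖1 - u‖ := by
    have h4 := norm_sub_norm_le (1 : ℂ) u
    rw [norm_one] at h4
    linarith
  have h5 : (1 - u) ≠ 0 := by
    intro h
    rw [h, norm_zero] at h3
    norm_num at h3
  have h6 : (1 - u)⁻¹ - 1 = u / (1 - u) := by
    field_simp
    ring
  rw [h1, h6, norm_div, div_le_iff₀ (by linarith)]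
  nlinarith

lemma tr_norm {c : 𝓞 F} {v : HeightOneSpectrum (𝓞 F)} {x : ℂ} (h : Tr c v x) :
    ‖x‖ = (qv v : ℝ) ^ (1 / 2 : ℝ) := by
  have h1 : (‖x‖ ^ 2 : ℝ) = qv v := by
    have h2 := h.2
    rw [Complex.mul_conj, Complex.normSq_eq_norm_sq] at h2
    exact_mod_cast h2
  rw [← h1, ← Real.sqrt_eq_rpow, Real.sqrt_sq (norm_nonneg _)]

theorem mult {c : 𝓞 F} {U : Set (HeightOneSpectrum (𝓞 F))} (hU : ∀ v ∈ U, ∃ x, Tr c v x) {s : ℂ}
    (hs : 3 / 2 < s.re) : Multipliable (fun v : U => ef c s v.1) := by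
  have hsum0 := nm_summable (K := F) (x := s.re - 1 / 2) (by linarith)
  have hsum := hsum0.subtype U
  have h5 : Summable (fun v : U => ‖ef c s v.1 - 1‖) := by
    refine Summable.of_norm_bounded_eventually (hsum.mul_left 12) ?_
    have h6 := hsum.tendsto_cofinite_zero.eventually (Iio_mem_nhds (by norm_num : (0 : ℝ) < 1 / 4))
    filter_upwards [h6] with v hv
    rw [norm_norm]
    obtain ⟨x, hx⟩ := hU v.1 v.2
    have hq0 : (0 : ℝ) < (qv v.1 : ℝ) := by
      have h1 := two_le_nm v.1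
      rw [← qv_eq] at h1
      have h2 : 0 < qv v.1 := by omega
      exact_mod_cast h2
    have hX : ‖(qv v.1 : ℂ) ^ (-s)‖ = (qv v.1 : ℝ) ^ (-s.re) := by
      have h2 : (qv v.1 : ℂ) = ((qv v.1 : ℝ) : ℂ) := by push_cast; rfl
      rw [h2, Complex.norm_cpow_eq_rpow_re_of_pos hq0, Complex.neg_re]
    have hw : ∀ y : ℂ, ‖y‖ = (qv v.1 : ℝ) ^ (1 / 2 : ℝ) →
        ‖y * (qv v.1 : ℂ) ^ (-s)‖ ≤ (nm v.1 : ℝ) ^ (-(s.re - 1 / 2)) := by
      intro y hy
      rw [norm_mul, hy, hX, ← Real.rpow_add hq0, ← qv_eq]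
      apply le_of_eq
      congr 1
      ring
    rw [ef_eq hx]
    exact inv_bound (hw _ (tr_norm hx)) (hw _ (by rw [RCLike.norm_conj]; exact tr_norm hx))
      (le_of_lt hv)
  have h7 := multipliable_one_add_of_summable h5
  refine h7.congr (fun v => ?_)
  ring

/-- from the fibres to the places -/
theorem eul_abs {c : 𝓞 F} {U : Set (HeightOneSpectrum (𝓞 F))} (hU : ∀ v ∈ U, ∃ x, Tr c v x) {s : ℂ}
    (hs : 3 / 2 < s.re) {B : Type} (β : U → B) {h : B → ℂ} {G : ℂ}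
    (hh : ∀ b, HasProd (fun v : {v : U // β v = b} => ef c s v.1.1) (h b)) (hG : HasProd h G) :
    HasProd (fun v : U => ef c s v.1) G := by
  rw [← (Equiv.sigmaFiberEquiv β).hasProd_iff]
  exact HasProd.sigma_of_hasProd hG (fun b => hh b)
    (((Equiv.sigmaFiberEquiv β).multipliable_iff).2 (mult hU hs))

end places

/-! ### the Hecke `L`-functions without some Euler factors -/

section gm

variable {J : Type} [Fintype J] {π : J → Ei} {e : J → ZMod 3}

/-- the prime ideal -/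
noncomputable def ip (α : {α : Ei // Pq α}) : HeightOneSpectrum Ei :=
  ⟨Ideal.span {α.1}, (Ideal.span_singleton_prime α.2.prime.ne_zero).2 α.2.prime, by
    rw [Ne, Ideal.span_singleton_eq_bot]
    exact α.2.prime.ne_zero⟩

lemma ip_inj : Function.Injective ip := by
  intro a b h
  have h1 : Ideal.span {a.1} = Ideal.span {b.1} := congrArg (fun P => P.asIdeal) h
  apply Subtype.ext
  exact (Pool.Agent.R432.C.pq_dvd a.2 b.2 ((Ideal.span_singleton_le_span_singleton).1 h1.ge))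

lemma hasProd_pq {g : Ei → ℂ} (h1 : g 1 = 1) (hm : ∀ a b, g (a * b) = g a * g b) {a : ℂ}
    (h : HasSum (fun α : {α : Ei // (3 : Ei) ∣ α - 1} => g α) a) :
    HasProd (fun α : {α : Ei // Pq α} => (1 - g α.1)⁻¹) a := by
  have h2 := hasProd_Ei h1 hm h
  have h3 : HasProd ((fun P : HeightOneSpectrum Ei => (1 - fI g P.asIdeal)⁻¹) ∘ ip) a := by
    rw [ip_inj.hasProd_iff]
    · exact h2
    · intro P hP
      by_cases h4 : (3 : ℤ) ∣ nr (gn P.asIdeal)
      · unfold fI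
        rw [if_pos h4, sub_zero, inv_one]
      · exfalso
        apply hP
        refine ⟨⟨_, Pool.Agent.Y696.CTK.pq_ns h4⟩, ?_⟩
        apply HeightOneSpectrum.ext
        exact (Pool.Agent.Y696.CTK.span_ns h4).symm
  refine h3.congr_fun fun α => ?_
  show _ = (1 - fI g (Ideal.span {α.1}))⁻¹
  rw [fI_prim g α.2.three]

lemma toC_norm (α : Ei) : ‖toC α‖ = ((nr α : ℤ) : ℝ) ^ (1 / 2 : ℝ) := by
  have h1 := toC_normSq α
  rw [Complex.normSq_eq_norm_sq] at h1
  rw [← h1, ← Real.sqrt_eq_rpow, Real.sqrt_sq (norm_nonneg _)]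

lemma chD_le (π : J → Ei) (e : J → ZMod 3) (α : Ei) : ‖chD π e α‖ ≤ 1 := by
  unfold chD
  split_ifs
  · rw [norm_zero]; exact zero_le_one
  · have h1 : ‖toC w‖ = 1 := by
      have h2 : toC w ^ 3 = 1 := by rw [← map_pow, w_cube, map_one]
      have h3 : ‖toC w‖ ^ 3 = 1 := by rw [← norm_pow, h2, norm_one]
      exact (pow_eq_one_iff_of_nonneg (norm_nonneg _) (by norm_num)).1 h3
    rw [norm_pow, h1, one_pow]

lemma gg_norm_lt (π : J → Ei) (e : J → ZMod 3) {s : ℂ} (hs : 1 / 2 < s.re) {α : Ei} (hα : Pq α) :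
    ‖gg π e s α‖ < 1 := by
  have h2 : 2 ≤ nr α := by
    have h3 := nr_nonneg α
    have h4 : nr α ≠ 0 := fun h => hα.prime.ne_zero (nr_zero_iff.1 h)
    have h5 : nr α ≠ 1 := fun h => hα.prime.not_isUnit (isUnit_iff.2 h)
    omega
  have h0 : (0 : ℝ) < ((nr α : ℤ) : ℝ) := by
    have : (0 : ℤ) < nr α := by omega
    exact_mod_cast this
  have h1 : (1 : ℝ) < ((nr α : ℤ) : ℝ) := by
    have : (1 : ℤ) < nr α := by omega
    exact_mod_cast this
  have hX : ‖((nr α : ℤ) : ℂ) ^ (-s)‖ = ((nr α : ℤ) : ℝ) ^ (-s.re) := by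
    have h3 : ((nr α : ℤ) : ℂ) = (((nr α : ℤ) : ℝ) : ℂ) := by push_cast; rfl
    rw [h3, Complex.norm_cpow_eq_rpow_re_of_pos h0, Complex.neg_re]
  unfold gg
  rw [norm_mul, norm_mul, hX, toC_norm]
  calc ((nr α : ℤ) : ℝ) ^ (1 / 2 : ℝ) * ‖chD π e α‖ * ((nr α : ℤ) : ℝ) ^ (-s.re)
      ≤ ((nr α : ℤ) : ℝ) ^ (1 / 2 : ℝ) * 1 * ((nr α : ℤ) : ℝ) ^ (-s.re) := by
        gcongr
        exact chD_le π e α
    _ = ((nr α : ℤ) : ℝ) ^ (1 / 2 - s.re) := by
        rw [mul_one, ← Real.rpow_add h0]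
        rfl
    _ < 1 := Real.rpow_lt_one_of_one_lt_of_neg h1 (by linarith)

lemma gg_diff (π : J → Ei) (e : J → ZMod 3) {α : Ei} (hα : α ≠ 0) :
    Differentiable ℂ (fun s => gg π e s α) := by
  have h0 : ((nr α : ℤ) : ℂ) ≠ 0 := by
    have h1 : nr α ≠ 0 := fun h => hα (nr_zero_iff.1 h)
    exact_mod_cast h1
  unfold gg
  intro s
  refine DifferentiableAt.const_mul ?_ _
  exact (differentiableAt_id.neg).const_cpow (Or.inl h0)

/-- **The Hecke `L`-function without the Euler factors at the primes dividing `M`.** -/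
theorem gm (hpq : ∀ i, Pq (π i)) {F : ℂ → ℂ} (hF : IsHL π e F) (hF1 : F 1 ≠ 0) {M : Ei}
    (hM : M ≠ 0) : ∃ L : ℂ → ℂ, Differentiable ℂ L ∧ L 1 ≠ 0 ∧ ∀ s : ℂ, 3 / 2 < s.re →
      HasProd (fun α : {α : Ei // Pq α ∧ ¬ α ∣ M} => (1 - gg π e s α.1)⁻¹) (L s) := by
  classical
  set T : Finset Ei := (Pool.Agent.Y699.E.fin_pd hM).toFinset with hT
  have hmem : ∀ α : Ei, α ∈ T ↔ Pq α ∧ α ∣ M := by
    intro α
    rw [hT, Set.Finite.mem_toFinset]
    rfl
  refine ⟨fun s => F s * ∏ α ∈ T, (1 - gg π e s α), ?_, ?_, fun s hs => ?_⟩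
  · refine hF.1.mul ?_
    exact Differentiable.fun_finsetProd fun α hα =>
      (differentiable_const 1).sub (gg_diff π e ((hmem α).1 hα).1.prime.ne_zero)
  · refine mul_ne_zero hF1 (Finset.prod_ne_zero_iff.2 fun α hα => ?_)
    intro h0
    have h1 := gg_norm_lt π e (s := 1) (by norm_num) ((hmem α).1 hα).1
    rw [← sub_eq_zero.1 h0, norm_one] at h1
    exact lt_irrefl _ h1
  · have h1 := hasProd_pq (gg_one hpq e s) (gg_mul hpq e s) (hF.2 s hs)
    have h2 : HasProd (fun α : {α : Ei // Pq α} => if α.1 ∣ M then 1 - gg π e s α.1 else 1)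
        (∏ α ∈ T, (1 - gg π e s α)) := by
      have h3 := hasProd_prod_of_ne_finset_one (L := .unconditional _)
        (s := T.subtype (fun α => Pq α))
        (f := fun α : {α : Ei // Pq α} => if α.1 ∣ M then 1 - gg π e s α.1 else 1)
        (fun α hα => if_neg fun h => hα (by
          rw [Finset.mem_subtype]
          exact (hmem _).2 ⟨α.2, h⟩))
      have h4 : ∏ α ∈ T.subtype (fun α => Pq α), (if α.1 ∣ M then 1 - gg π e s α.1 else 1) =
          ∏ α ∈ T, (1 - gg π e s α) := by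
        rw [← Finset.prod_subtype_of_mem (s := T) (p := fun α => Pq α)
          (fun α => (1 - gg π e s α)) (fun α hα => ((hmem α).1 hα).1)]
        refine Finset.prod_congr rfl fun α hα => ?_
        rw [if_pos ((hmem _).1 (Finset.mem_subtype.1 hα)).2]
      rwa [h4] at h3
    have h5 := h1.mul h2
    set f : {α : Ei // Pq α} → ℂ := fun α => if α.1 ∣ M then 1 else (1 - gg π e s α.1)⁻¹ with hf
    have h6 : HasProd f (F s * ∏ α ∈ T, (1 - gg π e s α)) := by
      refine h5.congr_fun fun α => ?_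
      rw [hf]
      simp only
      split_ifs with h
      · have h7 : (1 - gg π e s α.1) ≠ 0 := by
          intro h0
          have h8 := gg_norm_lt π e (s := s) (by linarith) α.2
          rw [← sub_eq_zero.1 h0, norm_one] at h8
          exact lt_irrefl _ h8
        rw [inv_mul_cancel₀ h7]
      · rw [mul_one]
    let ι : {α : Ei // Pq α ∧ ¬ α ∣ M} → {α : Ei // Pq α} := fun α => ⟨α.1, α.2.1⟩
    have hι : Function.Injective ι := by
      intro a b h
      exact Subtype.ext (congrArg (fun z : {α : Ei // Pq α} => z.1) h)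
    have h7 : HasProd (f ∘ ι) (F s * ∏ α ∈ T, (1 - gg π e s α)) := by
      rw [hι.hasProd_iff]
      · exact h6
      · intro α hα
        rw [hf]
        simp only
        rw [if_pos]
        by_contra hcon
        exact hα ⟨⟨α.1, α.2, hcon⟩, rfl⟩
    refine h7.congr_fun fun α => ?_
    show _ = f (ι α)
    rw [hf]
    simp only
    rw [if_neg α.2.2]

end gm

end Pool.Agent.R432.V
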