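import Pool.Agent.R432.V3

/-!
# The Euler product of `E_D` over `F = K(∛l : l ∈ S)` and the Hecke `L`-functions
-/

set_option autoImplicit false
set_option linter.unusedSectionVars false

open NumberField IsDedekindDomain Filter Complex
open scoped Topology Classical

namespace Pool.Agent.R432.V

open Pool.Agent.Y692.QS hiding chi
open Pool.Agent.Y715.T.Rec (cs nn)
open Pool.Agent.Y715.T.RecG (Pq cs_spec)
open Pool.Agent.R432.C (zinv)

/-! ### the product over the twists at one place -/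

lemma fib_prod {M I : Type} [CommMonoid M] [Fintype I] [DecidableEq I] (s : I → ZMod 3) {i0 : I}
    (hi0 : s i0 ≠ 0) (f : ZMod 3 → M) :
    ∏ t : I → ZMod 3, f (∑ i, s i * t i) = (∏ b, f b) ^ (3 ^ (Fintype.card I - 1)) := by
  obtain ⟨c, hc⟩ : ∃ c : (I → ZMod 3) → ZMod 3, ∀ t, c t = ∑ i, s i * t i := ⟨_, fun t => rfl⟩
  have hadd : ∀ t b, c (t + Pi.single i0 ((s i0)⁻¹ * b)) = c t + b := by
    intro t b
    rw [hc, hc]
    simp only [Pi.add_apply, mul_add, Finset.sum_add_distrib]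
    congr 1
    rw [Finset.sum_eq_single i0 (fun j _ hj => by
      rw [Pi.single_eq_of_ne hj, mul_zero]) (fun h => absurd (Finset.mem_univ _) h),
      Pi.single_eq_same, ← mul_assoc, zinv hi0, one_mul]
  have hcard : ∀ b : ZMod 3, (Finset.univ.filter fun t => c t = b).card =
      (Finset.univ.filter fun t => c t = 0).card := by
    intro b
    symm
    refine Finset.card_bij (fun t _ => t + Pi.single i0 ((s i0)⁻¹ * b)) ?_ ?_ ?_
    · intro t ht
      rw [Finset.mem_filter] at ht ⊢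
      refine ⟨Finset.mem_univ _, ?_⟩
      rw [hadd, ht.2, zero_add]
    · intro t _ t' _ h
      exact add_right_cancel h
    · intro t ht
      rw [Finset.mem_filter] at ht
      refine ⟨t - Pi.single i0 ((s i0)⁻¹ * b), ?_, sub_add_cancel _ _⟩
      rw [Finset.mem_filter]
      refine ⟨Finset.mem_univ _, ?_⟩
      have h1 := hadd (t - Pi.single i0 ((s i0)⁻¹ * b)) b
      rw [sub_add_cancel, ht.2] at h1
      have h2 : c (t - Pi.single i0 ((s i0)⁻¹ * b)) + b = 0 + b := by rw [← h1, zero_add]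
      exact add_right_cancel h2
  have htot : 3 * (Finset.univ.filter fun t => c t = 0).card = 3 ^ Fintype.card I := by
    have h1 := Finset.card_eq_sum_card_fiberwise (s := (Finset.univ : Finset (I → ZMod 3)))
      (t := (Finset.univ : Finset (ZMod 3))) (f := c) (fun t _ => Finset.mem_univ _)
    rw [Finset.card_univ, Fintype.card_fun, ZMod.card, Finset.sum_congr rfl fun b _ => hcard b,
      Finset.sum_const, Finset.card_univ, ZMod.card, smul_eq_mul] at h1
    exact h1.symm
  have hpos : 0 < Fintype.card I := Fintype.card_pos_iff.2 ⟨i0⟩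
  have hN : (Finset.univ.filter fun t => c t = 0).card = 3 ^ (Fintype.card I - 1) := by
    obtain ⟨n, hn⟩ : ∃ n, Fintype.card I = n + 1 := ⟨Fintype.card I - 1, by omega⟩
    rw [hn, pow_succ] at htot
    rw [hn, Nat.add_sub_cancel]
    omega
  have h1 : ∏ t : I → ZMod 3, f (∑ i, s i * t i) = ∏ t, f (c t) :=
    Finset.prod_congr rfl fun t _ => by rw [hc]
  rw [h1, ← Finset.prod_fiberwise (s := Finset.univ) (g := c)]
  have h5 : ∀ b : ZMod 3, ∏ t ∈ Finset.univ.filter (fun t => c t = b), f (c t) =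
      f b ^ (3 ^ (Fintype.card I - 1)) := by
    intro b
    rw [Finset.prod_congr rfl (g := fun _ => f b) (fun t ht => by
      rw [(Finset.mem_filter.1 ht).2]), Finset.prod_const, hcard, hN]
  rw [Finset.prod_congr rfl fun b _ => h5 b, Finset.prod_pow]

/-- the product of the factors of the twists -/
theorem loc {I : Type} [Fintype I] [DecidableEq I] (c : I → ZMod 3) {ζ : ℂ} (hζ : ζ ^ 2 + ζ + 1 = 0) (Y : ℂ) {f : ℕ}
    (h1 : (∀ i, c i = 0) → f = 1) (h3 : ¬ (∀ i, c i = 0) → f = 3) :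
    ∏ t : I → ZMod 3, (1 - Y * ζ ^ (∑ i, c i * t i).val) = (1 - Y ^ f) ^ (3 ^ Fintype.card I / f) := by
  by_cases hc : ∀ i, c i = 0
  · rw [h1 hc, Nat.div_one, pow_one]
    have h2 : ∀ t : I → ZMod 3, (1 - Y * ζ ^ (∑ i, c i * t i).val) = 1 - Y := by
      intro t
      rw [Finset.sum_eq_zero fun i _ => by rw [hc i, zero_mul], ZMod.val_zero, pow_zero, mul_one]
    rw [Finset.prod_congr rfl fun t _ => h2 t, Finset.prod_const, Finset.card_univ,
      Fintype.card_fun, ZMod.card]
  · rw [h3 hc]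
    push Not at hc
    obtain ⟨i0, hi0⟩ := hc
    rw [fib_prod c hi0 (fun b => 1 - Y * ζ ^ b.val)]
    have h0 : ∀ f : ZMod 3 → ℂ, ∏ b, f b = f 0 * (f 2 * f 1) := by
      intro f
      have : (Finset.univ : Finset (ZMod 3)) = {0, 2, 1} := by decide
      rw [this, Finset.prod_insert (by decide), Finset.prod_insert (by decide),
        Finset.prod_singleton]
    have v0 : (0 : ZMod 3).val = 0 := rfl
    have v1 : (1 : ZMod 3).val = 1 := rfl
    have v2 : (2 : ZMod 3).val = 2 := rfl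
    have h4 : (1 - Y * ζ ^ (0 : ZMod 3).val) * ((1 - Y * ζ ^ (2 : ZMod 3).val) *
        (1 - Y * ζ ^ (1 : ZMod 3).val)) = 1 - Y ^ 3 := by
      rw [v0, v1, v2]
      have h5 : ζ ^ 3 = 1 := by linear_combination (ζ - 1) * hζ
      linear_combination (-Y + Y ^ 2) * hζ + (Y ^ 2 - Y ^ 3) * h5 - 0 * h5
    rw [h0, h4]
    congr 1
    have hpos : 0 < Fintype.card I := Fintype.card_pos_iff.2 ⟨i0⟩
    obtain ⟨n, hn⟩ : ∃ n, Fintype.card I = n + 1 := ⟨Fintype.card I - 1, by omega⟩
    rw [hn, pow_succ, Nat.add_sub_cancel, Nat.mul_div_cancel _ (by norm_num)]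

/-! ### the prime below -/

section below

variable {F : Type} [Field F] [NumberField F] {φ : Ei →+* 𝓞 F} (hφ : Function.Injective φ)

include hφ in
lemma below {v : HeightOneSpectrum (𝓞 F)} (h3 : (3 : 𝓞 F) ∉ v.asIdeal) :
    ∃ α : Ei, Pq α ∧ φ α ∈ v.asIdeal := by
  have hN := Ideal.absNorm_mem v.asIdeal
  have hN0 : Ideal.absNorm v.asIdeal ≠ 0 := fun h => v.ne_bot (Ideal.absNorm_eq_zero_iff.1 h)
  let P : HeightOneSpectrum Ei := ⟨v.asIdeal.comap φ, v.isPrime.comap φ, by
    intro h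
    have h1 : ((Ideal.absNorm v.asIdeal : ℕ) : Ei) ∈ v.asIdeal.comap φ := by
      rw [Ideal.mem_comap, map_natCast]
      exact hN
    rw [h, Ideal.mem_bot] at h1
    have h2 := congrArg φ h1
    rw [map_natCast, map_zero] at h2
    exact hN0 (by exact_mod_cast h2)⟩
  have h4 : ¬ (3 : ℤ) ∣ nr (Pool.Agent.Y696.CT.gn P.asIdeal) := by
    intro h
    apply h3
    have h5 := Pool.Agent.Y696.CTK.three_span h
    have h6 : (3 : Ei) ∈ P.asIdeal := by
      rw [h5, Ideal.mem_span_singleton]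
      exact ⟨-Pool.Agent.Y696.CTK.tht, by linear_combination Pool.Agent.Y696.CTK.tht_sq⟩
    have h7 : φ 3 ∈ v.asIdeal := h6
    rwa [map_ofNat] at h7
  refine ⟨_, Pool.Agent.Y696.CTK.pq_ns h4, ?_⟩
  have h5 := Pool.Agent.Y696.CTK.span_ns h4
  have h6 := h5.ge (Ideal.mem_span_singleton_self _)
  exact h6

end below

end Pool.Agent.R432.V
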