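import Pool.Agent.R432.V4
import Pool.Agent.Y696.CTE.Tw

/-!
# The `L`-function of `E_D` over `F = K(∛l : l ∈ S)`
-/

set_option autoImplicit false
set_option linter.unusedSectionVars false

open NumberField IsDedekindDomain Filter Complex
open scoped Topology Classical

namespace Pool.Agent.R432.V

open Pool.Agent.Y692.QS hiding chi
open Pool.Agent.Y715.T.Rec (cs nn)
open Pool.Agent.Y715.T.RecG (Pq cs_spec)
open Pool.Agent.Y703.CT (IsHL chD Dt pD Ker)
open Pool.Agent.Y696.CT (gg chD_prime cs_mul')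
open Pool.Agent.R432.C

variable {K : Type} [Field K] [NumberField K] (j : Ei ≃+* 𝓞 K)

lemma npow (n f : ℕ) (z : ℂ) : ((n : ℂ) ^ f) ^ z = ((n : ℂ) ^ z) ^ f := by
  induction f with
  | zero => rw [pow_zero, pow_zero, Complex.one_cpow]
  | succ f ih =>
    rw [pow_succ, pow_succ, ← ih]
    have h := Complex.natCast_mul_natCast_cpow (n ^ f) n z
    rwa [Nat.cast_pow] at h

/-- the trace at a place -/
theorem tr_at {F : Type} [Field F] [NumberField F] (φ : Ei →+* 𝓞 F) {v : HeightOneSpectrum (𝓞 F)}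
    {α D : Ei} (hα : Pq α) (hv : φ α ∈ v.asIdeal) (hD : ¬ α ∣ D) {f : ℕ}
    (hf : Nat.card (𝓞 F ⧸ v.asIdeal) = (nr α).natAbs ^ f) :
    Tr (φ D) v (toC (w ^ (-cs α D).val * α) ^ f) := by
  have hn : (((nr α).natAbs : ℕ) : ℂ) = ((nr α : ℤ) : ℂ) := by
    have h5 := Int.natAbs_of_nonneg (nr_nonneg α)
    have h6 : (((nr α).natAbs : ℤ) : ℂ) = ((nr α : ℤ) : ℂ) := by rw [h5]
    exact (Int.cast_natCast _).symm.trans h6
  constructor
  · rw [map_pow]
    exact cntF φ hα hv hD hf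
  · rw [map_pow, ← mul_pow, Complex.mul_conj, toC_normSq, nr_mul]
    have h5 : nr (w ^ (-cs α D).val) = 1 := by
      generalize -cs α D = c
      revert c
      decide
    rw [h5, one_mul]
    unfold qv
    rw [hf, Nat.cast_pow, hn]
    push_cast
    rfl

/-- one factor of the Hecke `L`-function of a twist -/
theorem gg_tw {J : Type} [Fintype J] {π : J → Ei} {e : J → ZMod 3} (hD : Dt π e)
    {j₀ : Ei → J} {S : Finset Ei} (hL : Leaf π j₀ S) (t : {x : Ei // x ∈ S} → ZMod 3) {α : Ei}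
    (hα : Pq α) (h1 : ¬ α ∣ pD π e) (h2 : ∀ l ∈ S, ¬ α ∣ l) (s : ℂ) :
    gg (πL π t) (fun i => -eL e t i) s α =
      (toC (w ^ (-cs α (pD π e)).val * α) * ((nr α : ℤ) : ℂ) ^ (-s)) *
        toC w ^ (∑ i : {x : Ei // x ∈ S}, (-cs α i.1) * t i).val := by
  have hpr : ¬ α ∣ ∏ i : {x : Ei // x ∈ S}, i.1 ^ (t i).val := by
    intro h
    obtain ⟨i, -, hi⟩ := (hα.prime.dvd_finsetProd_iff _).1 h
    exact h2 i.1 i.2 (hα.prime.dvd_of_dvd_pow hi)
  have hnd : ¬ α ∣ pD (πL π t) (eL e t) := by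
    rw [leaf_pD]
    intro h
    rcases hα.prime.dvd_or_dvd h with h | h
    · exact h1 h
    · exact hpr h
  have h3 := chD_prime Pool.Agent.Y350.CT.rec (leaf_dt hD hL t) (Or.inl rfl) hα hnd
  have h4 : cs α (pD (πL π t) (eL e t)) = cs α (pD π e) +
      ∑ i : {x : Ei // x ∈ S}, cs α i.1 * t i := by
    rw [leaf_pD, cs_mul' hα h1 hpr]
    congr 1
    rw [Pool.Agent.Y715.T.RecG.cs_prod hα.prime hα.norm _ _
      fun i _ h5 => h2 i.1 i.2 (hα.prime.dvd_of_dvd_pow h5)]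
    refine Finset.sum_congr rfl fun i _ => ?_
    rw [Pool.Agent.Y715.T.RecG.cs_pow hα.prime hα.norm (h2 i.1 i.2), ZMod.natCast_zmod_val, mul_comm]
  unfold gg
  rw [h3, h4, neg_add]
  have hz3 : toC w ^ 3 = 1 := by rw [← map_pow, w_cube, map_one]
  have h5 : -(∑ i : {x : Ei // x ∈ S}, cs α i.1 * t i) =
      ∑ i : {x : Ei // x ∈ S}, (-cs α i.1) * t i := by
    rw [← Finset.sum_neg_distrib]
    exact Finset.sum_congr rfl fun i _ => (neg_mul _ _).symm
  rw [h5, pow_add_val hz3, map_mul, map_pow]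
  ring

lemma conj_int_cpow {n : ℤ} (hn : 0 ≤ n) (z : ℂ) :
    (starRingEnd ℂ) ((n : ℂ) ^ z) = (n : ℂ) ^ (starRingEnd ℂ) z := by
  obtain ⟨m, rfl⟩ := Int.eq_ofNat_of_zero_le hn
  exact_mod_cast Pool.Agent.Y696.CTK.conj_nat_cpow' m z

/-- **The `L`-function of `E_D` over `F = K(∛l : l ∈ S)`** is entire and not zero at `1`. -/
theorem eulF {J : Type} [Fintype J] [Nonempty J] {π : J → Ei} {e : J → ZMod 3} (hD : Dt π e)
    (hk : Ker π e) (h9 : ¬ (9 : ℤ) ∣ nr (pD π e) - 1) {j₀ : Ei → J} {S : Finset Ei}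
    (hL : Leaf π j₀ S) {F : Type} [Field F] [NumberField F] [Algebra K F] (x : Ei → F)
    (hx : ∀ l ∈ S, x l ^ 3 = algebraMap K F ((j l : 𝓞 K) : K))
    (hgen : ∀ L : Subfield F, (∀ k : K, algebraMap K F k ∈ L) → (∀ l ∈ S, x l ∈ L) → L = ⊤) :
    ∃ L : ℂ → ℂ, Differentiable ℂ L ∧ L 1 ≠ 0 ∧ ∀ s : ℂ, 3 / 2 < s.re →
      HasProd (fun v : {v : HeightOneSpectrum (𝓞 F) |
        io F j (3 * pD π e * ∏ l ∈ S, l) ∉ v.asIdeal} => ef (io F j (pD π e)) s v.1) (L s) := by
  have hω := om_K j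
  obtain ⟨hfd, hgal⟩ := gal3 (F := F) hω (I := {x : Ei // x ∈ S}) (fun i => ((j i.1 : 𝓞 K) : K))
    (fun i => x i.1) (fun i => hx i.1 i.2) (fun L h1 h2 => hgen L h1 fun l hl => h2 ⟨l, hl⟩)
  obtain ⟨hdeg, -, -⟩ := tower j hD hk h9 hL x hx hgen
  have hcard : Fintype.card {x : Ei // x ∈ S} = S.card := Fintype.card_coe S
  -- the cube roots as integers
  have hint : ∀ i : {x : Ei // x ∈ S}, IsIntegral ℤ (x i.1) := by
    intro i
    refine IsIntegral.of_pow (n := 3) (by norm_num) ?_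
    rw [hx i.1 i.2]
    exact (j i.1).2.map ((algebraMap K F).toIntAlgHom)
  set x' : {x : Ei // x ∈ S} → 𝓞 F := fun i => ⟨x i.1, hint i⟩ with hx'd
  have hx' : ∀ i, x' i ^ 3 = io F j i.1 := by
    intro i
    apply RingOfIntegers.ext
    rw [io_coe, ← hx i.1 i.2]
    rfl
  have hgen' : ∀ L : Subfield F, (∀ k : K, algebraMap K F k ∈ L) → (∀ i, (x' i : F) ∈ L) → L = ⊤ :=
    fun L h1 h2 => hgen L h1 fun l hl => h2 ⟨l, hl⟩
  set M : Ei := 3 * pD π e * ∏ l ∈ S, l with hM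
  have hD0 : pD π e ≠ 0 := Pool.Agent.Y153.CTRAM.ne_zero_of hD
  have hM0 : M ≠ 0 := mul_ne_zero (mul_ne_zero (by decide) hD0)
    (Finset.prod_ne_zero_iff.2 fun l hl => (hL.pq l hl).prime.ne_zero)
  have hMp : ∀ α : Ei, Pq α → ¬ α ∣ M → ¬ α ∣ pD π e ∧ ∀ l ∈ S, ¬ α ∣ l := by
    intro α _ hα
    refine ⟨fun h => hα ((h.mul_left 3).mul_right _), fun l hl h => hα ?_⟩
    exact (h.trans (Finset.dvd_prod_of_mem _ hl)).mul_left _
  have hφ : Function.Injective (io F j) := io_inj j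
  -- the functions of the twists
  have hA := fun t : {x : Ei // x ∈ S} → ZMod 3 =>
    Pool.Agent.Y696.CTE.val_ne (leaf_dt hD hL t) (leaf_ker hD hk hL t) (leaf_nine hL h9 t)
  choose L0 hL01 hL02 using hA
  choose L hL1 hL2 hL3 using fun t : {x : Ei // x ∈ S} → ZMod 3 =>
    gm (leaf_dt hD hL t).pq (hL01 t) (hL02 t) hM0
  refine ⟨fun s => ∏ t : {x : Ei // x ∈ S} → ZMod 3,
    (L t s * (starRingEnd ℂ) (L t ((starRingEnd ℂ) s))), ?_, ?_, fun s hs => ?_⟩
  · refine Differentiable.fun_finsetProd fun t _ => (hL1 t).mul ?_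
    intro s
    have h1 := (hL1 t ((starRingEnd ℂ) s)).conj_conj
    rw [Complex.conj_conj] at h1
    exact h1
  · refine Finset.prod_ne_zero_iff.2 fun t _ => mul_ne_zero (hL2 t) ?_
    rw [map_one]
    exact (map_ne_zero _).2 (hL2 t)
  · have hsc : 3 / 2 < ((starRingEnd ℂ) s).re := by rwa [Complex.conj_re]
    set U : Set (HeightOneSpectrum (𝓞 F)) := {v | io F j M ∉ v.asIdeal} with hU
    -- the prime below
    have hex : ∀ v : U, ∃ α : {α : Ei // Pq α ∧ ¬ α ∣ M}, io F j α.1 ∈ v.1.asIdeal := by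
      intro v
      have h3 : (3 : 𝓞 F) ∉ v.1.asIdeal := by
        intro h
        apply v.2
        rw [hM, map_mul, map_mul, map_ofNat, mul_assoc]
        exact Ideal.mul_mem_right _ _ h
      obtain ⟨α, h4, h5⟩ := below hφ h3
      refine ⟨⟨α, h4, fun h6 => v.2 ?_⟩, h5⟩
      exact (mem_iff (io F j) h4 h5 M).2 h6
    choose β hβ using hex
    have hβu : ∀ (v : U) (b : {α : Ei // Pq α ∧ ¬ α ∣ M}), io F j b.1 ∈ v.1.asIdeal → β v = b := by
      intro v b hb
      apply Subtype.ext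
      exact pq_dvd (β v).2.1 b.2.1 ((mem_iff (io F j) (β v).2.1 (hβ v) b.1).1 hb)
    have hsp := fun b : {α : Ei // Pq α ∧ ¬ α ∣ M} =>
      splitV (F := F) j (fun i : {x : Ei // x ∈ S} => i.1) x' hx' hgen' b.2.1
        (fun i => (hMp _ b.2.1 b.2.2).2 i.1 i.2)
    have htr : ∀ (b : {α : Ei // Pq α ∧ ¬ α ∣ M}) (v : HeightOneSpectrum (𝓞 F)),
        io F j b.1 ∈ v.asIdeal → Tr (io F j (pD π e)) v
          (toC (w ^ (-cs b.1 (pD π e)).val * b.1) ^ fo (fun i : {x : Ei // x ∈ S} => i.1) b.1) :=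
      fun b v hv => tr_at (io F j) b.2.1 hv (hMp _ b.2.1 b.2.2).1 ((hsp b).1 v hv)
    set h : {α : Ei // Pq α ∧ ¬ α ∣ M} → ℂ := fun b => ∏ t : {x : Ei // x ∈ S} → ZMod 3,
      ((1 - gg (πL π t) (fun i => -eL e t i) s b.1)⁻¹ *
        (starRingEnd ℂ) ((1 - gg (πL π t) (fun i => -eL e t i) ((starRingEnd ℂ) s) b.1)⁻¹)) with hh
    refine eul_abs (fun v hv => ⟨_, htr (β ⟨v, hv⟩) v (hβ ⟨v, hv⟩)⟩) hs β (h := h) ?_ ?_
    · intro b
      set f := fo (fun i : {x : Ei // x ∈ S} => i.1) b.1 with hf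
      obtain ⟨hs1, hs2⟩ := hsp b
      rw [← hf, hdeg] at hs2
      have hf0 : 0 < f := by
        rw [hf]
        unfold fo
        split_ifs <;> norm_num
      -- the fibre
      let E : {v : U // β v = b} ≃ {v : HeightOneSpectrum (𝓞 F) // io F j b.1 ∈ v.asIdeal} :=
        { toFun := fun v => ⟨v.1.1, by have h1 := hβ v.1; rwa [v.2] at h1⟩
          invFun := fun v => ⟨⟨v.1, fun h1 => b.2.2 ((mem_iff (io F j) b.2.1 v.2 M).1 h1)⟩,
            hβu _ _ v.2⟩
          left_inv := fun v => rfl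
          right_inv := fun v => rfl }
      have hfin : Finite {v : HeightOneSpectrum (𝓞 F) // io F j b.1 ∈ v.asIdeal} := by
        refine Nat.finite_of_card_ne_zero fun h0 => ?_
        rw [h0, zero_mul] at hs2
        exact absurd hs2.symm (by positivity)
      have hfin' : Finite {v : U // β v = b} := Finite.of_equiv _ E.symm
      let _ : Fintype {v : U // β v = b} := Fintype.ofFinite _
      have hN : Fintype.card {v : U // β v = b} = 3 ^ Fintype.card {x : Ei // x ∈ S} / f := by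
        rw [← Nat.card_eq_fintype_card, Nat.card_congr E, hcard, ← hs2, Nat.mul_div_cancel _ hf0]
      have hn0 : ((nr b.1 : ℤ) : ℂ) ≠ 0 := by
        have h1 : nr b.1 ≠ 0 := fun h => b.2.1.prime.ne_zero (nr_zero_iff.1 h)
        exact_mod_cast h1
      have hnn : (((nr b.1).natAbs : ℕ) : ℂ) = ((nr b.1 : ℤ) : ℂ) := by
        have h5 := Int.natAbs_of_nonneg (nr_nonneg b.1)
        have h6 : (((nr b.1).natAbs : ℤ) : ℂ) = ((nr b.1 : ℤ) : ℂ) := by rw [h5]
        exact (Int.cast_natCast _).symm.trans h6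
      set X : ℂ := toC (w ^ (-cs b.1 (pD π e)).val * b.1) with hX
      set Q : ℂ := ((nr b.1 : ℤ) : ℂ) ^ (-s) with hQ
      have hconst : ∀ v : {v : U // β v = b}, ef (io F j (pD π e)) s v.1.1 =
          ((1 - (X * Q) ^ f) * (1 - ((starRingEnd ℂ) X * Q) ^ f))⁻¹ := by
        intro v
        have hv : io F j b.1 ∈ v.1.1.asIdeal := by have h1 := hβ v.1; rwa [v.2] at h1
        rw [ef_eq (htr b v.1.1 hv)]
        have hq : (qv v.1.1 : ℂ) ^ (-s) = Q ^ f := by
          unfold qv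
          rw [hs1 v.1.1 hv, ← hf, Nat.cast_pow, npow, hnn, hQ]
        rw [hq, map_pow, mul_pow, mul_pow]
      have hval : h b = ∏ _v : {v : U // β v = b},
          ((1 - (X * Q) ^ f) * (1 - ((starRingEnd ℂ) X * Q) ^ f))⁻¹ := by
        rw [Finset.prod_const, Finset.card_univ, hN, inv_pow, mul_pow, hh]
        simp only
        have hz : toC w ^ 2 + toC w + 1 = 0 := by
          have h1 : (w : Ei) ^ 2 + w + 1 = 0 := by decide
          rw [← map_pow, ← map_add, ← map_one toC, ← map_add, h1, map_zero]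
        have hzc : ((starRingEnd ℂ) (toC w)) ^ 2 + (starRingEnd ℂ) (toC w) + 1 = 0 := by
          rw [← map_pow, ← map_add, ← map_one (starRingEnd ℂ), ← map_add, hz, map_zero]
        have hc1 : (∀ i : {x : Ei // x ∈ S}, -cs b.1 i.1 = 0) → f = 1 := by
          intro h1
          rw [hf]
          unfold fo
          rw [if_pos fun i => neg_eq_zero.1 (h1 i)]
        have hc3 : ¬ (∀ i : {x : Ei // x ∈ S}, -cs b.1 i.1 = 0) → f = 3 := by
          intro h1
          rw [hf]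
          unfold fo
          rw [if_neg fun h2 => h1 fun i => neg_eq_zero.2 (h2 i)]
        rw [Finset.prod_mul_distrib, Finset.prod_inv_distrib, mul_inv]
        obtain ⟨g1, g2⟩ := hMp _ b.2.1 b.2.2
        congr 1
        · congr 1
          rw [← loc (fun i : {x : Ei // x ∈ S} => -cs b.1 i.1) hz (X * Q) hc1 hc3]
          refine Finset.prod_congr rfl fun t _ => ?_
          rw [gg_tw hD hL t b.2.1 g1 g2 s]
        · rw [← map_prod, Finset.prod_inv_distrib, map_inv₀, map_prod]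
          congr 1
          rw [← loc (fun i : {x : Ei // x ∈ S} => -cs b.1 i.1) hzc ((starRingEnd ℂ) X * Q) hc1 hc3]
          refine Finset.prod_congr rfl fun t _ => ?_
          rw [gg_tw hD hL t b.2.1 g1 g2, map_sub, map_one, map_mul, map_mul,
            conj_int_cpow (nr_nonneg b.1), map_neg, Complex.conj_conj, map_pow]
      rw [hval]
      refine (hasProd_fintype _).congr_fun fun v => ?_
      exact (hconst v)
    · have h1 := hasProd_prod (s := (Finset.univ : Finset ({x : Ei // x ∈ S} → ZMod 3)))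
        fun t _ => (hL3 t s hs).mul
          ((hL3 t _ hsc).map (starRingEnd ℂ) Complex.continuous_conj)
      exact h1

end Pool.Agent.R432.V
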