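import Pool.Agent.R432.V5
import Pool.Agent.R432.R4

/-!
# The places of `F = L(ω)` and of `L`
-/

set_option autoImplicit false
set_option linter.unusedSectionVars false

open NumberField IsDedekindDomain Filter Complex
open scoped Topology Classical

namespace Pool.Agent.R432.V

open Pool.Agent.W164.RC (split_abs)

section quad

variable {L F : Type} [Field L] [NumberField L] [Field F] [NumberField F] [Algebra L F]

/-- the place `v` lies over `u` -/
def Ov (u : HeightOneSpectrum (𝓞 L)) (v : HeightOneSpectrum (𝓞 F)) : Prop :=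
  v.asIdeal.comap (algebraMap (𝓞 L) (𝓞 F)) = u.asIdeal

lemma Ov_mem {u : HeightOneSpectrum (𝓞 L)} {v : HeightOneSpectrum (𝓞 F)} (h : Ov u v) (x : 𝓞 L) :
    algebraMap (𝓞 L) (𝓞 F) x ∈ v.asIdeal ↔ x ∈ u.asIdeal := by
  rw [← h]
  rfl

lemma Ov_nat {u : HeightOneSpectrum (𝓞 L)} {v : HeightOneSpectrum (𝓞 F)} (h : Ov u v) (n : ℕ) :
    ((n : ℕ) : 𝓞 F) ∈ v.asIdeal ↔ ((n : ℕ) : 𝓞 L) ∈ u.asIdeal := by
  rw [← Ov_mem h, map_natCast]

/-- the places over `u` are the prime ideals over `u` -/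
lemma card_over (u : HeightOneSpectrum (𝓞 L)) :
    Nat.card {v : HeightOneSpectrum (𝓞 F) // Ov u v} = (u.asIdeal.primesOver (𝓞 F)).ncard := by
  rw [← Nat.card_coe_set_eq]
  refine Nat.card_congr
    { toFun := fun v => ⟨v.1.asIdeal, v.1.isPrime, ⟨v.2.symm⟩⟩
      invFun := fun P => ⟨⟨P.1, P.2.1, ?_⟩, P.2.2.over.symm⟩
      left_inv := fun v => rfl
      right_inv := fun P => rfl }
  intro hbot
  apply u.ne_bot
  have h1 := P.2.2.over
  rw [h1, hbot]
  exact Ideal.comap_bot_of_injective _ (FaithfulSMul.algebraMap_injective (𝓞 L) (𝓞 F))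

lemma exists_over (u : HeightOneSpectrum (𝓞 L)) : ∃ v : HeightOneSpectrum (𝓞 F), Ov u v := by
  have := u.isPrime
  obtain ⟨P⟩ := Ideal.nonempty_primesOver (S := 𝓞 F) u.asIdeal
  refine ⟨⟨P.1, P.2.1, ?_⟩, P.2.2.over.symm⟩
  intro hbot
  apply u.ne_bot
  have h1 := P.2.2.over
  rw [h1, hbot]
  exact Ideal.comap_bot_of_injective _ (FaithfulSMul.algebraMap_injective (𝓞 L) (𝓞 F))

/-- the place below -/
lemma exists_below (v : HeightOneSpectrum (𝓞 F)) : ∃ u : HeightOneSpectrum (𝓞 L), Ov u v := by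
  refine ⟨⟨v.asIdeal.comap (algebraMap (𝓞 L) (𝓞 F)), v.isPrime.comap _, ?_⟩, rfl⟩
  intro h
  have hN := Ideal.absNorm_mem v.asIdeal
  have hN0 : Ideal.absNorm v.asIdeal ≠ 0 := fun h => v.ne_bot (Ideal.absNorm_eq_zero_iff.1 h)
  have h1 : ((Ideal.absNorm v.asIdeal : ℕ) : 𝓞 L) ∈
      v.asIdeal.comap (algebraMap (𝓞 L) (𝓞 F)) := by
    rw [Ideal.mem_comap, map_natCast]
    exact hN
  rw [h, Ideal.mem_bot] at h1
  exact hN0 (by exact_mod_cast h1)

lemma qv_three {u : HeightOneSpectrum (𝓞 L)} (h3 : (3 : 𝓞 L) ∉ u.asIdeal) : qv u % 3 ≠ 0 := by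
  intro h
  have hfin : Finite (𝓞 L ⧸ u.asIdeal) := Ideal.finiteQuotientOfFreeOfNeBot u.asIdeal u.ne_bot
  have := Fact.mk Nat.prime_three
  obtain ⟨x, hx⟩ := exists_prime_addOrderOf_dvd_card' (G := 𝓞 L ⧸ u.asIdeal) 3
    (Nat.dvd_of_mod_eq_zero h)
  have hmax : u.asIdeal.IsMaximal := u.isPrime.isMaximal u.ne_bot
  let _ : Field (𝓞 L ⧸ u.asIdeal) := Ideal.Quotient.field u.asIdeal
  have h1 : (3 : ℕ) • x = 0 := by rw [← hx]; exact addOrderOf_nsmul_eq_zero x
  have hx0 : x ≠ 0 := by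
    rintro rfl
    rw [addOrderOf_zero] at hx
    norm_num at hx
  have h2 : (3 : 𝓞 L ⧸ u.asIdeal) * x = 0 := by
    rw [nsmul_eq_mul] at h1
    exact_mod_cast h1
  have h4 := (mul_eq_zero.1 h2).resolve_right hx0
  apply h3
  rw [← Ideal.Quotient.eq_zero_iff_mem, map_ofNat]
  exact h4

theorem quad [IsGalois L F] (hdeg : Module.finrank L F = 2) {z : 𝓞 F} (hz : z ^ 2 + z + 1 = 0)
    (hgen : ∀ g : F ≃ₐ[L] F, g • z = z → g = 1)
    {u : HeightOneSpectrum (𝓞 L)} (h3 : (3 : 𝓞 L) ∉ u.asIdeal) {v : HeightOneSpectrum (𝓞 F)}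
    (hv : Ov u v) :
    (qv v = qv u ∧ Nat.card {v : HeightOneSpectrum (𝓞 F) // Ov u v} = 2) ∨
    (qv v = qv u ^ 2 ∧ Nat.card {v : HeightOneSpectrum (𝓞 F) // Ov u v} = 1) := by
  have hfd : FiniteDimensional L F := by
    have : IsScalarTower ℚ L F := IsScalarTower.of_algebraMap_eq' (RingHom.ext_rat _ _)
    exact Module.Finite.of_restrictScalars_finite ℚ L F
  have hσι : ∀ (σ : F ≃ₐ[L] F) (a : 𝓞 L), σ • (algebraMap (𝓞 L) (𝓞 F) a) =
      algebraMap (𝓞 L) (𝓞 F) a := by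
    intro σ a
    apply RingOfIntegers.ext
    change σ (algebraMap L F (a : L)) = _
    rw [AlgEquiv.commutes]
    rfl
  have hcomm : SMulCommClass (F ≃ₐ[L] F) (𝓞 L) (𝓞 F) := by
    constructor
    intro g a y
    rw [Algebra.smul_def, Algebra.smul_def, smul_mul', hσι]
  have hinv : Algebra.IsInvariant (𝓞 L) (𝓞 F) (F ≃ₐ[L] F) := by
    constructor
    intro b hb
    obtain ⟨y, hy⟩ := (IsGalois.mem_range_algebraMap_iff_fixed (F := L) (b : F)).2 (fun σ =>
      congrArg (fun z : 𝓞 F => (z : F)) (hb σ))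
    have h1 : IsIntegral ℤ y := by
      have h2 : IsIntegral ℤ (algebraMap L F y) := by rw [hy]; exact b.2
      exact (isIntegral_algHom_iff ((algebraMap L F).toIntAlgHom) (algebraMap L F).injective).1 h2
    refine ⟨⟨y, h1⟩, ?_⟩
    apply RingOfIntegers.ext
    exact hy
  have hupr := u.isPrime
  have humax : u.asIdeal.IsMaximal := u.isPrime.isMaximal u.ne_bot
  have hvpr := v.isPrime
  have hvmax : v.asIdeal.IsMaximal := v.isPrime.isMaximal v.ne_bot
  have hfu : Finite (𝓞 L ⧸ u.asIdeal) := Ideal.finiteQuotientOfFreeOfNeBot u.asIdeal u.ne_bot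
  have hfv : Finite (𝓞 F ⧸ v.asIdeal) := Ideal.finiteQuotientOfFreeOfNeBot v.asIdeal v.ne_bot
  have hover : v.asIdeal.LiesOver u.asIdeal := ⟨hv.symm⟩
  have h3v : (3 : 𝓞 F) ∉ v.asIdeal := by
    intro h
    apply h3
    have h1 := (Ov_nat hv 3).1 (by exact_mod_cast h)
    exact_mod_cast h1
  have hzz : z ^ 2 - z ∉ v.asIdeal := by
    intro h
    apply h3v
    have h1 : (z ^ 2 - z) * (z ^ 2 - z) ∈ v.asIdeal := v.asIdeal.mul_mem_left _ h
    have e : (z ^ 2 - z) * (z ^ 2 - z) = -3 := by linear_combination (z ^ 2 - 3 * z + 3) * hz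
    rw [e, neg_mem_iff] at h1
    exact h1
  -- the two roots
  have hroot : ∀ g : F ≃ₐ[L] F, g • z = z ∨ g • z = z ^ 2 := by
    intro g
    have h1 : (g • z) ^ 2 + (g • z) + 1 = 0 := by
      have h2 : g • (z ^ 2 + z + 1) = 0 := by rw [hz, smul_zero]
      rwa [smul_add, smul_add, smul_pow', smul_one] at h2
    have h2 : (g • z - z) * (g • z - z ^ 2) = 0 := by
      linear_combination h1 - (g • z + 1 - z) * hz
    rcases mul_eq_zero.1 h2 with h | h
    · exact Or.inl (sub_eq_zero.1 h)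
    · exact Or.inr (sub_eq_zero.1 h)
  obtain ⟨σ, hσ⟩ := IsArithFrobAt.exists_of_isInvariant (𝓞 L) (F ≃ₐ[L] F) v.asIdeal
  have hσ' : ∀ y : 𝓞 F, σ • y - y ^ Nat.card (𝓞 L ⧸ u.asIdeal) ∈ v.asIdeal := by
    intro y
    have h1 := hσ y
    rw [← hover.over] at h1
    exact h1
  obtain ⟨h5, h6⟩ := split_abs (F ≃ₐ[L] F) u.asIdeal v.asIdeal (by
    intro g hg
    apply hgen
    rcases hroot g with h | h
    · exact h
    · exfalso
      have h1 := hg z
      rw [h] at h1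
      exact hzz h1) σ hσ'
  rw [IsGalois.card_aut_eq_finrank, hdeg] at h6
  have hz3 : z ^ 3 = 1 := by linear_combination (z - 1) * hz
  have hord : orderOf σ = 1 ∨ orderOf σ = 2 := (Nat.dvd_prime Nat.prime_two).1 ⟨_, by
    rw [mul_comm]; exact h6.symm⟩
  rw [card_over]
  rcases hord with h | h
  · left
    rw [h] at h5 h6
    rw [pow_one] at h5
    exact ⟨h5, by omega⟩
  · right
    rw [h] at h5 h6
    exact ⟨h5, by omega⟩

end quad

end Pool.Agent.R432.V
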