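import Pool.Agent.R432.V6

/-!
# The places of `L = ℚ(∛l : l ∈ S)` above a prime number
-/

set_option autoImplicit false
set_option linter.unusedSectionVars false

open NumberField IsDedekindDomain Filter Complex
open scoped Topology Classical

namespace Pool.Agent.R432.V

open Pool.Agent.Y692.QS hiding chi
open Pool.Agent.Y715.T.Rec (cs nn)
open Pool.Agent.Y715.T.RecG (Pq cs_spec)
open Pool.Agent.Y696.CT (pq_star cs_star_int cs_inert inert int_ndvd im_star_ne)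
open Pool.Agent.R432.C (pq_dvd)

section res

variable {L F : Type} [Field L] [NumberField L] [Field F] [NumberField F] [Algebra L F]

/-- equal residue fields have equal numbers of points -/
lemma cn_eq {u : HeightOneSpectrum (𝓞 L)} {v : HeightOneSpectrum (𝓞 F)} (h : Ov u v)
    (hq : qv v = qv u) (n : ℕ) : cn ((n : ℕ) : 𝓞 L) u = cn ((n : ℕ) : 𝓞 F) v := by
  have hfu : Finite (𝓞 L ⧸ u.asIdeal) := Ideal.finiteQuotientOfFreeOfNeBot u.asIdeal u.ne_bot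
  have hfv : Finite (𝓞 F ⧸ v.asIdeal) := Ideal.finiteQuotientOfFreeOfNeBot v.asIdeal v.ne_bot
  let r : (𝓞 L ⧸ u.asIdeal) →+* (𝓞 F ⧸ v.asIdeal) :=
    Ideal.quotientMap v.asIdeal (algebraMap (𝓞 L) (𝓞 F)) h.ge
  have hinj : Function.Injective r := Ideal.quotientMap_injective' h.le
  have hbij : Function.Bijective r := hinj.bijective_of_nat_card_le hq.le
  let e := Equiv.ofBijective r hbij
  unfold cn
  refine Nat.card_congr (Equiv.subtypeEquiv (Equiv.prodCongr e e) fun P => ?_)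
  show P.2 ^ 2 + Ideal.Quotient.mk u.asIdeal ((n : ℕ) : 𝓞 L) * P.2 = P.1 ^ 3 ↔
    r P.2 ^ 2 + Ideal.Quotient.mk v.asIdeal ((n : ℕ) : 𝓞 F) * r P.2 = r P.1 ^ 3
  rw [map_natCast, map_natCast, ← map_natCast r n, ← map_pow, ← map_mul, ← map_add, ← map_pow]
  exact ⟨fun h1 => by rw [h1], fun h1 => hinj h1⟩

/-- over a field with `p = 2` modulo `3` elements -/
lemma cn_two {u : HeightOneSpectrum (𝓞 L)} {p : ℕ} (h2 : p % 3 = 2) (hq : qv u = p) (c : 𝓞 L) :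
    cn c u = p := by
  have hfu : Finite (𝓞 L ⧸ u.asIdeal) := Ideal.finiteQuotientOfFreeOfNeBot u.asIdeal u.ne_bot
  have hmax : u.asIdeal.IsMaximal := u.isPrime.isMaximal u.ne_bot
  let _ : Field (𝓞 L ⧸ u.asIdeal) := Ideal.Quotient.field u.asIdeal
  let _ : Fintype (𝓞 L ⧸ u.asIdeal) := Fintype.ofFinite _
  have hcard : Fintype.card (𝓞 L ⧸ u.asIdeal) = p := by
    rw [← Nat.card_eq_fintype_card]
    exact hq
  have hp2 : 2 ≤ p := by omega
  have hcube : ∀ x : 𝓞 L ⧸ u.asIdeal, x ^ ((2 * p - 1) / 3 * 3) = x := by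
    intro x
    have h3 : (2 * p - 1) / 3 * 3 = (p - 1) + p := by omega
    have h4 : x ^ p = x := by
      have := FiniteField.pow_card x
      rwa [hcard] at this
    rw [h3, pow_add, h4]
    by_cases h0 : x = 0
    · rw [h0, mul_zero]
    · rw [← pow_succ]
      have h5 : p - 1 + 1 = p := by omega
      rw [h5, h4]
  have h1 : Nat.card {P : (𝓞 L ⧸ u.asIdeal) × (𝓞 L ⧸ u.asIdeal) //
      P.2 ^ 2 + Ideal.Quotient.mk u.asIdeal c * P.2 = P.1 ^ 3} = Nat.card (𝓞 L ⧸ u.asIdeal) := by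
    refine Nat.card_congr
      { toFun := fun P => P.1.2
        invFun := fun y => ⟨((y ^ 2 + Ideal.Quotient.mk u.asIdeal c * y) ^ ((2 * p - 1) / 3), y), ?_⟩
        left_inv := ?_
        right_inv := fun y => rfl }
    · show y ^ 2 + Ideal.Quotient.mk u.asIdeal c * y =
        ((y ^ 2 + Ideal.Quotient.mk u.asIdeal c * y) ^ ((2 * p - 1) / 3)) ^ 3
      rw [← pow_mul, hcube]
    · rintro ⟨⟨x, y⟩, hP⟩
      apply Subtype.ext
      show ((y ^ 2 + Ideal.Quotient.mk u.asIdeal c * y) ^ ((2 * p - 1) / 3), y) = (x, y)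
      have h6 : y ^ 2 + Ideal.Quotient.mk u.asIdeal c * y = x ^ 3 := hP
      rw [h6, ← pow_mul, mul_comm 3, hcube]
  unfold cn
  rw [h1]
  exact hq

lemma Tr_of {u : HeightOneSpectrum (𝓞 L)} {v : HeightOneSpectrum (𝓞 F)} (h : Ov u v)
    (hq : qv v = qv u) {n : ℕ} {x : ℂ} (hT : Tr ((n : ℕ) : 𝓞 F) v x) : Tr ((n : ℕ) : 𝓞 L) u x := by
  unfold Tr at hT ⊢
  rw [cn_eq h hq, ← hq]
  exact hT

/-- the places of `F` above `p` and the places of `L` above `p` -/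
lemma card_sig (p : ℕ) [Finite {v : HeightOneSpectrum (𝓞 F) // ((p : ℕ) : 𝓞 F) ∈ v.asIdeal}] :
    ∃ _h : Fintype {u : HeightOneSpectrum (𝓞 L) // ((p : ℕ) : 𝓞 L) ∈ u.asIdeal},
    Nat.card {v : HeightOneSpectrum (𝓞 F) // ((p : ℕ) : 𝓞 F) ∈ v.asIdeal} =
    ∑ u : {u : HeightOneSpectrum (𝓞 L) // ((p : ℕ) : 𝓞 L) ∈ u.asIdeal},
      Nat.card {v : HeightOneSpectrum (𝓞 F) // Ov u.1 v} := by
  choose β hβ using fun v : HeightOneSpectrum (𝓞 F) => exists_below (L := L) v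
  have huniq : ∀ (u : HeightOneSpectrum (𝓞 L)) (v : HeightOneSpectrum (𝓞 F)), Ov u v → β v = u := by
    intro u v h
    apply HeightOneSpectrum.ext
    rw [← hβ v, ← h]
  let E : {v : HeightOneSpectrum (𝓞 F) // ((p : ℕ) : 𝓞 F) ∈ v.asIdeal} ≃
      Σ u : {u : HeightOneSpectrum (𝓞 L) // ((p : ℕ) : 𝓞 L) ∈ u.asIdeal},
        {v : HeightOneSpectrum (𝓞 F) // Ov u.1 v} :=
    { toFun := fun v => ⟨⟨β v.1, (Ov_nat (hβ v.1) p).1 v.2⟩, ⟨v.1, hβ v.1⟩⟩
      invFun := fun w => ⟨w.2.1, (Ov_nat w.2.2 p).2 w.1.2⟩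
      left_inv := fun v => rfl
      right_inv := by
        rintro ⟨⟨u, hu⟩, ⟨v, hv⟩⟩
        have h1 := huniq u v hv
        subst h1
        rfl }
  have hfin : Finite (Σ u : {u : HeightOneSpectrum (𝓞 L) // ((p : ℕ) : 𝓞 L) ∈ u.asIdeal},
        {v : HeightOneSpectrum (𝓞 F) // Ov u.1 v}) := Finite.of_equiv _ E
  have hfu : Finite {u : HeightOneSpectrum (𝓞 L) // ((p : ℕ) : 𝓞 L) ∈ u.asIdeal} := by
    refine Finite.of_surjective (fun w : (Σ u : {u : HeightOneSpectrum (𝓞 L) //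
      ((p : ℕ) : 𝓞 L) ∈ u.asIdeal}, {v : HeightOneSpectrum (𝓞 F) // Ov u.1 v}) => w.1) ?_
    intro u
    obtain ⟨v, hv⟩ := exists_over (F := F) u.1
    exact ⟨⟨u, ⟨v, hv⟩⟩, rfl⟩
  have hfo : ∀ u : {u : HeightOneSpectrum (𝓞 L) // ((p : ℕ) : 𝓞 L) ∈ u.asIdeal},
      Finite {v : HeightOneSpectrum (𝓞 F) // Ov u.1 v} := by
    intro u
    refine Finite.of_injective (fun v : {v : HeightOneSpectrum (𝓞 F) // Ov u.1 v} =>
      (⟨u, v⟩ : Σ u : {u : HeightOneSpectrum (𝓞 L) // ((p : ℕ) : 𝓞 L) ∈ u.asIdeal},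
        {v : HeightOneSpectrum (𝓞 F) // Ov u.1 v})) ?_
    intro a b h
    exact eq_of_heq (Sigma.mk.inj h).2
  letI hF : Fintype {u : HeightOneSpectrum (𝓞 L) // ((p : ℕ) : 𝓞 L) ∈ u.asIdeal} :=
    Fintype.ofFinite _
  refine ⟨hF, ?_⟩
  rw [Nat.card_congr E, Nat.card_sigma]

end res

end Pool.Agent.R432.V
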