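import Pool.Agent.R432.V7

/-!
# The places of `L = ℚ(∛l : l ∈ S)` above a prime number, through `F = L(ω)`
-/

set_option autoImplicit false
set_option linter.unusedSectionVars false

open NumberField IsDedekindDomain Filter Complex
open scoped Topology Classical

namespace Pool.Agent.R432.V

open Pool.Agent.Y692.QS hiding chi
open Pool.Agent.Y715.T.Rec (cs nn)
open Pool.Agent.Y715.T.RecG (Pq cs_spec)
open Pool.Agent.Y696.CT (pq_star cs_star_int cs_inert inert int_ndvd im_star_ne)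
open Pool.Agent.R432.C (pq_dvd)

variable {K L F : Type} [Field K] [NumberField K] [Field L] [NumberField L] [Field F]
  [NumberField F] [Algebra K F] [Algebra L F] {j : Ei ≃+* 𝓞 K}

/-- `F = K(∛l : l ∈ S) = L(ω)` -/
structure Ctx (L : Type) [Field L] [NumberField L] [Algebra L F] (j : Ei ≃+* 𝓞 K) (S : Finset ℕ)
    (x : {l : ℕ // l ∈ S} → 𝓞 F) : Prop where
  gal : IsGalois K F
  gal' : IsGalois L F
  deg : Module.finrank K F = 3 ^ S.card
  deg' : Module.finrank L F = 2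
  cube : ∀ i, x i ^ 3 = io F j ((i.1 : ℕ) : Ei)
  gen : ∀ M : Subfield F, (∀ k : K, algebraMap K F k ∈ M) → (∀ i, (x i : F) ∈ M) → M = ⊤
  gen' : ∀ g : F ≃ₐ[L] F, g • io F j w = io F j w → g = 1

lemma not_sq {p : ℕ} (hp : p.Prime) {f m : ℕ} (hf : f % 2 = 1) : p ^ f ≠ m ^ 2 := by
  intro h
  have h1 : m ∣ p ^ f := ⟨m, by rw [h, pow_two]⟩
  obtain ⟨k, -, rfl⟩ := (Nat.dvd_prime_pow hp).1 h1
  rw [← pow_mul] at h
  have h2 := Nat.pow_right_injective hp.two_le h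
  omega

lemma Tr_conj {c : 𝓞 F} {v : HeightOneSpectrum (𝓞 F)} {x : ℂ} (h : Tr c v x) :
    Tr c v ((starRingEnd ℂ) x) := by
  refine ⟨?_, ?_⟩
  · rw [Complex.conj_conj, add_comm]
    exact h.1
  · rw [Complex.conj_conj, mul_comm]
    exact h.2

lemma io_nat (n : ℕ) : io F j ((n : ℕ) : Ei) = ((n : ℕ) : 𝓞 F) := map_natCast _ n

lemma io_w : io F j w ^ 2 + io F j w + 1 = 0 := by
  have h : (w : Ei) ^ 2 + w + 1 = 0 := by decide
  rw [← map_pow, ← map_add, ← map_one (io F j), ← map_add, h, map_zero]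

lemma ndvd_nat {p : ℕ} (hp : p.Prime) {α : Ei} (hn : nr α = p) {n : ℕ} (h : ¬ p ∣ n) :
    ¬ α ∣ ((n : ℕ) : Ei) := by
  have hf := Fact.mk hp
  have h1 := int_ndvd hn (D := (n : ℤ)) (fun h2 => h (by exact_mod_cast h2))
  rwa [Int.cast_natCast] at h1

lemma cs_star_nat {α : Ei} (hα : Pq α) {n : ℕ} (h : ¬ α ∣ ((n : ℕ) : Ei)) :
    cs (star α) ((n : ℕ) : Ei) = -cs α ((n : ℕ) : Ei) := by
  have h1 := cs_star_int hα (n := (n : ℤ)) (by rwa [Int.cast_natCast])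
  rwa [Int.cast_natCast] at h1

lemma fo_star {I : Type} (d : I → ℕ) {α : Ei} (hα : Pq α) (h : ∀ i, ¬ α ∣ ((d i : ℕ) : Ei)) :
    fo (fun i => ((d i : ℕ) : Ei)) (star α) = fo (fun i => ((d i : ℕ) : Ei)) α := by
  unfold fo
  have h1 : (∀ i, cs (star α) ((d i : ℕ) : Ei) = 0) ↔ ∀ i, cs α ((d i : ℕ) : Ei) = 0 := by
    constructor
    · intro h2 i
      have h3 := h2 i
      rwa [cs_star_nat hα (h i), neg_eq_zero] at h3
    · intro h2 i
      rw [cs_star_nat hα (h i), h2 i, neg_zero]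
  by_cases h2 : ∀ i, cs α ((d i : ℕ) : Ei) = 0
  · rw [if_pos h2, if_pos (h1.2 h2)]
  · rw [if_neg h2, if_neg fun h3 => h2 (h1.1 h3)]

theorem places1 {S : Finset ℕ} {x : {l : ℕ // l ∈ S} → 𝓞 F} (C : Ctx L j S x) {p : ℕ}
    (hp : p.Prime) (h1 : p % 3 = 1) {α : Ei} (hα : Pq α) (hn : nr α = p)
    (hS : ∀ l ∈ S, ¬ p ∣ l) {D : ℕ} (hD : ¬ p ∣ D) {f : ℕ}
    (hf : f = fo (fun i : {l : ℕ // l ∈ S} => ((i.1 : ℕ) : Ei)) α) :
    (Finite {u : HeightOneSpectrum (𝓞 L) // ((p : ℕ) : 𝓞 L) ∈ u.asIdeal} ∧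
    Nat.card {u : HeightOneSpectrum (𝓞 L) // ((p : ℕ) : 𝓞 L) ∈ u.asIdeal} * f = 3 ^ S.card) ∧
    ∀ u : HeightOneSpectrum (𝓞 L), ((p : ℕ) : 𝓞 L) ∈ u.asIdeal → qv u = p ^ f ∧
      Tr ((D : ℕ) : 𝓞 L) u (toC (w ^ (-cs α ((D : ℕ) : Ei)).val * α) ^ f) := by
  have hgal := C.gal
  have hgal' := C.gal'
  have hα' := pq_star hα
  have hn' : nr (star α) = p := by rw [nr_star, hn]
  have hfo' : fo (fun i : {l : ℕ // l ∈ S} => ((i.1 : ℕ) : Ei)) (star α) = f := by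
    rw [hf]
    exact fo_star (fun i : {l : ℕ // l ∈ S} => i.1) hα fun i => ndvd_nat hp hn (hS i.1 i.2)
  obtain ⟨s1, s2⟩ := splitV (F := F) j (fun i : {l : ℕ // l ∈ S} => ((i.1 : ℕ) : Ei)) x C.cube
    C.gen hα (fun i => ndvd_nat hp hn (hS i.1 i.2))
  obtain ⟨s3, s4⟩ := splitV (F := F) j (fun i : {l : ℕ // l ∈ S} => ((i.1 : ℕ) : Ei)) x C.cube
    C.gen hα' (fun i => ndvd_nat hp hn' (hS i.1 i.2))
  rw [← hf, C.deg] at s2
  rw [hfo', C.deg] at s4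
  have hnat : (nr α).natAbs = p := by rw [hn]; exact Int.natAbs_natCast p
  have hnat' : (nr (star α)).natAbs = p := by rw [hn']; exact Int.natAbs_natCast p
  have hodd : f % 2 = 1 ∧ 0 < f := by
    rw [hf]
    unfold fo
    split_ifs <;> norm_num
  have hmul : io F j α * io F j (star α) = ((p : ℕ) : 𝓞 F) := by
    rw [← map_mul, mul_star, hn, Int.cast_natCast, io_nat]
  have hne : α ≠ star α := (im_star_ne hp hn).symm
  -- the places of `F`
  have hcase : ∀ v : HeightOneSpectrum (𝓞 F), ((p : ℕ) : 𝓞 F) ∈ v.asIdeal ↔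
      io F j α ∈ v.asIdeal ∨ io F j (star α) ∈ v.asIdeal := by
    intro v
    rw [← hmul]
    constructor
    · exact v.isPrime.mem_or_mem
    · rintro (h | h)
      · exact v.asIdeal.mul_mem_right _ h
      · exact v.asIdeal.mul_mem_left _ h
  have hqv : ∀ v : HeightOneSpectrum (𝓞 F), ((p : ℕ) : 𝓞 F) ∈ v.asIdeal → qv v = p ^ f ∧
      Tr ((D : ℕ) : 𝓞 F) v (toC (w ^ (-cs α ((D : ℕ) : Ei)).val * α) ^ f) := by
    intro v hv
    rcases (hcase v).1 hv with h | h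
    · have h5 := s1 v h
      rw [← hf] at h5
      have h6 := tr_at (io F j) hα h (ndvd_nat hp hn hD) h5
      rw [hnat] at h5
      rw [io_nat] at h6
      exact ⟨h5, h6⟩
    · have h5 := s3 v h
      rw [hfo'] at h5
      have h6 := tr_at (io F j) hα' h (ndvd_nat hp hn' hD) h5
      rw [hnat'] at h5
      rw [io_nat] at h6
      refine ⟨h5, ?_⟩
      have h7 := Tr_conj h6
      have h8 : (starRingEnd ℂ) (toC (w ^ (-cs (star α) ((D : ℕ) : Ei)).val * star α) ^ f) =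
          toC (w ^ (-cs α ((D : ℕ) : Ei)).val * α) ^ f := by
        rw [map_pow, ← Pool.Agent.Y696.CTK.toC_star', star_mul', star_star,
          cs_star_nat hα (ndvd_nat hp hn hD), neg_neg]
        have hst : star (w ^ (cs α ((D : ℕ) : Ei)).val : Ei) =
            w ^ (-cs α ((D : ℕ) : Ei)).val := by
          generalize cs α ((D : ℕ) : Ei) = c
          revert c
          decide
        rw [hst]
      rwa [h8] at h7
  -- count
  have hAne : Nat.card {v : HeightOneSpectrum (𝓞 F) // io F j α ∈ v.asIdeal} ≠ 0 := by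
    intro h0
    rw [h0, zero_mul] at s2
    exact absurd s2.symm (by positivity)
  have hBne : Nat.card {v : HeightOneSpectrum (𝓞 F) // io F j (star α) ∈ v.asIdeal} ≠ 0 := by
    intro h0
    rw [h0, zero_mul] at s4
    exact absurd s4.symm (by positivity)
  have hfA : Finite {v : HeightOneSpectrum (𝓞 F) // io F j α ∈ v.asIdeal} :=
    Nat.finite_of_card_ne_zero hAne
  have hfB : Finite {v : HeightOneSpectrum (𝓞 F) // io F j (star α) ∈ v.asIdeal} :=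
    Nat.finite_of_card_ne_zero hBne
  have hsplit : {v : HeightOneSpectrum (𝓞 F) | ((p : ℕ) : 𝓞 F) ∈ v.asIdeal} =
      {v | io F j α ∈ v.asIdeal} ∪ {v | io F j (star α) ∈ v.asIdeal} := by
    ext v
    exact hcase v
  have hdis : Disjoint {v : HeightOneSpectrum (𝓞 F) | io F j α ∈ v.asIdeal}
      {v | io F j (star α) ∈ v.asIdeal} := by
    rw [Set.disjoint_left]
    intro v hv1 hv2
    exact hne (pq_dvd hα hα' ((mem_iff (io F j) hα hv1 _).1 hv2))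
  have hfinA : {v : HeightOneSpectrum (𝓞 F) | io F j α ∈ v.asIdeal}.Finite :=
    Set.finite_coe_iff.1 hfA
  have hfinB : {v : HeightOneSpectrum (𝓞 F) | io F j (star α) ∈ v.asIdeal}.Finite :=
    Set.finite_coe_iff.1 hfB
  have hcnt : Nat.card {v : HeightOneSpectrum (𝓞 F) // ((p : ℕ) : 𝓞 F) ∈ v.asIdeal} =
      Nat.card {v : HeightOneSpectrum (𝓞 F) // io F j α ∈ v.asIdeal} +
      Nat.card {v : HeightOneSpectrum (𝓞 F) // io F j (star α) ∈ v.asIdeal} := by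
    have h5 := Set.ncard_union_eq hdis hfinA hfinB
    rw [← hsplit] at h5
    exact h5
  have hfinP : Finite {v : HeightOneSpectrum (𝓞 F) // ((p : ℕ) : 𝓞 F) ∈ v.asIdeal} := by
    have h5 : {v : HeightOneSpectrum (𝓞 F) | ((p : ℕ) : 𝓞 F) ∈ v.asIdeal}.Finite := by
      rw [hsplit]
      exact hfinA.union hfinB
    exact h5.to_subtype
  obtain ⟨hfu, hsum⟩ := card_sig (L := L) (F := F) p
  have h3u : ∀ u : HeightOneSpectrum (𝓞 L), ((p : ℕ) : 𝓞 L) ∈ u.asIdeal → (3 : 𝓞 L) ∉ u.asIdeal := by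
    intro u hu h3
    have h5 : IsCoprime (3 : ℤ) (p : ℤ) := by
      rw [Int.isCoprime_iff_gcd_eq_one]
      have h6 : Nat.Coprime 3 p := (Nat.coprime_primes Nat.prime_three hp).2 (by omega)
      exact_mod_cast h6
    obtain ⟨a, b, hab⟩ := h5
    apply u.isPrime.ne_top
    rw [Ideal.eq_top_iff_one]
    have h7 : ((a * 3 + b * p : ℤ) : 𝓞 L) = 1 := by rw [hab]; norm_num
    rw [← h7]
    push_cast
    exact u.asIdeal.add_mem (u.asIdeal.mul_mem_left _ h3) (u.asIdeal.mul_mem_left _ hu)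
  have hone : ∀ u : HeightOneSpectrum (𝓞 L), ((p : ℕ) : 𝓞 L) ∈ u.asIdeal →
      Nat.card {v : HeightOneSpectrum (𝓞 F) // Ov u v} = 2 ∧ qv u = p ^ f ∧
      Tr ((D : ℕ) : 𝓞 L) u (toC (w ^ (-cs α ((D : ℕ) : Ei)).val * α) ^ f) := by
    intro u hu
    obtain ⟨v, hv⟩ := exists_over (F := F) u
    obtain ⟨h5, h6⟩ := hqv v ((Ov_nat hv p).2 hu)
    rcases quad C.deg' (io_w (F := F) (j := j)) C.gen' (h3u u hu) hv with ⟨h7, h8⟩ | ⟨h7, h8⟩
    · exact ⟨h8, by rw [← h7, h5], Tr_of hv h7 h6⟩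
    · exfalso
      rw [h5] at h7
      exact not_sq hp hodd.1 h7
  refine ⟨⟨Finite.of_fintype _, ?_⟩, fun u hu => (hone u hu).2⟩
  rw [Finset.sum_congr rfl fun u _ => (hone u.1 u.2).1, Finset.sum_const, Finset.card_univ,
    ← Nat.card_eq_fintype_card, hcnt, smul_eq_mul] at hsum
  have h5 : Nat.card {u : HeightOneSpectrum (𝓞 L) // ((p : ℕ) : 𝓞 L) ∈ u.asIdeal} * 2 * f =
      3 ^ S.card + 3 ^ S.card := by
    rw [← hsum, add_mul, s2, s4]
  have h6 : Nat.card {u : HeightOneSpectrum (𝓞 L) // ((p : ℕ) : 𝓞 L) ∈ u.asIdeal} * f * 2 =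
      3 ^ S.card * 2 := by
    rw [mul_right_comm, h5]
    ring
  exact Nat.eq_of_mul_eq_mul_right (by norm_num) h6

theorem places2 {S : Finset ℕ} {x : {l : ℕ // l ∈ S} → 𝓞 F} (C : Ctx L j S x) {p : ℕ}
    (hp : p.Prime) (h2 : p % 3 = 2) (hS : ∀ l ∈ S, ¬ p ∣ l) {D : ℕ} (hD : ¬ p ∣ D) :
    (∃ _h : Fintype {u : HeightOneSpectrum (𝓞 L) // ((p : ℕ) : 𝓞 L) ∈ u.asIdeal},
      ∑ u : {u : HeightOneSpectrum (𝓞 L) // ((p : ℕ) : 𝓞 L) ∈ u.asIdeal},
        Nat.card {v : HeightOneSpectrum (𝓞 F) // Ov u.1 v} = 3 ^ S.card) ∧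
    ∀ u : HeightOneSpectrum (𝓞 L), ((p : ℕ) : 𝓞 L) ∈ u.asIdeal →
      (qv u = p ^ 2 ∧ Nat.card {v : HeightOneSpectrum (𝓞 F) // Ov u v} = 2 ∧
        Tr ((D : ℕ) : 𝓞 L) u (-(p : ℂ))) ∨
      (qv u = p ∧ Nat.card {v : HeightOneSpectrum (𝓞 F) // Ov u v} = 1) := by
  have hfact := Fact.mk hp
  have hgal := C.gal
  have hgal' := C.gal'
  have hα : Pq (-((p : ℕ) : Ei)) := inert hp h2
  have hnr : nr (-((p : ℕ) : Ei)) = (p : ℤ) ^ 2 := by rw [nr_neg, nr_nat]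
  have hnat : (nr (-((p : ℕ) : Ei))).natAbs = p ^ 2 := by
    rw [hnr, Int.natAbs_pow, Int.natAbs_natCast]
  have hnd : ∀ n : ℕ, ¬ p ∣ n → ¬ -((p : ℕ) : Ei) ∣ ((n : ℕ) : Ei) := by
    intro n hn h
    rw [neg_dvd] at h
    apply hn
    have h5 : (((p : ℕ) : ℤ) : Ei) ∣ (((n : ℕ) : ℤ) : Ei) := by
      rw [Int.cast_natCast, Int.cast_natCast]
      exact h
    exact_mod_cast int_dvd_int.1 h5
  have hcs : ∀ n : ℕ, ¬ p ∣ n → cs (-((p : ℕ) : Ei)) ((n : ℕ) : Ei) = 0 := by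
    intro n hn
    have h5 := cs_inert h2 hα (n := (n : ℤ)) (fun h => hn (by exact_mod_cast h))
    rwa [Int.cast_natCast] at h5
  have hfo : fo (fun i : {l : ℕ // l ∈ S} => ((i.1 : ℕ) : Ei)) (-((p : ℕ) : Ei)) = 1 := by
    have h5 : ∀ i : {l : ℕ // l ∈ S}, cs (-((p : ℕ) : Ei)) ((i.1 : ℕ) : Ei) = 0 :=
      fun i => hcs i.1 (hS i.1 i.2)
    unfold fo
    exact if_pos h5
  obtain ⟨s1, s2⟩ := splitV (F := F) j (fun i : {l : ℕ // l ∈ S} => ((i.1 : ℕ) : Ei)) x C.cube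
    C.gen hα (fun i => hnd i.1 (hS i.1 i.2))
  rw [hfo, C.deg, mul_one] at s2
  have hmem : ∀ v : HeightOneSpectrum (𝓞 F), io F j (-((p : ℕ) : Ei)) ∈ v.asIdeal ↔
      ((p : ℕ) : 𝓞 F) ∈ v.asIdeal := by
    intro v
    rw [map_neg, neg_mem_iff, io_nat]
  have hcnt : Nat.card {v : HeightOneSpectrum (𝓞 F) // ((p : ℕ) : 𝓞 F) ∈ v.asIdeal} =
      3 ^ S.card := by
    rw [← s2]
    exact Nat.card_congr (Equiv.subtypeEquivRight fun v => (hmem v).symm)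
  have hfinP : Finite {v : HeightOneSpectrum (𝓞 F) // ((p : ℕ) : 𝓞 F) ∈ v.asIdeal} :=
    Nat.finite_of_card_ne_zero (by rw [hcnt]; positivity)
  obtain ⟨hfu, hsum⟩ := card_sig (L := L) (F := F) p
  have h3u : ∀ u : HeightOneSpectrum (𝓞 L), ((p : ℕ) : 𝓞 L) ∈ u.asIdeal → (3 : 𝓞 L) ∉ u.asIdeal := by
    intro u hu h3
    have h5 : IsCoprime (3 : ℤ) (p : ℤ) := by
      rw [Int.isCoprime_iff_gcd_eq_one]
      have h6 : Nat.Coprime 3 p := (Nat.coprime_primes Nat.prime_three hp).2 (by omega)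
      exact_mod_cast h6
    obtain ⟨a, b, hab⟩ := h5
    apply u.isPrime.ne_top
    rw [Ideal.eq_top_iff_one]
    have h7 : ((a * 3 + b * p : ℤ) : 𝓞 L) = 1 := by rw [hab]; norm_num
    rw [← h7]
    push_cast
    exact u.asIdeal.add_mem (u.asIdeal.mul_mem_left _ h3) (u.asIdeal.mul_mem_left _ hu)
  refine ⟨⟨hfu, by rw [← hsum, hcnt]⟩, fun u hu => ?_⟩
  obtain ⟨v, hv⟩ := exists_over (F := F) u
  have hvp := (hmem v).2 ((Ov_nat hv p).2 hu)
  have h5 := s1 v hvp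
  rw [hfo] at h5
  have h6 := tr_at (io F j) hα hvp (hnd D hD) h5
  rw [hnat, pow_one] at h5
  have h5' : qv v = p ^ 2 := h5
  rw [io_nat, hcs D hD, neg_zero, ZMod.val_zero, pow_zero, one_mul, pow_one, map_neg,
    map_natCast] at h6
  rcases quad C.deg' (io_w (F := F) (j := j)) C.gen' (h3u u hu) hv with ⟨h7, h8⟩ | ⟨h7, h8⟩
  · left
    exact ⟨by rw [← h7, h5'], h8, Tr_of hv h7 h6⟩
  · right
    rw [h5'] at h7
    exact ⟨(Nat.pow_left_injective (n := 2) (by norm_num) h7).symm, h8⟩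

end Pool.Agent.R432.V
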