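import Pool.Agent.R432.V8

/-!
# From the primes of `K` to the prime numbers
-/

set_option autoImplicit false
set_option linter.unusedSectionVars false

open NumberField IsDedekindDomain Filter Complex
open scoped Topology Classical

namespace Pool.Agent.R432.V

open Pool.Agent.Y692.QS hiding chi
open Pool.Agent.Y715.T.Rec (cs nn)
open Pool.Agent.Y715.T.RecG (Pq cs_spec)
open Pool.Agent.Y696.CT (pq_star cs_star_int cs_inert inert int_ndvd im_star_ne gg chD_prime cs_mul')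
open Pool.Agent.R432.C
open Pool.Agent.R432.Q
open Pool.Agent.Y703.CT (IsHL chD Dt pD Ker Cls NoSplit)
open Pool.Agent.Y703.CX (pp)
open Pool.Agent.Y333.CX (pp_spec)

/-- the factor at `p` -/
noncomputable def Gp (g : Ei → ℂ) (p : ℕ) : ℂ :=
  if p % 3 = 1 then (1 - g (pp p))⁻¹ * (1 - g (star (pp p)))⁻¹ else (1 - g (-((p : ℕ) : Ei)))⁻¹

lemma nat_dvd_nat {a b : ℕ} (h : ((a : ℕ) : Ei) ∣ ((b : ℕ) : Ei)) : a ∣ b := by
  have h5 : (((a : ℕ) : ℤ) : Ei) ∣ (((b : ℕ) : ℤ) : Ei) := by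
    rw [Int.cast_natCast, Int.cast_natCast]
    exact h
  exact_mod_cast int_dvd_int.1 h5

lemma two_primes {α : Ei} (hα : Pq α) {p q : ℕ} (hp : p.Prime) (hq : q.Prime)
    (h1 : α ∣ ((p : ℕ) : Ei)) (h2 : α ∣ ((q : ℕ) : Ei)) : p = q := by
  by_contra hne
  have h5 : IsCoprime (p : ℤ) (q : ℤ) := by
    rw [Int.isCoprime_iff_gcd_eq_one]
    have h6 : Nat.Coprime p q := (Nat.coprime_primes hp hq).2 hne
    exact_mod_cast h6
  obtain ⟨a, b, hab⟩ := h5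
  apply hα.prime.not_isUnit
  apply isUnit_of_dvd_one
  have h7 : ((a * p + b * q : ℤ) : Ei) = 1 := by rw [hab]; norm_num
  rw [← h7]
  push_cast
  exact dvd_add (h1.mul_left _) (h2.mul_left _)

/-- the factors at the primes of `K` give the factors at the prime numbers -/
theorem regroup {g : Ei → ℂ} {M : ℕ} (h3 : 3 ∣ M) {a : ℂ}
    (h : HasProd (fun α : {α : Ei // Pq α ∧ ¬ α ∣ ((M : ℕ) : Ei)} => (1 - g α.1)⁻¹) a) :
    HasProd (fun p : {p : ℕ // p.Prime ∧ ¬ p ∣ M} => Gp g p.1) a := by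
  have hex : ∀ α : {α : Ei // Pq α ∧ ¬ α ∣ ((M : ℕ) : Ei)}, ∃ p : {p : ℕ // p.Prime ∧ ¬ p ∣ M},
      α.1 ∣ ((p.1 : ℕ) : Ei) := by
    rintro ⟨α, h1, h2⟩
    obtain ⟨p, hp, hd, -⟩ := Pool.Agent.Y715.T.Rec.exists_p h1.prime
    refine ⟨⟨p, hp, fun h4 => h2 (hd.trans ?_)⟩, hd⟩
    obtain ⟨c, rfl⟩ := h4
    exact ⟨(c : Ei), by push_cast; rfl⟩
  choose γ hγ using hex
  have hγu : ∀ (α : {α : Ei // Pq α ∧ ¬ α ∣ ((M : ℕ) : Ei)}) (p : {p : ℕ // p.Prime ∧ ¬ p ∣ M}),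
      α.1 ∣ ((p.1 : ℕ) : Ei) → γ α = p := by
    intro α p hp
    exact Subtype.ext (two_primes α.2.1 (γ α).2.1 p.2.1 (hγ α) hp)
  have h1 := (Equiv.sigmaFiberEquiv γ).hasProd_iff.2 h
  refine HasProd.sigma h1 fun p => ?_
  -- the fibre
  obtain ⟨p, hp, hpM⟩ := p
  have hp3 : p ≠ 3 := fun h4 => hpM (by rw [h4]; exact h3)
  have hm : p % 3 = 1 ∨ p % 3 = 2 := by
    have : p % 3 ≠ 0 := fun h => hp3
      ((Nat.prime_dvd_prime_iff_eq Nat.prime_three hp).1 (Nat.dvd_of_mod_eq_zero h)).symm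
    omega
  have hnd : ∀ {α : Ei}, α ∣ ((p : ℕ) : Ei) → Pq α → ¬ α ∣ ((M : ℕ) : Ei) := by
    intro α h4 h5 h6
    obtain ⟨q, hq, hqM, hqα⟩ : ∃ q : ℕ, q.Prime ∧ q ∣ M ∧ α ∣ ((q : ℕ) : Ei) := by
      by_cases hM0 : M = 0
      · exact absurd (by rw [hM0]; exact dvd_zero _) hpM
      · have h7 : ((M : ℕ) : Ei) = ((M.primeFactorsList.map (fun q : ℕ => (q : Ei))).prod) := by
          conv_lhs => rw [← Nat.prod_primeFactorsList hM0]
          rw [Nat.cast_list_prod]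
        rw [h7] at h6
        obtain ⟨y, hy, hyα⟩ := (h5.prime.dvd_prod_iff).1 h6
        obtain ⟨q, hq, rfl⟩ := List.mem_map.1 hy
        exact ⟨q, Nat.prime_of_mem_primeFactorsList hq, Nat.dvd_of_mem_primeFactorsList hq, hyα⟩
    rw [two_primes h5 hp hq h4 hqα] at hpM
    exact hpM hqM
  rcases hm with hm | hm
  · obtain ⟨hα, hn⟩ := pp_spec hp hm
    have hα' := pq_star hα
    have hprod : pp p * star (pp p) = ((p : ℕ) : Ei) := by
      rw [mul_star, hn, Int.cast_natCast]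
    have d1 : pp p ∣ ((p : ℕ) : Ei) := ⟨_, hprod.symm⟩
    have d2 : star (pp p) ∣ ((p : ℕ) : Ei) := ⟨pp p, by rw [mul_comm, hprod]⟩
    let P1 : {α : {α : Ei // Pq α ∧ ¬ α ∣ ((M : ℕ) : Ei)} // γ α = ⟨p, hp, hpM⟩} :=
      ⟨⟨pp p, hα, hnd d1 hα⟩, hγu _ _ d1⟩
    let P2 : {α : {α : Ei // Pq α ∧ ¬ α ∣ ((M : ℕ) : Ei)} // γ α = ⟨p, hp, hpM⟩} :=
      ⟨⟨star (pp p), hα', hnd d2 hα'⟩, hγu _ _ d2⟩
    have hne : P1 ≠ P2 := by
      intro h4
      have h5 : pp p = star (pp p) := congrArg (fun z => z.1.1) h4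
      exact im_star_ne hp hn h5.symm
    have hall : ∀ P : {α : {α : Ei // Pq α ∧ ¬ α ∣ ((M : ℕ) : Ei)} // γ α = ⟨p, hp, hpM⟩},
        P = P1 ∨ P = P2 := by
      intro P
      have h4 := hγ P.1
      rw [P.2] at h4
      have h5 : P.1.1 ∣ pp p * star (pp p) := by rw [hprod]; exact h4
      rcases P.1.2.1.prime.dvd_or_dvd h5 with h6 | h6
      · exact Or.inl (Subtype.ext (Subtype.ext (pq_dvd P.1.2.1 hα h6)))
      · exact Or.inr (Subtype.ext (Subtype.ext (pq_dvd P.1.2.1 hα' h6)))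
    have hP := hasProd_prod_of_ne_finset_one (L := .unconditional _) (s := {P1, P2})
      (f := fun P : {α : {α : Ei // Pq α ∧ ¬ α ∣ ((M : ℕ) : Ei)} // γ α = ⟨p, hp, hpM⟩} =>
        (1 - g P.1.1)⁻¹) (fun P hP => by
        exfalso
        apply hP
        rw [Finset.mem_insert, Finset.mem_singleton]
        exact hall P)
    rw [Finset.prod_pair hne] at hP
    unfold Gp
    rw [if_pos hm]
    exact hP
  · have hα : Pq (-((p : ℕ) : Ei)) := inert hp hm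
    have d1 : -((p : ℕ) : Ei) ∣ ((p : ℕ) : Ei) := neg_dvd.2 dvd_rfl
    let P1 : {α : {α : Ei // Pq α ∧ ¬ α ∣ ((M : ℕ) : Ei)} // γ α = ⟨p, hp, hpM⟩} :=
      ⟨⟨-((p : ℕ) : Ei), hα, hnd d1 hα⟩, hγu _ _ d1⟩
    have hall : ∀ P : {α : {α : Ei // Pq α ∧ ¬ α ∣ ((M : ℕ) : Ei)} // γ α = ⟨p, hp, hpM⟩},
        P = P1 := by
      intro P
      have h4 := hγ P.1
      rw [P.2] at h4
      have h5 : P.1.1 ∣ -((p : ℕ) : Ei) := by rw [dvd_neg]; exact h4
      exact Subtype.ext (Subtype.ext (pq_dvd P.1.2.1 hα h5))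
    have hP := hasProd_prod_of_ne_finset_one (L := .unconditional _) (s := {P1})
      (f := fun P : {α : {α : Ei // Pq α ∧ ¬ α ∣ ((M : ℕ) : Ei)} // γ α = ⟨p, hp, hpM⟩} =>
        (1 - g P.1.1)⁻¹) (fun P hP => by
        exfalso
        apply hP
        rw [Finset.mem_singleton]
        exact hall P)
    rw [Finset.prod_singleton] at hP
    have hm' : ¬ p % 3 = 1 := by omega
    unfold Gp
    simp only
    rw [if_neg hm']
    exact hP

/-- the prime number below -/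
lemma exists_p_below {L : Type} [Field L] [NumberField L] (u : HeightOneSpectrum (𝓞 L)) :
    ∃ p : ℕ, p.Prime ∧ ((p : ℕ) : 𝓞 L) ∈ u.asIdeal := by
  have hN := Ideal.absNorm_mem u.asIdeal
  have hN0 : Ideal.absNorm u.asIdeal ≠ 0 := fun h => u.ne_bot (Ideal.absNorm_eq_zero_iff.1 h)
  generalize Ideal.absNorm u.asIdeal = n at hN hN0
  induction n using Nat.recOnMul with
  | zero => exact absurd rfl hN0
  | one =>
    exfalso
    apply u.isPrime.ne_top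
    rw [Ideal.eq_top_iff_one]
    exact_mod_cast hN
  | prime p hp => exact ⟨p, hp, hN⟩
  | mul a b iha ihb =>
    have h1 : ((a : ℕ) : 𝓞 L) * ((b : ℕ) : 𝓞 L) ∈ u.asIdeal := by
      rw [← Nat.cast_mul]
      exact hN
    rcases u.isPrime.mem_or_mem h1 with h | h
    · exact iha h (by rintro rfl; simp at hN0)
    · exact ihb h (by rintro rfl; simp at hN0)

lemma p_below_unique {L : Type} [Field L] [NumberField L] {u : HeightOneSpectrum (𝓞 L)} {p q : ℕ}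
    (hp : p.Prime) (hq : q.Prime) (h1 : ((p : ℕ) : 𝓞 L) ∈ u.asIdeal)
    (h2 : ((q : ℕ) : 𝓞 L) ∈ u.asIdeal) : p = q := by
  by_contra hne
  have h5 : IsCoprime (p : ℤ) (q : ℤ) := by
    rw [Int.isCoprime_iff_gcd_eq_one]
    have h6 : Nat.Coprime p q := (Nat.coprime_primes hp hq).2 hne
    exact_mod_cast h6
  obtain ⟨a, b, hab⟩ := h5
  apply u.isPrime.ne_top
  rw [Ideal.eq_top_iff_one]
  have h7 : ((a * p + b * q : ℤ) : 𝓞 L) = 1 := by rw [hab]; norm_num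
  rw [← h7]
  push_cast
  exact u.asIdeal.add_mem (u.asIdeal.mul_mem_left _ h1) (u.asIdeal.mul_mem_left _ h2)

end Pool.Agent.R432.V
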